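import Pool.Agent.FQ.Defs

/-!
# Project FQ, row CG: expectations of functions which depend on few coordinates (helper16)
-/

set_option autoImplicit false

namespace Pool.Agent.FQ

open Finset
open Pool.Agent.H73.Cube (EE Loc)

section

variable {ι α : Type} [Fintype ι] [DecidableEq ι] [Fintype α]

/-- Changing the law of one coordinate on which the function does not depend. -/
theorem congr_one (P : ι → α → ℝ) (i : ι) (q : α → ℝ) (f : (ι → α) → ℝ)
    (hPi : ∑ a, P i a = 1) (hq : ∑ a, q a = 1)
    (hf : ∀ ω a, f (Function.update ω i a) = f ω) :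
    EE (Function.update P i q) f = EE P f := by
  classical
  unfold EE
  let e : (ι → α) × α ≃ (ι → α) × α :=
    { toFun := fun p => (Function.update p.1 i p.2, p.1 i)
      invFun := fun p => (Function.update p.1 i p.2, p.1 i)
      left_inv := by intro p; simp
      right_inv := by intro p; simp }
  have h1 : ∑ ω : ι → α, (∏ j, P j (ω j)) * f ω =
      ∑ p : (ι → α) × α, (∏ j ∈ univ.erase i, P j (p.1 j)) * P i (p.1 i) * q p.2 * f p.1 := by
    rw [Fintype.sum_prod_type]
    refine sum_congr rfl fun ω _ => ?_
    have e1 : ∀ a, (∏ j ∈ univ.erase i, P j (ω j)) * P i (ω i) * q a * f ω =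
        q a * ((∏ j, P j (ω j)) * f ω) := by
      intro a
      rw [← mul_prod_erase univ (fun j => P j (ω j)) (mem_univ i)]
      ring
    show (∏ j, P j (ω j)) * f ω =
      ∑ a, (∏ j ∈ univ.erase i, P j (ω j)) * P i (ω i) * q a * f ω
    simp only [e1]
    rw [← sum_mul, hq, one_mul]
  have h2 : ∑ ω : ι → α, (∏ j, Function.update P i q j (ω j)) * f ω =
      ∑ p : (ι → α) × α, (∏ j ∈ univ.erase i, P j (p.1 j)) * P i p.2 * q (p.1 i) * f p.1 := by
    rw [Fintype.sum_prod_type]
    refine sum_congr rfl fun ω _ => ?_
    have e1 : ∀ a, (∏ j ∈ univ.erase i, P j (ω j)) * P i a * q (ω i) * f ω =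
        P i a * ((∏ j, Function.update P i q j (ω j)) * f ω) := by
      intro a
      have e2 : ∏ j ∈ univ.erase i, Function.update P i q j (ω j) =
          ∏ j ∈ univ.erase i, P j (ω j) := by
        refine prod_congr rfl fun j hj => ?_
        rw [Function.update_of_ne (ne_of_mem_erase hj)]
      rw [← mul_prod_erase univ (fun j => Function.update P i q j (ω j)) (mem_univ i), e2,
        Function.update_self]
      ring
    show (∏ j, Function.update P i q j (ω j)) * f ω =
      ∑ a, (∏ j ∈ univ.erase i, P j (ω j)) * P i a * q (ω i) * f ω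
    simp only [e1]
    rw [← sum_mul, hPi, one_mul]
  rw [h1, h2, ← e.sum_comp]
  refine sum_congr rfl fun p _ => ?_
  have e1 : (e p).1 = Function.update p.1 i p.2 := rfl
  have e2 : (e p).2 = p.1 i := rfl
  have e3 : ∏ j ∈ univ.erase i, P j (Function.update p.1 i p.2 j) =
      ∏ j ∈ univ.erase i, P j (p.1 j) := by
    refine prod_congr rfl fun j hj => ?_
    rw [Function.update_of_ne (ne_of_mem_erase hj)]
  rw [e1, e2, e3, Function.update_self, hf]

end

/-- Row CG. -/
theorem congr_on : CongrStatement := by
  classical
  intro ι α _ _ _ P P' I f g hP hP' hI hfg hloc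
  have hg : g = f := (funext hfg).symm
  rw [hg]
  have key : ∀ s : Finset ι, (∀ i ∈ s, ¬ I i) →
      EE (fun i => if i ∈ s then P' i else P i) f = EE P f := by
    intro s
    induction s using Finset.induction_on with
    | empty => intro _; simp
    | insert i s hi ih =>
      intro h
      have hI' : ¬ I i := h i (mem_insert_self i s)
      rw [← ih (fun j hj => h j (mem_insert_of_mem hj))]
      have h1 : (fun j => if j ∈ insert i s then P' j else P j) =
          Function.update (fun j => if j ∈ s then P' j else P j) i (P' i) := by
        funext j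
        by_cases hj : j = i
        · subst hj
          rw [Function.update_self, if_pos (mem_insert_self j s)]
        · rw [Function.update_of_ne hj]
          simp [hj]
      rw [h1]
      refine congr_one _ i (P' i) f ?_ (hP' i) ?_
      · show ∑ a, (if i ∈ s then P' i else P i) a = 1
        rw [if_neg hi]
        exact hP i
      · intro ω a
        refine hloc _ _ fun j hj => ?_
        rw [Function.update_of_ne]
        rintro rfl
        exact hI' hj
  rw [← key (univ.filter fun i => ¬ I i) (fun i hi => (mem_filter.1 hi).2)]
  congr 1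
  funext i
  by_cases h : I i
  · have hn : i ∉ univ.filter (fun i => ¬ I i) := by simp [h]
    rw [if_neg hn]
    funext a
    exact hI i h a
  · have hn : i ∈ univ.filter (fun i => ¬ I i) := by simp [h]
    rw [if_pos hn]

end Pool.Agent.FQ
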