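import Pool.Agent.FQ.Defs

/-!
# Project FQ, row CH: exponential moment of a sum of independent indicators
-/

set_option autoImplicit false

namespace Pool.Agent.FQ

open Finset Classical
open Pool.Agent.H73.Cube (EE Loc)

theorem ch_exp_ind (p : Prop) (l : ℝ) :
    Real.exp (l * ind p) = 1 + ind p * (Real.exp l - 1) := by
  unfold ind
  by_cases h : p
  · rw [if_pos h]
    ring_nf
  · rw [if_neg h]
    simp

theorem ch_one {α : Type} [Fintype α] (P : α → ℝ) (T : α → Prop) (l : ℝ) (hP : ∀ a, 0 ≤ P a)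
    (h1 : ∑ a, P a = 1) (hl : |l| ≤ 1) :
    ∑ a, P a * Real.exp (l * (ind (T a) - ∑ b, P b * ind (T b))) ≤
      Real.exp (l ^ 2 * ∑ b, P b * ind (T b)) := by
  obtain ⟨p, hp⟩ : ∃ p : ℝ, p = ∑ b, P b * ind (T b) := ⟨_, rfl⟩
  rw [← hp]
  have hp0 : 0 ≤ p := by
    rw [hp]
    refine Finset.sum_nonneg fun b _ => mul_nonneg (hP b) ?_
    unfold ind
    split_ifs <;> norm_num
  have h2 : ∑ a, P a * Real.exp (l * (ind (T a) - p)) =
      Real.exp (-(l * p)) * (1 + p * (Real.exp l - 1)) := by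
    have h3 : ∀ a, P a * Real.exp (l * (ind (T a) - p)) =
        Real.exp (-(l * p)) * (P a + P a * ind (T a) * (Real.exp l - 1)) := by
      intro a
      have h4 : l * (ind (T a) - p) = -(l * p) + l * ind (T a) := by ring
      rw [h4, Real.exp_add, ch_exp_ind]
      ring
    rw [Finset.sum_congr rfl fun a _ => h3 a, ← Finset.mul_sum, Finset.sum_add_distrib, h1,
      ← Finset.sum_mul, ← hp]
  rw [h2]
  have h3 : 1 + p * (Real.exp l - 1) ≤ Real.exp (p * (Real.exp l - 1)) := by
    have := Real.add_one_le_exp (p * (Real.exp l - 1))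
    linarith
  calc Real.exp (-(l * p)) * (1 + p * (Real.exp l - 1))
      ≤ Real.exp (-(l * p)) * Real.exp (p * (Real.exp l - 1)) :=
        mul_le_mul_of_nonneg_left h3 (Real.exp_pos _).le
    _ = Real.exp (p * (Real.exp l - 1 - l)) := by
        rw [← Real.exp_add]
        congr 1
        ring
    _ ≤ Real.exp (l ^ 2 * p) := by
        apply Real.exp_le_exp.2
        have h4 := (abs_le.1 (Real.abs_exp_sub_one_sub_id_le hl)).2
        nlinarith

theorem chernoff : ChernoffStatement := by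
  intro ι α _ _ _ P T l hP h1 hl
  unfold EE
  have h2 : ∀ ω : ι → α, (∏ i, P i (ω i)) *
      Real.exp (l * (∑ i, ind (T i (ω i)) - ∑ i, ∑ a, P i a * ind (T i a))) =
      ∏ i, (P i (ω i) * Real.exp (l * (ind (T i (ω i)) - ∑ a, P i a * ind (T i a)))) := by
    intro ω
    rw [Finset.prod_mul_distrib, ← Real.exp_sum, ← Finset.mul_sum, Finset.sum_sub_distrib]
  rw [Finset.sum_congr rfl fun ω _ => h2 ω,
    ← Fintype.prod_sum (fun i a => P i a *
      Real.exp (l * (ind (T i a) - ∑ b, P i b * ind (T i b)))), Finset.mul_sum, Real.exp_sum]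
  refine Finset.prod_le_prod ?_ ?_
  · intro i _
    exact Finset.sum_nonneg fun a _ => mul_nonneg (hP i a) (Real.exp_pos _).le
  · intro i _
    exact ch_one (P i) (T i) l (hP i) (h1 i) hl

end Pool.Agent.FQ
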