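import Pool.Agent.H73.Cube.Local

/-!
# Project FQ (full hypercube, MP_a55b9e_co): common definitions

See note 5216 on MP_a55b9e_co.
-/

set_option autoImplicit false

namespace Pool.Agent.FQ

open Finset Classical
open Pool.Agent.H73.Cube (EE Loc)

/-- The numerical relations between the dimension `n`, the size `N` of the two sides, the size
`s` of the blocks and `b = exp (n / 8000)`. -/
structure Num (n N s : ℕ) (b : ℝ) : Prop where
  hn : 1000 ≤ n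
  hnb : (n : ℝ) ^ 400 ≤ b
  hNb : b ^ 5000 ≤ (N : ℝ)
  hbN : (N : ℝ) ≤ b ^ 6000
  hNn : (N : ℝ) ≤ Real.exp n
  hexp : Real.exp n ≤ b ^ 9000
  hsb : b ^ 300 ≤ (s : ℝ)
  hbs : (s : ℝ) ≤ b ^ 400
  hsN : s ≤ N

/-- Common neighbours of a tuple. -/
noncomputable def NbS {X Y : Type} [Fintype Y] (ok : X → Y → Prop) {n : ℕ} (S : Fin n → X) :
    Finset Y :=
  univ.filter (fun y => ∀ i, ok (S i) y)

/-- Indicator. -/
noncomputable def ind (p : Prop) : ℝ := if p then 1 else 0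

/-! ## General lemmas -/

/-- Row HL: perfect matching from a weight function. -/
def HLStatement : Prop :=
  ∀ (R V : Type) [Fintype R] [Fintype V] (a : R → V → Prop) (w : R → V → ℝ) (τ ε ρ : ℝ),
    Fintype.card R = Fintype.card V → (∀ r v, 0 ≤ w r v) → (∀ r v, ¬ a r v → w r v = 0) →
    (∀ r, ∑ v, w r v = 1) → (∀ v, ∑ r, w r v ≤ 1 + τ) →
    (∀ r v, a r v → ε ≤ w r v * Fintype.card V) → 0 ≤ ε →
    (∀ v v', v ≠ v' → ρ * Fintype.card R ≤ ((univ.filter (fun r => a r v ∧ a r v')).card : ℝ)) →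
    τ ≤ ε * ρ → ∃ e : R ≃ V, ∀ r, a r (e r)

/-- Row LP: transport with capacities. -/
def LPStatement : Prop :=
  ∀ (I V : Type) [Fintype I] [Fintype V] (π r : I → ℝ) (κ : I → V → ℝ) (t : V → ℝ),
    (∀ i, 0 ≤ π i) → (∀ i, 0 ≤ r i) → (∀ i v, 0 ≤ κ i v) → (∀ v, 0 ≤ t v) →
    (∀ W : Finset V, ∑ v ∈ W, t v ≤ ∑ i, π i * min (r i) (∑ v ∈ W, κ i v)) →
    ∃ p : I → V → ℝ, (∀ i v, 0 ≤ p i v) ∧ (∀ i v, p i v ≤ κ i v) ∧ (∀ i, ∑ v, p i v ≤ r i) ∧
      ∀ v, ∑ i, π i * p i v = t v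

/-- Row LAP: the potential. -/
def LapStatement : Prop :=
  ∀ (X : Type) [Fintype X] [Nonempty X] (K : X → X → ℝ) (k φ : ℝ) (f : X → ℝ), 0 < k →
    (∀ x x', K x x' = K x' x) → (∀ x x', x ≠ x' → k ≤ K x x') → ∑ x, f x = 0 →
    (∀ x, |f x| ≤ φ) →
    ∃ ψ : X → ℝ, (∀ x, ∑ x', K x x' * (ψ x - ψ x') = f x) ∧
      ∀ x, |ψ x| * (k * Fintype.card X) ≤ φ

/-- Row CH: exponential moment of a sum of independent indicators. -/
def ChernoffStatement : Prop :=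
  ∀ (ι α : Type) [Fintype ι] [DecidableEq ι] [Fintype α] (P : ι → α → ℝ) (T : ι → α → Prop)
    (l : ℝ), (∀ i a, 0 ≤ P i a) → (∀ i, ∑ a, P i a = 1) → |l| ≤ 1 →
    EE P (fun ω => Real.exp (l * (∑ i, ind (T i (ω i)) - ∑ i, ∑ a, P i a * ind (T i a)))) ≤
      Real.exp (l ^ 2 * ∑ i, ∑ a, P i a * ind (T i a))

/-- Row CG: expectations of functions which depend on few coordinates. -/
def CongrStatement : Prop :=
  ∀ (ι α : Type) [Fintype ι] [DecidableEq ι] [Fintype α] (P P' : ι → α → ℝ) (I : ι → Prop)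
    (f g : (ι → α) → ℝ), (∀ i, ∑ a, P i a = 1) → (∀ i, ∑ a, P' i a = 1) →
    (∀ i, I i → ∀ a, P i a = P' i a) → (∀ ω, f ω = g ω) →
    (∀ ω ω', (∀ i, I i → ω i = ω' i) → f ω = f ω') → EE P f = EE P' g

/-- Row PI: products of indicators of distinct values. -/
def ProdIndStatement : Prop :=
  ∀ (ι Dl : Type) [Fintype ι] [DecidableEq ι] [Fintype Dl] [DecidableEq Dl]
    (P : ι → Option Dl → ℝ) (n : ℕ) (D : Fin n → Dl) (S : Fin n → ι) (T : Finset (Fin n)),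
    (∀ i a, 0 ≤ P i a) → (∀ i, ∑ a, P i a = 1) → Function.Injective D →
    EE P (fun ω => ∏ i ∈ T, ind (ω (S i) = some (D i))) ≤ ∏ i ∈ T, P (S i) (some (D i)) ∧
    (Function.Injective S → EE P (fun ω => ∏ i ∈ T, ind (ω (S i) = some (D i))) =
      ∏ i ∈ T, P (S i) (some (D i)))

end Pool.Agent.FQ
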