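import Pool.Agent.FQ.GDefs

/-!
# Project FQ, rows B1 and B2: the boxes are Lipschitz, balls of boxes
-/

set_option autoImplicit false

namespace Pool.Agent.FQ

open Finset Classical

/-- The coordinates of the groups. -/
lemma gb_lt {k K w : ℕ} (hk : K * w ≤ k) (g : Fin K) (t : Fin w) : g.1 * w + t.1 < k := by
  have h1 := g.2
  have h2 := t.2
  have h3 : g.1 * w + w ≤ K * w := by
    have := Nat.mul_le_mul_right w (Nat.succ_le_of_lt h1)
    rwa [Nat.succ_mul] at this
  omega

/-- Row B1: the box is Lipschitz. -/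
theorem b1 : B1Statement := by
  intro k K w hk h h'
  let idx : Fin K → Fin w → Fin k := fun g t => ⟨g.1 * w + t.1, gb_lt hk g t⟩
  let D : Fin K → Finset (Fin w) := fun g => univ.filter fun t => h (idx g t) ≠ h' (idx g t)
  have h1 : ∀ g, (((boxC K w hk h g : ℕ) : ℤ) - ((boxC K w hk h' g : ℕ) : ℤ)).natAbs ≤
      (D g).card := by
    intro g
    have a1 : (boxC K w hk h g : ℕ) ≤ (boxC K w hk h' g : ℕ) + (D g).card := by
      suffices hsub : (univ.filter (fun t : Fin w => h (idx g t) ≠ 0)) ⊆
          (univ.filter (fun t : Fin w => h' (idx g t) ≠ 0)) ∪ D g from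
        (card_le_card hsub).trans (card_union_le _ _)
      intro t ht
      rw [mem_filter] at ht
      rw [mem_union, mem_filter, mem_filter]
      by_cases e : h (idx g t) = h' (idx g t)
      · exact Or.inl ⟨mem_univ _, fun e2 => ht.2 (e.trans e2)⟩
      · exact Or.inr ⟨mem_univ _, e⟩
    have a2 : (boxC K w hk h' g : ℕ) ≤ (boxC K w hk h g : ℕ) + (D g).card := by
      suffices hsub : (univ.filter (fun t : Fin w => h' (idx g t) ≠ 0)) ⊆
          (univ.filter (fun t : Fin w => h (idx g t) ≠ 0)) ∪ D g from
        (card_le_card hsub).trans (card_union_le _ _)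
      intro t ht
      rw [mem_filter] at ht
      rw [mem_union, mem_filter, mem_filter]
      by_cases e : h (idx g t) = h' (idx g t)
      · exact Or.inl ⟨mem_univ _, fun e2 => ht.2 (e.symm.trans e2)⟩
      · exact Or.inr ⟨mem_univ _, e⟩
    omega
  have h2 : dB (boxC K w hk h) (boxC K w hk h') ≤ ∑ g, (D g).card := sum_le_sum fun g _ => h1 g
  refine h2.trans ?_
  rw [← card_sigma]
  refine card_le_card_of_injOn (fun p => idx p.1 p.2) ?_ ?_
  · rintro ⟨g, t⟩ hp
    have hp2 := (mem_sigma.1 (mem_coe.1 hp)).2
    have hp3 := (mem_filter.1 hp2).2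
    exact mem_coe.2 (mem_filter.2 ⟨mem_univ _, hp3⟩)
  · rintro ⟨g, t⟩ _ ⟨g', t'⟩ _ he
    have he1 : g.1 * w + t.1 = g'.1 * w + t'.1 := congrArg Fin.val he
    have ht := t.2
    have ht' := t'.2
    have hg : g.1 = g'.1 := by
      have e1 : (g.1 * w + t.1) / w = g.1 := by
        rw [mul_comm, Nat.mul_add_div (by omega), Nat.div_eq_of_lt ht, add_zero]
      have e2 : (g'.1 * w + t'.1) / w = g'.1 := by
        rw [mul_comm, Nat.mul_add_div (by omega), Nat.div_eq_of_lt ht', add_zero]
      rw [← e1, ← e2, he1]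
    have hg' : g = g' := Fin.ext hg
    subst hg'
    have ht3 : t = t' := Fin.ext (by omega)
    subst ht3
    rfl

/-- Row B2: balls of boxes. -/
theorem b2 : B2Statement := by
  intro K w σ
  constructor
  · let f : Fin K × Bool → (Fin K → Fin (w + 1)) := fun p =>
      Function.update σ p.1 (if p.2 then ⟨min (σ p.1 + 1) w, by omega⟩ else
        ⟨(σ p.1 : ℕ) - 1, by have := (σ p.1).2; omega⟩)
    have hsub : (univ.filter (fun σ' => dB σ σ' ≤ 1)) ⊆ insert σ (univ.image f) := by
      intro σ' hσ'
      have hd : dB σ σ' ≤ 1 := (mem_filter.1 hσ').2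
      rw [mem_insert]
      by_cases he : σ' = σ
      · exact Or.inl he
      · right
        obtain ⟨i, hi⟩ := Function.ne_iff.1 he
        have hs := add_sum_erase univ
          (fun g => (((σ g : ℕ) : ℤ) - ((σ' g : ℕ) : ℤ)).natAbs) (mem_univ i)
        have hs' : (((σ i : ℕ) : ℤ) - ((σ' i : ℕ) : ℤ)).natAbs +
          ∑ g ∈ univ.erase i, (((σ g : ℕ) : ℤ) - ((σ' g : ℕ) : ℤ)).natAbs = dB σ σ' := hs
        have hi' : (σ' i : ℕ) ≠ (σ i : ℕ) := fun h0 => hi (Fin.ext h0)
        have ho : ∀ g, g ≠ i → σ' g = σ g := by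
          intro g hg
          have h3 : (((σ g : ℕ) : ℤ) - ((σ' g : ℕ) : ℤ)).natAbs ≤
              ∑ g ∈ univ.erase i, (((σ g : ℕ) : ℤ) - ((σ' g : ℕ) : ℤ)).natAbs :=
            single_le_sum (f := fun g => (((σ g : ℕ) : ℤ) - ((σ' g : ℕ) : ℤ)).natAbs)
              (fun _ _ => Nat.zero_le _) (mem_erase.2 ⟨hg, mem_univ g⟩)
          apply Fin.ext
          omega
        rw [mem_image]
        have hw := (σ' i).2
        rcases lt_or_gt_of_ne hi' with h4 | h4
        · refine ⟨(i, false), mem_univ _, ?_⟩
          funext g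
          by_cases hg : g = i
          · subst hg
            simp only [f, Function.update_self, Bool.false_eq_true, if_false]
            apply Fin.ext
            simp only
            omega
          · simp only [f, Function.update_of_ne hg]
            exact (ho g hg).symm
        · refine ⟨(i, true), mem_univ _, ?_⟩
          funext g
          by_cases hg : g = i
          · subst hg
            simp only [f, Function.update_self, if_true]
            apply Fin.ext
            simp only
            omega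
          · simp only [f, Function.update_of_ne hg]
            exact (ho g hg).symm
    calc (univ.filter (fun σ' => dB σ σ' ≤ 1)).card ≤ (insert σ (univ.image f)).card :=
          card_le_card hsub
      _ ≤ (univ.image f).card + 1 := card_insert_le _ _
      _ ≤ (univ : Finset (Fin K × Bool)).card + 1 := Nat.add_le_add_right card_image_le 1
      _ = 2 * K + 1 := by
        rw [card_univ, Fintype.card_prod, Fintype.card_fin, Fintype.card_bool, mul_comm]
  · intro t
    have hsub : (univ.filter (fun σ' => dB σ σ' ≤ t)) ⊆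
        Fintype.piFinset fun g => (univ : Finset (Fin (w + 1))).filter
          fun a : Fin (w + 1) => (((σ g : ℕ) : ℤ) - ((a : ℕ) : ℤ)).natAbs ≤ t := by
      intro σ' hσ'
      have hd : dB σ σ' ≤ t := (mem_filter.1 hσ').2
      rw [Fintype.mem_piFinset]
      intro g
      refine mem_filter.2 ⟨mem_univ _, ?_⟩
      refine le_trans ?_ hd
      exact single_le_sum (f := fun g => (((σ g : ℕ) : ℤ) - ((σ' g : ℕ) : ℤ)).natAbs)
        (fun _ _ => Nat.zero_le _) (mem_univ g)
    refine (card_le_card hsub).trans ?_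
    rw [Fintype.card_piFinset]
    have hb : ∀ g : Fin K, ((univ : Finset (Fin (w + 1))).filter
        fun a : Fin (w + 1) => (((σ g : ℕ) : ℤ) - ((a : ℕ) : ℤ)).natAbs ≤ t).card ≤ 2 * t + 1 := by
      intro g
      have h5 : ((univ : Finset (Fin (w + 1))).filter
          fun a : Fin (w + 1) => (((σ g : ℕ) : ℤ) - ((a : ℕ) : ℤ)).natAbs ≤ t).card ≤
          (Icc ((σ g : ℕ) - t) ((σ g : ℕ) + t)).card := by
        refine card_le_card_of_injOn (fun a : Fin (w + 1) => (a : ℕ)) ?_ ?_
        · intro a ha
          have ha2 := (mem_filter.1 (mem_coe.1 ha)).2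
          refine mem_coe.2 (mem_Icc.2 ?_)
          simp only
          omega
        · intro a _ b _ hab
          exact Fin.ext hab
      rw [Nat.card_Icc] at h5
      omega
    calc ∏ g : Fin K, ((univ : Finset (Fin (w + 1))).filter
          fun a : Fin (w + 1) => (((σ g : ℕ) : ℤ) - ((a : ℕ) : ℤ)).natAbs ≤ t).card
        ≤ ∏ _g : Fin K, (2 * t + 1) := prod_le_prod' fun g _ => hb g
      _ = (2 * t + 1) ^ K := by rw [prod_const, card_univ, Fintype.card_fin]

end Pool.Agent.FQ
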