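import Pool.Agent.FQ.GDefs
import Pool.Agent.VC.Geo

/-!
# Project FQ, row GB3: the measure of a box
-/

set_option autoImplicit false

namespace Pool.Agent.FQ

open Finset Classical

/-- the number of words of weight `j` -/
private theorem gb3_weight (w j : ℕ) :
    (univ.filter (fun u : Fin w → ZMod 2 =>
      (univ.filter (fun t => u t ≠ 0)).card = j)).card ≤ w.choose j := by
  have h1 : ((univ : Finset (Fin w)).powersetCard j).card = w.choose j := by
    rw [card_powersetCard, card_univ, Fintype.card_fin]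
  rw [← h1]
  refine card_le_card_of_injOn (fun u : Fin w → ZMod 2 => univ.filter (fun t => u t ≠ 0)) ?_ ?_
  · intro u hu
    rw [mem_coe, mem_filter] at hu
    rw [mem_coe, mem_powersetCard]
    exact ⟨subset_univ _, hu.2⟩
  · intro u _ v _ huv
    funext t
    have h2 : t ∈ univ.filter (fun t => u t ≠ 0) ↔ t ∈ univ.filter (fun t => v t ≠ 0) := by
      have h3 : univ.filter (fun t => u t ≠ 0) = univ.filter (fun t => v t ≠ 0) := huv
      rw [h3]
    rw [mem_filter, mem_filter] at h2
    have h4 : u t ≠ 0 ↔ v t ≠ 0 := by simpa using h2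
    have key : ∀ a b : ZMod 2, (a ≠ 0 ↔ b ≠ 0) → a = b := by decide
    exact key _ _ h4

/-- the coordinate `g w + t` -/
private theorem gb3_lt {k K w : ℕ} (hk : K * w ≤ k) (g : Fin K) (t : Fin w) :
    g.1 * w + t.1 < k := by
  have h1 := g.2
  have h2 := t.2
  have h3 : g.1 * w + w ≤ K * w := by
    have := Nat.mul_le_mul_right w (Nat.succ_le_of_lt h1)
    rwa [Nat.succ_mul] at this
  omega

theorem b3 : B3Statement := by
  intro k K w hk σ
  have h1 : (univ.filter (fun h : Fin k → ZMod 2 => boxC K w hk h = σ)).card ≤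
      (∏ g, w.choose (σ g)) * 2 ^ (k - K * w) := by
    set T : Finset ((Fin K → (Fin w → ZMod 2)) × (Fin (k - K * w) → ZMod 2)) :=
      (Fintype.piFinset (fun g : Fin K => univ.filter (fun u : Fin w → ZMod 2 =>
        (univ.filter (fun t => u t ≠ 0)).card = (σ g : ℕ)))) ×ˢ univ with hT
    have h2 : T.card ≤ (∏ g, w.choose (σ g)) * 2 ^ (k - K * w) := by
      rw [hT, card_product, Fintype.card_piFinset]
      refine Nat.mul_le_mul (prod_le_prod' fun g _ => gb3_weight w (σ g)) ?_
      rw [card_univ, Fintype.card_fun, ZMod.card, Fintype.card_fin]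
    refine le_trans ?_ h2
    refine card_le_card_of_injOn (fun h : Fin k → ZMod 2 =>
      (fun (g : Fin K) (t : Fin w) => h ⟨g.1 * w + t.1, gb3_lt hk g t⟩,
        fun j : Fin (k - K * w) => h ⟨K * w + j.1, by have := j.2; omega⟩)) ?_ ?_
    · intro h hh
      rw [mem_coe, mem_filter] at hh
      rw [mem_coe, hT, mem_product]
      refine ⟨?_, mem_univ _⟩
      rw [Fintype.mem_piFinset]
      intro g
      rw [mem_filter]
      refine ⟨mem_univ _, ?_⟩
      have h3 := congrArg Fin.val (congrFun hh.2 g)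
      exact h3
    · intro h _ h' _ hhh
      have e1 := congrArg Prod.fst hhh
      have e2 := congrArg Prod.snd hhh
      funext i
      by_cases hi : i.1 < K * w
      · have hw : 0 < w := by
          rcases Nat.eq_zero_or_pos w with h0 | h0
          · rw [h0, Nat.mul_zero] at hi
            exact absurd hi (Nat.not_lt_zero _)
          · exact h0
        have hg : i.1 / w < K := Nat.div_lt_of_lt_mul (by rwa [Nat.mul_comm] at hi)
        have ht : i.1 % w < w := Nat.mod_lt _ hw
        have h3 := congrFun (congrFun e1 ⟨i.1 / w, hg⟩) ⟨i.1 % w, ht⟩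
        have h4 : (⟨i.1 / w * w + i.1 % w, gb3_lt hk ⟨i.1 / w, hg⟩ ⟨i.1 % w, ht⟩⟩ : Fin k) = i :=
          Fin.ext (Nat.div_add_mod' _ _)
        simp only [h4] at h3
        exact h3
      · have hj : i.1 - K * w < k - K * w := by have := i.2; omega
        have h3 := congrFun e2 ⟨i.1 - K * w, hj⟩
        have h4 : (⟨K * w + (i.1 - K * w), by have := i.2; omega⟩ : Fin k) = i :=
          Fin.ext (by show K * w + (i.1 - K * w) = i.1; omega)
        simp only [h4] at h3
        exact h3
  calc (univ.filter (fun h : Fin k → ZMod 2 => boxC K w hk h = σ)).card ^ 2 * (w + 1) ^ K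
      ≤ ((∏ g, w.choose (σ g)) * 2 ^ (k - K * w)) ^ 2 * (w + 1) ^ K :=
        Nat.mul_le_mul_right _ (Nat.pow_le_pow_left h1 2)
    _ = (∏ g : Fin K, ((w.choose (σ g)) ^ 2 * (w + 1))) * (2 ^ (k - K * w)) ^ 2 := by
        rw [prod_mul_distrib, prod_pow, prod_const, card_univ, Fintype.card_fin]
        ring
    _ ≤ (∏ _g : Fin K, 4 ^ w) * (2 ^ (k - K * w)) ^ 2 :=
        Nat.mul_le_mul_right _ (prod_le_prod' fun g _ => Pool.Agent.VC.Geo.choose_sq w (σ g))
    _ = 4 ^ k := by
        rw [prod_const, card_univ, Fintype.card_fin, ← pow_mul, ← pow_mul, mul_comm (k - K * w) 2,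
          pow_mul 2 2, show (2 : ℕ) ^ 2 = 4 by norm_num, ← pow_add, mul_comm w K,
          Nat.add_sub_cancel' hk]

end Pool.Agent.FQ
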