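import Pool.Agent.FQ.Defs

/-!
# Project FQ, row GE: random centres
-/

set_option autoImplicit false

namespace Pool.Agent.FQ

open Finset Classical
open Pool.Agent.H73.Cube (EE EE_mono EE_smul EE_sum EE_add exists_lt_one)

/-- Extension of a finite sequence. -/
noncomputable def geExt {V : Type} (v0 : V) (M : ℕ) (ω : Fin M → V) (j : ℕ) : V :=
  if h : j < M then ω ⟨j, h⟩ else v0

theorem ge_prod {V : Type} (v0 : V) (M m : ℕ) (hm : m ≤ M) (ω : Fin M → V) (g : V → ℝ) :
    ∏ j ∈ range m, g (geExt v0 M ω j) = ∏ j : Fin M, (if j.1 < m then g (ω j) else 1) := by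
  have h1 : ∏ j : Fin M, (if j.1 < m then g (ω j) else 1) =
      ∏ j : Fin M, (fun i : ℕ => if i < m then g (geExt v0 M ω i) else 1) j.1 := by
    refine prod_congr rfl fun j _ => ?_
    have : geExt v0 M ω j.1 = ω j := by
      unfold geExt
      rw [dif_pos j.2]
    simp only [this]
  rw [h1, ← prod_range (fun i : ℕ => if i < m then g (geExt v0 M ω i) else 1)]
  rw [← prod_filter]
  congr 1
  ext j
  simp only [mem_range, mem_filter]
  omega

/-- The law. -/
noncomputable def geP (V : Type) [Fintype V] (M : ℕ) (_ : Fin M) (_ : V) : ℝ :=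
  1 / (Fintype.card V : ℝ)

theorem ge_mgf {V : Type} [Fintype V] (hV : 0 < Fintype.card V) (v0 : V) (M m : ℕ) (hm : m ≤ M)
    (g : V → ℝ) :
    EE (geP V M) (fun ω => ∏ j ∈ range m, g (geExt v0 M ω j)) =
      ((∑ a, g a) / Fintype.card V) ^ m := by
  have hV' : (0 : ℝ) < Fintype.card V := by exact_mod_cast hV
  unfold EE
  have h1 : ∀ ω : Fin M → V, (∏ i, geP V M i (ω i)) * ∏ j ∈ range m, g (geExt v0 M ω j) =
      ∏ i : Fin M, (geP V M i (ω i) * (if i.1 < m then g (ω i) else 1)) := by
    intro ω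
    rw [ge_prod v0 M m hm ω g, prod_mul_distrib]
  simp_rw [h1]
  rw [← Fintype.prod_sum (fun (i : Fin M) (a : V) =>
    geP V M i a * (if i.1 < m then g a else 1))]
  have h2 : ∀ i : Fin M, ∑ a : V, geP V M i a * (if i.1 < m then g a else 1) =
      (fun k : ℕ => if k < m then (∑ a, g a) / (Fintype.card V : ℝ) else 1) i.1 := by
    intro i
    simp only [geP]
    split_ifs with h
    · rw [← mul_sum, one_div, div_eq_inv_mul]
    · simp only [mul_one, sum_const, card_univ, nsmul_eq_mul]
      field_simp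
  simp_rw [h2]
  rw [← prod_range (fun k : ℕ => if k < m then (∑ a, g a) / (Fintype.card V : ℝ) else 1),
    ← prod_filter]
  have h3 : (range M).filter (fun k => k < m) = range m := by
    ext j
    simp only [mem_range, mem_filter]
    omega
  rw [h3, prod_const, card_range]

/-- Powers count. -/
theorem ge_pow {V : Type} [DecidableEq V] (c : ℕ → V) (m : ℕ) (B : Finset V) (t : ℝ) :
    ∏ j ∈ range m, (if c j ∈ B then t else 1) =
      t ^ ((range m).filter (fun j => c j ∈ B)).card := by
  rw [← prod_filter, prod_const]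

theorem ge_log : (0.69 : ℝ) ≤ Real.log 2 ∧ Real.log 2 ≤ 0.7 := by
  constructor
  · have := Real.log_two_gt_d9
    linarith
  · have := Real.log_two_lt_d9
    linarith

/-- Lower tail. -/
theorem ge_lower {V : Type} [Fintype V] [DecidableEq V] (B : Finset V) (β M m μ : ℕ) (v0 : V)
    (hβ : 1 ≤ β) (hB : B.card = β) (hβV : 5 * β ≤ Fintype.card V) (hm : m ≤ M)
    (hm2 : 2 * (μ : ℝ) * Fintype.card V ≤ m * β) :
    EE (geP V M) (fun ω => ind (((range m).filter (fun j => geExt v0 M ω j ∈ B)).card < μ)) ≤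
      Real.exp (-(0.3 * (μ : ℝ))) := by
  have hV : 0 < Fintype.card V := by omega
  have hV' : (0 : ℝ) < Fintype.card V := by exact_mod_cast hV
  have hP0 : ∀ (i : Fin M) (a : V), 0 ≤ geP V M i a := fun i a => by
    unfold geP
    positivity
  have h1 : EE (geP V M) (fun ω =>
      ind (((range m).filter (fun j => geExt v0 M ω j ∈ B)).card < μ)) ≤
      EE (geP V M) (fun ω => (2 : ℝ) ^ μ *
        ∏ j ∈ range m, (if geExt v0 M ω j ∈ B then (1 / 2 : ℝ) else 1)) := by
    refine EE_mono hP0 fun ω _ => ?_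
    rw [ge_pow]
    unfold ind
    split_ifs with h
    · have h2 : (1 : ℝ) = 2 ^ (((range m).filter (fun j => geExt v0 M ω j ∈ B)).card) *
          (1 / 2) ^ (((range m).filter (fun j => geExt v0 M ω j ∈ B)).card) := by
        rw [← mul_pow]
        norm_num
      refine le_trans (le_of_eq h2) ?_
      apply mul_le_mul_of_nonneg_right _ (by positivity)
      exact pow_le_pow_right₀ (by norm_num) h.le
    · positivity
  refine h1.trans ?_
  rw [EE_smul]
  have h2 := ge_mgf hV v0 M m hm (fun a => if a ∈ B then (1 / 2 : ℝ) else 1)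
  rw [h2]
  have h3 : ∑ a : V, (if a ∈ B then (1 / 2 : ℝ) else 1) = Fintype.card V - β / 2 := by
    have h4 : ∀ a : V, (if a ∈ B then (1 / 2 : ℝ) else 1) = 1 - (if a ∈ B then (1 / 2 : ℝ) else 0) := by
      intro a
      split_ifs <;> norm_num
    simp_rw [h4]
    rw [sum_sub_distrib, ← sum_filter, sum_const, sum_const, card_univ, filter_mem_eq_inter,
      univ_inter, hB]
    simp only [nsmul_eq_mul, mul_one]
    ring
  rw [h3]
  have h5 : ((Fintype.card V : ℝ) - β / 2) / Fintype.card V ≤
      Real.exp (-((β : ℝ) / (2 * Fintype.card V))) := by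
    have := Real.add_one_le_exp (-((β : ℝ) / (2 * Fintype.card V)))
    refine le_trans (le_of_eq ?_) this
    field_simp
    ring
  have h50 : 0 ≤ ((Fintype.card V : ℝ) - β / 2) / Fintype.card V := by
    apply div_nonneg _ hV'.le
    have : (5 : ℝ) * β ≤ Fintype.card V := by exact_mod_cast hβV
    have h0 : (0 : ℝ) ≤ β := Nat.cast_nonneg _
    linarith
  have h6 : (((Fintype.card V : ℝ) - β / 2) / Fintype.card V) ^ m ≤ Real.exp (-(μ : ℝ)) := by
    calc (((Fintype.card V : ℝ) - β / 2) / Fintype.card V) ^ m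
        ≤ (Real.exp (-((β : ℝ) / (2 * Fintype.card V)))) ^ m := pow_le_pow_left₀ h50 h5 m
      _ = Real.exp (-((m : ℝ) * β / (2 * Fintype.card V))) := by
          rw [← Real.exp_nat_mul]
          congr 1
          ring
      _ ≤ Real.exp (-(μ : ℝ)) := by
          apply Real.exp_le_exp.2
          apply neg_le_neg
          rw [le_div_iff₀ (by positivity)]
          linarith
  have h7 : (2 : ℝ) ^ μ ≤ Real.exp (0.7 * μ) := by
    have : (2 : ℝ) ^ μ = Real.exp (Real.log 2 * μ) := by
      rw [mul_comm, Real.exp_nat_mul, Real.exp_log (by norm_num)]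
    rw [this]
    exact Real.exp_le_exp.2 (mul_le_mul_of_nonneg_right ge_log.2 (Nat.cast_nonneg _))
  calc (2 : ℝ) ^ μ * (((Fintype.card V : ℝ) - β / 2) / Fintype.card V) ^ m
      ≤ Real.exp (0.7 * μ) * Real.exp (-(μ : ℝ)) :=
        mul_le_mul h7 h6 (pow_nonneg h50 _) (Real.exp_pos _).le
    _ = Real.exp (-(0.3 * (μ : ℝ))) := by
        rw [← Real.exp_add]
        congr 1
        ring

/-- Upper tail. -/
theorem ge_upper {V : Type} [Fintype V] [DecidableEq V] (B : Finset V) (β M m μ : ℕ) (v0 : V)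
    (hβ : 1 ≤ β) (hB : B.card ≤ 5 * β) (hβV : 5 * β ≤ Fintype.card V) (hm : m ≤ M)
    (hm2 : (m : ℝ) * β ≤ 2 * (μ : ℝ) * Fintype.card V + β) :
    EE (geP V M) (fun ω => ind (22 * μ < ((range m).filter (fun j => geExt v0 M ω j ∈ B)).card)) ≤
      Real.exp (1 - 5 * (μ : ℝ)) := by
  have hV : 0 < Fintype.card V := by omega
  have hV' : (0 : ℝ) < Fintype.card V := by exact_mod_cast hV
  have hP0 : ∀ (i : Fin M) (a : V), 0 ≤ geP V M i a := fun i a => by
    unfold geP
    positivity
  have h1 : EE (geP V M) (fun ω =>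
      ind (22 * μ < ((range m).filter (fun j => geExt v0 M ω j ∈ B)).card)) ≤
      EE (geP V M) (fun ω => (1 / 2 : ℝ) ^ (22 * μ) *
        ∏ j ∈ range m, (if geExt v0 M ω j ∈ B then (2 : ℝ) else 1)) := by
    refine EE_mono hP0 fun ω _ => ?_
    rw [ge_pow]
    unfold ind
    split_ifs with h
    · have h2 : (1 : ℝ) = (1 / 2) ^ (22 * μ) * 2 ^ (22 * μ) := by
        rw [← mul_pow]
        norm_num
      calc (1 : ℝ) = (1 / 2) ^ (22 * μ) * 2 ^ (22 * μ) := h2
        _ ≤ _ := by
          apply mul_le_mul_of_nonneg_left _ (by positivity)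
          exact pow_le_pow_right₀ (by norm_num) h.le
    · positivity
  refine h1.trans ?_
  rw [EE_smul]
  have h2 := ge_mgf hV v0 M m hm (fun a => if a ∈ B then (2 : ℝ) else 1)
  rw [h2]
  have h3 : ∑ a : V, (if a ∈ B then (2 : ℝ) else 1) = Fintype.card V + B.card := by
    have h4 : ∀ a : V, (if a ∈ B then (2 : ℝ) else 1) = 1 + (if a ∈ B then (1 : ℝ) else 0) := by
      intro a
      split_ifs <;> norm_num
    simp_rw [h4]
    rw [sum_add_distrib, ← sum_filter, sum_const, sum_const, card_univ, filter_mem_eq_inter,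
      univ_inter]
    simp only [nsmul_eq_mul, mul_one]
  rw [h3]
  have hBc : (B.card : ℝ) ≤ 5 * β := by exact_mod_cast hB
  have h5 : ((Fintype.card V : ℝ) + B.card) / Fintype.card V ≤
      Real.exp (5 * (β : ℝ) / Fintype.card V) := by
    have := Real.add_one_le_exp (5 * (β : ℝ) / Fintype.card V)
    refine le_trans ?_ this
    rw [div_le_iff₀ hV']
    have e : (5 * (β : ℝ) / Fintype.card V + 1) * Fintype.card V = 5 * β + Fintype.card V := by
      field_simp
    rw [e]
    linarith
  have h50 : 0 ≤ ((Fintype.card V : ℝ) + B.card) / Fintype.card V := by positivity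
  have h6 : (((Fintype.card V : ℝ) + B.card) / Fintype.card V) ^ m ≤
      Real.exp (10 * (μ : ℝ) + 1) := by
    calc (((Fintype.card V : ℝ) + B.card) / Fintype.card V) ^ m
        ≤ (Real.exp (5 * (β : ℝ) / Fintype.card V)) ^ m := pow_le_pow_left₀ h50 h5 m
      _ = Real.exp (5 * ((m : ℝ) * β) / Fintype.card V) := by
          rw [← Real.exp_nat_mul]
          congr 1
          ring
      _ ≤ Real.exp (10 * (μ : ℝ) + 1) := by
          apply Real.exp_le_exp.2
          rw [div_le_iff₀ hV']
          have : (5 : ℝ) * β ≤ Fintype.card V := by exact_mod_cast hβV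
          nlinarith
  have h7 : (1 / 2 : ℝ) ^ (22 * μ) ≤ Real.exp (-(15 * (μ : ℝ))) := by
    have : (1 / 2 : ℝ) ^ (22 * μ) = Real.exp (-(Real.log 2 * (22 * μ))) := by
      rw [Real.exp_neg, mul_comm (Real.log 2)]
      have e : (22 * (μ : ℝ)) = ((22 * μ : ℕ) : ℝ) := by push_cast; ring
      rw [e, Real.exp_nat_mul, Real.exp_log (by norm_num), one_div, inv_pow]
    rw [this]
    apply Real.exp_le_exp.2
    have := ge_log.1
    have h0 : (0 : ℝ) ≤ μ := Nat.cast_nonneg _
    nlinarith
  calc (1 / 2 : ℝ) ^ (22 * μ) * (((Fintype.card V : ℝ) + B.card) / Fintype.card V) ^ m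
      ≤ Real.exp (-(15 * (μ : ℝ))) * Real.exp (10 * (μ : ℝ) + 1) :=
        mul_le_mul h7 h6 (pow_nonneg h50 _) (Real.exp_pos _).le
    _ = Real.exp (1 - 5 * (μ : ℝ)) := by
        rw [← Real.exp_add]
        congr 1
        ring

/-- Random centres. -/
theorem ge_core (V : Type) [Fintype V] [DecidableEq V] (B B' : V → Finset V) (β L : ℕ)
    (μ : ℕ → ℕ) (hβ : 1 ≤ β) (hB : ∀ h, (B h).card = β) (hB' : ∀ h, (B' h).card ≤ 5 * β)
    (hβV : 5 * β ≤ Fintype.card V) (hμ : ∀ l ≤ L, 100 ≤ μ l)
    (hL : ∀ l ≤ L, 4 * ((L : ℝ) + 1) ≤ Real.exp ((μ l : ℝ) / 8))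
    (hmono : ∀ l l', l ≤ l' → μ l ≤ μ l') :
    ∃ c : ℕ → V, ∀ l ≤ L, ∑ h, ind (¬ (
      μ l ≤ ((Finset.range (2 * μ l * Fintype.card V / β + 1)).filter (fun j => c j ∈ B h)).card ∧
      ((Finset.range (2 * μ l * Fintype.card V / β + 1)).filter (fun j => c j ∈ B' h)).card ≤
        22 * μ l)) ≤ Fintype.card V * Real.exp (-((μ l : ℝ) / 8)) := by
  have hV : 0 < Fintype.card V := by omega
  have hV' : (0 : ℝ) < Fintype.card V := by exact_mod_cast hV
  obtain ⟨v0⟩ := Fintype.card_pos_iff.1 hV
  have hβ' : (0 : ℝ) < β := by exact_mod_cast hβ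
  let m : ℕ → ℕ := fun l => 2 * μ l * Fintype.card V / β + 1
  let M : ℕ := m L
  have hmM : ∀ l ≤ L, m l ≤ M := by
    intro l hl
    simp only [M, m]
    have h1 := hmono l L hl
    have h2 : 2 * μ l * Fintype.card V ≤ 2 * μ L * Fintype.card V :=
      Nat.mul_le_mul_right _ (Nat.mul_le_mul_left _ h1)
    have h3 := Nat.div_le_div_right (c := β) h2
    omega
  have hm1 : ∀ l, 2 * (μ l : ℝ) * Fintype.card V ≤ m l * β := by
    intro l
    have h1 : 2 * μ l * Fintype.card V < β * (2 * μ l * Fintype.card V / β + 1) :=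
      Nat.lt_mul_div_succ _ hβ
    have h2 : 2 * μ l * Fintype.card V ≤ m l * β := by
      simp only [m]
      rw [Nat.mul_comm _ β]
      exact h1.le
    exact_mod_cast h2
  have hm2 : ∀ l, (m l : ℝ) * β ≤ 2 * (μ l : ℝ) * Fintype.card V + β := by
    intro l
    have h1 : 2 * μ l * Fintype.card V / β * β ≤ 2 * μ l * Fintype.card V :=
      Nat.div_mul_le_self _ _
    have h2 : m l * β ≤ 2 * μ l * Fintype.card V + β := by
      simp only [m]
      rw [Nat.add_mul, one_mul]
      omega
    exact_mod_cast h2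
  have hP0 : ∀ (i : Fin M) (a : V), 0 ≤ geP V M i a := fun i a => by
    unfold geP
    positivity
  have hP1 : ∀ i : Fin M, ∑ a : V, geP V M i a = 1 := fun i => by
    unfold geP
    rw [sum_const, card_univ, nsmul_eq_mul]
    field_simp
  let F : ℕ → (Fin M → V) → ℝ := fun l ω => ∑ h, ind (¬ (
      μ l ≤ ((Finset.range (m l)).filter (fun j => geExt v0 M ω j ∈ B h)).card ∧
      ((Finset.range (m l)).filter (fun j => geExt v0 M ω j ∈ B' h)).card ≤ 22 * μ l))
  have hind : ∀ p : Prop, 0 ≤ ind p := fun p => by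
    unfold ind
    split_ifs <;> norm_num
  have hF0 : ∀ l ω, 0 ≤ F l ω := fun l ω => sum_nonneg fun h _ => hind _
  have hFE : ∀ l ≤ L, EE (geP V M) (F l) ≤ Fintype.card V * (2 * Real.exp (-(0.3 * (μ l : ℝ)))) := by
    intro l hl
    have h1 : EE (geP V M) (F l) ≤ EE (geP V M) (fun ω => ∑ h : V,
        (ind (((range (m l)).filter (fun j => geExt v0 M ω j ∈ B h)).card < μ l) +
        ind (22 * μ l < ((range (m l)).filter (fun j => geExt v0 M ω j ∈ B' h)).card))) := by
      refine EE_mono hP0 fun ω _ => ?_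
      refine sum_le_sum fun h _ => ?_
      by_cases h1 : ((range (m l)).filter (fun j => geExt v0 M ω j ∈ B h)).card < μ l
      · have e1 : ind (((range (m l)).filter (fun j => geExt v0 M ω j ∈ B h)).card < μ l) = 1 := by
          unfold ind
          rw [if_pos h1]
        have e2 : ∀ p : Prop, ind p ≤ 1 := fun p => by
          unfold ind
          split_ifs <;> norm_num
        have e3 := e2 (¬ (
          μ l ≤ ((Finset.range (m l)).filter (fun j => geExt v0 M ω j ∈ B h)).card ∧
          ((Finset.range (m l)).filter (fun j => geExt v0 M ω j ∈ B' h)).card ≤ 22 * μ l))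
        have e4 := hind (22 * μ l < ((range (m l)).filter (fun j => geExt v0 M ω j ∈ B' h)).card)
        rw [e1]
        linarith
      · by_cases h2 : 22 * μ l < ((range (m l)).filter (fun j => geExt v0 M ω j ∈ B' h)).card
        · have e1 : ind (22 * μ l <
              ((range (m l)).filter (fun j => geExt v0 M ω j ∈ B' h)).card) = 1 := by
            unfold ind
            rw [if_pos h2]
          have e2 : ∀ p : Prop, ind p ≤ 1 := fun p => by
            unfold ind
            split_ifs <;> norm_num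
          have e3 := e2 (¬ (
            μ l ≤ ((Finset.range (m l)).filter (fun j => geExt v0 M ω j ∈ B h)).card ∧
            ((Finset.range (m l)).filter (fun j => geExt v0 M ω j ∈ B' h)).card ≤ 22 * μ l))
          have e4 := hind (((range (m l)).filter (fun j => geExt v0 M ω j ∈ B h)).card < μ l)
          rw [e1]
          linarith
        · have e0 : ind (¬ (
            μ l ≤ ((Finset.range (m l)).filter (fun j => geExt v0 M ω j ∈ B h)).card ∧
            ((Finset.range (m l)).filter (fun j => geExt v0 M ω j ∈ B' h)).card ≤ 22 * μ l)) =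
            0 := by
            unfold ind
            rw [if_neg]
            intro hc
            exact hc ⟨not_lt.1 h1, not_lt.1 h2⟩
          have e1 := hind (22 * μ l < ((range (m l)).filter (fun j => geExt v0 M ω j ∈ B' h)).card)
          have e4 := hind (((range (m l)).filter (fun j => geExt v0 M ω j ∈ B h)).card < μ l)
          rw [e0]
          linarith
    refine h1.trans ?_
    rw [EE_sum]
    have h2 : ∀ h : V, EE (geP V M) (fun ω =>
        ind (((range (m l)).filter (fun j => geExt v0 M ω j ∈ B h)).card < μ l) +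
        ind (22 * μ l < ((range (m l)).filter (fun j => geExt v0 M ω j ∈ B' h)).card)) ≤
        2 * Real.exp (-(0.3 * (μ l : ℝ))) := by
      intro h
      rw [EE_add]
      have e1 := ge_lower (B h) β M (m l) (μ l) v0 hβ (hB h) hβV (hmM l hl) (hm1 l)
      have e2 := ge_upper (B' h) β M (m l) (μ l) v0 hβ (hB' h) hβV (hmM l hl) (hm2 l)
      have e3 : Real.exp (1 - 5 * (μ l : ℝ)) ≤ Real.exp (-(0.3 * (μ l : ℝ))) := by
        apply Real.exp_le_exp.2
        have : (100 : ℝ) ≤ μ l := by exact_mod_cast hμ l hl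
        linarith
      linarith
    calc ∑ h : V, EE (geP V M) (fun ω =>
        ind (((range (m l)).filter (fun j => geExt v0 M ω j ∈ B h)).card < μ l) +
        ind (22 * μ l < ((range (m l)).filter (fun j => geExt v0 M ω j ∈ B' h)).card))
        ≤ ∑ h : V, 2 * Real.exp (-(0.3 * (μ l : ℝ))) := sum_le_sum fun h _ => h2 h
      _ = Fintype.card V * (2 * Real.exp (-(0.3 * (μ l : ℝ)))) := by
          rw [sum_const, card_univ, nsmul_eq_mul]
  let G : (Fin M → V) → ℝ := fun ω => ∑ l ∈ range (L + 1),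
    (Fintype.card V * Real.exp (-((μ l : ℝ) / 8)))⁻¹ * F l ω
  have hG : EE (geP V M) G < 1 := by
    simp only [G]
    rw [EE_sum]
    have h1 : ∀ l ∈ range (L + 1), EE (geP V M) (fun ω =>
        (Fintype.card V * Real.exp (-((μ l : ℝ) / 8)))⁻¹ * F l ω) ≤ 1 / (2 * ((L : ℝ) + 1)) := by
      intro l hl
      have hl' : l ≤ L := by
        rw [mem_range] at hl
        omega
      rw [EE_smul]
      have h2 := hFE l hl'
      have h3 : 0 < (Fintype.card V : ℝ) * Real.exp (-((μ l : ℝ) / 8)) := by positivity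
      rw [inv_mul_le_iff₀ h3]
      refine h2.trans ?_
      have h4 : Real.exp (-(0.3 * (μ l : ℝ))) ≤
          Real.exp (-((μ l : ℝ) / 8)) * Real.exp (-((μ l : ℝ) / 8)) := by
        rw [← Real.exp_add]
        apply Real.exp_le_exp.2
        have : (0 : ℝ) ≤ μ l := Nat.cast_nonneg _
        linarith
      have h5 : Real.exp (-((μ l : ℝ) / 8)) ≤ 1 / (4 * ((L : ℝ) + 1)) := by
        rw [Real.exp_neg, inv_eq_one_div]
        exact one_div_le_one_div_of_le (by positivity) (hL l hl')
      have h6 : 0 < Real.exp (-((μ l : ℝ) / 8)) := Real.exp_pos _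
      calc (Fintype.card V : ℝ) * (2 * Real.exp (-(0.3 * (μ l : ℝ))))
          ≤ Fintype.card V * (2 * (Real.exp (-((μ l : ℝ) / 8)) * (1 / (4 * ((L : ℝ) + 1))))) := by
            apply mul_le_mul_of_nonneg_left _ hV'.le
            apply mul_le_mul_of_nonneg_left _ (by norm_num)
            exact h4.trans (mul_le_mul_of_nonneg_left h5 h6.le)
        _ = Fintype.card V * Real.exp (-((μ l : ℝ) / 8)) * (1 / (2 * ((L : ℝ) + 1))) := by
            have : (L : ℝ) + 1 ≠ 0 := by positivity
            field_simp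
            ring
    calc ∑ l ∈ range (L + 1), EE (geP V M) (fun ω =>
          (Fintype.card V * Real.exp (-((μ l : ℝ) / 8)))⁻¹ * F l ω)
        ≤ ∑ l ∈ range (L + 1), 1 / (2 * ((L : ℝ) + 1)) := sum_le_sum h1
      _ = 1 / 2 := by
          rw [sum_const, card_range, nsmul_eq_mul]
          push_cast
          have : (L : ℝ) + 1 ≠ 0 := by positivity
          field_simp
      _ < 1 := by norm_num
  obtain ⟨ω, -, hω⟩ := exists_lt_one hP0 hP1 G hG
  refine ⟨geExt v0 M ω, fun l hl => ?_⟩
  have h3 : 0 < (Fintype.card V : ℝ) * Real.exp (-((μ l : ℝ) / 8)) := by positivity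
  have h1 : (Fintype.card V * Real.exp (-((μ l : ℝ) / 8)))⁻¹ * F l ω ≤ G ω :=
    single_le_sum (f := fun l => (Fintype.card V * Real.exp (-((μ l : ℝ) / 8)))⁻¹ * F l ω)
      (fun l _ => mul_nonneg (by positivity) (hF0 l ω)) (mem_range.2 (by omega))
  have h2 : F l ω ≤ Fintype.card V * Real.exp (-((μ l : ℝ) / 8)) := by
    have h4 : (Fintype.card V * Real.exp (-((μ l : ℝ) / 8)))⁻¹ * F l ω ≤ 1 := by linarith
    rwa [inv_mul_le_iff₀ h3, mul_one] at h4
  exact h2

end Pool.Agent.FQ
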