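import Pool.Agent.FQ.GDefs
import Pool.Agent.FQ.GE

/-!
# Project FQ, row V4: good nested centres
-/

set_option autoImplicit false

namespace Pool.Agent.FQ

open Finset Classical
open Pool.Agent.H73.Cube (EE EE_mono EE_smul EE_sum EE_add exists_lt_one)

theorem v4_mgf {V : Type} [Fintype V] (hV : 0 < Fintype.card V) (M r : ℕ) (hr : r ≤ M)
    (g : V → ℝ) :
    EE (geP V M) (fun ω => ∏ j : Fin M, (if j.1 < r then g (ω j) else 1)) =
      ((∑ a, g a) / Fintype.card V) ^ r := by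
  obtain ⟨v0⟩ := Fintype.card_pos_iff.1 hV
  rw [← ge_mgf hV v0 M r hr g]
  congr 1
  funext ω
  rw [ge_prod v0 M r hr ω g]

theorem v4_pow {V : Type} (M r : ℕ) (ω : Fin M → V) (p : V → Prop) (t : ℝ) :
    ∏ j : Fin M, (if j.1 < r then (if p (ω j) then t else 1) else 1) =
      t ^ ((univ : Finset (Fin M)).filter (fun j => j.1 < r ∧ p (ω j))).card := by
  rw [← prod_const, prod_filter]
  refine prod_congr rfl fun j _ => ?_
  by_cases h1 : j.1 < r
  · by_cases h2 : p (ω j)
    · simp [h1, h2]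
    · simp [h1, h2]
  · simp [h1]

theorem v4_sum {V : Type} [Fintype V] (p : V → Prop) (t : ℝ) :
    ∑ a : V, (if p a then t else 1) =
      (Fintype.card V : ℝ) + (t - 1) * ((univ.filter p).card : ℝ) := by
  have h4 : ∀ a : V, (if p a then t else 1) = 1 + (if p a then (t - 1) else 0) := by
    intro a
    split_ifs <;> ring
  simp_rw [h4]
  rw [sum_add_distrib, ← sum_filter, sum_const, sum_const, card_univ]
  simp only [nsmul_eq_mul, mul_one]
  ring

/-- Lower tail. -/
theorem v4_lower {V : Type} [Fintype V] (p : V → Prop) (β M r μ : ℕ)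
    (hV : 0 < Fintype.card V) (hB : (univ.filter p).card = β) (hr : r ≤ M)
    (hr2 : 4 * (μ : ℝ) * Fintype.card V ≤ r * β) :
    EE (geP V M) (fun ω => ind (((univ : Finset (Fin M)).filter
      (fun j => j.1 < r ∧ p (ω j))).card < μ)) ≤ Real.exp (-(1.3 * (μ : ℝ))) := by
  have hV' : (0 : ℝ) < Fintype.card V := by exact_mod_cast hV
  have hP0 : ∀ (i : Fin M) (a : V), 0 ≤ geP V M i a := fun i a => by
    unfold geP
    positivity
  have h1 : EE (geP V M) (fun ω => ind (((univ : Finset (Fin M)).filter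
      (fun j => j.1 < r ∧ p (ω j))).card < μ)) ≤
      EE (geP V M) (fun ω => (2 : ℝ) ^ μ *
        ∏ j : Fin M, (if j.1 < r then (if p (ω j) then (1 / 2 : ℝ) else 1) else 1)) := by
    refine EE_mono hP0 fun ω _ => ?_
    rw [v4_pow]
    unfold ind
    split_ifs with h
    · have h2 : (1 : ℝ) = 2 ^ (((univ : Finset (Fin M)).filter
          (fun j => j.1 < r ∧ p (ω j))).card) *
          (1 / 2) ^ (((univ : Finset (Fin M)).filter (fun j => j.1 < r ∧ p (ω j))).card) := by
        rw [← mul_pow]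
        norm_num
      refine le_trans (le_of_eq h2) ?_
      apply mul_le_mul_of_nonneg_right _ (by positivity)
      exact pow_le_pow_right₀ (by norm_num) h.le
    · positivity
  refine h1.trans ?_
  rw [EE_smul]
  have h2 := v4_mgf hV M r hr (fun a => if p a then (1 / 2 : ℝ) else 1)
  rw [h2, v4_sum, hB]
  have hβV : β ≤ Fintype.card V := by
    rw [← hB]
    exact card_le_univ _
  have hβV' : (β : ℝ) ≤ Fintype.card V := by exact_mod_cast hβV
  have h0 : (0 : ℝ) ≤ β := Nat.cast_nonneg _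
  have h5 : ((Fintype.card V : ℝ) + (1 / 2 - 1) * β) / Fintype.card V ≤
      Real.exp (-((β : ℝ) / (2 * Fintype.card V))) := by
    have := Real.add_one_le_exp (-((β : ℝ) / (2 * Fintype.card V)))
    refine le_trans (le_of_eq ?_) this
    field_simp
    ring
  have h50 : 0 ≤ ((Fintype.card V : ℝ) + (1 / 2 - 1) * β) / Fintype.card V := by
    apply div_nonneg _ hV'.le
    linarith
  have h6 : (((Fintype.card V : ℝ) + (1 / 2 - 1) * β) / Fintype.card V) ^ r ≤
      Real.exp (-(2 * (μ : ℝ))) := by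
    calc (((Fintype.card V : ℝ) + (1 / 2 - 1) * β) / Fintype.card V) ^ r
        ≤ (Real.exp (-((β : ℝ) / (2 * Fintype.card V)))) ^ r := pow_le_pow_left₀ h50 h5 r
      _ = Real.exp (-((r : ℝ) * β / (2 * Fintype.card V))) := by
          rw [← Real.exp_nat_mul]
          congr 1
          ring
      _ ≤ Real.exp (-(2 * (μ : ℝ))) := by
          apply Real.exp_le_exp.2
          apply neg_le_neg
          rw [le_div_iff₀ (by positivity)]
          linarith
  have h7 : (2 : ℝ) ^ μ ≤ Real.exp (0.7 * μ) := by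
    have : (2 : ℝ) ^ μ = Real.exp (Real.log 2 * μ) := by
      rw [mul_comm, Real.exp_nat_mul, Real.exp_log (by norm_num)]
    rw [this]
    exact Real.exp_le_exp.2 (mul_le_mul_of_nonneg_right ge_log.2 (Nat.cast_nonneg _))
  calc (2 : ℝ) ^ μ * (((Fintype.card V : ℝ) + (1 / 2 - 1) * β) / Fintype.card V) ^ r
      ≤ Real.exp (0.7 * μ) * Real.exp (-(2 * (μ : ℝ))) :=
        mul_le_mul h7 h6 (pow_nonneg h50 _) (Real.exp_pos _).le
    _ = Real.exp (-(1.3 * (μ : ℝ))) := by
        rw [← Real.exp_add]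
        congr 1
        ring

/-- Upper tail. -/
theorem v4_upper {V : Type} [Fintype V] (p : V → Prop) (β M r μ : ℕ)
    (hV : 0 < Fintype.card V) (hβV : β ≤ Fintype.card V)
    (hB : (univ.filter p).card ≤ 4 * β) (hr : r ≤ M)
    (hr2 : (r : ℝ) * β ≤ 4 * (μ : ℝ) * Fintype.card V + β) :
    EE (geP V M) (fun ω => ind (22 * μ < ((univ : Finset (Fin M)).filter
      (fun j => j.1 < r ∧ p (ω j))).card)) ≤ Real.exp (4 / 3 - (μ : ℝ) / 6) := by
  have hV' : (0 : ℝ) < Fintype.card V := by exact_mod_cast hV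
  have hβV' : (β : ℝ) ≤ Fintype.card V := by exact_mod_cast hβV
  have hP0 : ∀ (i : Fin M) (a : V), 0 ≤ geP V M i a := fun i a => by
    unfold geP
    positivity
  have h1 : EE (geP V M) (fun ω => ind (22 * μ < ((univ : Finset (Fin M)).filter
      (fun j => j.1 < r ∧ p (ω j))).card)) ≤
      EE (geP V M) (fun ω => (3 / 4 : ℝ) ^ (22 * μ) *
        ∏ j : Fin M, (if j.1 < r then (if p (ω j) then (4 / 3 : ℝ) else 1) else 1)) := by
    refine EE_mono hP0 fun ω _ => ?_
    rw [v4_pow]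
    unfold ind
    split_ifs with h
    · have h2 : (1 : ℝ) = (3 / 4) ^ (22 * μ) * (4 / 3) ^ (22 * μ) := by
        rw [← mul_pow]
        norm_num
      calc (1 : ℝ) = (3 / 4) ^ (22 * μ) * (4 / 3) ^ (22 * μ) := h2
        _ ≤ _ := by
          apply mul_le_mul_of_nonneg_left _ (by positivity)
          exact pow_le_pow_right₀ (by norm_num) h.le
    · positivity
  refine h1.trans ?_
  rw [EE_smul]
  have h2 := v4_mgf hV M r hr (fun a => if p a then (4 / 3 : ℝ) else 1)
  rw [h2, v4_sum]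
  have hBc : ((univ.filter p).card : ℝ) ≤ 4 * β := by exact_mod_cast hB
  have h00 : (0 : ℝ) ≤ ((univ.filter p).card : ℝ) := Nat.cast_nonneg _
  have h5 : ((Fintype.card V : ℝ) + (4 / 3 - 1) * ((univ.filter p).card : ℝ)) /
      Fintype.card V ≤ Real.exp (4 * (β : ℝ) / (3 * Fintype.card V)) := by
    have := Real.add_one_le_exp (4 * (β : ℝ) / (3 * Fintype.card V))
    refine le_trans ?_ this
    rw [div_le_iff₀ hV']
    have e : (4 * (β : ℝ) / (3 * Fintype.card V) + 1) * Fintype.card V =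
        4 * β / 3 + Fintype.card V := by
      field_simp
    rw [e]
    linarith
  have h50 : 0 ≤ ((Fintype.card V : ℝ) + (4 / 3 - 1) * ((univ.filter p).card : ℝ)) /
      Fintype.card V := by
    apply div_nonneg _ hV'.le
    nlinarith
  have h6 : (((Fintype.card V : ℝ) + (4 / 3 - 1) * ((univ.filter p).card : ℝ)) /
      Fintype.card V) ^ r ≤ Real.exp (16 * (μ : ℝ) / 3 + 4 / 3) := by
    calc (((Fintype.card V : ℝ) + (4 / 3 - 1) * ((univ.filter p).card : ℝ)) /
          Fintype.card V) ^ r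
        ≤ (Real.exp (4 * (β : ℝ) / (3 * Fintype.card V))) ^ r := pow_le_pow_left₀ h50 h5 r
      _ = Real.exp (4 * ((r : ℝ) * β) / (3 * Fintype.card V)) := by
          rw [← Real.exp_nat_mul]
          congr 1
          ring
      _ ≤ Real.exp (16 * (μ : ℝ) / 3 + 4 / 3) := by
          apply Real.exp_le_exp.2
          rw [div_le_iff₀ (by positivity)]
          nlinarith
  have h7 : (3 / 4 : ℝ) ^ (22 * μ) ≤ Real.exp (-(11 * (μ : ℝ) / 2)) := by
    have h8 : (3 / 4 : ℝ) ≤ Real.exp (-(1 / 4)) := by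
      have := Real.add_one_le_exp (-(1 / 4 : ℝ))
      linarith
    calc (3 / 4 : ℝ) ^ (22 * μ) ≤ (Real.exp (-(1 / 4))) ^ (22 * μ) :=
          pow_le_pow_left₀ (by norm_num) h8 _
      _ = Real.exp (-(11 * (μ : ℝ) / 2)) := by
          rw [← Real.exp_nat_mul]
          congr 1
          push_cast
          ring
  calc (3 / 4 : ℝ) ^ (22 * μ) * (((Fintype.card V : ℝ) + (4 / 3 - 1) *
        ((univ.filter p).card : ℝ)) / Fintype.card V) ^ r
      ≤ Real.exp (-(11 * (μ : ℝ) / 2)) * Real.exp (16 * (μ : ℝ) / 3 + 4 / 3) :=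
        mul_le_mul h7 h6 (pow_nonneg h50 _) (Real.exp_pos _).le
    _ = Real.exp (4 / 3 - (μ : ℝ) / 6) := by
        rw [← Real.exp_add]
        congr 1
        ring

/-- The numerical bound of one level. -/
theorem v4_num (mu0 l : ℕ) (h : 10 ^ 10 ≤ mu0) :
    (Real.exp (-(1.3 * ((2 ^ l * mu0 : ℕ) : ℝ))) +
      Real.exp (4 / 3 - ((2 ^ l * mu0 : ℕ) : ℝ) / 6)) *
      Real.exp (((2 ^ l * mu0 : ℕ) : ℝ) / 8) ≤ (1 / 2 : ℝ) ^ (l + 2) := by
  have h1 : (l + 1) * 10 ^ 10 ≤ 2 ^ l * mu0 := Nat.mul_le_mul (Nat.lt_two_pow_self) h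
  have h2 : ((l : ℝ) + 1) * 10 ^ 10 ≤ ((2 ^ l * mu0 : ℕ) : ℝ) := by exact_mod_cast h1
  have h0 : (0 : ℝ) ≤ l := Nat.cast_nonneg _
  set y : ℝ := ((2 ^ l * mu0 : ℕ) : ℝ) with hy
  have h3 : Real.exp (-(1.3 * y)) ≤ Real.exp (-(y / 8) - (l + 3)) := by
    apply Real.exp_le_exp.2
    nlinarith
  have h4 : Real.exp (4 / 3 - y / 6) ≤ Real.exp (-(y / 8) - (l + 3)) := by
    apply Real.exp_le_exp.2
    nlinarith
  have h5 : (2 : ℝ) ≤ Real.exp 1 := by
    have := Real.add_one_le_exp (1 : ℝ)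
    linarith
  have h6 : Real.exp (-((l : ℝ) + 3)) ≤ (1 / 2 : ℝ) ^ (l + 3) := by
    rw [Real.exp_neg, one_div, inv_pow]
    apply inv_anti₀ (by positivity)
    have : Real.exp ((l : ℝ) + 3) = (Real.exp 1) ^ (l + 3) := by
      rw [← Real.exp_nat_mul]
      congr 1
      push_cast
      ring
    rw [this]
    exact pow_le_pow_left₀ (by norm_num) h5 _
  calc (Real.exp (-(1.3 * y)) + Real.exp (4 / 3 - y / 6)) * Real.exp (y / 8)
      ≤ (Real.exp (-(y / 8) - (l + 3)) + Real.exp (-(y / 8) - (l + 3))) * Real.exp (y / 8) :=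
        mul_le_mul_of_nonneg_right (add_le_add h3 h4) (Real.exp_pos _).le
    _ = 2 * Real.exp (-((l : ℝ) + 3)) := by
        rw [← two_mul, mul_assoc, ← Real.exp_add]
        congr 2
        ring
    _ ≤ 2 * (1 / 2 : ℝ) ^ (l + 3) := mul_le_mul_of_nonneg_left h6 (by norm_num)
    _ = (1 / 2 : ℝ) ^ (l + 2) := by
        rw [pow_succ (1 / 2 : ℝ) (l + 2)]
        ring

theorem v4 : V4Statement := by
  intro m mu0 L hm hmu
  have hVc : Fintype.card (Fin m → ZMod 2) = 2 ^ m := by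
    rw [Fintype.card_fun, ZMod.card, Fintype.card_fin]
  have hV : 0 < Fintype.card (Fin m → ZMod 2) := by
    rw [hVc]
    positivity
  have hV' : (0 : ℝ) < Fintype.card (Fin m → ZMod 2) := by exact_mod_cast hV
  have hVr : ((Fintype.card (Fin m → ZMod 2) : ℕ) : ℝ) = 2 ^ m := by
    rw [hVc]
    push_cast
    rfl
  set β : ℕ := gV m (m / 4) with hβd
  have hβ : 0 < β := gV_pos _ _
  have hβ' : (0 : ℝ) < β := by exact_mod_cast hβ
  have hβV : β ≤ Fintype.card (Fin m → ZMod 2) := by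
    rw [hVc]
    exact gV_le_two_pow _ _
  set M : ℕ := Mc mu0 m L with hM
  have hMmono : ∀ l ≤ L, Mc mu0 m l ≤ M := by
    intro l hl
    rw [hM]
    unfold Mc
    apply Nat.ceil_mono
    apply div_le_div_of_nonneg_right _ (Nat.cast_nonneg _)
    apply mul_le_mul_of_nonneg_right _ (by positivity)
    apply mul_le_mul_of_nonneg_left _ (by norm_num)
    have : 2 ^ l * mu0 ≤ 2 ^ L * mu0 :=
      Nat.mul_le_mul_right _ (Nat.pow_le_pow_right (by norm_num) hl)
    exact_mod_cast this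
  have hM1 : ∀ l, 4 * ((2 ^ l * mu0 : ℕ) : ℝ) * Fintype.card (Fin m → ZMod 2) ≤
      (Mc mu0 m l : ℝ) * β := by
    intro l
    rw [hVr]
    have := Nat.le_ceil (4 * ((2 ^ l * mu0 : ℕ) : ℝ) * 2 ^ m / gV m (m / 4))
    rw [div_le_iff₀ hβ'] at this
    exact this
  have hM2 : ∀ l, (Mc mu0 m l : ℝ) * β ≤
      4 * ((2 ^ l * mu0 : ℕ) : ℝ) * Fintype.card (Fin m → ZMod 2) + β := by
    intro l
    rw [hVr]
    have h1 := Nat.ceil_lt_add_one
      (show 0 ≤ 4 * ((2 ^ l * mu0 : ℕ) : ℝ) * 2 ^ m / gV m (m / 4) by positivity)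
    have h2 : (Mc mu0 m l : ℝ) * β ≤
        (4 * ((2 ^ l * mu0 : ℕ) : ℝ) * 2 ^ m / gV m (m / 4) + 1) * β :=
      mul_le_mul_of_nonneg_right h1.le hβ'.le
    refine h2.trans (le_of_eq ?_)
    rw [add_mul, one_mul, ← hβd, div_mul_cancel₀ _ hβ'.ne']
  have hP0 : ∀ (i : Fin M) (a : Fin m → ZMod 2), 0 ≤ geP (Fin m → ZMod 2) M i a := fun i a => by
    unfold geP
    positivity
  have hP1 : ∀ i : Fin M, ∑ a : Fin m → ZMod 2, geP (Fin m → ZMod 2) M i a = 1 := fun i => by
    unfold geP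
    rw [sum_const, card_univ, nsmul_eq_mul]
    field_simp
  let bad : ℕ → (Fin M → Fin m → ZMod 2) → (Fin m → ZMod 2) → Prop := fun l ω z =>
    ¬ (2 ^ l * mu0 ≤ (univ.filter (fun j : Fin M => j.1 < Mc mu0 m l ∧
          hammingDist (ω j) z ≤ m / 4)).card ∧
        (univ.filter (fun j : Fin M => j.1 < Mc mu0 m l ∧
          hammingDist (ω j) z ≤ m / 4 + 1)).card ≤ 22 * (2 ^ l * mu0))
  let F : ℕ → (Fin M → Fin m → ZMod 2) → ℝ := fun l ω => ∑ z, ind (bad l ω z)
  have hind : ∀ p : Prop, 0 ≤ ind p := fun p => by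
    unfold ind
    split_ifs <;> norm_num
  have hind1 : ∀ p : Prop, ind p ≤ 1 := fun p => by
    unfold ind
    split_ifs <;> norm_num
  have hindt : ∀ p : Prop, p → ind p = 1 := fun p hp => by
    unfold ind
    rw [if_pos hp]
  have hindf : ∀ p : Prop, ¬ p → ind p = 0 := fun p hp => by
    unfold ind
    rw [if_neg hp]
  have hF0 : ∀ l ω, 0 ≤ F l ω := fun l ω => sum_nonneg fun h _ => hind _
  have hball : ∀ (z : Fin m → ZMod 2) (r : ℕ), (univ.filter (fun a : Fin m → ZMod 2 => hammingDist a z ≤ r)).card =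
      gV m r := by
    intro z r
    rw [← gV_ball m r z]
    congr 1
    ext a
    simp only [mem_filter, mem_univ, true_and]
    rw [hammingDist_comm]
  have hFE : ∀ l ≤ L, EE (geP (Fin m → ZMod 2) M) (F l) ≤ Fintype.card (Fin m → ZMod 2) *
      (Real.exp (-(1.3 * ((2 ^ l * mu0 : ℕ) : ℝ))) +
        Real.exp (4 / 3 - ((2 ^ l * mu0 : ℕ) : ℝ) / 6)) := by
    intro l hl
    have h1 : EE (geP (Fin m → ZMod 2) M) (F l) ≤ EE (geP (Fin m → ZMod 2) M) (fun ω => ∑ z : Fin m → ZMod 2,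
        (ind ((univ.filter (fun j : Fin M => j.1 < Mc mu0 m l ∧
          hammingDist (ω j) z ≤ m / 4)).card < 2 ^ l * mu0) +
        ind (22 * (2 ^ l * mu0) < (univ.filter (fun j : Fin M => j.1 < Mc mu0 m l ∧
          hammingDist (ω j) z ≤ m / 4 + 1)).card))) := by
      refine EE_mono hP0 fun ω _ => ?_
      refine sum_le_sum fun z _ => ?_
      by_cases hb : bad l ω z
      · rw [hindt _ hb]
        by_cases h2 : (univ.filter (fun j : Fin M => j.1 < Mc mu0 m l ∧
          hammingDist (ω j) z ≤ m / 4)).card < 2 ^ l * mu0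
        · rw [hindt _ h2]
          have := hind (22 * (2 ^ l * mu0) < (univ.filter (fun j : Fin M => j.1 < Mc mu0 m l ∧
            hammingDist (ω j) z ≤ m / 4 + 1)).card)
          linarith
        · have h3 : 22 * (2 ^ l * mu0) < (univ.filter (fun j : Fin M => j.1 < Mc mu0 m l ∧
            hammingDist (ω j) z ≤ m / 4 + 1)).card := by
            by_contra h3
            exact hb ⟨not_lt.1 h2, not_lt.1 h3⟩
          rw [hindt _ h3]
          have := hind ((univ.filter (fun j : Fin M => j.1 < Mc mu0 m l ∧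
            hammingDist (ω j) z ≤ m / 4)).card < 2 ^ l * mu0)
          linarith
      · rw [hindf _ hb]
        exact add_nonneg (hind _) (hind _)
    refine h1.trans ?_
    rw [EE_sum]
    have h2 : ∀ z : Fin m → ZMod 2, EE (geP (Fin m → ZMod 2) M) (fun ω =>
        ind ((univ.filter (fun j : Fin M => j.1 < Mc mu0 m l ∧
          hammingDist (ω j) z ≤ m / 4)).card < 2 ^ l * mu0) +
        ind (22 * (2 ^ l * mu0) < (univ.filter (fun j : Fin M => j.1 < Mc mu0 m l ∧
          hammingDist (ω j) z ≤ m / 4 + 1)).card)) ≤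
        Real.exp (-(1.3 * ((2 ^ l * mu0 : ℕ) : ℝ))) +
        Real.exp (4 / 3 - ((2 ^ l * mu0 : ℕ) : ℝ) / 6) := by
      intro z
      rw [EE_add]
      have e1 := v4_lower (V := Fin m → ZMod 2) (fun a => hammingDist a z ≤ m / 4) β M (Mc mu0 m l)
        (2 ^ l * mu0) hV (by rw [hβd, ← hball z]; congr) (hMmono l hl) (hM1 l)
      have e2 := v4_upper (V := Fin m → ZMod 2) (fun a => hammingDist a z ≤ m / 4 + 1) β M (Mc mu0 m l)
        (2 ^ l * mu0) hV hβV
        (by
          refine le_trans (le_of_eq ?_) (gV_succ m (m / 4) (by omega))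
          rw [← hball z]
          congr) (hMmono l hl) (hM2 l)
      refine add_le_add (le_trans (le_of_eq ?_) e1) (le_trans (le_of_eq ?_) e2)
      · congr 1
        funext ω
        congr 1
        congr 1
        congr
      · congr 1
        funext ω
        congr 1
        congr 1
        congr
    calc _ ≤ ∑ z : Fin m → ZMod 2, (Real.exp (-(1.3 * ((2 ^ l * mu0 : ℕ) : ℝ))) +
        Real.exp (4 / 3 - ((2 ^ l * mu0 : ℕ) : ℝ) / 6)) := sum_le_sum fun h _ => h2 h
      _ = _ := by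
          rw [sum_const, card_univ, nsmul_eq_mul]
  let G : (Fin M → Fin m → ZMod 2) → ℝ := fun ω => ∑ l ∈ range (L + 1),
    (Real.exp (((2 ^ l * mu0 : ℕ) : ℝ) / 8) / Fintype.card (Fin m → ZMod 2)) * F l ω
  have hG : EE (geP (Fin m → ZMod 2) M) G < 1 := by
    simp only [G]
    rw [EE_sum]
    have h1 : ∀ l ∈ range (L + 1), EE (geP (Fin m → ZMod 2) M) (fun ω =>
        (Real.exp (((2 ^ l * mu0 : ℕ) : ℝ) / 8) / Fintype.card (Fin m → ZMod 2)) * F l ω) ≤
        (1 / 2 : ℝ) ^ (l + 2) := by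
      intro l hl
      have hl' : l ≤ L := by
        rw [mem_range] at hl
        omega
      rw [EE_smul]
      have h2 := hFE l hl'
      have h3 := v4_num mu0 l hmu
      calc (Real.exp (((2 ^ l * mu0 : ℕ) : ℝ) / 8) / Fintype.card (Fin m → ZMod 2)) * EE (geP (Fin m → ZMod 2) M) (F l)
          ≤ (Real.exp (((2 ^ l * mu0 : ℕ) : ℝ) / 8) / Fintype.card (Fin m → ZMod 2)) * (Fintype.card (Fin m → ZMod 2) *
            (Real.exp (-(1.3 * ((2 ^ l * mu0 : ℕ) : ℝ))) +
              Real.exp (4 / 3 - ((2 ^ l * mu0 : ℕ) : ℝ) / 6))) :=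
            mul_le_mul_of_nonneg_left h2 (by positivity)
        _ = (Real.exp (-(1.3 * ((2 ^ l * mu0 : ℕ) : ℝ))) +
              Real.exp (4 / 3 - ((2 ^ l * mu0 : ℕ) : ℝ) / 6)) *
              Real.exp (((2 ^ l * mu0 : ℕ) : ℝ) / 8) := by
            field_simp
        _ ≤ _ := h3
    refine lt_of_le_of_lt (sum_le_sum h1) ?_
    have h2 : ∀ N : ℕ, ∑ l ∈ range N, (1 / 2 : ℝ) ^ (l + 2) = 1 / 2 - (1 / 2) ^ (N + 1) := by
      intro N
      induction N with
      | zero => norm_num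
      | succ N ih =>
        rw [sum_range_succ, ih, pow_succ (1 / 2 : ℝ) (N + 1)]
        have e : (1 / 2 : ℝ) ^ (N + 2) = (1 / 2) ^ (N + 1) * (1 / 2) := by rw [pow_succ]
        linarith
    rw [h2]
    have : (0 : ℝ) < (1 / 2) ^ (L + 1 + 1) := by positivity
    linarith
  obtain ⟨ω, -, hω⟩ := exists_lt_one hP0 hP1 G hG
  refine ⟨ω, fun l hl => ?_⟩
  have h1 : (Real.exp (((2 ^ l * mu0 : ℕ) : ℝ) / 8) / Fintype.card (Fin m → ZMod 2)) * F l ω ≤ G ω :=
    single_le_sum (f := fun l => (Real.exp (((2 ^ l * mu0 : ℕ) : ℝ) / 8) / Fintype.card (Fin m → ZMod 2)) *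
      F l ω) (fun l _ => mul_nonneg (by positivity) (hF0 l ω)) (mem_range.2 (by omega))
  have h2 : (Real.exp (((2 ^ l * mu0 : ℕ) : ℝ) / 8) / Fintype.card (Fin m → ZMod 2)) * F l ω ≤ 1 :=
    h1.trans hω.le
  have h3 : F l ω = ((univ.filter (fun z : Fin m → ZMod 2 => bad l ω z)).card : ℝ) := by
    simp only [F]
    rw [← mul_one ((univ.filter (fun z : Fin m → ZMod 2 => bad l ω z)).card : ℝ),
      ← nsmul_eq_mul, ← sum_const, sum_filter]
    refine sum_congr rfl fun z _ => ?_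
    by_cases hb : bad l ω z
    · rw [hindt _ hb, if_pos hb]
    · rw [hindf _ hb, if_neg hb]
  rw [h3, div_mul_eq_mul_div, div_le_one hV', hVr] at h2
  rw [mul_comm]
  exact h2

end Pool.Agent.FQ
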