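import Pool.Agent.FQ.GDefs

/-!
# Project FQ, geometry: Hamming balls, fibres of the coordinates
-/

set_option autoImplicit false

namespace Pool.Agent.FQ

open Finset Classical

theorem h1 : H1Statement := by
  intro k t h
  induction t with
  | zero =>
    rw [pow_zero]
    refine (card_le_card (t := {h}) fun x hx => ?_).trans (card_singleton h).le
    rw [mem_filter] at hx
    rw [mem_singleton]
    exact (hammingDist_eq_zero.1 (Nat.le_zero.1 hx.2)).symm
  | succ t ih =>
    have hsub : univ.filter (fun x : Fin k → ZMod 2 => hammingDist h x ≤ t + 1) ⊆
        ((univ.filter (fun x : Fin k → ZMod 2 => hammingDist h x ≤ t)) ×ˢ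
          (univ : Finset (Option (Fin k)))).image
          (fun p => p.1 + p.2.elim 0 (fun i => Pi.single i 1)) := by
      intro x hx
      have hx1 : hammingDist h x ≤ t + 1 := (mem_filter.1 hx).2
      rw [mem_image]
      by_cases hle : hammingDist h x ≤ t
      · exact ⟨(x, none), mem_product.2 ⟨mem_filter.2 ⟨mem_univ _, hle⟩, mem_univ _⟩, add_zero x⟩
      · have hpos : 0 < hammingDist h x := by omega
        have hne : h ≠ x := hammingDist_pos.1 hpos
        obtain ⟨i, hi⟩ := Function.ne_iff.1 hne
        refine ⟨(x + Pi.single i 1, some i),
          mem_product.2 ⟨mem_filter.2 ⟨mem_univ _, ?_⟩, mem_univ _⟩, ?_⟩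
        · have h3 : ∀ a b : ZMod 2, a ≠ b → a = b + 1 := by decide
          have h2 : hammingDist h (x + Pi.single i 1) < hammingDist h x := by
            unfold hammingDist
            refine card_lt_card ⟨fun j hj => ?_, fun hss => ?_⟩
            · rw [mem_filter] at hj ⊢
              refine ⟨mem_univ _, fun hjx => hj.2 ?_⟩
              rw [Pi.add_apply]
              by_cases hji : j = i
              · subst hji
                exact absurd hjx hi
              · rw [Pi.single_eq_of_ne hji, add_zero]
                exact hjx
            · have h4 := hss (mem_filter.2 ⟨mem_univ i, hi⟩)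
              rw [mem_filter] at h4
              apply h4.2
              rw [Pi.add_apply, Pi.single_eq_same]
              exact h3 _ _ hi
          show hammingDist h (x + Pi.single i 1) ≤ t
          omega
        · show x + Pi.single i 1 + Pi.single i 1 = x
          funext j
          rw [Pi.add_apply, Pi.add_apply, add_assoc]
          have h5 : ∀ a : ZMod 2, a + a = 0 := by decide
          rw [h5, add_zero]
    calc (univ.filter (fun x : Fin k → ZMod 2 => hammingDist h x ≤ t + 1)).card
        ≤ _ := card_le_card hsub
      _ ≤ _ := card_image_le
      _ = (univ.filter (fun x : Fin k → ZMod 2 => hammingDist h x ≤ t)).card * (k + 1) := by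
          rw [card_product, card_univ, Fintype.card_option, Fintype.card_fin]
      _ ≤ (k + 1) ^ t * (k + 1) := Nat.mul_le_mul_right _ ih
      _ = _ := (pow_succ _ _).symm

theorem h2 : H2Statement := by
  intro k q m hk
  set ι : Fin m → Fin k := fun j => ⟨q + j.1, by have := j.2; omega⟩ with hι
  have hinj : Function.Injective ι := by
    intro a b hab
    have h1 : q + a.1 = q + b.1 := congrArg Fin.val hab
    apply Fin.ext
    omega
  refine ⟨fun z => ?_, fun h h' => ?_⟩
  · have he : univ.filter (fun h : Fin k → ZMod 2 => zC q m hk h = z) =
        Fintype.piFinset (fun i => if hi : ∃ j, ι j = i then {z hi.choose} else univ) := by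
      ext h
      rw [mem_filter, Fintype.mem_piFinset]
      constructor
      · rintro ⟨_, hh⟩ i
        by_cases hi : ∃ j, ι j = i
        · rw [dif_pos hi, mem_singleton, ← hh]
          show h i = h (ι hi.choose)
          rw [hi.choose_spec]
        · rw [dif_neg hi]
          exact mem_univ _
      · intro hh
        refine ⟨mem_univ _, ?_⟩
        funext j
        have h1 := hh (ι j)
        have hi : ∃ j', ι j' = ι j := ⟨j, rfl⟩
        rw [dif_pos hi, mem_singleton] at h1
        have h2 : hi.choose = j := hinj hi.choose_spec
        rw [h2] at h1
        exact h1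
    have hc : ∀ i : Fin k, (if hi : ∃ j, ι j = i then {z hi.choose}
        else (univ : Finset (ZMod 2))).card = if ∃ j, ι j = i then 1 else 2 := by
      intro i
      by_cases hi : ∃ j, ι j = i
      · rw [dif_pos hi, if_pos hi, card_singleton]
      · rw [dif_neg hi, if_neg hi, card_univ, ZMod.card]
    rw [he, Fintype.card_piFinset, prod_congr rfl (fun i _ => hc i), prod_ite, prod_const_one,
      prod_const, one_mul]
    congr 1
    have h3 : (univ.filter (fun i : Fin k => ∃ j, ι j = i)).card = m := by
      have h4 : univ.filter (fun i : Fin k => ∃ j, ι j = i) = univ.image ι := by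
        ext i
        rw [mem_filter, mem_image]
        constructor
        · rintro ⟨_, j, hj⟩
          exact ⟨j, mem_univ _, hj⟩
        · rintro ⟨j, _, hj⟩
          exact ⟨mem_univ _, j, hj⟩
      rw [h4, card_image_of_injective _ hinj, card_univ, Fintype.card_fin]
    have h5 := card_filter_add_card_filter_not (s := (univ : Finset (Fin k)))
      (fun i : Fin k => ∃ j, ι j = i)
    rw [card_univ, Fintype.card_fin, h3] at h5
    omega
  · unfold hammingDist
    refine card_le_card_of_injOn ι (fun j hj => ?_) (hinj.injOn)
    have hj1 := (mem_filter.1 (mem_coe.1 hj)).2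
    exact mem_coe.2 (mem_filter.2 ⟨mem_univ _, hj1⟩)

end Pool.Agent.FQ
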