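import Pool.Agent.FQ.GDefs
import Mathlib.Analysis.SpecialFunctions.Exp
import Mathlib.Analysis.Complex.ExponentialBounds

/-!
# Project FQ, rows N3 and N4: numbers for the influence of the tokens and for the boxes
-/

set_option autoImplicit false

namespace Pool.Agent.FQ

open Finset Filter Asymptotics

/-- polynomials are eventually below exponentials -/
theorem gnum3_poly (k : ℕ) (b c : ℝ) (hb : 0 < b) (hc : 0 < c) :
    ∃ x0 : ℝ, ∀ x : ℝ, x0 ≤ x → x ^ k ≤ c * Real.exp (b * x) := by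
  have h1 := (isLittleO_pow_exp_pos_mul_atTop (k := k) hb).bound hc
  obtain ⟨x0, hx0⟩ := eventually_atTop.1 h1
  refine ⟨x0, fun x hx => ?_⟩
  have h2 := hx0 x hx
  rw [Real.norm_eq_abs, Real.norm_eq_abs, abs_of_pos (Real.exp_pos _)] at h2
  exact (le_abs_self _).trans h2

theorem gnum3_base : (16 / 27 : ℝ) ≤ Real.exp (-(13 / 25)) := by
  have h1 : Real.exp (13 / 25) ≤ 27 / 16 := by
    have h2 : Real.exp (13 / 25) ^ 25 ≤ (27 / 16 : ℝ) ^ 25 := by
      rw [← Real.exp_nat_mul]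
      have h3 : ((25 : ℕ) : ℝ) * (13 / 25) = ((13 : ℕ) : ℝ) * 1 := by norm_num
      rw [h3, Real.exp_nat_mul]
      have h4 : Real.exp 1 ≤ 2.7183 := by
        have := Real.exp_one_lt_d9
        norm_num at this ⊢
        linarith
      calc Real.exp 1 ^ 13 ≤ (2.7183 : ℝ) ^ 13 :=
            pow_le_pow_left₀ (Real.exp_pos _).le h4 13
        _ ≤ (27 / 16 : ℝ) ^ 25 := by norm_num
    exact le_of_pow_le_pow_left₀ (by norm_num) (by norm_num) h2
  rw [Real.exp_neg, le_inv_comm₀ (by norm_num) (Real.exp_pos _)]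
  calc Real.exp (13 / 25) ≤ 27 / 16 := h1
    _ = (16 / 27 : ℝ)⁻¹ := by norm_num

theorem n3 : N3Statement := by
  intro K hK
  obtain ⟨x0, hx0⟩ := gnum3_poly (K + 9) (1 / 1000) (1 / (4259840 * Real.exp 1)) (by norm_num)
    (by positivity)
  obtain ⟨n1, hn1⟩ := exists_nat_ge x0
  refine ⟨n1 + 1, fun n hn mu0 L hmu hL1 hL2 => ?_⟩
  have hn0 : 1 ≤ n := by omega
  have hnR : (1 : ℝ) ≤ n := by exact_mod_cast hn0
  -- names
  obtain ⟨m, hm⟩ : ∃ m, m = n / 4 := ⟨_, rfl⟩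
  rw [← hm]
  obtain ⟨v, hv⟩ : ∃ v : ℝ, v = (gV m (m / 4) : ℝ) := ⟨_, rfl⟩
  have hvpos : 0 < v := by
    rw [hv]
    exact_mod_cast gV_pos m (m / 4)
  have hV2 : v ≤ Real.exp (-(13 / 25) * ((m : ℝ) / 4)) * 2 ^ m := by
    rw [hv]
    refine (gV_le m (m / 4) (by omega)).trans (mul_le_mul_of_nonneg_right ?_ (by positivity))
    rw [Real.exp_mul]
    exact Real.rpow_le_rpow (by norm_num) gnum3_base (by positivity)
  have hV2' : v ≤ 2 ^ m := by
    rw [hv]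
    exact_mod_cast gV_le_two_pow m (m / 4)
  have hV1 : (gV m (m / 4 + (2 * L + 4)) : ℝ) ≤ 256 * (n : ℝ) ^ 4 * v := by
    have e1 := gV_add m (m / 4) (2 * L + 4) (by omega)
    have e2 : (gV m (m / 4 + (2 * L + 4)) : ℝ) ≤ 4 ^ (2 * L + 4) * v := by
      rw [hv]
      exact_mod_cast e1
    refine e2.trans (mul_le_mul_of_nonneg_right ?_ hvpos.le)
    have e3 : (4 : ℝ) ^ (2 * L + 4) = 256 * ((2 : ℝ) ^ L) ^ 4 := by
      have e4 : (4 : ℝ) = 2 ^ 2 := by norm_num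
      rw [e4, ← pow_mul, ← pow_mul]
      have e5 : 2 * (2 * L + 4) = L * 4 + 8 := by ring
      rw [e5, pow_add]
      norm_num
      ring
    rw [e3]
    have e6 : (2 : ℝ) ^ L ≤ n := by exact_mod_cast hL2
    have e7 : ((2 : ℝ) ^ L) ^ 4 ≤ (n : ℝ) ^ 4 := pow_le_pow_left₀ (by positivity) e6 4
    linarith
  have hq : (0 : ℝ) ≤ 2 ^ m / v := by positivity
  have hv1 : 1 ≤ (2 : ℝ) ^ m / v := by
    rw [le_div_iff₀ hvpos, one_mul]
    exact hV2'
  have hMc : (Mc mu0 m L : ℝ) ≤ 65 * n * (2 ^ m / v) := by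
    unfold Mc
    rw [← hv]
    have e1 : (0 : ℝ) ≤ 4 * ((2 ^ L * mu0 : ℕ) : ℝ) * 2 ^ m / v := by positivity
    have e2 := (Nat.ceil_lt_add_one e1).le
    have e3 : ((2 ^ L * mu0 : ℕ) : ℝ) ≤ 16 * n := by exact_mod_cast hL1
    have e4 : 4 * ((2 ^ L * mu0 : ℕ) : ℝ) * 2 ^ m / v ≤ 64 * n * (2 ^ m / v) := by
      have e5 : 4 * ((2 ^ L * mu0 : ℕ) : ℝ) * 2 ^ m / v =
        4 * ((2 ^ L * mu0 : ℕ) : ℝ) * (2 ^ m / v) := by ring
      rw [e5]
      refine mul_le_mul_of_nonneg_right ?_ hq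
      linarith
    have e6 : 1 ≤ (n : ℝ) * (2 ^ m / v) := by nlinarith
    linarith
  -- the boxes
  have hbox : ((n / (4 * K) + 1 : ℕ) : ℝ) ^ K ≤ ((n : ℝ) + 1) ^ K := by
    refine pow_le_pow_left₀ (Nat.cast_nonneg _) ?_ K
    have e1 : n / (4 * K) + 1 ≤ n + 1 := Nat.succ_le_succ (Nat.div_le_self _ _)
    exact_mod_cast e1
  -- the exponents
  obtain ⟨k0, hk0⟩ : ∃ k0, k0 = n - 4 * (n / 16) := ⟨_, rfl⟩
  rw [← hk0]
  have hkm : m ≤ k0 := by omega
  have hpow : (2 : ℝ) ^ (k0 - m) * 2 ^ m = 2 ^ k0 := by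
    rw [← pow_add]
    congr 1
    omega
  have hexp : Real.exp (n / 8000) ^ 250 = Real.exp (250 * n / 8000) := by
    rw [← Real.exp_nat_mul]
    congr 1
    push_cast
    ring
  rw [hexp]
  -- the size of the ball
  have hsmall : v * Real.exp (250 * n / 8000) ≤ 2 ^ m * (Real.exp 1 *
      Real.exp (-(1 / 1000 * ((n : ℝ) + 1)))) := by
    have e2 : (n : ℝ) ≤ 4 * (m : ℝ) + 3 := by
      have e3 : n ≤ 4 * m + 3 := by omega
      exact_mod_cast e3
    have e4 : Real.exp (-(13 / 25) * ((m : ℝ) / 4)) * Real.exp (250 * n / 8000) ≤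
        Real.exp 1 * Real.exp (-(1 / 1000 * ((n : ℝ) + 1))) := by
      rw [← Real.exp_add, ← Real.exp_add, Real.exp_le_exp]
      nlinarith
    have e5 : (0 : ℝ) < Real.exp (250 * n / 8000) := Real.exp_pos _
    calc v * Real.exp (250 * n / 8000)
        ≤ (Real.exp (-(13 / 25) * ((m : ℝ) / 4)) * 2 ^ m) * Real.exp (250 * n / 8000) :=
          mul_le_mul_of_nonneg_right hV2 e5.le
      _ = 2 ^ m * (Real.exp (-(13 / 25) * ((m : ℝ) / 4)) * Real.exp (250 * n / 8000)) := by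
          ring
      _ ≤ _ := mul_le_mul_of_nonneg_left e4 (by positivity)
  -- the polynomial
  have hpoly := hx0 ((n : ℝ) + 1) (by
    have e1 : (n1 : ℝ) ≤ n := by exact_mod_cast (by omega : n1 ≤ n)
    linarith)
  have hpoly' : 4259840 * ((n : ℝ) + 1) ^ (K + 9) *
      (Real.exp 1 * Real.exp (-(1 / 1000 * ((n : ℝ) + 1)))) ≤ 1 := by
    have e1 : (0 : ℝ) < Real.exp 1 := Real.exp_pos _
    have e2 : (0 : ℝ) < Real.exp (1 / 1000 * ((n : ℝ) + 1)) := Real.exp_pos _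
    have e3 : (0 : ℝ) < Real.exp (-(1 / 1000 * ((n : ℝ) + 1))) := Real.exp_pos _
    calc 4259840 * ((n : ℝ) + 1) ^ (K + 9) *
        (Real.exp 1 * Real.exp (-(1 / 1000 * ((n : ℝ) + 1))))
        = ((n : ℝ) + 1) ^ (K + 9) *
          (4259840 * Real.exp 1 * Real.exp (-(1 / 1000 * ((n : ℝ) + 1)))) := by ring
      _ ≤ (1 / (4259840 * Real.exp 1) * Real.exp (1 / 1000 * ((n : ℝ) + 1))) *
          (4259840 * Real.exp 1 * Real.exp (-(1 / 1000 * ((n : ℝ) + 1)))) :=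
          mul_le_mul_of_nonneg_right hpoly (by positivity)
      _ = 1 := by
          rw [Real.exp_neg]
          field_simp
  -- assembly
  have hn9 : (n : ℝ) ^ 9 * ((n : ℝ) + 1) ^ K ≤ ((n : ℝ) + 1) ^ (K + 9) := by
    rw [pow_add, mul_comm]
    refine mul_le_mul_of_nonneg_left ?_ (by positivity)
    exact pow_le_pow_left₀ (by positivity) (by linarith) 9
  have hvol0 : (0 : ℝ) ≤ (gV m (m / 4 + (2 * L + 4)) : ℝ) := Nat.cast_nonneg _
  calc (Mc mu0 m L : ℝ) * ((n / (4 * K) + 1 : ℕ) : ℝ) ^ K *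
        (2 ^ (k0 - m) * (gV m (m / 4 + (2 * L + 4)) : ℝ)) ^ 2 * Real.exp (250 * n / 8000)
      ≤ (65 * n * (2 ^ m / v)) * ((n : ℝ) + 1) ^ K *
        (2 ^ (k0 - m) * (256 * (n : ℝ) ^ 4 * v)) ^ 2 * Real.exp (250 * n / 8000) := by
        refine mul_le_mul_of_nonneg_right ?_ (Real.exp_pos _).le
        refine mul_le_mul (mul_le_mul hMc hbox (by positivity) (by positivity)) ?_
          (by positivity) (by positivity)
        refine pow_le_pow_left₀ (by positivity) ?_ 2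
        exact mul_le_mul_of_nonneg_left hV1 (by positivity)
    _ = (4259840 * ((n : ℝ) ^ 9 * ((n : ℝ) + 1) ^ K)) * (2 ^ (k0 - m)) ^ 2 * 2 ^ m *
        (v * Real.exp (250 * n / 8000)) := by
        field_simp
        ring
    _ ≤ (4259840 * ((n : ℝ) + 1) ^ (K + 9)) * (2 ^ (k0 - m)) ^ 2 * 2 ^ m *
        (2 ^ m * (Real.exp 1 * Real.exp (-(1 / 1000 * ((n : ℝ) + 1))))) := by
        refine mul_le_mul ?_ hsmall (by positivity) (by positivity)
        refine mul_le_mul_of_nonneg_right (mul_le_mul_of_nonneg_right ?_ (by positivity))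
          (by positivity)
        linarith
    _ = (4259840 * ((n : ℝ) + 1) ^ (K + 9) *
        (Real.exp 1 * Real.exp (-(1 / 1000 * ((n : ℝ) + 1))))) * (2 ^ (k0 - m) * 2 ^ m) ^ 2 := by
        ring
    _ ≤ 1 * (2 ^ (k0 - m) * 2 ^ m) ^ 2 :=
        mul_le_mul_of_nonneg_right hpoly' (by positivity)
    _ = ((2 : ℝ) ^ k0) ^ 2 := by rw [one_mul, hpow]

theorem n4 : N4Statement := by
  obtain ⟨e, he⟩ : ∃ e, e = 40 := ⟨_, rfl⟩
  obtain ⟨K, hK⟩ : ∃ K, K = 2 * e + 3 := ⟨_, rfl⟩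
  have hl2 : 0 < Real.log 2 := Real.log_pos (by norm_num)
  obtain ⟨x0, hx0⟩ := gnum3_poly K (Real.log 2 / 4) (Real.exp (-(21 * (Real.log 2 / 4))))
    (by positivity) (Real.exp_pos _)
  obtain ⟨L0, hL0⟩ := exists_nat_ge x0
  have hbig : ∀ L : ℕ, L0 ≤ L → (2 * (2 * L + 10) + 1) ^ K ≤ 2 ^ L := by
    intro L hL
    have h1 : x0 ≤ (2 * (2 * (L : ℝ) + 10) + 1) := by
      have h2 : (L0 : ℝ) ≤ L := by exact_mod_cast hL
      have h3 : (0 : ℝ) ≤ L := Nat.cast_nonneg _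
      linarith
    have h4 := hx0 _ h1
    rw [← Real.exp_add] at h4
    have h5 : -(21 * (Real.log 2 / 4)) + Real.log 2 / 4 * (2 * (2 * (L : ℝ) + 10) + 1) =
        (L : ℝ) * Real.log 2 := by ring
    rw [h5, Real.exp_nat_mul, Real.exp_log (by norm_num)] at h4
    exact_mod_cast h4
  refine ⟨K, max ((4 * K) ^ K) ((2 * (2 * L0 + 10) + 1) ^ K), by omega, fun n hn L hL => ?_⟩
  have hn1 : (4 * K) ^ K ≤ n := (le_max_left _ _).trans hn
  have hn2 : (2 * (2 * L0 + 10) + 1) ^ K ≤ n := (le_max_right _ _).trans hn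
  refine ⟨?_, ?_⟩
  · rcases le_total L0 L with h | h
    · exact (hbig L h).trans hL
    · refine le_trans (Nat.pow_le_pow_left ?_ K) hn2
      omega
  · have hKpos : 0 < K := by omega
    have hKR : (0 : ℝ) < 4 * K := by
      have : (0 : ℝ) < K := by exact_mod_cast hKpos
      linarith
    have h1 : (n : ℝ) / (4 * K) ≤ ((n / (4 * K) + 1 : ℕ) : ℝ) := by
      rw [div_le_iff₀ hKR]
      have h2 : n ≤ (n / (4 * K) + 1) * (4 * K) := by
        have h3 := Nat.lt_div_mul_add (a := n) (b := 4 * K) (by omega)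
        rw [Nat.add_mul, Nat.one_mul]
        exact h3.le
      exact_mod_cast h2
    have h3 : (0 : ℝ) ≤ (n : ℝ) / (4 * K) := by positivity
    refine le_trans ?_ (pow_le_pow_left₀ h3 h1 K)
    rw [div_pow, le_div_iff₀ (by positivity)]
    have h4 : ((4 * (K : ℝ))) ^ K ≤ n := by exact_mod_cast hn1
    have h5 : (n : ℝ) ^ K = ((n : ℝ) ^ 41) ^ 2 * n := by
      rw [← pow_mul, ← pow_succ]
      congr 1
      omega
    rw [h5]
    exact mul_le_mul_of_nonneg_left h4 (by positivity)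

end Pool.Agent.FQ
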