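import Pool.Agent.FQ.Defs

/-!
# Project FQ, part I: volumes of Hamming balls
-/

set_option autoImplicit false

namespace Pool.Agent.FQ

open Finset

/-- The volume of a Hamming ball of radius `r` in dimension `m`. -/
def gV (m r : ℕ) : ℕ := ∑ i ∈ range (r + 1), m.choose i

theorem gV_pos (m r : ℕ) : 0 < gV m r := by
  unfold gV
  refine Finset.sum_pos' (fun i _ => Nat.zero_le _) ⟨0, Finset.mem_range.2 (Nat.succ_pos r), ?_⟩
  rw [Nat.choose_zero_right]
  exact Nat.one_pos

theorem gV_mono (m : ℕ) {r r' : ℕ} (h : r ≤ r') : gV m r ≤ gV m r' :=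
  Finset.sum_le_sum_of_subset (Finset.range_mono (Nat.succ_le_succ h))

theorem gV_le_two_pow (m r : ℕ) : gV m r ≤ 2 ^ m := by
  unfold gV
  rw [← Nat.sum_range_choose]
  rcases le_total r m with h | h
  · exact Finset.sum_le_sum_of_subset (Finset.range_mono (Nat.succ_le_succ h))
  · rw [← Finset.sum_subset (Finset.range_mono (Nat.succ_le_succ h))]
    intro i _ hi
    rw [Finset.mem_range] at hi
    exact Nat.choose_eq_zero_of_lt (by omega)

/-- One more step of the radius costs a factor four. -/
theorem gV_succ (m r : ℕ) (h : m ≤ 4 * r + 3) : gV m (r + 1) ≤ 4 * gV m r := by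
  have h1 : gV m (r + 1) = gV m r + m.choose (r + 1) := by
    unfold gV
    rw [Finset.sum_range_succ]
  have h2 : m.choose (r + 1) ≤ 3 * m.choose r := by
    have h3 := Nat.choose_succ_right_eq m r
    have h4 : m - r ≤ 3 * (r + 1) := by omega
    have h5 : m.choose (r + 1) * (r + 1) ≤ 3 * m.choose r * (r + 1) := by
      rw [h3]
      calc m.choose r * (m - r) ≤ m.choose r * (3 * (r + 1)) := Nat.mul_le_mul_left _ h4
        _ = 3 * m.choose r * (r + 1) := by ring
    exact Nat.le_of_mul_le_mul_right h5 (Nat.succ_pos r)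
  have h6 : m.choose r ≤ gV m r := by
    unfold gV
    exact Finset.single_le_sum (f := fun i => m.choose i) (fun i _ => Nat.zero_le _)
      (Finset.mem_range.2 (Nat.lt_succ_self r))
  omega

/-- `k` more steps of the radius cost a factor `4 ^ k`. -/
theorem gV_add (m r k : ℕ) (h : m ≤ 4 * r + 3) : gV m (r + k) ≤ 4 ^ k * gV m r := by
  induction k with
  | zero => simp
  | succ k ih =>
    calc gV m (r + (k + 1)) = gV m (r + k + 1) := rfl
      _ ≤ 4 * gV m (r + k) := gV_succ m (r + k) (by omega)
      _ ≤ 4 * (4 ^ k * gV m r) := Nat.mul_le_mul_left _ ih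
      _ = 4 ^ (k + 1) * gV m r := by ring

/-- The generating function bound. -/
theorem gV_gen (m r : ℕ) : (gV m r : ℝ) ≤ 3 ^ r * (4 / 3) ^ m := by
  have h1 : (gV m r : ℝ) * (1 / 3) ^ r ≤ (1 / 3 + 1) ^ m := by
    rw [add_pow]
    unfold gV
    rw [Nat.cast_sum, Finset.sum_mul]
    have h2 : ∀ i ∈ range (r + 1), ((m.choose i : ℕ) : ℝ) * (1 / 3) ^ r ≤
        (1 / 3) ^ i * 1 ^ (m - i) * (m.choose i : ℝ) := by
      intro i hi
      rw [one_pow, mul_one, mul_comm]
      refine mul_le_mul_of_nonneg_right ?_ (Nat.cast_nonneg _)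
      exact pow_le_pow_of_le_one (by norm_num) (by norm_num)
        (Nat.lt_succ_iff.1 (Finset.mem_range.1 hi))
    refine (Finset.sum_le_sum h2).trans ?_
    rcases le_total r m with h | h
    · exact Finset.sum_le_sum_of_subset_of_nonneg (Finset.range_mono (Nat.succ_le_succ h))
        fun i _ _ => by positivity
    · rw [← Finset.sum_subset (Finset.range_mono (Nat.succ_le_succ h))]
      intro i _ hi
      rw [Finset.mem_range] at hi
      rw [Nat.choose_eq_zero_of_lt (by omega : m < i), Nat.cast_zero, mul_zero]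
  have h3 : (1 / 3 + 1 : ℝ) = 4 / 3 := by norm_num
  rw [h3] at h1
  calc (gV m r : ℝ) = 3 ^ r * ((gV m r : ℝ) * (1 / 3) ^ r) := by
        rw [one_div, inv_pow]
        field_simp
    _ ≤ 3 ^ r * (4 / 3) ^ m := mul_le_mul_of_nonneg_left h1 (by positivity)

/-- The fourth power of the relative volume. -/
theorem gV_pow_four (m r : ℕ) (h : 4 * r ≤ m) :
    ((gV m r : ℝ) / 2 ^ m) ^ 4 ≤ (16 / 27) ^ m := by
  have h1 : ((gV m r : ℝ) / 2 ^ m) ^ 4 ≤ (3 ^ r * (4 / 3) ^ m / 2 ^ m) ^ 4 := by
    refine pow_le_pow_left₀ (by positivity) ?_ 4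
    exact div_le_div_of_nonneg_right (gV_gen m r) (by positivity)
  refine h1.trans ?_
  have h2 : (3 ^ r * (4 / 3 : ℝ) ^ m / 2 ^ m) ^ 4 = 3 ^ (4 * r) * (16 / 81) ^ m := by
    rw [mul_div_assoc, ← div_pow, mul_pow, ← pow_mul, ← pow_mul, mul_comm r 4, mul_comm m 4,
      pow_mul (4 / 3 / 2 : ℝ)]
    norm_num
  rw [h2]
  calc (3 : ℝ) ^ (4 * r) * (16 / 81) ^ m ≤ 3 ^ m * (16 / 81) ^ m :=
        mul_le_mul_of_nonneg_right (pow_le_pow_right₀ (by norm_num) h) (by positivity)
    _ = (16 / 27) ^ m := by
        rw [← mul_pow]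
        norm_num

/-- The relative volume of a ball of radius `m / 4`. -/
theorem gV_le (m r : ℕ) (h : 4 * r ≤ m) :
    (gV m r : ℝ) ≤ (16 / 27 : ℝ) ^ ((m : ℝ) / 4) * 2 ^ m := by
  rw [← div_le_iff₀ (by positivity)]
  have h1 := gV_pow_four m r h
  have h2 : ((16 / 27 : ℝ) ^ ((m : ℝ) / 4)) ^ 4 = (16 / 27) ^ m := by
    rw [← Real.rpow_natCast ((16 / 27 : ℝ) ^ ((m : ℝ) / 4)) 4, ← Real.rpow_mul (by norm_num),
      ← Real.rpow_natCast]
    congr 1
    push_cast
    ring
  rw [← h2] at h1
  exact le_of_pow_le_pow_left₀ (by norm_num) (by positivity) h1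

/-- The number of points of a Hamming ball. -/
theorem gV_ball (m r : ℕ) (c : Fin m → ZMod 2) :
    (univ.filter (fun z : Fin m → ZMod 2 => hammingDist c z ≤ r)).card = gV m r := by
  classical
  let f : (Fin m → ZMod 2) → Finset (Fin m) := fun z => univ.filter (fun i => c i ≠ z i)
  have hf : ∀ z, (f z).card = hammingDist c z := fun z => rfl
  have hinj : Function.Injective f := by
    intro z z' h
    funext i
    have h1 : i ∈ f z ↔ i ∈ f z' := by rw [h]
    simp only [f, Finset.mem_filter, Finset.mem_univ, true_and] at h1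
    have h2 : ∀ a b d : ZMod 2, (a ≠ b ↔ a ≠ d) → b = d := by decide
    exact h2 _ _ _ h1
  have h1 : (univ.filter (fun z : Fin m → ZMod 2 => hammingDist c z ≤ r)).image f =
      univ.filter (fun s : Finset (Fin m) => s.card ≤ r) := by
    ext s
    simp only [Finset.mem_image, Finset.mem_filter, Finset.mem_univ, true_and]
    constructor
    · rintro ⟨z, hz, rfl⟩
      rw [hf]
      exact hz
    · intro hs
      refine ⟨fun i => if i ∈ s then c i + 1 else c i, ?_, ?_⟩
      · rw [← hf]
        refine le_trans (le_of_eq ?_) hs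
        congr 1
        ext i
        simp only [f, Finset.mem_filter, Finset.mem_univ, true_and]
        by_cases hi : i ∈ s
        · simp [hi]
        · simp [hi]
      · ext i
        simp only [f, Finset.mem_filter, Finset.mem_univ, true_and]
        by_cases hi : i ∈ s
        · simp [hi]
        · simp [hi]
  rw [← Finset.card_image_of_injective _ hinj, h1]
  unfold gV
  have h2 : (univ.filter (fun s : Finset (Fin m) => s.card ≤ r)) =
      (range (r + 1)).biUnion (fun i => powersetCard i univ) := by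
    ext s
    simp only [Finset.mem_filter, Finset.mem_univ, true_and, Finset.mem_biUnion,
      Finset.mem_range, Finset.mem_powersetCard, Finset.subset_univ]
    constructor
    · intro h
      exact ⟨s.card, Nat.lt_succ_of_le h, rfl⟩
    · rintro ⟨i, hi, rfl⟩
      exact Nat.lt_succ_iff.1 hi
  rw [h2, Finset.card_biUnion]
  · refine Finset.sum_congr rfl fun i _ => ?_
    rw [Finset.card_powersetCard, Finset.card_univ, Fintype.card_fin]
  · intro i _ j _ hij
    exact Finset.pairwise_disjoint_powersetCard univ hij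

end Pool.Agent.FQ
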