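import Pool.Agent.FQ.Defs
import Pool.Agent.H16.Cube.Code

/-!
# Project FQ (MP_a55b9e_co): the blocks, positions and sites of the cube (helper12)

`el n = n / 16`; the code `cc n r`, `r : R n`, is constant on the groups `{4k, ..., 4k+3}`,
`k < el n`. Blocks of even positions `Dl n` (represented by their member with `idx = 0`), odd
positions `Ob n`, sites `St n` (the coordinates from `4 * el n` on).
-/

set_option autoImplicit false

namespace Pool.Agent.FQ.G

open Finset
open Pool.Agent.H16.Cube (par cc cubeBC par_add par_single par_cc cc_add fun_add_self)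

/-- The dimension of the code. -/
def el (n : ℕ) : ℕ := n / 16

theorem el_le (n : ℕ) : 4 * el n ≤ n := by unfold el; omega

/-- Positions. -/
abbrev Pos (n : ℕ) : Type := Fin n → ZMod 2

/-- Positions in a block. -/
abbrev R (n : ℕ) : Type := Fin (el n) → ZMod 2

/-- Sites. -/
abbrev St (n : ℕ) : Type := Fin (n - 4 * el n) → ZMod 2

/-- Odd positions. -/
abbrev Ob (n : ℕ) : Type := {x : Pos n // par x = 1}

/-- Even positions. -/
abbrev Ev (n : ℕ) : Type := {x : Pos n // par x = 0}

variable {n : ℕ}

/-- The place of a position in its block. -/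
def idx (x : Pos n) : R n := fun k => x ⟨4 * k.1, by have := k.2; have := el_le n; omega⟩

/-- The site of a position. -/
def site (x : Pos n) : St n := fun k => x ⟨4 * el n + k.1, by have := k.2; have := el_le n; omega⟩

/-- The representative of the block of a position. -/
def rep (x : Pos n) : Pos n := x + cc n (idx x)

/-- The blocks of even positions. -/
abbrev Dl (n : ℕ) : Type := {x : Pos n // par x = 0 ∧ idx x = 0}

/-! ### Elementary facts -/

theorem idx_add (x y : Pos n) : idx (x + y) = idx x + idx y := rfl

theorem site_add (x y : Pos n) : site (x + y) = site x + site y := rfl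

theorem idx_cc (r : R n) : idx (cc n r) = r := by
  funext k
  have h2 : 4 * k.1 / 4 < el n := by have := k.2; omega
  simp only [idx, cc, dif_pos h2]
  congr 1
  apply Fin.ext
  simp only
  omega

theorem site_cc (r : R n) : site (cc n r) = 0 := by
  funext k
  have h2 : ¬ (4 * el n + k.1) / 4 < el n := by omega
  simp only [site, cc, dif_neg h2, Pi.zero_apply]

theorem idx_rep (x : Pos n) : idx (rep x) = 0 := by
  rw [rep, idx_add, idx_cc, fun_add_self]

theorem site_rep (x : Pos n) : site (rep x) = site x := by
  rw [rep, site_add, site_cc, add_zero]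

theorem par_rep (x : Pos n) : par (rep x) = par x := by
  rw [rep, par_add, par_cc (el_le n), add_zero]

theorem rep_add_cc (x : Pos n) : rep x + cc n (idx x) = x := by
  rw [rep, add_assoc, fun_add_self, add_zero]

theorem rep_cc (d : Pos n) (hd : idx d = 0) (r : R n) : rep (d + cc n r) = d := by
  rw [rep, idx_add, hd, zero_add, idx_cc, add_assoc, fun_add_self, add_zero]

theorem idx_cc' (d : Pos n) (hd : idx d = 0) (r : R n) : idx (d + cc n r) = r := by
  rw [idx_add, hd, zero_add, idx_cc]

theorem par_flip (x : Pos n) (i : Fin n) (hx : par x = 1) :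
    par (x + Pi.single i 1) = 0 := by
  rw [par_add, par_single, hx]
  decide

theorem par_flip' (x : Pos n) (i : Fin n) (hx : par x = 0) :
    par (x + Pi.single i 1) = 1 := by
  rw [par_add, par_single, hx]
  decide

theorem flip_flip (x : Pos n) (i : Fin n) : x + Pi.single i 1 + Pi.single i 1 = x := by
  rw [add_assoc, fun_add_self, add_zero]

/-- The block of an even position. -/
def blk (x : Ev n) : Dl n := ⟨rep x.1, by rw [par_rep]; exact x.2, idx_rep _⟩

/-- The position with given block and place. -/
def mk (d : Dl n) (r : R n) : Ev n :=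
  ⟨d.1 + cc n r, by rw [par_add, par_cc (el_le n), add_zero]; exact d.2.1⟩

theorem blk_mk (d : Dl n) (r : R n) : blk (mk d r) = d :=
  Subtype.ext (rep_cc d.1 d.2.2 r)

theorem idx_mk (d : Dl n) (r : R n) : idx (mk d r).1 = r := idx_cc' d.1 d.2.2 r

theorem mk_blk (x : Ev n) : mk (blk x) (idx x.1) = x := Subtype.ext (rep_add_cc x.1)

/-- Even positions are pairs of a block and a place. -/
def evEquiv : Ev n ≃ Dl n × R n where
  toFun x := (blk x, idx x.1)
  invFun p := mk p.1 p.2
  left_inv x := mk_blk x
  right_inv p := by
    obtain ⟨d, r⟩ := p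
    simp only [blk_mk, idx_mk]

/-- The even neighbours of an odd position. -/
def nb (o : Ob n) (i : Fin n) : Ev n := ⟨o.1 + Pi.single i 1, par_flip _ _ o.2⟩

/-- The blocks of the neighbours of an odd position. -/
def D (o : Ob n) (i : Fin n) : Dl n := blk (nb o i)

/-- The places of the neighbours of an odd position. -/
def pos (o : Ob n) (i : Fin n) : R n := idx (nb o i).1

/-- The sites of the neighbours of an odd position. -/
def sb (o : Ob n) (i : Fin n) : St n := site (nb o i).1

theorem site_D (o : Ob n) (i : Fin n) : site (D o i).1 = sb o i := site_rep _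

theorem D_inj (o : Ob n) : Function.Injective (D o) := by
  intro i j hij
  by_contra hne
  exact (cubeBC n (el n) (el_le n)).pr_nbr o.1 i j hne (congrArg Subtype.val hij)

/-! ### Cardinalities -/

theorem card_pos : Fintype.card (Pos n) = 2 ^ n := by
  rw [Fintype.card_fun, ZMod.card, Fintype.card_fin]

theorem card_R : Fintype.card (R n) = 2 ^ el n := by
  rw [Fintype.card_fun, ZMod.card, Fintype.card_fin]

theorem card_St : Fintype.card (St n) = 2 ^ (n - 4 * el n) := by
  rw [Fintype.card_fun, ZMod.card, Fintype.card_fin]

/-- Flipping the coordinate `i`. -/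
def flipEquiv (i : Fin n) : Ob n ≃ Ev n where
  toFun o := nb o i
  invFun x := ⟨x.1 + Pi.single i 1, par_flip' _ _ x.2⟩
  left_inv _ := Subtype.ext (flip_flip _ _)
  right_inv _ := Subtype.ext (flip_flip _ _)

theorem card_Ob (hn : 1 ≤ n) : Fintype.card (Ob n) = 2 ^ (n - 1) := by
  have h1 : Fintype.card (Ob n) = Fintype.card (Ev n) :=
    Fintype.card_congr (flipEquiv ⟨0, hn⟩)
  have h2 : Fintype.card (Ob n) + Fintype.card (Ev n) = 2 ^ n := by
    have h3 : Fintype.card {x : Pos n // ¬ par x = 1} = Fintype.card (Ev n) := by
      refine Fintype.card_congr (Equiv.subtypeEquivRight fun x => ?_)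
      generalize par x = a
      revert a
      decide
    have h4 := Fintype.card_congr (Equiv.sumCompl (fun x : Pos n => par x = 1))
    rw [Fintype.card_sum, h3, card_pos] at h4
    exact h4
  have h5 : 2 ^ n = 2 * 2 ^ (n - 1) := by
    rw [← pow_succ']
    congr 1
    omega
  omega

theorem card_Ev (hn : 1 ≤ n) : Fintype.card (Ev n) = 2 ^ (n - 1) := by
  rw [← card_Ob hn]
  exact (Fintype.card_congr (flipEquiv ⟨0, hn⟩)).symm

theorem card_Dl (hn : 1 ≤ n) : Fintype.card (Dl n) * 2 ^ el n = 2 ^ (n - 1) := by
  rw [← card_Ev hn, Fintype.card_congr (evEquiv (n := n)), Fintype.card_prod, card_R]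

/-- A block has few odd neighbours. -/
theorem cnt_le (d : Dl n) :
    (univ.filter (fun o : Ob n => ∃ i, D o i = d)).card ≤ n * 2 ^ el n := by
  classical
  have h1 : univ.filter (fun o : Ob n => ∃ i, D o i = d) ⊆
      (univ : Finset (Fin n × R n)).image
        (fun p => (flipEquiv p.1).symm (mk d p.2)) := by
    intro o ho
    obtain ⟨i, hi⟩ := (mem_filter.mp ho).2
    refine mem_image.mpr ⟨(i, pos o i), mem_univ _, ?_⟩
    rw [Equiv.symm_apply_eq]
    show mk d (pos o i) = nb o i
    rw [← hi]
    exact mk_blk (nb o i)
  refine (card_le_card h1).trans (card_image_le.trans ?_)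
  rw [card_univ, Fintype.card_prod, Fintype.card_fin, card_R]

/-- A shift that moves the sites and respects blocks. -/
theorem exists_shift (hn : 16 ≤ n) (g : St n) :
    ∃ v : Pos n, par v = 0 ∧ idx v = 0 ∧ site v = g := by
  classical
  have hel : 1 ≤ el n := by unfold el; omega
  have hle := el_le n
  let w : Pos n := fun i => if h : 4 * el n ≤ i.1 then
    g ⟨i.1 - 4 * el n, by have := i.2; omega⟩ else 0
  let e : Fin n := ⟨1, by omega⟩
  have hw1 : idx w = 0 := by
    funext k
    have h2 : ¬ 4 * el n ≤ 4 * k.1 := by have := k.2; omega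
    simp only [idx, w, dif_neg h2, Pi.zero_apply]
  have hw2 : site w = g := by
    funext k
    have h2 : 4 * el n ≤ 4 * el n + k.1 := by omega
    simp only [site, w, dif_pos h2]
    congr 1
    apply Fin.ext
    simp only
    omega
  have he1 : idx (Pi.single e (1 : ZMod 2)) = (0 : R n) := by
    funext k
    simp only [idx, Pi.zero_apply]
    rw [Pi.single_apply, if_neg]
    intro h
    have := congrArg Fin.val h
    simp only [e] at this
    omega
  have he2 : site (Pi.single e (1 : ZMod 2)) = (0 : St n) := by
    funext k
    simp only [site, Pi.zero_apply]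
    rw [Pi.single_apply, if_neg]
    intro h
    have := congrArg Fin.val h
    simp only [e] at this
    omega
  by_cases h : par w = 0
  · exact ⟨w, h, hw1, hw2⟩
  · have h1 : par w = 1 := by
      revert h
      generalize par w = a
      revert a
      decide
    exact ⟨w + Pi.single e 1, par_flip _ _ h1, by rw [idx_add, hw1, he1, add_zero],
      by rw [site_add, hw2, he2, add_zero]⟩

/-- Equidistribution from shifts. -/
theorem equi {A : Type} [Fintype A] (f : A → St n)
    (hf : ∀ g : St n, ∃ e : A → A, Function.Injective e ∧ ∀ a, f (e a) = f a + g) (h : St n) :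
    (univ.filter (fun a => f a = h)).card * Fintype.card (St n) = Fintype.card A := by
  classical
  have key : ∀ h h' : St n, (univ.filter (fun a => f a = h)).card ≤
      (univ.filter (fun a => f a = h')).card := by
    intro h h'
    obtain ⟨e, he, hfe⟩ := hf (h + h')
    refine card_le_card_of_injOn e ?_ he.injOn
    intro a ha
    have ha' : f a = h := (mem_filter.mp ha).2
    refine mem_filter.mpr ⟨mem_univ _, ?_⟩
    rw [hfe, ha', ← add_assoc, fun_add_self, zero_add]
  have h1 : ∑ h' : St n, (univ.filter (fun a => f a = h')).card = Fintype.card A := by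
    rw [← card_univ, card_eq_sum_card_fiberwise (f := f) (t := univ) (fun a _ => mem_univ _)]
  rw [← h1, sum_congr rfl fun h' _ => le_antisymm (key h' h) (key h h'), sum_const, card_univ,
    smul_eq_mul, mul_comm]

theorem reg_Ev (hn : 16 ≤ n) (h : St n) :
    (univ.filter (fun x : Ev n => site x.1 = h)).card * Fintype.card (St n) = 2 ^ (n - 1) := by
  rw [equi (fun x : Ev n => site x.1) _ h, card_Ev (by omega)]
  intro g
  obtain ⟨v, hv, -, hvs⟩ := exists_shift hn g
  refine ⟨fun x => ⟨x.1 + v, by rw [par_add, x.2, hv, add_zero]⟩, ?_, ?_⟩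
  · intro x y hxy
    exact Subtype.ext (add_right_cancel (congrArg Subtype.val hxy))
  · intro x
    show site (x.1 + v) = site x.1 + g
    rw [site_add, hvs]

/-- Each site is hit equally often by the neighbours in a direction. -/
theorem reg (hn : 16 ≤ n) (i : Fin n) (h : St n) :
    (univ.filter (fun o : Ob n => sb o i = h)).card * Fintype.card (St n) = 2 ^ (n - 1) := by
  classical
  rw [← reg_Ev hn h]
  congr 1
  refine card_bij' (fun o _ => flipEquiv i o) (fun x _ => (flipEquiv i).symm x) ?_ ?_ ?_ ?_
  · intro o ho
    exact mem_filter.mpr ⟨mem_univ _, (mem_filter.mp ho).2⟩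
  · intro x hx
    refine mem_filter.mpr ⟨mem_univ _, ?_⟩
    show site (flipEquiv i ((flipEquiv i).symm x)).1 = h
    rw [Equiv.apply_symm_apply]
    exact (mem_filter.mp hx).2
  · intro o _
    exact Equiv.symm_apply_apply _ _
  · intro x _
    exact Equiv.apply_symm_apply _ _

/-- Each site has equally many blocks. -/
theorem reg_Dl (hn : 16 ≤ n) (h : St n) :
    (univ.filter (fun d : Dl n => site d.1 = h)).card * Fintype.card (St n) =
      Fintype.card (Dl n) := by
  refine equi (fun d : Dl n => site d.1) ?_ h
  intro g
  obtain ⟨v, hv, hvi, hvs⟩ := exists_shift hn g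
  refine ⟨fun d => ⟨d.1 + v, by rw [par_add, d.2.1, hv, add_zero],
    by rw [idx_add, d.2.2, hvi, add_zero]⟩, ?_, ?_⟩
  · intro x y hxy
    exact Subtype.ext (add_right_cancel (congrArg Subtype.val hxy))
  · intro d
    show site (d.1 + v) = site d.1 + g
    rw [site_add, hvs]

/-! ### Sites of neighbours -/

theorem site_single_lt (i : Fin n) (hi : i.1 < 4 * el n) :
    site (Pi.single i (1 : ZMod 2)) = (0 : St n) := by
  funext k
  simp only [site, Pi.zero_apply]
  rw [Pi.single_apply, if_neg]
  intro h
  have := congrArg Fin.val h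
  simp only at this
  omega

theorem site_single_ge (i : Fin n) (hi : 4 * el n ≤ i.1) :
    site (Pi.single i (1 : ZMod 2)) =
      Pi.single (⟨i.1 - 4 * el n, by have := i.2; omega⟩ : Fin (n - 4 * el n)) 1 := by
  funext k
  simp only [site]
  rw [Pi.single_apply, Pi.single_apply]
  congr 1
  rw [Fin.ext_iff, Fin.ext_iff]
  simp only [eq_iff_iff]
  omega

/-- The sites of the neighbours differ from the site of the odd position in at most one
coordinate. -/
theorem sb_cases (o : Ob n) (i : Fin n) :
    sb o i = site o.1 ∨ ∃ j : Fin (n - 4 * el n), sb o i = site o.1 + Pi.single j 1 := by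
  have h1 : sb o i = site o.1 + site (Pi.single i 1) := site_add _ _
  by_cases hi : i.1 < 4 * el n
  · left
    rw [h1, site_single_lt i hi, add_zero]
  · right
    exact ⟨_, by rw [h1, site_single_ge i (by omega)]⟩

end Pool.Agent.FQ.G
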