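import Pool.Agent.FQ.SDefs
import Pool.Agent.FQ.Geo
import Pool.Agent.FQ.GVol

/-!
# Project FQ, geometry of part I: boxes and centres

Rows for the geometric fields of `MacHyp` (MDefs.lean), target `GPartStatement`.
-/

set_option autoImplicit false

namespace Pool.Agent.FQ

open Finset Classical

/-- Number of centres of level `l`. -/
noncomputable def Mc (mu0 m l : ℕ) : ℕ := ⌈4 * ((2 ^ l * mu0 : ℕ) : ℝ) * 2 ^ m / gV m (m / 4)⌉₊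

/-- Row V4: good centres. -/
def V4Statement : Prop := ∀ (m mu0 L : ℕ), 4 ≤ m → 10 ^ 10 ≤ mu0 →
  ∃ c : Fin (Mc mu0 m L) → Fin m → ZMod 2, ∀ l ≤ L,
    ((univ.filter (fun z : Fin m → ZMod 2 =>
      ¬ (2 ^ l * mu0 ≤ (univ.filter (fun j : Fin (Mc mu0 m L) => j.1 < Mc mu0 m l ∧
          hammingDist (c j) z ≤ m / 4)).card ∧
        (univ.filter (fun j : Fin (Mc mu0 m L) => j.1 < Mc mu0 m l ∧
          hammingDist (c j) z ≤ m / 4 + 1)).card ≤ 22 * (2 ^ l * mu0)))).card : ℝ) *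
      Real.exp (((2 ^ l * mu0 : ℕ) : ℝ) / 8) ≤ 2 ^ m

/-- The box of a site: the weights of `K` groups of `w` coordinates. -/
def boxC {k : ℕ} (K w : ℕ) (hk : K * w ≤ k) (h : Fin k → ZMod 2) (g : Fin K) : Fin (w + 1) :=
  ⟨(univ.filter (fun t : Fin w => h ⟨g.1 * w + t.1, by
      have h1 := g.2
      have h2 := t.2
      have h3 : g.1 * w + w ≤ K * w := by
        have := Nat.mul_le_mul_right w (Nat.succ_le_of_lt h1)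
        rwa [Nat.succ_mul] at this
      omega⟩ ≠ 0)).card, by
    have := card_filter_le (univ : Finset (Fin w)) (fun t : Fin w => h ⟨g.1 * w + t.1, by
      have h1 := g.2
      have h2 := t.2
      have h3 : g.1 * w + w ≤ K * w := by
        have := Nat.mul_le_mul_right w (Nat.succ_le_of_lt h1)
        rwa [Nat.succ_mul] at this
      omega⟩ ≠ 0)
    rw [card_univ, Fintype.card_fin] at this
    omega⟩

/-- Distance of two boxes. -/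
def dB {K w : ℕ} (σ σ' : Fin K → Fin (w + 1)) : ℕ := ∑ g, (((σ g : ℕ) : ℤ) - ((σ' g : ℕ) : ℤ)).natAbs

/-- Row B1: the box is Lipschitz. -/
def B1Statement : Prop := ∀ (k K w : ℕ) (hk : K * w ≤ k) (h h' : Fin k → ZMod 2),
  dB (boxC K w hk h) (boxC K w hk h') ≤ hammingDist h h'

/-- Row B2: balls of boxes. -/
def B2Statement : Prop := ∀ (K w : ℕ) (σ : Fin K → Fin (w + 1)),
  (univ.filter (fun σ' => dB σ σ' ≤ 1)).card ≤ 2 * K + 1 ∧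
  ∀ t, (univ.filter (fun σ' => dB σ σ' ≤ t)).card ≤ (2 * t + 1) ^ K

/-- Row B3: measure of a box. -/
def B3Statement : Prop := ∀ (k K w : ℕ) (hk : K * w ≤ k) (σ : Fin K → Fin (w + 1)),
  (univ.filter (fun h : Fin k → ZMod 2 => boxC K w hk h = σ)).card ^ 2 * (w + 1) ^ K ≤ 4 ^ k

/-- Row H1: Hamming balls. -/
def H1Statement : Prop := ∀ (k t : ℕ) (h : Fin k → ZMod 2),
  (univ.filter (fun h' : Fin k → ZMod 2 => hammingDist h h' ≤ t)).card ≤ (k + 1) ^ t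

/-- The `z`-coordinates of a site. -/
def zC {k : ℕ} (q m : ℕ) (hk : q + m ≤ k) (h : Fin k → ZMod 2) (j : Fin m) : ZMod 2 :=
  h ⟨q + j.1, by have := j.2; omega⟩

/-- Row H2: the fibres of `zC` and its Lipschitz property. -/
def H2Statement : Prop := ∀ (k q m : ℕ) (hk : q + m ≤ k),
  (∀ z : Fin m → ZMod 2, (univ.filter (fun h : Fin k → ZMod 2 => zC q m hk h = z)).card =
    2 ^ (k - m)) ∧
  ∀ h h' : Fin k → ZMod 2, hammingDist (zC q m hk h) (zC q m hk h') ≤ hammingDist h h'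

/-- Row N1: the numbers of part II and III. -/
def N1Statement : Prop := ∃ n0 : ℕ, ∀ n ≥ n0, Num n (2 ^ (n - 1)) (2 ^ (n / 16)) (Real.exp (n / 8000))

/-- Row N2: the levels. -/
def N2Statement : Prop := ∀ C : ℕ, 2 ≤ C → ∃ n0 : ℕ, ∀ n ≥ n0, ∃ mu0 L : ℕ, 10 ^ 10 ≤ mu0 ∧
  (n : ℝ) ^ C ≤ Real.exp mu0 ∧ Real.exp mu0 ≤ (n : ℝ) ^ (C + 1) ∧ 8 * n ≤ 2 ^ L * mu0 ∧
  2 ^ L * mu0 ≤ 16 * n ∧ 2 ^ L ≤ n

/-- Row N3: the influence of the tokens (numbers only). -/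
def N3Statement : Prop := ∀ K : ℕ, 1 ≤ K → ∃ n0 : ℕ, ∀ n ≥ n0, ∀ mu0 L : ℕ, 1 ≤ mu0 →
  2 ^ L * mu0 ≤ 16 * n → 2 ^ L ≤ n →
  (Mc mu0 (n / 4) L : ℝ) * ((n / (4 * K) + 1 : ℕ) : ℝ) ^ K *
    (2 ^ (n - 4 * (n / 16) - n / 4) * (gV (n / 4) (n / 4 / 4 + (2 * L + 4)) : ℝ)) ^ 2 *
    Real.exp (n / 8000) ^ 250 ≤ ((2 : ℝ) ^ (n - 4 * (n / 16))) ^ 2

/-- Row N4: the measure of the boxes (numbers only). -/
def N4Statement : Prop := ∃ K n0 : ℕ, 1 ≤ K ∧ ∀ n ≥ n0, ∀ L : ℕ, 2 ^ L ≤ n →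
  (2 * (2 * L + 10) + 1) ^ K ≤ n ∧ ((n : ℝ) ^ 41) ^ 2 ≤ ((n / (4 * K) + 1 : ℕ) : ℝ) ^ K

/-- The geometric fields of `MacHyp` about boxes and centres. -/
structure GPart (n mu0 L Δ : ℕ) (b : ℝ) (Bx Jc : Type) [Fintype Bx] [Fintype Jc]
    (box : G.St n → Bx) (dB' : Bx → Bx → ℕ) (Ac Cm : ℕ → G.St n → Finset Jc)
    (jc : Bool → G.Ob n → Jc) : Prop where
  dBself : ∀ σ, dB' σ σ = 0
  dBcomm : ∀ σ σ', dB' σ σ' = dB' σ' σ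
  dBtri : ∀ σ σ' σ'', dB' σ σ'' ≤ dB' σ σ' + dB' σ' σ''
  lip : ∀ h h', dB' (box h) (box h') ≤ hammingDist h h'
  nbc : ∀ σ, (univ.filter (fun σ' => dB' σ σ' ≤ 1)).card ≤ Δ
  bxm : ∀ σ, ((univ.filter (fun h => dB' (box h) σ ≤ 2 * L + 10)).card : ℝ) *
    (n : ℝ) ^ 40 ≤ Fintype.card (G.St n)
  bxc : ∀ σ, (univ.filter (fun σ' => dB' σ σ' ≤ 2 * L + 10)).card ≤ n
  cmac : ∀ l h h', hammingDist h h' ≤ 1 → Cm l h ⊆ Ac l h'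
  mono : ∀ l l' h, l ≤ l' → Ac l h ⊆ Ac l' h
  gfr : ∀ l ≤ L, ∑ h, ind (¬ (2 ^ l * mu0 ≤ (Cm l h).card ∧
    (Ac l h).card ≤ 22 * (2 ^ l * mu0))) ≤
    Fintype.card (G.St n) * Real.exp (-((((2 ^ l * mu0 : ℕ) : ℝ)) / 8))
  gtop : ∀ h, 2 ^ L * mu0 ≤ (Cm L h).card ∧ (Ac L h).card ≤ 22 * (2 ^ L * mu0)
  infc : ∀ j, (Fintype.card (Jc × Bx) : ℝ) *
    ((univ.filter (fun h => ∃ l ≤ L, ∃ h', hammingDist h h' ≤ 2 * L + 1 ∧
      j ∈ Ac l h')).card : ℝ) ^ 2 * b ^ 250 ≤ (Fintype.card (G.St n) : ℝ) ^ 2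
  jne : ∀ o, jc true o ≠ jc false o
  jcm : ∀ t o, (2 ^ 0 * mu0 ≤ (Cm 0 (G.site o.1)).card ∧
    (Ac 0 (G.site o.1)).card ≤ 22 * (2 ^ 0 * mu0)) → jc t o ∈ Cm 0 (G.site o.1)

/-- Boxes and centres exist. -/
def GPartStatement : Prop := ∃ Δ n0 : ℕ, ∀ n ≥ n0, ∀ mu0 L : ℕ, 10 ^ 10 ≤ mu0 →
  8 * n ≤ 2 ^ L * mu0 → 2 ^ L * mu0 ≤ 16 * n → 2 ^ L ≤ n →
  ∃ (Bx Jc : Type) (_ : Fintype Bx) (_ : Fintype Jc) (_ : DecidableEq Bx) (_ : DecidableEq Jc)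
    (box : G.St n → Bx) (dB' : Bx → Bx → ℕ) (Ac Cm : ℕ → G.St n → Finset Jc)
    (jc : Bool → G.Ob n → Jc),
    GPart n mu0 L Δ (Real.exp (n / 8000)) Bx Jc box dB' Ac Cm jc

end Pool.Agent.FQ
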