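import Pool.Agent.FQ.KDefs

/-!
# Project FQ, row GH: the hypotheses of part I hold for the cube
-/

set_option autoImplicit false

namespace Pool.Agent.FQ

open Finset Classical
open Pool.Agent.H73.Cube (EE Loc)
open Pool.Agent.H16.Cube (par par_add)

theorem gh_a22 (D : ℕ) (hD : 1 ≤ D) :
    (1 : ℝ) ≤ Real.exp (1 / 10 ^ 8) * (1 - 1 / (10 ^ 12 * D)) ^ (22 * D) := by
  have hDr : (1 : ℝ) ≤ D := by exact_mod_cast hD
  have h0 : (1 : ℝ) / (10 ^ 12 * D) ≤ 1 := by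
    rw [div_le_one (by positivity)]
    linarith
  have h1 : (1 : ℝ) + (22 * D : ℕ) * (-(1 / (10 ^ 12 * D))) ≤
      (1 + (-(1 / (10 ^ 12 * D)))) ^ (22 * D) :=
    one_add_mul_le_pow (by linarith) _
  have h2 : (1 : ℝ) + 1 / 10 ^ 8 ≤ Real.exp (1 / 10 ^ 8) := by
    have := Real.add_one_le_exp (1 / 10 ^ 8 : ℝ)
    linarith
  have h3 : (1 : ℝ) + -(1 / (10 ^ 12 * D)) = 1 - 1 / (10 ^ 12 * D) := by ring
  have h5 : (1 : ℝ) + (22 * D : ℕ) * (-(1 / (10 ^ 12 * D))) = 1 - 22 / 10 ^ 12 := by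
    push_cast
    field_simp
    ring
  rw [h3, h5] at h1
  have h4 : (0 : ℝ) ≤ 1 - 22 / 10 ^ 12 := by norm_num
  calc (1 : ℝ) ≤ (1 + 1 / 10 ^ 8) * (1 - 22 / 10 ^ 12) := by norm_num
    _ ≤ Real.exp (1 / 10 ^ 8) * (1 - 1 / (10 ^ 12 * D)) ^ (22 * D) :=
        mul_le_mul h2 h1 h4 (Real.exp_pos _).le

theorem gh_db (n D : ℕ) (hD : 1 ≤ D) :
    (1 : ℝ) ≤ (1 - 1 / (10 ^ 12 * D)) ^ n * Real.exp ((n : ℝ) / 8000 / 2) := by
  have hDr : (1 : ℝ) ≤ D := by exact_mod_cast hD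
  have h0 : (1 : ℝ) / (10 ^ 12 * D) ≤ 1 / 10 ^ 12 :=
    one_div_le_one_div_of_le (by norm_num) (by linarith)
  have h1 : Real.exp ((n : ℝ) / 8000 / 2) = Real.exp (1 / 16000) ^ n := by
    rw [← Real.exp_nat_mul]
    congr 1
    ring
  rw [h1, ← mul_pow]
  refine one_le_pow₀ ?_
  have h2 : (1 : ℝ) + 1 / 16000 ≤ Real.exp (1 / 16000) := by
    have := Real.add_one_le_exp (1 / 16000 : ℝ)
    linarith
  calc (1 : ℝ) ≤ (1 - 1 / 10 ^ 12) * (1 + 1 / 16000) := by norm_num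
    _ ≤ (1 - 1 / (10 ^ 12 * D)) * Real.exp (1 / 16000) :=
        mul_le_mul (by linarith) h2 (by norm_num) (by linarith [h0])

theorem gh_a0 (n m : ℕ) (hn : 1 ≤ n) (h : Real.exp m ≤ (n : ℝ) ^ 1281) :
    Real.exp (1 / 10 ^ 8) ^ (8 * m) ≤ n := by
  have hn' : (1 : ℝ) ≤ n := by exact_mod_cast hn
  rw [← Real.exp_nat_mul]
  refine le_of_pow_le_pow_left₀ (n := 12500000) (by norm_num) (by positivity) ?_
  rw [← Real.exp_nat_mul]
  have h1 : ((12500000 : ℕ) : ℝ) * (((8 * m : ℕ) : ℝ) * (1 / 10 ^ 8)) = m := by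
    push_cast
    ring
  rw [h1]
  refine h.trans ?_
  exact pow_le_pow_right₀ hn' (by norm_num)

theorem gh_two (l : ℕ) : 2 * (2 * l + 40) ≤ 80 * 2 ^ l := by
  induction l with
  | zero => norm_num
  | succ k ih =>
    rw [pow_succ]
    omega

theorem gh_mun (n m l : ℕ) (hn : 2 ≤ n) (h : (n : ℝ) ^ 1280 ≤ Real.exp m) :
    ((n : ℝ) + 1) ^ (2 * l + 40) ≤ Real.exp (((2 ^ l * m : ℕ) : ℝ) / 16) := by
  have hn' : (2 : ℝ) ≤ n := by exact_mod_cast hn
  have h1 : (n : ℝ) ^ 80 ≤ Real.exp ((m : ℝ) / 16) := by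
    refine le_of_pow_le_pow_left₀ (n := 16) (by norm_num) (Real.exp_pos _).le ?_
    rw [← Real.exp_nat_mul, ← pow_mul]
    have h2 : ((16 : ℕ) : ℝ) * ((m : ℝ) / 16) = m := by
      push_cast
      ring
    rw [h2]
    exact h
  have h3 : Real.exp (((2 ^ l * m : ℕ) : ℝ) / 16) = Real.exp ((m : ℝ) / 16) ^ (2 ^ l) := by
    rw [← Real.exp_nat_mul]
    congr 1
    push_cast
    ring
  rw [h3]
  have h4 : ((n : ℝ) + 1) ≤ (n : ℝ) ^ 2 := by nlinarith
  calc ((n : ℝ) + 1) ^ (2 * l + 40) ≤ ((n : ℝ) ^ 2) ^ (2 * l + 40) :=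
        pow_le_pow_left₀ (by positivity) h4 _
    _ = (n : ℝ) ^ (2 * (2 * l + 40)) := by rw [← pow_mul]
    _ ≤ (n : ℝ) ^ (80 * 2 ^ l) := pow_le_pow_right₀ (by linarith) (gh_two l)
    _ = ((n : ℝ) ^ 80) ^ (2 ^ l) := by rw [← pow_mul]
    _ ≤ Real.exp ((m : ℝ) / 16) ^ (2 ^ l) := pow_le_pow_left₀ (by positivity) h1 _

theorem gh_rego {n : ℕ} (hn : 16 ≤ n) (h : G.St n) :
    (univ.filter (fun o : G.Ob n => G.site o.1 = h)).card * Fintype.card (G.St n) =
      2 ^ (n - 1) := by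
  have key := G.equi (fun o : G.Ob n => G.site o.1) (fun g => by
    obtain ⟨v, hv, -, hvs⟩ := G.exists_shift hn g
    refine ⟨fun x => ⟨x.1 + v, by rw [par_add, x.2, hv, add_zero]⟩, ?_, ?_⟩
    · intro x y hxy
      exact Subtype.ext (add_right_cancel (congrArg Subtype.val hxy))
    · intro x
      show G.site (x.1 + v) = G.site x.1 + g
      rw [G.site_add, hvs]) h
  rw [G.card_Ob (by omega)] at key
  convert key

theorem gh_sosb {n : ℕ} (o : G.Ob n) (i : Fin n) :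
    hammingDist (G.site o.1) (G.sb o i) ≤ 1 := by
  rcases G.sb_cases o i with h | ⟨j, h⟩
  · rw [h, hammingDist_self]
    exact Nat.zero_le _
  · rw [h]
    unfold hammingDist
    refine (card_le_card (t := {j}) ?_).trans (by simp)
    intro k hk
    rw [mem_filter] at hk
    rw [mem_singleton]
    by_contra hne
    apply hk.2
    rw [Pi.add_apply, Pi.single_eq_of_ne hne, add_zero]

theorem gh_infc {A : Type} [Fintype A] (S : Finset A) (p : A → Prop) (_ : DecidablePred p)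
    (h : ∀ x, x ∈ S ↔ p x) (a e c : ℝ)
    (h3 : a * ((univ.filter p).card : ℝ) ^ 2 * e ≤ c) : a * (S.card : ℝ) ^ 2 * e ≤ c := by
  have h4 : S = univ.filter p := by
    ext x
    rw [h x, mem_filter]
    exact ⟨fun hh => ⟨mem_univ _, hh⟩, fun hh => hh.2⟩
  rw [h4]
  exact h3

theorem gh_hcb (n D : ℕ) (hD : 1 ≤ D) :
    400 * (n : ℝ) * (1 / (10 ^ 12 * D * ((6 * 10 ^ 9 + 2) * D))) ≤ (n : ℝ) / 8000 := by
  have hDr : (1 : ℝ) ≤ (D : ℝ) := by exact_mod_cast hD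
  have h3 : (1 : ℝ) / (10 ^ 12 * D * ((6 * 10 ^ 9 + 2) * D)) ≤ 1 / 10 ^ 12 := by
    refine one_div_le_one_div_of_le (by norm_num) ?_
    have h4 : (1 : ℝ) ≤ (6 * 10 ^ 9 + 2) * D := by linarith
    have h5 : (10 : ℝ) ^ 12 ≤ 10 ^ 12 * D := by linarith
    have h6 : (10 : ℝ) ^ 12 * 1 ≤ 10 ^ 12 * (D : ℝ) * ((6 * 10 ^ 9 + 2) * (D : ℝ)) :=
      mul_le_mul h5 h4 zero_le_one (by positivity)
    rw [mul_one] at h6
    exact h6
  calc 400 * (n : ℝ) * (1 / (10 ^ 12 * D * ((6 * 10 ^ 9 + 2) * D))) ≤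
        400 * (n : ℝ) * (1 / 10 ^ 12) := mul_le_mul_of_nonneg_left h3 (by positivity)
    _ ≤ (n : ℝ) / 8000 := by
        have : (0 : ℝ) ≤ n := by positivity
        linarith

theorem gh_hdl (D : ℕ) (hD : 1 ≤ D) : (((6 * 10 ^ 9 + 1 : ℕ) : ℝ) + 1) * (D : ℝ) *
      (1 / (10 ^ 12 * D * ((6 * 10 ^ 9 + 2) * D))) ≤ 1 / (10 ^ 12 * D) := by
  have hDr : (1 : ℝ) ≤ (D : ℝ) := by exact_mod_cast hD
  apply le_of_eq
  push_cast
  field_simp
  norm_num

theorem gh_han (n : ℕ) :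
    Real.exp (1 / 10 ^ 8) ^ (1600 * n) ≤ Real.exp ((n : ℝ) / 8000) := by
  rw [← Real.exp_nat_mul, Real.exp_le_exp]
  push_cast
  have : (0 : ℝ) ≤ n := by positivity
  linarith

theorem gh_haT : Real.exp 60 ≤ Real.exp (1 / 10 ^ 8) ^ (6 * 10 ^ 9 + 1 - 1) := by
  rw [← Real.exp_nat_mul, Real.exp_le_exp]
  norm_num

theorem gh (hP : GPartStatement) (_h1 : N1Statement) (h2 : N2Statement)
    (hH1 : H1Statement) : GHStatement := by
  obtain ⟨D0, nP, hP⟩ := hP
  obtain ⟨nN, h2⟩ := h2 1280 (by norm_num)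
  set D := D0 + 1 with hD
  have hD1 : 1 ≤ D := by omega
  have hDr : (1 : ℝ) ≤ (D : ℝ) := by exact_mod_cast hD1
  refine ⟨6 * 10 ^ 9 + 1, 1 / (10 ^ 12 * D * ((6 * 10 ^ 9 + 2) * D)),
    max (max nP nN) (10 ^ 10), by positivity, ?_⟩
  intro n hn
  have hnP : nP ≤ n := le_trans (le_trans (le_max_left _ _) (le_max_left _ _)) hn
  have hnN : nN ≤ n := le_trans (le_trans (le_max_right _ _) (le_max_left _ _)) hn
  have hn10 : 10 ^ 10 ≤ n := le_trans (le_max_right _ _) hn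
  obtain ⟨mu0, L, m1, m2, m3, m4, m5, m6⟩ := h2 n hnN
  obtain ⟨Bx, Jc, iB1, iJ1, iB2, iJ2, box, dB', Ac, Cm, jc, g⟩ := hP n hnP mu0 L m1 m4 m5 m6
  refine ⟨Bx, Jc, iB1, iJ1, iB2, iJ2, ?_⟩
  intro X Y _ _ _ _ ok hX hY hdX hdY
  have hNr : (((2 ^ (n - 1) : ℕ)) : ℝ) = 2 ^ (n - 1) := by push_cast; rfl
  have hn0 : (0 : ℝ) < n := by
    have : 0 < n := by omega
    exact_mod_cast this
  let M : Mac X Y (G.Ob n) (G.St n) Bx Jc n :=
    { ok := ok
      N := 2 ^ (n - 1)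
      L := L
      Dl := D
      μ := fun l => 2 ^ l * mu0
      a := Real.exp (1 / 10 ^ 8)
      c := 1 / (10 ^ 12 * D * ((6 * 10 ^ 9 + 2) * D))
      dl := 1 / (10 ^ 12 * D)
      bet := (n : ℝ) / 8000
      so := fun o => G.site o.1
      sb := G.sb
      D := fun h h' => hammingDist h h'
      box := box
      dB := dB'
      Ac := Ac
      Cm := Cm
      jc := jc }
  refine ⟨M, rfl, rfl, rfl, ?_⟩
  have hLn : L ≤ n := (Nat.lt_two_pow_self).le.trans m6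
  constructor
  case cX => exact hX
  case cY => exact hY
  case cO => exact G.card_Ob (by omega)
  case cS => rw [G.card_St]; positivity
  case dX =>
    intro x
    refine (hdX x).trans (le_of_eq ?_)
    show _ = 1 / (10 ^ 12 * D * ((6 * 10 ^ 9 + 2) * D)) * (((2 ^ (n - 1) : ℕ)) : ℝ)
    rw [hNr]
  case dY =>
    intro y
    refine (hdY y).trans (le_of_eq ?_)
    show _ = 1 / (10 ^ 12 * D * ((6 * 10 ^ 9 + 2) * D)) * (((2 ^ (n - 1) : ℕ)) : ℝ)
    rw [hNr]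
  case reg =>
    intro i h
    have := G.reg (n := n) (by omega) i h
    convert this
  case rego =>
    intro h
    have := gh_rego (n := n) (by omega) h
    convert this
  case Dself => exact fun h => hammingDist_self h
  case Dcomm => exact fun h h' => hammingDist_comm h h'
  case Dtri => exact fun h h' h'' => hammingDist_triangle h h' h''
  case sosb => exact fun o i => gh_sosb o i
  case dBself => exact g.dBself
  case dBcomm => exact g.dBcomm
  case dBtri => exact g.dBtri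
  case lip => exact g.lip
  case nbc => exact fun σ => (g.nbc σ).trans (Nat.le_succ _)
  case bxm => exact g.bxm
  case bxc => exact g.bxc
  case cmac => exact g.cmac
  case mono => exact g.mono
  case ball =>
    intro h k
    refine (hH1 _ k h).trans ?_
    exact Nat.pow_le_pow_left (by omega) _
  case gfr => exact g.gfr
  case gtop => exact g.gtop
  case infc =>
    intro j
    refine gh_infc (M.Infc j) _ _ (fun h => ?_) _ _ _ (g.infc j)
    unfold Mac.Infc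
    rw [mem_filter]
    exact ⟨fun hh => hh.2, fun hh => ⟨mem_univ _, hh⟩⟩
  case jne => exact g.jne
  case jcm => exact fun t o hg => g.jcm t o hg
  case hn => omega
  case hT => norm_num
  case hTn => omega
  case hLn => exact hLn
  case hΔ => exact hD1
  case c0 =>
    show (0 : ℝ) ≤ 1 / (10 ^ 12 * D * ((6 * 10 ^ 9 + 2) * D))
    positivity
  case hdl => exact gh_hdl D hD1
  case hdl1 =>
    show (1 : ℝ) / (10 ^ 12 * D) ≤ 1 / 1000
    exact one_div_le_one_div_of_le (by norm_num) (by linarith)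
  case ha => exact Real.one_lt_exp_iff.2 (by norm_num)
  case ha22 => exact gh_a22 D hD1
  case haT => exact gh_haT
  case han => exact gh_han n
  case ha0 =>
    show Real.exp (1 / 10 ^ 8) ^ (8 * (2 ^ 0 * mu0)) ≤ n
    rw [pow_zero, one_mul]
    exact gh_a0 n mu0 (by omega) m3
  case hb => rfl
  case hbet => show (0 : ℝ) < (n : ℝ) / 8000; positivity
  case hdb => exact gh_db n D hD1
  case hcb => exact gh_hcb n D hD1
  case mu1 =>
    intro l
    show 2 ^ (l + 1) * mu0 = 2 * (2 ^ l * mu0)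
    rw [pow_succ]
    ring
  case mu0 =>
    show 10 ^ 10 ≤ 2 ^ 0 * mu0
    rw [pow_zero, one_mul]
    exact m1
  case muL => exact m4
  case muL' => exact m5
  case mun => exact fun l => gh_mun n mu0 l (by omega) m2

end Pool.Agent.FQ
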