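import Pool.Agent.FQ.KDefs

/-!
# Project FQ (MP_a55b9e_co), row GI: the bipartite theorem (helper12)
-/

set_option autoImplicit false

namespace Pool.Agent.FQ

open Finset

theorem gi (hM : MacroStatement) (hS : SeedsStatement) (hP : PlaceStatement)
    (hGH : GHStatement) (h1 : N1Statement) : GIStatement := by
  obtain ⟨T, c, n₁, hc, hgh⟩ := hGH
  obtain ⟨n₂, hnum⟩ := h1
  refine ⟨c, max n₁ n₂, hc, fun n hn X Y _ _ ok hX hY hx hy => ?_⟩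
  have hn1 : n₁ ≤ n := le_of_max_le_left hn
  have hn2 : n₂ ≤ n := le_of_max_le_right hn
  have hN := hnum n hn2
  have hn3 : 1000 ≤ n := hN.hn
  have : DecidableEq X := Classical.decEq X
  have : DecidableEq Y := Classical.decEq Y
  obtain ⟨Bx, Jc, iB1, iJ1, iB2, iJ2, hgh2⟩ := hgh n hn1
  obtain ⟨M, hMok, hMN, hMsb, hMh⟩ := hgh2 X Y ok hX hY hx hy
  obtain ⟨S, hSok, hSsb, hSh⟩ := hM X Y (G.Ob n) (G.St n) Bx Jc n (2 ^ (n - 1)) (2 ^ (n / 16)) T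
    (Real.exp ((n : ℝ) / 8000)) M hN hMN hMh
  obtain ⟨P, hPok, hPD, hPpos, hPh⟩ := hS X Y (G.Ob n) (G.St n) (Jc × Bx) (G.Dl n) (G.R n) n
    (2 ^ (n - 1)) (2 ^ (n / 16)) M.L M.μ (M.a ^ 4) (Real.exp ((n : ℝ) / 8000)) S G.D G.pos
    (fun d => G.site d.1) hN hSh G.card_R (G.card_Dl (by omega)) G.D_inj G.cnt_le
    (fun o i => by rw [hSsb, hMsb]; exact G.site_D o i) (fun h => G.reg_Dl (by omega) h)
  obtain ⟨F, H, hFH⟩ := hP X Y (G.Ob n) (G.Dl n) (G.R n) n (2 ^ (n - 1)) (2 ^ (n / 16))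
    (Real.exp ((n : ℝ) / 8000)) P hN hPh
  refine ⟨G.evEquiv.trans F, H, fun o i => ?_⟩
  have h2 := hFH o i
  rw [hPok, hSok, hMok, hPD, hPpos] at h2
  exact h2

end Pool.Agent.FQ
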