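import Pool.Agent.FQ.KDefs
import Pool.Agent.H16.Cube.Main

/-!
# Project FQ: the final theorem from the bipartite theorem (row GJ)

See note 5216 on MP_a55b9e_co.
-/

set_option autoImplicit false

namespace Pool.Agent.FQ

open Finset

/-- The first half of the vertices. -/
def gjX {n N : ℕ} (h : N + N = 2 ^ n) (i : Fin N) : Fin (2 ^ n) := ⟨i.1, by omega⟩

/-- The second half of the vertices. -/
def gjY {n N : ℕ} (h : N + N = 2 ^ n) (i : Fin N) : Fin (2 ^ n) := ⟨N + i.1, by omega⟩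

theorem gjX_inj {n N : ℕ} (h : N + N = 2 ^ n) : Function.Injective (gjX (n := n) h) := by
  intro i j hij
  have h1 : (gjX h i).1 = (gjX h j).1 := congrArg Fin.val hij
  exact Fin.ext h1

theorem gjY_inj {n N : ℕ} (h : N + N = 2 ^ n) : Function.Injective (gjY (n := n) h) := by
  intro i j hij
  have h1 : N + i.1 = N + j.1 := congrArg Fin.val hij
  exact Fin.ext (by omega)

theorem gjX_ne_gjY {n N : ℕ} (h : N + N = 2 ^ n) (i j : Fin N) : gjX h i ≠ gjY h j := by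
  intro hij
  have h1 : i.1 = N + j.1 := congrArg Fin.val hij
  have h2 := i.2
  omega

/-- The non-neighbours of a vertex. -/
theorem gj_deg {n N : ℕ} (Γ : SimpleGraph (Fin (2 ^ n))) [DecidableRel Γ.Adj]
    (v : Fin (2 ^ n)) (f : Fin N → Fin (2 ^ n)) (hf : Function.Injective f)
    (s : Finset (Fin N)) (hs : ∀ y ∈ s, ¬ Γ.Adj v (f y)) : s.card + Γ.degree v ≤ 2 ^ n := by
  classical
  have h1 : Disjoint (s.map ⟨f, hf⟩) (Γ.neighborFinset v) := by
    rw [Finset.disjoint_left]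
    intro w hw hw'
    rw [Finset.mem_map] at hw
    obtain ⟨y, hy, rfl⟩ := hw
    exact hs y hy ((Γ.mem_neighborFinset v _).1 hw')
  have h3 := Finset.card_le_univ (s.map ⟨f, hf⟩ ∪ Γ.neighborFinset v)
  rw [Finset.card_union_of_disjoint h1, Finset.card_map, Γ.card_neighborFinset_eq_degree,
    Fintype.card_fin] at h3
  exact h3

theorem gj_par {n : ℕ} (x : Fin n → ZMod 2) (h : Pool.Agent.H16.Cube.par x ≠ 0) :
    Pool.Agent.H16.Cube.par x = 1 := by
  generalize Pool.Agent.H16.Cube.par x = a at h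
  revert h
  revert a
  decide

/-- The large dimensions. -/
theorem gj_large (c : ℝ) (n : ℕ) (hn : 1 ≤ n) (Γ : SimpleGraph (Fin (2 ^ n)))
    [DecidableRel Γ.Adj]
    (h : ∀ (X Y : Type) [Fintype X] [Fintype Y]
      (ok : X → Y → Prop), Fintype.card X = 2 ^ (n - 1) → Fintype.card Y = 2 ^ (n - 1) →
      (∀ x, ∀ s : Finset Y, (∀ y ∈ s, ¬ ok x y) → (s.card : ℝ) ≤ c * 2 ^ (n - 1)) →
      (∀ y, ∀ s : Finset X, (∀ x ∈ s, ¬ ok x y) → (s.card : ℝ) ≤ c * 2 ^ (n - 1)) →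
      ∃ (F : G.Ev n ≃ X) (H : G.Ob n ≃ Y), ∀ (o : G.Ob n) (i : Fin n), ok (F (G.nb o i)) (H o))
    (hd : ∀ v : Fin (2 ^ n), ((Γ.degree v : ℕ) : ℝ) > (1 - c / 2) * (2 : ℝ) ^ n) :
    ∃ F : (Fin n → ZMod 2) → Fin (2 ^ n), Function.Injective F ∧
      ∀ x i, Γ.Adj (F x) (F (x + Pi.single i 1)) := by
  classical
  obtain ⟨N, hN⟩ : ∃ N : ℕ, N = 2 ^ (n - 1) := ⟨_, rfl⟩
  have hNN : N + N = 2 ^ n := by
    obtain ⟨m, rfl⟩ : ∃ m, n = m + 1 := ⟨n - 1, by omega⟩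
    rw [hN, pow_succ, Nat.add_sub_cancel]
    ring
  have hNR : (2 : ℝ) ^ n = 2 * 2 ^ (n - 1) := by
    obtain ⟨m, rfl⟩ : ∃ m, n = m + 1 := ⟨n - 1, by omega⟩
    rw [pow_succ, Nat.add_sub_cancel]
    ring
  have key : ∀ (v : Fin (2 ^ n)) (k : ℕ), k + Γ.degree v ≤ 2 ^ n →
      (k : ℝ) ≤ c * 2 ^ (n - 1) := by
    intro v k hk
    have h1 : (k : ℝ) + (Γ.degree v : ℝ) ≤ 2 ^ n := by exact_mod_cast hk
    have h2 := hd v
    rw [hNR] at h1 h2
    have h3 : (1 - c / 2) * (2 * (2 : ℝ) ^ (n - 1)) = 2 * 2 ^ (n - 1) - c * 2 ^ (n - 1) := by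
      ring
    rw [h3] at h2
    linarith
  obtain ⟨F, H, hFH⟩ := h (Fin N) (Fin N) (fun x y => Γ.Adj (gjX hNN x) (gjY hNN y))
    (by rw [Fintype.card_fin, hN]) (by rw [Fintype.card_fin, hN])
    (fun x s hs => key (gjX hNN x) s.card
      (gj_deg Γ (gjX hNN x) (gjY hNN) (gjY_inj hNN) s hs))
    (fun y s hs => key (gjY hNN y) s.card
      (gj_deg Γ (gjY hNN y) (gjX hNN) (gjX_inj hNN) s fun x hx h => hs x hx h.symm))
  let Φ : (Fin n → ZMod 2) → Fin (2 ^ n) := fun x =>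
    if hx : Pool.Agent.H16.Cube.par x = 0 then gjX hNN (F ⟨x, hx⟩)
      else gjY hNN (H ⟨x, gj_par x hx⟩)
  have hΦ0 : ∀ (x : Fin n → ZMod 2) (hx : Pool.Agent.H16.Cube.par x = 0),
      Φ x = gjX hNN (F ⟨x, hx⟩) := fun x hx => dif_pos hx
  have hΦ1 : ∀ (x : Fin n → ZMod 2) (hx : Pool.Agent.H16.Cube.par x = 1),
      Φ x = gjY hNN (H ⟨x, hx⟩) := fun x hx => dif_neg (by rw [hx]; decide)
  have hodd : ∀ (o : G.Ob n) (i : Fin n), Γ.Adj (Φ (o.1 + Pi.single i 1)) (Φ o.1) := by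
    intro o i
    have h1 := hFH o i
    rw [hΦ1 o.1 o.2, hΦ0 _ (G.par_flip _ _ o.2)]
    exact h1
  refine ⟨Φ, ?_, ?_⟩
  · intro x y hxy
    by_cases hx : Pool.Agent.H16.Cube.par x = 0
    · by_cases hy : Pool.Agent.H16.Cube.par y = 0
      · rw [hΦ0 x hx, hΦ0 y hy] at hxy
        have h1 := F.injective (gjX_inj hNN hxy)
        exact congrArg Subtype.val h1
      · rw [hΦ0 x hx, hΦ1 y (gj_par y hy)] at hxy
        exact absurd hxy (gjX_ne_gjY hNN _ _)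
    · by_cases hy : Pool.Agent.H16.Cube.par y = 0
      · rw [hΦ1 x (gj_par x hx), hΦ0 y hy] at hxy
        exact absurd hxy.symm (gjX_ne_gjY hNN _ _)
      · rw [hΦ1 x (gj_par x hx), hΦ1 y (gj_par y hy)] at hxy
        have h1 := H.injective (gjY_inj hNN hxy)
        exact congrArg Subtype.val h1
  · intro x i
    by_cases hx : Pool.Agent.H16.Cube.par x = 0
    · have h1 := hodd ⟨x + Pi.single i 1, G.par_flip' x i hx⟩ i
      have h2 : x + Pi.single i 1 + Pi.single i 1 = x := G.flip_flip x i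
      simp only [h2] at h1
      exact h1
    · exact (hodd ⟨x, gj_par x hx⟩ i).symm

theorem gj (hI : GIStatement) : TargetStatement := by
  classical
  obtain ⟨c, n₀, hc, h⟩ := hI
  have hc' : 0 < min (c / 2) (1 / 2 ^ (n₀ + 1)) := lt_min (by linarith) (by positivity)
  refine ⟨min (c / 2) (1 / 2 ^ (n₀ + 1)), hc', ?_⟩
  intro n Γ _ hd
  by_cases hn : n ≤ n₀
  · exfalso
    have hpos : 0 < 2 ^ n := by positivity
    have h1 := hd ⟨0, hpos⟩
    have h2 : Γ.degree ⟨0, hpos⟩ < 2 ^ n := by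
      have h3 := Γ.degree_lt_card_verts ⟨0, hpos⟩
      rwa [Fintype.card_fin] at h3
    have h3 : (Γ.degree ⟨0, hpos⟩ : ℝ) + 1 ≤ 2 ^ n := by exact_mod_cast h2
    have h4 : min (c / 2) (1 / 2 ^ (n₀ + 1)) * (2 : ℝ) ^ n ≤ 1 / 2 := by
      calc min (c / 2) (1 / 2 ^ (n₀ + 1)) * (2 : ℝ) ^ n ≤ 1 / 2 ^ (n₀ + 1) * (2 : ℝ) ^ n₀ := by
            apply mul_le_mul (min_le_right _ _) _ (by positivity) (by positivity)
            exact pow_le_pow_right₀ (by norm_num) hn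
        _ = 1 / 2 := by
            rw [pow_succ]
            field_simp
    nlinarith
  · push Not at hn
    refine Pool.Agent.H16.Cube.toBool Γ (gj_large c n (by omega) Γ ?_ ?_)
    · intro X Y _ _ ok hX hY h1 h2
      exact h n hn.le X Y ok hX hY (fun x => h1 x _ fun y hy => (mem_filter.1 hy).2)
        (fun y => h2 y _ fun x hx => (mem_filter.1 hx).2)
    · intro v
      refine lt_of_le_of_lt ?_ (hd v)
      apply mul_le_mul_of_nonneg_right _ (by positivity)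
      have h1 := min_le_left (c / 2) (1 / 2 ^ (n₀ + 1) : ℝ)
      linarith

end Pool.Agent.FQ
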