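import Pool.Agent.FQ.GDefs

/-!
# Project FQ, geometry of part I, rows N1 and N2: numbers
-/

set_option autoImplicit false

namespace Pool.Agent.FQ

open Finset Filter

/-- powers against the exponential function -/
theorem gn_pow_exp (k : ℕ) {c : ℝ} (hc : 0 < c) :
    ∀ᶠ n : ℕ in atTop, (n : ℝ) ^ k ≤ Real.exp (c * n) := by
  have h1 := (isLittleO_pow_exp_pos_mul_atTop (k := k) hc).bound one_pos
  have h2 := (tendsto_natCast_atTop_atTop (R := ℝ)).eventually h1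
  filter_upwards [h2] with n hn
  rw [Real.norm_of_nonneg (by positivity), Real.norm_of_nonneg (Real.exp_pos _).le,
    one_mul] at hn
  exact hn

/-- powers of two -/
theorem gn_two (k : ℕ) : ((2 ^ k : ℕ) : ℝ) = Real.exp (k * Real.log 2) := by
  rw [Real.exp_nat_mul, Real.exp_log two_pos]
  push_cast
  rfl

theorem gn_exp (k n : ℕ) : Real.exp ((n : ℝ) / 8000) ^ k = Real.exp (k * ((n : ℝ) / 8000)) := by
  rw [Real.exp_nat_mul]

theorem n1 : N1Statement := by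
  obtain ⟨n0, hn0⟩ := eventually_atTop.1 (gn_pow_exp 400 (c := 1 / 8000) (by norm_num))
  refine ⟨max n0 1000, fun n hn => ?_⟩
  have h1 : n0 ≤ n := le_trans (le_max_left _ _) hn
  have h2 : 1000 ≤ n := le_trans (le_max_right _ _) hn
  have h3 := hn0 n h1
  have hl1 : (0.6931 : ℝ) < Real.log 2 := by
    have := Real.log_two_gt_d9
    linarith
  have hl2 : Real.log 2 < 0.6932 := by
    have := Real.log_two_lt_d9
    linarith
  have hn1 : (1000 : ℝ) ≤ n := by exact_mod_cast h2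
  have hc : ((n - 1 : ℕ) : ℝ) = (n : ℝ) - 1 := by
    rw [Nat.cast_sub (by omega), Nat.cast_one]
  have hd1 : ((n / 16 : ℕ) : ℝ) * 16 ≤ n := by
    have : n / 16 * 16 ≤ n := Nat.div_mul_le_self n 16
    exact_mod_cast this
  have hd2 : (n : ℝ) ≤ ((n / 16 : ℕ) : ℝ) * 16 + 15 := by
    have : n ≤ n / 16 * 16 + 15 := by omega
    exact_mod_cast this
  have hd0 : (0 : ℝ) ≤ ((n / 16 : ℕ) : ℝ) := Nat.cast_nonneg _
  refine ⟨h2, ?_, ?_, ?_, ?_, ?_, ?_, ?_, ?_⟩
  · refine h3.trans (le_of_eq ?_)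
    congr 1
    ring
  · rw [gn_exp, gn_two, Real.exp_le_exp, hc]
    push_cast
    nlinarith
  · rw [gn_exp, gn_two, Real.exp_le_exp, hc]
    push_cast
    nlinarith
  · rw [gn_two, Real.exp_le_exp, hc]
    nlinarith
  · rw [gn_exp, Real.exp_le_exp]
    push_cast
    nlinarith
  · rw [gn_exp, gn_two, Real.exp_le_exp]
    push_cast
    nlinarith
  · rw [gn_exp, gn_two, Real.exp_le_exp]
    push_cast
    nlinarith
  · exact Nat.pow_le_pow_right (by norm_num) (by omega)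

theorem n2 : N2Statement := by
  intro C hC
  have h1 := gn_pow_exp C (c := 1) one_pos
  have h2 : ∀ᶠ n : ℕ in atTop, (10 ^ 10 : ℝ) ≤ Real.log n :=
    (Real.tendsto_log_atTop.comp (tendsto_natCast_atTop_atTop (R := ℝ))).eventually_ge_atTop _
  obtain ⟨n0, hn0⟩ := eventually_atTop.1 (h1.and h2)
  refine ⟨max n0 3, fun n hn => ?_⟩
  have h3 : n0 ≤ n := le_trans (le_max_left _ _) hn
  have h4 : 3 ≤ n := le_trans (le_max_right _ _) hn
  obtain ⟨h5, h6⟩ := hn0 n h3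
  have hn1 : (3 : ℝ) ≤ n := by exact_mod_cast h4
  have hnp : (0 : ℝ) < n := by linarith
  have hC1 : (2 : ℝ) ≤ C := by exact_mod_cast hC
  have h7 : (n : ℝ) ^ C = Real.exp (C * Real.log n) := by
    rw [Real.exp_nat_mul, Real.exp_log hnp]
  have hlog : (0 : ℝ) ≤ Real.log n := le_trans (by norm_num) h6
  have h8 : (C : ℝ) * Real.log n ≤ n := by
    rw [h7, one_mul, Real.exp_le_exp] at h5
    exact h5
  obtain ⟨mu0, hmu⟩ : ∃ mu0 : ℕ, mu0 = ⌈(C : ℝ) * Real.log n⌉₊ := ⟨_, rfl⟩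
  have h9 : (C : ℝ) * Real.log n ≤ mu0 := by
    rw [hmu]
    exact Nat.le_ceil _
  have h10 : (mu0 : ℝ) < C * Real.log n + 1 := by
    rw [hmu]
    exact Nat.ceil_lt_add_one (by positivity)
  have h11 : (10 ^ 10 : ℕ) ≤ mu0 := by
    have : (10 ^ 10 : ℝ) ≤ mu0 := by nlinarith
    exact_mod_cast this
  have h12 : mu0 < 8 * n := by
    have : (mu0 : ℝ) < 8 * n := by linarith
    exact_mod_cast this
  have hex : ∃ L : ℕ, 8 * n ≤ 2 ^ L * mu0 := by
    refine ⟨8 * n, ?_⟩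
    have h13 : 8 * n < 2 ^ (8 * n) := Nat.lt_two_pow_self
    calc 8 * n ≤ 2 ^ (8 * n) * 1 := by omega
      _ ≤ 2 ^ (8 * n) * mu0 := Nat.mul_le_mul_left _ (by omega)
  obtain ⟨L, hL1, hL2⟩ : ∃ L : ℕ, 8 * n ≤ 2 ^ L * mu0 ∧ ∀ l < L, ¬ (8 * n ≤ 2 ^ l * mu0) := by
    classical
    exact ⟨Nat.find hex, Nat.find_spec hex, fun l hl => Nat.find_min hex hl⟩
  have hL0 : L ≠ 0 := by
    rintro rfl
    rw [pow_zero, one_mul] at hL1
    omega
  obtain ⟨l, rfl⟩ := Nat.exists_eq_succ_of_ne_zero hL0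
  have h14 := hL2 l (Nat.lt_succ_self l)
  have h15 : 2 ^ l.succ * mu0 = 2 * (2 ^ l * mu0) := by
    rw [pow_succ]
    ring
  have h16 : 2 ^ l.succ * mu0 ≤ 16 * n := by
    rw [h15]
    omega
  refine ⟨mu0, l.succ, h11, ?_, ?_, hL1, h16, ?_⟩
  · rw [h7, Real.exp_le_exp]
    exact h9
  · have h17 : Real.exp mu0 ≤ Real.exp (C * Real.log n + 1) := Real.exp_le_exp.2 h10.le
    rw [Real.exp_add, ← h7] at h17
    have h18 : Real.exp 1 ≤ n := by
      have := Real.exp_one_lt_d9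
      linarith
    calc Real.exp mu0 ≤ (n : ℝ) ^ C * Real.exp 1 := h17
      _ ≤ (n : ℝ) ^ C * n := mul_le_mul_of_nonneg_left h18 (by positivity)
      _ = (n : ℝ) ^ (C + 1) := by rw [pow_succ]
  · have h19 : 2 ^ l.succ * 16 ≤ 2 ^ l.succ * mu0 := Nat.mul_le_mul_left _ (by omega)
    omega

end Pool.Agent.FQ
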