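import Pool.Agent.FQ.GDefs

/-!
# Project FQ: boxes and centres of the cube, assembly of the rows (helper80)
-/

set_option autoImplicit false

namespace Pool.Agent.FQ

open Finset Classical

theorem dB_self {K w : ℕ} (σ : Fin K → Fin (w + 1)) : dB σ σ = 0 := by
  unfold dB
  refine sum_eq_zero fun g _ => ?_
  simp

theorem dB_comm {K w : ℕ} (σ σ' : Fin K → Fin (w + 1)) : dB σ σ' = dB σ' σ := by
  unfold dB
  refine sum_congr rfl fun g _ => ?_
  rw [← Int.natAbs_neg, neg_sub]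

theorem dB_tri {K w : ℕ} (σ σ' σ'' : Fin K → Fin (w + 1)) : dB σ σ'' ≤ dB σ σ' + dB σ' σ'' := by
  unfold dB
  rw [← sum_add_distrib]
  refine sum_le_sum fun g _ => ?_
  have h := Int.natAbs_add_le (((σ g : ℕ) : ℤ) - ((σ' g : ℕ) : ℤ)) (((σ' g : ℕ) : ℤ) - ((σ'' g : ℕ) : ℤ))
  have e : ((σ g : ℕ) : ℤ) - ((σ' g : ℕ) : ℤ) + (((σ' g : ℕ) : ℤ) - ((σ'' g : ℕ) : ℤ)) =
      ((σ g : ℕ) : ℤ) - ((σ'' g : ℕ) : ℤ) := by ring
  rwa [e] at h

/-- A union of fibres. -/
theorem card_fib {A B : Type} [Fintype A] [Fintype B] [DecidableEq B] (f : A → B) (p : B → Prop)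
    (m : ℕ) (hf : ∀ b, (univ.filter (fun a => f a = b)).card = m) :
    (univ.filter (fun a => p (f a))).card = m * (univ.filter (fun b => p b)).card := by
  classical
  rw [card_eq_sum_card_fiberwise (f := f) (t := univ.filter (fun b => p b))
    (fun a ha => by
      rw [mem_coe, mem_filter] at ha ⊢
      exact ⟨mem_univ _, ha.2⟩)]
  rw [sum_congr rfl (g := fun _ => m), sum_const, smul_eq_mul, mul_comm]
  intro b hb
  rw [← hf b, filter_filter]
  congr 1
  ext a
  simp only [mem_filter, mem_univ, true_and]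
  constructor
  · exact fun h => h.2
  · intro h
    exact ⟨by rw [h]; exact (mem_filter.mp hb).2, h⟩

/-- A union of fibres, upper bound. -/
theorem card_fib_le {A B : Type} [Fintype A] [Fintype B] [DecidableEq B] (f : A → B)
    (p : B → Prop) (m : ℕ) (hf : ∀ b, (univ.filter (fun a => f a = b)).card ≤ m) :
    (univ.filter (fun a => p (f a))).card ≤ m * (univ.filter (fun b => p b)).card := by
  classical
  rw [card_eq_sum_card_fiberwise (f := f) (t := univ.filter (fun b => p b))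
    (fun a ha => by
      rw [mem_coe, mem_filter] at ha ⊢
      exact ⟨mem_univ _, ha.2⟩)]
  calc _ ≤ ∑ _b ∈ univ.filter (fun b => p b), m := by
        refine sum_le_sum fun b hb => ?_
        refine le_trans (card_le_card ?_) (hf b)
        intro a ha
        rw [mem_filter] at ha ⊢
        exact ⟨mem_univ _, ha.2⟩
    _ = m * (univ.filter (fun b => p b)).card := by rw [sum_const, smul_eq_mul, mul_comm]

theorem Mc_mono (mu0 m l l' : ℕ) (h : l ≤ l') : Mc mu0 m l ≤ Mc mu0 m l' := by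
  unfold Mc
  apply Nat.ceil_mono
  have h1 : ((2 ^ l * mu0 : ℕ) : ℝ) ≤ ((2 ^ l' * mu0 : ℕ) : ℝ) := by
    exact_mod_cast Nat.mul_le_mul_right _ (Nat.pow_le_pow_right (by norm_num) h)
  gcongr

theorem Mc_two (mu0 m l : ℕ) (h : 10 ^ 10 ≤ mu0) : 2 ≤ Mc mu0 m l := by
  unfold Mc
  have h0 : (0 : ℝ) < gV m (m / 4) := by exact_mod_cast gV_pos m (m / 4)
  have h1 : ((gV m (m / 4) : ℕ) : ℝ) ≤ 2 ^ m := by exact_mod_cast gV_le_two_pow m (m / 4)
  have h2 : (2 : ℝ) ≤ 4 * ((2 ^ l * mu0 : ℕ) : ℝ) * 2 ^ m / gV m (m / 4) := by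
    rw [le_div_iff₀ h0]
    have h3 : (1 : ℝ) ≤ ((2 ^ l * mu0 : ℕ) : ℝ) := by
      have : 1 ≤ 2 ^ l * mu0 := Nat.one_le_iff_ne_zero.mpr (by positivity)
      exact_mod_cast this
    nlinarith [pow_pos (by norm_num : (0 : ℝ) < 2) m]
  have h3 := Nat.le_ceil (4 * ((2 ^ l * mu0 : ℕ) : ℝ) * 2 ^ m / gV m (m / 4))
  have h4 : (2 : ℝ) ≤ (⌈4 * ((2 ^ l * mu0 : ℕ) : ℝ) * 2 ^ m / gV m (m / 4)⌉₊ : ℝ) := h2.trans h3
  exact_mod_cast h4

theorem sum_ind {A : Type} [Fintype A] (p : A → Prop) [DecidablePred p] :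
    ∑ a, ind (p a) = ((univ.filter (fun a => p a)).card : ℝ) := by
  rw [card_filter]
  push_cast
  refine sum_congr rfl fun a _ => ?_
  unfold ind
  by_cases h : p a
  · simp [h]
  · simp [h]

theorem le_of_sq_le_sq' {a b : ℝ} (h : a ^ 2 ≤ b ^ 2) (hb : 0 ≤ b) : a ≤ b :=
  (abs_le_of_sq_le_sq' h hb).2

theorem mem_filt {A : Type} [Fintype A] {p : A → Prop} {inst : DecidablePred p} {a : A}
    (h : a ∈ @Finset.filter A p inst univ) : p a := (Finset.mem_filter.mp h).2

theorem key_ineq {A B C E F : ℝ} (hA : 0 ≤ A) (hE : 0 ≤ E) (hB : 0 ≤ B) (hBC : B ≤ C)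
    (h : A * C ^ 2 * E ≤ F) : A * B ^ 2 * E ≤ F := by
  refine le_trans ?_ h
  exact mul_le_mul_of_nonneg_right (mul_le_mul_of_nonneg_left (pow_le_pow_left₀ hB hBC 2) hA) hE

theorem gpart (v4 : V4Statement) (b1 : B1Statement) (b2 : B2Statement) (b3 : B3Statement)
    (h2 : H2Statement) (n3 : N3Statement) (n4 : N4Statement) : GPartStatement := by
  obtain ⟨K, n4', hK, hN4⟩ := n4
  obtain ⟨n3', hN3⟩ := n3 K hK
  refine ⟨2 * K + 1, max (max n3' n4') 64, ?_⟩
  intro n hn mu0 L hmu hmuL hmuL' hL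
  have hn3 : n3' ≤ n := le_trans (le_trans (le_max_left _ _) (le_max_left _ _)) hn
  have hn4 : n4' ≤ n := le_trans (le_trans (le_max_right _ _) (le_max_left _ _)) hn
  have hn64 : 64 ≤ n := le_trans (le_max_right _ _) hn
  obtain ⟨hb1, hb2⟩ := hN4 n hn4 L hL
  have hN := hN3 n hn3 mu0 L (by omega) hmuL' hL
  -- dimensions
  set m : ℕ := n / 4 with hm
  set w : ℕ := n / (4 * K) with hw
  set k : ℕ := n - 4 * G.el n with hk
  have hel : G.el n = n / 16 := rfl
  have hk' : n - 4 * (n / 16) = k := rfl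
  rw [hk'] at hN
  have hKw : K * w ≤ n / 4 := by
    have h1 : n / (4 * K) * (4 * K) ≤ n := Nat.div_mul_le_self _ _
    rw [Nat.le_div_iff_mul_le (by norm_num)]
    calc K * w * 4 = n / (4 * K) * (4 * K) := by rw [hw]; ring
      _ ≤ n := h1
  have hk1 : K * w + m ≤ k := by omega
  have hk0 : K * w ≤ k := by omega
  have hm4 : 4 ≤ m := by omega
  -- centres
  obtain ⟨c, hc⟩ := v4 m mu0 L hm4 hmu
  obtain ⟨hz1, hz2⟩ := h2 k (K * w) m hk1
  have hcardSt : Fintype.card (G.St n) = 2 ^ k := G.card_St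
  have hzm : m ≤ k := by omega
  let box : G.St n → (Fin K → Fin (w + 1)) := boxC K w hk0
  let z : G.St n → (Fin m → ZMod 2) := zC (K * w) m hk1
  let Ac : ℕ → G.St n → Finset (Fin (Mc mu0 m L)) := fun l h =>
    univ.filter (fun j => j.1 < Mc mu0 m l ∧ hammingDist (c j) (z h) ≤ m / 4 + 1)
  let Cm : ℕ → G.St n → Finset (Fin (Mc mu0 m L)) := fun l h =>
    univ.filter (fun j => j.1 < Mc mu0 m l ∧ hammingDist (c j) (z h) ≤ m / 4)
  have hfib : ∀ p : (Fin m → ZMod 2) → Prop, (univ.filter (fun h : G.St n => p (z h))).card =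
      2 ^ (k - m) * (univ.filter (fun y => p y)).card := fun p => card_fib z p _ hz1
  have hMc2 : 2 ≤ Mc mu0 m L := Mc_two mu0 m L hmu
  -- two centres
  let j0 : Fin (Mc mu0 m L) := ⟨0, by omega⟩
  let j1 : Fin (Mc mu0 m L) := ⟨1, by omega⟩
  have hj01 : j0 ≠ j1 := by
    intro h
    have := congrArg Fin.val h
    simp [j0, j1] at this
  have hch : ∀ s : Finset (Fin (Mc mu0 m L)), ∃ q : Bool → Fin (Mc mu0 m L), q true ≠ q false ∧
      (2 ≤ s.card → ∀ t, q t ∈ s) := by
    intro s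
    by_cases hs : 2 ≤ s.card
    · obtain ⟨a, ha, b, hb, hab⟩ := one_lt_card.mp (show 1 < s.card by omega)
      refine ⟨fun t => if t then a else b, by simpa using hab, fun _ t => ?_⟩
      cases t
      · simpa using hb
      · simpa using ha
    · exact ⟨fun t => if t then j0 else j1, by simpa using hj01, fun h => absurd h hs⟩
  choose q hq1 hq2 using hch
  let jc : Bool → G.Ob n → Fin (Mc mu0 m L) := fun t o => q (Cm 0 (G.site o.1)) t
  have hgfr : ∀ l ≤ L, ∑ h : G.St n, ind (¬ (2 ^ l * mu0 ≤ (Cm l h).card ∧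
      (Ac l h).card ≤ 22 * (2 ^ l * mu0))) ≤
      Fintype.card (G.St n) * Real.exp (-((((2 ^ l * mu0 : ℕ) : ℝ)) / 8)) := by
    intro l hl
    have h1 := hc l hl
    have h3 : ∑ h : G.St n, ind (¬ (2 ^ l * mu0 ≤ (Cm l h).card ∧
        (Ac l h).card ≤ 22 * (2 ^ l * mu0))) =
        ((univ.filter (fun h : G.St n => ¬ (2 ^ l * mu0 ≤ (Cm l h).card ∧
          (Ac l h).card ≤ 22 * (2 ^ l * mu0)))).card : ℝ) := sum_ind _
    rw [h3]
    have h4 := hfib (fun y => ¬ (2 ^ l * mu0 ≤ (univ.filter (fun j : Fin (Mc mu0 m L) =>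
        j.1 < Mc mu0 m l ∧ hammingDist (c j) y ≤ m / 4)).card ∧
      (univ.filter (fun j : Fin (Mc mu0 m L) => j.1 < Mc mu0 m l ∧
        hammingDist (c j) y ≤ m / 4 + 1)).card ≤ 22 * (2 ^ l * mu0)))
    have h4' : (univ.filter (fun h : G.St n => ¬ (2 ^ l * mu0 ≤ (Cm l h).card ∧
          (Ac l h).card ≤ 22 * (2 ^ l * mu0)))).card =
        2 ^ (k - m) * (univ.filter (fun y : Fin m → ZMod 2 =>
          ¬ (2 ^ l * mu0 ≤ (univ.filter (fun j : Fin (Mc mu0 m L) =>
        j.1 < Mc mu0 m l ∧ hammingDist (c j) y ≤ m / 4)).card ∧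
      (univ.filter (fun j : Fin (Mc mu0 m L) => j.1 < Mc mu0 m l ∧
        hammingDist (c j) y ≤ m / 4 + 1)).card ≤ 22 * (2 ^ l * mu0)))).card := by
      convert h4
    have h5 : ((univ.filter (fun h : G.St n => ¬ (2 ^ l * mu0 ≤ (Cm l h).card ∧
          (Ac l h).card ≤ 22 * (2 ^ l * mu0)))).card : ℝ) =
        2 ^ (k - m) * ((univ.filter (fun y : Fin m → ZMod 2 =>
          ¬ (2 ^ l * mu0 ≤ (univ.filter (fun j : Fin (Mc mu0 m L) =>
        j.1 < Mc mu0 m l ∧ hammingDist (c j) y ≤ m / 4)).card ∧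
      (univ.filter (fun j : Fin (Mc mu0 m L) => j.1 < Mc mu0 m l ∧
        hammingDist (c j) y ≤ m / 4 + 1)).card ≤ 22 * (2 ^ l * mu0)))).card : ℝ) := by
      rw [h4']
      push_cast
      rfl
    rw [h5, hcardSt, Real.exp_neg]
    have hx : 0 < Real.exp (((2 ^ l * mu0 : ℕ) : ℝ) / 8) := Real.exp_pos _
    rw [← div_eq_mul_inv, le_div_iff₀ hx, mul_assoc]
    calc (2 : ℝ) ^ (k - m) * (_ * _) ≤ 2 ^ (k - m) * 2 ^ m :=
          mul_le_mul_of_nonneg_left h1 (by positivity)
      _ = ((2 ^ k : ℕ) : ℝ) := by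
          rw [← pow_add, Nat.sub_add_cancel hzm]
          push_cast
          rfl
  refine ⟨Fin K → Fin (w + 1), Fin (Mc mu0 m L), inferInstance, inferInstance, inferInstance,
    inferInstance, box, dB, Ac, Cm, jc, ?_⟩
  refine ⟨dB_self, dB_comm, dB_tri, b1 k K w hk0, fun σ => (b2 K w σ).1, ?_, ?_, ?_, ?_, hgfr,
    ?_, ?_, fun o => hq1 _, ?_⟩
  · -- bxm
    intro σ
    have hfibB : ∀ τ : Fin K → Fin (w + 1),
        ((univ.filter (fun h : G.St n => box h = τ)).card : ℝ) * (n : ℝ) ^ 41 ≤ 2 ^ k := by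
      intro τ
      have h3 : (((univ.filter (fun h : G.St n => box h = τ)).card : ℝ)) ^ 2 *
          ((w + 1 : ℕ) : ℝ) ^ K ≤ 4 ^ k := by exact_mod_cast b3 k K w hk0 τ
      have h4 : ((((univ.filter (fun h : G.St n => box h = τ)).card : ℝ)) * (n : ℝ) ^ 41) ^ 2 ≤
          ((2 : ℝ) ^ k) ^ 2 := by
        rw [mul_pow]
        calc _ ≤ (((univ.filter (fun h : G.St n => box h = τ)).card : ℝ)) ^ 2 *
              ((w + 1 : ℕ) : ℝ) ^ K := mul_le_mul_of_nonneg_left hb2 (sq_nonneg _)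
          _ ≤ 4 ^ k := h3
          _ = ((2 : ℝ) ^ k) ^ 2 := by rw [← pow_mul, mul_comm k 2, pow_mul]; norm_num
      exact le_of_sq_le_sq' h4 (pow_nonneg (by norm_num) _)
    have hn0 : (0 : ℝ) < n := by exact_mod_cast (by omega : 0 < n)
    have h5 : ((univ.filter (fun h : G.St n => dB (box h) σ ≤ 2 * L + 10)).card : ℝ) ≤
        ∑ τ ∈ univ.filter (fun τ : Fin K → Fin (w + 1) => dB τ σ ≤ 2 * L + 10),
          ((univ.filter (fun h : G.St n => box h = τ)).card : ℝ) := by
      have h6 : (univ.filter (fun h : G.St n => dB (box h) σ ≤ 2 * L + 10)).card =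
          ∑ τ ∈ univ.filter (fun τ : Fin K → Fin (w + 1) => dB τ σ ≤ 2 * L + 10),
          ((univ.filter (fun h : G.St n => dB (box h) σ ≤ 2 * L + 10)).filter
            (fun h => box h = τ)).card :=
        card_eq_sum_card_fiberwise (fun h hh => by
          rw [mem_coe, mem_filter] at hh ⊢
          exact ⟨mem_univ _, hh.2⟩)
      rw [h6]
      push_cast
      refine sum_le_sum fun τ _ => ?_
      have : ((univ.filter (fun h : G.St n => dB (box h) σ ≤ 2 * L + 10)).filter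
            (fun h => box h = τ)).card ≤ (univ.filter (fun h : G.St n => box h = τ)).card := by
        refine card_le_card fun h hh => ?_
        rw [mem_filter] at hh ⊢
        exact ⟨mem_univ _, hh.2⟩
      exact_mod_cast this
    have h7 : ∀ τ : Fin K → Fin (w + 1),
        ((univ.filter (fun h : G.St n => box h = τ)).card : ℝ) ≤ 2 ^ k / (n : ℝ) ^ 41 := by
      intro τ
      rw [le_div_iff₀ (by positivity)]
      exact hfibB τ
    have h8 : ((univ.filter (fun τ : Fin K → Fin (w + 1) => dB τ σ ≤ 2 * L + 10)).card : ℝ) ≤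
        n := by
      have h9 := (b2 K w σ).2 (2 * L + 10)
      have h10 : (univ.filter (fun τ : Fin K → Fin (w + 1) => dB τ σ ≤ 2 * L + 10)).card =
          (univ.filter (fun τ : Fin K → Fin (w + 1) => dB σ τ ≤ 2 * L + 10)).card := by
        congr 1
        ext τ
        simp only [mem_filter, mem_univ, true_and, dB_comm τ σ]
      rw [h10]
      exact_mod_cast h9.trans hb1
    calc _ ≤ (∑ τ ∈ univ.filter (fun τ : Fin K → Fin (w + 1) => dB τ σ ≤ 2 * L + 10),
          (2 ^ k / (n : ℝ) ^ 41)) * (n : ℝ) ^ 40 := by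
          refine mul_le_mul_of_nonneg_right (h5.trans (sum_le_sum fun τ _ => h7 τ))
            (by positivity)
      _ = ((univ.filter (fun τ : Fin K → Fin (w + 1) => dB τ σ ≤ 2 * L + 10)).card : ℝ) *
          (2 ^ k / (n : ℝ) ^ 41) * (n : ℝ) ^ 40 := by rw [sum_const, nsmul_eq_mul]
      _ ≤ n * (2 ^ k / (n : ℝ) ^ 41) * (n : ℝ) ^ 40 := by
          refine mul_le_mul_of_nonneg_right (mul_le_mul_of_nonneg_right h8 (by positivity))
            (by positivity)
      _ = 2 ^ k := by field_simp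
      _ = (Fintype.card (G.St n) : ℝ) := by rw [hcardSt]; push_cast; rfl
  · -- bxc
    intro σ
    exact ((b2 K w σ).2 _).trans hb1
  · -- cmac
    intro l h h' hd j hj
    simp only [Cm, Ac, mem_filter, mem_univ, true_and] at hj ⊢
    refine ⟨hj.1, ?_⟩
    have h1 := hammingDist_triangle (c j) (z h) (z h')
    have h3 := hz2 h h'
    have h4 := hj.2
    have h5 : hammingDist (z h) (z h') ≤ hammingDist h h' := h3
    omega
  · -- mono
    intro l l' h hl j hj
    simp only [Ac, mem_filter, mem_univ, true_and] at hj ⊢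
    exact ⟨lt_of_lt_of_le hj.1 (Mc_mono mu0 m l l' hl), hj.2⟩
  · -- gtop
    intro h
    by_contra hcon
    have h1 := hgfr L le_rfl
    have h3 : ((2 : ℝ) ^ (k - m)) ≤ ∑ h : G.St n, ind (¬ (2 ^ L * mu0 ≤ (Cm L h).card ∧
      (Ac L h).card ≤ 22 * (2 ^ L * mu0))) := by
      calc ((2 : ℝ) ^ (k - m)) = ((univ.filter (fun h' : G.St n => z h' = z h)).card : ℝ) := by
            rw [hz1 (z h)]; push_cast; rfl
        _ = ∑ h' : G.St n, ind (z h' = z h) := (sum_ind _).symm
        _ ≤ _ := by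
            refine sum_le_sum fun h' _ => ?_
            unfold ind
            by_cases hz : z h' = z h
            · have h4 : ¬ (2 ^ L * mu0 ≤ (Cm L h').card ∧
                  (Ac L h').card ≤ 22 * (2 ^ L * mu0)) := by
                simp only [Cm, Ac, hz] at hcon ⊢
                exact hcon
              rw [if_pos hz, if_pos h4]
            · rw [if_neg hz]
              split_ifs <;> norm_num
    have h4 := h3.trans h1
    rw [hcardSt] at h4
    have h5 : Real.exp (-((((2 ^ L * mu0 : ℕ) : ℝ)) / 8)) ≤ Real.exp (-(n : ℝ)) := by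
      apply Real.exp_le_exp.mpr
      have : (8 * n : ℝ) ≤ ((2 ^ L * mu0 : ℕ) : ℝ) := by exact_mod_cast hmuL
      linarith
    have h6 : ((2 ^ k : ℕ) : ℝ) = 2 ^ (k - m) * 2 ^ m := by
      push_cast
      rw [← pow_add, Nat.sub_add_cancel hzm]
    rw [h6] at h4
    have h7 : (2 : ℝ) ^ m * Real.exp (-(n : ℝ)) < 1 := by
      rw [Real.exp_neg, ← div_eq_mul_inv, div_lt_one (Real.exp_pos _)]
      calc (2 : ℝ) ^ m < (Real.exp 1) ^ m := by
            apply pow_lt_pow_left₀ _ (by norm_num) (by omega)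
            have := Real.exp_one_gt_d9
            linarith
        _ = Real.exp m := by rw [← Real.exp_nat_mul, mul_one]
        _ ≤ Real.exp n := by
            apply Real.exp_le_exp.mpr
            exact_mod_cast (by omega : m ≤ n)
    have h8 : (2 : ℝ) ^ (k - m) * 2 ^ m * Real.exp (-((((2 ^ L * mu0 : ℕ) : ℝ)) / 8)) ≤
        (2 : ℝ) ^ (k - m) * (2 ^ m * Real.exp (-(n : ℝ))) := by
      rw [mul_assoc]
      refine mul_le_mul_of_nonneg_left (mul_le_mul_of_nonneg_left h5 (by positivity))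
        (by positivity)
    have h9 : (0 : ℝ) < (2 : ℝ) ^ (k - m) := by positivity
    nlinarith
  · -- infc
    intro j
    have hcard : ∀ T : Finset (G.St n), (∀ h ∈ T, hammingDist (c j) (z h) ≤ m / 4 + (2 * L + 4)) →
        (T.card : ℝ) ≤ 2 ^ (k - m) * (gV m (m / 4 + (2 * L + 4)) : ℝ) := by
      intro T hT
      have e' := gV_ball m (m / 4 + (2 * L + 4)) (c j)
      have e0 : (univ.filter (fun h : G.St n =>
          hammingDist (c j) (z h) ≤ m / 4 + (2 * L + 4))).card =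
          2 ^ (k - m) * gV m (m / 4 + (2 * L + 4)) := by
        rw [← e']
        have e := hfib (fun y => hammingDist (c j) y ≤ m / 4 + (2 * L + 4))
        convert e
      have e1 : T.card ≤ 2 ^ (k - m) * gV m (m / 4 + (2 * L + 4)) := by
        refine le_trans (card_le_card ?_) (le_of_eq e0)
        intro h hh
        exact mem_filter.mpr ⟨mem_univ _, hT h hh⟩
      have e2 : (T.card : ℝ) ≤ ((2 ^ (k - m) * gV m (m / 4 + (2 * L + 4)) : ℕ) : ℝ) :=
        Nat.cast_le.mpr e1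
      rwa [Nat.cast_mul, Nat.cast_pow, Nat.cast_ofNat] at e2
    have h3 : (Fintype.card (Fin (Mc mu0 m L) × (Fin K → Fin (w + 1))) : ℝ) =
        (Mc mu0 m L : ℝ) * ((w + 1 : ℕ) : ℝ) ^ K := by
      rw [Fintype.card_prod, Fintype.card_fin, Fintype.card_fun, Fintype.card_fin,
        Fintype.card_fin, Nat.cast_mul, Nat.cast_pow]
    have h5 : (((2 ^ k : ℕ) : ℝ)) ^ 2 = ((2 : ℝ) ^ k) ^ 2 := by rw [Nat.cast_pow, Nat.cast_ofNat]
    rw [h3, hcardSt, h5]
    refine key_ineq (by positivity) (by positivity) (Nat.cast_nonneg _) (hcard _ ?_) hN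
    intro h hh
    obtain ⟨l, hl, h', hd, hj⟩ := mem_filt hh
    have hj2 : hammingDist (c j) (z h') ≤ m / 4 + 1 := (mem_filter.mp hj).2.2
    have e1 := hammingDist_triangle (c j) (z h') (z h)
    have e2 : hammingDist (z h') (z h) ≤ hammingDist h' h := hz2 h' h
    have e3 : hammingDist h' h = hammingDist h h' := hammingDist_comm _ _
    omega
  · -- jcm
    intro t o hg
    refine hq2 _ ?_ t
    have := hg.1
    omega

end Pool.Agent.FQ
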