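import Pool.Agent.FQ.Defs

/-!
# Project FQ (MP_a55b9e_co), row HL: Hall's condition from a weight function (helper91)
-/

set_option autoImplicit false

namespace Pool.Agent.FQ

open Finset Classical

theorem hl : HLStatement := by
  intro R V _ _ a w τ ε ρ hcard h0 hz hrow hcol hε hε0 hρ hτ
  have hall : ∀ W : Finset V, W.card ≤ (W.biUnion (fun v => univ.filter (fun r => a r v))).card := by
    intro W
    by_contra hcon
    rw [not_le] at hcon
    obtain ⟨NW, hNW⟩ : ∃ NW, NW = W.biUnion (fun v => univ.filter (fun r => a r v)) := ⟨_, rfl⟩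
    rw [← hNW] at hcon
    have hmem : ∀ r, r ∈ NW ↔ ∃ v ∈ W, a r v := by
      intro r
      rw [hNW]
      simp
    obtain ⟨v0, hv0⟩ : W.Nonempty := card_pos.1 (lt_of_le_of_lt (Nat.zero_le _) hcon)
    have hV : (0 : ℝ) < Fintype.card V := by
      exact_mod_cast Fintype.card_pos_iff.2 ⟨v0⟩
    -- cardinalities of the complements
    have hc1 : NWᶜ.card + NW.card = Fintype.card R := card_compl_add_card NW
    have hc2 : Wᶜ.card + W.card = Fintype.card V := card_compl_add_card W
    have hc3 : (Wᶜ.card : ℝ) + 1 ≤ (NWᶜ.card : ℝ) := by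
      have : Wᶜ.card + 1 ≤ NWᶜ.card := by omega
      exact_mod_cast this
    -- rows outside of `NW`
    have hr : ∀ r ∈ NWᶜ, ∑ v ∈ Wᶜ, w r v = 1 := by
      intro r hr
      rw [mem_compl, hmem] at hr
      push Not at hr
      have h1 : ∑ v ∈ W, w r v = 0 := sum_eq_zero (fun v hv => hz r v (hr v hv))
      have h2 := sum_compl_add_sum W (fun v => w r v)
      rw [h1, add_zero, hrow r] at h2
      exact h2
    have hsum1 : ∑ r ∈ NWᶜ, ∑ v ∈ Wᶜ, w r v = (NWᶜ.card : ℝ) := by
      rw [sum_congr rfl hr, sum_const, nsmul_eq_mul, mul_one]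
    -- rows of `NW`
    have hsum2 : (Wᶜ.card : ℝ) * (ε * ρ) ≤ ∑ v ∈ Wᶜ, ∑ r ∈ NW, w r v := by
      rw [← nsmul_eq_mul, ← sum_const]
      refine sum_le_sum (fun v' hv' => ?_)
      have hne : v0 ≠ v' := by
        rintro rfl
        exact (mem_compl.1 hv') hv0
      have hsub : univ.filter (fun r => a r v0 ∧ a r v') ⊆ NW := by
        intro r hr'
        rw [hmem]
        exact ⟨v0, hv0, (mem_filter.1 hr').2.1⟩
      have h1 : ∑ r ∈ univ.filter (fun r => a r v0 ∧ a r v'), w r v' ≤ ∑ r ∈ NW, w r v' :=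
        sum_le_sum_of_subset_of_nonneg hsub (fun r _ _ => h0 r v')
      have h2 : ((univ.filter (fun r => a r v0 ∧ a r v')).card : ℝ) * (ε / Fintype.card V) ≤
          ∑ r ∈ univ.filter (fun r => a r v0 ∧ a r v'), w r v' := by
        rw [← nsmul_eq_mul, ← sum_const]
        refine sum_le_sum (fun r hr' => ?_)
        rw [div_le_iff₀ hV]
        exact hε r v' (mem_filter.1 hr').2.2
      have h3 := hρ v0 v' hne
      have h4 : ρ * (Fintype.card R : ℝ) * (ε / Fintype.card V) ≤
          ((univ.filter (fun r => a r v0 ∧ a r v')).card : ℝ) * (ε / Fintype.card V) :=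
        mul_le_mul_of_nonneg_right h3 (by positivity)
      have h5 : ρ * (Fintype.card R : ℝ) * (ε / Fintype.card V) = ε * ρ := by
        rw [hcard]
        field_simp
      linarith
    -- columns
    have hsum3 : ∑ v ∈ Wᶜ, ∑ r, w r v ≤ (Wᶜ.card : ℝ) * (1 + τ) := by
      rw [← nsmul_eq_mul, ← sum_const]
      exact sum_le_sum (fun v _ => hcol v)
    have hsum4 : ∑ v ∈ Wᶜ, ∑ r, w r v =
        ∑ r ∈ NWᶜ, ∑ v ∈ Wᶜ, w r v + ∑ v ∈ Wᶜ, ∑ r ∈ NW, w r v := by
      rw [sum_comm (s := NWᶜ), ← sum_add_distrib]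
      refine sum_congr rfl (fun v _ => ?_)
      exact (sum_compl_add_sum NW (fun r => w r v)).symm
    have h6 : (Wᶜ.card : ℝ) * τ ≤ (Wᶜ.card : ℝ) * (ε * ρ) :=
      mul_le_mul_of_nonneg_left hτ (by positivity)
    rw [hsum1] at hsum4
    nlinarith
  obtain ⟨f, hf, hfa⟩ :=
    (Finset.all_card_le_biUnion_card_iff_exists_injective
      (fun v => univ.filter (fun r => a r v))).1 hall
  have hbij : Function.Bijective f :=
    (Fintype.bijective_iff_injective_and_card f).2 ⟨hf, hcard.symm⟩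
  refine ⟨(Equiv.ofBijective f hbij).symm, fun r => ?_⟩
  have h1 := hfa ((Equiv.ofBijective f hbij).symm r)
  rw [mem_filter] at h1
  have h2 : f ((Equiv.ofBijective f hbij).symm r) = r :=
    (Equiv.ofBijective f hbij).apply_symm_apply r
  have h3 := h1.2
  rw [h2] at h3
  exact h3

end Pool.Agent.FQ
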