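import Pool.Agent.FQ.MDefs
import Pool.Agent.FQ.GDefs

/-!
# Project FQ: from the cube to the frozen statement

See note 5216 on MP_a55b9e_co.
-/

set_option autoImplicit false

namespace Pool.Agent.FQ

open Finset Classical
open Pool.Agent.H73.Cube (EE Loc)

/-- Row GH: all hypotheses of part I hold for the cube. -/
def GHStatement : Prop :=
  ∃ (T : ℕ) (c : ℝ) (n₀ : ℕ), 0 < c ∧ ∀ n, n₀ ≤ n →
    ∃ (Bx Jc : Type) (_ : Fintype Bx) (_ : Fintype Jc) (_ : DecidableEq Bx)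
      (_ : DecidableEq Jc),
      ∀ (X Y : Type) [Fintype X] [Fintype Y] [DecidableEq X] [DecidableEq Y] (ok : X → Y → Prop),
        Fintype.card X = 2 ^ (n - 1) → Fintype.card Y = 2 ^ (n - 1) →
        (∀ x, ((univ.filter (fun y => ¬ ok x y)).card : ℝ) ≤ c * 2 ^ (n - 1)) →
        (∀ y, ((univ.filter (fun x => ¬ ok x y)).card : ℝ) ≤ c * 2 ^ (n - 1)) →
        ∃ M : Mac X Y (G.Ob n) (G.St n) Bx Jc n, M.ok = ok ∧ M.N = 2 ^ (n - 1) ∧ M.sb = G.sb ∧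
          MacHyp T M (Real.exp ((n : ℝ) / 8000))

/-- Row GI: the bipartite theorem. -/
def GIStatement : Prop :=
  ∃ (c : ℝ) (n₀ : ℕ), 0 < c ∧ ∀ n, n₀ ≤ n → ∀ (X Y : Type) [Fintype X] [Fintype Y]
    (ok : X → Y → Prop), Fintype.card X = 2 ^ (n - 1) → Fintype.card Y = 2 ^ (n - 1) →
    (∀ x, ((univ.filter (fun y => ¬ ok x y)).card : ℝ) ≤ c * 2 ^ (n - 1)) →
    (∀ y, ((univ.filter (fun x => ¬ ok x y)).card : ℝ) ≤ c * 2 ^ (n - 1)) →
    ∃ (F : G.Ev n ≃ X) (H : G.Ob n ≃ Y), ∀ (o : G.Ob n) (i : Fin n), ok (F (G.nb o i)) (H o)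

/-- The target: frozen statement S10583. Row GJ: `GIStatement → TargetStatement`. -/
def TargetStatement : Prop :=
  ∃ c : ℝ, 0 < c ∧ ∀ n : ℕ, ∀ G : SimpleGraph (Fin (2 ^ n)), ∀ [DecidableRel G.Adj],
    (∀ v : Fin (2 ^ n), ((G.degree v : ℕ) : ℝ) > (1 - c) * (2 : ℝ) ^ n) →
    ∃ f : (Fin n → Bool) ↪ Fin (2 ^ n),
      ∀ x y : Fin n → Bool, hammingDist x y = 1 → G.Adj (f x) (f y)

end Pool.Agent.FQ
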