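import Pool.Agent.FQ.Defs

/-!
# Project FQ, row LP: transport with capacities
-/

set_option autoImplicit false

namespace Pool.Agent.FQ

open Finset

/-- The quadratic functional decreases. -/
theorem lp_dec_one {V : Type} [Fintype V] (t s s' : V → ℝ) (v : V) (x : ℝ) (hx : 0 < x)
    (hxv : x < t v - s v) (hv : s' v = s v + x) (h : ∀ u, u ≠ v → s' u = s u) :
    ∑ u, (max 0 (t u - s' u)) ^ 2 < ∑ u, (max 0 (t u - s u)) ^ 2 := by
  refine Finset.sum_lt_sum ?_ ⟨v, Finset.mem_univ _, ?_⟩
  · intro u _
    by_cases hu : u = v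
    · subst hu
      rw [hv]
      have h1 : max 0 (t u - (s u + x)) = t u - s u - x := by
        rw [max_eq_right] <;> linarith
      have h2 : max 0 (t u - s u) = t u - s u := by
        rw [max_eq_right]; linarith
      rw [h1, h2]
      nlinarith
    · rw [h u hu]
  · rw [hv]
    have h1 : max 0 (t v - (s v + x)) = t v - s v - x := by
      rw [max_eq_right] <;> linarith
    have h2 : max 0 (t v - s v) = t v - s v := by
      rw [max_eq_right]; linarith
    rw [h1, h2]
    nlinarith

theorem lp_dec_two {V : Type} [Fintype V] (t s s' : V → ℝ) (v v' : V) (x : ℝ) (hx : 0 < x)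
    (hxv : x < t v - s v) (hv : s' v = s v + x) (hne : v' ≠ v) (hv' : t v' ≤ s v')
    (hvx : s' v' = s v' - x) (h : ∀ u, u ≠ v → u ≠ v' → s' u = s u) :
    ∑ u, (max 0 (t u - s' u)) ^ 2 < ∑ u, (max 0 (t u - s u)) ^ 2 := by
  classical
  have h0 : ∑ u, (max 0 (t u - s u)) ^ 2 = ∑ u, ((max 0 (t u - s u)) ^ 2 +
      (if u = v then -x ^ 2 else 0) + (if u = v' then x ^ 2 else 0)) := by
    rw [Finset.sum_add_distrib, Finset.sum_add_distrib]
    simp
  rw [h0]
  refine Finset.sum_lt_sum ?_ ⟨v, Finset.mem_univ _, ?_⟩
  · intro u _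
    by_cases hu : u = v
    · subst hu
      rw [hv, if_pos rfl, if_neg (Ne.symm hne)]
      have h1 : max 0 (t u - (s u + x)) = t u - s u - x := by
        rw [max_eq_right] <;> linarith
      have h2 : max 0 (t u - s u) = t u - s u := by
        rw [max_eq_right]; linarith
      rw [h1, h2]
      nlinarith
    · by_cases hu' : u = v'
      · subst hu'
        rw [hvx, if_neg hu, if_pos rfl]
        have h1 : max 0 (t u - (s u - x)) ≤ x := by
          apply max_le <;> linarith
        have h2 : 0 ≤ max 0 (t u - (s u - x)) := le_max_left _ _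
        have h3 : 0 ≤ (max 0 (t u - s u)) ^ 2 := sq_nonneg _
        nlinarith
      · rw [h u hu hu', if_neg hu, if_neg hu']
        linarith
  · rw [hv, if_pos rfl, if_neg (Ne.symm hne)]
    have h1 : max 0 (t v - (s v + x)) = t v - s v - x := by
      rw [max_eq_right] <;> linarith
    have h2 : max 0 (t v - s v) = t v - s v := by
      rw [max_eq_right]; linarith
    rw [h1, h2]
    nlinarith

/-- The transport polytope. -/
def LPset (I V : Type) [Fintype V] (r : I → ℝ) (κ : I → V → ℝ) : Set (I → V → ℝ) :=
  {p | (∀ i v, 0 ≤ p i v) ∧ (∀ i v, p i v ≤ κ i v) ∧ ∀ i, ∑ v, p i v ≤ r i}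

theorem lp_compact {I V : Type} [Fintype I] [Fintype V] (r : I → ℝ) (κ : I → V → ℝ) :
    IsCompact (LPset I V r κ) := by
  have h : LPset I V r κ = (Set.univ.pi fun i => Set.univ.pi fun v => Set.Icc 0 (κ i v)) ∩
      ⋂ i, {p : I → V → ℝ | ∑ v, p i v ≤ r i} := by
    ext p
    simp only [LPset, Set.mem_ofPred_eq, Set.mem_inter_iff, Set.mem_pi, Set.mem_univ,
      forall_true_left, Set.mem_Icc, Set.mem_iInter]
    constructor
    · rintro ⟨h1, h2, h3⟩
      exact ⟨fun i v => ⟨h1 i v, h2 i v⟩, h3⟩
    · rintro ⟨h1, h3⟩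
      exact ⟨fun i v => (h1 i v).1, fun i v => (h1 i v).2, h3⟩
  rw [h]
  refine IsCompact.inter_right ?_ ?_
  · exact isCompact_univ_pi fun i => isCompact_univ_pi fun v => isCompact_Icc
  · refine isClosed_iInter fun i => ?_
    exact isClosed_le (by fun_prop) continuous_const

/-- The minimiser. -/
theorem lp_min {I V : Type} [Fintype I] [Fintype V] (π r : I → ℝ) (κ : I → V → ℝ) (t : V → ℝ)
    (hr : ∀ i, 0 ≤ r i) (hκ : ∀ i v, 0 ≤ κ i v) :
    ∃ p ∈ LPset I V r κ, ∀ q ∈ LPset I V r κ,
      ∑ v, (max 0 (t v - ∑ i, π i * p i v)) ^ 2 ≤ ∑ v, (max 0 (t v - ∑ i, π i * q i v)) ^ 2 := by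
  have hne : (LPset I V r κ).Nonempty := by
    refine ⟨fun _ _ => 0, ?_, ?_, ?_⟩
    · intro i v; exact le_rfl
    · intro i v; exact hκ i v
    · intro i; simpa using hr i
  have hcont : Continuous fun p : I → V → ℝ =>
      ∑ v, (max 0 (t v - ∑ i, π i * p i v)) ^ 2 := by
    refine continuous_finsetSum _ fun v _ => ?_
    refine Continuous.pow ?_ 2
    refine Continuous.max continuous_const ?_
    refine Continuous.sub continuous_const ?_
    refine continuous_finsetSum _ fun i _ => ?_
    fun_prop
  obtain ⟨p, hp, hmin⟩ := (lp_compact r κ).exists_isMinOn hne hcont.continuousOn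
  exact ⟨p, hp, fun q hq => hmin hq⟩

theorem lp_shift {I V : Type} [Fintype I] [DecidableEq I] (π : I → ℝ) (p : I → V → ℝ) (i : I)
    (δ : V → ℝ) (u : V) :
    ∑ j, π j * (p j u + if j = i then δ u else 0) = ∑ j, π j * p j u + π i * δ u := by
  simp only [mul_add, Finset.sum_add_distrib, mul_ite, mul_zero]
  simp

theorem lp_row {V : Type} [Fintype V] (f : V → ℝ) (δ : V → ℝ) :
    ∑ u, (f u + δ u) = ∑ u, f u + ∑ u, δ u := Finset.sum_add_distrib

/-- The row inequality at the minimiser. -/
theorem lp_key {I V : Type} [Fintype I] [Fintype V] (π r : I → ℝ) (κ : I → V → ℝ) (t : V → ℝ)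
    (p : I → V → ℝ) (hp : p ∈ LPset I V r κ)
    (hmin : ∀ q ∈ LPset I V r κ,
      ∑ v, (max 0 (t v - ∑ i, π i * p i v)) ^ 2 ≤ ∑ v, (max 0 (t v - ∑ i, π i * q i v)) ^ 2)
    (W : Finset V) (hW : ∀ v, v ∈ W ↔ ∑ i, π i * p i v < t v) (i : I) (hi : 0 < π i) :
    min (r i) (∑ v ∈ W, κ i v) ≤ ∑ v ∈ W, p i v := by
  classical
  obtain ⟨hp0, hpκ, hpr⟩ := hp
  by_contra hcon
  rw [not_le, lt_min_iff] at hcon
  obtain ⟨h1, h2⟩ := hcon
  obtain ⟨v, hvW, hv⟩ : ∃ v ∈ W, p i v < κ i v := Finset.exists_lt_of_sum_lt h2
  have hd : 0 < t v - ∑ i, π i * p i v := by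
    have := (hW v).1 hvW
    linarith
  set d := t v - ∑ i, π i * p i v with hd_def
  by_cases hA : ∑ v, p i v < r i
  · -- increase
    obtain ⟨ε, hε0, hε1, hε2, hε3⟩ : ∃ ε : ℝ, 0 < ε ∧ ε ≤ κ i v - p i v ∧
        ε ≤ r i - ∑ v, p i v ∧ π i * ε < d := by
      refine ⟨min (κ i v - p i v) (min (r i - ∑ v, p i v) (d / (2 * π i))), ?_, ?_, ?_, ?_⟩
      · refine lt_min (by linarith) (lt_min (by linarith) (by positivity))
      · exact min_le_left _ _
      · exact (min_le_right _ _).trans (min_le_left _ _)
      · have h3 : min (κ i v - p i v) (min (r i - ∑ v, p i v) (d / (2 * π i))) ≤ d / (2 * π i) :=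
          (min_le_right _ _).trans (min_le_right _ _)
        have h4 : π i * (d / (2 * π i)) = d / 2 := by
          field_simp
        have h5 := mul_le_mul_of_nonneg_left h3 hi.le
        linarith
    set δ : V → ℝ := fun u => if u = v then ε else 0 with hδ
    have hq : (fun j u => p j u + if j = i then δ u else 0) ∈ LPset I V r κ := by
      refine ⟨?_, ?_, ?_⟩
      · intro j u
        have := hp0 j u
        simp only [hδ]
        split_ifs <;> linarith
      · intro j u
        have := hpκ j u
        simp only [hδ]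
        by_cases hj : j = i
        · subst hj
          by_cases hu : u = v
          · subst hu
            simp only [if_true]
            linarith
          · simp only [if_true, if_neg hu]
            linarith
        · simp only [if_neg hj]
          linarith
      · intro j
        have := hpr j
        by_cases hj : j = i
        · subst hj
          simp only [if_true]
          rw [Finset.sum_add_distrib]
          have : ∑ u, δ u = ε := by simp [hδ]
          linarith
        · simp only [if_neg hj, add_zero]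
          exact this
    have h3 := hmin _ hq
    simp only [lp_shift] at h3
    refine absurd h3 (not_le.mpr ?_)
    refine lp_dec_one t (fun u => ∑ i, π i * p i u) (fun u => ∑ j, π j * p j u + π i * δ u) v
      (π i * ε) (by positivity) hε3 ?_ ?_
    · simp [hδ]
    · intro u hu
      simp [hδ, hu]
  · obtain ⟨v', hv'W, hv'⟩ : ∃ v', v' ∉ W ∧ 0 < p i v' := by
      by_contra hcon
      push Not at hcon
      have h3 : ∑ u ∈ W, p i u = ∑ u, p i u := by
        refine Finset.sum_subset (Finset.subset_univ _) ?_
        intro u _ hu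
        exact le_antisymm (hcon u hu) (hp0 i u)
      linarith
    have hne : v' ≠ v := fun h => hv'W (h ▸ hvW)
    have hv't : t v' ≤ ∑ i, π i * p i v' := by
      by_contra hc
      exact hv'W ((hW v').2 (not_le.mp hc))
    obtain ⟨ε, hε0, hε1, hε2, hε3⟩ : ∃ ε : ℝ, 0 < ε ∧ ε ≤ κ i v - p i v ∧
        ε ≤ p i v' ∧ π i * ε < d := by
      refine ⟨min (κ i v - p i v) (min (p i v') (d / (2 * π i))), ?_, ?_, ?_, ?_⟩
      · refine lt_min (by linarith) (lt_min hv' (by positivity))
      · exact min_le_left _ _
      · exact (min_le_right _ _).trans (min_le_left _ _)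
      · have h3 : min (κ i v - p i v) (min (p i v') (d / (2 * π i))) ≤ d / (2 * π i) :=
          (min_le_right _ _).trans (min_le_right _ _)
        have h4 : π i * (d / (2 * π i)) = d / 2 := by
          field_simp
        have h5 := mul_le_mul_of_nonneg_left h3 hi.le
        linarith
    set δ : V → ℝ := fun u => (if u = v then ε else 0) + (if u = v' then -ε else 0) with hδ
    have hδv : δ v = ε := by simp [hδ, Ne.symm hne]
    have hδv' : δ v' = -ε := by simp [hδ, hne]
    have hδu : ∀ u, u ≠ v → u ≠ v' → δ u = 0 := by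
      intro u hu hu'
      simp [hδ, hu, hu']
    have hδs : ∑ u, δ u = 0 := by
      simp only [hδ]
      rw [Finset.sum_add_distrib]
      simp
    have hq : (fun j u => p j u + if j = i then δ u else 0) ∈ LPset I V r κ := by
      refine ⟨?_, ?_, ?_⟩
      · intro j u
        have := hp0 j u
        by_cases hj : j = i
        · subst hj
          simp only [if_true]
          by_cases hu : u = v
          · subst hu
            rw [hδv]; linarith
          · by_cases hu' : u = v'
            · subst hu'
              rw [hδv']; linarith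
            · rw [hδu u hu hu']; linarith
        · simp only [if_neg hj]
          linarith
      · intro j u
        have := hpκ j u
        by_cases hj : j = i
        · subst hj
          simp only [if_true]
          by_cases hu : u = v
          · subst hu
            rw [hδv]; linarith
          · by_cases hu' : u = v'
            · subst hu'
              rw [hδv']; linarith
            · rw [hδu u hu hu']; linarith
        · simp only [if_neg hj]
          linarith
      · intro j
        have := hpr j
        by_cases hj : j = i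
        · subst hj
          simp only [if_true]
          rw [Finset.sum_add_distrib, hδs]
          linarith
        · simp only [if_neg hj, add_zero]
          exact this
    have h3 := hmin _ hq
    simp only [lp_shift] at h3
    refine absurd h3 (not_le.mpr ?_)
    refine lp_dec_two t (fun u => ∑ i, π i * p i u) (fun u => ∑ j, π j * p j u + π i * δ u) v v'
      (π i * ε) (by positivity) hε3 ?_ hne hv't ?_ ?_
    · simp [hδv]
    · simp only [hδv']
      ring
    · intro u hu hu'
      simp [hδu u hu hu']

theorem lp : LPStatement := by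
  classical
  intro I V _ _ π r κ t hπ hr hκ ht hcap
  obtain ⟨p, hp, hmin⟩ := lp_min π r κ t hr hκ
  set W : Finset V := univ.filter fun v => ∑ i, π i * p i v < t v with hWdef
  have hW : ∀ v, v ∈ W ↔ ∑ i, π i * p i v < t v := by
    intro v
    simp [hWdef]
  have hkey : ∀ i, π i * min (r i) (∑ v ∈ W, κ i v) ≤ π i * ∑ v ∈ W, p i v := by
    intro i
    rcases (hπ i).eq_or_lt with h0 | h0
    · rw [← h0, zero_mul, zero_mul]
    · exact mul_le_mul_of_nonneg_left (lp_key π r κ t p hp hmin W hW i h0) h0.le
  have hempty : W = ∅ := by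
    by_contra hne
    have hne' : W.Nonempty := Finset.nonempty_iff_ne_empty.mpr hne
    have h1 : ∑ v ∈ W, ∑ i, π i * p i v < ∑ v ∈ W, t v :=
      Finset.sum_lt_sum_of_nonempty hne' fun v hv => (hW v).1 hv
    have h2 : ∑ v ∈ W, ∑ i, π i * p i v = ∑ i, π i * ∑ v ∈ W, p i v := by
      rw [Finset.sum_comm]
      exact Finset.sum_congr rfl fun i _ => (Finset.mul_sum _ _ _).symm
    have h3 := hcap W
    have h4 : ∑ i, π i * min (r i) (∑ v ∈ W, κ i v) ≤ ∑ i, π i * ∑ v ∈ W, p i v :=
      Finset.sum_le_sum fun i _ => hkey i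
    linarith
  have hge : ∀ v, t v ≤ ∑ i, π i * p i v := by
    intro v
    by_contra hc
    have := (hW v).2 (not_le.mp hc)
    rw [hempty] at this
    exact absurd this (Finset.notMem_empty v)
  obtain ⟨hp0, hpκ, hpr⟩ := hp
  set s : V → ℝ := fun v => ∑ i, π i * p i v with hs
  have hs0 : ∀ v, 0 ≤ s v := fun v =>
    Finset.sum_nonneg fun i _ => mul_nonneg (hπ i) (hp0 i v)
  have hc0 : ∀ v, 0 ≤ t v / s v := fun v => div_nonneg (ht v) (hs0 v)
  have hc1 : ∀ v, t v / s v ≤ 1 := fun v => div_le_one_of_le₀ (hge v) (hs0 v)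
  refine ⟨fun i v => p i v * (t v / s v), ?_, ?_, ?_, ?_⟩
  · intro i v
    exact mul_nonneg (hp0 i v) (hc0 v)
  · intro i v
    exact (mul_le_of_le_one_right (hp0 i v) (hc1 v)).trans (hpκ i v)
  · intro i
    exact (Finset.sum_le_sum fun v _ => mul_le_of_le_one_right (hp0 i v) (hc1 v)).trans (hpr i)
  · intro v
    have h1 : ∑ i, π i * (p i v * (t v / s v)) = s v * (t v / s v) := by
      rw [hs, Finset.sum_mul]
      exact Finset.sum_congr rfl fun i _ => by ring
    rw [h1]
    rcases (hs0 v).eq_or_lt with h0 | h0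
    · have h2 : t v = 0 := le_antisymm (by rw [h0]; exact hge v) (ht v)
      rw [← h0, h2, zero_mul]
    · field_simp

end Pool.Agent.FQ
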