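import Pool.Agent.FQ.Defs

set_option autoImplicit false

namespace Pool.Agent.FQ

open Finset Classical

theorem lap_sum {X : Type} [Fintype X] {K : X → X → ℝ} (hK : ∀ x x', K x x' = K x' x)
    (ψ : X → ℝ) : ∑ x, ∑ x', K x x' * (ψ x - ψ x') = 0 := by
  have h1 : ∑ x, ∑ x', K x x' * (ψ x - ψ x') =
      ∑ x, ∑ x', K x x' * ψ x - ∑ x, ∑ x', K x x' * ψ x' := by
    rw [← Finset.sum_sub_distrib]
    refine Finset.sum_congr rfl fun x _ => ?_
    rw [← Finset.sum_sub_distrib]
    refine Finset.sum_congr rfl fun x' _ => ?_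
    ring
  have h2 : ∑ x, ∑ x', K x x' * ψ x' = ∑ x, ∑ x', K x x' * ψ x := by
    rw [Finset.sum_comm]
    refine Finset.sum_congr rfl fun x _ => ?_
    refine Finset.sum_congr rfl fun x' _ => ?_
    rw [hK]
  rw [h1, h2, sub_self]

theorem lap_max {X : Type} [Fintype X] [Nonempty X] {K : X → X → ℝ} {k φ : ℝ} {f ψ : X → ℝ}
    (hk : 0 < k) (hK : ∀ x x', x ≠ x' → k ≤ K x x') (hf : ∀ x, f x ≤ φ)
    (h0 : ∑ x, ψ x = 0) (h : ∀ x, ∑ x', K x x' * (ψ x - ψ x') = f x) (x : X) :
    ψ x * (k * Fintype.card X) ≤ φ := by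
  obtain ⟨x0, hx0⟩ := Finite.exists_max ψ
  have h1 : k * Fintype.card X * ψ x0 ≤ f x0 := by
    rw [← h x0]
    have h2 : ∑ x', k * (ψ x0 - ψ x') = k * Fintype.card X * ψ x0 := by
      rw [← Finset.mul_sum, Finset.sum_sub_distrib, h0, Finset.sum_const, Finset.card_univ,
        nsmul_eq_mul]
      ring
    rw [← h2]
    refine Finset.sum_le_sum fun x' _ => ?_
    by_cases hx : x0 = x'
    · rw [← hx, sub_self, mul_zero, mul_zero]
    · exact mul_le_mul_of_nonneg_right (hK _ _ hx) (sub_nonneg.2 (hx0 x'))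
  have h3 : 0 ≤ k * (Fintype.card X : ℝ) := by positivity
  calc ψ x * (k * Fintype.card X) ≤ ψ x0 * (k * Fintype.card X) :=
        mul_le_mul_of_nonneg_right (hx0 x) h3
    _ = k * Fintype.card X * ψ x0 := by ring
    _ ≤ f x0 := h1
    _ ≤ φ := hf x0

theorem lap_abs {X : Type} [Fintype X] [Nonempty X] {K : X → X → ℝ} {k φ : ℝ} {f ψ : X → ℝ}
    (hk : 0 < k) (hK : ∀ x x', x ≠ x' → k ≤ K x x') (hf : ∀ x, |f x| ≤ φ)
    (h0 : ∑ x, ψ x = 0) (h : ∀ x, ∑ x', K x x' * (ψ x - ψ x') = f x) (x : X) :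
    |ψ x| * (k * Fintype.card X) ≤ φ := by
  have h1 := lap_max hk hK (fun x => (abs_le.1 (hf x)).2) h0 h x
  have h2 : -ψ x * (k * Fintype.card X) ≤ φ := by
    refine lap_max (f := fun x => -f x) (ψ := fun x => -ψ x) hk hK (fun x => ?_) ?_
      (fun x => ?_) x
    · have := (abs_le.1 (hf x)).1
      show -f x ≤ φ
      linarith
    · rw [Finset.sum_neg_distrib, h0, neg_zero]
    · show ∑ x', K x x' * (-ψ x - -ψ x') = -f x
      rw [← h x, ← Finset.sum_neg_distrib]
      refine Finset.sum_congr rfl fun x' _ => ?_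
      ring
  rcases abs_cases (ψ x) with h3 | h3
  · rw [h3.1]
    exact h1
  · rw [h3.1]
    exact h2

/-- the Laplace operator plus the sum -/
noncomputable def lapOp {X : Type} [Fintype X] (K : X → X → ℝ) : (X → ℝ) →ₗ[ℝ] (X → ℝ) where
  toFun ψ := fun x => ∑ x', K x x' * (ψ x - ψ x') + ∑ x', ψ x'
  map_add' ψ χ := by
    funext x
    simp only [Pi.add_apply]
    rw [Finset.sum_add_distrib]
    have : ∑ x', K x x' * (ψ x + χ x - (ψ x' + χ x')) =
        ∑ x', K x x' * (ψ x - ψ x') + ∑ x', K x x' * (χ x - χ x') := by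
      rw [← Finset.sum_add_distrib]
      refine Finset.sum_congr rfl fun x' _ => ?_
      ring
    rw [this]
    ring
  map_smul' c ψ := by
    funext x
    simp only [Pi.smul_apply, smul_eq_mul, RingHom.id_apply]
    rw [mul_add, Finset.mul_sum, Finset.mul_sum]
    congr 1
    refine Finset.sum_congr rfl fun x' _ => ?_
    ring

theorem lapOp_apply {X : Type} [Fintype X] (K : X → X → ℝ) (ψ : X → ℝ) (x : X) :
    lapOp K ψ x = ∑ x', K x x' * (ψ x - ψ x') + ∑ x', ψ x' := rfl

theorem lapOp_sum {X : Type} [Fintype X] [Nonempty X] {K : X → X → ℝ}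
    (hK : ∀ x x', K x x' = K x' x) (ψ : X → ℝ) (h : ∑ x, lapOp K ψ x = 0) : ∑ x, ψ x = 0 := by
  simp only [lapOp_apply] at h
  rw [Finset.sum_add_distrib, lap_sum hK, zero_add, Finset.sum_const, Finset.card_univ,
    nsmul_eq_mul] at h
  rcases mul_eq_zero.1 h with h | h
  · exfalso
    have h1 : (0 : ℝ) < Fintype.card X := by exact_mod_cast Fintype.card_pos
    linarith
  · exact h

theorem lap : LapStatement := by
  intro X _ _ K k φ f hk hsym hK hf0 hf
  have hinj : Function.Injective (lapOp K) := by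
    rw [← LinearMap.ker_eq_bot, LinearMap.ker_eq_bot']
    intro ψ hψ
    have h1 : ∑ x, ψ x = 0 := by
      refine lapOp_sum hsym ψ ?_
      rw [hψ]
      simp
    have h2 : ∀ x, ∑ x', K x x' * (ψ x - ψ x') = (fun _ => (0 : ℝ)) x := by
      intro x
      have h3 := congrFun hψ x
      rw [lapOp_apply, h1, add_zero] at h3
      exact h3
    funext x
    have h3 := lap_abs (φ := 0) hk hK (by simp) h1 h2 x
    have h4 : 0 < k * (Fintype.card X : ℝ) := by
      have h5 : (0 : ℝ) < Fintype.card X := by exact_mod_cast Fintype.card_pos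
      positivity
    have h5 : |ψ x| ≤ 0 := by
      by_contra h6
      push Not at h6
      have := mul_pos h6 h4
      linarith
    exact abs_nonpos_iff.1 h5
  obtain ⟨ψ, hψ⟩ := (LinearMap.injective_iff_surjective.1 hinj) f
  have h1 : ∑ x, ψ x = 0 := by
    refine lapOp_sum hsym ψ ?_
    rw [hψ]
    exact hf0
  have h2 : ∀ x, ∑ x', K x x' * (ψ x - ψ x') = f x := by
    intro x
    have h3 := congrFun hψ x
    rwa [lapOp_apply, h1, add_zero] at h3
  exact ⟨ψ, h2, fun x => lap_abs hk hK hf h1 h2 x⟩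

end Pool.Agent.FQ
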