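import Pool.Agent.FQ.Defs
import Pool.Agent.QA.Ball
import Pool.Agent.VC.Geo

/-!
# Project FQ, library: tails for independent tokens, volumes
-/

set_option autoImplicit false

namespace Pool.Agent.FQ

open Finset Classical
open Pool.Agent.H73.Cube (EE EE_mono EE_const EE_smul EE_sum)

section

variable {ι α : Type} [Fintype ι] [DecidableEq ι] [Fintype α]

/-- The mean of a product of functions of the single coordinates. -/
theorem EE_prod (P : ι → α → ℝ) (f : ι → α → ℝ) :
    EE P (fun ω => ∏ i, f i (ω i)) = ∏ i, ∑ a, P i a * f i a := by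
  unfold EE
  rw [Fintype.prod_sum]
  exact sum_congr rfl fun ω _ => prod_mul_distrib.symm

/-- The same over a set of coordinates. -/
theorem EE_prod_mem (P : ι → α → ℝ) (hP1 : ∀ i, ∑ a, P i a = 1) (J : Finset ι)
    (f : ι → α → ℝ) :
    EE P (fun ω => ∏ i ∈ J, f i (ω i)) = ∏ i ∈ J, ∑ a, P i a * f i a := by
  have h1 : ∀ ω : ι → α, ∏ i ∈ J, f i (ω i) = ∏ i, (if i ∈ J then f i (ω i) else 1) := by
    intro ω
    rw [prod_ite_mem, univ_inter]
  have h2 : (fun ω : ι → α => ∏ i ∈ J, f i (ω i)) =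
      fun ω => ∏ i, (fun i a => if i ∈ J then f i a else 1) i (ω i) := funext h1
  rw [h2]
  refine (EE_prod P (fun i a => if i ∈ J then f i a else 1)).trans ?_
  rw [← prod_subset (subset_univ J)]
  · exact prod_congr rfl fun i hi => by simp [hi]
  · intro i _ hi
    simp only [hi, if_false, mul_one]
    exact hP1 i

theorem ind_nonneg (p : Prop) : 0 ≤ ind p := by
  unfold ind
  split_ifs <;> norm_num

theorem ind_le_one (p : Prop) : ind p ≤ 1 := by
  unfold ind
  split_ifs <;> norm_num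

theorem ind_mono {p q : Prop} (h : p → q) : ind p ≤ ind q := by
  unfold ind
  split_ifs with h1 h2
  · exact le_rfl
  · exact absurd (h h1) h2
  · norm_num
  · exact le_rfl

/-- Number of the tokens of `J` with values in `W`. -/
noncomputable def inW (J : Finset ι) (W : α → Prop) (ω : ι → α) : ℕ :=
  (J.filter fun i => W (ω i)).card

/-- Few tokens in `W`: small complement of `W`. -/
theorem few_small (P : ι → α → ℝ) (hP0 : ∀ i a, 0 ≤ P i a) (hP1 : ∀ i, ∑ a, P i a = 1)
    (J : Finset ι) (W : α → Prop) (v : ℝ) (hv0 : 0 ≤ v) (hv1 : v ≤ 1)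
    (hv : ∀ i ∈ J, ∑ a, P i a * ind (¬ W a) ≤ v) :
    EE P (fun ω => ind (100 * inW J W ω < J.card)) ≤
      (2 * v ^ (99 / 100 : ℝ)) ^ J.card := by
  have h1 : ∀ ω : ι → α, ind (100 * inW J W ω < J.card) ≤
      ∑ K ∈ J.powerset.filter (fun K => 99 * J.card ≤ 100 * K.card),
        ∏ i ∈ K, (fun (_ : ι) a => ind (¬ W a)) i (ω i) := by
    intro ω
    have h0 : ∀ K ∈ J.powerset.filter (fun K => 99 * J.card ≤ 100 * K.card),
        0 ≤ ∏ i ∈ K, (fun (_ : ι) a => ind (¬ W a)) i (ω i) :=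
      fun K _ => prod_nonneg fun i _ => ind_nonneg _
    by_cases h : 100 * inW J W ω < J.card
    · have h2 : J.filter (fun i => ¬ W (ω i)) ∈
          J.powerset.filter (fun K => 99 * J.card ≤ 100 * K.card) := by
        refine mem_filter.2 ⟨mem_powerset.2 (filter_subset _ _), ?_⟩
        have h3 := card_filter_add_card_filter_not (s := J) (fun i => W (ω i))
        unfold inW at h
        omega
      refine le_trans ?_ (single_le_sum h0 h2)
      have h4 : ∏ i ∈ J.filter (fun i => ¬ W (ω i)), (fun (_ : ι) a => ind (¬ W a)) i (ω i) = 1 :=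
        prod_eq_one fun i hi => by
          have := (mem_filter.1 hi).2
          show ind (¬ W (ω i)) = 1
          unfold ind
          rw [if_pos this]
      rw [h4]
      exact ind_le_one _
    · have h2 : ind (100 * inW J W ω < J.card) = 0 := by
        unfold ind
        rw [if_neg h]
      rw [h2]
      exact sum_nonneg h0
  refine (EE_mono hP0 fun ω _ => h1 ω).trans ?_
  rw [EE_sum]
  calc ∑ K ∈ J.powerset.filter (fun K => 99 * J.card ≤ 100 * K.card),
        EE P (fun ω => ∏ i ∈ K, (fun (_ : ι) a => ind (¬ W a)) i (ω i))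
      ≤ ∑ K ∈ J.powerset.filter (fun K => 99 * J.card ≤ 100 * K.card),
        (v ^ (99 / 100 : ℝ)) ^ J.card := by
        refine sum_le_sum fun K hK => ?_
        obtain ⟨hK1, hK2⟩ := mem_filter.1 hK
        refine (EE_prod_mem P hP1 K (fun (_ : ι) a => ind (¬ W a))).le.trans ?_
        have h2 : ∏ i ∈ K, ∑ a, P i a * ind (¬ W a) ≤ ∏ i ∈ K, v :=
          prod_le_prod (fun i _ => sum_nonneg fun a _ => mul_nonneg (hP0 i a) (ind_nonneg _))
            fun i hi => hv i (mem_powerset.1 hK1 hi)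
        refine h2.trans ?_
        rw [prod_const, ← Real.rpow_natCast, ← Real.rpow_natCast, ← Real.rpow_mul hv0]
        have h3 : (99 / 100 : ℝ) * (J.card : ℝ) ≤ (K.card : ℝ) := by
          have : (99 * J.card : ℝ) ≤ 100 * K.card := by exact_mod_cast hK2
          linarith
        rcases eq_or_lt_of_le hv0 with h4 | h4
        · rw [← h4]
          rcases Nat.eq_zero_or_pos K.card with h5 | h5
          · have h6 : J.card = 0 := by omega
            rw [h5, h6]
            simp
          · rw [Real.zero_rpow (by positivity)]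
            exact Real.rpow_nonneg le_rfl _
        · exact Real.rpow_le_rpow_of_exponent_ge h4 hv1 h3
    _ ≤ ∑ K ∈ J.powerset, (v ^ (99 / 100 : ℝ)) ^ J.card :=
        sum_le_sum_of_subset_of_nonneg (filter_subset _ _)
          fun K _ _ => pow_nonneg (Real.rpow_nonneg hv0 _) _
    _ = (2 * v ^ (99 / 100 : ℝ)) ^ J.card := by
        rw [sum_const, card_powerset, nsmul_eq_mul, mul_pow]
        push_cast
        ring

/-- Few tokens in `W`: `W` has probability at least `9/100` for each token. -/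
theorem few_large (P : ι → α → ℝ) (hP0 : ∀ i a, 0 ≤ P i a) (hP1 : ∀ i, ∑ a, P i a = 1)
    (J : Finset ι) (W : α → Prop)
    (hW : ∀ i ∈ J, (9 / 100 : ℝ) ≤ ∑ a, P i a * ind (W a)) :
    EE P (fun ω => ind (100 * inW J W ω < J.card)) ≤ Real.exp (-(J.card / 20 : ℝ)) := by
  have e1 : Real.exp (1 / 50) ≤ 1 / (1 - 1 / 50) := by
    have h1 := Real.add_one_le_exp (-(1 / 50) : ℝ)
    have h2 : Real.exp (1 / 50) * Real.exp (-(1 / 50)) = 1 := by
      rw [← Real.exp_add, add_neg_cancel, Real.exp_zero]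
    rw [le_div_iff₀ (by norm_num)]
    have h3 := Real.exp_pos (1 / 50)
    nlinarith
  have e2 : Real.exp (-2) ≤ 1 / 7 := by
    have h1 : (7 : ℝ) ≤ Real.exp 2 := by
      have h2 : (2.7182818283 : ℝ) < Real.exp 1 := Real.exp_one_gt_d9
      have h3 : Real.exp 2 = Real.exp 1 * Real.exp 1 := by
        rw [← Real.exp_add]
        norm_num
      rw [h3]
      nlinarith
    rw [Real.exp_neg, inv_eq_one_div]
    exact one_div_le_one_div_of_le (by norm_num) h1
  have e3 : Real.exp (1 / 50) * (91 / 100 + 9 / 100 * Real.exp (-2)) ≤ Real.exp (-(1 / 20)) := by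
    have h1 := Real.add_one_le_exp (-(1 / 20) : ℝ)
    have h2 : 91 / 100 + 9 / 100 * Real.exp (-2) ≤ 91 / 100 + 9 / 700 := by linarith
    have h3 : Real.exp (1 / 50) * (91 / 100 + 9 / 100 * Real.exp (-2)) ≤
        1 / (1 - 1 / 50) * (91 / 100 + 9 / 700) :=
      mul_le_mul e1 h2 (by positivity) (by norm_num)
    refine h3.trans (le_trans ?_ h1)
    norm_num
  have h1 : ∀ ω : ι → α, ind (100 * inW J W ω < J.card) ≤
      Real.exp (1 / 50) ^ J.card *
        ∏ i ∈ J, (fun (_ : ι) a => if W a then Real.exp (-2) else 1) i (ω i) := by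
    intro ω
    have h2 : ∏ i ∈ J, (fun (_ : ι) a => if W a then Real.exp (-2) else 1) i (ω i) =
        Real.exp (-2) ^ inW J W ω := by
      unfold inW
      rw [← prod_const, prod_filter]
    rw [h2, ← Real.exp_nat_mul, ← Real.exp_nat_mul, ← Real.exp_add]
    by_cases h : 100 * inW J W ω < J.card
    · refine (ind_le_one _).trans ?_
      have h3 : (100 * inW J W ω : ℝ) < J.card := by exact_mod_cast h
      refine Real.one_le_exp ?_
      linarith
    · have h3 : ind (100 * inW J W ω < J.card) = 0 := by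
        unfold ind
        rw [if_neg h]
      rw [h3]
      exact (Real.exp_pos _).le
  refine (EE_mono hP0 fun ω _ => h1 ω).trans ?_
  rw [EE_smul]
  have e4 := EE_prod_mem P hP1 J (fun (_ : ι) a => if W a then Real.exp (-2) else 1)
  rw [e4]
  have h2 : ∏ i ∈ J, ∑ a, P i a * (if W a then Real.exp (-2) else 1) ≤
      ∏ i ∈ J, (91 / 100 + 9 / 100 * Real.exp (-2)) := by
    refine prod_le_prod (fun i _ => sum_nonneg fun a _ => mul_nonneg (hP0 i a) ?_) fun i hi => ?_
    · split_ifs
      · exact (Real.exp_pos _).le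
      · norm_num
    · have h3 : ∑ a, P i a * (if W a then Real.exp (-2) else 1) =
          1 - (1 - Real.exp (-2)) * ∑ a, P i a * ind (W a) := by
        have h4 : ∑ a, P i a * (if W a then Real.exp (-2) else 1) =
            ∑ a, (P i a - (1 - Real.exp (-2)) * (P i a * ind (W a))) := by
          refine sum_congr rfl fun a _ => ?_
          unfold ind
          split_ifs <;> ring
        rw [h4, sum_sub_distrib, hP1 i, mul_sum]
      rw [h3]
      have h4 := hW i hi
      have h5 : 0 ≤ 1 - Real.exp (-2) := by linarith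
      nlinarith
  calc Real.exp (1 / 50) ^ J.card * ∏ i ∈ J, ∑ a, P i a * (if W a then Real.exp (-2) else 1)
      ≤ Real.exp (1 / 50) ^ J.card * ∏ i ∈ J, (91 / 100 + 9 / 100 * Real.exp (-2)) :=
        mul_le_mul_of_nonneg_left h2 (by positivity)
    _ = (Real.exp (1 / 50) * (91 / 100 + 9 / 100 * Real.exp (-2))) ^ J.card := by
        rw [prod_const, mul_pow]
    _ ≤ Real.exp (-(1 / 20)) ^ J.card := pow_le_pow_left₀ (by positivity) e3 _
    _ = Real.exp (-(J.card / 20 : ℝ)) := by
        rw [← Real.exp_nat_mul]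
        congr 1
        ring

/-- Chernoff, lower tail: at most half of a lower bound of the mean. -/
theorem tail_lower (hC : ChernoffStatement) (P : ι → α → ℝ) (T : ι → α → Prop)
    (hP0 : ∀ i a, 0 ≤ P i a) (hP1 : ∀ i, ∑ a, P i a = 1) (μ : ℝ) (hμ : 0 ≤ μ)
    (hm : 2 * μ ≤ ∑ i, ∑ a, P i a * ind (T i a)) :
    EE P (fun ω => ind (∑ i, ind (T i (ω i)) < μ)) ≤ Real.exp (-(μ / 8)) := by
  set m : ℝ := ∑ i, ∑ a, P i a * ind (T i a) with hmdef
  have h1 := hC ι α P T (-(1 / 4)) hP0 hP1 (by norm_num [abs_le])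
  rw [← hmdef] at h1
  have h2 : ∀ ω : ι → α, ind (∑ i, ind (T i (ω i)) < μ) ≤
      Real.exp (-(1 / 4) * (m - μ)) *
        Real.exp (-(1 / 4) * (∑ i, ind (T i (ω i)) - m)) := by
    intro ω
    rw [← Real.exp_add]
    by_cases h : ∑ i, ind (T i (ω i)) < μ
    · refine (ind_le_one _).trans (Real.one_le_exp ?_)
      linarith
    · have h3 : ind (∑ i, ind (T i (ω i)) < μ) = 0 := if_neg h
      rw [h3]
      exact (Real.exp_pos _).le
  refine (EE_mono hP0 fun ω _ => h2 ω).trans ?_
  rw [EE_smul]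
  refine (mul_le_mul_of_nonneg_left h1 (Real.exp_pos _).le).trans ?_
  rw [← Real.exp_add]
  refine Real.exp_le_exp.2 ?_
  nlinarith

/-- Chernoff, upper tail: more than `μ`, mean at most `5 μ / 11`. -/
theorem tail_upper (hC : ChernoffStatement) (P : ι → α → ℝ) (T : ι → α → Prop)
    (hP0 : ∀ i a, 0 ≤ P i a) (hP1 : ∀ i, ∑ a, P i a = 1) (μ : ℝ)
    (hm : 11 * ∑ i, ∑ a, P i a * ind (T i a) ≤ 5 * μ) :
    EE P (fun ω => ind (μ < ∑ i, ind (T i (ω i)))) ≤ Real.exp (-(μ / 11)) := by
  set m : ℝ := ∑ i, ∑ a, P i a * ind (T i a) with hmdef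
  have h1 := hC ι α P T 1 hP0 hP1 (by norm_num)
  rw [← hmdef] at h1
  have h2 : ∀ ω : ι → α, ind (μ < ∑ i, ind (T i (ω i))) ≤
      Real.exp (m - μ) * Real.exp (1 * (∑ i, ind (T i (ω i)) - m)) := by
    intro ω
    rw [← Real.exp_add]
    by_cases h : μ < ∑ i, ind (T i (ω i))
    · refine (ind_le_one _).trans (Real.one_le_exp ?_)
      linarith
    · have h3 : ind (μ < ∑ i, ind (T i (ω i))) = 0 := if_neg h
      rw [h3]
      exact (Real.exp_pos _).le
  refine (EE_mono hP0 fun ω _ => h2 ω).trans ?_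
  rw [EE_smul]
  refine (mul_le_mul_of_nonneg_left h1 (Real.exp_pos _).le).trans ?_
  rw [← Real.exp_add]
  refine Real.exp_le_exp.2 ?_
  linarith

end

/-! ### Volumes -/

open Pool.Agent.QA (ball)

/-- `k` steps of the radius. -/
theorem ball_add (m r k : ℕ) (h1 : r + k ≤ m) (h2 : m + 1 ≤ 5 * (r + 1)) :
    Pool.Agent.QA.ball m (r + k) ≤ 5 ^ k * Pool.Agent.QA.ball m r := by
  induction k with
  | zero => simp
  | succ k ih =>
    have h3 := Pool.Agent.QA.ball_step m (r + k) (by omega) (by omega)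
    have h4 := ih (by omega)
    calc Pool.Agent.QA.ball m (r + (k + 1)) ≤ 5 * Pool.Agent.QA.ball m (r + k) := h3
      _ ≤ 5 * (5 ^ k * Pool.Agent.QA.ball m r) := Nat.mul_le_mul_left _ h4
      _ = 5 ^ (k + 1) * Pool.Agent.QA.ball m r := by ring

/-- The volume of the ball of radius `m/4`. -/
theorem ball_quarter (r : ℕ) :
    (Pool.Agent.QA.ball (4 * r) r : ℝ) ≤ 2 ^ (4 * r) * (16 / 27 : ℝ) ^ r := by
  refine (Pool.Agent.QA.ball_le_pow (4 * r) r).trans (le_of_eq ?_)
  rw [pow_mul, pow_mul, ← mul_pow, ← mul_pow]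
  norm_num

/-- Profiles: the central binomial bound for a product of `K` groups. -/
theorem box_bound (K k : ℕ) (w : Fin K → ℕ) :
    ((∏ i, (k.choose (w i) : ℝ)) / (2 : ℝ) ^ (K * k)) ^ 2 * ((k : ℝ) + 1) ^ K ≤ 1 := by
  have h1 : ∀ i : Fin K, ((k.choose (w i) : ℝ) / 2 ^ k) ^ 2 * ((k : ℝ) + 1) ≤ 1 := by
    intro i
    have h2 := Pool.Agent.VC.Geo.choose_sq k (w i)
    have h3 : ((k.choose (w i) : ℝ)) ^ 2 * ((k : ℝ) + 1) ≤ 4 ^ k := by exact_mod_cast h2
    have h4 : ((2 : ℝ) ^ k) ^ 2 = 4 ^ k := by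
      rw [← pow_mul, mul_comm, pow_mul]
      norm_num
    rw [div_pow, div_mul_eq_mul_div, h4, div_le_one (by positivity)]
    exact h3
  have h5 : ((∏ i, (k.choose (w i) : ℝ)) / (2 : ℝ) ^ (K * k)) ^ 2 * ((k : ℝ) + 1) ^ K =
      ∏ i, (((k.choose (w i) : ℝ) / 2 ^ k) ^ 2 * ((k : ℝ) + 1)) := by
    rw [prod_mul_distrib, prod_const, card_univ, Fintype.card_fin, prod_pow, prod_div_distrib,
      prod_const, card_univ, Fintype.card_fin, ← pow_mul, mul_comm k K]
  rw [h5]
  exact prod_le_one (fun i _ => by positivity) fun i _ => h1 i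

end Pool.Agent.FQ
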