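import Pool.Agent.FQ.MDefs

/-!
# Project FQ, row M1: the law of the seeds

See note 5216 on MP_a55b9e_co, part I.
-/

set_option autoImplicit false
set_option linter.unusedSectionVars false

namespace Pool.Agent.FQ

open Finset Classical
open Pool.Agent.H73.Cube (EE Loc)

theorem m1_ind_nonneg (p : Prop) : 0 ≤ ind p := by
  unfold ind; split_ifs <;> norm_num

theorem m1_ind_le_one (p : Prop) : ind p ≤ 1 := by
  unfold ind; split_ifs <;> norm_num

theorem m1_sum_ind {Y : Type} [Fintype Y] (C : Finset Y) :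
    ∑ y, ind (y ∈ C) = (C.card : ℝ) := by
  calc ∑ y, ind (y ∈ C) = ∑ y ∈ C, ind (y ∈ C) :=
        (Finset.sum_subset (Finset.subset_univ C) fun y _ hy => by
          unfold ind; rw [if_neg hy]).symm
    _ = ∑ y ∈ C, (1 : ℝ) := Finset.sum_congr rfl fun y hy => by unfold ind; rw [if_pos hy]
    _ = (C.card : ℝ) := by simp

section

variable {X Y Ob St Bx Jc : Type} [Fintype X] [Fintype Y] [Fintype Ob] [Fintype St] [Fintype Bx]
  [Fintype Jc] [DecidableEq X] [DecidableEq Y] [DecidableEq Ob] [DecidableEq St]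
  [DecidableEq Bx] [DecidableEq Jc] {n T : ℕ} {b : ℝ} {M : Mac X Y Ob St Bx Jc n}

theorem m1_Npos (hM : MacHyp T M b) (w : Bx × Fin (T + 1) → X) : 0 < M.N := by
  obtain ⟨h⟩ := Fintype.card_pos_iff.1 hM.cS
  rw [← hM.cX]
  exact Fintype.card_pos_iff.2 ⟨w (M.box h, 0)⟩

theorem m1_compl (hM : MacHyp T M b) (w : Bx × Fin (T + 1) → X) (σ : Bx) :
    (((M.Cs w σ)ᶜ).card : ℝ) ≤ M.dl * M.N := by
  set B : Finset (Bx × Fin (T + 1)) := (univ.filter (fun σ' => M.dB σ σ' ≤ 1)) ×ˢ univ with hB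
  have hsub : (M.Cs w σ)ᶜ ⊆ B.biUnion (fun i => univ.filter (fun y => ¬ M.ok (w i) y)) := by
    intro y hy
    rw [Finset.mem_compl] at hy
    unfold Mac.Cs at hy
    rw [Finset.mem_filter] at hy
    push Not at hy
    obtain ⟨σ', hσ, t, ht⟩ := hy (Finset.mem_univ _)
    rw [Finset.mem_biUnion]
    refine ⟨(σ', t), ?_, ?_⟩
    · rw [hB, Finset.mem_product, Finset.mem_filter]
      exact ⟨⟨Finset.mem_univ _, hσ⟩, Finset.mem_univ _⟩
    · rw [Finset.mem_filter]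
      exact ⟨Finset.mem_univ _, ht⟩
  have h1 : (((M.Cs w σ)ᶜ).card : ℝ) ≤
      ∑ i ∈ B, ((univ.filter (fun y => ¬ M.ok (w i) y)).card : ℝ) := by
    have := (Finset.card_le_card hsub).trans Finset.card_biUnion_le
    exact_mod_cast this
  have h2 : ∑ i ∈ B, ((univ.filter (fun y => ¬ M.ok (w i) y)).card : ℝ) ≤
      ∑ _i ∈ B, M.c * M.N := Finset.sum_le_sum fun i _ => hM.dX (w i)
  have hcN : 0 ≤ M.c * M.N := mul_nonneg hM.c0 (Nat.cast_nonneg _)
  have hBc : (B.card : ℝ) ≤ M.Dl * ((T : ℝ) + 1) := by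
    have h3 : B.card ≤ M.Dl * (T + 1) := by
      rw [hB, Finset.card_product, Finset.card_univ, Fintype.card_fin]
      exact Nat.mul_le_mul_right _ (hM.nbc σ)
    exact_mod_cast h3
  calc (((M.Cs w σ)ᶜ).card : ℝ) ≤ ∑ _i ∈ B, M.c * M.N := h1.trans h2
    _ = B.card * (M.c * M.N) := by rw [Finset.sum_const, nsmul_eq_mul]
    _ ≤ (M.Dl * ((T : ℝ) + 1)) * (M.c * M.N) := mul_le_mul_of_nonneg_right hBc hcN
    _ = (((T : ℝ) + 1) * M.Dl * M.c) * M.N := by ring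
    _ ≤ M.dl * M.N := mul_le_mul_of_nonneg_right hM.hdl (Nat.cast_nonneg _)

theorem m1_card (hM : MacHyp T M b) (w : Bx × Fin (T + 1) → X) (σ : Bx) :
    (1 - M.dl) * M.N ≤ ((M.Cs w σ).card : ℝ) := by
  have h1 := m1_compl hM w σ
  have h2 : ((M.Cs w σ).card : ℝ) + (((M.Cs w σ)ᶜ).card : ℝ) = M.N := by
    have := Finset.card_add_card_compl (M.Cs w σ)
    rw [hM.cY] at this
    exact_mod_cast this
  linarith

end

/-- Row M1: the law of the seeds. -/
theorem m1 : M1Statement := by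
  intro X Y Ob St Bx Jc _ _ _ _ _ _ _ _ _ _ _ _ n T b M hM w
  have hN : (0 : ℝ) < M.N := by exact_mod_cast m1_Npos hM w
  have hdl : M.dl ≤ 1 / 1000 := hM.hdl1
  have hlow : ∀ σ, (1 - M.dl) * M.N ≤ ((M.Cs w σ).card : ℝ) := m1_card hM w
  have hup : ∀ σ, ((M.Cs w σ).card : ℝ) ≤ M.N := by
    intro σ
    have h := Finset.card_le_univ (M.Cs w σ)
    rw [hM.cY] at h
    exact_mod_cast h
  have hpos : ∀ σ, (0 : ℝ) < ((M.Cs w σ).card : ℝ) := fun σ =>
    lt_of_lt_of_le (mul_pos (by linarith) hN) (hlow σ)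
  have hPP : ∀ θ y, M.PP w θ y * ((M.Cs w θ.2).card : ℝ) = ind (y ∈ M.Cs w θ.2) := by
    intro θ y
    unfold Mac.PP
    exact div_mul_cancel₀ _ (hpos θ.2).ne'
  have hP0 : ∀ θ y, 0 ≤ M.PP w θ y := fun θ y =>
    div_nonneg (m1_ind_nonneg _) (hpos θ.2).le
  have h5 : ∀ θ y, M.PP w θ y * ((1 - M.dl) * M.N) ≤ ind (y ∈ M.Cs w θ.2) := by
    intro θ y
    rw [← hPP θ y]
    exact mul_le_mul_of_nonneg_left (hlow θ.2) (hP0 θ y)
  refine ⟨hlow, hup, hP0, ?_, h5, ?_, ?_, ?_⟩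
  · intro θ
    unfold Mac.PP
    rw [← Finset.sum_div, m1_sum_ind, div_self (hpos θ.2).ne']
  · intro θ y
    have h6 := (h5 θ y).trans (m1_ind_le_one _)
    have h7 : 0 ≤ M.PP w θ y * M.N := mul_nonneg (hP0 θ y) hN.le
    have h8 : M.PP w θ y * M.N * (1 - M.dl) ≤ 1 := by
      calc M.PP w θ y * M.N * (1 - M.dl) = M.PP w θ y * ((1 - M.dl) * M.N) := by ring
        _ ≤ 1 := h6
    nlinarith
  · intro θ y
    rw [← hPP θ y]
    exact mul_le_mul_of_nonneg_left (hup θ.2) (hP0 θ y)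
  · intro θ y hne
    have hy : y ∈ M.Cs w θ.2 := by
      by_contra hy
      apply hne
      unfold Mac.PP ind
      rw [if_neg hy, zero_div]
    unfold Mac.Cs at hy
    exact (Finset.mem_filter.1 hy).2

end Pool.Agent.FQ
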