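import Pool.Agent.FQ.MDefs
import Pool.Agent.H73.Cube.Cells

/-!
# Project FQ, row M10: G3, in expectation over the witnesses

See note 5216 on MP_a55b9e_co, part I.
-/

set_option autoImplicit false
set_option linter.unusedSectionVars false

namespace Pool.Agent.FQ

open Finset Classical
open Pool.Agent.H73.Cube (EE Loc EE_sum EE_mono EE_const EE_add EE_sub EE_smul EE_resample
  EE_coord)

theorem m10_i0 (p : Prop) : 0 ≤ ind p := by
  unfold ind
  split_ifs <;> norm_num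

theorem m10_i1 (p : Prop) : ind p ≤ 1 := by
  unfold ind
  split_ifs <;> norm_num

theorem m10_ip {p : Prop} (h : p) : ind p = 1 := if_pos h

theorem m10_in {p : Prop} (h : ¬ p) : ind p = 0 := if_neg h

/-- The sum of the indicators of a set. -/
theorem m10_sum_ind {A : Type} [Fintype A] (Z : Finset A) : ∑ a, ind (a ∈ Z) = (Z.card : ℝ) := by
  rw [← Finset.sum_subset (Finset.subset_univ Z) fun y _ hy => m10_in hy,
    Finset.sum_congr rfl fun y hy => m10_ip hy]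
  simp

/-- The indicator as a sum over the values. -/
theorem m10_ind_sum {A : Type} (Z : Finset A) (a : A) : ind (a ∈ Z) = ∑ x ∈ Z, ind (a = x) := by
  by_cases h : a ∈ Z
  · rw [m10_ip h, Finset.sum_eq_single a (fun x _ hx => m10_in fun h1 => hx h1.symm)
      fun h1 => absurd h h1, m10_ip rfl]
  · rw [m10_in h]
    exact (Finset.sum_eq_zero fun x hx => m10_in fun h1 => h (by rw [h1]; exact hx)).symm

section

variable {X Y Ob St Bx Jc : Type} [Fintype X] [Fintype Y] [Fintype Ob] [Fintype St] [Fintype Bx]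
  [Fintype Jc] [DecidableEq X] [DecidableEq Y] [DecidableEq Ob] [DecidableEq St]
  [DecidableEq Bx] [DecidableEq Jc] {n T : ℕ}

theorem m10_mono (M : Mac X Y Ob St Bx Jc n)
    (hP : ∀ (w : Bx × Fin (T + 1) → X) θ y, 0 ≤ M.PP w θ y)
    (f g : (Bx × Fin (T + 1) → X) → (Jc × Bx → Y) → ℝ) (h : ∀ w ω, f w ω ≤ g w ω) :
    M.E2 f ≤ M.E2 g := by
  unfold Mac.E2
  refine EE_mono (fun _ _ => ?_) fun w _ => EE_mono (hP w) fun ω _ => h w ω
  unfold Mac.U1
  positivity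

theorem m10_mono1 (M : Mac X Y Ob St Bx Jc n)
    (f g : (Bx × Fin (T + 1) → X) → ℝ) (h : ∀ w, f w ≤ g w) :
    EE M.U1 f ≤ EE M.U1 g := by
  refine EE_mono (fun _ _ => ?_) fun w _ => h w
  unfold Mac.U1
  positivity

theorem m10_sum (M : Mac X Y Ob St Bx Jc n) {β : Type} (s : Finset β)
    (f : β → (Bx × Fin (T + 1) → X) → (Jc × Bx → Y) → ℝ) :
    M.E2 (fun w ω => ∑ b ∈ s, f b w ω) = ∑ b ∈ s, M.E2 (f b) := by
  unfold Mac.E2
  simp only [EE_sum]

theorem m10_add (M : Mac X Y Ob St Bx Jc n)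
    (f g : (Bx × Fin (T + 1) → X) → (Jc × Bx → Y) → ℝ) :
    M.E2 (fun w ω => f w ω + g w ω) = M.E2 f + M.E2 g := by
  unfold Mac.E2
  simp only [EE_add]

theorem m10_sub (M : Mac X Y Ob St Bx Jc n)
    (f g : (Bx × Fin (T + 1) → X) → (Jc × Bx → Y) → ℝ) :
    M.E2 (fun w ω => f w ω - g w ω) = M.E2 f - M.E2 g := by
  unfold Mac.E2
  simp only [EE_sub]

theorem m10_smul (M : Mac X Y Ob St Bx Jc n) (c : ℝ)
    (f : (Bx × Fin (T + 1) → X) → (Jc × Bx → Y) → ℝ) :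
    M.E2 (fun w ω => c * f w ω) = c * M.E2 f := by
  unfold Mac.E2
  simp only [EE_smul]

/-- Functions of the witnesses only. -/
theorem m10_w (M : Mac X Y Ob St Bx Jc n)
    (hP : ∀ (w : Bx × Fin (T + 1) → X) θ, ∑ y, M.PP w θ y = 1)
    (f : (Bx × Fin (T + 1) → X) → ℝ) :
    M.E2 (fun w (_ : Jc × Bx → Y) => f w) = EE M.U1 f := by
  unfold Mac.E2
  congr 1
  funext w
  exact EE_const (hP w) _

theorem m10_U (M : Mac X Y Ob St Bx Jc n) (hN : (0 : ℝ) < M.N) (hX : Fintype.card X = M.N)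
    (i : Bx × Fin (T + 1)) : ∑ x, M.U1 i x = 1 := by
  unfold Mac.U1
  rw [sum_const, nsmul_eq_mul, card_univ, hX]
  exact mul_one_div_cancel hN.ne'

/-- The probability that a witness lies in a set. -/
theorem m10_wit (M : Mac X Y Ob St Bx Jc n) (hN : (0 : ℝ) < M.N) (hX : Fintype.card X = M.N)
    (i : Bx × Fin (T + 1)) (Z : Finset X) :
    EE M.U1 (fun w => ind (w i ∈ Z)) = Z.card / M.N := by
  have h1 := EE_coord (P := M.U1 (T := T)) (m10_U M hN hX) i (fun a => ind (a ∈ Z))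
  rw [h1]
  unfold Mac.U1
  rw [← mul_sum, m10_sum_ind]
  ring

/-- The law of a seed, given the witnesses. -/
theorem m10_seed (M : Mac X Y Ob St Bx Jc n) (w : Bx × Fin (T + 1) → X)
    (hP : ∀ θ, ∑ y, M.PP w θ y = 1) (θ : Jc × Bx) (y : Y) :
    EE (M.PP w) (fun ω => ind (ω θ = y)) = M.PP w θ y := by
  have h1 := EE_coord hP θ (fun a => ind (a = y))
  rw [h1, Finset.sum_eq_single y (fun x _ hx => by rw [m10_in hx, mul_zero])
    fun h1 => absurd (mem_univ _) h1, m10_ip rfl, mul_one]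

/-- The same with a function which does not depend on the seed. -/
theorem m10_seed2 (M : Mac X Y Ob St Bx Jc n) (w : Bx × Fin (T + 1) → X)
    (hP : ∀ θ, ∑ y, M.PP w θ y = 1) (θ : Jc × Bx) (y : Y) (g : (Jc × Bx → Y) → ℝ)
    (hg : ∀ ω a, g (Function.update ω θ a) = g ω) :
    EE (M.PP w) (fun ω => ind (ω θ = y) * g ω) = M.PP w θ y * EE (M.PP w) g := by
  rw [← EE_resample hP θ, ← EE_smul]
  congr 1
  funext ω
  simp only [Function.update_self, hg]
  rw [Finset.sum_eq_single y (fun x _ hx => by rw [m10_in hx, zero_mul, mul_zero])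
    fun h1 => absurd (mem_univ _) h1, m10_ip rfl, one_mul]

theorem m10_num_upd (M : Mac X Y Ob St Bx Jc n) (w : Bx × Fin (T + 1) → X) (h : St)
    (I : Finset (Jc × Bx)) (ω : Jc × Bx → Y) (x x' : X) :
    M.num (Function.update w (M.box h, 0) x') h I ω x = M.num w h I ω x := by
  unfold Mac.num
  simp only [Function.update_idem]

theorem m10_ker_upd (M : Mac X Y Ob St Bx Jc n) (w : Bx × Fin (T + 1) → X) (h : St)
    (I : Finset (Jc × Bx)) (ω : Jc × Bx → Y) (x x' : X) :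
    M.ker (Function.update w (M.box h, 0) x') h I ω x = M.ker w h I ω x := by
  unfold Mac.ker
  simp only [m10_num_upd]

theorem m10_ker_congr (M : Mac X Y Ob St Bx Jc n) (w : Bx × Fin (T + 1) → X) (h : St)
    (I : Finset (Jc × Bx)) (ω ω' : Jc × Bx → Y) (hω : ∀ θ ∈ I, ω θ = ω' θ) (x : X) :
    M.ker w h I ω x = M.ker w h I ω' x := by
  have h1 : ∀ x, M.num w h I ω x = M.num w h I ω' x := by
    intro x
    unfold Mac.num
    congr 2
    refine propext ⟨fun h2 θ hθ => ?_, fun h2 θ hθ => ?_⟩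
    · rw [← hω θ hθ]
      exact h2 θ hθ
    · rw [hω θ hθ]
      exact h2 θ hθ
  unfold Mac.ker
  simp only [h1]

/-- `(1 - l) Ph l` is at most `l`. -/
theorem m10_Ph (M : Mac X Y Ob St Bx Jc n) (l : ℝ) (h0 : 0 ≤ l) (h1 : l ≤ 1)
    (hb : 0 ≤ M.bet) : 0 ≤ M.Ph l ∧ (1 - l) * M.Ph l ≤ l := by
  unfold Mac.Ph
  split_ifs with h
  · have h2 : 0 < 1 - l := by linarith
    refine ⟨neg_nonneg.2 (Real.log_nonpos h2.le (by linarith)), ?_⟩
    have h3 := Real.log_le_sub_one_of_pos (inv_pos.2 h2)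
    rw [Real.log_inv] at h3
    have h4 := mul_le_mul_of_nonneg_left h3 h2.le
    have h5 : (1 - l) * ((1 - l)⁻¹ - 1) = l := by
      rw [mul_sub, mul_inv_cancel₀ h2.ne']
      ring
    rw [h5] at h4
    exact h4
  · have h2 : l = 1 := le_antisymm h1 (not_lt.1 h)
    rw [h2]
    refine ⟨hb, ?_⟩
    norm_num

/-- A witness of the box of `h` avoids `Z`, but the kernel charges `Z`. -/
theorem m10_bayes (h2 : M2Statement) (h5 : M5Statement) (b : ℝ) (M : Mac X Y Ob St Bx Jc n)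
    (hM : MacHyp T M b) (hN : (0 : ℝ) < M.N)
    (hP0 : ∀ (w : Bx × Fin (T + 1) → X) θ y, 0 ≤ M.PP w θ y)
    (hP1 : ∀ (w : Bx × Fin (T + 1) → X) θ, ∑ y, M.PP w θ y = 1)
    (h : St) (I : Finset (Jc × Bx)) (hI : ∀ θ ∈ I, M.dB (M.box h) θ.2 ≤ 1) (Z : Finset X) :
    M.E2 (fun (w : Bx × Fin (T + 1) → X) ω =>
      ind (w (M.box h, 0) ∉ Z) * M.Ph (∑ x ∈ Z, M.ker w h I ω x)) ≤ Z.card / M.N := by
  have k0 : ∀ (w : Bx × Fin (T + 1) → X) ω x, 0 ≤ M.ker w h I ω x := fun w ω =>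
    (h2 X Y Ob St Bx Jc n T b M hM w h I ω).1
  have k1 : ∀ (w : Bx × Fin (T + 1) → X) ω, ∑ x, M.ker w h I ω x ≤ 1 := fun w ω =>
    (h2 X Y Ob St Bx Jc n T b M hM w h I ω).2.1
  have ks : ∀ (w : Bx × Fin (T + 1) → X) ω, ∑ x ∈ Zᶜ, M.ker w h I ω x =
      ∑ x, M.ker w h I ω x - ∑ x ∈ Z, M.ker w h I ω x := by
    intro w ω
    rw [← sum_add_sum_compl Z]
    ring
  have l0 : ∀ (w : Bx × Fin (T + 1) → X) ω, 0 ≤ ∑ x ∈ Z, M.ker w h I ω x := fun w ω =>
    sum_nonneg fun x _ => k0 w ω x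
  have l1 : ∀ (w : Bx × Fin (T + 1) → X) ω, ∑ x ∈ Z, M.ker w h I ω x ≤ 1 := fun w ω =>
    (sum_le_univ_sum_of_nonneg fun x => k0 w ω x).trans (k1 w ω)
  have e1 : (fun (w : Bx × Fin (T + 1) → X) ω =>
      ind (w (M.box h, 0) ∉ Z) * M.Ph (∑ x ∈ Z, M.ker w h I ω x)) =
      fun w ω => ∑ x ∈ Zᶜ, ind (w (M.box h, 0) = x) * M.Ph (∑ x ∈ Z, M.ker w h I ω x) := by
    funext w ω
    rw [← sum_mul, ← m10_ind_sum]
    congr 2
    exact propext Finset.mem_compl.symm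
  have e2 : ∀ x, M.E2 (fun (w : Bx × Fin (T + 1) → X) ω =>
      ind (w (M.box h, 0) = x) * M.Ph (∑ x ∈ Z, M.ker w h I ω x)) =
      M.E2 (fun (w : Bx × Fin (T + 1) → X) ω =>
        M.ker w h I ω x * M.Ph (∑ x ∈ Z, M.ker w h I ω x)) := by
    intro x
    refine h5 X Y Ob St Bx Jc n T b M hM h I x
      (fun w ω => M.Ph (∑ x ∈ Z, M.ker w h I ω x)) hI (fun w x' ω => ?_)
      fun w ω ω' hω => ?_
    · simp only [m10_ker_upd]
    · simp only [m10_ker_congr M w h I ω ω' hω]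
  have e3 : ∀ x, M.E2 (fun (w : Bx × Fin (T + 1) → X) ω => M.ker w h I ω x) = 1 / M.N := by
    intro x
    have f1 := h5 X Y Ob St Bx Jc n T b M hM h I x (fun _ _ => 1) hI (fun _ _ _ => rfl)
      fun _ _ _ _ => rfl
    simp only [mul_one] at f1
    rw [← f1, m10_w M hP1]
    have f2 := m10_wit (T := T) M hN hM.cX (M.box h, 0) {x}
    rw [card_singleton, Nat.cast_one] at f2
    rw [← f2]
    congr 1
    funext w
    congr 1
    exact propext Finset.mem_singleton.symm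
  rw [e1, m10_sum, sum_congr rfl fun x _ => e2 x, ← m10_sum]
  have e4 : M.E2 (fun (w : Bx × Fin (T + 1) → X) ω =>
      ∑ x ∈ Zᶜ, M.ker w h I ω x * M.Ph (∑ x ∈ Z, M.ker w h I ω x)) ≤
      M.E2 (fun (w : Bx × Fin (T + 1) → X) ω => ∑ x ∈ Z, M.ker w h I ω x) := by
    refine m10_mono M hP0 _ _ fun w ω => ?_
    rw [← sum_mul, ks w ω]
    have g1 := m10_Ph M _ (l0 w ω) (l1 w ω) hM.hbet.le
    refine le_trans ?_ g1.2
    refine mul_le_mul_of_nonneg_right ?_ g1.1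
    have := k1 w ω
    linarith
  refine e4.trans (le_of_eq ?_)
  rw [m10_sum, sum_congr rfl fun x _ => e3 x, sum_const, nsmul_eq_mul]
  ring

/-- Many non-neighbours in the kernels around `o` are rare. -/
theorem m10_Fm (h2 : M2Statement) (h5 : M5Statement) (b : ℝ) (M : Mac X Y Ob St Bx Jc n)
    (hM : MacHyp T M b) (hN : (0 : ℝ) < M.N)
    (hP0 : ∀ (w : Bx × Fin (T + 1) → X) θ y, 0 ≤ M.PP w θ y)
    (hP1 : ∀ (w : Bx × Fin (T + 1) → X) θ, ∑ y, M.PP w θ y = 1)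
    (t : Bool) (o : Ob) (Z : Finset X) (hZ : (Z.card : ℝ) ≤ M.c * M.N) :
    M.E2 (fun (w : Bx × Fin (T + 1) → X) ω => ind (M.bet / 2 < M.Fm w Z t o ω)) ≤
      M.Dl * M.c + 2 / M.bet * (n * M.c) := by
  have hb := hM.hbet
  have k0 : ∀ (w : Bx × Fin (T + 1) → X) h I ω x, 0 ≤ M.ker w h I ω x := fun w h I ω =>
    (h2 X Y Ob St Bx Jc n T b M hM w h I ω).1
  have k1 : ∀ (w : Bx × Fin (T + 1) → X) h I ω, ∑ x, M.ker w h I ω x ≤ 1 := fun w h I ω =>
    (h2 X Y Ob St Bx Jc n T b M hM w h I ω).2.1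
  have hPh : ∀ (w : Bx × Fin (T + 1) → X) h I ω, 0 ≤ M.Ph (∑ x ∈ Z, M.ker w h I ω x) :=
    fun w h I ω => (m10_Ph M _ (sum_nonneg fun x _ => k0 w h I ω x)
      ((sum_le_univ_sum_of_nonneg fun x => k0 w h I ω x).trans (k1 w h I ω)) hb.le).1
  set B : Finset Bx := univ.filter (fun σ => M.dB (M.box (M.so o)) σ ≤ 1) with hB
  set R : Fin n → Finset (Jc × Bx) := fun i => (M.vis 0 (M.sb o i)).erase (M.tk t o) with hR
  have hRd : ∀ i, ∀ θ ∈ R i, M.dB (M.box (M.sb o i)) θ.2 ≤ 1 := by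
    intro i θ hθ
    have h3 := mem_of_mem_erase hθ
    unfold Mac.vis at h3
    exact (mem_filter.1 h3).2.2
  have hpt : ∀ (w : Bx × Fin (T + 1) → X) ω, ind (M.bet / 2 < M.Fm w Z t o ω) ≤
      ∑ σ ∈ B, ind (w (σ, 0) ∈ Z) + 2 / M.bet * ∑ i, ind (w (M.box (M.sb o i), 0) ∉ Z) *
        M.Ph (∑ x ∈ Z, M.ker w (M.sb o i) (R i) ω x) := by
    intro w ω
    have s1 : 0 ≤ ∑ σ ∈ B, ind (w (σ, 0) ∈ Z) := sum_nonneg fun σ _ => m10_i0 _
    have s2 : 0 ≤ ∑ i, ind (w (M.box (M.sb o i), 0) ∉ Z) *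
        M.Ph (∑ x ∈ Z, M.ker w (M.sb o i) (R i) ω x) :=
      sum_nonneg fun i _ => mul_nonneg (m10_i0 _) (hPh w _ _ ω)
    have s3 : 0 ≤ 2 / M.bet * ∑ i, ind (w (M.box (M.sb o i), 0) ∉ Z) *
        M.Ph (∑ x ∈ Z, M.ker w (M.sb o i) (R i) ω x) := mul_nonneg (by positivity) s2
    by_cases hF : M.bet / 2 < M.Fm w Z t o ω
    · rw [m10_ip hF]
      by_cases hw : ∃ σ ∈ B, w (σ, 0) ∈ Z
      · obtain ⟨σ, hσ, hσZ⟩ := hw
        have s4 := single_le_sum (f := fun σ => ind (w (σ, 0) ∈ Z)) (fun σ _ => m10_i0 _) hσ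
        rw [m10_ip hσZ] at s4
        linarith
      · push Not at hw
        have s5 : ∑ i, ind (w (M.box (M.sb o i), 0) ∉ Z) *
            M.Ph (∑ x ∈ Z, M.ker w (M.sb o i) (R i) ω x) = M.Fm w Z t o ω := by
          unfold Mac.Fm
          refine sum_congr rfl fun i _ => ?_
          have s6 : M.box (M.sb o i) ∈ B := by
            rw [hB]
            exact mem_filter.2 ⟨mem_univ _, (hM.lip _ _).trans (hM.sosb o i)⟩
          rw [m10_ip (hw _ s6), one_mul]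
        rw [s5]
        have s7 : 1 ≤ 2 / M.bet * M.Fm w Z t o ω := by
          rw [div_mul_eq_mul_div, le_div_iff₀ hb]
          linarith
        linarith
    · rw [m10_in hF]
      linarith
  refine (m10_mono M hP0 _ _ hpt).trans ?_
  rw [m10_add, m10_sum, m10_smul, m10_sum]
  have hZN : (Z.card : ℝ) / M.N ≤ M.c := by
    rw [div_le_iff₀ hN]
    exact hZ
  have a1 : ∑ σ ∈ B, M.E2 (fun (w : Bx × Fin (T + 1) → X) (_ : Jc × Bx → Y) =>
      ind (w (σ, 0) ∈ Z)) ≤ M.Dl * M.c := by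
    have a2 : ∀ σ ∈ B, M.E2 (fun (w : Bx × Fin (T + 1) → X) (_ : Jc × Bx → Y) =>
        ind (w (σ, 0) ∈ Z)) ≤ M.c := by
      intro σ _
      rw [m10_w M hP1, m10_wit M hN hM.cX]
      exact hZN
    refine (sum_le_sum a2).trans ?_
    rw [sum_const, nsmul_eq_mul]
    exact mul_le_mul_of_nonneg_right (by exact_mod_cast hM.nbc _) hM.c0
  have a3 : ∑ i, M.E2 (fun (w : Bx × Fin (T + 1) → X) (ω : Jc × Bx → Y) =>
      ind (w (M.box (M.sb o i), 0) ∉ Z) *
        M.Ph (∑ x ∈ Z, M.ker w (M.sb o i) (R i) ω x)) ≤ n * M.c := by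
    refine (sum_le_sum fun i _ => (m10_bayes h2 h5 b M hM hN hP0 hP1 (M.sb o i) (R i)
      (hRd i) Z).trans hZN).trans ?_
    rw [sum_const, nsmul_eq_mul, card_univ, Fintype.card_fin]
  exact add_le_add a1 (mul_le_mul_of_nonneg_left a3 (by positivity))

/-- The law of a seed. -/
theorem m10_low (h1 : M1Statement) (b : ℝ) (M : Mac X Y Ob St Bx Jc n)
    (hM : MacHyp T M b) (hN : (0 : ℝ) < M.N) (θ : Jc × Bx) (y : Y) :
    (1 - M.dl) / M.N ≤ M.E2 (fun (_ : Bx × Fin (T + 1) → X) ω => ind (ω θ = y)) := by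
  have hP1 : ∀ (w : Bx × Fin (T + 1) → X) θ, ∑ y, M.PP w θ y = 1 := fun w =>
    (h1 X Y Ob St Bx Jc n T b M hM w).2.2.2.1
  have hlo : ∀ (w : Bx × Fin (T + 1) → X) θ y, ind (y ∈ M.Cs w θ.2) ≤ M.PP w θ y * M.N :=
    fun w => (h1 X Y Ob St Bx Jc n T b M hM w).2.2.2.2.2.2.1
  have e1 : M.E2 (fun (_ : Bx × Fin (T + 1) → X) ω => ind (ω θ = y)) =
      EE M.U1 (fun w : Bx × Fin (T + 1) → X => M.PP w θ y) := by
    unfold Mac.E2
    congr 1
    funext w
    exact m10_seed M w (hP1 w) θ y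
  set Z : Finset X := M.nn1 y with hZ
  have hZc : (Z.card : ℝ) ≤ M.c * M.N := hM.dY y
  set B : Finset (Bx × Fin (T + 1)) := (univ.filter (fun σ => M.dB θ.2 σ ≤ 1)) ×ˢ univ with hB
  have hpt : ∀ w : Bx × Fin (T + 1) → X, 1 - ∑ i ∈ B, ind (w i ∈ Z) ≤ M.PP w θ y * M.N := by
    intro w
    refine le_trans ?_ (hlo w θ y)
    by_cases hy : y ∈ M.Cs w θ.2
    · rw [m10_ip hy]
      have : 0 ≤ ∑ i ∈ B, ind (w i ∈ Z) := sum_nonneg fun i _ => m10_i0 _
      linarith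
    · rw [m10_in hy]
      have hy2 : ∃ σ', M.dB θ.2 σ' ≤ 1 ∧ ∃ t, ¬ M.ok (w (σ', t)) y := by
        by_contra hc
        push Not at hc
        refine hy ?_
        unfold Mac.Cs
        exact mem_filter.2 ⟨mem_univ _, hc⟩
      obtain ⟨σ', hσ, t, ht⟩ := hy2
      have g1 : (σ', t) ∈ B := by
        rw [hB, mem_product]
        exact ⟨mem_filter.2 ⟨mem_univ _, hσ⟩, mem_univ _⟩
      have g2 := single_le_sum (f := fun i => ind (w i ∈ Z)) (fun i _ => m10_i0 _) g1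
      have g3 : w (σ', t) ∈ Z := by
        rw [hZ]
        unfold Mac.nn1
        exact mem_filter.2 ⟨mem_univ _, ht⟩
      rw [m10_ip g3] at g2
      linarith
  have e2 := m10_mono1 M _ _ hpt
  have e3 : EE M.U1 (fun w : Bx × Fin (T + 1) → X => 1 - ∑ i ∈ B, ind (w i ∈ Z)) =
      1 - ∑ i ∈ B, (Z.card : ℝ) / M.N := by
    rw [EE_sub, EE_const (m10_U M hN hM.cX), EE_sum]
    congr 1
    exact sum_congr rfl fun i _ => m10_wit M hN hM.cX i Z
  have e4 : EE M.U1 (fun w : Bx × Fin (T + 1) → X => M.PP w θ y * M.N) =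
      M.N * EE M.U1 (fun w : Bx × Fin (T + 1) → X => M.PP w θ y) := by
    rw [← EE_smul]
    congr 1
    funext w
    ring
  rw [e3, e4] at e2
  have e5 : ∑ _i ∈ B, (Z.card : ℝ) / M.N ≤ M.dl := by
    have f1 : (Z.card : ℝ) / M.N ≤ M.c := by
      rw [div_le_iff₀ hN]
      exact hZc
    have f2 : (B.card : ℝ) ≤ M.Dl * ((T : ℝ) + 1) := by
      have h3 : B.card ≤ M.Dl * (T + 1) := by
        rw [hB, Finset.card_product, Finset.card_univ, Fintype.card_fin]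
        exact Nat.mul_le_mul_right _ (hM.nbc θ.2)
      exact_mod_cast h3
    rw [sum_const, nsmul_eq_mul]
    calc (B.card : ℝ) * ((Z.card : ℝ) / M.N) ≤ (M.Dl * ((T : ℝ) + 1)) * M.c :=
          mul_le_mul f2 f1 (by positivity) (by positivity)
      _ = ((T : ℝ) + 1) * M.Dl * M.c := by ring
      _ ≤ M.dl := hM.hdl
  rw [e1, div_le_iff₀ hN, mul_comm]
  linarith

/-- Positions which are not fine are rare. -/
theorem m10_fine (h1 : M1Statement) (h3 : M3Statement) (h6 : M6Statement) (h7 : M7Statement)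
    (b : ℝ) (M : Mac X Y Ob St Bx Jc n)
    (hM : MacHyp T M b) (hN : (0 : ℝ) < M.N) (t : Bool) (y : Y) :
    ∑ o, M.E2 (fun (_ : Bx × Fin (T + 1) → X) ω =>
      M.N * ind (ω (M.tk t o) = y) * ind (¬ M.fine o ω)) ≤ M.N / (n : ℝ) ^ 20 := by
  have hP0 : ∀ (w : Bx × Fin (T + 1) → X) θ y, 0 ≤ M.PP w θ y := fun w =>
    (h1 X Y Ob St Bx Jc n T b M hM w).2.2.1
  have hP1 : ∀ (w : Bx × Fin (T + 1) → X) θ, ∑ y, M.PP w θ y = 1 := fun w =>
    (h1 X Y Ob St Bx Jc n T b M hM w).2.2.2.1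
  have hup : ∀ (w : Bx × Fin (T + 1) → X) θ y, M.PP w θ y * M.N ≤ 101 / 100 :=
    fun w => (h1 X Y Ob St Bx Jc n T b M hM w).2.2.2.2.2.1
  have hΨ : ∀ θ, M.E2 (fun (_ : Bx × Fin (T + 1) → X) ω => M.N * ind (ω θ = y)) ≤ 2 := by
    intro θ
    have e1 : M.E2 (fun (_ : Bx × Fin (T + 1) → X) ω => M.N * ind (ω θ = y)) =
        EE M.U1 (fun w : Bx × Fin (T + 1) → X => M.PP w θ y * M.N) := by
      unfold Mac.E2
      congr 1
      funext w
      rw [EE_smul, m10_seed M w (hP1 w) θ y, mul_comm]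
    rw [e1]
    refine (m10_mono1 M _ (fun _ => 2) fun w => (hup w θ y).trans (by norm_num)).trans
      (le_of_eq ?_)
    exact EE_const (m10_U M hN hM.cX) 2
  have key : ∀ o, M.E2 (fun (_ : Bx × Fin (T + 1) → X) ω =>
      M.N * ind (ω (M.tk t o) = y) * ind (¬ M.fine o ω)) ≤ ∑ i, M.err 0 (M.sb o i) := by
    intro o
    have g1 : ∀ (w : Bx × Fin (T + 1) → X) ω,
        M.N * ind (ω (M.tk t o) = y) * ind (¬ M.fine o ω) ≤
        ∑ i, M.N * ind (ω (M.tk t o) = y) * ind (¬ M.LevLe 0 (M.sb o i) ω) := by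
      intro w ω
      rw [← mul_sum]
      refine mul_le_mul_of_nonneg_left ?_ (mul_nonneg hN.le (m10_i0 _))
      by_cases hf : M.fine o ω
      · rw [m10_in (not_not.2 hf)]
        exact sum_nonneg fun i _ => m10_i0 _
      · rw [m10_ip hf]
        have g2 : ∃ i, ¬ M.LevLe 0 (M.sb o i) ω := by
          by_contra hc
          push Not at hc
          refine hf fun i => ?_
          have g3 := ((h3 X Y Ob St Bx Jc n T b M hM ω).2.1 (M.sb o i) 0).2 (hc i)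
          omega
        obtain ⟨i, hi⟩ := g2
        have g4 := single_le_sum (f := fun i => ind (¬ M.LevLe 0 (M.sb o i) ω))
          (fun i _ => m10_i0 _) (mem_univ i)
        rw [m10_ip hi] at g4
        exact g4
    refine (m10_mono M hP0 _ _ g1).trans ?_
    rw [m10_sum]
    refine sum_le_sum fun i _ => ?_
    exact (h7 X Y Ob St Bx Jc n T b M hM).1 (fun _ ω => M.N * ind (ω (M.tk t o) = y))
      (fun _ _ => mul_nonneg hN.le (m10_i0 _)) (hΨ _)
      (fun l h _ hg => (h6 X Y Ob St Bx Jc n T b M hM l h hg).2.2 (M.tk t o) y) 0 (M.sb o i)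
  refine (sum_le_sum fun o _ => key o).trans ?_
  rw [sum_comm]
  have hS : (0 : ℝ) < Fintype.card St := by exact_mod_cast hM.cS
  have g5 : ∀ i, ∑ o, M.err 0 (M.sb o i) = (M.N : ℝ) / Fintype.card St * ∑ h, M.err 0 h := by
    intro i
    have g6 : ∑ o, M.err 0 (M.sb o i) = ∑ h, ∑ o ∈ univ.filter (fun o => M.sb o i = h),
        M.err 0 h := by
      rw [← sum_fiberwise univ (fun o => M.sb o i)]
      refine sum_congr rfl fun h _ => sum_congr rfl fun o ho => ?_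
      rw [(mem_filter.1 ho).2]
    rw [g6, mul_sum]
    refine sum_congr rfl fun h _ => ?_
    rw [sum_const, nsmul_eq_mul]
    congr 1
    rw [eq_div_iff hS.ne']
    exact_mod_cast hM.reg i h
  rw [sum_congr rfl fun i _ => g5 i, sum_const, nsmul_eq_mul, card_univ, Fintype.card_fin]
  have g7 := (h7 X Y Ob St Bx Jc n T b M hM).2 0 (Nat.zero_le _)
  have hn : (1000 : ℝ) ≤ n := by exact_mod_cast hM.hn
  have hn0 : (0 : ℝ) < n := by linarith
  have g8 : Real.exp (-((M.μ 0 : ℝ) / 16)) ≤ 1 := Real.exp_le_one_iff.2 (by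
    have : (0 : ℝ) ≤ M.μ 0 := Nat.cast_nonneg _
    linarith)
  have g9 : ∑ h, M.err 0 h ≤ Fintype.card St * (1 / (n : ℝ) ^ 30) :=
    g7.trans (mul_le_mul_of_nonneg_left (div_le_div_of_nonneg_right g8 (by positivity)) hS.le)
  calc (n : ℝ) * ((M.N : ℝ) / Fintype.card St * ∑ h, M.err 0 h)
      ≤ n * ((M.N : ℝ) / Fintype.card St * (Fintype.card St * (1 / (n : ℝ) ^ 30))) :=
        mul_le_mul_of_nonneg_left (mul_le_mul_of_nonneg_left g9 (by positivity)) hn0.le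
    _ = M.N * (n * (1 / (n : ℝ) ^ 30)) := by
        field_simp
    _ ≤ M.N * (1 / (n : ℝ) ^ 20) := by
        refine mul_le_mul_of_nonneg_left ?_ hN.le
        rw [mul_one_div, div_le_div_iff₀ (by positivity) (by positivity), one_mul]
        calc (n : ℝ) * (n : ℝ) ^ 20 = (n : ℝ) ^ 21 := by ring
          _ ≤ (n : ℝ) ^ 30 := pow_le_pow_right₀ (by linarith) (by norm_num)
    _ = M.N / (n : ℝ) ^ 20 := by ring

end

/-- Row M10. -/
theorem m10 (h1 : M1Statement) (h2 : M2Statement) (h3 : M3Statement) (h5 : M5Statement)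
    (h6 : M6Statement) (h7 : M7Statement) : M10Statement := by
  intro X Y Ob St Bx Jc _ _ _ _ _ _ _ _ _ _ _ _ n T b M hM t y
  have hN : (0 : ℝ) < M.N := by
    rw [← hM.cY]
    exact_mod_cast Fintype.card_pos_iff.2 ⟨y⟩
  have hP0 : ∀ (w : Bx × Fin (T + 1) → X) θ y, 0 ≤ M.PP w θ y := fun w =>
    (h1 X Y Ob St Bx Jc n T b M hM w).2.2.1
  have hP1 : ∀ (w : Bx × Fin (T + 1) → X) θ, ∑ y, M.PP w θ y = 1 := fun w =>
    (h1 X Y Ob St Bx Jc n T b M hM w).2.2.2.1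
  have hup : ∀ (w : Bx × Fin (T + 1) → X) θ y, M.PP w θ y * M.N ≤ 101 / 100 :=
    fun w => (h1 X Y Ob St Bx Jc n T b M hM w).2.2.2.2.2.1
  have hb := hM.hbet
  have hn : (1000 : ℝ) ≤ n := by exact_mod_cast hM.hn
  have hn0 : (0 : ℝ) < n := by linarith
  have hT : (3 : ℝ) ≤ T := by exact_mod_cast hM.hT
  -- the numbers
  have c1 : (M.Dl : ℝ) * M.c ≤ 1 / 4000 := by
    have c2 := hM.hdl.trans hM.hdl1
    have c3 : 0 ≤ (M.Dl : ℝ) * M.c := mul_nonneg (Nat.cast_nonneg _) hM.c0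
    have c4 : ((T : ℝ) + 1) * (M.Dl * M.c) ≤ 1 / 1000 := by
      rw [← mul_assoc]
      exact c2
    nlinarith
  have c5 : 2 / M.bet * (n * M.c) ≤ 1 / 200 := by
    rw [div_mul_eq_mul_div, div_le_iff₀ hb]
    have := hM.hcb
    linarith
  -- the part with many non-neighbours
  have key : ∀ o, M.E2 (fun (w : Bx × Fin (T + 1) → X) ω => ind (ω (M.tk t o) = y) *
      ind (M.bet / 2 < M.Fm w (M.nn1 y) t o ω)) ≤ 101 / 100 / M.N * (1 / 4000 + 1 / 200) := by
    intro o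
    have g0 : ∀ (w : Bx × Fin (T + 1) → X) (ω : Jc × Bx → Y) a,
        M.Fm w (M.nn1 y) t o (Function.update ω (M.tk t o) a) = M.Fm w (M.nn1 y) t o ω := by
      intro w ω a
      unfold Mac.Fm
      refine sum_congr rfl fun i _ => ?_
      congr 1
      refine sum_congr rfl fun x _ => m10_ker_congr M w _ _ _ _ (fun θ hθ => ?_) x
      exact Function.update_of_ne (ne_of_mem_erase hθ) _ _
    have g1 : M.E2 (fun (w : Bx × Fin (T + 1) → X) ω => ind (ω (M.tk t o) = y) *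
        ind (M.bet / 2 < M.Fm w (M.nn1 y) t o ω)) ≤
        101 / 100 / M.N * M.E2 (fun (w : Bx × Fin (T + 1) → X) ω =>
          ind (M.bet / 2 < M.Fm w (M.nn1 y) t o ω)) := by
      rw [← m10_smul]
      unfold Mac.E2
      refine m10_mono1 M _ _ fun w => ?_
      rw [m10_seed2 M w (hP1 w) (M.tk t o) y (fun ω => ind (M.bet / 2 < M.Fm w (M.nn1 y) t o ω))
        (fun ω a => by simp only [g0]), EE_smul]
      refine mul_le_mul_of_nonneg_right ?_ ?_
      · rw [le_div_iff₀ hN]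
        exact hup w _ y
      · have g2 := EE_mono (P := M.PP w) (hP0 w) (f := fun _ => (0 : ℝ))
          (g := fun ω => ind (M.bet / 2 < M.Fm w (M.nn1 y) t o ω)) fun ω _ => m10_i0 _
        rwa [EE_const (hP1 w)] at g2
    refine g1.trans (mul_le_mul_of_nonneg_left ?_ (by positivity))
    have g3 := m10_Fm h2 h5 b M hM hN hP0 hP1 t o (M.nn1 y) (hM.dY y)
    linarith
  -- pointwise
  have hpt : ∀ o, M.E2 (fun (_ : Bx × Fin (T + 1) → X) ω => ind (ω (M.tk t o) = y)) -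
      1 / M.N * M.E2 (fun (_ : Bx × Fin (T + 1) → X) ω =>
        M.N * ind (ω (M.tk t o) = y) * ind (¬ M.fine o ω)) -
      M.E2 (fun (w : Bx × Fin (T + 1) → X) ω => ind (ω (M.tk t o) = y) *
        ind (M.bet / 2 < M.Fm w (M.nn1 y) t o ω)) ≤
      M.E2 (fun (w : Bx × Fin (T + 1) → X) ω => ind (ω (M.tk t o) = y ∧ M.evt w t o ω)) := by
    intro o
    rw [← m10_smul, ← m10_sub, ← m10_sub]
    refine m10_mono M hP0 _ _ fun w ω => ?_
    have e1 : 1 / (M.N : ℝ) * (M.N * ind (ω (M.tk t o) = y) * ind (¬ M.fine o ω)) =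
        ind (ω (M.tk t o) = y) * ind (¬ M.fine o ω) := by
      field_simp
    rw [e1]
    by_cases hy : ω (M.tk t o) = y
    · rw [m10_ip hy]
      by_cases hf : M.fine o ω
      · rw [m10_in (not_not.2 hf)]
        by_cases hF : M.bet / 2 < M.Fm w (M.nn1 y) t o ω
        · rw [m10_ip hF]
          have := m10_i0 (ω (M.tk t o) = y ∧ M.evt w t o ω)
          linarith
        · rw [m10_in hF]
          have e2 : ω (M.tk t o) = y ∧ M.evt w t o ω := by
            refine ⟨hy, hf, ?_⟩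
            rw [hy]
            exact not_lt.1 hF
          rw [m10_ip e2]
          norm_num
      · rw [m10_ip hf]
        have := m10_i0 (ω (M.tk t o) = y ∧ M.evt w t o ω)
        have := m10_i0 (M.bet / 2 < M.Fm w (M.nn1 y) t o ω)
        linarith
    · rw [m10_in hy]
      have := m10_i0 (ω (M.tk t o) = y ∧ M.evt w t o ω)
      linarith
  rw [m10_sum]
  refine le_trans ?_ (sum_le_sum fun o _ => hpt o)
  rw [sum_sub_distrib, sum_sub_distrib, ← mul_sum]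
  have s1 : (1 - M.dl) ≤ ∑ o, M.E2 (fun (_ : Bx × Fin (T + 1) → X) (ω : Jc × Bx → Y) =>
      ind (ω (M.tk t o) = y)) := by
    have s2 : ∑ _o : Ob, (1 - M.dl) / M.N ≤
        ∑ o, M.E2 (fun (_ : Bx × Fin (T + 1) → X) (ω : Jc × Bx → Y) =>
      ind (ω (M.tk t o) = y)) := sum_le_sum fun o _ => m10_low h1 b M hM hN (M.tk t o) y
    rw [sum_const, nsmul_eq_mul, card_univ, hM.cO, mul_div_cancel₀ _ hN.ne'] at s2
    exact s2
  have s3 : 1 / (M.N : ℝ) * ∑ o, M.E2 (fun (_ : Bx × Fin (T + 1) → X) (ω : Jc × Bx → Y) =>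
      M.N * ind (ω (M.tk t o) = y) * ind (¬ M.fine o ω)) ≤ 1 / 1000 := by
    refine (mul_le_mul_of_nonneg_left (m10_fine h1 h3 h6 h7 b M hM hN t y)
      (by positivity)).trans ?_
    have s4 : 1 / (M.N : ℝ) * (M.N / (n : ℝ) ^ 20) = 1 / (n : ℝ) ^ 20 := by
      field_simp
    rw [s4]
    refine one_div_le_one_div_of_le (by norm_num) ?_
    calc (1000 : ℝ) ≤ n := hn
      _ = (n : ℝ) ^ 1 := (pow_one _).symm
      _ ≤ (n : ℝ) ^ 20 := pow_le_pow_right₀ (by linarith) (by norm_num)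
  have s5 : ∑ o, M.E2 (fun (w : Bx × Fin (T + 1) → X) (ω : Jc × Bx → Y) =>
      ind (ω (M.tk t o) = y) * ind (M.bet / 2 < M.Fm w (M.nn1 y) t o ω)) ≤
      101 / 100 * (1 / 4000 + 1 / 200) := by
    refine (sum_le_sum fun o _ => key o).trans (le_of_eq ?_)
    rw [sum_const, nsmul_eq_mul, card_univ, hM.cO]
    field_simp
  have s6 := hM.hdl1
  linarith

end Pool.Agent.FQ
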