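import Pool.Agent.FQ.MDefs

/-!
# Project FQ, row M11: bounded differences for local statistics of the witnesses
-/

set_option autoImplicit false

namespace Pool.Agent.FQ

open Finset Classical
open Pool.Agent.H73.Cube (EE Loc)

theorem m11_fiber {A St : Type} [Fintype A] [Fintype St] [DecidableEq St] (site : A → St)
    (p : St → Prop) [DecidablePred p] : (univ.filter fun a => p (site a)).card =
      ∑ h ∈ univ.filter p, (univ.filter fun a => site a = h).card := by
  rw [Finset.card_eq_sum_card_fiberwise (f := site) (t := univ.filter p)]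
  · refine Finset.sum_congr rfl fun h hh => ?_
    rw [Finset.filter_filter]
    have h1 : p h := (Finset.mem_filter.1 hh).2
    congr 1
    ext a
    rw [Finset.mem_filter, Finset.mem_filter]
    constructor
    · rintro ⟨h2, h3, h4⟩
      exact ⟨h2, h4⟩
    · rintro ⟨h2, h3⟩
      refine ⟨h2, ?_, h3⟩
      rw [h3]
      exact h1
  · intro a ha
    have ha2 := (Finset.mem_filter.1 (Finset.mem_coe.1 ha)).2
    exact Finset.mem_coe.2 (Finset.mem_filter.2 ⟨Finset.mem_univ _, ha2⟩)

theorem m11 : M11Statement := by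
  intro X Y Ob St Bx Jc _ _ _ _ _ _ _ _ _ _ _ _ n T b M H A _ site m hm f C hf0 hfC hloc
  have hS : (0 : ℝ) < Fintype.card St := by exact_mod_cast H.cS
  have hS' : 0 < Fintype.card St := H.cS
  -- the number of elements of `A`
  have hA : Fintype.card A = m := by
    have h1 : Fintype.card A = ∑ h, (univ.filter fun a => site a = h).card := by
      rw [← Finset.card_univ]
      exact Finset.card_eq_sum_card_fiberwise (f := site) (t := univ)
        fun a _ => Finset.mem_coe.2 (Finset.mem_univ _)
    have h4 : Fintype.card A * Fintype.card St = Fintype.card St * m := by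
      rw [h1, Finset.sum_mul, Finset.sum_congr rfl fun h _ => hm h, Finset.sum_const,
        Finset.card_univ, smul_eq_mul]
    rw [mul_comm (Fintype.card St) m] at h4
    exact Nat.eq_of_mul_eq_mul_right hS' h4
  set k : Bx → ℕ := fun σ =>
    (univ.filter fun a => M.dB (M.box (site a)) σ ≤ 2 * M.L + 10).card with hk
  have hn : (0 : ℝ) < n := by
    have : 0 < n := by have := H.hn; omega
    exact_mod_cast this
  have hk1 : ∀ σ, (k σ : ℝ) * (n : ℝ) ^ 40 ≤ m := by
    intro σ
    have h1 := m11_fiber site (fun h => M.dB (M.box h) σ ≤ 2 * M.L + 10)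
    have h2 : k σ * Fintype.card St =
        (univ.filter fun h => M.dB (M.box h) σ ≤ 2 * M.L + 10).card * m := by
      rw [hk]
      simp only
      rw [h1, Finset.sum_mul, Finset.sum_congr rfl fun h _ => hm h, Finset.sum_const, smul_eq_mul]
    have h3 := H.bxm σ
    have h4 : (k σ : ℝ) * Fintype.card St =
        ((univ.filter fun h => M.dB (M.box h) σ ≤ 2 * M.L + 10).card : ℝ) * m := by
      exact_mod_cast h2
    have h5 : ((k σ : ℝ) * (n : ℝ) ^ 40) * Fintype.card St ≤ m * Fintype.card St := by
      calc ((k σ : ℝ) * (n : ℝ) ^ 40) * Fintype.card St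
          = (k σ : ℝ) * Fintype.card St * (n : ℝ) ^ 40 := by ring
        _ = ((univ.filter fun h => M.dB (M.box h) σ ≤ 2 * M.L + 10).card : ℝ) * (n : ℝ) ^ 40 *
            m := by rw [h4]; ring
        _ ≤ Fintype.card St * m := mul_le_mul_of_nonneg_right h3 (Nat.cast_nonneg _)
        _ = m * Fintype.card St := mul_comm _ _
    exact le_of_mul_le_mul_right h5 hS
  have hk2 : ∑ σ, k σ ≤ m * n := by
    have h1 : ∑ σ, k σ = ∑ a, (univ.filter fun σ => M.dB (M.box (site a)) σ ≤ 2 * M.L + 10).card := by
      rw [hk]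
      simp only [Finset.card_filter]
      exact Finset.sum_comm
    rw [h1]
    calc ∑ a, (univ.filter fun σ => M.dB (M.box (site a)) σ ≤ 2 * M.L + 10).card
        ≤ ∑ _a : A, n := Finset.sum_le_sum fun a _ => H.bxc _
      _ = m * n := by rw [Finset.sum_const, Finset.card_univ, hA, smul_eq_mul]
  refine ⟨fun i => |C| * k i.1, fun i => mul_nonneg (abs_nonneg _) (Nat.cast_nonneg _), ?_, ?_⟩
  · intro i w x
    rw [← Finset.sum_sub_distrib]
    refine (Finset.abs_sum_le_sum_abs _ _).trans ?_
    have h1 : ∀ a ∈ (univ : Finset A), |f a (Function.update w i x) - f a w| ≤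
        if M.dB (M.box (site a)) i.1 ≤ 2 * M.L + 10 then |C| else 0 := by
      intro a _
      by_cases h : M.dB (M.box (site a)) i.1 ≤ 2 * M.L + 10
      · rw [if_pos h, abs_le]
        have h2 := hf0 a w
        have h3 := hfC a w
        have h4 := hf0 a (Function.update w i x)
        have h5 := hfC a (Function.update w i x)
        have h6 := le_abs_self C
        constructor <;> linarith
      · rw [if_neg h]
        have h2 : f a (Function.update w i x) = f a w := by
          refine hloc a _ _ fun σ t hσ => ?_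
          refine Function.update_of_ne ?_ _ _
          rintro rfl
          exact h hσ
        rw [h2, sub_self, abs_zero]
    refine (Finset.sum_le_sum h1).trans (le_of_eq ?_)
    rw [← Finset.sum_filter, Finset.sum_const, nsmul_eq_mul, mul_comm]
  · have h1 : ∑ i : Bx × Fin (T + 1), (|C| * (k i.1 : ℝ)) ^ 2 =
        C ^ 2 * (((T : ℝ) + 1) * ∑ σ, (k σ : ℝ) ^ 2) := by
      rw [Fintype.sum_prod_type]
      have h2 : ∀ σ : Bx, ∑ _t : Fin (T + 1), (|C| * (k σ : ℝ)) ^ 2 =
          C ^ 2 * ((T : ℝ) + 1) * (k σ : ℝ) ^ 2 := by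
        intro σ
        rw [Finset.sum_const, Finset.card_univ, Fintype.card_fin, nsmul_eq_mul, mul_pow, sq_abs]
        push_cast
        ring
      rw [Finset.sum_congr rfl fun σ _ => h2 σ, ← Finset.mul_sum]
      ring
    have h3 : ∑ σ, (k σ : ℝ) ^ 2 ≤ m / (n : ℝ) ^ 40 * (m * n) := by
      calc ∑ σ, (k σ : ℝ) ^ 2 ≤ ∑ σ, m / (n : ℝ) ^ 40 * (k σ : ℝ) := by
            refine Finset.sum_le_sum fun σ _ => ?_
            rw [sq]
            refine mul_le_mul_of_nonneg_right ?_ (Nat.cast_nonneg _)
            rw [le_div_iff₀ (by positivity)]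
            exact hk1 σ
        _ = m / (n : ℝ) ^ 40 * ∑ σ, (k σ : ℝ) := by rw [Finset.mul_sum]
        _ ≤ m / (n : ℝ) ^ 40 * (m * n) := by
            refine mul_le_mul_of_nonneg_left ?_ (by positivity)
            exact_mod_cast hk2
    have h4 : (T : ℝ) + 1 ≤ n := by exact_mod_cast H.hTn
    show ∑ i : Bx × Fin (T + 1), (|C| * (k i.1 : ℝ)) ^ 2 ≤ _
    rw [h1]
    calc C ^ 2 * (((T : ℝ) + 1) * ∑ σ, (k σ : ℝ) ^ 2)
        ≤ C ^ 2 * (n * (m / (n : ℝ) ^ 40 * (m * n))) := by
          refine mul_le_mul_of_nonneg_left ?_ (sq_nonneg _)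
          exact mul_le_mul h4 h3 (Finset.sum_nonneg fun _ _ => sq_nonneg _) hn.le
      _ = C ^ 2 * (m : ℝ) ^ 2 / (n : ℝ) ^ 38 := by
          have : (n : ℝ) ≠ 0 := hn.ne'
          field_simp

end Pool.Agent.FQ
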