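import Pool.Agent.FQ.MDefs

/-!
# Project FQ, row M12: the statistics are local

See note 5216 on MP_a55b9e_co, part I.
-/

set_option autoImplicit false
set_option linter.unusedSectionVars false

namespace Pool.Agent.FQ

open Finset Classical
open Pool.Agent.H73.Cube (EE Loc)

section

variable {X Y Ob St Bx Jc : Type} [Fintype X] [Fintype Y] [Fintype Ob] [Fintype St] [Fintype Bx]
  [Fintype Jc] [DecidableEq X] [DecidableEq Y] [DecidableEq Ob] [DecidableEq St]
  [DecidableEq Bx] [DecidableEq Jc] {n T : ℕ} (M : Mac X Y Ob St Bx Jc n)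

theorem m12_Cs {w w' : Bx × Fin (T + 1) → X} {σ : Bx}
    (h : ∀ σ' t, M.dB σ σ' ≤ 1 → w (σ', t) = w' (σ', t)) : M.Cs w σ = M.Cs w' σ := by
  unfold Mac.Cs
  ext y
  simp only [Finset.mem_filter, Finset.mem_univ, true_and]
  constructor
  · intro h1 σ' hσ t
    rw [← h σ' t hσ]
    exact h1 σ' hσ t
  · intro h1 σ' hσ t
    rw [h σ' t hσ]
    exact h1 σ' hσ t

theorem m12_PP {w w' : Bx × Fin (T + 1) → X} {θ : Jc × Bx}
    (h : ∀ σ' t, M.dB θ.2 σ' ≤ 1 → w (σ', t) = w' (σ', t)) (y : Y) :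
    M.PP w θ y = M.PP w' θ y := by
  unfold Mac.PP
  rw [m12_Cs M h]

theorem m12_num (htri : ∀ σ σ' σ'', M.dB σ σ'' ≤ M.dB σ σ' + M.dB σ' σ'')
    {w w' : Bx × Fin (T + 1) → X} {h : St} {I : Finset (Jc × Bx)}
    (hI : ∀ θ ∈ I, M.dB (M.box h) θ.2 ≤ 1)
    (hw : ∀ σ' t, M.dB (M.box h) σ' ≤ 2 → w (σ', t) = w' (σ', t)) (ω : Jc × Bx → Y) (x : X) :
    M.num w h I ω x = M.num w' h I ω x := by
  unfold Mac.num
  congr 1
  refine Finset.prod_congr rfl fun θ hθ => ?_
  have h1 : M.Cs (Function.update w (M.box h, 0) x) θ.2 =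
      M.Cs (Function.update w' (M.box h, 0) x) θ.2 := by
    refine m12_Cs M fun σ' t hσ => ?_
    by_cases hb : (σ', t) = (M.box h, 0)
    · rw [hb, Function.update_self, Function.update_self]
    · rw [Function.update_of_ne hb, Function.update_of_ne hb]
      refine hw σ' t ?_
      have h2 := htri (M.box h) θ.2 σ'
      have h3 := hI θ hθ
      omega
  rw [h1]

theorem m12_ker (htri : ∀ σ σ' σ'', M.dB σ σ'' ≤ M.dB σ σ' + M.dB σ' σ'')
    {w w' : Bx × Fin (T + 1) → X} {h : St} {I : Finset (Jc × Bx)}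
    (hI : ∀ θ ∈ I, M.dB (M.box h) θ.2 ≤ 1)
    (hw : ∀ σ' t, M.dB (M.box h) σ' ≤ 2 → w (σ', t) = w' (σ', t)) (ω : Jc × Bx → Y) (x : X) :
    M.ker w h I ω x = M.ker w' h I ω x := by
  unfold Mac.ker
  rw [m12_num M htri hI hw ω x, Finset.sum_congr rfl fun x' _ => m12_num M htri hI hw ω x']

theorem m12_num_om (w : Bx × Fin (T + 1) → X) (h : St) (I : Finset (Jc × Bx))
    {ω ω' : Jc × Bx → Y} (hω : ∀ θ ∈ I, ω θ = ω' θ) (x : X) :
    M.num w h I ω x = M.num w h I ω' x := by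
  unfold Mac.num
  have h1 : (∀ θ ∈ I, M.ok x (ω θ)) = (∀ θ ∈ I, M.ok x (ω' θ)) := by
    refine propext ⟨fun h1 θ hθ => ?_, fun h1 θ hθ => ?_⟩
    · rw [← hω θ hθ]
      exact h1 θ hθ
    · rw [hω θ hθ]
      exact h1 θ hθ
  simp only [h1]

theorem m12_ker_om (w : Bx × Fin (T + 1) → X) (h : St) (I : Finset (Jc × Bx))
    {ω ω' : Jc × Bx → Y} (hω : ∀ θ ∈ I, ω θ = ω' θ) (x : X) :
    M.ker w h I ω x = M.ker w h I ω' x := by
  unfold Mac.ker
  rw [m12_num_om M w h I hω x, Finset.sum_congr rfl fun x' _ => m12_num_om M w h I hω x']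

theorem m12_vis {h : St} {θ : Jc × Bx} {l : ℕ} (hθ : θ ∈ M.vis l h) :
    M.dB (M.box h) θ.2 ≤ 1 := by
  unfold Mac.vis at hθ
  exact (Finset.mem_filter.1 hθ).2.2

end

/-- Row M12. -/
theorem m12 (h1 : M1Statement) (h3 : M3Statement) (hC : CongrStatement) : M12Statement := by
  intro X Y Ob St Bx Jc _ _ _ _ _ _ _ _ _ _ _ _ n T b M hM
  have hsum : ∀ (w : Bx × Fin (T + 1) → X) (θ : Jc × Bx), ∑ y, M.PP w θ y = 1 := fun w =>
    (h1 X Y Ob St Bx Jc n T b M hM w).2.2.2.1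
  have hlev : ∀ (h : St) (ω ω' : Jc × Bx → Y),
      (∀ θ : Jc × Bx, M.dB (M.box h) θ.2 ≤ 2 * M.L + 2 → ω θ = ω' θ) → M.lev h ω = M.lev h ω' :=
    fun h ω ω' => (h3 X Y Ob St Bx Jc n T b M hM ω).2.2.2.2.2.2 h ω'
  have htri := hM.dBtri
  -- near the odd position
  have hnear : ∀ o i σ, M.dB (M.box (M.so o)) σ ≤ M.dB (M.box (M.sb o i)) σ + 1 := by
    intro o i σ
    have k1 := htri (M.box (M.so o)) (M.box (M.sb o i)) σ
    have k2 := hM.lip (M.so o) (M.sb o i)
    have k3 := hM.sosb o i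
    omega
  have hfine : ∀ (o : Ob) (ω ω' : Jc × Bx → Y),
      (∀ θ : Jc × Bx, M.dB (M.box (M.so o)) θ.2 ≤ 2 * M.L + 3 → ω θ = ω' θ) →
      (M.fine o ω = M.fine o ω') := by
    intro o ω ω' hω
    unfold Mac.fine
    have k1 : ∀ i, M.lev (M.sb o i) ω = M.lev (M.sb o i) ω' := fun i =>
      hlev (M.sb o i) ω ω' fun θ hθ => hω θ (by have := hnear o i θ.2; omega)
    simp only [k1]
  refine ⟨fun h x w w' hw => ?_, fun o Z w w' hw => ?_, fun t o y w w' hw => ?_⟩
  · refine hC (Jc × Bx) Y (M.PP w) (M.PP w') (fun θ => M.dB (M.box h) θ.2 ≤ 2 * M.L + 2)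
      (fun ω => ind (M.lev h ω = 0) * (M.ker w h (M.vis 0 h) ω x * M.N))
      (fun ω => ind (M.lev h ω = 0) * (M.ker w' h (M.vis 0 h) ω x * M.N))
      (hsum w) (hsum w') ?_ ?_ ?_
    · intro θ hθ y
      refine m12_PP M (fun σ' t hσ => hw σ' t ?_) y
      have := htri (M.box h) θ.2 σ'
      omega
    · intro ω
      show ind (M.lev h ω = 0) * (M.ker w h (M.vis 0 h) ω x * M.N) =
        ind (M.lev h ω = 0) * (M.ker w' h (M.vis 0 h) ω x * M.N)
      rw [m12_ker M htri (fun θ hθ => m12_vis M hθ) (fun σ' t hσ => hw σ' t (by omega)) ω x]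
    · intro ω ω' hω
      show ind (M.lev h ω = 0) * (M.ker w h (M.vis 0 h) ω x * M.N) =
        ind (M.lev h ω' = 0) * (M.ker w h (M.vis 0 h) ω' x * M.N)
      rw [hlev h ω ω' hω, m12_ker_om M w h (M.vis 0 h) (ω := ω) (ω' := ω')
        (fun θ hθ => hω θ (by have := m12_vis M hθ; omega)) x]
  · refine hC (Jc × Bx) Y (M.PP w) (M.PP w')
      (fun θ => M.dB (M.box (M.so o)) θ.2 ≤ 2 * M.L + 3)
      (fun ω => ind (M.fine o ω ∧ M.Fs w Z o ω ≤ M.bet / 2))
      (fun ω => ind (M.fine o ω ∧ M.Fs w' Z o ω ≤ M.bet / 2))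
      (hsum w) (hsum w') ?_ ?_ ?_
    · intro θ hθ y
      refine m12_PP M (fun σ' t hσ => hw σ' t ?_) y
      have := htri (M.box (M.so o)) θ.2 σ'
      omega
    · intro ω
      have k1 : M.Fs w Z o ω = M.Fs w' Z o ω := by
        unfold Mac.Fs
        refine Finset.sum_congr rfl fun i _ => ?_
        congr 1
        refine Finset.sum_congr rfl fun x _ => ?_
        exact m12_ker M htri (fun θ hθ => m12_vis M hθ)
          (fun σ' t hσ => hw σ' t (by have := hnear o i σ'; omega)) ω x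
      show ind (M.fine o ω ∧ M.Fs w Z o ω ≤ M.bet / 2) =
        ind (M.fine o ω ∧ M.Fs w' Z o ω ≤ M.bet / 2)
      rw [k1]
    · intro ω ω' hω
      have k1 : M.Fs w Z o ω = M.Fs w Z o ω' := by
        unfold Mac.Fs
        refine Finset.sum_congr rfl fun i _ => ?_
        congr 1
        refine Finset.sum_congr rfl fun x _ => ?_
        exact m12_ker_om M w (M.sb o i) _ (fun θ hθ => hω θ (by
          have k2 := m12_vis M hθ
          have k3 := hnear o i θ.2
          omega)) x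
      show ind (M.fine o ω ∧ M.Fs w Z o ω ≤ M.bet / 2) =
        ind (M.fine o ω' ∧ M.Fs w Z o ω' ≤ M.bet / 2)
      rw [k1, hfine o ω ω' hω]
  · refine hC (Jc × Bx) Y (M.PP w) (M.PP w')
      (fun θ => M.dB (M.box (M.so o)) θ.2 ≤ 2 * M.L + 3)
      (fun ω => ind (ω (M.tk t o) = y ∧ M.evt w t o ω))
      (fun ω => ind (ω (M.tk t o) = y ∧ M.evt w' t o ω))
      (hsum w) (hsum w') ?_ ?_ ?_
    · intro θ hθ y'
      refine m12_PP M (fun σ' s hσ => hw σ' s ?_) y'
      have := htri (M.box (M.so o)) θ.2 σ'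
      omega
    · intro ω
      have k1 : ∀ Z, M.Fm w Z t o ω = M.Fm w' Z t o ω := by
        intro Z
        unfold Mac.Fm
        refine Finset.sum_congr rfl fun i _ => ?_
        congr 1
        refine Finset.sum_congr rfl fun x _ => ?_
        exact m12_ker M htri (fun θ hθ => m12_vis M (Finset.mem_of_mem_erase hθ))
          (fun σ' s hσ => hw σ' s (by have := hnear o i σ'; omega)) ω x
      have k2 : M.evt w t o ω = M.evt w' t o ω := by
        unfold Mac.evt
        rw [k1]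
      show ind (ω (M.tk t o) = y ∧ M.evt w t o ω) = ind (ω (M.tk t o) = y ∧ M.evt w' t o ω)
      rw [k2]
    · intro ω ω' hω
      have k0 : ω (M.tk t o) = ω' (M.tk t o) := by
        refine hω (M.tk t o) ?_
        show M.dB (M.box (M.so o)) (M.box (M.so o)) ≤ 2 * M.L + 3
        rw [hM.dBself]
        omega
      have k1 : ∀ Z, M.Fm w Z t o ω = M.Fm w Z t o ω' := by
        intro Z
        unfold Mac.Fm
        refine Finset.sum_congr rfl fun i _ => ?_
        congr 1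
        refine Finset.sum_congr rfl fun x _ => ?_
        exact m12_ker_om M w (M.sb o i) _ (fun θ hθ => hω θ (by
          have k2 := m12_vis M (Finset.mem_of_mem_erase hθ)
          have k3 := hnear o i θ.2
          omega)) x
      have k2 : M.evt w t o ω = M.evt w t o ω' := by
        unfold Mac.evt
        rw [k0, k1, hfine o ω ω' hω]
      show ind (ω (M.tk t o) = y ∧ M.evt w t o ω) = ind (ω' (M.tk t o) = y ∧ M.evt w t o ω')
      rw [k0, k2]

end Pool.Agent.FQ
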