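import Pool.Agent.FQ.MDefs

/-!
# Project FQ, row M13: good witnesses exist
-/

set_option autoImplicit false
set_option linter.unusedSectionVars false

namespace Pool.Agent.FQ

open Finset Classical
open Pool.Agent.H73.Cube (EE Loc exists_good EE_mono EE_nonneg EE_sum EE_const EE_smul EE_marginal)

theorem m13_ind_nonneg (p : Prop) : 0 ≤ ind p := by
  unfold ind
  split_ifs <;> norm_num

theorem m13_ind_le (p : Prop) : ind p ≤ 1 := by
  unfold ind
  split_ifs <;> norm_num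

theorem m13_ind_mono {p q : Prop} (h : p → q) : ind p ≤ ind q := by
  unfold ind
  split_ifs with h1 h2 h2
  · exact le_rfl
  · exact absurd (h h1) h2
  · norm_num
  · exact le_rfl

theorem m13_coord {ι α : Type} [Fintype ι] [DecidableEq ι] [Fintype α] {P : ι → α → ℝ}
    (hP1 : ∀ i, ∑ a, P i a = 1) (i : ι) (f : α → ℝ) :
    EE P (fun ω => f (ω i)) = ∑ a, P i a * f a := by
  have h := EE_marginal (P := P) hP1 (fun _ : Fin 1 => i)
    (fun a b _ => Subsingleton.elim a b) (fun v => f (v 0))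
  have h2 : EE P (fun ω => f (ω i)) =
      ∑ v : Fin 1 → α, (∏ j, P i (v j)) * f (v 0) := h
  rw [h2]
  refine Fintype.sum_equiv (Equiv.funUnique (Fin 1) α) _ _ fun v => ?_
  simp [Equiv.funUnique]

/-- A Lipschitz statistic with sum of squares at most `V`. -/
def M13Lip {ι α : Type} [Fintype ι] [DecidableEq ι] (F : (ι → α) → ℝ) (V : ℝ) : Prop :=
  ∃ cc : ι → ℝ, (∀ i, 0 ≤ cc i) ∧ (∀ i w x, |F (Function.update w i x) - F w| ≤ cc i) ∧
    ∑ i, cc i ^ 2 ≤ V

theorem m13_exp (t V e : ℝ) (hV : 0 < V) (h : e * (2 * V) ≤ t ^ 2) :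
    2 * Real.exp (-(t ^ 2 / (2 * V))) ≤ 2 * Real.exp (-e) := by
  have : e ≤ t ^ 2 / (2 * V) := by
    rw [le_div_iff₀ (by positivity)]
    exact h
  have := Real.exp_le_exp.2 (neg_le_neg this)
  linarith

section

variable {X Y Ob St Bx Jc : Type} [Fintype X] [Fintype Y] [Fintype Ob] [Fintype St] [Fintype Bx]
  [Fintype Jc] [DecidableEq X] [DecidableEq Y] [DecidableEq Ob] [DecidableEq St]
  [DecidableEq Bx] [DecidableEq Jc] {n T : ℕ}

theorem m13_mu {b : ℝ} {M : Mac X Y Ob St Bx Jc n} (H : MacHyp T M b) (l : ℕ) :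
    M.a ^ (8 * M.μ l) ≤ Real.exp ((M.μ l : ℝ) / 16) := by
  induction l with
  | zero =>
    refine H.ha0.trans ?_
    have h := H.mun 0
    refine le_trans ?_ h
    have h1 : (1 : ℝ) ≤ (n : ℝ) + 1 := by
      have : (0 : ℝ) ≤ n := Nat.cast_nonneg n
      linarith
    have h2 := le_self_pow₀ h1 (show 2 * 0 + 40 ≠ 0 by norm_num)
    linarith
  | succ l ih =>
    rw [H.mu1 l]
    have e1 : M.a ^ (8 * (2 * M.μ l)) = (M.a ^ (8 * M.μ l)) ^ 2 := by
      rw [← pow_mul]
      congr 1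
      ring
    have e2 : Real.exp (((2 * M.μ l : ℕ) : ℝ) / 16) = Real.exp ((M.μ l : ℝ) / 16) ^ 2 := by
      rw [← Real.exp_nat_mul]
      congr 1
      push_cast
      ring
    rw [e1, e2]
    exact pow_le_pow_left₀ (pow_nonneg (by have := H.ha; linarith) _) ih 2

theorem m13_E2_sum {M : Mac X Y Ob St Bx Jc n} {β : Type} (s : Finset β)
    (f : β → (Bx × Fin (T + 1) → X) → (Jc × Bx → Y) → ℝ) :
    M.E2 (fun w ω => ∑ a ∈ s, f a w ω) = ∑ a ∈ s, M.E2 (f a) := by
  unfold Mac.E2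
  rw [← EE_sum]
  congr 1
  funext w
  exact EE_sum s (fun a => f a w)

theorem m13_E2_smul {M : Mac X Y Ob St Bx Jc n} (c : ℝ)
    (f : (Bx × Fin (T + 1) → X) → (Jc × Bx → Y) → ℝ) :
    M.E2 (fun w ω => f w ω * c) = c * M.E2 f := by
  unfold Mac.E2
  rw [← EE_smul]
  congr 1
  funext w
  rw [← EE_smul]
  congr 1
  funext ω
  ring

theorem m13_lev (h1 : M1Statement) (h6 : M6Statement) (h7 : M7Statement) {b : ℝ}
    {M : Mac X Y Ob St Bx Jc n} (H : MacHyp T M b) (hN : (0 : ℝ) < M.N) (l : ℕ) (h : St) :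
    M.E2 (fun (_ : Bx × Fin (T + 1) → X) ω => ind (¬ M.LevLe l h ω)) ≤ M.err l h := by
  have hU1 : ∀ i : Bx × Fin (T + 1), ∑ x, M.U1 i x = 1 := by
    intro i
    unfold Mac.U1
    rw [sum_const, card_univ, H.cX, nsmul_eq_mul]
    field_simp
  have h' := (h7 X Y Ob St Bx Jc n T b M H).1 (fun _ _ => 1) (fun _ _ => zero_le_one) (by
    unfold Mac.E2
    have : (fun w : Bx × Fin (T + 1) → X => EE (M.PP w) ((fun _ _ => (1 : ℝ)) w)) =
        fun _ => 1 := by
      funext w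
      exact EE_const (h1 X Y Ob St Bx Jc n T b M H w).2.2.2.1 1
    rw [this, EE_const hU1]
    norm_num) (fun l h _ hg => by
      have := (h6 X Y Ob St Bx Jc n T b M H l h hg).1
      simpa only [one_mul] using this) l h
  simpa only [one_mul] using h'

end

theorem m13 (h1 : M1Statement) (h2 : M2Statement) (h3 : M3Statement) (h6 : M6Statement)
    (h7 : M7Statement) (h8 : M8Statement) (h9 : M9Statement) (h10 : M10Statement)
    (h11 : M11Statement) (h12 : M12Statement) : M13Statement := by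
  intro X Y Ob St Bx Jc _ _ _ _ _ _ _ _ _ _ _ _ n N s T b M hNum hMN H
  have hn : (1000 : ℝ) ≤ n := by exact_mod_cast hNum.hn
  have hn1 : (1 : ℝ) ≤ (n : ℝ) := by linarith
  have hn0 : (0 : ℝ) < (n : ℝ) := by linarith
  have hnb : (n : ℝ) ≤ b := le_trans (le_self_pow₀ hn1 (by norm_num)) hNum.hnb
  have hb : (1000 : ℝ) ≤ b := le_trans hn hnb
  have hb0 : (0 : ℝ) < b := by linarith
  have hb1 : (1 : ℝ) ≤ b := by linarith
  have hN0 : (0 : ℝ) < M.N := by
    rw [hMN]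
    exact lt_of_lt_of_le (pow_pos hb0 5000) hNum.hNb
  have hN1 : (1 : ℝ) ≤ M.N := by
    rw [hMN]
    exact le_trans (one_le_pow₀ hb1) hNum.hNb
  have hNe : (M.N : ℝ) ≤ Real.exp n := by
    rw [hMN]
    exact hNum.hNn
  have hT0 : (0 : ℝ) < (Fintype.card St : ℝ) := by exact_mod_cast H.cS
  set S : ℝ := (Fintype.card St : ℝ) with hS
  have hU0 : ∀ (i : Bx × Fin (T + 1)) x, 0 ≤ M.U1 i x := by
    intro i x
    unfold Mac.U1
    positivity
  have hU1 : ∀ i : Bx × Fin (T + 1), ∑ x, M.U1 i x = 1 := by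
    intro i
    unfold Mac.U1
    rw [sum_const, card_univ, H.cX, nsmul_eq_mul]
    field_simp
  have hP0 : ∀ (w : Bx × Fin (T + 1) → X) θ y, 0 ≤ M.PP w θ y := fun w =>
    (h1 X Y Ob St Bx Jc n T b M H w).2.2.1
  have hP1 : ∀ (w : Bx × Fin (T + 1) → X) θ, ∑ y, M.PP w θ y = 1 := fun w =>
    (h1 X Y Ob St Bx Jc n T b M H w).2.2.2.1
  have hPle : ∀ (w : Bx × Fin (T + 1) → X) θ y, M.PP w θ y * M.N ≤ 101 / 100 := fun w =>
    (h1 X Y Ob St Bx Jc n T b M H w).2.2.2.2.2.1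
  have ha1 : (1 : ℝ) ≤ M.a := H.ha.le
  -- the statistics
  let g1 : X → St → (Bx × Fin (T + 1) → X) → ℝ := fun x h w =>
    EE (M.PP w) (fun ω => ind (M.lev h ω = 0) * (M.ker w h (M.vis 0 h) ω x * M.N))
  let g2 : Y × Y → Ob → (Bx × Fin (T + 1) → X) → ℝ := fun p o w =>
    EE (M.PP w) (fun ω => ind (M.fine o ω ∧ M.Fs w (M.nn2 p.1 p.2) o ω ≤ M.bet / 2))
  let g3 : Bool × Y → Ob → (Bx × Fin (T + 1) → X) → ℝ := fun p o w =>
    EE (M.PP w) (fun ω => ind (ω (M.tk p.1 o) = p.2 ∧ M.evt w p.1 o ω))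
  let F1 : X → (Bx × Fin (T + 1) → X) → ℝ := fun x w => ∑ h, g1 x h w
  let F2 : Y × Y → (Bx × Fin (T + 1) → X) → ℝ := fun p w => ∑ o, g2 p o w
  let F3 : Bool × Y → (Bx × Fin (T + 1) → X) → ℝ := fun p w => ∑ o, g3 p o w
  let V1 : ℝ := S ^ 2 / (n : ℝ) ^ 36
  let V2 : ℝ := M.N ^ 2 / (n : ℝ) ^ 38
  let V3 : ℝ := 4 / (n : ℝ) ^ 38
  let t1 : ℝ := S / (4 * (n : ℝ) ^ 5)
  let t2 : ℝ := M.N / 50
  let t3 : ℝ := 1 / 50
  have L1 : ∀ x, M13Lip (F1 x) V1 := by
    intro x
    obtain ⟨cc, c0, c1, c2⟩ := h11 X Y Ob St Bx Jc n T b M H St id (Fintype.card St)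
      (fun h => by
        have : (univ.filter (fun a : St => id a = h)) = {h} := by
          ext a
          simp
        rw [this]
        simp) (g1 x) n
      (fun h w => EE_nonneg (hP0 w) fun ω => mul_nonneg (m13_ind_nonneg _)
        (mul_nonneg ((h2 X Y Ob St Bx Jc n T b M H w h (M.vis 0 h) ω).1 x) hN0.le))
      (fun h w => by
        have : EE (M.PP w) (fun ω => ind (M.lev h ω = 0) * (M.ker w h (M.vis 0 h) ω x * M.N)) ≤
            EE (M.PP w) (fun _ => (n : ℝ)) := by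
          refine EE_mono (hP0 w) fun ω _ => ?_
          by_cases hl : M.lev h ω = 0
          · have e1 : ind (M.lev h ω = 0) = 1 := by
              unfold ind
              rw [if_pos hl]
            rw [e1, one_mul]
            have hok : M.OKs 0 h ω :=
              (h3 X Y Ob St Bx Jc n T b M H ω).2.2.1 h 0 (le_of_eq hl) (Nat.zero_le _)
            have e2 := (h2 X Y Ob St Bx Jc n T b M H w h (M.vis 0 h) ω).2.2.2.2.2.2.2.1 0 hok x
            refine e2.trans (le_trans ?_ H.ha0)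
            exact pow_le_pow_right₀ ha1 (by omega)
          · have e1 : ind (M.lev h ω = 0) = 0 := by
              unfold ind
              rw [if_neg hl]
            rw [e1, zero_mul]
            exact hn0.le
        rw [EE_const (hP1 w)] at this
        exact this)
      (fun h w w' hw => (h12 X Y Ob St Bx Jc n T b M H).1 h x w w' hw)
    refine ⟨cc, c0, c1, c2.trans (le_of_eq ?_)⟩
    show (n : ℝ) ^ 2 * S ^ 2 / (n : ℝ) ^ 38 = S ^ 2 / (n : ℝ) ^ 36
    field_simp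
  have L2 : ∀ p, M13Lip (F2 p) V2 := by
    intro p
    obtain ⟨cc, c0, c1, c2⟩ := h11 X Y Ob St Bx Jc n T b M H Ob M.so M.N H.rego (g2 p) 1
      (fun o w => EE_nonneg (hP0 w) fun ω => m13_ind_nonneg _)
      (fun o w => by
        have : EE (M.PP w) (fun ω => ind (M.fine o ω ∧ M.Fs w (M.nn2 p.1 p.2) o ω ≤
            M.bet / 2)) ≤ EE (M.PP w) (fun _ => (1 : ℝ)) :=
          EE_mono (hP0 w) fun ω _ => m13_ind_le _
        rw [EE_const (hP1 w)] at this
        exact this)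
      (fun o w w' hw => (h12 X Y Ob St Bx Jc n T b M H).2.1 o (M.nn2 p.1 p.2) w w' hw)
    refine ⟨cc, c0, c1, c2.trans (le_of_eq ?_)⟩
    show (1 : ℝ) ^ 2 * M.N ^ 2 / (n : ℝ) ^ 38 = M.N ^ 2 / (n : ℝ) ^ 38
    ring
  have L3 : ∀ p, M13Lip (F3 p) V3 := by
    intro p
    obtain ⟨cc, c0, c1, c2⟩ := h11 X Y Ob St Bx Jc n T b M H Ob M.so M.N H.rego (g3 p)
      (101 / (100 * M.N))
      (fun o w => EE_nonneg (hP0 w) fun ω => m13_ind_nonneg _)
      (fun o w => by
        have : EE (M.PP w) (fun ω => ind (ω (M.tk p.1 o) = p.2 ∧ M.evt w p.1 o ω)) ≤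
            EE (M.PP w) (fun ω => (fun y => ind (y = p.2)) (ω (M.tk p.1 o))) :=
          EE_mono (hP0 w) fun ω _ => m13_ind_mono fun h => h.1
        refine this.trans ?_
        have e0 := m13_coord (hP1 w) (M.tk p.1 o) (fun y => ind (y = p.2))
        refine (le_of_eq e0).trans ?_
        have e : ∑ a, M.PP w (M.tk p.1 o) a * ind (a = p.2) = M.PP w (M.tk p.1 o) p.2 := by
          rw [sum_eq_single p.2]
          · unfold ind
            simp
          · intro a _ ha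
            unfold ind
            rw [if_neg ha, mul_zero]
          · intro h
            exact absurd (mem_univ _) h
        rw [e, le_div_iff₀ (by positivity)]
        have := hPle w (M.tk p.1 o) p.2
        linarith)
      (fun o w w' hw => (h12 X Y Ob St Bx Jc n T b M H).2.2 p.1 o p.2 w w' hw)
    refine ⟨cc, c0, c1, c2.trans ?_⟩
    show (101 / (100 * (M.N : ℝ))) ^ 2 * (M.N : ℝ) ^ 2 / (n : ℝ) ^ 38 ≤ 4 / (n : ℝ) ^ 38
    have e : (101 / (100 * (M.N : ℝ))) ^ 2 * (M.N : ℝ) ^ 2 = 10201 / 10000 := by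
      field_simp
      norm_num
    rw [e]
    exact div_le_div_of_nonneg_right (by norm_num) (by positivity)
  -- powers of n
  have hn6 : (1000 : ℝ) ≤ (n : ℝ) ^ 6 := le_trans hn (le_self_pow₀ hn1 (by norm_num))
  have hn18 : (1000 : ℝ) * 1000 ≤ (n : ℝ) ^ 18 := by
    calc (1000 : ℝ) * 1000 ≤ n * n := by nlinarith
      _ = (n : ℝ) ^ 2 := by ring
      _ ≤ (n : ℝ) ^ 18 := pow_le_pow_right₀ hn1 (by norm_num)
  have e1 : (n : ℝ) ^ 20 * (2 * V1) ≤ t1 ^ 2 := by
    show (n : ℝ) ^ 20 * (2 * (S ^ 2 / (n : ℝ) ^ 36)) ≤ (S / (4 * (n : ℝ) ^ 5)) ^ 2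
    have : (S / (4 * (n : ℝ) ^ 5)) ^ 2 - (n : ℝ) ^ 20 * (2 * (S ^ 2 / (n : ℝ) ^ 36)) =
        S ^ 2 / (16 * (n : ℝ) ^ 16) * ((n : ℝ) ^ 6 - 32) := by
      field_simp
      ring
    have h' : 0 ≤ S ^ 2 / (16 * (n : ℝ) ^ 16) * ((n : ℝ) ^ 6 - 32) :=
      mul_nonneg (by positivity) (by linarith)
    linarith
  have e2 : (n : ℝ) ^ 20 * (2 * V2) ≤ t2 ^ 2 := by
    show (n : ℝ) ^ 20 * (2 * ((M.N : ℝ) ^ 2 / (n : ℝ) ^ 38)) ≤ ((M.N : ℝ) / 50) ^ 2
    have : ((M.N : ℝ) / 50) ^ 2 - (n : ℝ) ^ 20 * (2 * ((M.N : ℝ) ^ 2 / (n : ℝ) ^ 38)) =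
        (M.N : ℝ) ^ 2 / (2500 * (n : ℝ) ^ 18) * ((n : ℝ) ^ 18 - 5000) := by
      field_simp
      ring
    have h' : 0 ≤ (M.N : ℝ) ^ 2 / (2500 * (n : ℝ) ^ 18) * ((n : ℝ) ^ 18 - 5000) :=
      mul_nonneg (by positivity) (by linarith)
    linarith
  have e3 : (n : ℝ) ^ 20 * (2 * V3) ≤ t3 ^ 2 := by
    show (n : ℝ) ^ 20 * (2 * (4 / (n : ℝ) ^ 38)) ≤ (1 / 50 : ℝ) ^ 2
    have : (1 / 50 : ℝ) ^ 2 - (n : ℝ) ^ 20 * (2 * (4 / (n : ℝ) ^ 38)) =
        1 / (2500 * (n : ℝ) ^ 18) * ((n : ℝ) ^ 18 - 20000) := by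
      field_simp
      ring
    have h' : 0 ≤ 1 / (2500 * (n : ℝ) ^ 18) * ((n : ℝ) ^ 18 - 20000) :=
      mul_nonneg (by positivity) (by linarith)
    linarith
  have V1pos : 0 < V1 := by
    show 0 < S ^ 2 / (n : ℝ) ^ 36
    positivity
  have V2pos : 0 < V2 := by
    show 0 < (M.N : ℝ) ^ 2 / (n : ℝ) ^ 38
    positivity
  have V3pos : 0 < V3 := by
    show 0 < 4 / (n : ℝ) ^ 38
    positivity
  -- the combined family
  let F : X ⊕ ((Y × Y) ⊕ (Bool × Y)) → (Bx × Fin (T + 1) → X) → ℝ :=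
    Sum.elim F1 (Sum.elim F2 F3)
  let V : X ⊕ ((Y × Y) ⊕ (Bool × Y)) → ℝ :=
    Sum.elim (fun _ => V1) (Sum.elim (fun _ => V2) (fun _ => V3))
  let t : X ⊕ ((Y × Y) ⊕ (Bool × Y)) → ℝ :=
    Sum.elim (fun _ => t1) (Sum.elim (fun _ => t2) (fun _ => t3))
  have hL : ∀ m, M13Lip (F m) (V m) := by
    rintro (x | (p | p))
    · exact L1 x
    · exact L2 p
    · exact L3 p
  choose cc cc0 cc1 cc2 using hL
  have hV0 : ∀ m, 0 < V m := by
    rintro (x | (p | p))
    · exact V1pos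
    · exact V2pos
    · exact V3pos
  have ht0 : ∀ m, 0 ≤ t m := by
    rintro (x | (p | p))
    · show 0 ≤ S / (4 * (n : ℝ) ^ 5)
      positivity
    · show 0 ≤ (M.N : ℝ) / 50
      positivity
    · show (0 : ℝ) ≤ 1 / 50
      norm_num
  have hexp : ∀ m, 2 * Real.exp (-(t m ^ 2 / (2 * V m))) ≤ 2 * Real.exp (-(n : ℝ) ^ 20) := by
    rintro (x | (p | p))
    · exact m13_exp t1 V1 _ V1pos e1
    · exact m13_exp t2 V2 _ V2pos e2
    · exact m13_exp t3 V3 _ V3pos e3
  have hcard : (Fintype.card (X ⊕ ((Y × Y) ⊕ (Bool × Y))) : ℝ) = 3 * M.N + M.N ^ 2 := by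
    simp only [Fintype.card_sum, Fintype.card_prod, H.cX, H.cY, Fintype.card_bool]
    push_cast
    ring
  have hS1 : ∑ m, 2 * Real.exp (-(t m ^ 2 / (2 * V m))) ≤ 1 / 4 := by
    calc ∑ m, 2 * Real.exp (-(t m ^ 2 / (2 * V m)))
        ≤ ∑ _m : X ⊕ ((Y × Y) ⊕ (Bool × Y)), 2 * Real.exp (-(n : ℝ) ^ 20) :=
          sum_le_sum fun m _ => hexp m
      _ = (3 * M.N + M.N ^ 2) * (2 * Real.exp (-(n : ℝ) ^ 20)) := by
          rw [sum_const, nsmul_eq_mul, card_univ, hcard]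
      _ ≤ (4 * (Real.exp n) ^ 2) * (2 * Real.exp (-(n : ℝ) ^ 20)) := by
          refine mul_le_mul_of_nonneg_right ?_ (by positivity)
          have : (M.N : ℝ) ^ 2 ≤ (Real.exp n) ^ 2 := pow_le_pow_left₀ hN0.le hNe 2
          nlinarith
      _ = 8 * Real.exp (2 * n - (n : ℝ) ^ 20) := by
          have g : Real.exp (2 * (n : ℝ)) = Real.exp n ^ 2 := by
            rw [two_mul, Real.exp_add]
            ring
          rw [sub_eq_add_neg, Real.exp_add, g]
          ring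
      _ ≤ 8 * Real.exp (-n) := by
          refine mul_le_mul_of_nonneg_left (Real.exp_le_exp.2 ?_) (by norm_num)
          have : (n : ℝ) ^ 2 ≤ (n : ℝ) ^ 20 := pow_le_pow_right₀ hn1 (by norm_num)
          nlinarith
      _ ≤ 1 / 4 := by
          rw [Real.exp_neg]
          have h' : (1001 : ℝ) ≤ Real.exp n := by
            have := Real.add_one_le_exp (n : ℝ)
            linarith
          have : (Real.exp n)⁻¹ ≤ 1001⁻¹ := inv_anti₀ (by norm_num) h'
          norm_num at this ⊢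
          linarith
  -- the Markov families
  let G4 : (Bx × Fin (T + 1) → X) → ℝ := fun w =>
    EE (M.PP w) (fun ω => ∑ h, ∑ l ∈ Finset.range (M.L + 1),
      ind (¬ M.LevLe l h ω) * M.a ^ (2 * M.μ (l + 1)))
  let G5 : (Bx × Fin (T + 1) → X) → ℝ := fun w =>
    EE (M.PP w) (fun ω => ∑ o, ind (M.fail o ω))
  let G : Bool → (Bx × Fin (T + 1) → X) → ℝ := fun j w => if j then G4 w else G5 w
  let τ : Bool → ℝ := fun j => if j then S / (n : ℝ) ^ 10 else 1 / b ^ 100
  have hG : ∀ j w, 0 ≤ G j w := by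
    intro j w
    cases j
    · show 0 ≤ EE (M.PP w) (fun ω => ∑ o, ind (M.fail o ω))
      exact EE_nonneg (hP0 w) fun ω => sum_nonneg fun o _ => m13_ind_nonneg _
    · show 0 ≤ EE (M.PP w) (fun ω => ∑ h, ∑ l ∈ Finset.range (M.L + 1),
        ind (¬ M.LevLe l h ω) * M.a ^ (2 * M.μ (l + 1)))
      exact EE_nonneg (hP0 w) fun ω => sum_nonneg fun h _ => sum_nonneg fun l _ =>
        mul_nonneg (m13_ind_nonneg _) (pow_nonneg (by linarith) _)
  have hτ : ∀ j, 0 < τ j := by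
    intro j
    cases j
    · show (0 : ℝ) < 1 / b ^ 100
      positivity
    · show (0 : ℝ) < S / (n : ℝ) ^ 10
      positivity
  have hlev := fun l h => m13_lev h1 h6 h7 H hN0 l h
  have hM4 : EE M.U1 G4 ≤ S * (((M.L : ℝ) + 1) / (n : ℝ) ^ 30) := by
    have e : EE M.U1 G4 = ∑ h, ∑ l ∈ Finset.range (M.L + 1),
        M.a ^ (2 * M.μ (l + 1)) * M.E2 (fun (_ : Bx × Fin (T + 1) → X) ω =>
          ind (¬ M.LevLe l h ω)) := by
      have e' : EE M.U1 G4 = M.E2 (fun (_ : Bx × Fin (T + 1) → X) ω => ∑ h,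
          ∑ l ∈ Finset.range (M.L + 1),
            ind (¬ M.LevLe l h ω) * M.a ^ (2 * M.μ (l + 1))) := rfl
      rw [e', m13_E2_sum]
      refine sum_congr rfl fun h _ => ?_
      rw [m13_E2_sum]
      refine sum_congr rfl fun l _ => ?_
      exact m13_E2_smul _ _
    rw [e, sum_comm]
    have hterm : ∀ l ∈ Finset.range (M.L + 1), ∑ h, M.a ^ (2 * M.μ (l + 1)) *
        M.E2 (fun (_ : Bx × Fin (T + 1) → X) ω => ind (¬ M.LevLe l h ω)) ≤
        S / (n : ℝ) ^ 30 := by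
      intro l hl
      have hl' : l ≤ M.L := by
        rw [mem_range] at hl
        omega
      have hs := (h7 X Y Ob St Bx Jc n T b M H).2 l hl'
      calc ∑ h, M.a ^ (2 * M.μ (l + 1)) *
          M.E2 (fun (_ : Bx × Fin (T + 1) → X) ω => ind (¬ M.LevLe l h ω))
          ≤ ∑ h, M.a ^ (2 * M.μ (l + 1)) * M.err l h :=
            sum_le_sum fun h _ => mul_le_mul_of_nonneg_left (hlev l h)
              (pow_nonneg (by linarith) _)
        _ = M.a ^ (2 * M.μ (l + 1)) * ∑ h, M.err l h := by rw [mul_sum]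
        _ ≤ M.a ^ (2 * M.μ (l + 1)) *
            (S * (Real.exp (-((M.μ l : ℝ) / 16)) / (n : ℝ) ^ 30)) :=
            mul_le_mul_of_nonneg_left hs (pow_nonneg (by linarith) _)
        _ ≤ Real.exp ((M.μ l : ℝ) / 16) *
            (S * (Real.exp (-((M.μ l : ℝ) / 16)) / (n : ℝ) ^ 30)) := by
            refine mul_le_mul_of_nonneg_right ?_ (by positivity)
            refine le_trans ?_ (m13_mu H l)
            rw [H.mu1 l]
            exact pow_le_pow_right₀ ha1 (by omega)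
        _ = S / (n : ℝ) ^ 30 * (Real.exp ((M.μ l : ℝ) / 16) *
            Real.exp (-((M.μ l : ℝ) / 16))) := by ring
        _ = S / (n : ℝ) ^ 30 := by
            rw [← Real.exp_add, add_neg_cancel, Real.exp_zero, mul_one]
    refine (sum_le_sum hterm).trans (le_of_eq ?_)
    rw [sum_const, card_range, nsmul_eq_mul]
    push_cast
    ring
  have hfail : ∀ (o : Ob) (ω : Jc × Bx → Y), ind (M.fail o ω) ≤
      ∑ i, ind (¬ M.LevLe M.L (M.sb o i) ω) := by
    intro o ω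
    by_cases hf : M.fail o ω
    · obtain ⟨i, hi⟩ := hf
      have h' : ¬ M.LevLe M.L (M.sb o i) ω := by
        rw [← (h3 X Y Ob St Bx Jc n T b M H ω).2.1]
        omega
      calc ind (M.fail o ω) ≤ 1 := m13_ind_le _
        _ = ind (¬ M.LevLe M.L (M.sb o i) ω) := by
            unfold ind
            rw [if_pos h']
        _ ≤ ∑ i, ind (¬ M.LevLe M.L (M.sb o i) ω) :=
            single_le_sum (f := fun i => ind (¬ M.LevLe M.L (M.sb o i) ω))
              (fun i _ => m13_ind_nonneg _) (mem_univ i)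
    · have e : ind (M.fail o ω) = 0 := by
        unfold ind
        rw [if_neg hf]
      rw [e]
      exact sum_nonneg fun i _ => m13_ind_nonneg _
  have herrL : ∀ h, M.err M.L h ≤ 2 * ((n : ℝ) + 1) * Real.exp (-(400 * (n : ℝ))) := by
    intro h
    unfold Mac.err
    rw [Finset.Icc_self, sum_singleton]
    have hc : ∀ h' ∈ univ.filter (fun h' => M.D h h' ≤ 2 * (M.L - M.L) + 1),
        2 * (ind (¬ M.gOK M.L h') + Real.exp (-(50 * (M.μ M.L : ℝ)))) ≤
        2 * Real.exp (-(400 * (n : ℝ))) := by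
      intro h' _
      have e : ind (¬ M.gOK M.L h') = 0 := by
        unfold ind
        rw [if_neg (not_not.2 (H.gtop h'))]
      rw [e, zero_add]
      have hm : (8 * (n : ℝ)) ≤ M.μ M.L := by exact_mod_cast H.muL
      have := Real.exp_le_exp.2 (show -(50 * (M.μ M.L : ℝ)) ≤ -(400 * (n : ℝ)) by linarith)
      linarith
    refine (sum_le_sum hc).trans ?_
    rw [sum_const, nsmul_eq_mul]
    have hb' : ((univ.filter (fun h' => M.D h h' ≤ 2 * (M.L - M.L) + 1)).card : ℝ) ≤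
        (n : ℝ) + 1 := by
      have := H.ball h (2 * (M.L - M.L) + 1)
      rw [Nat.sub_self] at this ⊢
      rw [Nat.mul_zero, Nat.zero_add, pow_one] at this
      exact_mod_cast this
    calc ((univ.filter (fun h' => M.D h h' ≤ 2 * (M.L - M.L) + 1)).card : ℝ) *
        (2 * Real.exp (-(400 * (n : ℝ)))) ≤ ((n : ℝ) + 1) * (2 * Real.exp (-(400 * (n : ℝ)))) :=
          mul_le_mul_of_nonneg_right hb' (by positivity)
      _ = 2 * ((n : ℝ) + 1) * Real.exp (-(400 * (n : ℝ))) := by ring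
  have hM5 : EE M.U1 G5 ≤ M.N * (n * (2 * ((n : ℝ) + 1) * Real.exp (-(400 * (n : ℝ))))) := by
    have e' : EE M.U1 G5 ≤ M.E2 (fun (_ : Bx × Fin (T + 1) → X) ω => ∑ o, ∑ i,
        ind (¬ M.LevLe M.L (M.sb o i) ω)) := by
      unfold Mac.E2
      refine EE_mono hU0 fun w _ => ?_
      exact EE_mono (hP0 w) fun ω _ => sum_le_sum fun o _ => hfail o ω
    refine e'.trans ?_
    rw [m13_E2_sum]
    have : ∀ o ∈ (univ : Finset Ob), M.E2 (fun (_ : Bx × Fin (T + 1) → X) ω => ∑ i,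
        ind (¬ M.LevLe M.L (M.sb o i) ω)) ≤
        n * (2 * ((n : ℝ) + 1) * Real.exp (-(400 * (n : ℝ)))) := by
      intro o _
      rw [m13_E2_sum]
      refine (sum_le_sum fun i _ => (hlev M.L (M.sb o i)).trans (herrL (M.sb o i))).trans
        (le_of_eq ?_)
      rw [sum_const, card_univ, Fintype.card_fin, nsmul_eq_mul]
    refine (sum_le_sum this).trans (le_of_eq ?_)
    rw [sum_const, card_univ, H.cO, nsmul_eq_mul]
  have hS2 : ∑ j, EE M.U1 (G j) / τ j ≤ 1 / 4 := by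
    rw [Fintype.sum_bool]
    have a1 : EE M.U1 (G true) / τ true ≤ 1 / 8 := by
      show EE M.U1 G4 / (S / (n : ℝ) ^ 10) ≤ 1 / 8
      rw [div_le_iff₀ (by positivity)]
      refine hM4.trans ?_
      have hL' : (M.L : ℝ) + 1 ≤ 2 * n := by
        have : (M.L : ℝ) ≤ n := by exact_mod_cast H.hLn
        linarith
      have hn19 : (16 : ℝ) ≤ (n : ℝ) ^ 19 := by
        have := le_self_pow₀ hn1 (show 19 ≠ 0 by norm_num)
        linarith
      have : 1 / 8 * (S / (n : ℝ) ^ 10) - S * (((M.L : ℝ) + 1) / (n : ℝ) ^ 30) =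
          S / (8 * (n : ℝ) ^ 30) * ((n : ℝ) ^ 20 - 8 * ((M.L : ℝ) + 1)) := by
        field_simp
      have h' : 8 * ((M.L : ℝ) + 1) ≤ (n : ℝ) ^ 20 := by
        calc 8 * ((M.L : ℝ) + 1) ≤ 16 * n := by linarith
          _ ≤ (n : ℝ) ^ 19 * n := mul_le_mul_of_nonneg_right hn19 hn0.le
          _ = (n : ℝ) ^ 20 := by ring
      have h'' : 0 ≤ S / (8 * (n : ℝ) ^ 30) * ((n : ℝ) ^ 20 - 8 * ((M.L : ℝ) + 1)) :=
        mul_nonneg (by positivity) (by linarith)
      linarith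
    have a2 : EE M.U1 (G false) / τ false ≤ 1 / 8 := by
      show EE M.U1 G5 / (1 / b ^ 100) ≤ 1 / 8
      rw [div_le_iff₀ (by positivity)]
      refine hM5.trans ?_
      rw [one_div_mul_one_div, le_one_div (by positivity) (by positivity)]
      have hbN : b ^ 100 ≤ Real.exp n := by
        refine le_trans (pow_le_pow_right₀ hb1 (by norm_num : 100 ≤ 5000)) ?_
        refine hNum.hNb.trans hNum.hNn
      have hne : (n : ℝ) + 1 ≤ Real.exp n := Real.add_one_le_exp _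
      have hE0 : 0 < Real.exp (n : ℝ) := Real.exp_pos _
      have hE8 : (16 : ℝ) ≤ Real.exp n := by linarith
      have key : 8 * b ^ 100 * ((M.N : ℝ) * (n * (2 * ((n : ℝ) + 1) *
          Real.exp (-(400 * (n : ℝ)))))) ≤ 1 := by
        calc 8 * b ^ 100 * ((M.N : ℝ) * (n * (2 * ((n : ℝ) + 1) *
            Real.exp (-(400 * (n : ℝ))))))
            = 16 * b ^ 100 * M.N * n * ((n : ℝ) + 1) * Real.exp (-(400 * (n : ℝ))) := by ring
          _ ≤ Real.exp n * Real.exp n * Real.exp n * Real.exp n * Real.exp n *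
              Real.exp (-(400 * (n : ℝ))) := by
              have hnn : (n : ℝ) ≤ Real.exp n := by linarith
              gcongr
          _ = Real.exp (-(395 * (n : ℝ))) := by
              rw [← Real.exp_add, ← Real.exp_add, ← Real.exp_add, ← Real.exp_add,
                ← Real.exp_add]
              congr 1
              ring
          _ ≤ 1 := by
              rw [Real.exp_le_one_iff]
              linarith
      have hpos : 0 < (M.N : ℝ) * (n * (2 * ((n : ℝ) + 1) * Real.exp (-(400 * (n : ℝ))))) := by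
        positivity
      rw [le_div_iff₀ hpos]
      exact key
    linarith
  obtain ⟨w, -, hw1, hw2⟩ := exists_good hU0 hU1 F cc cc0 (fun m i ω a => cc1 m i ω a) t V ht0
    hV0 cc2 G hG τ hτ (by linarith)
  refine ⟨w, ⟨?_, ?_, ?_, ?_, ?_⟩⟩
  · intro x
    have a1 : |F1 x w - EE M.U1 (F1 x)| < t1 := hw1 (Sum.inl x)
    have a2 : |EE M.U1 (F1 x) - S| ≤ S / (n : ℝ) ^ 10 := by
      have := h8 X Y Ob St Bx Jc n T b M H x
      have e : EE M.U1 (F1 x) = M.E2 (fun (w : Bx × Fin (T + 1) → X) ω =>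
          ∑ h, ind (M.lev h ω = 0) * (M.ker w h (M.vis 0 h) ω x * M.N)) := by
        unfold Mac.E2
        congr 1
        funext w
        exact (EE_sum _ _).symm
      rw [e]
      exact this
    have e : EE (M.PP w) (fun ω => ∑ h, ind (M.lev h ω = 0) *
        (M.ker w h (M.vis 0 h) ω x * M.N)) = F1 x w := EE_sum _ _
    rw [e]
    calc |F1 x w - S| = |(F1 x w - EE M.U1 (F1 x)) + (EE M.U1 (F1 x) - S)| := by
          congr 1
          ring
      _ ≤ |F1 x w - EE M.U1 (F1 x)| + |EE M.U1 (F1 x) - S| := abs_add_le _ _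
      _ ≤ S / (4 * (n : ℝ) ^ 5) + S / (n : ℝ) ^ 10 := add_le_add a1.le a2
      _ ≤ S / (2 * (n : ℝ) ^ 5) := by
          have : S / (2 * (n : ℝ) ^ 5) - (S / (4 * (n : ℝ) ^ 5) + S / (n : ℝ) ^ 10) =
              S / (4 * (n : ℝ) ^ 10) * ((n : ℝ) ^ 5 - 4) := by
            field_simp
            ring
          have hn5 := le_self_pow₀ hn1 (show 5 ≠ 0 by norm_num)
          have h' : 0 ≤ S / (4 * (n : ℝ) ^ 10) * ((n : ℝ) ^ 5 - 4) :=
            mul_nonneg (by positivity) (by linarith)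
          linarith
  · intro y y'
    have a1 : |F2 (y, y') w - EE M.U1 (F2 (y, y'))| < (M.N : ℝ) / 50 := hw1 (Sum.inr (Sum.inl (y, y')))
    have a2 : 97 / 100 * (M.N : ℝ) ≤ EE M.U1 (F2 (y, y')) := by
      have := h9 X Y Ob St Bx Jc n T b M H y y'
      have e : EE M.U1 (F2 (y, y')) = M.E2 (fun (w : Bx × Fin (T + 1) → X) ω =>
          ∑ o, ind (M.fine o ω ∧ M.Fs w (M.nn2 y y') o ω ≤ M.bet / 2)) := by
        unfold Mac.E2
        congr 1
        funext w
        exact (EE_sum _ _).symm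
      rw [e]
      exact this
    have e : EE (M.PP w) (fun ω => ∑ o, ind (M.fine o ω ∧ M.Fs w (M.nn2 y y') o ω ≤
        M.bet / 2)) = F2 (y, y') w := EE_sum _ _
    rw [e]
    have := (abs_lt.1 a1).1
    linarith
  · intro t' y
    have a1 : |F3 (t', y) w - EE M.U1 (F3 (t', y))| < (1 : ℝ) / 50 := hw1 (Sum.inr (Sum.inr (t', y)))
    have a2 : (24 : ℝ) / 25 ≤ EE M.U1 (F3 (t', y)) := by
      have := h10 X Y Ob St Bx Jc n T b M H t' y
      have e : EE M.U1 (F3 (t', y)) = M.E2 (fun (w : Bx × Fin (T + 1) → X) ω =>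
          ∑ o, ind (ω (M.tk t' o) = y ∧ M.evt w t' o ω)) := by
        unfold Mac.E2
        congr 1
        funext w
        exact (EE_sum _ _).symm
      rw [e]
      exact this
    have e : EE (M.PP w) (fun ω => ∑ o, ind (ω (M.tk t' o) = y ∧ M.evt w t' o ω)) =
        F3 (t', y) w := EE_sum _ _
    rw [e]
    have := (abs_lt.1 a1).1
    linarith
  · have : G4 w < S / (n : ℝ) ^ 10 := hw2 true
    exact this.le
  · have : G5 w < 1 / b ^ 100 := hw2 false
    exact this.le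

end Pool.Agent.FQ
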