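import Pool.Agent.FQ.MDefs

/-!
# Project FQ, row M14: from good witnesses to G1, G2, G5
-/

set_option autoImplicit false
set_option linter.unusedSectionVars false

namespace Pool.Agent.FQ

open Finset Classical
open Pool.Agent.H73.Cube (EE Loc EE_add EE_smul EE_sum EE_mono EE_nonneg EE_const EE_sub)

theorem m14_ind0 (p : Prop) : 0 ≤ ind p := by
  unfold ind
  split_ifs <;> norm_num

theorem m14_ind1 (p : Prop) : ind p ≤ 1 := by
  unfold ind
  split_ifs <;> norm_num

theorem m14_indt {p : Prop} (h : p) : ind p = 1 := if_pos h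

theorem m14_indf {p : Prop} (h : ¬ p) : ind p = 0 := if_neg h

theorem m14_ind_prod {ι : Type} [Fintype ι] (p : ι → Prop) :
    ∏ i, ind (p i) = ind (∀ i, p i) := by
  by_cases h : ∀ i, p i
  · rw [m14_indt h]
    exact prod_eq_one fun i _ => m14_indt (h i)
  · rw [m14_indf h]
    push Not at h
    obtain ⟨i, hi⟩ := h
    exact prod_eq_zero (mem_univ i) (m14_indf hi)

theorem m14_EE_prod {ι α : Type} [Fintype ι] [DecidableEq ι] [Fintype α] (P g : ι → α → ℝ) :
    EE P (fun ω => ∏ i, g i (ω i)) = ∏ i, ∑ a, P i a * g i a := by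
  unfold EE
  rw [Fintype.prod_sum (fun i a => P i a * g i a)]
  exact sum_congr rfl fun ω _ => (prod_mul_distrib).symm

section

variable {X Y Ob St Bx Jc : Type} [Fintype X] [Fintype Y] [Fintype Ob] [Fintype St] [Fintype Bx]
  [Fintype Jc] [DecidableEq X] [DecidableEq Y] [DecidableEq Ob] [DecidableEq St]
  [DecidableEq Bx] [DecidableEq Jc] {n T : ℕ}

/-- the mean of the indicator for a product law -/
theorem m14_tot (ok : X → Y → Prop) (D : Ob → Fin n → St) (q : St → X → ℝ) (y y' : Y) :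
    tot D q (two ok y y') = ∑ o, ∏ i, ∑ x, q (D o i) x * ind (ok x y ∧ ok x y') := by
  unfold tot
  refine sum_congr rfl fun o _ => ?_
  rw [Fintype.prod_sum (fun i x => q (D o i) x * ind (ok x y ∧ ok x y'))]
  refine sum_congr rfl fun S _ => ?_
  rw [prod_mul_distrib, m14_ind_prod]
  unfold pw two NbS
  congr 2
  simp only [mem_filter, mem_univ, true_and, eq_iff_iff]
  exact forall_and.symm

theorem m14_sum_split (M : Mac X Y Ob St Bx Jc n) (q : X → ℝ) (y y' : Y) :
    ∑ x, q x * ind (M.ok x y ∧ M.ok x y') = ∑ x, q x - ∑ x ∈ M.nn2 y y', q x := by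
  unfold Mac.nn2
  rw [sum_filter, ← sum_sub_distrib]
  refine sum_congr rfl fun x _ => ?_
  by_cases h : M.ok x y ∧ M.ok x y'
  · rw [m14_indt h, if_neg (not_not.2 h)]
    ring
  · rw [m14_indf h, if_pos h]
    ring

/-- the product over the neighbours -/
theorem m14_prod (M : Mac X Y Ob St Bx Jc n) {b : ℝ} (hb : b = Real.exp M.bet)
    (hbet : 0 < M.bet) (l : Fin n → ℝ) (hl : ∀ i, 0 ≤ l i)
    (h : ∑ i, M.Ph (l i) ≤ M.bet / 2) : 1 ≤ (∏ i, (1 - l i)) * b := by
  have h0 : ∀ i, 0 ≤ M.Ph (l i) := by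
    intro i
    unfold Mac.Ph
    split_ifs with h1
    · have h2 := Real.log_nonpos (by linarith : (0 : ℝ) ≤ 1 - l i) (by linarith [hl i])
      linarith
    · exact hbet.le
  have h1 : ∀ i, M.Ph (l i) ≤ M.bet / 2 := fun i =>
    (single_le_sum (f := fun i => M.Ph (l i)) (fun j _ => h0 j) (mem_univ i)).trans h
  have h2 : ∀ i, l i < 1 := by
    intro i
    by_contra hc
    have h3 := h1 i
    unfold Mac.Ph at h3
    rw [if_neg hc] at h3
    linarith
  have h3 : ∏ i, (1 - l i) = Real.exp (-∑ i, M.Ph (l i)) := by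
    rw [← sum_neg_distrib, Real.exp_sum]
    refine prod_congr rfl fun i _ => ?_
    unfold Mac.Ph
    rw [if_pos (h2 i), neg_neg, Real.exp_log (by linarith [h2 i])]
  rw [h3, hb, ← Real.exp_add]
  exact Real.one_le_exp (by linarith)

end

/-- M14 -/
theorem m14 (h1 : M1Statement) (h2 : M2Statement) (h3 : M3Statement) (h4 : M4Statement) :
    M14Statement := by
  intro X Y Ob St Bx Jc _ _ _ _ _ _ _ _ _ _ _ _ n T b M w H W
  obtain ⟨-, -, hP0, hP1, -, hPle, -, -⟩ := h1 X Y Ob St Bx Jc n T b M H w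
  obtain ⟨hq0, hq1, -, -, -, -, hq7⟩ := h4 X Y Ob St Bx Jc n T b M H w
  have hn : (1000 : ℝ) ≤ n := by exact_mod_cast H.hn
  have hn0 : (0 : ℝ) < n := by linarith
  have hlev0 : ∀ h ω x, M.lev h ω = 0 → M.kq w h ω x = M.ker w h (M.vis 0 h) ω x := by
    intro h ω x hl
    unfold Mac.kq
    rw [hl, if_pos (Nat.zero_le _)]
  have hNn : (0 : ℝ) ≤ M.N := Nat.cast_nonneg _
  have hSt : (0 : ℝ) ≤ Fintype.card St := Nat.cast_nonneg _
  refine ⟨fun x => ?_, fun y y' => ?_, fun x x' => ?_⟩
  · -- G1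
    have e1 : EE (M.PP w) (fun ω => ∑ h, M.kq w h ω x) * M.N =
        EE (M.PP w) (fun ω => ∑ h, M.kq w h ω x * M.N) := by
      rw [mul_comm, ← EE_smul]
      congr 1
      funext ω
      rw [mul_comm, sum_mul]
    have hlo : EE (M.PP w) (fun ω => ∑ h, ind (M.lev h ω = 0) *
        (M.ker w h (M.vis 0 h) ω x * M.N)) ≤
        EE (M.PP w) (fun ω => ∑ h, M.kq w h ω x * M.N) := by
      refine EE_mono hP0 fun ω _ => sum_le_sum fun h _ => ?_
      by_cases hl : M.lev h ω = 0
      · rw [m14_indt hl, one_mul, hlev0 h ω x hl]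
      · rw [m14_indf hl, zero_mul]
        exact mul_nonneg (hq0 h ω x) hNn
    have hhi : EE (M.PP w) (fun ω => ∑ h, M.kq w h ω x * M.N) ≤
        EE (M.PP w) (fun ω => ∑ h, ind (M.lev h ω = 0) *
          (M.ker w h (M.vis 0 h) ω x * M.N)) +
        EE (M.PP w) (fun ω => ∑ h, ∑ l ∈ Finset.range (M.L + 1),
          ind (¬ M.LevLe l h ω) * M.a ^ (2 * M.μ (l + 1))) := by
      rw [← EE_add]
      refine EE_mono hP0 fun ω _ => ?_
      rw [← sum_add_distrib]
      exact sum_le_sum fun h _ => hq7 h ω x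
    have hv1 := abs_le.1 (W.v1 x)
    have hv4 := W.v4
    have hn5 : (1000 : ℝ) ≤ (n : ℝ) ^ 5 := by
      calc (1000 : ℝ) ≤ n := hn
        _ = (n : ℝ) ^ 1 := (pow_one _).symm
        _ ≤ (n : ℝ) ^ 5 := pow_le_pow_right₀ (by linarith) (by norm_num)
    have hb1 : (Fintype.card St : ℝ) / (n : ℝ) ^ 10 ≤ Fintype.card St / (2 * (n : ℝ) ^ 5) := by
      refine div_le_div_of_nonneg_left hSt (by positivity) ?_
      nlinarith
    have hb2 : (Fintype.card St : ℝ) / (n : ℝ) ^ 5 =
        Fintype.card St / (2 * (n : ℝ) ^ 5) + Fintype.card St / (2 * (n : ℝ) ^ 5) := by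
      field_simp
      ring
    rw [e1, abs_le]
    constructor <;> linarith [hv1.1, hv1.2]
  · -- G2
    have hpt : ∀ ω : Jc × Bx → Y, (∑ o, ind (M.fine o ω ∧ M.Fs w (M.nn2 y y') o ω ≤ M.bet / 2)) ≤
        tot M.sb (fun h => M.kq w h ω) (two M.ok y y') * b := by
      intro ω
      rw [m14_tot, sum_mul]
      refine sum_le_sum fun o _ => ?_
      have hb0 : 0 < b := by
        rw [H.hb]
        exact Real.exp_pos _
      by_cases hf : M.fine o ω ∧ M.Fs w (M.nn2 y y') o ω ≤ M.bet / 2
      · rw [m14_indt hf]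
        have e1 : ∀ i, ∑ x, M.kq w (M.sb o i) ω x * ind (M.ok x y ∧ M.ok x y') =
            1 - ∑ x ∈ M.nn2 y y', M.ker w (M.sb o i) (M.vis 0 (M.sb o i)) ω x := by
          intro i
          rw [m14_sum_split M (fun x => M.kq w (M.sb o i) ω x) y y', hq1]
          congr 1
          exact sum_congr rfl fun x _ => hlev0 _ _ _ (hf.1 i)
        simp only [e1]
        refine m14_prod M H.hb H.hbet _ (fun i => ?_) hf.2
        refine sum_nonneg fun x _ => ?_
        rw [← hlev0 _ _ _ (hf.1 i)]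
        exact hq0 _ _ _
      · rw [m14_indf hf]
        refine mul_nonneg (prod_nonneg fun i _ => sum_nonneg fun x _ => ?_) hb0.le
        exact mul_nonneg (hq0 _ _ _) (m14_ind0 _)
    have e2 : EE (M.PP w) (fun ω => tot M.sb (fun h => M.kq w h ω) (two M.ok y y')) * b =
        EE (M.PP w) (fun ω => tot M.sb (fun h => M.kq w h ω) (two M.ok y y') * b) := by
      rw [mul_comm, ← EE_smul]
      congr 1
      funext ω
      rw [mul_comm]
    rw [e2]
    have h5 := EE_mono hP0 (f := fun ω => ∑ o, ind (M.fine o ω ∧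
      M.Fs w (M.nn2 y y') o ω ≤ M.bet / 2)) fun ω _ => hpt ω
    have h6 := W.v2 y y'
    linarith
  · -- G5
    have hN0 : 0 < M.N := by
      rw [← H.cX]
      exact Fintype.card_pos_iff.2 ⟨x⟩
    have hNr : (0 : ℝ) < M.N := by exact_mod_cast hN0
    have hdl0 : 4 * M.c ≤ M.dl := by
      refine le_trans ?_ H.hdl
      have hT : (3 : ℝ) ≤ T := by exact_mod_cast H.hT
      have hD : (1 : ℝ) ≤ M.Dl := by exact_mod_cast H.hΔ
      have hc := H.c0
      have h5 : 4 * 1 ≤ ((T : ℝ) + 1) * M.Dl :=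
        mul_le_mul (by linarith) hD (by norm_num) (by linarith)
      have h6 := mul_le_mul_of_nonneg_right h5 hc
      linarith
    have hdl1 := H.hdl1
    have hc0 := H.c0
    -- the mean of the indicator of compatible vertices
    have hq : ∀ θ, 1 - M.dl ≤ ∑ y, M.PP w θ y * ind (M.ok x y ∧ M.ok x' y) := by
      intro θ
      have e1 : ∑ y, M.PP w θ y * ind (M.ok x y ∧ M.ok x' y) =
          1 - ∑ y ∈ univ.filter (fun y => ¬ (M.ok x y ∧ M.ok x' y)), M.PP w θ y := by
        rw [← hP1 θ, sum_filter, ← sum_sub_distrib]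
        refine sum_congr rfl fun y _ => ?_
        by_cases h : M.ok x y ∧ M.ok x' y
        · rw [m14_indt h, if_neg (not_not.2 h)]
          ring
        · rw [m14_indf h, if_pos h]
          ring
      have e2 : ((univ.filter (fun y => ¬ (M.ok x y ∧ M.ok x' y))).card : ℝ) ≤
          2 * M.c * M.N := by
        have h5 : (univ.filter (fun y => ¬ (M.ok x y ∧ M.ok x' y))).card ≤
            (univ.filter (fun y => ¬ M.ok x y)).card +
              (univ.filter (fun y => ¬ M.ok x' y)).card := by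
          refine le_trans (card_le_card ?_) (card_union_le _ _)
          intro y hy
          rw [mem_filter] at hy
          rw [mem_union, mem_filter, mem_filter]
          by_cases h6 : M.ok x y
          · exact Or.inr ⟨mem_univ _, fun h7 => hy.2 ⟨h6, h7⟩⟩
          · exact Or.inl ⟨mem_univ _, h6⟩
        have h6 : ((univ.filter (fun y => ¬ (M.ok x y ∧ M.ok x' y))).card : ℝ) ≤
            ((univ.filter (fun y => ¬ M.ok x y)).card : ℝ) +
              ((univ.filter (fun y => ¬ M.ok x' y)).card : ℝ) := by exact_mod_cast h5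
        have h7 := H.dX x
        have h8 := H.dX x'
        linarith
      have e3 : (∑ y ∈ univ.filter (fun y => ¬ (M.ok x y ∧ M.ok x' y)), M.PP w θ y) * M.N ≤
          4 * M.c * M.N := by
        rw [sum_mul]
        refine (sum_le_sum fun y _ => hPle θ y).trans ?_
        rw [sum_const, nsmul_eq_mul]
        have h5 : 0 ≤ M.c * M.N := mul_nonneg hc0 hNr.le
        nlinarith
      have e4 := le_of_mul_le_mul_right e3 hNr
      linarith
    have hG : ∀ I : Finset (Jc × Bx), (1 - M.dl) ^ I.card ≤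
        EE (M.PP w) (fun ω => ind (x ∈ M.Gam I ω ∧ x' ∈ M.Gam I ω)) := by
      intro I
      have e1 : (fun ω : Jc × Bx → Y => ind (x ∈ M.Gam I ω ∧ x' ∈ M.Gam I ω)) = fun ω =>
          ∏ θ, (fun θ y => if θ ∈ I then ind (M.ok x y ∧ M.ok x' y) else 1) θ (ω θ) := by
        funext ω
        have e2 : ∀ θ : Jc × Bx, (if θ ∈ I then ind (M.ok x (ω θ) ∧ M.ok x' (ω θ)) else 1) =
            ind (θ ∈ I → (M.ok x (ω θ) ∧ M.ok x' (ω θ))) := by
          intro θ
          by_cases h : θ ∈ I
          · rw [if_pos h]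
            congr 1
            simp [h]
          · rw [if_neg h, m14_indt (fun h' => absurd h' h)]
        simp only [e2]
        rw [m14_ind_prod]
        unfold Mac.Gam
        congr 1
        simp only [mem_filter, mem_univ, true_and, eq_iff_iff]
        constructor
        · rintro ⟨h5, h6⟩ θ hθ
          exact ⟨h5 θ hθ, h6 θ hθ⟩
        · intro h5
          exact ⟨fun θ hθ => (h5 θ hθ).1, fun θ hθ => (h5 θ hθ).2⟩
      rw [e1, m14_EE_prod (M.PP w) (fun θ y => if θ ∈ I then ind (M.ok x y ∧ M.ok x' y) else 1)]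
      have e3 : (1 - M.dl) ^ I.card = ∏ θ : Jc × Bx, (if θ ∈ I then (1 - M.dl) else 1) := by
        rw [prod_ite_mem, univ_inter, prod_const]
      rw [e3]
      refine prod_le_prod (fun θ _ => ?_) fun θ _ => ?_
      · split_ifs <;> linarith
      · by_cases h : θ ∈ I
        · simp only [if_pos h]
          exact hq θ
        · simp only [if_neg h, mul_one]
          exact (hP1 θ).ge
    -- numbers
    have ha := H.ha
    have ha1 : 1 ≤ M.a ^ M.μ 0 := one_le_pow₀ ha.le
    have hapos : 0 < M.a ^ M.μ 0 := by linarith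
    have hr : M.a ^ M.μ 0 ≤ n / 2 := by
      by_contra hc
      push Not at hc
      have h5 : ((n : ℝ) / 2) ^ 8 < (M.a ^ M.μ 0) ^ 8 :=
        pow_lt_pow_left₀ hc (by linarith) (by norm_num)
      have h6 : (M.a ^ M.μ 0) ^ 8 ≤ n := by
        rw [← pow_mul, mul_comm]
        exact H.ha0
      have h7 : ((n : ℝ) / 2) ^ 2 ≤ ((n : ℝ) / 2) ^ 8 :=
        pow_le_pow_right₀ (by linarith) (by norm_num)
      nlinarith
    have hr2 : 2 / (n : ℝ) ≤ (M.a ^ M.μ 0)⁻¹ := by
      rw [div_le_iff₀ hn0, ← div_eq_inv_mul, le_div_iff₀ hapos]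
      linarith
    have hvis : ∀ h, M.gOK 0 h → (M.a ^ M.μ 0)⁻¹ ≤ (1 - M.dl) ^ (M.vis 0 h).card := by
      intro h hg
      obtain ⟨-, -, -, -, -, -, h7, -, -⟩ :=
        h2 X Y Ob St Bx Jc n T b M H w h ∅ (fun _ => (Classical.choice (by
          have : 0 < Fintype.card Y := by rw [H.cY]; exact hN0
          exact Fintype.card_pos_iff.1 this)))
      have h8 := h7 0 hg
      have h9 : (1 - M.dl) ^ (22 * M.Dl * M.μ 0) ≤ (1 - M.dl) ^ (M.vis 0 h).card :=
        pow_le_pow_of_le_one (by linarith) (by linarith) h8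
      refine le_trans ?_ h9
      rw [inv_le_iff_one_le_mul₀ hapos, pow_mul, ← mul_pow, mul_comm]
      exact one_le_pow₀ H.ha22
    -- one site
    have hsite : ∀ h, ind (M.gOK 0 h) * (2 / n) -
        EE (M.PP w) (fun ω => ind (¬ M.LevLe 0 h ω)) ≤
        EE (M.PP w) (fun ω => ind (1 / (n : ℝ) ≤ M.kq w h ω x * M.N ∧
          1 / (n : ℝ) ≤ M.kq w h ω x' * M.N)) := by
      intro h
      by_cases hg : M.gOK 0 h
      · rw [m14_indt hg, one_mul]
        have h5 := hr2.trans ((hvis h hg).trans (hG (M.vis 0 h)))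
        have h6 : EE (M.PP w) (fun ω => ind (x ∈ M.Gam (M.vis 0 h) ω ∧
            x' ∈ M.Gam (M.vis 0 h) ω)) - EE (M.PP w) (fun ω => ind (¬ M.LevLe 0 h ω)) ≤
            EE (M.PP w) (fun ω => ind (1 / (n : ℝ) ≤ M.kq w h ω x * M.N ∧
              1 / (n : ℝ) ≤ M.kq w h ω x' * M.N)) := by
          rw [← EE_sub]
          refine EE_mono hP0 fun ω _ => ?_
          by_cases hL : M.LevLe 0 h ω
          · rw [m14_indf (not_not.2 hL), sub_zero]
            by_cases hx : x ∈ M.Gam (M.vis 0 h) ω ∧ x' ∈ M.Gam (M.vis 0 h) ω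
            · have hlev : M.lev h ω = 0 :=
                Nat.le_zero.1 (((h3 X Y Ob St Bx Jc n T b M H ω).2.1 h 0).2 hL)
              obtain ⟨-, -, -, -, -, -, -, -, h9⟩ :=
                h2 X Y Ob St Bx Jc n T b M H w h ∅ ω
              have hk : ∀ z ∈ M.Gam (M.vis 0 h) ω, 1 / (n : ℝ) ≤ M.kq w h ω z * M.N := by
                intro z hz
                rw [hlev0 h ω z hlev]
                have h10 := h9 0 hg z hz
                have h11 : (M.a ^ M.μ 0)⁻¹ ≤ M.ker w h (M.vis 0 h) ω z * M.N := by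
                  rw [inv_le_iff_one_le_mul₀ hapos]
                  exact h10
                refine le_trans (le_trans ?_ hr2) h11
                exact div_le_div_of_nonneg_right (by norm_num) hn0.le
              exact (m14_ind1 _).trans (m14_indt ⟨hk x hx.1, hk x' hx.2⟩).ge
            · rw [m14_indf hx]
              exact m14_ind0 _
          · rw [m14_indt hL]
            have h7 := m14_ind1 (x ∈ M.Gam (M.vis 0 h) ω ∧ x' ∈ M.Gam (M.vis 0 h) ω)
            have h8 := m14_ind0 (1 / (n : ℝ) ≤ M.kq w h ω x * M.N ∧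
              1 / (n : ℝ) ≤ M.kq w h ω x' * M.N)
            linarith
        linarith
      · rw [m14_indf hg, zero_mul]
        have h5 := EE_nonneg hP0 (f := fun ω => ind (¬ M.LevLe 0 h ω)) fun ω => m14_ind0 _
        have h6 := EE_nonneg hP0 (f := fun ω => ind (1 / (n : ℝ) ≤ M.kq w h ω x * M.N ∧
          1 / (n : ℝ) ≤ M.kq w h ω x' * M.N)) fun ω => m14_ind0 _
        linarith
    have hlevs : ∑ h, EE (M.PP w) (fun ω => ind (¬ M.LevLe 0 h ω)) ≤
        Fintype.card St / (n : ℝ) ^ 10 := by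
      refine le_trans ?_ W.v4
      rw [← EE_sum]
      refine EE_mono hP0 fun ω _ => sum_le_sum fun h _ => ?_
      have h5 : ind (¬ M.LevLe 0 h ω) * 1 ≤ ind (¬ M.LevLe 0 h ω) * M.a ^ (2 * M.μ (0 + 1)) :=
        mul_le_mul_of_nonneg_left (one_le_pow₀ ha.le) (m14_ind0 _)
      rw [mul_one] at h5
      refine h5.trans ?_
      refine single_le_sum (f := fun l => ind (¬ M.LevLe l h ω) * M.a ^ (2 * M.μ (l + 1)))
        (fun l _ => mul_nonneg (m14_ind0 _) (pow_nonneg (by linarith) _)) ?_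
      exact mem_range.2 (Nat.succ_pos _)
    have hgood : 3 / 4 * (Fintype.card St : ℝ) ≤ ∑ h, ind (M.gOK 0 h) := by
      have h5 := H.gfr 0 (Nat.zero_le _)
      have h6 : ∑ h, ind (M.gOK 0 h) = Fintype.card St - ∑ h, ind (¬ M.gOK 0 h) := by
        rw [eq_sub_iff_add_eq, ← sum_add_distrib]
        have h7 : ∀ h, ind (M.gOK 0 h) + ind (¬ M.gOK 0 h) = 1 := by
          intro h
          by_cases hg : M.gOK 0 h
          · rw [m14_indt hg, m14_indf (not_not.2 hg), add_zero]
          · rw [m14_indf hg, m14_indt hg, zero_add]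
        simp only [h7]
        rw [sum_const, nsmul_eq_mul, mul_one, card_univ]
      have h8 : Real.exp (-((M.μ 0 : ℝ) / 8)) ≤ 1 / 4 := by
        have h9 : (10 : ℝ) ^ 10 ≤ M.μ 0 := by exact_mod_cast H.mu0
        have h10 : (4 : ℝ) ≤ Real.exp ((M.μ 0 : ℝ) / 8) := by
          have h11 := Real.add_one_le_exp ((M.μ 0 : ℝ) / 8)
          have h12 : (3 : ℝ) ≤ (M.μ 0 : ℝ) / 8 := by
            rw [le_div_iff₀ (by norm_num)]
            norm_num at h9 ⊢
            linarith
          linarith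
        rw [Real.exp_neg, inv_le_comm₀ (Real.exp_pos _) (by norm_num)]
        norm_num
        exact h10
      have h9 := mul_le_mul_of_nonneg_left h8 hSt
      linarith
    have hfin := sum_le_sum fun h (_ : h ∈ (univ : Finset St)) => hsite h
    rw [sum_sub_distrib, ← sum_mul] at hfin
    rw [EE_sum]
    have h5 : 3 / 4 * (Fintype.card St : ℝ) * (2 / n) ≤ (∑ h, ind (M.gOK 0 h)) * (2 / n) :=
      mul_le_mul_of_nonneg_right hgood (by positivity)
    have h6 : (Fintype.card St : ℝ) / (n : ℝ) ^ 10 ≤ Fintype.card St / (2 * n) := by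
      refine div_le_div_of_nonneg_left hSt (by positivity) ?_
      have h7 : (n : ℝ) ^ 2 ≤ (n : ℝ) ^ 10 := pow_le_pow_right₀ (by linarith) (by norm_num)
      nlinarith
    have h7 : (Fintype.card St : ℝ) / n + Fintype.card St / (2 * n) =
        3 / 4 * (Fintype.card St : ℝ) * (2 / n) := by
      field_simp
      ring
    linarith

end Pool.Agent.FQ
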