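import Pool.Agent.FQ.MDefs

/-!
# Project FQ, row M15: leaving out one token (helper61)
-/

set_option autoImplicit false

namespace Pool.Agent.FQ

open Finset Classical

namespace M15

theorem i0 (p : Prop) : 0 ≤ ind p := by unfold ind; split_ifs <;> norm_num

theorem i1 (p : Prop) : ind p ≤ 1 := by unfold ind; split_ifs <;> norm_num

theorem iT {p : Prop} (h : p) : ind p = 1 := if_pos h

theorem iF {p : Prop} (h : ¬ p) : ind p = 0 := if_neg h

/-- The comparison of two normalised kernels. -/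
theorem key {X : Type} [Fintype X] (K c : X → ℝ) (A : X → Prop) (N d : ℝ) (hN : 0 < N)
    (hd : 0 < d) (hK : ∀ x, 0 ≤ K x) (hc1 : ∀ x, 1 ≤ c x * N) (hc2 : ∀ x, c x * (d * N) ≤ 1)
    (x : X) :
    (ind (A x) * c x * K x) / (∑ x', ind (A x') * c x' * K x') *
      (d * (1 - ∑ x' ∈ univ.filter (fun x' => ¬ A x'), K x' / ∑ x'', K x'')) ≤
      K x / ∑ x'', K x'' := by
  have hKt0 : 0 ≤ ∑ x, K x := Finset.sum_nonneg fun x _ => hK x
  rcases hKt0.eq_or_lt with h0 | hpos
  · have hx : K x = 0 := (Finset.sum_eq_zero_iff_of_nonneg fun x _ => hK x).1 h0.symm x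
      (mem_univ x)
    rw [hx, mul_zero, zero_div, zero_mul, zero_div]
  obtain ⟨Kt, hKt⟩ : ∃ Kt, Kt = ∑ x, K x := ⟨_, rfl⟩
  rw [← hKt] at hpos ⊢
  obtain ⟨So, hSo⟩ : ∃ So, So = ∑ x' ∈ univ.filter (fun x' => A x'), K x' := ⟨_, rfl⟩
  have hSo0 : 0 ≤ So := by
    rw [hSo]
    exact Finset.sum_nonneg fun x _ => hK x
  have h1 : 1 - ∑ x' ∈ univ.filter (fun x' => ¬ A x'), K x' / Kt = So / Kt := by
    have h2 := Finset.sum_filter_add_sum_filter_not univ (fun x' => A x') K
    rw [← hSo, ← hKt] at h2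
    rw [← Finset.sum_div, eq_div_iff hpos.ne', sub_mul, one_mul, div_mul_cancel₀ _ hpos.ne']
    linarith
  rw [h1]
  rcases hSo0.eq_or_lt with h0 | hSpos
  · rw [← h0, zero_div, mul_zero, mul_zero]
    exact div_nonneg (hK x) hpos.le
  obtain ⟨D, hD⟩ : ∃ D, D = ∑ x', ind (A x') * c x' * K x' := ⟨_, rfl⟩
  rw [← hD]
  have hDN : So ≤ D * N := by
    rw [hSo, hD, Finset.sum_filter, Finset.sum_mul]
    refine Finset.sum_le_sum fun x' _ => ?_
    split_ifs with hA
    · rw [iT hA, one_mul]
      have := mul_le_mul_of_nonneg_right (hc1 x') (hK x')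
      linarith
    · rw [iF hA]
      simp
  have hDpos : 0 < D := by
    by_contra hc
    have := mul_nonpos_of_nonpos_of_nonneg (not_lt.1 hc) hN.le
    linarith
  have hc0 : 0 ≤ c x := by
    by_contra hc
    have := mul_nonpos_of_nonpos_of_nonneg (not_le.1 hc).le hN.le
    have := hc1 x
    linarith
  have ha0 : 0 ≤ ind (A x) * c x * K x := mul_nonneg (mul_nonneg (i0 _) hc0) (hK x)
  have ha : ind (A x) * c x * K x * (d * N) ≤ K x := by
    have h2 : ind (A x) * (c x * (d * N)) ≤ 1 * 1 :=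
      mul_le_mul (i1 _) (hc2 x) (by positivity) (by norm_num)
    have h3 := mul_le_mul_of_nonneg_right h2 (hK x)
    linarith
  have h5 : ind (A x) * c x * K x * (d * So) ≤ K x * D := by
    have h6 : d * So ≤ d * (D * N) := mul_le_mul_of_nonneg_left hDN hd.le
    have h7 := mul_le_mul_of_nonneg_left h6 ha0
    have h8 := mul_le_mul_of_nonneg_right ha hDpos.le
    linarith
  rw [div_mul_eq_mul_div, div_le_div_iff₀ hDpos hpos]
  have h6 : d * (So / Kt) * Kt = d * So := by
    field_simp
  calc ind (A x) * c x * K x * (d * (So / Kt)) * Kt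
      = ind (A x) * c x * K x * (d * (So / Kt) * Kt) := by ring
    _ ≤ K x * D := by rw [h6]; exact h5

end M15

open M15 in
theorem m15 (h1 : M1Statement) (h2 : M2Statement) (h3 : M3Statement) : M15Statement := by
  intro X Y Ob St Bx Jc _ _ _ _ _ _ _ _ _ _ _ _ n T b M w hM t o ω hev
  obtain ⟨hfine, hFm⟩ := hev
  have hw := h1 X Y Ob St Bx Jc n T b M hM
  have hk := h2 X Y Ob St Bx Jc n T b M hM w
  obtain ⟨-, -, -, -, h35, -, -⟩ := h3 X Y Ob St Bx Jc n T b M hM ω
  have hmem : ∀ i, M.tk t o ∈ M.vis 0 (M.sb o i) := by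
    intro i
    have hOK := h35 o i 0 (le_of_eq (hfine i)) (Nat.zero_le _)
    have hj := hM.jcm t o hOK.1
    unfold Mac.vis Mac.tk
    rw [Finset.mem_filter]
    refine ⟨mem_univ _, hM.cmac 0 _ _ (hM.sosb o i) hj, ?_⟩
    refine (hM.lip _ _).trans ?_
    rw [hM.Dcomm]
    exact hM.sosb o i
  have hkq : ∀ i x, M.kq w (M.sb o i) ω x = M.ker w (M.sb o i) (M.vis 0 (M.sb o i)) ω x := by
    intro i x
    unfold Mac.kq
    rw [hfine i, if_pos (Nat.zero_le _)]
  have hNn : 0 < (M.N : ℝ) := by
    have h4 : 0 < Fintype.card Y := Fintype.card_pos_iff.2 ⟨ω (M.tk t o)⟩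
    rw [hM.cY] at h4
    exact_mod_cast h4
  have hd : 0 < 1 - M.dl := by
    have := hM.hdl1
    linarith
  refine ⟨?_, ?_, ?_⟩
  · rintro ⟨i, hi⟩
    rw [hfine i] at hi
    exact absurd hi (Nat.not_lt_zero _)
  · intro S
    obtain ⟨l, hl⟩ : ∃ l : Fin n → ℝ, l = fun i => ∑ x ∈ M.nn1 (ω (M.tk t o)),
      M.ker w (M.sb o i) ((M.vis 0 (M.sb o i)).erase (M.tk t o)) ω x := ⟨_, rfl⟩
    -- the pointwise bound
    have hpt : ∀ i x, M.ker w (M.sb o i) (M.vis 0 (M.sb o i)) ω x * ((1 - M.dl) * (1 - l i)) ≤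
        M.ker w (M.sb o i) ((M.vis 0 (M.sb o i)).erase (M.tk t o)) ω x := by
      intro i x
      have h4 := key (fun x => M.num w (M.sb o i) ((M.vis 0 (M.sb o i)).erase (M.tk t o)) ω x)
        (fun x => 1 / ((M.Cs (Function.update w (M.box (M.sb o i), 0) x) (M.tk t o).2).card : ℝ))
        (fun x => M.ok x (ω (M.tk t o))) M.N (1 - M.dl) hNn hd
        (fun x => mul_nonneg (i0 _) (Finset.prod_nonneg fun θ _ => by positivity))
        (fun x => by
          have h5 := (hw (Function.update w (M.box (M.sb o i), 0) x)).1 (M.tk t o).2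
          have h6 := (hw (Function.update w (M.box (M.sb o i), 0) x)).2.1 (M.tk t o).2
          have h7 : 0 < (1 - M.dl) * M.N := mul_pos hd hNn
          rw [div_mul_eq_mul_div, one_mul, le_div_iff₀ (by linarith), one_mul]
          exact h6)
        (fun x => by
          have h5 := (hw (Function.update w (M.box (M.sb o i), 0) x)).1 (M.tk t o).2
          have h7 : 0 < (1 - M.dl) * M.N := mul_pos hd hNn
          rw [div_mul_eq_mul_div, one_mul, div_le_iff₀ (by linarith), one_mul]
          exact h5) x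
      have h8 : ∀ x, M.num w (M.sb o i) (M.vis 0 (M.sb o i)) ω x =
          ind (M.ok x (ω (M.tk t o))) *
            (1 / ((M.Cs (Function.update w (M.box (M.sb o i), 0) x) (M.tk t o).2).card : ℝ)) *
            M.num w (M.sb o i) ((M.vis 0 (M.sb o i)).erase (M.tk t o)) ω x := by
        intro x
        unfold Mac.num
        rw [← Finset.mul_prod_erase _ _ (hmem i)]
        have h9 : ind (∀ θ ∈ M.vis 0 (M.sb o i), M.ok x (ω θ)) =
            ind (M.ok x (ω (M.tk t o))) *
              ind (∀ θ ∈ (M.vis 0 (M.sb o i)).erase (M.tk t o), M.ok x (ω θ)) := by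
          by_cases hA : M.ok x (ω (M.tk t o))
          · rw [iT hA, one_mul]
            by_cases hB : ∀ θ ∈ (M.vis 0 (M.sb o i)).erase (M.tk t o), M.ok x (ω θ)
            · rw [iT hB]
              refine iT fun θ hθ => ?_
              by_cases hθ' : θ = M.tk t o
              · rw [hθ']
                exact hA
              · exact hB θ (Finset.mem_erase.2 ⟨hθ', hθ⟩)
            · rw [iF hB]
              exact iF fun h => hB fun θ hθ => h θ (Finset.mem_of_mem_erase hθ)
          · rw [iF hA, zero_mul]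
            exact iF fun h => hA (h _ (hmem i))
        rw [h9]
        ring
      unfold Mac.ker
      simp only [h8]
      rw [hl]
      unfold Mac.ker Mac.nn1
      exact h4
    have hl0 : ∀ i, 0 ≤ l i := by
      intro i
      rw [hl]
      exact Finset.sum_nonneg fun x _ => (hk _ _ _).1 x
    have hPh0 : ∀ i, 0 ≤ M.Ph (l i) := by
      intro i
      unfold Mac.Ph
      split_ifs with h
      · have := Real.log_nonpos (by linarith : 0 ≤ 1 - l i) (by linarith [hl0 i])
        linarith
      · exact hM.hbet.le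
    have hFm' : ∑ i, M.Ph (l i) ≤ M.bet / 2 := by
      rw [hl]
      exact hFm
    have hbet := hM.hbet
    have hl1 : ∀ i, l i < 1 := by
      intro i
      by_contra hc
      have h4 := (Finset.single_le_sum (fun i _ => hPh0 i) (mem_univ i)).trans hFm'
      unfold Mac.Ph at h4
      rw [if_neg hc] at h4
      linarith
    have hprod : Real.exp (-(M.bet / 2)) ≤ ∏ i, (1 - l i) := by
      have h4 : ∏ i, (1 - l i) = Real.exp (- ∑ i, M.Ph (l i)) := by
        rw [← Finset.sum_neg_distrib, Real.exp_sum]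
        refine Finset.prod_congr rfl fun i _ => ?_
        unfold Mac.Ph
        rw [if_pos (hl1 i), neg_neg, Real.exp_log (by linarith [hl1 i])]
      rw [h4]
      exact Real.exp_le_exp.2 (by linarith)
    have h5 : (∏ i, M.ker w (M.sb o i) (M.vis 0 (M.sb o i)) ω (S i)) *
        ((1 - M.dl) ^ n * ∏ i, (1 - l i)) ≤
        ∏ i, M.ker w (M.sb o i) ((M.vis 0 (M.sb o i)).erase (M.tk t o)) ω (S i) := by
      have h6 : (1 - M.dl) ^ n * ∏ i, (1 - l i) = ∏ i : Fin n, ((1 - M.dl) * (1 - l i)) := by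
        rw [Finset.prod_mul_distrib, Finset.prod_const, Finset.card_univ, Fintype.card_fin]
      rw [h6, ← Finset.prod_mul_distrib]
      refine Finset.prod_le_prod (fun i _ => ?_) fun i _ => hpt i (S i)
      have h7 := (hk (M.sb o i) (M.vis 0 (M.sb o i)) ω).1 (S i)
      have h8 := hl1 i
      exact mul_nonneg h7 (mul_nonneg hd.le (by linarith))
    have h6 : 1 ≤ b * ((1 - M.dl) ^ n * ∏ i, (1 - l i)) := by
      have h7 : (1 - M.dl) ^ n * Real.exp (-(M.bet / 2)) ≤ (1 - M.dl) ^ n * ∏ i, (1 - l i) :=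
        mul_le_mul_of_nonneg_left hprod (by positivity)
      have h8 : 0 < Real.exp M.bet := Real.exp_pos _
      have h9 := mul_le_mul_of_nonneg_left h7 h8.le
      have h10 : Real.exp M.bet * ((1 - M.dl) ^ n * Real.exp (-(M.bet / 2))) =
          (1 - M.dl) ^ n * Real.exp (M.bet / 2) := by
        have h11 : Real.exp M.bet * Real.exp (-(M.bet / 2)) = Real.exp (M.bet / 2) := by
          rw [← Real.exp_add]
          congr 1
          ring
        rw [← h11]
        ring
      rw [h10] at h9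
      rw [hM.hb]
      exact hM.hdb.trans h9
    have h7 : 0 ≤ ∏ i, M.ker w (M.sb o i) (M.vis 0 (M.sb o i)) ω (S i) :=
      Finset.prod_nonneg fun i _ => (hk _ _ _).1 _
    have hb0 : 0 ≤ b := by
      rw [hM.hb]
      exact (Real.exp_pos _).le
    have h8 := mul_le_mul_of_nonneg_left h5 hb0
    have h9 := mul_le_mul_of_nonneg_right h6 h7
    have h10 : ∏ i, M.kq w (M.sb o i) ω (S i) =
        ∏ i, M.ker w (M.sb o i) (M.vis 0 (M.sb o i)) ω (S i) :=
      Finset.prod_congr rfl fun i _ => hkq i (S i)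
    rw [h10]
    linarith
  · intro i x hx
    rw [hkq] at hx
    have h4 := ((hk (M.sb o i) (M.vis 0 (M.sb o i)) ω).2.2.2.1 x).1 hx
    unfold Mac.Gam at h4
    rw [Finset.mem_filter] at h4
    exact h4.2 _ (hmem i)

end Pool.Agent.FQ
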