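import Pool.Agent.FQ.MDefs

/-!
# Project FQ, row M2: bounds for the kernel

See note 5216 on MP_a55b9e_co, part I.
-/

set_option autoImplicit false
set_option linter.unusedSectionVars false

namespace Pool.Agent.FQ

open Finset Classical
open Pool.Agent.H73.Cube (EE Loc)

section

variable {X Y Ob St Bx Jc : Type} [Fintype X] [Fintype Y] [Fintype Ob] [Fintype St] [Fintype Bx]
  [Fintype Jc] [DecidableEq X] [DecidableEq Y] [DecidableEq Ob] [DecidableEq St]
  [DecidableEq Bx] [DecidableEq Jc] {n T : ℕ} {b : ℝ} {M : Mac X Y Ob St Bx Jc n}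

theorem m2_Npos (hM : MacHyp T M b) (w : Bx × Fin (T + 1) → X) : 0 < M.N := by
  obtain ⟨h⟩ := Fintype.card_pos_iff.1 hM.cS
  rw [← hM.cX]
  exact Fintype.card_pos_iff.2 ⟨w (M.box h, 0)⟩

/-- The product of the reciprocals. -/
noncomputable def m2_P (M : Mac X Y Ob St Bx Jc n) (w : Bx × Fin (T + 1) → X) (h : St)
    (I : Finset (Jc × Bx)) (x : X) : ℝ :=
  ∏ θ ∈ I, 1 / ((M.Cs (Function.update w (M.box h, 0) x) θ.2).card : ℝ)

theorem m2_P_lo (h1 : M1Statement) (hM : MacHyp T M b) (w : Bx × Fin (T + 1) → X) (h : St)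
    (I : Finset (Jc × Bx)) (x : X) : (1 / (M.N : ℝ)) ^ I.card ≤ m2_P M w h I x := by
  have hN : (0 : ℝ) < M.N := by exact_mod_cast m2_Npos hM w
  have hd : (0 : ℝ) < 1 - M.dl := by have := hM.hdl1; linarith
  unfold m2_P
  rw [← Finset.prod_const]
  refine Finset.prod_le_prod (fun θ _ => by positivity) fun θ _ => ?_
  obtain ⟨a1, a2, _⟩ := h1 X Y Ob St Bx Jc n T b M hM (Function.update w (M.box h, 0) x)
  exact one_div_le_one_div_of_le (lt_of_lt_of_le (mul_pos hd hN) (a1 θ.2)) (a2 θ.2)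

theorem m2_P_hi (h1 : M1Statement) (hM : MacHyp T M b) (w : Bx × Fin (T + 1) → X) (h : St)
    (I : Finset (Jc × Bx)) (x : X) :
    m2_P M w h I x ≤ (1 / ((1 - M.dl) * (M.N : ℝ))) ^ I.card := by
  have hN : (0 : ℝ) < M.N := by exact_mod_cast m2_Npos hM w
  have hd : (0 : ℝ) < 1 - M.dl := by have := hM.hdl1; linarith
  unfold m2_P
  rw [← Finset.prod_const]
  refine Finset.prod_le_prod (fun θ _ => by positivity) fun θ _ => ?_
  obtain ⟨a1, _⟩ := h1 X Y Ob St Bx Jc n T b M hM (Function.update w (M.box h, 0) x)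
  exact one_div_le_one_div_of_le (mul_pos hd hN) (a1 θ.2)

theorem m2_num_in (w : Bx × Fin (T + 1) → X) (h : St)
    (I : Finset (Jc × Bx)) (ω : Jc × Bx → Y) (x : X) (hx : x ∈ M.Gam I ω) :
    M.num w h I ω x = m2_P M w h I x := by
  have h2 : ∀ θ ∈ I, M.ok x (ω θ) := by
    unfold Mac.Gam at hx
    exact (Finset.mem_filter.1 hx).2
  unfold Mac.num m2_P ind
  rw [if_pos h2, one_mul]

theorem m2_num_out (w : Bx × Fin (T + 1) → X) (h : St)
    (I : Finset (Jc × Bx)) (ω : Jc × Bx → Y) (x : X) (hx : x ∉ M.Gam I ω) :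
    M.num w h I ω x = 0 := by
  have h2 : ¬ ∀ θ ∈ I, M.ok x (ω θ) := fun h3 => hx (by
    unfold Mac.Gam
    exact Finset.mem_filter.2 ⟨Finset.mem_univ _, h3⟩)
  unfold Mac.num ind
  rw [if_neg h2, zero_mul]

theorem m2_S (w : Bx × Fin (T + 1) → X) (h : St)
    (I : Finset (Jc × Bx)) (ω : Jc × Bx → Y) :
    ∑ x', M.num w h I ω x' = ∑ x' ∈ M.Gam I ω, m2_P M w h I x' := by
  rw [← Finset.sum_subset (Finset.subset_univ (M.Gam I ω))
    (fun x _ hx => m2_num_out w h I ω x hx)]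
  exact Finset.sum_congr rfl fun x hx => m2_num_in w h I ω x hx

theorem m2_vis (hM : MacHyp T M b) (h : St) (l : ℕ) (hg : M.gOK l h) :
    (M.vis l h).card ≤ 22 * M.Dl * M.μ l := by
  have hsub : M.vis l h ⊆ M.Ac l h ×ˢ univ.filter (fun σ' => M.dB (M.box h) σ' ≤ 1) := by
    intro θ hθ
    unfold Mac.vis at hθ
    obtain ⟨_, h1, h2⟩ := Finset.mem_filter.1 hθ
    exact Finset.mem_product.2 ⟨h1, Finset.mem_filter.2 ⟨Finset.mem_univ _, h2⟩⟩
  calc (M.vis l h).card ≤ (M.Ac l h ×ˢ univ.filter (fun σ' => M.dB (M.box h) σ' ≤ 1)).card :=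
        Finset.card_le_card hsub
    _ = (M.Ac l h).card * (univ.filter (fun σ' => M.dB (M.box h) σ' ≤ 1)).card :=
        Finset.card_product _ _
    _ ≤ (22 * M.μ l) * M.Dl := Nat.mul_le_mul hg.2 (hM.nbc _)
    _ = 22 * M.Dl * M.μ l := by ring

theorem m2_amu (hM : MacHyp T M b) (h : St) (l : ℕ) (hg : M.gOK l h) (hd0 : 0 ≤ M.dl) :
    1 ≤ M.a ^ M.μ l * (1 - M.dl) ^ (M.vis l h).card := by
  have hd : (0 : ℝ) < 1 - M.dl := by have := hM.hdl1; linarith
  have ha : (0 : ℝ) < M.a := lt_trans one_pos hM.ha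
  have e1 : (1 : ℝ) ≤ (M.a * (1 - M.dl) ^ (22 * M.Dl)) ^ M.μ l := one_le_pow₀ hM.ha22
  rw [mul_pow, ← pow_mul] at e1
  refine e1.trans (mul_le_mul_of_nonneg_left ?_ (pow_pos ha _).le)
  exact pow_le_pow_of_le_one hd.le (by linarith) (m2_vis hM h l hg)

theorem m2_dl0 (hM : MacHyp T M b) : 0 ≤ M.dl := by
  refine le_trans ?_ hM.hdl
  have := hM.c0
  positivity

end

theorem m2 (h1 : M1Statement) : M2Statement := by
  intro X Y Ob St Bx Jc _ _ _ _ _ _ _ _ _ _ _ _ n T b M hM w h I ω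
  have hNn := m2_Npos hM w
  have hN : (0 : ℝ) < M.N := by exact_mod_cast hNn
  have hd : (0 : ℝ) < 1 - M.dl := by have := hM.hdl1; linarith
  have hd0 : 0 ≤ M.dl := m2_dl0 hM
  have hGN : ∀ J : Finset (Jc × Bx), ((M.Gam J ω).card : ℝ) ≤ M.N := by
    intro J
    rw [← hM.cX]
    exact_mod_cast Finset.card_le_univ _
  have hnn : ∀ J x, 0 ≤ M.num w h J ω x := by
    intro J x
    by_cases hx : x ∈ M.Gam J ω
    · rw [m2_num_in w h J ω x hx]
      exact le_trans (by positivity) (m2_P_lo h1 hM w h J x)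
    · rw [m2_num_out w h J ω x hx]
  have hS0 : ∀ J, 0 ≤ ∑ x', M.num w h J ω x' := fun J => Finset.sum_nonneg fun x _ => hnn J x
  have hSlo : ∀ J, ((M.Gam J ω).card : ℝ) * (1 / (M.N : ℝ)) ^ J.card ≤
      ∑ x', M.num w h J ω x' := by
    intro J
    rw [m2_S]
    have := Finset.card_nsmul_le_sum (M.Gam J ω) (m2_P M w h J) _
      (fun x _ => m2_P_lo h1 hM w h J x)
    simpa [nsmul_eq_mul] using this
  have hShi : ∀ J, ∑ x', M.num w h J ω x' ≤
      ((M.Gam J ω).card : ℝ) * (1 / ((1 - M.dl) * (M.N : ℝ))) ^ J.card := by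
    intro J
    rw [m2_S]
    have := Finset.sum_le_card_nsmul (M.Gam J ω) (m2_P M w h J) _
      (fun x _ => m2_P_hi h1 hM w h J x)
    simpa [nsmul_eq_mul] using this
  have hlo : ∀ J : Finset (Jc × Bx), (0 : ℝ) < (1 / (M.N : ℝ)) ^ J.card := fun J => by positivity
  have hconv : ∀ J : Finset (Jc × Bx), (1 - M.dl) ^ J.card *
      (1 / ((1 - M.dl) * (M.N : ℝ))) ^ J.card = (1 / (M.N : ℝ)) ^ J.card := by
    intro J
    rw [← mul_pow]
    congr 1
    field_simp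
  have hSpos : ∀ J x, x ∈ M.Gam J ω → 0 < ∑ x', M.num w h J ω x' := by
    intro J x hx
    refine lt_of_lt_of_le (mul_pos ?_ (hlo J)) (hSlo J)
    exact_mod_cast Finset.card_pos.2 ⟨x, hx⟩
  have q1 : ∀ J x, 0 ≤ M.ker w h J ω x := fun J x => div_nonneg (hnn J x) (hS0 J)
  have qout : ∀ J x, x ∉ M.Gam J ω → M.ker w h J ω x = 0 := by
    intro J x hx
    unfold Mac.ker
    rw [m2_num_out w h J ω x hx, zero_div]
  have q5 : ∀ J x, M.ker w h J ω x * (((M.Gam J ω).card : ℝ) * (1 - M.dl) ^ J.card) ≤ 1 := by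
    intro J x
    by_cases hx : x ∈ M.Gam J ω
    · have hS := hSpos J x hx
      unfold Mac.ker
      rw [div_mul_eq_mul_div, div_le_one hS, m2_num_in w h J ω x hx]
      have hp : (0 : ℝ) ≤ ((M.Gam J ω).card : ℝ) * (1 - M.dl) ^ J.card := by positivity
      calc m2_P M w h J x * (((M.Gam J ω).card : ℝ) * (1 - M.dl) ^ J.card)
          ≤ (1 / ((1 - M.dl) * (M.N : ℝ))) ^ J.card *
            (((M.Gam J ω).card : ℝ) * (1 - M.dl) ^ J.card) :=
            mul_le_mul_of_nonneg_right (m2_P_hi h1 hM w h J x) hp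
        _ = ((M.Gam J ω).card : ℝ) * ((1 - M.dl) ^ J.card *
            (1 / ((1 - M.dl) * (M.N : ℝ))) ^ J.card) := by ring
        _ = ((M.Gam J ω).card : ℝ) * (1 / (M.N : ℝ)) ^ J.card := by rw [hconv]
        _ ≤ _ := hSlo J
    · rw [qout J x hx, zero_mul]
      exact zero_le_one
  have q6 : ∀ J x, x ∈ M.Gam J ω → (1 - M.dl) ^ J.card ≤
      M.ker w h J ω x * (M.Gam J ω).card := by
    intro J x hx
    have hS := hSpos J x hx
    unfold Mac.ker
    rw [div_mul_eq_mul_div, le_div_iff₀ hS, m2_num_in w h J ω x hx]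
    calc (1 - M.dl) ^ J.card * ∑ x', M.num w h J ω x'
        ≤ (1 - M.dl) ^ J.card *
          (((M.Gam J ω).card : ℝ) * (1 / ((1 - M.dl) * (M.N : ℝ))) ^ J.card) :=
          mul_le_mul_of_nonneg_left (hShi J) (by positivity)
      _ = ((1 - M.dl) ^ J.card * (1 / ((1 - M.dl) * (M.N : ℝ))) ^ J.card) *
          ((M.Gam J ω).card : ℝ) := by ring
      _ = (1 / (M.N : ℝ)) ^ J.card * ((M.Gam J ω).card : ℝ) := by rw [hconv]
      _ ≤ m2_P M w h J x * ((M.Gam J ω).card : ℝ) :=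
          mul_le_mul_of_nonneg_right (m2_P_lo h1 hM w h J x) (Nat.cast_nonneg _)
  have ha : (0 : ℝ) < M.a := lt_trans one_pos hM.ha
  refine ⟨q1 I, ?_, ?_, ?_, q5 I, q6 I, fun l hg => m2_vis hM h l hg, ?_, ?_⟩
  · have e : ∑ x, M.ker w h I ω x = (∑ x, M.num w h I ω x) / ∑ x', M.num w h I ω x' := by
      unfold Mac.ker
      rw [Finset.sum_div]
    rw [e]
    exact div_self_le_one _
  · rintro ⟨x, hx⟩
    have e : ∑ x, M.ker w h I ω x = (∑ x, M.num w h I ω x) / ∑ x', M.num w h I ω x' := by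
      unfold Mac.ker
      rw [Finset.sum_div]
    rw [e, div_self (hSpos I x hx).ne']
  · intro x
    constructor
    · intro hk
      by_contra hx
      exact hk (qout I x hx)
    · intro hx
      have hS := hSpos I x hx
      unfold Mac.ker
      rw [m2_num_in w h I ω x hx]
      exact (div_pos (lt_of_lt_of_le (hlo I) (m2_P_lo h1 hM w h I x)) hS).ne'
  · intro l hok x
    obtain ⟨hg, hle⟩ := hok
    have hpa : (0 : ℝ) < M.a ^ M.μ l := pow_pos ha _
    have hk := q1 (M.vis l h) x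
    have e1 : M.ker w h (M.vis l h) ω x * ((M.Gam (M.vis l h) ω).card : ℝ) ≤ M.a ^ M.μ l := by
      have hm := m2_amu hM h l hg hd0
      have hkg : 0 ≤ M.ker w h (M.vis l h) ω x * ((M.Gam (M.vis l h) ω).card : ℝ) := by
        positivity
      calc M.ker w h (M.vis l h) ω x * ((M.Gam (M.vis l h) ω).card : ℝ)
          = M.ker w h (M.vis l h) ω x * ((M.Gam (M.vis l h) ω).card : ℝ) * 1 := by ring
        _ ≤ M.ker w h (M.vis l h) ω x * ((M.Gam (M.vis l h) ω).card : ℝ) *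
            (M.a ^ M.μ l * (1 - M.dl) ^ (M.vis l h).card) :=
            mul_le_mul_of_nonneg_left hm hkg
        _ = M.ker w h (M.vis l h) ω x * (((M.Gam (M.vis l h) ω).card : ℝ) *
            (1 - M.dl) ^ (M.vis l h).card) * M.a ^ M.μ l := by ring
        _ ≤ 1 * M.a ^ M.μ l := mul_le_mul_of_nonneg_right (q5 _ x) hpa.le
        _ = M.a ^ M.μ l := one_mul _
    calc M.ker w h (M.vis l h) ω x * (M.N : ℝ)
        ≤ M.ker w h (M.vis l h) ω x * (((M.Gam (M.vis l h) ω).card : ℝ) * M.a ^ M.μ l) :=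
          mul_le_mul_of_nonneg_left hle hk
      _ = M.ker w h (M.vis l h) ω x * ((M.Gam (M.vis l h) ω).card : ℝ) * M.a ^ M.μ l := by ring
      _ ≤ M.a ^ M.μ l * M.a ^ M.μ l := mul_le_mul_of_nonneg_right e1 hpa.le
      _ = M.a ^ (2 * M.μ l) := by rw [two_mul, pow_add]
  · intro l hg x hx
    have hpa : (0 : ℝ) < M.a ^ M.μ l := pow_pos ha _
    have hk := q1 (M.vis l h) x
    calc (1 : ℝ) ≤ M.a ^ M.μ l * (1 - M.dl) ^ (M.vis l h).card := m2_amu hM h l hg hd0
      _ ≤ M.a ^ M.μ l * (M.ker w h (M.vis l h) ω x * (M.Gam (M.vis l h) ω).card) :=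
          mul_le_mul_of_nonneg_left (q6 _ x hx) hpa.le
      _ ≤ M.a ^ M.μ l * (M.ker w h (M.vis l h) ω x * M.N) :=
          mul_le_mul_of_nonneg_left (mul_le_mul_of_nonneg_left (hGN _) hk) hpa.le
      _ = M.ker w h (M.vis l h) ω x * M.N * M.a ^ M.μ l := by ring

end Pool.Agent.FQ
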