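import Pool.Agent.FQ.MDefs

/-!
# Project FQ, row M3: levels
-/

set_option autoImplicit false

namespace Pool.Agent.FQ

open Finset Classical
open Pool.Agent.H73.Cube (EE Loc)

section m3

variable {X Y Ob St Bx Jc : Type} [Fintype X] [Fintype Y] [Fintype Ob] [Fintype St] [Fintype Bx]
  [Fintype Jc] [DecidableEq X] [DecidableEq Y] [DecidableEq Ob] [DecidableEq St]
  [DecidableEq Bx] [DecidableEq Jc] {n : ℕ}

theorem m3_mono (M : Mac X Y Ob St Bx Jc n) {l l₂ : ℕ} {h : St} {ω : Jc × Bx → Y}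
    (hl : l ≤ l₂) (H : M.LevLe l h ω) : M.LevLe l₂ h ω := fun l' h1 h2 h' h3 =>
  H l' (hl.trans h1) h2 h' (h3.trans (by omega))

theorem m3_top (M : Mac X Y Ob St Bx Jc n) (h : St) (ω : Jc × Bx → Y) :
    M.LevLe (M.L + 1) h ω := fun l' h1 h2 => absurd h2 (by omega)

theorem m3_le_iff (M : Mac X Y Ob St Bx Jc n) (h : St) (l : ℕ) (ω : Jc × Bx → Y) :
    M.lev h ω ≤ l ↔ M.LevLe l h ω := by
  constructor
  · intro h1
    have h2 : sInf {l | M.LevLe l h ω} ∈ {l | M.LevLe l h ω} :=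
      Nat.sInf_mem ⟨M.L + 1, m3_top M h ω⟩
    exact m3_mono M h1 h2
  · intro h1
    exact Nat.sInf_le h1

/-- The level of `h` depends only on the seeds visible near `h`. -/
theorem m3_congr (M : Mac X Y Ob St Bx Jc n) (h : St) (ω ω' : Jc × Bx → Y)
    (H : ∀ l ≤ M.L, ∀ h', M.D h h' ≤ 2 * M.L + 1 → ∀ θ ∈ M.vis l h', ω θ = ω' θ) :
    M.lev h ω = M.lev h ω' := by
  have key : ∀ l, M.LevLe l h ω ↔ M.LevLe l h ω' := by
    intro l
    refine forall_congr' fun l' => forall_congr' fun _ => forall_congr' fun h2 =>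
      forall_congr' fun h' => forall_congr' fun h3 => ?_
    have e : M.Gam (M.vis l' h') ω = M.Gam (M.vis l' h') ω' := by
      unfold Mac.Gam
      refine Finset.filter_congr fun x _ => ?_
      refine forall_congr' fun θ => forall_congr' fun h4 => ?_
      rw [H l' h2 h' (h3.trans (by omega)) θ h4]
    unfold Mac.OKs
    rw [e]
  have key2 : {l | M.LevLe l h ω} = {l | M.LevLe l h ω'} := Set.ext key
  unfold Mac.lev
  rw [key2]

theorem m3_vis (M : Mac X Y Ob St Bx Jc n) {l : ℕ} {h : St} {θ : Jc × Bx}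
    (H : θ ∈ M.vis l h) : θ.1 ∈ M.Ac l h ∧ M.dB (M.box h) θ.2 ≤ 1 := by
  unfold Mac.vis at H
  exact (Finset.mem_filter.mp H).2

theorem m3_infc (M : Mac X Y Ob St Bx Jc n) {l : ℕ} {h h' : St} {j : Jc} (hl : l ≤ M.L)
    (hD : M.D h h' ≤ 2 * M.L + 1) (hj : j ∈ M.Ac l h') : h ∈ M.Infc j := by
  unfold Mac.Infc
  exact Finset.mem_filter.mpr ⟨Finset.mem_univ _, l, hl, h', hD, hj⟩

end m3

theorem m3 : M3Statement := by
  intro X Y Ob St Bx Jc _ _ _ _ _ _ _ _ _ _ _ _ n T b M H ω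
  refine ⟨fun h => (m3_le_iff M h _ ω).mpr (m3_top M h ω), fun h l => m3_le_iff M h l ω,
    fun h l h1 h2 => ?_, fun h h' h1 => ?_, fun o i l h1 h2 => ?_, fun θ y h h1 => ⟨?_, ?_⟩,
    fun h ω' h1 => ?_⟩
  · exact (m3_le_iff M h l ω).mp h1 l le_rfl h2 h (by rw [H.Dself]; omega)
  · refine (m3_le_iff M h' _ ω).mpr fun l' h2 h3 h'' h4 => ?_
    have h5 : M.LevLe (M.lev h ω) h ω := (m3_le_iff M h _ ω).mp le_rfl
    refine h5 l' (by omega) h3 h'' ?_
    have h6 := H.Dtri h h' h''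
    omega
  · refine (m3_le_iff M _ l ω).mp h1 l le_rfl h2 (M.so o) ?_
    rw [H.Dcomm]
    exact (H.sosb o i).trans (by omega)
  · refine m3_congr M h _ _ fun l hl h' h2 θ' h3 => ?_
    rcases eq_or_ne θ' θ with rfl | hne
    · exact absurd (m3_infc M hl h2 (m3_vis M h3).1) h1
    · exact Function.update_of_ne hne _ _
  · intro l hl h3
    exact h1 (m3_infc M hl (by rw [H.Dself]; omega) (m3_vis M h3).1)
  · refine m3_congr M h _ _ fun l hl h' h2 θ h3 => h1 θ ?_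
    have h4 := (m3_vis M h3).2
    have h5 := H.dBtri (M.box h) (M.box h') θ.2
    have h6 := H.lip h h'
    omega

end Pool.Agent.FQ
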