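import Pool.Agent.FQ.MDefs

/-!
# Project FQ, row M4: the kernels form a seeds model (helper15)
-/

set_option autoImplicit false
set_option linter.unusedSectionVars false
set_option linter.unusedVariables false

namespace Pool.Agent.FQ

open Finset Classical
open Pool.Agent.H73.Cube (EE Loc)

section

variable {X Y Ob St Bx Jc : Type} [Fintype X] [Fintype Y] [Fintype Ob] [Fintype St] [Fintype Bx]
  [Fintype Jc] [DecidableEq X] [DecidableEq Y] [DecidableEq Ob] [DecidableEq St]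
  [DecidableEq Bx] [DecidableEq Jc] {n T : ℕ}

theorem m4_mu_mono {b : ℝ} {M : Mac X Y Ob St Bx Jc n} (hM : MacHyp T M b) : Monotone M.μ := by
  refine monotone_nat_of_le_succ fun l => ?_
  rw [hM.mu1]
  omega

theorem m4_num_congr (M : Mac X Y Ob St Bx Jc n) (w : Bx × Fin (T + 1) → X) (h : St)
    (I : Finset (Jc × Bx)) (ω ω' : Jc × Bx → Y) (hω : ∀ θ ∈ I, ω θ = ω' θ) (x : X) :
    M.num w h I ω x = M.num w h I ω' x := by
  unfold Mac.num
  congr 2
  refine propext ⟨fun h1 θ hθ => ?_, fun h1 θ hθ => ?_⟩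
  · rw [← hω θ hθ]
    exact h1 θ hθ
  · rw [hω θ hθ]
    exact h1 θ hθ

theorem m4_ker_congr (M : Mac X Y Ob St Bx Jc n) (w : Bx × Fin (T + 1) → X) (h : St)
    (I : Finset (Jc × Bx)) (ω ω' : Jc × Bx → Y) (hω : ∀ θ ∈ I, ω θ = ω' θ) :
    M.ker w h I ω = M.ker w h I ω' := by
  funext x
  unfold Mac.ker
  rw [m4_num_congr M w h I ω ω' hω x,
    Finset.sum_congr rfl fun x' _ => m4_num_congr M w h I ω ω' hω x']

theorem m4_kq_of_le {M : Mac X Y Ob St Bx Jc n} (w : Bx × Fin (T + 1) → X) {h : St}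
    {ω : Jc × Bx → Y} (hl : M.lev h ω ≤ M.L) (x : X) :
    M.kq w h ω x = M.ker w h (M.vis (M.lev h ω) h) ω x := by
  unfold Mac.kq
  rw [if_pos hl]

theorem m4_kq_of_gt {M : Mac X Y Ob St Bx Jc n} (w : Bx × Fin (T + 1) → X) {h : St}
    {ω : Jc × Bx → Y} (hl : ¬ M.lev h ω ≤ M.L) (x : X) :
    M.kq w h ω x = 1 / M.N := by
  unfold Mac.kq
  rw [if_neg hl]

theorem m4_Jt_card (M : Mac X Y Ob St Bx Jc n) (l : ℕ) (o : Ob) :
    (M.Cm l (M.so o)).card ≤ (M.Jt l o).card := by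
  refine Finset.card_le_card_of_injOn (fun j => (j, M.box (M.so o))) (fun j hj => ?_) ?_
  · unfold Mac.Jt
    rw [Finset.mem_coe, Finset.mem_filter]
    exact ⟨Finset.mem_univ _, hj, rfl⟩
  · intro j _ j' _ he
    exact (Prod.mk.inj he).1

end

theorem m4 (h1 : M1Statement) (h2 : M2Statement) (h3 : M3Statement) : M4Statement := by
  intro X Y Ob St Bx Jc _ _ _ _ _ _ _ _ _ _ _ _ n T b M hM w
  have hne : Nonempty X := by
    obtain ⟨h⟩ := Fintype.card_pos_iff.1 hM.cS
    exact ⟨w (M.box h, 0)⟩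
  have hN : (0 : ℝ) < M.N := by
    have := Fintype.card_pos_iff.2 hne
    rw [hM.cX] at this
    exact_mod_cast this
  have ha0 : (0 : ℝ) < M.a := lt_trans one_pos hM.ha
  have ha1 : (1 : ℝ) ≤ M.a := hM.ha.le
  have hmono := m4_mu_mono hM
  have hpow : ∀ k : ℕ, k ≤ 1600 * n → M.a ^ k ≤ b := fun k hk =>
    le_trans (pow_le_pow_right₀ ha1 hk) hM.han
  have hb1 : (1 : ℝ) ≤ b := by
    have := hpow 0 (Nat.zero_le _)
    rwa [pow_zero] at this
  have hb7 : b ≤ b ^ 7 := le_self_pow₀ hb1 (by norm_num)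
  have hb3 : b ≤ b ^ 3 := le_self_pow₀ hb1 (by norm_num)
  have hmuL : ∀ l ≤ M.L, M.μ l ≤ 16 * n := fun l hl => le_trans (hmono hl) hM.muL'
  have A2 := fun (h : St) (I : Finset (Jc × Bx)) (ω : Jc × Bx → Y) =>
    h2 X Y Ob St Bx Jc n T b M hM w h I ω
  have A3 := fun (ω : Jc × Bx → Y) => h3 X Y Ob St Bx Jc n T b M hM ω
  have hOK : ∀ h ω, M.lev h ω ≤ M.L → M.OKs (M.lev h ω) h ω := fun h ω hl =>
    (A3 ω).2.2.1 h (M.lev h ω) le_rfl hl
  have hup : ∀ h ω, M.lev h ω ≤ M.L → ∀ x, M.kq w h ω x * M.N ≤ M.a ^ (2 * M.μ (M.lev h ω)) := by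
    intro h ω hl x
    rw [m4_kq_of_le w hl]
    exact (A2 h (M.vis (M.lev h ω) h) ω).2.2.2.2.2.2.2.1 (M.lev h ω) (hOK h ω hl) x
  have hgt : ∀ h ω, ¬ M.lev h ω ≤ M.L → ∀ x, M.kq w h ω x * M.N = 1 := by
    intro h ω hl x
    rw [m4_kq_of_gt w hl, one_div, inv_mul_cancel₀ hN.ne']
  have hsup : ∀ h ω, M.lev h ω ≤ M.L → ∀ x, M.kq w h ω x ≠ 0 →
      x ∈ M.Gam (M.vis (M.lev h ω) h) ω := by
    intro h ω hl x hx
    rw [m4_kq_of_le w hl] at hx
    exact ((A2 h (M.vis (M.lev h ω) h) ω).2.2.2.1 x).1 hx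
  refine ⟨?_, ?_, ?_, ?_, ?_, ?_, ?_⟩
  · intro h ω x
    by_cases hl : M.lev h ω ≤ M.L
    · rw [m4_kq_of_le w hl]
      exact (A2 h _ ω).1 x
    · rw [m4_kq_of_gt w hl]
      positivity
  · intro h ω
    by_cases hl : M.lev h ω ≤ M.L
    · rw [Finset.sum_congr rfl fun x _ => m4_kq_of_le w hl x]
      refine (A2 h _ ω).2.2.1 ?_
      rw [← Finset.card_pos]
      have h5 := (hOK h ω hl).2
      by_contra hc
      have h6 : (M.Gam (M.vis (M.lev h ω) h) ω).card = 0 := by omega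
      rw [h6, Nat.cast_zero, zero_mul] at h5
      linarith
    · rw [Finset.sum_congr rfl fun x _ => m4_kq_of_gt w hl x, Finset.sum_const, Finset.card_univ,
        hM.cX, nsmul_eq_mul, one_div, mul_inv_cancel₀ hN.ne']
  · intro h ω x
    by_cases hl : M.lev h ω ≤ M.L
    · refine le_trans (hup h ω hl x) (le_trans (hpow _ ?_) hb7)
      have := hmuL _ hl
      omega
    · rw [hgt h ω hl x]
      exact one_le_pow₀ hb1
  · intro h ω x hx
    by_cases hl : M.lev h ω ≤ M.L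
    · have h5 := hsup h ω hl x hx
      have h6 := (A2 h (M.vis (M.lev h ω) h) ω).2.2.2.2.2.2.2.2 (M.lev h ω) (hOK h ω hl).1 x h5
      rw [m4_kq_of_le w hl]
      refine le_trans h6 (mul_le_mul_of_nonneg_left (le_trans (hpow _ ?_) hb3) ?_)
      · have := hmuL _ hl
        omega
      · exact mul_nonneg ((A2 h _ ω).1 x) hN.le
    · rw [hgt h ω hl x, one_mul]
      exact one_le_pow₀ hb1
  · intro θ h ω y hh
    obtain ⟨e1, e2⟩ := (A3 ω).2.2.2.2.2.1 θ y h hh
    funext x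
    by_cases hl : M.lev h ω ≤ M.L
    · have hl' : M.lev h (Function.update ω θ y) ≤ M.L := by rw [e1]; exact hl
      rw [m4_kq_of_le w hl, m4_kq_of_le w hl', e1]
      rw [m4_ker_congr M w h (M.vis (M.lev h ω) h) (Function.update ω θ y) ω ?_]
      intro θ' hθ'
      have hne' : θ' ≠ θ := by
        intro hc
        rw [hc] at hθ'
        exact e2 _ hl hθ'
      exact Function.update_of_ne hne' _ _
    · have hl' : ¬ M.lev h (Function.update ω θ y) ≤ M.L := by rw [e1]; exact hl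
      rw [m4_kq_of_gt w hl, m4_kq_of_gt w hl']
  · intro o ω
    by_cases hf : M.fail o ω
    · exact Or.inl hf
    · right
      have hl : ∀ i, M.lev (M.sb o i) ω ≤ M.L := by
        intro i
        by_contra hc
        exact hf ⟨i, not_le.1 hc⟩
      have hFin : (univ : Finset (Fin n)).Nonempty := by
        have := hM.hn
        exact ⟨⟨0, by omega⟩, Finset.mem_univ _⟩
      obtain ⟨i₀, -, hi₀⟩ := Finset.exists_min_image univ (fun i => M.lev (M.sb o i) ω) hFin
      obtain ⟨l, hlev⟩ : ∃ l, l = M.lev (M.sb o i₀) ω := ⟨_, rfl⟩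
      have hlL : l ≤ M.L := by rw [hlev]; exact hl i₀
      have hmin : ∀ i, l ≤ M.lev (M.sb o i) ω := fun i => by
        rw [hlev]
        exact hi₀ i (Finset.mem_univ _)
      have hle : ∀ i, M.lev (M.sb o i) ω ≤ l + 1 := by
        intro i
        rw [hlev]
        refine (A3 ω).2.2.2.1 _ _ ?_
        have d1 := hM.Dtri (M.sb o i₀) (M.so o) (M.sb o i)
        have d2 := hM.sosb o i
        have d3 := hM.sosb o i₀
        rw [hM.Dcomm] at d3
        omega
      refine ⟨l, hlL, ?_, ?_, ?_⟩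
      · have h5 := (A3 ω).2.2.2.2.1 o i₀ l (by rw [hlev]) hlL
        exact le_trans h5.1.1 (m4_Jt_card M l o)
      · intro i x
        refine le_trans (hup _ ω (hl i) x) ?_
        rw [← pow_mul]
        refine pow_le_pow_right₀ ha1 ?_
        have e1 := hmono (hle i)
        rw [hM.mu1] at e1
        omega
      · intro i x hx θ hθ
        have h5 := hsup _ ω (hl i) x hx
        unfold Mac.Gam at h5
        refine (Finset.mem_filter.1 h5).2 θ ?_
        unfold Mac.Jt at hθ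
        obtain ⟨-, c1, c2⟩ := Finset.mem_filter.1 hθ
        unfold Mac.vis
        refine Finset.mem_filter.2 ⟨Finset.mem_univ _, ?_, ?_⟩
        · exact hM.mono _ _ _ (hmin i) (hM.cmac _ _ _ (hM.sosb o i) c1)
        · rw [c2]
          refine le_trans (hM.lip _ _) ?_
          rw [hM.Dcomm]
          exact hM.sosb o i
  · intro h ω x
    have hnn : ∀ l ∈ Finset.range (M.L + 1),
        0 ≤ ind (¬ M.LevLe l h ω) * M.a ^ (2 * M.μ (l + 1)) := by
      intro l _
      refine mul_nonneg ?_ (pow_nonneg ha0.le _)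
      unfold ind
      split_ifs <;> norm_num
    have hone : ∀ l, ¬ M.lev h ω ≤ l → ind (¬ M.LevLe l h ω) = 1 := by
      intro l hl
      unfold ind
      rw [if_pos]
      rw [← (A3 ω).2.1 h l]
      exact hl
    have hterm : ∀ l, l ≤ M.L → ¬ M.lev h ω ≤ l → M.a ^ (2 * M.μ (l + 1)) ≤
        ∑ l ∈ Finset.range (M.L + 1), ind (¬ M.LevLe l h ω) * M.a ^ (2 * M.μ (l + 1)) := by
      intro l hl hl2
      have h5 := Finset.single_le_sum hnn (Finset.mem_range.2 (Nat.lt_succ_of_le hl))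
      rw [hone l hl2, one_mul] at h5
      exact h5
    have hk0 : 0 ≤ M.ker w h (M.vis 0 h) ω x * M.N := mul_nonneg ((A2 h _ ω).1 x) hN.le
    by_cases hz : M.lev h ω = 0
    · have e1 : ind (M.lev h ω = 0) = 1 := by
        unfold ind
        rw [if_pos hz]
      rw [e1, one_mul, m4_kq_of_le w (by omega : M.lev h ω ≤ M.L), hz]
      exact le_add_of_nonneg_right (Finset.sum_nonneg hnn)
    · have e1 : ind (M.lev h ω = 0) = 0 := by
        unfold ind
        rw [if_neg hz]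
      rw [e1, zero_mul, zero_add]
      by_cases hl : M.lev h ω ≤ M.L
      · obtain ⟨l, hl1⟩ : ∃ l, M.lev h ω = l + 1 := Nat.exists_eq_succ_of_ne_zero hz
        have h5 := hup h ω hl x
        rw [hl1] at h5
        exact le_trans h5 (hterm l (by omega) (by omega))
      · rw [hgt h ω hl x]
        exact le_trans (one_le_pow₀ ha1) (hterm M.L le_rfl hl)

end Pool.Agent.FQ
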