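import Pool.Agent.FQ.MDefs
import Pool.Agent.H73.Cube.Cells

/-!
# Project FQ, row M5: Bayes (helper51)
-/

set_option autoImplicit false
set_option linter.unusedSectionVars false

namespace Pool.Agent.FQ

open Finset Classical
open Pool.Agent.H73.Cube (EE Loc)

theorem m5_ind_and (p q : Prop) : ind (p ∧ q) = ind p * ind q := by
  unfold ind
  by_cases hp : p <;> by_cases hq : q <;> simp [hp, hq]

theorem m5_ind_nonneg (p : Prop) : 0 ≤ ind p := by
  unfold ind
  split_ifs <;> norm_num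

theorem m5_prod_ind {ι : Type} (s : Finset ι) (p : ι → Prop) :
    ∏ i ∈ s, ind (p i) = ind (∀ i ∈ s, p i) := by
  induction s using Finset.induction_on with
  | empty => simp [ind]
  | insert i s hi ih =>
    rw [prod_insert hi, ih, ← m5_ind_and]
    congr 1
    simp

section

variable {X Y Ob St Bx Jc : Type} [Fintype X] [Fintype Y] [Fintype Ob] [Fintype St] [Fintype Bx]
  [Fintype Jc] [DecidableEq X] [DecidableEq Y] [DecidableEq Ob] [DecidableEq St]
  [DecidableEq Bx] [DecidableEq Jc] {n T : ℕ} (M : Mac X Y Ob St Bx Jc n)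

/-- The condition on `y` coming from all witnesses but the one of the box of `h` with index 0. -/
def m5Oth (w : Bx × Fin (T + 1) → X) (h : St) (σ : Bx) (y : Y) : Prop :=
  ∀ σ', M.dB σ σ' ≤ 1 → ∀ t : Fin (T + 1), (σ', t) ≠ (M.box h, 0) → M.ok (w (σ', t)) y

theorem m5_mem_Cs (w : Bx × Fin (T + 1) → X) (h : St) (σ : Bx) (hσ : M.dB σ (M.box h) ≤ 1)
    (x' : X) (y : Y) :
    y ∈ M.Cs (Function.update w (M.box h, 0) x') σ ↔ M.ok x' y ∧ m5Oth M w h σ y := by
  simp only [Mac.Cs, mem_filter, mem_univ, true_and, m5Oth]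
  constructor
  · intro H
    refine ⟨?_, ?_⟩
    · have := H (M.box h) hσ 0
      rwa [Function.update_self] at this
    · intro σ' hσ' t ht
      have := H σ' hσ' t
      rwa [Function.update_of_ne ht] at this
  · rintro ⟨H1, H2⟩ σ' hσ' t
    by_cases ht : (σ', t) = (M.box h, 0)
    · rw [ht, Function.update_self]
      exact H1
    · rw [Function.update_of_ne ht]
      exact H2 σ' hσ' t ht

theorem m5_PP (w : Bx × Fin (T + 1) → X) (h : St) (θ : Jc × Bx)
    (hθ : M.dB θ.2 (M.box h) ≤ 1) (x' : X) (y : Y) :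
    M.PP (Function.update w (M.box h, 0) x') θ y =
      ind (m5Oth M w h θ.2 y) * (ind (M.ok x' y) *
        (1 / ((M.Cs (Function.update w (M.box h, 0) x') θ.2).card : ℝ))) := by
  have h1 : ind (y ∈ M.Cs (Function.update w (M.box h, 0) x') θ.2) =
      ind (M.ok x' y) * ind (m5Oth M w h θ.2 y) := by
    rw [← m5_ind_and]
    congr 1
    exact propext (m5_mem_Cs M w h θ.2 hθ x' y)
  rw [Mac.PP, h1]
  ring

theorem m5_prod_PP (w : Bx × Fin (T + 1) → X) (h : St) (I : Finset (Jc × Bx))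
    (hI : ∀ θ ∈ I, M.dB θ.2 (M.box h) ≤ 1) (x' : X) (ω : Jc × Bx → Y) :
    ∏ θ ∈ I, M.PP (Function.update w (M.box h, 0) x') θ (ω θ) =
      (∏ θ ∈ I, ind (m5Oth M w h θ.2 (ω θ))) * M.num w h I ω x' := by
  rw [Mac.num, ← m5_prod_ind, ← prod_mul_distrib, ← prod_mul_distrib]
  exact prod_congr rfl fun θ hθ => m5_PP M w h θ (hI θ hθ) x' (ω θ)

theorem m5_num_update (w : Bx × Fin (T + 1) → X) (h : St) (I : Finset (Jc × Bx))
    (ω : Jc × Bx → Y) (x' x'' : X) :
    M.num (Function.update w (M.box h, 0) x'') h I ω x' = M.num w h I ω x' := by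
  simp only [Mac.num, Function.update_idem]

theorem m5_ker_update (w : Bx × Fin (T + 1) → X) (h : St) (I : Finset (Jc × Bx))
    (ω : Jc × Bx → Y) (x' x'' : X) :
    M.ker (Function.update w (M.box h, 0) x'') h I ω x' = M.ker w h I ω x' := by
  simp only [Mac.ker, m5_num_update]

theorem m5_num_congr (w : Bx × Fin (T + 1) → X) (h : St) (I : Finset (Jc × Bx))
    (ω ω' : Jc × Bx → Y) (hω : ∀ θ ∈ I, ω θ = ω' θ) (x : X) :
    M.num w h I ω x = M.num w h I ω' x := by
  unfold Mac.num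
  congr 2
  apply propext
  constructor
  · intro H θ hθ
    rw [← hω θ hθ]
    exact H θ hθ
  · intro H θ hθ
    rw [hω θ hθ]
    exact H θ hθ

theorem m5_ker_congr (w : Bx × Fin (T + 1) → X) (h : St) (I : Finset (Jc × Bx))
    (ω ω' : Jc × Bx → Y) (hω : ∀ θ ∈ I, ω θ = ω' θ) (x : X) :
    M.ker w h I ω x = M.ker w h I ω' x := by
  unfold Mac.ker
  rw [m5_num_congr M w h I ω ω' hω x]
  congr 1
  exact sum_congr rfl fun x' _ => m5_num_congr M w h I ω ω' hω x'

theorem m5_num_nonneg (w : Bx × Fin (T + 1) → X) (h : St) (I : Finset (Jc × Bx))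
    (ω : Jc × Bx → Y) (x : X) : 0 ≤ M.num w h I ω x := by
  unfold Mac.num
  refine mul_nonneg (m5_ind_nonneg _) (prod_nonneg fun θ _ => ?_)
  positivity

theorem m5_sum_num (w : Bx × Fin (T + 1) → X) (h : St) (I : Finset (Jc × Bx))
    (ω : Jc × Bx → Y) (x : X) :
    (∑ x', M.num w h I ω x') * M.ker w h I ω x = M.num w h I ω x := by
  unfold Mac.ker
  by_cases h0 : ∑ x', M.num w h I ω x' = 0
  · have h1 := (sum_eq_zero_iff_of_nonneg fun x' _ => m5_num_nonneg M w h I ω x').1 h0 x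
      (mem_univ x)
    rw [h0, h1, zero_mul]
  · field_simp

end

theorem m5 (h1 : M1Statement) (hC : CongrStatement) : M5Statement := by
  intro X Y Ob St Bx Jc _ _ _ _ _ _ _ _ _ _ _ _ n T b M hM h I x Φ hI hΦ1 hΦ2
  have hPP1 : ∀ (w : Bx × Fin (T + 1) → X) θ, ∑ y, M.PP w θ y = 1 :=
    fun w => (h1 X Y Ob St Bx Jc n T b M hM w).2.2.2.1
  have hI' : ∀ θ ∈ I, M.dB θ.2 (M.box h) ≤ 1 := fun θ hθ => by
    rw [hM.dBcomm]
    exact hI θ hθ
  have hN : (M.N : ℝ) ≠ 0 := by
    have h2 : 0 < Fintype.card X := Fintype.card_pos_iff.2 ⟨x⟩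
    rw [hM.cX] at h2
    exact_mod_cast h2.ne'
  have hU : ∀ i : Bx × Fin (T + 1), ∑ a : X, M.U1 i a = 1 := by
    intro i
    simp only [Mac.U1, sum_const, card_univ, hM.cX, nsmul_eq_mul]
    field_simp
  set Q : (Bx × Fin (T + 1) → X) → Jc × Bx → Y → ℝ :=
    fun w θ y => if θ ∈ I then M.PP w θ y else M.PP (fun _ : Bx × Fin (T + 1) => x) θ y with hQ
  have hQ1 : ∀ (w : Bx × Fin (T + 1) → X) θ, ∑ y, Q w θ y = 1 := by
    intro w θ
    simp only [hQ]
    split_ifs
    · exact hPP1 w θ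
    · exact hPP1 _ θ
  -- the common form of both sides
  have key : ∀ F : (Bx × Fin (T + 1) → X) → (Jc × Bx → Y) → ℝ,
      (∀ w ω ω', (∀ θ ∈ I, ω θ = ω' θ) → F w ω = F w ω') →
      M.E2 F = EE M.U1 (fun w => ∑ a, M.U1 (M.box h, (0 : Fin (T + 1))) a *
        EE (Q (Function.update w (M.box h, 0) a)) (F (Function.update w (M.box h, 0) a))) := by
    intro F hF
    have e1 : M.E2 F = EE M.U1 (fun w => EE (Q w) (F w)) := by
      unfold Mac.E2
      congr 1
      funext w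
      refine hC (Jc × Bx) Y (M.PP w) (Q w) (fun θ => θ ∈ I) (F w) (F w) (hPP1 w) (hQ1 w) ?_
        (fun _ => rfl) (fun ω ω' => hF w ω ω')
      intro θ hθ a
      simp only [hQ]
      rw [if_pos hθ]
    rw [e1]
    exact (Pool.Agent.H73.Cube.EE_resample (P := M.U1) hU (M.box h, (0 : Fin (T + 1)))
      (fun w => EE (Q w) (F w))).symm
  rw [key (fun w ω => ind (w (M.box h, 0) = x) * Φ w ω)
      (fun w ω ω' hω => by rw [hΦ2 w ω ω' hω]),
    key (fun w ω => M.ker w h I ω x * Φ w ω)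
      (fun w ω ω' hω => by rw [hΦ2 w ω ω' hω, m5_ker_congr M w h I ω ω' hω x])]
  congr 1
  funext w
  -- the weights
  have hprod : ∀ (a : X) (ω : Jc × Bx → Y),
      ∏ θ, Q (Function.update w (M.box h, 0) a) θ (ω θ) =
        (∏ θ ∈ I, ind (m5Oth M w h θ.2 (ω θ))) * M.num w h I ω a *
          ∏ θ ∈ Iᶜ, M.PP (fun _ : Bx × Fin (T + 1) => x) θ (ω θ) := by
    intro a ω
    rw [← prod_mul_prod_compl I, ← m5_prod_PP M w h I hI' a ω]
    congr 1
    · refine prod_congr rfl fun θ hθ => ?_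
      simp only [hQ]
      rw [if_pos hθ]
    · refine prod_congr rfl fun θ hθ => ?_
      simp only [hQ]
      rw [if_neg (by simpa using hθ)]
  unfold EE
  simp only [mul_sum, hprod]
  rw [sum_comm, sum_comm (s := univ (α := X))]
  refine sum_congr rfl fun ω _ => ?_
  have e2 : ∀ a : X, Function.update w (M.box h, (0 : Fin (T + 1))) a (M.box h, 0) = a :=
    fun a => Function.update_self _ _ _
  simp only [e2, hΦ1, m5_ker_update, Mac.U1]
  set A := ∏ θ ∈ I, ind (m5Oth M w h θ.2 (ω θ)) with hA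
  set B := ∏ θ ∈ Iᶜ, M.PP (fun _ : Bx × Fin (T + 1) => x) θ (ω θ) with hB
  have e3 : ∀ a : X, 1 / (M.N : ℝ) * (A * M.num w h I ω a * B * (ind (a = x) * Φ w ω)) =
      1 / (M.N : ℝ) * A * B * Φ w ω * (if a = x then M.num w h I ω a else 0) := by
    intro a
    unfold ind
    split_ifs <;> ring
  have e4 : ∀ a : X, 1 / (M.N : ℝ) * (A * M.num w h I ω a * B * (M.ker w h I ω x * Φ w ω)) =
      1 / (M.N : ℝ) * A * B * Φ w ω * (M.num w h I ω a * M.ker w h I ω x) := by
    intro a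
    ring
  rw [sum_congr rfl fun a _ => e3 a, sum_congr rfl fun a _ => e4 a, ← mul_sum, ← mul_sum,
    sum_ite_eq' univ x, if_pos (mem_univ x), ← sum_mul, m5_sum_num]

end Pool.Agent.FQ
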