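import Pool.Agent.FQ.MDefs
import Pool.Agent.FQ.LibA
import Pool.Agent.H73.Cube.Cells

/-!
# Project FQ, row M6: few compatible vertices is rare
-/

set_option autoImplicit false

namespace Pool.Agent.FQ

open Finset Classical
open Pool.Agent.H73.Cube (EE EE_mono EE_const EE_smul EE_sum EE_nonneg EE_coord)

/-- A product of indicators. -/
theorem m6_ind_prod {A : Type} (I : Finset A) (p : A → Prop) :
    ∏ θ ∈ I, ind (p θ) = ind (∀ θ ∈ I, p θ) := by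
  by_cases h : ∀ θ ∈ I, p θ
  · have h1 : ind (∀ θ ∈ I, p θ) = 1 := if_pos h
    rw [h1]
    exact prod_eq_one fun θ hθ => if_pos (h θ hθ)
  · have h1 : ind (∀ θ ∈ I, p θ) = 0 := if_neg h
    rw [h1]
    push Not at h
    obtain ⟨θ, hθ, hp⟩ := h
    exact prod_eq_zero hθ (if_neg hp)

section

variable {X Y Ob St Bx Jc : Type} [Fintype X] [Fintype Y] [Fintype Ob] [Fintype St] [Fintype Bx]
  [Fintype Jc] [DecidableEq X] [DecidableEq Y] [DecidableEq Ob] [DecidableEq St]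
  [DecidableEq Bx] [DecidableEq Jc] {n T : ℕ} {b : ℝ} (M : Mac X Y Ob St Bx Jc n)

/-- Uniform seeds. -/
noncomputable def m6U (_ : Jc × Bx) (_ : Y) : ℝ := 1 / M.N

/-- All witnesses of the box of `h` with positive index are compatible with the seeds of `I`. -/
def m6J (h : St) (I : Finset (Jc × Bx)) (w : Bx × Fin (T + 1) → X) (ω : Jc × Bx → Y) : Prop :=
  ∀ t : Fin T, w (M.box h, t.succ) ∈ M.Gam I ω

theorem m6_dl (hM : MacHyp T M b) : 0 < 1 - M.dl ∧ 1 ≤ (1 - M.dl)⁻¹ ∧ (1 - M.dl)⁻¹ ≤ 2 := by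
  have h1 := hM.hdl1
  have h2 : 0 ≤ M.dl := by
    have h3 := hM.hdl
    have h4 := hM.c0
    have h5 : 0 ≤ ((T : ℝ) + 1) * M.Dl * M.c := by positivity
    linarith
  have h3 : 0 < 1 - M.dl := by linarith
  refine ⟨h3, (one_le_inv₀ h3).2 (by linarith), ?_⟩
  rw [inv_le_comm₀ h3 (by norm_num)]
  linarith

theorem m6_dom (h1 : M1Statement) (hM : MacHyp T M b) (w : Bx × Fin (T + 1) → X) (h : St)
    (I I' : Finset (Jc × Bx)) (hI : I ⊆ I') (hd : ∀ θ ∈ I, M.dB (M.box h) θ.2 ≤ 1)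
    (hN : 0 < M.N) (ω : Jc × Bx → Y) :
    ∏ θ, M.PP w θ (ω θ) ≤ (1 - M.dl)⁻¹ ^ I'.card * (ind (m6J M h I w ω) *
      ∏ θ, (if θ ∈ I' then 1 / (M.N : ℝ) else M.PP w θ (ω θ))) := by
  obtain ⟨-, -, k3, -, k5, -, -, -⟩ := h1 X Y Ob St Bx Jc n T b M hM w
  obtain ⟨d0, d1, -⟩ := m6_dl M hM
  have hNr : (0 : ℝ) < M.N := by exact_mod_cast hN
  have key : ∀ θ, M.PP w θ (ω θ) ≤ (if θ ∈ I' then (1 - M.dl)⁻¹ else 1) *
      ((if θ ∈ I then ind (∀ t : Fin T, M.ok (w (M.box h, t.succ)) (ω θ)) else 1) *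
        (if θ ∈ I' then 1 / (M.N : ℝ) else M.PP w θ (ω θ))) := by
    intro θ
    by_cases h' : θ ∈ I'
    · rw [if_pos h', if_pos h']
      have h5 := k5 θ (ω θ)
      have h6 : M.PP w θ (ω θ) ≤ ind (ω θ ∈ M.Cs w θ.2) / ((1 - M.dl) * M.N) := by
        rw [le_div_iff₀ (mul_pos d0 hNr)]
        exact h5
      have h7 : ind (ω θ ∈ M.Cs w θ.2) ≤
          (if θ ∈ I then ind (∀ t : Fin T, M.ok (w (M.box h, t.succ)) (ω θ)) else 1) := by
        split_ifs with h8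
        · refine ind_mono fun h9 t => ?_
          have h10 := (mem_filter.1 h9).2
          refine h10 (M.box h) ?_ t.succ
          rw [hM.dBcomm]
          exact hd θ h8
        · exact ind_le_one _
      refine h6.trans ?_
      have h8 : ind (ω θ ∈ M.Cs w θ.2) / ((1 - M.dl) * M.N) =
          (1 - M.dl)⁻¹ * (ind (ω θ ∈ M.Cs w θ.2) * (1 / (M.N : ℝ))) := by
        rw [div_eq_mul_inv, mul_inv]
        ring
      rw [h8]
      exact mul_le_mul_of_nonneg_left (mul_le_mul_of_nonneg_right h7 (by positivity))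
        (inv_nonneg.2 d0.le)
    · rw [if_neg h', if_neg h', if_neg fun h8 => h' (hI h8), one_mul, one_mul]
  refine (prod_le_prod (fun θ _ => k3 θ _) fun θ _ => key θ).trans (le_of_eq ?_)
  rw [prod_mul_distrib, prod_mul_distrib, prod_ite_mem, prod_ite_mem, univ_inter, univ_inter,
    prod_const, m6_ind_prod]
  congr 2
  have h2 : (∀ θ ∈ I, ∀ t : Fin T, M.ok (w (M.box h, t.succ)) (ω θ)) ↔ m6J M h I w ω := by
    unfold m6J Mac.Gam
    simp only [mem_filter, mem_univ, true_and]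
    exact ⟨fun h3 t θ hθ => h3 θ hθ t, fun h3 θ hθ t => h3 t θ hθ⟩
  rw [h2]

theorem m6_gam_congr (I : Finset (Jc × Bx)) {ω ω' : Jc × Bx → Y}
    (h : ∀ θ ∈ I, ω θ = ω' θ) : M.Gam I ω = M.Gam I ω' := by
  unfold Mac.Gam
  refine filter_congr fun x _ => ?_
  exact ⟨fun h1 θ hθ => h θ hθ ▸ h1 θ hθ, fun h1 θ hθ => (h θ hθ).symm ▸ h1 θ hθ⟩

theorem m6_B (h1 : M1Statement) (hC : CongrStatement) (hM : MacHyp T M b)
    (w : Bx × Fin (T + 1) → X) (h : St) (I I' : Finset (Jc × Bx)) (hI : I ⊆ I')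
    (hd : ∀ θ ∈ I, M.dB (M.box h) θ.2 ≤ 1) (hN : 0 < M.N) (g : (Jc × Bx → Y) → ℝ)
    (hg0 : ∀ ω, 0 ≤ g ω) (hg : ∀ ω ω', (∀ θ ∈ I', ω θ = ω' θ) → g ω = g ω') :
    EE (M.PP w) g ≤ (1 - M.dl)⁻¹ ^ I'.card *
      EE (m6U M) (fun ω => ind (m6J M h I w ω) * g ω) := by
  obtain ⟨-, -, -, k4, -, -, -, -⟩ := h1 X Y Ob St Bx Jc n T b M hM w
  set Q : Jc × Bx → Y → ℝ := fun θ y => if θ ∈ I' then 1 / (M.N : ℝ) else M.PP w θ y with hQ
  have hNr : (0 : ℝ) < M.N := by exact_mod_cast hN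
  have hu : ∑ _y : Y, (1 / (M.N : ℝ)) = 1 := by
    rw [sum_const, card_univ, hM.cY, nsmul_eq_mul]
    field_simp
  have s1 : EE (M.PP w) g ≤ (1 - M.dl)⁻¹ ^ I'.card *
      EE Q (fun ω => ind (m6J M h I w ω) * g ω) := by
    unfold EE
    rw [mul_sum]
    refine sum_le_sum fun ω _ => ?_
    have h2 := mul_le_mul_of_nonneg_right (m6_dom M h1 hM w h I I' hI hd hN ω) (hg0 ω)
    refine h2.trans (le_of_eq ?_)
    have h3 : ∏ θ, (if θ ∈ I' then 1 / (M.N : ℝ) else M.PP w θ (ω θ)) = ∏ θ, Q θ (ω θ) := rfl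
    rw [h3]
    ring
  refine s1.trans (le_of_eq ?_)
  congr 1
  refine hC (Jc × Bx) Y Q (m6U M) (fun θ => θ ∈ I') _ _ ?_ (fun _ => hu) ?_ (fun _ => rfl) ?_
  · intro θ
    rw [hQ]
    dsimp only
    split_ifs
    · exact hu
    · exact k4 θ
  · intro θ hθ y
    rw [hQ]
    exact if_pos hθ
  · intro ω ω' hω
    have h3 : m6J M h I w ω ↔ m6J M h I w ω' := by
      unfold m6J
      rw [m6_gam_congr M I fun θ hθ => hω θ (hI hθ)]
    rw [hg ω ω' hω, h3]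

theorem m6_D (hM : MacHyp T M b) (hN : 0 < M.N) (h : St) (σ : Bx) (ph : X → ℝ)
    (hph : ∑ x, 1 / (M.N : ℝ) * ph x = 1) (G : Finset X) :
    EE (M.U1 (T := T)) (fun w => ph (w (σ, 0)) * ind (∀ t : Fin T, w (M.box h, t.succ) ∈ G)) =
      ((G.card : ℝ) / M.N) ^ T := by
  have hNr : (0 : ℝ) < M.N := by exact_mod_cast hN
  set f : Bx × Fin (T + 1) → X → ℝ := fun i a => if i.2 = 0 then ph a else ind (a ∈ G) with hf
  set J : Finset (Bx × Fin (T + 1)) :=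
    insert (σ, 0) (univ.image fun t : Fin T => (M.box h, t.succ)) with hJ
  have hno : ((σ, 0) : Bx × Fin (T + 1)) ∉ univ.image fun t : Fin T => (M.box h, t.succ) := by
    intro h1
    obtain ⟨t, -, ht⟩ := mem_image.1 h1
    exact Fin.succ_ne_zero t (congrArg Prod.snd ht)
  have hin : ∀ t ∈ (univ : Finset (Fin T)), ∀ t' ∈ (univ : Finset (Fin T)),
      (M.box h, t.succ) = (M.box h, t'.succ) → t = t' := by
    intro t _ t' _ h1
    exact Fin.succ_injective _ (congrArg Prod.snd h1)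
  have hprod : ∀ F : Bx × Fin (T + 1) → ℝ, ∏ i ∈ J, F i =
      F (σ, 0) * ∏ t : Fin T, F (M.box h, t.succ) := by
    intro F
    rw [hJ, prod_insert hno, prod_image hin]
  have h1 : (fun w : Bx × Fin (T + 1) → X =>
      ph (w (σ, 0)) * ind (∀ t : Fin T, w (M.box h, t.succ) ∈ G)) =
      fun w => ∏ i ∈ J, f i (w i) := by
    funext w
    rw [hprod fun i => f i (w i)]
    have h2 : f (σ, 0) (w (σ, 0)) = ph (w (σ, 0)) := if_pos rfl
    have h3 : ∀ t : Fin T, f (M.box h, t.succ) (w (M.box h, t.succ)) =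
        ind (w (M.box h, t.succ) ∈ G) := fun t => if_neg (Fin.succ_ne_zero t)
    rw [h2, prod_congr rfl fun t _ => h3 t, m6_ind_prod]
    simp only [mem_univ, forall_true_left]
  have hU : ∀ i : Bx × Fin (T + 1), ∑ a, M.U1 (T := T) i a = 1 := by
    intro i
    unfold Mac.U1
    rw [sum_const, card_univ, hM.cX, nsmul_eq_mul]
    field_simp
  rw [h1, EE_prod_mem (M.U1 (T := T)) hU J f, hprod fun i => ∑ a, M.U1 i a * f i a]
  have h2 : ∑ a, M.U1 (T := T) (σ, 0) a * f (σ, 0) a = 1 := by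
    rw [← hph]
    exact sum_congr rfl fun a _ => by
      unfold Mac.U1
      rw [hf]
      dsimp only
      rw [if_pos rfl]
  have h3 : ∀ t : Fin T, ∑ a, M.U1 (T := T) (M.box h, t.succ) a * f (M.box h, t.succ) a =
      (G.card : ℝ) / M.N := by
    intro t
    have h4 : ∀ a, M.U1 (T := T) (M.box h, t.succ) a * f (M.box h, t.succ) a =
        1 / (M.N : ℝ) * (if a ∈ G then 1 else 0) := by
      intro a
      unfold Mac.U1
      rw [hf]
      dsimp only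
      rw [if_neg (Fin.succ_ne_zero t)]
      unfold ind
      split_ifs <;> rfl
    rw [sum_congr rfl fun a _ => h4 a, ← mul_sum, sum_ite_mem, univ_inter, sum_const,
      nsmul_eq_mul, mul_one]
    ring
  rw [h2, one_mul, prod_congr rfl fun t _ => h3 t, prod_const, card_univ, Fintype.card_fin]

theorem m6_fubini (ph : (Bx × Fin (T + 1) → X) → ℝ)
    (F : (Bx × Fin (T + 1) → X) → (Jc × Bx → Y) → ℝ) (g : (Jc × Bx → Y) → ℝ) :
    EE (M.U1 (T := T)) (fun w => ph w * EE (m6U M) (fun ω => F w ω * g ω)) =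
      EE (m6U M) (fun ω => EE (M.U1 (T := T)) (fun w => ph w * F w ω) * g ω) := by
  unfold EE
  simp only [mul_sum, sum_mul]
  rw [sum_comm]
  refine sum_congr rfl fun ω _ => sum_congr rfl fun w _ => ?_
  ring

theorem m6_num (hM : MacHyp T M b) (l k : ℕ) (hk : k ≤ 22 * M.Dl * M.μ l + 1) :
    (1 - M.dl)⁻¹ ^ k * ((M.a⁻¹) ^ M.μ l) ^ T ≤ 2 * Real.exp (-(50 * (M.μ l : ℝ))) := by
  obtain ⟨d0, d1, d2⟩ := m6_dl M hM
  have ha : 0 < M.a := by linarith [hM.ha]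
  have hT := hM.hT
  have e1 : (1 - M.dl)⁻¹ ^ (22 * M.Dl) ≤ M.a := by
    rw [inv_pow, inv_le_iff_one_le_mul₀ (pow_pos d0 _)]
    exact hM.ha22
  have e2 : (1 - M.dl)⁻¹ ^ k ≤ 2 * M.a ^ M.μ l := by
    calc (1 - M.dl)⁻¹ ^ k ≤ (1 - M.dl)⁻¹ ^ (22 * M.Dl * M.μ l + 1) := pow_le_pow_right₀ d1 hk
      _ = (1 - M.dl)⁻¹ * ((1 - M.dl)⁻¹ ^ (22 * M.Dl)) ^ M.μ l := by
          rw [pow_succ, pow_mul]
          ring
      _ ≤ 2 * M.a ^ M.μ l := mul_le_mul d2
          (pow_le_pow_left₀ (pow_nonneg (inv_nonneg.2 d0.le) _) e1 _)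
          (pow_nonneg (pow_nonneg (inv_nonneg.2 d0.le) _) _) (by norm_num)
  have e3 : M.a ^ M.μ l * ((M.a⁻¹) ^ M.μ l) ^ T = ((M.a ^ (T - 1))⁻¹) ^ M.μ l := by
    obtain ⟨T', rfl⟩ : ∃ T', T = T' + 1 := ⟨T - 1, by omega⟩
    rw [Nat.add_sub_cancel, pow_succ, ← inv_pow, ← pow_mul, ← pow_mul]
    have h1 : M.a ^ M.μ l * (M.a⁻¹) ^ M.μ l = 1 := by
      rw [← mul_pow, mul_inv_cancel₀ ha.ne', one_pow]
    calc M.a ^ M.μ l * ((M.a⁻¹) ^ (M.μ l * T') * (M.a⁻¹) ^ M.μ l) =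
        (M.a ^ M.μ l * (M.a⁻¹) ^ M.μ l) * (M.a⁻¹) ^ (M.μ l * T') := by ring
      _ = (M.a⁻¹) ^ (T' * M.μ l) := by rw [h1, one_mul, mul_comm T']
  have e4 : (M.a ^ (T - 1))⁻¹ ≤ Real.exp (-60) := by
    rw [Real.exp_neg]
    exact inv_anti₀ (Real.exp_pos _) hM.haT
  have e5 : ((M.a ^ (T - 1))⁻¹) ^ M.μ l ≤ Real.exp (-(50 * (M.μ l : ℝ))) := by
    refine (pow_le_pow_left₀ (inv_nonneg.2 (pow_nonneg ha.le _)) e4 _).trans ?_
    rw [← Real.exp_nat_mul]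
    refine Real.exp_le_exp.2 ?_
    have h1 : (0 : ℝ) ≤ M.μ l := Nat.cast_nonneg _
    nlinarith
  calc (1 - M.dl)⁻¹ ^ k * ((M.a⁻¹) ^ M.μ l) ^ T
      ≤ 2 * M.a ^ M.μ l * ((M.a⁻¹) ^ M.μ l) ^ T :=
        mul_le_mul_of_nonneg_right e2 (pow_nonneg (pow_nonneg (inv_nonneg.2 ha.le) _) _)
    _ = 2 * ((M.a ^ (T - 1))⁻¹) ^ M.μ l := by rw [mul_assoc, e3]
    _ ≤ 2 * Real.exp (-(50 * (M.μ l : ℝ))) := by linarith

theorem m6_main (h1 : M1Statement) (h2 : M2Statement) (hC : CongrStatement)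
    (hM : MacHyp T M b) (hN : 0 < M.N) (l : ℕ) (h : St) (hgk : M.gOK l h)
    (I' : Finset (Jc × Bx)) (hI : M.vis l h ⊆ I') (hcard : I'.card ≤ (M.vis l h).card + 1)
    (σ : Bx) (ph : X → ℝ) (hph0 : ∀ x, 0 ≤ ph x) (hph : ∑ x, 1 / (M.N : ℝ) * ph x = 1)
    (g : (Jc × Bx → Y) → ℝ) (hg0 : ∀ ω, 0 ≤ g ω)
    (hg : ∀ ω ω', (∀ θ ∈ I', ω θ = ω' θ) → g ω = g ω') (hgU : EE (m6U M) g ≤ 1)
    (hgb : ∀ ω, M.OKs l h ω → g ω = 0) :
    M.E2 (fun (w : Bx × Fin (T + 1) → X) ω => ph (w (σ, 0)) * g ω) ≤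
      2 * Real.exp (-(50 * (M.μ l : ℝ))) := by
  have hNr : (0 : ℝ) < M.N := by exact_mod_cast hN
  obtain ⟨d0, d1, d2⟩ := m6_dl M hM
  have ha : 0 < M.a := by linarith [hM.ha]
  have hX : 0 < Fintype.card X := by rw [hM.cX]; exact hN
  have hY : 0 < Fintype.card Y := by rw [hM.cY]; exact hN
  obtain ⟨x0⟩ := Fintype.card_pos_iff.1 hX
  obtain ⟨y0⟩ := Fintype.card_pos_iff.1 hY
  have hk : (M.vis l h).card ≤ 22 * M.Dl * M.μ l :=
    (h2 X Y Ob St Bx Jc n T b M hM (fun _ => x0) h ∅ (fun _ => y0)).2.2.2.2.2.2.1 l hgk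
  have hd : ∀ θ ∈ M.vis l h, M.dB (M.box h) θ.2 ≤ 1 := fun θ hθ => (mem_filter.1 hθ).2.2
  have hU0 : ∀ (i : Bx × Fin (T + 1)) (a : X), 0 ≤ M.U1 i a := fun _ _ => by
    unfold Mac.U1
    positivity
  have hV0 : ∀ (i : Jc × Bx) (a : Y), 0 ≤ m6U M i a := fun _ _ => by
    unfold m6U
    positivity
  set c : ℝ := (1 - M.dl)⁻¹ ^ I'.card with hc
  have hc0 : 0 ≤ c := pow_nonneg (inv_nonneg.2 d0.le) _
  have s1 : M.E2 (fun (w : Bx × Fin (T + 1) → X) ω => ph (w (σ, 0)) * g ω) ≤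
      EE (M.U1 (T := T)) (fun w => c * (ph (w (σ, 0)) *
        EE (m6U M) (fun ω => ind (m6J M h (M.vis l h) w ω) * g ω))) := by
    unfold Mac.E2
    refine EE_mono hU0 fun w _ => ?_
    rw [EE_smul]
    have h3 := mul_le_mul_of_nonneg_left
      (m6_B M h1 hC hM w h (M.vis l h) I' hI hd hN g hg0 hg) (hph0 (w (σ, 0)))
    refine h3.trans (le_of_eq ?_)
    ring
  refine s1.trans ?_
  rw [EE_smul, m6_fubini M (fun w => ph (w (σ, 0)))
    (fun w ω => ind (m6J M h (M.vis l h) w ω)) g]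
  have s2 : EE (m6U M) (fun ω => EE (M.U1 (T := T)) (fun w => ph (w (σ, 0)) *
      ind (m6J M h (M.vis l h) w ω)) * g ω) ≤
      EE (m6U M) (fun ω => ((M.a⁻¹) ^ M.μ l) ^ T * g ω) := by
    refine EE_mono hV0 fun ω _ => ?_
    by_cases hok : M.OKs l h ω
    · rw [hgb ω hok, mul_zero, mul_zero]
    · refine mul_le_mul_of_nonneg_right ?_ (hg0 ω)
      have h4 := m6_D M hM hN h σ ph hph (M.Gam (M.vis l h) ω)
      have h5 : (fun w : Bx × Fin (T + 1) → X => ph (w (σ, 0)) *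
          ind (m6J M h (M.vis l h) w ω)) = fun w => ph (w (σ, 0)) *
          ind (∀ t : Fin T, w (M.box h, t.succ) ∈ M.Gam (M.vis l h) ω) := rfl
      rw [h5, h4]
      refine pow_le_pow_left₀ (by positivity) ?_ _
      rw [div_le_iff₀ hNr]
      have h6 : ¬ (M.N : ℝ) ≤ ((M.Gam (M.vis l h) ω).card : ℝ) * M.a ^ M.μ l :=
        fun h7 => hok ⟨hgk, h7⟩
      push Not at h6
      rw [inv_pow, ← div_eq_inv_mul, le_div_iff₀ (pow_pos ha _)]
      exact h6.le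
  have s3 : EE (m6U M) (fun ω => ((M.a⁻¹) ^ M.μ l) ^ T * g ω) ≤ ((M.a⁻¹) ^ M.μ l) ^ T := by
    rw [EE_smul]
    exact mul_le_of_le_one_right (pow_nonneg (pow_nonneg (inv_nonneg.2 ha.le) _) _) hgU
  calc c * EE (m6U M) (fun ω => EE (M.U1 (T := T)) (fun w => ph (w (σ, 0)) *
      ind (m6J M h (M.vis l h) w ω)) * g ω) ≤ c * ((M.a⁻¹) ^ M.μ l) ^ T :=
        mul_le_mul_of_nonneg_left (s2.trans s3) hc0
    _ ≤ 2 * Real.exp (-(50 * (M.μ l : ℝ))) := m6_num M hM l _ (by omega)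

end

/-- Row M6. -/
theorem m6 (h1 : M1Statement) (h2 : M2Statement) (hC : CongrStatement) : M6Statement := by
  intro X Y Ob St Bx Jc _ _ _ _ _ _ _ _ _ _ _ _ n T b M hM l h hgk
  have hexp : (0 : ℝ) ≤ 2 * Real.exp (-(50 * (M.μ l : ℝ))) := by positivity
  by_cases hN : M.N = 0
  · -- no vertices: all expectations vanish
    have hX : IsEmpty X := by
      rw [← Fintype.card_eq_zero_iff, hM.cX, hN]
    have hW : IsEmpty (Bx × Fin (T + 1) → X) := ⟨fun w => hX.false (w (M.box h, 0))⟩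
    have h0 : ∀ f : (Bx × Fin (T + 1) → X) → (Jc × Bx → Y) → ℝ, M.E2 f = 0 := by
      intro f
      unfold Mac.E2 EE
      rw [univ_eq_empty, sum_empty]
    exact ⟨by rw [h0]; exact hexp, fun σ x => by rw [h0]; exact hexp,
      fun θ y => by rw [h0]; exact hexp⟩
  have hN' : 0 < M.N := Nat.pos_of_ne_zero hN
  have hNr : (0 : ℝ) < M.N := by exact_mod_cast hN'
  have hV0 : ∀ (i : Jc × Bx) (a : Y), 0 ≤ m6U M i a := fun _ _ => by
    unfold m6U
    positivity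
  have hV1 : ∀ i : Jc × Bx, ∑ a, m6U M i a = 1 := by
    intro i
    unfold m6U
    rw [sum_const, card_univ, hM.cY, nsmul_eq_mul]
    field_simp
  have hone : ∑ _x : X, 1 / (M.N : ℝ) * 1 = 1 := by
    rw [sum_const, card_univ, hM.cX, nsmul_eq_mul]
    field_simp
  have hdep : ∀ ω ω' : Jc × Bx → Y, (∀ θ ∈ M.vis l h, ω θ = ω' θ) →
      ind (¬ M.OKs l h ω) = ind (¬ M.OKs l h ω') := by
    intro ω ω' hω
    have h3 : M.OKs l h ω ↔ M.OKs l h ω' := by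
      unfold Mac.OKs
      rw [m6_gam_congr M (M.vis l h) hω]
    rw [h3]
  have hbad : ∀ ω, M.OKs l h ω → ind (¬ M.OKs l h ω) = 0 := fun ω hω => if_neg fun h3 => h3 hω
  have hle : EE (m6U M) (fun ω => ind (¬ M.OKs l h ω)) ≤ 1 :=
    (EE_mono hV0 fun ω _ => ind_le_one _).trans (EE_const hV1 1).le
  refine ⟨?_, ?_, ?_⟩
  · have h3 := m6_main M h1 h2 hC hM hN' l h hgk (M.vis l h) (Subset.refl _) (Nat.le_succ _)
      (M.box h) (fun _ => 1) (fun _ => zero_le_one) hone (fun ω => ind (¬ M.OKs l h ω))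
      (fun ω => ind_nonneg _) hdep hle hbad
    have h4 : (fun (_ : Bx × Fin (T + 1) → X) (ω : Jc × Bx → Y) => ind (¬ M.OKs l h ω)) =
        fun (_ : Bx × Fin (T + 1) → X) ω => (1 : ℝ) * ind (¬ M.OKs l h ω) := by
      funext w ω
      rw [one_mul]
    rw [h4]
    exact h3
  · intro σ x
    have hph : ∑ x', 1 / (M.N : ℝ) * ((M.N : ℝ) * ind (x' = x)) = 1 := by
      have h5 : ∀ x', 1 / (M.N : ℝ) * ((M.N : ℝ) * ind (x' = x)) = if x' = x then 1 else 0 := by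
        intro x'
        unfold ind
        split_ifs
        · field_simp
        · ring
      rw [sum_congr rfl fun x' _ => h5 x', sum_ite_eq' univ x, if_pos (mem_univ x)]
    exact m6_main M h1 h2 hC hM hN' l h hgk (M.vis l h) (Subset.refl _) (Nat.le_succ _)
      σ (fun x' => (M.N : ℝ) * ind (x' = x)) (fun x' => mul_nonneg hNr.le (ind_nonneg _)) hph
      (fun ω => ind (¬ M.OKs l h ω)) (fun ω => ind_nonneg _) hdep hle hbad
  · intro θ y
    have hgU : EE (m6U M) (fun ω => (M.N : ℝ) * ind (ω θ = y) * ind (¬ M.OKs l h ω)) ≤ 1 := by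
      have h5 : EE (m6U M) (fun ω => (M.N : ℝ) * ind (ω θ = y)) = 1 := by
        rw [EE_smul]
        have h6 := EE_coord (P := m6U M) hV1 θ (fun y' => ind (y' = y))
        rw [h6]
        have h7 : ∀ y', m6U M θ y' * ind (y' = y) = if y' = y then 1 / (M.N : ℝ) else 0 := by
          intro y'
          unfold m6U ind
          split_ifs <;> ring
        rw [sum_congr rfl fun y' _ => h7 y', sum_ite_eq' univ y, if_pos (mem_univ y)]
        field_simp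
      rw [← h5]
      refine EE_mono hV0 fun ω _ => ?_
      exact mul_le_of_le_one_right (mul_nonneg hNr.le (ind_nonneg _)) (ind_le_one _)
    have h3 := m6_main M h1 h2 hC hM hN' l h hgk (insert θ (M.vis l h)) (subset_insert _ _)
      (card_insert_le _ _) (M.box h) (fun _ => 1) (fun _ => zero_le_one) hone
      (fun ω => (M.N : ℝ) * ind (ω θ = y) * ind (¬ M.OKs l h ω))
      (fun ω => mul_nonneg (mul_nonneg hNr.le (ind_nonneg _)) (ind_nonneg _))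
      (fun ω ω' hω => by
        rw [hdep ω ω' fun θ' hθ' => hω θ' (mem_insert_of_mem hθ'),
          hω θ (mem_insert_self _ _)])
      hgU (fun ω hω => by rw [hbad ω hω, mul_zero])
    have h4 : (fun (_ : Bx × Fin (T + 1) → X) (ω : Jc × Bx → Y) =>
        (M.N : ℝ) * ind (ω θ = y) * ind (¬ M.OKs l h ω)) =
        fun (_ : Bx × Fin (T + 1) → X) ω =>
          (1 : ℝ) * ((M.N : ℝ) * ind (ω θ = y) * ind (¬ M.OKs l h ω)) := by
      funext w ω
      rw [one_mul]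
    rw [h4]
    exact h3

end Pool.Agent.FQ
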