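import Pool.Agent.FQ.MDefs

/-!
# Project FQ, row M7: levels are rare
-/

set_option autoImplicit false

namespace Pool.Agent.FQ

open Finset Classical
open Pool.Agent.H73.Cube (EE Loc EE_sum EE_mono)

theorem m7_ind_nonneg (p : Prop) : 0 ≤ ind p := by
  unfold ind
  split_ifs <;> norm_num

theorem m7_ind_le (p : Prop) : ind p ≤ 1 := by
  unfold ind
  split_ifs <;> norm_num

theorem m7_ind_pos {p : Prop} (h : p) : ind p = 1 := if_pos h

theorem m7_ind_neg {p : Prop} (h : ¬ p) : ind p = 0 := if_neg h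

section

variable {X Y Ob St Bx Jc : Type} [Fintype X] [Fintype Y] [Fintype Ob] [Fintype St] [Fintype Bx]
  [Fintype Jc] [DecidableEq X] [DecidableEq Y] [DecidableEq Ob] [DecidableEq St]
  [DecidableEq Bx] [DecidableEq Jc] {n T : ℕ}

theorem m7_mono (M : Mac X Y Ob St Bx Jc n)
    (hP : ∀ (w : Bx × Fin (T + 1) → X) θ y, 0 ≤ M.PP w θ y)
    (f g : (Bx × Fin (T + 1) → X) → (Jc × Bx → Y) → ℝ) (h : ∀ w ω, f w ω ≤ g w ω) :
    M.E2 f ≤ M.E2 g := by
  unfold Mac.E2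
  refine EE_mono (fun _ _ => ?_) fun w _ => EE_mono (hP w) fun ω _ => h w ω
  unfold Mac.U1
  positivity

theorem m7_sum (M : Mac X Y Ob St Bx Jc n) {β : Type} (s : Finset β)
    (f : β → (Bx × Fin (T + 1) → X) → (Jc × Bx → Y) → ℝ) :
    M.E2 (fun w ω => ∑ b ∈ s, f b w ω) = ∑ b ∈ s, M.E2 (f b) := by
  unfold Mac.E2
  simp only [EE_sum]

theorem m7_union (M : Mac X Y Ob St Bx Jc n) (Ψ : ℝ) (hΨ : 0 ≤ Ψ) (l : ℕ) (h : St)
    (ω : Jc × Bx → Y) :
    Ψ * ind (¬ M.LevLe l h ω) ≤ ∑ l' ∈ Icc l M.L,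
      ∑ h' ∈ univ.filter (fun h' => M.D h h' ≤ 2 * (l' - l) + 1), Ψ * ind (¬ M.OKs l' h' ω) := by
  have hnn : ∀ l' h', 0 ≤ Ψ * ind (¬ M.OKs l' h' ω) := fun l' h' =>
    mul_nonneg hΨ (m7_ind_nonneg _)
  by_cases hl : M.LevLe l h ω
  · rw [m7_ind_neg (not_not.2 hl), mul_zero]
    exact sum_nonneg fun l' _ => sum_nonneg fun h' _ => hnn l' h'
  · have hl2 : ∃ l', l ≤ l' ∧ l' ≤ M.L ∧ ∃ h', M.D h h' ≤ 2 * (l' - l) + 1 ∧
        ¬ M.OKs l' h' ω := by
      by_contra hc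
      push Not at hc
      exact hl fun l' a1 a2 h' a3 => hc l' a1 a2 h' a3
    obtain ⟨l', a1, a2, h', a3, a4⟩ := hl2
    have b1 : Ψ * ind (¬ M.OKs l' h' ω) ≤
        ∑ h' ∈ univ.filter (fun h' => M.D h h' ≤ 2 * (l' - l) + 1),
          Ψ * ind (¬ M.OKs l' h' ω) :=
      single_le_sum (f := fun h' => Ψ * ind (¬ M.OKs l' h' ω)) (fun h' _ => hnn l' h')
        (mem_filter.2 ⟨mem_univ _, a3⟩)
    have b2 : ∑ h' ∈ univ.filter (fun h' => M.D h h' ≤ 2 * (l' - l) + 1),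
          Ψ * ind (¬ M.OKs l' h' ω) ≤ ∑ l' ∈ Icc l M.L,
        ∑ h' ∈ univ.filter (fun h' => M.D h h' ≤ 2 * (l' - l) + 1),
          Ψ * ind (¬ M.OKs l' h' ω) :=
      single_le_sum (f := fun l' => ∑ h' ∈ univ.filter (fun h' => M.D h h' ≤ 2 * (l' - l) + 1),
          Ψ * ind (¬ M.OKs l' h' ω)) (fun l' _ => sum_nonneg fun h' _ => hnn l' h')
        (mem_Icc.2 ⟨a1, a2⟩)
    rw [m7_ind_pos hl]
    rw [m7_ind_pos a4] at b1
    exact b1.trans b2

theorem m7_count (M : Mac X Y Ob St Bx Jc n) (hc : ∀ h h', M.D h h' = M.D h' h) (k m : ℕ)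
    (hb : ∀ h, (univ.filter (fun h' => M.D h h' ≤ k)).card ≤ m) (g : St → ℝ)
    (hg : ∀ h, 0 ≤ g h) :
    ∑ h, ∑ h' ∈ univ.filter (fun h' => M.D h h' ≤ k), g h' ≤ m * ∑ h, g h := by
  have e1 : ∑ h, ∑ h' ∈ univ.filter (fun h' => M.D h h' ≤ k), g h' =
      ∑ h', ∑ _h ∈ univ.filter (fun h => M.D h' h ≤ k), g h' := by
    refine sum_comm' fun x y => ?_
    simp only [mem_univ, mem_filter, true_and, and_true]
    rw [hc x y]
  rw [e1, mul_sum]
  refine sum_le_sum fun h' _ => ?_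
  rw [sum_const, nsmul_eq_mul]
  exact mul_le_mul_of_nonneg_right (by exact_mod_cast hb h') (hg h')

end

/-- Row M7. -/
theorem m7 (h1 : M1Statement) : M7Statement := by
  intro X Y Ob St Bx Jc _ _ _ _ _ _ _ _ _ _ _ _ n T b M hM
  have hP : ∀ (w : Bx × Fin (T + 1) → X) θ y, 0 ≤ M.PP w θ y := fun w =>
    (h1 X Y Ob St Bx Jc n T b M hM w).2.2.1
  refine ⟨?_, ?_⟩
  · intro Ψ hΨ0 hΨ2 hΨ l h
    refine (m7_mono M hP _ _ fun w ω => m7_union M (Ψ w ω) (hΨ0 w ω) l h ω).trans ?_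
    rw [m7_sum]
    unfold Mac.err
    refine sum_le_sum fun l' hl' => ?_
    rw [m7_sum]
    refine sum_le_sum fun h' _ => ?_
    have he := Real.exp_pos (-(50 * (M.μ l' : ℝ)))
    by_cases hg : M.gOK l' h'
    · rw [m7_ind_neg (not_not.2 hg), zero_add]
      exact hΨ l' h' (mem_Icc.1 hl').2 hg
    · rw [m7_ind_pos hg]
      have h2 : M.E2 (fun w ω => Ψ w ω * ind (¬ M.OKs l' h' ω)) ≤ M.E2 Ψ :=
        m7_mono M hP _ _ fun w ω => mul_le_of_le_one_right (hΨ0 w ω) (m7_ind_le _)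
      linarith
  · intro l hl
    have hmono : Monotone M.μ := monotone_nat_of_le_succ fun k => by
      rw [hM.mu1 k]
      omega
    have hn1 : (1 : ℝ) ≤ n := by
      have := hM.hn
      have h2 : (1000 : ℝ) ≤ n := by exact_mod_cast this
      linarith
    have hn0 : (0 : ℝ) < n := by linarith
    have hS : (0 : ℝ) ≤ Fintype.card St := Nat.cast_nonneg _
    set E := Real.exp (-((M.μ l : ℝ) / 16)) with hE
    have hE0 : 0 < E := Real.exp_pos _
    -- one level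
    have key : ∀ l' ∈ Icc l M.L,
        ∑ h, ∑ h' ∈ univ.filter (fun h' => M.D h h' ≤ 2 * (l' - l) + 1),
          2 * (ind (¬ M.gOK l' h') + Real.exp (-(50 * (M.μ l' : ℝ)))) ≤
        Fintype.card St * (E / (n : ℝ) ^ 30) / ((n : ℝ) + 1) := by
      intro l' hl'
      obtain ⟨a1, a2⟩ := mem_Icc.1 hl'
      have c1 := m7_count M hM.Dcomm (2 * (l' - l) + 1) ((n + 1) ^ (2 * (l' - l) + 1))
        (fun h => hM.ball h _) (fun h' => 2 * (ind (¬ M.gOK l' h') +
          Real.exp (-(50 * (M.μ l' : ℝ))))) (fun h' => by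
            have := m7_ind_nonneg (¬ M.gOK l' h')
            positivity)
      refine c1.trans ?_
      have c2 : ∑ h', 2 * (ind (¬ M.gOK l' h') + Real.exp (-(50 * (M.μ l' : ℝ)))) ≤
          Fintype.card St * (4 * Real.exp (-((M.μ l' : ℝ) / 8))) := by
        rw [← mul_sum, sum_add_distrib, sum_const, nsmul_eq_mul, card_univ]
        have d1 := hM.gfr l' a2
        have d2 : Real.exp (-(50 * (M.μ l' : ℝ))) ≤ Real.exp (-((M.μ l' : ℝ) / 8)) := by
          refine Real.exp_le_exp.2 ?_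
          have : (0 : ℝ) ≤ M.μ l' := Nat.cast_nonneg _
          linarith
        have d3 := mul_le_mul_of_nonneg_left d2 hS
        linarith
      have c3 : ((((n + 1) ^ (2 * (l' - l) + 1) : ℕ)) : ℝ) = ((n : ℝ) + 1) ^ (2 * (l' - l) + 1) := by
        push_cast
        rfl
      rw [c3]
      refine (mul_le_mul_of_nonneg_left c2 (by positivity)).trans ?_
      rw [le_div_iff₀ (by positivity)]
      have c4 : ((n : ℝ) + 1) ^ (2 * (l' - l) + 1) * 4 * ((n : ℝ) + 1) * (n : ℝ) ^ 30 ≤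
          Real.exp ((M.μ l' : ℝ) / 16) := by
        refine le_trans ?_ (hM.mun l')
        have f1 : (n : ℝ) ^ 30 ≤ ((n : ℝ) + 1) ^ 30 := pow_le_pow_left₀ hn0.le (by linarith) 30
        have f2 : (4 : ℝ) ≤ (n : ℝ) + 1 := by
          have := hM.hn
          have h2 : (1000 : ℝ) ≤ n := by exact_mod_cast this
          linarith
        calc ((n : ℝ) + 1) ^ (2 * (l' - l) + 1) * 4 * ((n : ℝ) + 1) * (n : ℝ) ^ 30
            ≤ ((n : ℝ) + 1) ^ (2 * (l' - l) + 1) * ((n : ℝ) + 1) * ((n : ℝ) + 1) *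
              ((n : ℝ) + 1) ^ 30 := by
              refine mul_le_mul ?_ f1 (by positivity) (by positivity)
              refine mul_le_mul_of_nonneg_right ?_ (by positivity)
              exact mul_le_mul_of_nonneg_left f2 (by positivity)
          _ = ((n : ℝ) + 1) ^ (2 * (l' - l) + 33) := by
              ring
          _ ≤ ((n : ℝ) + 1) ^ (2 * l' + 40) :=
              pow_le_pow_right₀ (by linarith) (by omega)
      have c5 : Real.exp (-((M.μ l' : ℝ) / 8)) * Real.exp ((M.μ l' : ℝ) / 16) ≤ E := by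
        rw [← Real.exp_add, hE]
        refine Real.exp_le_exp.2 ?_
        have : (M.μ l : ℝ) ≤ M.μ l' := by exact_mod_cast hmono a1
        linarith
      have c6 : 0 < Real.exp (-((M.μ l' : ℝ) / 8)) := Real.exp_pos _
      have c7 : ((n : ℝ) + 1) ^ (2 * (l' - l) + 1) * 4 * ((n : ℝ) + 1) * (n : ℝ) ^ 30 *
          Real.exp (-((M.μ l' : ℝ) / 8)) ≤ E := by
        refine le_trans ?_ c5
        rw [mul_comm]
        exact mul_le_mul_of_nonneg_left c4 c6.le
      have c8 : ((n : ℝ) + 1) ^ (2 * (l' - l) + 1) * 4 * ((n : ℝ) + 1) *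
          Real.exp (-((M.μ l' : ℝ) / 8)) ≤ E / (n : ℝ) ^ 30 := by
        rw [le_div_iff₀ (by positivity)]
        linarith
      calc ((n : ℝ) + 1) ^ (2 * (l' - l) + 1) *
            (Fintype.card St * (4 * Real.exp (-((M.μ l' : ℝ) / 8)))) * ((n : ℝ) + 1)
          = Fintype.card St * (((n : ℝ) + 1) ^ (2 * (l' - l) + 1) * 4 * ((n : ℝ) + 1) *
          Real.exp (-((M.μ l' : ℝ) / 8))) := by ring
        _ ≤ Fintype.card St * (E / (n : ℝ) ^ 30) := mul_le_mul_of_nonneg_left c8 hS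
    have hsum : ∑ h, M.err l h = ∑ l' ∈ Icc l M.L,
        ∑ h, ∑ h' ∈ univ.filter (fun h' => M.D h h' ≤ 2 * (l' - l) + 1),
          2 * (ind (¬ M.gOK l' h') + Real.exp (-(50 * (M.μ l' : ℝ)))) := by
      unfold Mac.err
      exact sum_comm
    rw [hsum]
    refine (sum_le_sum key).trans ?_
    rw [sum_const, nsmul_eq_mul, Nat.card_Icc]
    have g1 : ((M.L + 1 - l : ℕ) : ℝ) ≤ (n : ℝ) + 1 := by
      have := hM.hLn
      have h3 : M.L + 1 - l ≤ n + 1 := by omega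
      exact_mod_cast h3
    have g2 : 0 ≤ Fintype.card St * (E / (n : ℝ) ^ 30) / ((n : ℝ) + 1) := by positivity
    refine (mul_le_mul_of_nonneg_right g1 g2).trans (le_of_eq ?_)
    field_simp

end Pool.Agent.FQ
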