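import Pool.Agent.FQ.MDefs
import Pool.Agent.H73.Cube.Cells

/-!
# Project FQ, row M8: the balance of the kernel in expectation over the witnesses

See note 5216 on MP_a55b9e_co, part I.
-/

set_option autoImplicit false
set_option linter.unusedSectionVars false

namespace Pool.Agent.FQ

open Finset Classical
open Pool.Agent.H73.Cube (EE Loc EE_const EE_add EE_sub EE_smul EE_sum EE_mono EE_nonneg EE_coord)

theorem m8_ind_nonneg (p : Prop) : 0 ≤ ind p := by
  unfold ind; split_ifs <;> norm_num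

theorem m8_ind_le_one (p : Prop) : ind p ≤ 1 := by
  unfold ind; split_ifs <;> norm_num

section

variable {X Y Ob St Bx Jc : Type} [Fintype X] [Fintype Y] [Fintype Ob] [Fintype St] [Fintype Bx]
  [Fintype Jc] [DecidableEq X] [DecidableEq Y] [DecidableEq Ob] [DecidableEq St]
  [DecidableEq Bx] [DecidableEq Jc] {n T : ℕ} {b : ℝ} {M : Mac X Y Ob St Bx Jc n}

theorem m8_N (hM : MacHyp T M b) (x : X) : (0 : ℝ) < M.N := by
  have h1 : 0 < M.N := by
    rw [← hM.cX]
    exact Fintype.card_pos_iff.2 ⟨x⟩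
  exact_mod_cast h1

theorem m8_U0 (i : Bx × Fin (T + 1)) (a : X) : 0 ≤ M.U1 i a := by
  unfold Mac.U1
  positivity

theorem m8_U1 (hM : MacHyp T M b) (x : X) (i : Bx × Fin (T + 1)) : ∑ a, M.U1 i a = 1 := by
  unfold Mac.U1
  rw [Finset.sum_const, Finset.card_univ, hM.cX, nsmul_eq_mul, mul_one_div_cancel (m8_N hM x).ne']

theorem m8_add (f g : (Bx × Fin (T + 1) → X) → (Jc × Bx → Y) → ℝ) :
    M.E2 (fun w ω => f w ω + g w ω) = M.E2 f + M.E2 g := by
  unfold Mac.E2
  rw [← EE_add]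
  congr 1
  funext w
  rw [← EE_add]

theorem m8_smul (c : ℝ) (f : (Bx × Fin (T + 1) → X) → (Jc × Bx → Y) → ℝ) :
    M.E2 (fun w ω => c * f w ω) = c * M.E2 f := by
  unfold Mac.E2
  rw [← EE_smul]
  congr 1
  funext w
  rw [← EE_smul]

theorem m8_sum {β : Type} (s : Finset β)
    (f : β → (Bx × Fin (T + 1) → X) → (Jc × Bx → Y) → ℝ) :
    M.E2 (fun w ω => ∑ a ∈ s, f a w ω) = ∑ a ∈ s, M.E2 (f a) := by
  unfold Mac.E2
  rw [← EE_sum]
  congr 1
  funext w
  rw [← EE_sum]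

theorem m8_mono (hP : ∀ (w : Bx × Fin (T + 1) → X) θ y, 0 ≤ M.PP w θ y)
    {f g : (Bx × Fin (T + 1) → X) → (Jc × Bx → Y) → ℝ} (h : ∀ w ω, f w ω ≤ g w ω) :
    M.E2 f ≤ M.E2 g := by
  unfold Mac.E2
  exact EE_mono m8_U0 fun w _ => EE_mono (hP w) fun ω _ => h w ω

theorem m8_nonneg (hP : ∀ (w : Bx × Fin (T + 1) → X) θ y, 0 ≤ M.PP w θ y)
    {f : (Bx × Fin (T + 1) → X) → (Jc × Bx → Y) → ℝ} (h : ∀ w ω, 0 ≤ f w ω) :
    0 ≤ M.E2 f := by
  unfold Mac.E2
  exact EE_nonneg m8_U0 fun w => EE_nonneg (hP w) fun ω => h w ω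

theorem m8_coord (hM : MacHyp T M b) (hP : ∀ (w : Bx × Fin (T + 1) → X) θ, ∑ y, M.PP w θ y = 1)
    (x : X) (i : Bx × Fin (T + 1)) :
    M.E2 (fun w _ => ind (w i = x)) = 1 / M.N := by
  unfold Mac.E2
  have h1 : (fun w : Bx × Fin (T + 1) → X => EE (M.PP w) (fun _ => ind (w i = x))) =
      fun w => (fun a : X => ind (a = x)) (w i) := by
    funext w
    rw [EE_const (hP w)]
  have h2 := EE_coord (P := M.U1) (m8_U1 hM x) i (fun a : X => ind (a = x))
  rw [h1]
  refine h2.trans ?_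
  unfold Mac.U1
  rw [Finset.sum_eq_single x]
  · unfold ind
    rw [if_pos rfl, mul_one]
  · intro a _ ha
    unfold ind
    rw [if_neg ha, mul_zero]
  · intro h
    exact absurd (Finset.mem_univ x) h

theorem m8_one (hM : MacHyp T M b) (hP : ∀ (w : Bx × Fin (T + 1) → X) θ, ∑ y, M.PP w θ y = 1)
    (x : X) : M.E2 (fun (_ : Bx × Fin (T + 1) → X) (_ : Jc × Bx → Y) => (1 : ℝ)) = 1 := by
  unfold Mac.E2
  have h1 : (fun w : Bx × Fin (T + 1) → X => EE (M.PP w) (fun _ => (1 : ℝ))) = fun _ => 1 := by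
    funext w
    rw [EE_const (hP w)]
  rw [h1, EE_const (m8_U1 hM x)]

theorem m8_gam (I : Finset (Jc × Bx)) (ω ω' : Jc × Bx → Y) (h : ∀ θ ∈ I, ω θ = ω' θ) :
    M.Gam I ω = M.Gam I ω' := by
  unfold Mac.Gam
  refine Finset.filter_congr fun x _ => ?_
  refine forall₂_congr fun θ hθ => ?_
  rw [h θ hθ]

/-- The bound for one site, good geometry. -/
theorem m8_good (h1 : M1Statement) (h2 : M2Statement) (h3 : M3Statement) (h5 : M5Statement)
    (h6 : M6Statement) (h7 : M7Statement) (hM : MacHyp T M b) (x : X) (h : St)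
    (hg : M.gOK 0 h) :
    M.E2 (fun (w : Bx × Fin (T + 1) → X) ω =>
      ind (¬ M.lev h ω = 0) * (M.ker w h (M.vis 0 h) ω x * M.N)) ≤
      2 * Real.exp (-(50 * (M.μ 0 : ℝ))) + M.a ^ (2 * M.μ 0) * M.err 0 h := by
  have hN := m8_N hM x
  have hm1 := h1 X Y Ob St Bx Jc n T b M hM
  have hP0 : ∀ (w : Bx × Fin (T + 1) → X) θ y, 0 ≤ M.PP w θ y := fun w => (hm1 w).2.2.1
  have hP1 : ∀ (w : Bx × Fin (T + 1) → X) θ, ∑ y, M.PP w θ y = 1 := fun w => (hm1 w).2.2.2.1
  have hm6 := h6 X Y Ob St Bx Jc n T b M hM 0 h hg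
  have ha : 0 ≤ M.a ^ (2 * M.μ 0) := pow_nonneg (by linarith [hM.ha]) _
  have hpt : ∀ (w : Bx × Fin (T + 1) → X) (ω : Jc × Bx → Y),
      ind (¬ M.lev h ω = 0) * (M.ker w h (M.vis 0 h) ω x * M.N) ≤
      M.N * (M.ker w h (M.vis 0 h) ω x * ind (¬ M.OKs 0 h ω)) +
        M.a ^ (2 * M.μ 0) * (1 * ind (¬ M.LevLe 0 h ω)) := by
    intro w ω
    have hm2 := h2 X Y Ob St Bx Jc n T b M hM w h (M.vis 0 h) ω
    have hk : 0 ≤ M.ker w h (M.vis 0 h) ω x := hm2.1 x
    by_cases hL : M.lev h ω = 0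
    · have e : ind (¬ M.lev h ω = 0) = 0 := if_neg (by simp [hL])
      rw [e, zero_mul]
      have e1 := m8_ind_nonneg (¬ M.OKs 0 h ω)
      have e2 := m8_ind_nonneg (¬ M.LevLe 0 h ω)
      positivity
    · have hLL : ¬ M.LevLe 0 h ω := by
        intro hc
        exact hL (Nat.le_zero.1 (((h3 X Y Ob St Bx Jc n T b M hM ω).2.1 h 0).2 hc))
      have e : ind (¬ M.lev h ω = 0) = 1 := if_pos hL
      have e2 : ind (¬ M.LevLe 0 h ω) = 1 := if_pos hLL
      rw [e, e2, one_mul, mul_one, mul_one]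
      by_cases hO : M.OKs 0 h ω
      · have h8 := hm2.2.2.2.2.2.2.2.1 0 hO x
        have e3 := m8_ind_nonneg (¬ M.OKs 0 h ω)
        have : 0 ≤ M.N * (M.ker w h (M.vis 0 h) ω x * ind (¬ M.OKs 0 h ω)) := by positivity
        linarith
      · have e3 : ind (¬ M.OKs 0 h ω) = 1 := if_pos hO
        rw [e3, mul_one]
        have : M.ker w h (M.vis 0 h) ω x * M.N = M.N * M.ker w h (M.vis 0 h) ω x := by ring
        linarith
  refine (m8_mono hP0 hpt).trans ?_
  rw [m8_add, m8_smul, m8_smul]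
  refine add_le_add ?_ (mul_le_mul_of_nonneg_left ?_ ha)
  · have hB := h5 X Y Ob St Bx Jc n T b M hM h (M.vis 0 h) x
      (fun _ ω => ind (¬ M.OKs 0 h ω)) (fun θ hθ => (Finset.mem_filter.1 hθ).2.2)
      (fun _ _ _ => rfl) (fun _ ω ω' hω => by
        have hG := m8_gam (M := M) (M.vis 0 h) ω ω' hω
        have hO : M.OKs 0 h ω ↔ M.OKs 0 h ω' := by
          unfold Mac.OKs
          rw [hG]
        exact congrArg ind (propext (not_congr hO)))
    rw [← hB, ← m8_smul]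
    have h9 := hm6.2.1 (M.box h) x
    refine le_trans (le_of_eq ?_) h9
    congr 1
    funext w ω
    ring
  · have h10 := (h7 X Y Ob St Bx Jc n T b M hM).1
      (fun (_ : Bx × Fin (T + 1) → X) (_ : Jc × Bx → Y) => (1 : ℝ)) (fun _ _ => zero_le_one)
      (by rw [m8_one hM hP1 x]; norm_num) (by
        intro l h' hl hg'
        have h11 := (h6 X Y Ob St Bx Jc n T b M hM l h' hg').1
        simp only [one_mul]
        exact h11) 0 h
    exact h10

end

theorem m8 (h1 : M1Statement) (h2 : M2Statement) (h3 : M3Statement) (h5 : M5Statement)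
    (h6 : M6Statement) (h7 : M7Statement) : M8Statement := by
  intro X Y Ob St Bx Jc _ _ _ _ _ _ _ _ _ _ _ _ n T b M hM x
  have hN := m8_N hM x
  have hm1 := h1 X Y Ob St Bx Jc n T b M hM
  have hP0 : ∀ (w : Bx × Fin (T + 1) → X) θ y, 0 ≤ M.PP w θ y := fun w => (hm1 w).2.2.1
  have hP1 : ∀ (w : Bx × Fin (T + 1) → X) θ, ∑ y, M.PP w θ y = 1 := fun w => (hm1 w).2.2.2.1
  -- the mean of the kernel
  have hA : ∀ h : St, M.E2 (fun (w : Bx × Fin (T + 1) → X) ω =>
      M.ker w h (M.vis 0 h) ω x * M.N) = 1 := by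
    intro h
    have hB := h5 X Y Ob St Bx Jc n T b M hM h (M.vis 0 h) x
      (fun _ _ => 1) (fun θ hθ => (Finset.mem_filter.1 hθ).2.2)
      (fun _ _ _ => rfl) (fun _ _ _ _ => rfl)
    simp only [mul_one] at hB
    rw [m8_coord hM hP1 x] at hB
    have e : (fun (w : Bx × Fin (T + 1) → X) (ω : Jc × Bx → Y) =>
        M.ker w h (M.vis 0 h) ω x * (M.N : ℝ)) =
        fun w ω => (M.N : ℝ) * M.ker w h (M.vis 0 h) ω x := by
      funext w ω
      ring
    rw [e, m8_smul, ← hB, mul_one_div_cancel hN.ne']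
  -- the defect
  set B : St → ℝ := fun h => M.E2 (fun (w : Bx × Fin (T + 1) → X) ω =>
      ind (¬ M.lev h ω = 0) * (M.ker w h (M.vis 0 h) ω x * M.N)) with hBdef
  have hsplit : ∀ h : St, M.E2 (fun (w : Bx × Fin (T + 1) → X) ω =>
      ind (M.lev h ω = 0) * (M.ker w h (M.vis 0 h) ω x * M.N)) = 1 - B h := by
    intro h
    have e : M.E2 (fun (w : Bx × Fin (T + 1) → X) ω =>
        ind (M.lev h ω = 0) * (M.ker w h (M.vis 0 h) ω x * M.N)) + B h = 1 := by
      rw [← hA h, hBdef, ← m8_add]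
      congr 1
      funext w ω
      by_cases hL : M.lev h ω = 0
      · have e1 : ind (M.lev h ω = 0) = 1 := if_pos hL
        have e2 : ind (¬ M.lev h ω = 0) = 0 := if_neg (by simp [hL])
        rw [e1, e2]
        ring
      · have e1 : ind (M.lev h ω = 0) = 0 := if_neg hL
        have e2 : ind (¬ M.lev h ω = 0) = 1 := if_pos hL
        rw [e1, e2]
        ring
    linarith
  have hker0 : ∀ (h : St) (w : Bx × Fin (T + 1) → X) (ω : Jc × Bx → Y),
      0 ≤ M.ker w h (M.vis 0 h) ω x * M.N := fun h w ω =>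
    mul_nonneg ((h2 X Y Ob St Bx Jc n T b M hM w h (M.vis 0 h) ω).1 x) hN.le
  have hB0 : ∀ h, 0 ≤ B h := fun h => m8_nonneg hP0 fun w ω =>
    mul_nonneg (m8_ind_nonneg _) (hker0 h w ω)
  have hB1 : ∀ h, B h ≤ 1 := by
    intro h
    rw [← hA h]
    refine m8_mono hP0 fun w ω => ?_
    exact mul_le_of_le_one_left (hker0 h w ω) (m8_ind_le_one _)
  have herr0 : ∀ h, 0 ≤ M.err 0 h := by
    intro h
    unfold Mac.err
    refine Finset.sum_nonneg fun l _ => Finset.sum_nonneg fun h' _ => ?_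
    have := m8_ind_nonneg (¬ M.gOK l h')
    positivity
  have ha : 0 ≤ M.a ^ (2 * M.μ 0) := pow_nonneg (by linarith [hM.ha]) _
  have hBle : ∀ h, B h ≤ ind (¬ M.gOK 0 h) + 2 * Real.exp (-(50 * (M.μ 0 : ℝ))) +
      M.a ^ (2 * M.μ 0) * M.err 0 h := by
    intro h
    by_cases hg : M.gOK 0 h
    · have e : ind (¬ M.gOK 0 h) = 0 := if_neg (by simpa using hg)
      rw [e, zero_add]
      exact m8_good h1 h2 h3 h5 h6 h7 hM x h hg
    · have e : ind (¬ M.gOK 0 h) = 1 := if_pos hg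
      rw [e]
      have := mul_nonneg ha (herr0 h)
      have := Real.exp_pos (-(50 * (M.μ 0 : ℝ)))
      linarith [hB1 h]
  -- the sum
  have hn1 : (1000 : ℝ) ≤ n := by exact_mod_cast hM.hn
  have hn0 : (0 : ℝ) < n := by linarith
  have hS : (0 : ℝ) < Fintype.card St := by exact_mod_cast hM.cS
  have hexp16 : Real.exp (-((M.μ 0 : ℝ) / 16)) ≤ 1 / (n : ℝ) ^ 40 := by
    have h11 := hM.mun 0
    rw [Real.exp_neg, one_div]
    refine inv_anti₀ (by positivity) (le_trans ?_ h11)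
    rw [mul_zero, zero_add]
    exact pow_le_pow_left₀ hn0.le (by linarith) 40
  have hexp8 : Real.exp (-((M.μ 0 : ℝ) / 8)) ≤ 1 / (n : ℝ) ^ 40 := by
    refine le_trans (Real.exp_le_exp.2 ?_) hexp16
    have : (0 : ℝ) ≤ M.μ 0 := Nat.cast_nonneg _
    linarith
  have hexp50 : Real.exp (-(50 * (M.μ 0 : ℝ))) ≤ 1 / (n : ℝ) ^ 40 := by
    refine le_trans (Real.exp_le_exp.2 ?_) hexp16
    have : (0 : ℝ) ≤ M.μ 0 := Nat.cast_nonneg _
    linarith
  have ha2 : M.a ^ (2 * M.μ 0) ≤ n := by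
    refine le_trans (pow_le_pow_right₀ hM.ha.le ?_) hM.ha0
    omega
  have hsumB : ∑ h, B h ≤ Fintype.card St / (n : ℝ) ^ 10 := by
    calc ∑ h, B h ≤ ∑ h, (ind (¬ M.gOK 0 h) + 2 * Real.exp (-(50 * (M.μ 0 : ℝ))) +
        M.a ^ (2 * M.μ 0) * M.err 0 h) := Finset.sum_le_sum fun h _ => hBle h
      _ = ∑ h, ind (¬ M.gOK 0 h) + Fintype.card St * (2 * Real.exp (-(50 * (M.μ 0 : ℝ)))) +
        M.a ^ (2 * M.μ 0) * ∑ h, M.err 0 h := by
          rw [Finset.sum_add_distrib, Finset.sum_add_distrib, Finset.sum_const, Finset.card_univ,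
            nsmul_eq_mul, Finset.mul_sum]
      _ ≤ Fintype.card St * (1 / (n : ℝ) ^ 40) + Fintype.card St * (2 * (1 / (n : ℝ) ^ 40)) +
        n * (Fintype.card St * ((1 / (n : ℝ) ^ 40) / (n : ℝ) ^ 30)) := by
          have g1 := hM.gfr 0 (Nat.zero_le _)
          have g2 := (h7 X Y Ob St Bx Jc n T b M hM).2 0 (Nat.zero_le _)
          refine add_le_add (add_le_add (g1.trans ?_) ?_) ?_
          · exact mul_le_mul_of_nonneg_left hexp8 hS.le
          · refine mul_le_mul_of_nonneg_left ?_ hS.le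
            linarith
          · have g3 : ∑ h, M.err 0 h ≤
                Fintype.card St * ((1 / (n : ℝ) ^ 40) / (n : ℝ) ^ 30) := by
              refine g2.trans (mul_le_mul_of_nonneg_left ?_ hS.le)
              exact div_le_div_of_nonneg_right hexp16 (by positivity)
            exact mul_le_mul ha2 g3 (Finset.sum_nonneg fun h _ => herr0 h) hn0.le
      _ ≤ Fintype.card St / (n : ℝ) ^ 10 := by
          have e1 : (1 : ℝ) / (n : ℝ) ^ 40 ≤ (1 / 10) * (1 / (n : ℝ) ^ 10) := by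
            rw [show (40 : ℕ) = 10 + 30 by norm_num, pow_add, ← one_div_mul_one_div, mul_comm]
            refine mul_le_mul_of_nonneg_right ?_ (by positivity)
            rw [one_div, one_div]
            refine inv_anti₀ (by norm_num) ?_
            calc (10 : ℝ) ≤ n := by linarith
              _ ≤ (n : ℝ) ^ 30 := le_self_pow₀ (by linarith) (by norm_num)
          have e2 : (n : ℝ) * (Fintype.card St * ((1 / (n : ℝ) ^ 40) / (n : ℝ) ^ 30)) =
              Fintype.card St * ((1 / (n : ℝ) ^ 40) * (1 / (n : ℝ) ^ 29)) := by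
            field_simp
          have e3 : (1 / (n : ℝ) ^ 40) * (1 / (n : ℝ) ^ 29) ≤ 1 / (n : ℝ) ^ 40 := by
            refine mul_le_of_le_one_right (by positivity) ?_
            rw [div_le_one (by positivity)]
            exact one_le_pow₀ (by linarith)
          rw [e2]
          have e4 : (Fintype.card St : ℝ) * ((1 / (n : ℝ) ^ 40) * (1 / (n : ℝ) ^ 29)) ≤
              Fintype.card St * (1 / (n : ℝ) ^ 40) := mul_le_mul_of_nonneg_left e3 hS.le
          have e5 : (Fintype.card St : ℝ) * (1 / (n : ℝ) ^ 40) ≤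
              Fintype.card St * ((1 / 10) * (1 / (n : ℝ) ^ 10)) :=
            mul_le_mul_of_nonneg_left e1 hS.le
          have e6 : (Fintype.card St : ℝ) / (n : ℝ) ^ 10 =
              Fintype.card St * (1 / (n : ℝ) ^ 10) := by ring
          have e7 : 0 ≤ (Fintype.card St : ℝ) * (1 / (n : ℝ) ^ 10) := by positivity
          rw [e6]
          linarith
  rw [m8_sum]
  have hfin : ∑ h, M.E2 (fun (w : Bx × Fin (T + 1) → X) ω =>
      ind (M.lev h ω = 0) * (M.ker w h (M.vis 0 h) ω x * M.N)) =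
      Fintype.card St - ∑ h, B h := by
    rw [Finset.sum_congr rfl fun h _ => hsplit h, Finset.sum_sub_distrib, Finset.sum_const,
      Finset.card_univ, nsmul_eq_mul, mul_one]
  rw [hfin, sub_sub_cancel_left, abs_neg, abs_of_nonneg (Finset.sum_nonneg fun h _ => hB0 h)]
  exact hsumB

end Pool.Agent.FQ
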