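import Pool.Agent.FQ.MDefs
import Pool.Agent.H73.Cube.Cells

/-!
# Project FQ, row M9: G2, in expectation over the witnesses
-/

set_option autoImplicit false
set_option linter.unusedSectionVars false

namespace Pool.Agent.FQ

open Finset Classical
open Pool.Agent.H73.Cube (EE Loc EE_add EE_smul EE_sum EE_const EE_mono EE_coord)

section

variable {X Y Ob St Bx Jc : Type} [Fintype X] [Fintype Y] [Fintype Ob] [Fintype St] [Fintype Bx]
  [Fintype Jc] [DecidableEq X] [DecidableEq Y] [DecidableEq Ob] [DecidableEq St]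
  [DecidableEq Bx] [DecidableEq Jc] {n T : ℕ}

theorem m9_add (M : Mac X Y Ob St Bx Jc n)
    (f g : (Bx × Fin (T + 1) → X) → (Jc × Bx → Y) → ℝ) :
    M.E2 (fun w ω => f w ω + g w ω) = M.E2 f + M.E2 g := by
  unfold Mac.E2
  rw [← EE_add]
  exact congrArg _ (funext fun w => EE_add _ _)

theorem m9_smul (M : Mac X Y Ob St Bx Jc n) (c : ℝ)
    (f : (Bx × Fin (T + 1) → X) → (Jc × Bx → Y) → ℝ) :
    M.E2 (fun w ω => c * f w ω) = c * M.E2 f := by
  unfold Mac.E2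
  rw [← EE_smul]
  exact congrArg _ (funext fun w => EE_smul _ _)

theorem m9_sum (M : Mac X Y Ob St Bx Jc n) {β : Type} (s : Finset β)
    (f : β → (Bx × Fin (T + 1) → X) → (Jc × Bx → Y) → ℝ) :
    M.E2 (fun w ω => ∑ a ∈ s, f a w ω) = ∑ a ∈ s, M.E2 (f a) := by
  unfold Mac.E2
  rw [← EE_sum]
  exact congrArg _ (funext fun w => EE_sum _ _)

theorem m9_mono (M : Mac X Y Ob St Bx Jc n)
    (hP : ∀ (w : Bx × Fin (T + 1) → X) θ y, 0 ≤ M.PP w θ y)
    {f g : (Bx × Fin (T + 1) → X) → (Jc × Bx → Y) → ℝ} (h : ∀ w ω, f w ω ≤ g w ω) :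
    M.E2 f ≤ M.E2 g := by
  unfold Mac.E2
  refine EE_mono (fun i x => ?_) fun w _ => EE_mono (hP w) fun ω _ => h w ω
  unfold Mac.U1
  positivity

theorem m9_U1 (M : Mac X Y Ob St Bx Jc n) (hX : Fintype.card X = M.N) (hN : 0 < M.N) :
    ∀ i : Bx × Fin (T + 1), ∑ x, M.U1 i x = 1 := by
  intro i
  unfold Mac.U1
  rw [sum_const, card_univ, hX, nsmul_eq_mul]
  have h : (M.N : ℝ) ≠ 0 := by exact_mod_cast hN.ne'
  exact mul_one_div_cancel h

theorem m9_const (M : Mac X Y Ob St Bx Jc n) (hX : Fintype.card X = M.N) (hN : 0 < M.N)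
    (hP : ∀ (w : Bx × Fin (T + 1) → X) θ, ∑ y, M.PP w θ y = 1) (c : ℝ) :
    M.E2 (fun (_ : Bx × Fin (T + 1) → X) (_ : Jc × Bx → Y) => c) = c := by
  unfold Mac.E2
  have h : (fun w : Bx × Fin (T + 1) → X => EE (M.PP w) (fun _ => c)) = fun _ => c :=
    funext fun w => EE_const (hP w) c
  rw [h]
  exact EE_const (m9_U1 M hX hN) c

theorem m9_coord (M : Mac X Y Ob St Bx Jc n) (hX : Fintype.card X = M.N) (hN : 0 < M.N)
    (hP : ∀ (w : Bx × Fin (T + 1) → X) θ, ∑ y, M.PP w θ y = 1) (i : Bx × Fin (T + 1))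
    (f : X → ℝ) :
    M.E2 (fun (w : Bx × Fin (T + 1) → X) (_ : Jc × Bx → Y) => f (w i)) =
      (∑ x, f x) / M.N := by
  unfold Mac.E2
  have h : (fun w : Bx × Fin (T + 1) → X => EE (M.PP w) (fun _ => f (w i))) =
      fun w => f (w i) :=
    funext fun w => EE_const (hP w) _
  rw [h, EE_coord (m9_U1 M hX hN) i f, sum_div]
  refine sum_congr rfl fun x _ => ?_
  unfold Mac.U1
  ring

theorem m9_ind_sum {Z : Finset X} (x0 : X) : ∑ x ∈ Z, ind (x0 = x) = ind (x0 ∈ Z) := by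
  have h2 : ∀ z, ind (x0 = z) = if x0 = z then (1 : ℝ) else 0 := by
    intro z
    unfold ind
    by_cases h : x0 = z
    · rw [if_pos h, if_pos h]
    · rw [if_neg h, if_neg h]
  simp only [h2]
  rw [sum_ite_eq]
  unfold ind
  by_cases h : x0 ∈ Z
  · rw [if_pos h, if_pos h]
  · rw [if_neg h, if_neg h]

theorem m9_ind_nonneg (p : Prop) : 0 ≤ ind p := by
  unfold ind
  split_ifs
  · exact zero_le_one
  · exact le_rfl

theorem m9_sum_ind_mem (Z : Finset X) : ∑ x, ind (x ∈ Z) = (Z.card : ℝ) := by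
  have h2 : ∀ z, ind (z ∈ Z) = if z ∈ Z then (1 : ℝ) else 0 := by
    intro z
    unfold ind
    by_cases h : z ∈ Z
    · rw [if_pos h, if_pos h]
    · rw [if_neg h, if_neg h]
  simp only [h2]
  rw [sum_ite_mem, univ_inter, sum_const, nsmul_eq_mul, mul_one]

theorem m9_Ph_nonneg (M : Mac X Y Ob St Bx Jc n) (hb : 0 < M.bet) {l : ℝ} (h0 : 0 ≤ l)
    (_h1 : l ≤ 1) : 0 ≤ M.Ph l := by
  unfold Mac.Ph
  split_ifs with h
  · have := Real.log_nonpos (by linarith : 0 ≤ 1 - l) (by linarith)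
    linarith
  · exact hb.le

theorem m9_Ph_le (M : Mac X Y Ob St Bx Jc n) {l : ℝ} (_h0 : 0 ≤ l)
    (h1 : l ≤ 1) : (1 - l) * M.Ph l ≤ l := by
  unfold Mac.Ph
  split_ifs with h
  · have hp : 0 < 1 - l := by linarith
    have h2 : Real.log (1 - l)⁻¹ ≤ (1 - l)⁻¹ - 1 :=
      Real.log_le_sub_one_of_pos (inv_pos.2 hp)
    rw [Real.log_inv] at h2
    calc (1 - l) * -Real.log (1 - l) ≤ (1 - l) * ((1 - l)⁻¹ - 1) :=
          mul_le_mul_of_nonneg_left h2 hp.le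
      _ = l := by
          rw [mul_sub, mul_inv_cancel₀ hp.ne']
          ring
  · have h2 : l = 1 := le_antisymm h1 (not_lt.1 h)
    rw [h2]
    norm_num

theorem m9_num_update (M : Mac X Y Ob St Bx Jc n) (w : Bx × Fin (T + 1) → X) (h : St)
    (I : Finset (Jc × Bx)) (ω : Jc × Bx → Y) (x x' : X) :
    M.num (Function.update w (M.box h, 0) x') h I ω x = M.num w h I ω x := by
  unfold Mac.num
  rw [Function.update_idem]

theorem m9_ker_update (M : Mac X Y Ob St Bx Jc n) (w : Bx × Fin (T + 1) → X) (h : St)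
    (I : Finset (Jc × Bx)) (ω : Jc × Bx → Y) (x x' : X) :
    M.ker (Function.update w (M.box h, 0) x') h I ω x = M.ker w h I ω x := by
  unfold Mac.ker
  rw [m9_num_update]
  refine congrArg _ (sum_congr rfl fun z _ => ?_)
  exact m9_num_update M w h I ω z x'

theorem m9_num_congr (M : Mac X Y Ob St Bx Jc n) (w : Bx × Fin (T + 1) → X) (h : St)
    (I : Finset (Jc × Bx)) {ω ω' : Jc × Bx → Y} (hω : ∀ θ ∈ I, ω θ = ω' θ) (x : X) :
    M.num w h I ω x = M.num w h I ω' x := by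
  unfold Mac.num
  have h1 : (∀ θ ∈ I, M.ok x (ω θ)) ↔ (∀ θ ∈ I, M.ok x (ω' θ)) := by
    constructor
    · intro h2 θ hθ
      rw [← hω θ hθ]
      exact h2 θ hθ
    · intro h2 θ hθ
      rw [hω θ hθ]
      exact h2 θ hθ
  rw [propext h1]

theorem m9_ker_congr (M : Mac X Y Ob St Bx Jc n) (w : Bx × Fin (T + 1) → X) (h : St)
    (I : Finset (Jc × Bx)) {ω ω' : Jc × Bx → Y} (hω : ∀ θ ∈ I, ω θ = ω' θ) (x : X) :
    M.ker w h I ω x = M.ker w h I ω' x := by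
  unfold Mac.ker
  rw [m9_num_congr M w h I hω x]
  refine congrArg _ (sum_congr rfl fun z _ => ?_)
  exact m9_num_congr M w h I hω z

/-- the main estimate at one site -/
theorem m9_site (M : Mac X Y Ob St Bx Jc n) (hX : Fintype.card X = M.N) (hN : 0 < M.N)
    (hb : 0 < M.bet)
    (hP0 : ∀ (w : Bx × Fin (T + 1) → X) θ y, 0 ≤ M.PP w θ y)
    (hP1 : ∀ (w : Bx × Fin (T + 1) → X) θ, ∑ y, M.PP w θ y = 1) (h : St)
    (I : Finset (Jc × Bx))
    (hk0 : ∀ (w : Bx × Fin (T + 1) → X) ω x, 0 ≤ M.ker w h I ω x)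
    (hk1 : ∀ (w : Bx × Fin (T + 1) → X) ω, ∑ x, M.ker w h I ω x ≤ 1)
    (hB : ∀ (x : X) (Φ : (Bx × Fin (T + 1) → X) → (Jc × Bx → Y) → ℝ),
      (∀ w x' ω, Φ (Function.update w (M.box h, 0) x') ω = Φ w ω) →
      (∀ w ω ω', (∀ θ ∈ I, ω θ = ω' θ) → Φ w ω = Φ w ω') →
      M.E2 (fun w ω => ind (w (M.box h, 0) = x) * Φ w ω) =
        M.E2 (fun w ω => M.ker w h I ω x * Φ w ω)) (Z : Finset X) :
    M.E2 (fun (w : Bx × Fin (T + 1) → X) ω => ind (w (M.box h, 0) ∉ Z) *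
      M.Ph (∑ x ∈ Z, M.ker w h I ω x)) ≤ (Z.card : ℝ) / M.N := by
  have hl0 : ∀ (w : Bx × Fin (T + 1) → X) ω, 0 ≤ ∑ x ∈ Z, M.ker w h I ω x :=
    fun w ω => sum_nonneg fun x _ => hk0 w ω x
  have hs0 : ∀ (w : Bx × Fin (T + 1) → X) ω, 0 ≤ ∑ x ∈ Zᶜ, M.ker w h I ω x :=
    fun w ω => sum_nonneg fun x _ => hk0 w ω x
  have hsl : ∀ (w : Bx × Fin (T + 1) → X) ω,
      ∑ x ∈ Z, M.ker w h I ω x + ∑ x ∈ Zᶜ, M.ker w h I ω x ≤ 1 := by
    intro w ω
    rw [sum_add_sum_compl]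
    exact hk1 w ω
  have e1 : (fun (w : Bx × Fin (T + 1) → X) (ω : Jc × Bx → Y) =>
      ind (w (M.box h, 0) ∉ Z) * M.Ph (∑ x ∈ Z, M.ker w h I ω x)) =
      fun w ω => ∑ x ∈ Zᶜ, ind (w (M.box h, 0) = x) * M.Ph (∑ x ∈ Z, M.ker w h I ω x) := by
    funext w ω
    rw [← sum_mul, m9_ind_sum, mem_compl]
  rw [e1, m9_sum]
  have e2 : ∀ x ∈ Zᶜ, M.E2 (fun (w : Bx × Fin (T + 1) → X) ω =>
      ind (w (M.box h, 0) = x) * M.Ph (∑ x ∈ Z, M.ker w h I ω x)) =
      M.E2 (fun (w : Bx × Fin (T + 1) → X) ω =>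
        M.ker w h I ω x * M.Ph (∑ x ∈ Z, M.ker w h I ω x)) := by
    intro x _
    refine hB x (fun w ω => M.Ph (∑ x ∈ Z, M.ker w h I ω x)) ?_ ?_
    · intro w x' ω
      exact congrArg M.Ph (sum_congr rfl fun z _ => m9_ker_update M w h I ω z x')
    · intro w ω ω' hω
      exact congrArg M.Ph (sum_congr rfl fun z _ => m9_ker_congr M w h I hω z)
  rw [sum_congr rfl e2, ← m9_sum]
  have e3 : M.E2 (fun (w : Bx × Fin (T + 1) → X) ω =>
      ∑ x ∈ Zᶜ, M.ker w h I ω x * M.Ph (∑ x ∈ Z, M.ker w h I ω x)) ≤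
      M.E2 (fun (w : Bx × Fin (T + 1) → X) ω => ∑ x ∈ Z, M.ker w h I ω x) := by
    refine m9_mono M hP0 fun w ω => ?_
    rw [← sum_mul]
    have h0 := hl0 w ω
    have h2 := hsl w ω
    have h3 := hs0 w ω
    have h1 : ∑ x ∈ Z, M.ker w h I ω x ≤ 1 := by linarith
    have h4 := m9_Ph_nonneg M hb h0 h1
    have h5 := m9_Ph_le M h0 h1
    have h6 : ∑ x ∈ Zᶜ, M.ker w h I ω x ≤ 1 - ∑ x ∈ Z, M.ker w h I ω x := by linarith
    exact (mul_le_mul_of_nonneg_right h6 h4).trans h5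
  refine e3.trans (le_of_eq ?_)
  rw [m9_sum]
  have e4 : ∀ x ∈ Z, M.E2 (fun (w : Bx × Fin (T + 1) → X) ω => M.ker w h I ω x) =
      1 / M.N := by
    intro x _
    have h1 := hB x (fun _ _ => 1) (fun _ _ _ => rfl) (fun _ _ _ _ => rfl)
    simp only [mul_one] at h1
    rw [← h1, m9_coord M hX hN hP1 (M.box h, 0) (fun z => ind (z = x))]
    congr 1
    have h2 : ∀ z, ind (z = x) = if z = x then (1 : ℝ) else 0 := by
      intro z
      unfold ind
      by_cases h : z = x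
      · rw [if_pos h, if_pos h]
      · rw [if_neg h, if_neg h]
    simp only [h2]
    rw [sum_ite_eq', if_pos (mem_univ x)]
  rw [sum_congr rfl e4, sum_const, nsmul_eq_mul]
  ring

/-- sums over the odd positions -/
theorem m9_reg (M : Mac X Y Ob St Bx Jc n) (hS : 0 < Fintype.card St)
    (s : Ob → St)
    (hr : ∀ h, (univ.filter (fun o => s o = h)).card * Fintype.card St = M.N) (f : St → ℝ) :
    ∑ o, f (s o) = (M.N : ℝ) / Fintype.card St * ∑ h, f h := by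
  have hS' : (Fintype.card St : ℝ) ≠ 0 := by exact_mod_cast hS.ne'
  have h1 : ∑ o, f (s o) = ∑ h, ∑ o ∈ univ.filter (fun o => s o = h), f (s o) :=
    (sum_fiberwise univ s (fun o => f (s o))).symm
  rw [h1, mul_sum]
  refine sum_congr rfl fun h _ => ?_
  have h2 : ∑ o ∈ univ.filter (fun o => s o = h), f (s o) =
      ∑ o ∈ univ.filter (fun o => s o = h), f h := by
    refine sum_congr rfl fun o ho => ?_
    rw [(mem_filter.1 ho).2]
  rw [h2, sum_const, nsmul_eq_mul]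
  have h3 : ((univ.filter (fun o => s o = h)).card : ℝ) * Fintype.card St = M.N := by
    exact_mod_cast hr h
  rw [← h3]
  field_simp

end

theorem m9 (h1 : M1Statement) (h2 : M2Statement) (h3 : M3Statement) (h5 : M5Statement)
    (h6 : M6Statement) (h7 : M7Statement) : M9Statement := by
  intro X Y Ob St Bx Jc _ _ _ _ _ _ _ _ _ _ _ _ n T b M H y y'
  have hN : 0 < M.N := by
    rw [← H.cY]
    exact Fintype.card_pos_iff.2 ⟨y⟩
  have hNr : (0 : ℝ) < M.N := by exact_mod_cast hN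
  have hP0 : ∀ (w : Bx × Fin (T + 1) → X) θ z, 0 ≤ M.PP w θ z := fun w =>
    (h1 X Y Ob St Bx Jc n T b M H w).2.2.1
  have hP1 : ∀ (w : Bx × Fin (T + 1) → X) θ, ∑ z, M.PP w θ z = 1 := fun w =>
    (h1 X Y Ob St Bx Jc n T b M H w).2.2.2.1
  have hk0 : ∀ (h : St) (I : Finset (Jc × Bx)) (w : Bx × Fin (T + 1) → X) ω x,
      0 ≤ M.ker w h I ω x := fun h I w ω => (h2 X Y Ob St Bx Jc n T b M H w h I ω).1
  have hk1 : ∀ (h : St) (I : Finset (Jc × Bx)) (w : Bx × Fin (T + 1) → X) ω,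
      ∑ x, M.ker w h I ω x ≤ 1 := fun h I w ω => (h2 X Y Ob St Bx Jc n T b M H w h I ω).2.1
  obtain ⟨Z, hZ⟩ : ∃ Z : Finset X, Z = M.nn2 y y' := ⟨_, rfl⟩
  rw [← hZ]
  -- the size of the set of non-neighbours
  have hZc : (Z.card : ℝ) ≤ 2 * M.c * M.N := by
    have h8 : Z ⊆ univ.filter (fun x => ¬ M.ok x y) ∪ univ.filter (fun x => ¬ M.ok x y') := by
      intro x hx
      rw [hZ] at hx
      unfold Mac.nn2 at hx
      rw [mem_filter] at hx
      rw [mem_union, mem_filter, mem_filter]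
      by_cases h9 : M.ok x y
      · exact Or.inr ⟨mem_univ x, fun h10 => hx.2 ⟨h9, h10⟩⟩
      · exact Or.inl ⟨mem_univ x, h9⟩
    have h9 : (Z.card : ℝ) ≤ ((univ.filter (fun x => ¬ M.ok x y)).card : ℝ) +
        ((univ.filter (fun x => ¬ M.ok x y')).card : ℝ) := by
      exact_mod_cast (card_le_card h8).trans (card_union_le _ _)
    have h10 := H.dY y
    have h11 := H.dY y'
    linarith
  have hZN : (Z.card : ℝ) / M.N ≤ 2 * M.c := by
    rw [div_le_iff₀ hNr]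
    exact hZc
  -- levels
  have hlev : ∀ (h : St), M.E2 (fun (_ : Bx × Fin (T + 1) → X) ω =>
      ind (¬ M.LevLe 0 h ω)) ≤ M.err 0 h := by
    intro h
    have h8 := (h7 X Y Ob St Bx Jc n T b M H).1 (fun _ _ => 1) (fun _ _ => zero_le_one)
      (by rw [m9_const M H.cX hN hP1]; norm_num)
      (fun l h _ hg => by
        have h9 := (h6 X Y Ob St Bx Jc n T b M H l h hg).1
        simp only [one_mul]
        exact h9) 0 h
    simp only [one_mul] at h8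
    exact h8
  -- the pointwise bound
  have hpt : ∀ (w : Bx × Fin (T + 1) → X) ω,
      (M.N : ℝ) - ∑ o, (∑ i, ind (¬ M.LevLe 0 (M.sb o i) ω) +
        ∑ σ ∈ univ.filter (fun σ => M.dB (M.box (M.so o)) σ ≤ 1), ind (w (σ, 0) ∈ Z) +
        2 / M.bet * ∑ i, ind (w (M.box (M.sb o i), 0) ∉ Z) *
          M.Ph (∑ x ∈ Z, M.ker w (M.sb o i) (M.vis 0 (M.sb o i)) ω x)) ≤
      ∑ o, ind (M.fine o ω ∧ M.Fs w Z o ω ≤ M.bet / 2) := by
    intro w ω
    have hPh : ∀ o i, 0 ≤ M.Ph (∑ x ∈ Z, M.ker w (M.sb o i) (M.vis 0 (M.sb o i)) ω x) := by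
      intro o i
      have h8 : 0 ≤ ∑ x ∈ Z, M.ker w (M.sb o i) (M.vis 0 (M.sb o i)) ω x :=
        sum_nonneg fun x _ => hk0 _ _ _ _ _
      have h9 : ∑ x ∈ Z, M.ker w (M.sb o i) (M.vis 0 (M.sb o i)) ω x ≤ 1 :=
        (sum_le_sum_of_subset_of_nonneg (subset_univ Z) fun x _ _ => hk0 _ _ _ _ _).trans
          (hk1 _ _ _ _)
      exact m9_Ph_nonneg M H.hbet h8 h9
    have hcard : (M.N : ℝ) = ∑ _o : Ob, (1 : ℝ) := by
      rw [sum_const, card_univ, H.cO, nsmul_eq_mul, mul_one]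
    rw [hcard, ← sum_sub_distrib]
    refine sum_le_sum fun o _ => ?_
    have t1 : 0 ≤ ∑ i, ind (¬ M.LevLe 0 (M.sb o i) ω) := sum_nonneg fun i _ => m9_ind_nonneg _
    have t2 : 0 ≤ ∑ σ ∈ univ.filter (fun σ => M.dB (M.box (M.so o)) σ ≤ 1),
        ind (w (σ, 0) ∈ Z) := sum_nonneg fun i _ => m9_ind_nonneg _
    have t3' : 0 ≤ ∑ i, ind (w (M.box (M.sb o i), 0) ∉ Z) *
          M.Ph (∑ x ∈ Z, M.ker w (M.sb o i) (M.vis 0 (M.sb o i)) ω x) :=
      sum_nonneg fun i _ => mul_nonneg (m9_ind_nonneg _) (hPh o i)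
    have hb2 : 0 < 2 / M.bet := div_pos (by norm_num) H.hbet
    have t3 := mul_nonneg hb2.le t3'
    have t4 := m9_ind_nonneg (M.fine o ω ∧ M.Fs w Z o ω ≤ M.bet / 2)
    by_cases c1 : M.fine o ω
    · by_cases c2 : ∃ σ, M.dB (M.box (M.so o)) σ ≤ 1 ∧ w (σ, 0) ∈ Z
      · obtain ⟨σ, hσ, hw⟩ := c2
        have h8 : ind (w (σ, 0) ∈ Z) ≤
            ∑ σ ∈ univ.filter (fun σ => M.dB (M.box (M.so o)) σ ≤ 1), ind (w (σ, 0) ∈ Z) :=
          single_le_sum (f := fun σ => ind (w (σ, 0) ∈ Z)) (fun i _ => m9_ind_nonneg _)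
            (mem_filter.2 ⟨mem_univ σ, hσ⟩)
        have h9 : ind (w (σ, 0) ∈ Z) = 1 := by
          unfold ind
          rw [if_pos hw]
        linarith
      · push Not at c2
        have h8 : M.Fs w Z o ω = ∑ i, ind (w (M.box (M.sb o i), 0) ∉ Z) *
            M.Ph (∑ x ∈ Z, M.ker w (M.sb o i) (M.vis 0 (M.sb o i)) ω x) := by
          unfold Mac.Fs
          refine sum_congr rfl fun i _ => ?_
          have h9 : w (M.box (M.sb o i), 0) ∉ Z :=
            c2 _ ((H.lip _ _).trans (H.sosb o i))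
          unfold ind
          rw [if_pos h9, one_mul]
        by_cases c3 : M.Fs w Z o ω ≤ M.bet / 2
        · have h9 : ind (M.fine o ω ∧ M.Fs w Z o ω ≤ M.bet / 2) = 1 := by
            unfold ind
            rw [if_pos ⟨c1, c3⟩]
          linarith
        · have h9 : M.bet / 2 < M.Fs w Z o ω := not_le.1 c3
          have h10 : 1 ≤ 2 / M.bet * M.Fs w Z o ω := by
            have h11 : 2 / M.bet * (M.bet / 2) ≤ 2 / M.bet * M.Fs w Z o ω :=
              mul_le_mul_of_nonneg_left h9.le hb2.le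
            have h12 : 2 / M.bet * (M.bet / 2) = 1 := by
              have := H.hbet.ne'
              field_simp
            linarith
          rw [h8] at h10
          linarith
    · unfold Mac.fine at c1
      push Not at c1
      obtain ⟨i, hi⟩ := c1
      have h8 : ¬ M.LevLe 0 (M.sb o i) ω := by
        intro h9
        have h10 := ((h3 X Y Ob St Bx Jc n T b M H ω).2.1 (M.sb o i) 0).2 h9
        exact hi (Nat.le_zero.1 h10)
      have h9 : ind (¬ M.LevLe 0 (M.sb o i) ω) ≤ ∑ i, ind (¬ M.LevLe 0 (M.sb o i) ω) :=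
        single_le_sum (f := fun i => ind (¬ M.LevLe 0 (M.sb o i) ω))
          (fun i _ => m9_ind_nonneg _) (mem_univ i)
      have h10 : ind (¬ M.LevLe 0 (M.sb o i) ω) = 1 := by
        unfold ind
        rw [if_pos h8]
      linarith
  refine le_trans ?_ (m9_mono M hP0 hpt)
  -- the expectation of the error terms
  have hE : M.E2 (fun (w : Bx × Fin (T + 1) → X) ω =>
      (M.N : ℝ) - ∑ o, (∑ i, ind (¬ M.LevLe 0 (M.sb o i) ω) +
        ∑ σ ∈ univ.filter (fun σ => M.dB (M.box (M.so o)) σ ≤ 1), ind (w (σ, 0) ∈ Z) +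
        2 / M.bet * ∑ i, ind (w (M.box (M.sb o i), 0) ∉ Z) *
          M.Ph (∑ x ∈ Z, M.ker w (M.sb o i) (M.vis 0 (M.sb o i)) ω x))) =
      (M.N : ℝ) - ∑ o, (∑ i, M.E2 (fun (_ : Bx × Fin (T + 1) → X) ω =>
          ind (¬ M.LevLe 0 (M.sb o i) ω)) +
        ∑ σ ∈ univ.filter (fun σ => M.dB (M.box (M.so o)) σ ≤ 1),
          M.E2 (fun (w : Bx × Fin (T + 1) → X) (_ : Jc × Bx → Y) => ind (w (σ, 0) ∈ Z)) +
        2 / M.bet * ∑ i, M.E2 (fun (w : Bx × Fin (T + 1) → X) ω =>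
          ind (w (M.box (M.sb o i), 0) ∉ Z) *
            M.Ph (∑ x ∈ Z, M.ker w (M.sb o i) (M.vis 0 (M.sb o i)) ω x))) := by
    have g0 : (fun (w : Bx × Fin (T + 1) → X) (ω : Jc × Bx → Y) =>
      (M.N : ℝ) - ∑ o, (∑ i, ind (¬ M.LevLe 0 (M.sb o i) ω) +
        ∑ σ ∈ univ.filter (fun σ => M.dB (M.box (M.so o)) σ ≤ 1), ind (w (σ, 0) ∈ Z) +
        2 / M.bet * ∑ i, ind (w (M.box (M.sb o i), 0) ∉ Z) *
          M.Ph (∑ x ∈ Z, M.ker w (M.sb o i) (M.vis 0 (M.sb o i)) ω x))) =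
      fun w ω => (M.N : ℝ) + (-1) * ∑ o, (∑ i, ind (¬ M.LevLe 0 (M.sb o i) ω) +
        ∑ σ ∈ univ.filter (fun σ => M.dB (M.box (M.so o)) σ ≤ 1), ind (w (σ, 0) ∈ Z) +
        2 / M.bet * ∑ i, ind (w (M.box (M.sb o i), 0) ∉ Z) *
          M.Ph (∑ x ∈ Z, M.ker w (M.sb o i) (M.vis 0 (M.sb o i)) ω x)) := by
      funext w ω
      ring
    rw [g0, m9_add, m9_const M H.cX hN hP1, m9_smul, m9_sum]
    have g1 : ∀ o ∈ (univ : Finset Ob), M.E2 (fun (w : Bx × Fin (T + 1) → X) ω =>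
        (∑ i, ind (¬ M.LevLe 0 (M.sb o i) ω) +
        ∑ σ ∈ univ.filter (fun σ => M.dB (M.box (M.so o)) σ ≤ 1), ind (w (σ, 0) ∈ Z) +
        2 / M.bet * ∑ i, ind (w (M.box (M.sb o i), 0) ∉ Z) *
          M.Ph (∑ x ∈ Z, M.ker w (M.sb o i) (M.vis 0 (M.sb o i)) ω x))) =
        (∑ i, M.E2 (fun (_ : Bx × Fin (T + 1) → X) ω =>
          ind (¬ M.LevLe 0 (M.sb o i) ω)) +
        ∑ σ ∈ univ.filter (fun σ => M.dB (M.box (M.so o)) σ ≤ 1),
          M.E2 (fun (w : Bx × Fin (T + 1) → X) (_ : Jc × Bx → Y) => ind (w (σ, 0) ∈ Z)) +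
        2 / M.bet * ∑ i, M.E2 (fun (w : Bx × Fin (T + 1) → X) ω =>
          ind (w (M.box (M.sb o i), 0) ∉ Z) *
            M.Ph (∑ x ∈ Z, M.ker w (M.sb o i) (M.vis 0 (M.sb o i)) ω x))) := by
      intro o _
      rw [m9_add, m9_add, m9_sum, m9_sum, m9_smul, m9_sum]
    rw [sum_congr rfl g1]
    ring
  rw [hE]
  -- the three error terms
  have f1 : ∑ o, ∑ i, M.E2 (fun (_ : Bx × Fin (T + 1) → X) ω =>
      ind (¬ M.LevLe 0 (M.sb o i) ω)) ≤ M.N / 1000 := by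
    have hS' : (0 : ℝ) < Fintype.card St := by exact_mod_cast H.cS
    have hn' : (1000 : ℝ) ≤ n := by exact_mod_cast H.hn
    have hn0 : (0 : ℝ) < n := by linarith
    have h8 := (h7 X Y Ob St Bx Jc n T b M H).2 0 (Nat.zero_le _)
    have h9 : Real.exp (-((M.μ 0 : ℝ) / 16)) / (n : ℝ) ^ 30 ≤ 1 / (n : ℝ) ^ 30 := by
      have : Real.exp (-((M.μ 0 : ℝ) / 16)) ≤ 1 := by
        rw [Real.exp_le_one_iff]
        have : (0 : ℝ) ≤ M.μ 0 := Nat.cast_nonneg _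
        linarith
      gcongr
    calc ∑ o, ∑ i, M.E2 (fun (_ : Bx × Fin (T + 1) → X) ω => ind (¬ M.LevLe 0 (M.sb o i) ω))
        ≤ ∑ o, ∑ i, M.err 0 (M.sb o i) :=
          sum_le_sum fun o _ => sum_le_sum fun i _ => hlev _
      _ = ∑ i : Fin n, ∑ o, M.err 0 (M.sb o i) := sum_comm
      _ = ∑ i : Fin n, (M.N : ℝ) / Fintype.card St * ∑ h, M.err 0 h :=
          sum_congr rfl fun i _ => m9_reg M H.cS (fun o => M.sb o i) (H.reg i) _
      _ ≤ ∑ i : Fin n, (M.N : ℝ) / Fintype.card St * (Fintype.card St * (1 / (n : ℝ) ^ 30)) := by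
          refine sum_le_sum fun i _ => mul_le_mul_of_nonneg_left ?_ (by positivity)
          exact h8.trans (mul_le_mul_of_nonneg_left h9 hS'.le)
      _ = M.N * (n / (n : ℝ) ^ 30) := by
          rw [sum_const, card_univ, Fintype.card_fin, nsmul_eq_mul]
          field_simp
      _ ≤ M.N / 1000 := by
          have h10 : (n : ℝ) / (n : ℝ) ^ 30 ≤ 1 / 1000 := by
            rw [div_le_div_iff₀ (by positivity) (by norm_num)]
            have h11 : (n : ℝ) ^ 30 = n * n * (n : ℝ) ^ 28 := by ring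
            have h12 : (1 : ℝ) ≤ (n : ℝ) ^ 28 := one_le_pow₀ (by linarith)
            rw [h11]
            have h13 : (n : ℝ) * 1000 ≤ n * n := mul_le_mul_of_nonneg_left hn' hn0.le
            have h14 : (n : ℝ) * n * 1 ≤ n * n * (n : ℝ) ^ 28 :=
              mul_le_mul_of_nonneg_left h12 (by positivity)
            linarith
          have h11 := mul_le_mul_of_nonneg_left h10 hNr.le
          linarith
  have f2 : ∑ o, ∑ σ ∈ univ.filter (fun σ => M.dB (M.box (M.so o)) σ ≤ 1),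
      M.E2 (fun (w : Bx × Fin (T + 1) → X) (_ : Jc × Bx → Y) => ind (w (σ, 0) ∈ Z)) ≤
      M.N / 2000 := by
    have h8 : ∀ σ, M.E2 (fun (w : Bx × Fin (T + 1) → X) (_ : Jc × Bx → Y) =>
        ind (w (σ, 0) ∈ Z)) ≤ 2 * M.c := by
      intro σ
      rw [m9_coord M H.cX hN hP1 (σ, 0) (fun x => ind (x ∈ Z)), m9_sum_ind_mem]
      exact hZN
    have h9 : ∀ o ∈ (univ : Finset Ob),
        ∑ σ ∈ univ.filter (fun σ => M.dB (M.box (M.so o)) σ ≤ 1),
        M.E2 (fun (w : Bx × Fin (T + 1) → X) (_ : Jc × Bx → Y) => ind (w (σ, 0) ∈ Z)) ≤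
        1 / 2000 := by
      intro o _
      have h10 : ∑ σ ∈ univ.filter (fun σ => M.dB (M.box (M.so o)) σ ≤ 1),
          M.E2 (fun (w : Bx × Fin (T + 1) → X) (_ : Jc × Bx → Y) => ind (w (σ, 0) ∈ Z)) ≤
          ∑ σ ∈ univ.filter (fun σ => M.dB (M.box (M.so o)) σ ≤ 1), 2 * M.c :=
        sum_le_sum fun σ _ => h8 σ
      rw [sum_const, nsmul_eq_mul] at h10
      have h11 : ((univ.filter (fun σ => M.dB (M.box (M.so o)) σ ≤ 1)).card : ℝ) ≤ M.Dl := by
        exact_mod_cast H.nbc (M.box (M.so o))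
      have h12 : (3 : ℝ) ≤ T := by exact_mod_cast H.hT
      have h13 := H.hdl
      have h14 := H.hdl1
      have h15 := H.c0
      have h16 : (0 : ℝ) ≤ M.Dl := Nat.cast_nonneg _
      have h17 : (0 : ℝ) ≤ M.Dl * M.c := mul_nonneg h16 h15
      have h18 : ((univ.filter (fun σ => M.dB (M.box (M.so o)) σ ≤ 1)).card : ℝ) *
          (2 * M.c) ≤ M.Dl * (2 * M.c) := mul_le_mul_of_nonneg_right h11 (by linarith)
      have h19 : 4 * (M.Dl * M.c) ≤ ((T : ℝ) + 1) * (M.Dl * M.c) :=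
        mul_le_mul_of_nonneg_right (by linarith) h17
      linarith
    calc ∑ o, ∑ σ ∈ univ.filter (fun σ => M.dB (M.box (M.so o)) σ ≤ 1),
        M.E2 (fun (w : Bx × Fin (T + 1) → X) (_ : Jc × Bx → Y) => ind (w (σ, 0) ∈ Z))
        ≤ ∑ _o : Ob, (1 / 2000 : ℝ) := sum_le_sum h9
      _ = M.N / 2000 := by
          rw [sum_const, card_univ, H.cO, nsmul_eq_mul]
          ring
  have f3 : ∑ o, 2 / M.bet * ∑ i, M.E2 (fun (w : Bx × Fin (T + 1) → X) ω =>
      ind (w (M.box (M.sb o i), 0) ∉ Z) *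
        M.Ph (∑ x ∈ Z, M.ker w (M.sb o i) (M.vis 0 (M.sb o i)) ω x)) ≤ M.N / 100 := by
    have h8 : ∀ h : St, M.E2 (fun (w : Bx × Fin (T + 1) → X) ω =>
        ind (w (M.box h, 0) ∉ Z) * M.Ph (∑ x ∈ Z, M.ker w h (M.vis 0 h) ω x)) ≤ 2 * M.c := by
      intro h
      refine (m9_site M H.cX hN H.hbet hP0 hP1 h (M.vis 0 h) (hk0 h _) (hk1 h _) ?_ Z).trans hZN
      intro x Φ hΦ1 hΦ2
      refine h5 X Y Ob St Bx Jc n T b M H h (M.vis 0 h) x Φ ?_ hΦ1 hΦ2
      intro θ hθ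
      unfold Mac.vis at hθ
      exact (mem_filter.1 hθ).2.2
    have hb2 : 0 < 2 / M.bet := div_pos (by norm_num) H.hbet
    have h9 : ∀ o ∈ (univ : Finset Ob), 2 / M.bet * ∑ i,
        M.E2 (fun (w : Bx × Fin (T + 1) → X) ω =>
        ind (w (M.box (M.sb o i), 0) ∉ Z) *
        M.Ph (∑ x ∈ Z, M.ker w (M.sb o i) (M.vis 0 (M.sb o i)) ω x)) ≤ 1 / 100 := by
      intro o _
      have h10 : ∑ i, M.E2 (fun (w : Bx × Fin (T + 1) → X) ω =>
        ind (w (M.box (M.sb o i), 0) ∉ Z) *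
        M.Ph (∑ x ∈ Z, M.ker w (M.sb o i) (M.vis 0 (M.sb o i)) ω x)) ≤
          ∑ _i : Fin n, 2 * M.c := sum_le_sum fun i _ => h8 (M.sb o i)
      rw [sum_const, card_univ, Fintype.card_fin, nsmul_eq_mul] at h10
      have h11 := mul_le_mul_of_nonneg_left h10 hb2.le
      have h12 : 2 / M.bet * ((n : ℝ) * (2 * M.c)) ≤ 1 / 100 := by
        rw [div_mul_eq_mul_div, div_le_div_iff₀ H.hbet (by norm_num)]
        have h13 := H.hcb
        linarith
      linarith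
    calc ∑ o, 2 / M.bet * ∑ i, M.E2 (fun (w : Bx × Fin (T + 1) → X) ω =>
        ind (w (M.box (M.sb o i), 0) ∉ Z) *
        M.Ph (∑ x ∈ Z, M.ker w (M.sb o i) (M.vis 0 (M.sb o i)) ω x))
        ≤ ∑ _o : Ob, (1 / 100 : ℝ) := sum_le_sum h9
      _ = M.N / 100 := by
          rw [sum_const, card_univ, H.cO, nsmul_eq_mul]
          ring
  rw [sum_add_distrib, sum_add_distrib]
  linarith

end Pool.Agent.FQ
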