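import Pool.Agent.FQ.SDefs

/-!
# Project FQ, part I: witnesses, tokens, kernels

See note 5216 on MP_a55b9e_co, part I.
-/

set_option autoImplicit false

namespace Pool.Agent.FQ

open Finset Classical
open Pool.Agent.H73.Cube (EE Loc)

/-- All data of part I. Vertices `X`, `Y`; odd positions `Ob`; sites `St`; boxes `Bx`; centres
`Jc`. Tokens are elements of `Jc × Bx`, witnesses are functions `Bx × Fin (T + 1) → X`. -/
structure Mac (X Y Ob St Bx Jc : Type) (n : ℕ) where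
  ok : X → Y → Prop
  N : ℕ
  L : ℕ
  Dl : ℕ
  μ : ℕ → ℕ
  a : ℝ
  c : ℝ
  dl : ℝ
  bet : ℝ
  so : Ob → St
  sb : Ob → Fin n → St
  D : St → St → ℕ
  box : St → Bx
  dB : Bx → Bx → ℕ
  Ac : ℕ → St → Finset Jc
  Cm : ℕ → St → Finset Jc
  jc : Bool → Ob → Jc

section

variable {X Y Ob St Bx Jc : Type} [Fintype X] [Fintype Y] [Fintype Ob] [Fintype St] [Fintype Bx]
  [Fintype Jc] [DecidableEq X] [DecidableEq Y] [DecidableEq Ob] [DecidableEq St]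
  [DecidableEq Bx] [DecidableEq Jc] {n T : ℕ}

namespace Mac

variable (M : Mac X Y Ob St Bx Jc n)

/-- The sites influenced by a centre. -/
noncomputable def Infc (j : Jc) : Finset St :=
  univ.filter (fun h => ∃ l ≤ M.L, ∃ h', M.D h h' ≤ 2 * M.L + 1 ∧ j ∈ M.Ac l h')

/-- The geometry is good at the site `h` for the level `l`. -/
def gOK (l : ℕ) (h : St) : Prop := M.μ l ≤ (M.Cm l h).card ∧ (M.Ac l h).card ≤ 22 * M.μ l

/-- Vertices of `Y` compatible with all witnesses of the boxes near `σ`. -/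
noncomputable def Cs (w : Bx × Fin (T + 1) → X) (σ : Bx) : Finset Y :=
  univ.filter (fun y => ∀ σ', M.dB σ σ' ≤ 1 → ∀ t, M.ok (w (σ', t)) y)

/-- The law of the seeds given the witnesses. -/
noncomputable def PP (w : Bx × Fin (T + 1) → X) (θ : Jc × Bx) (y : Y) : ℝ :=
  ind (y ∈ M.Cs w θ.2) / ((M.Cs w θ.2).card : ℝ)

/-- Tokens visible at the site `h` for the level `l`. -/
noncomputable def vis (l : ℕ) (h : St) : Finset (Jc × Bx) :=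
  univ.filter (fun θ => θ.1 ∈ M.Ac l h ∧ M.dB (M.box h) θ.2 ≤ 1)

/-- Common tokens of the odd position `o`. -/
noncomputable def Jt (l : ℕ) (o : Ob) : Finset (Jc × Bx) :=
  univ.filter (fun θ => θ.1 ∈ M.Cm l (M.so o) ∧ θ.2 = M.box (M.so o))

/-- Vertices compatible with the seeds of `I`. -/
noncomputable def Gam (I : Finset (Jc × Bx)) (ω : Jc × Bx → Y) : Finset X :=
  univ.filter (fun x => ∀ θ ∈ I, M.ok x (ω θ))

/-- Unnormalised kernel. -/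
noncomputable def num (w : Bx × Fin (T + 1) → X) (h : St) (I : Finset (Jc × Bx))
    (ω : Jc × Bx → Y) (x : X) : ℝ :=
  ind (∀ θ ∈ I, M.ok x (ω θ)) *
    ∏ θ ∈ I, 1 / ((M.Cs (Function.update w (M.box h, 0) x) θ.2).card : ℝ)

/-- The kernel: the posterior of the witness of the box of `h` with index `0`. -/
noncomputable def ker (w : Bx × Fin (T + 1) → X) (h : St) (I : Finset (Jc × Bx))
    (ω : Jc × Bx → Y) (x : X) : ℝ :=
  M.num w h I ω x / ∑ x', M.num w h I ω x'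

/-- The site `h` is good for the level `l`. -/
def OKs (l : ℕ) (h : St) (ω : Jc × Bx → Y) : Prop :=
  M.gOK l h ∧ (M.N : ℝ) ≤ ((M.Gam (M.vis l h) ω).card : ℝ) * M.a ^ M.μ l

/-- The level of `h` is at most `l`. -/
def LevLe (l : ℕ) (h : St) (ω : Jc × Bx → Y) : Prop :=
  ∀ l', l ≤ l' → l' ≤ M.L → ∀ h', M.D h h' ≤ 2 * (l' - l) + 1 → M.OKs l' h' ω

/-- The level. -/
noncomputable def lev (h : St) (ω : Jc × Bx → Y) : ℕ := sInf {l | M.LevLe l h ω}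

/-- The kernel used at `h`. -/
noncomputable def kq (w : Bx × Fin (T + 1) → X) (h : St) (ω : Jc × Bx → Y) (x : X) : ℝ :=
  if M.lev h ω ≤ M.L then M.ker w h (M.vis (M.lev h ω) h) ω x else 1 / M.N

/-- All neighbours of the odd position `o` have level 0. -/
def fine (o : Ob) (ω : Jc × Bx → Y) : Prop := ∀ i, M.lev (M.sb o i) ω = 0

/-- Some neighbour of `o` has no level. -/
def fail (o : Ob) (ω : Jc × Bx → Y) : Prop := ∃ i, M.L < M.lev (M.sb o i) ω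

/-- The two tokens of the odd position `o`. -/
def tk (t : Bool) (o : Ob) : Jc × Bx := (M.jc t o, M.box (M.so o))

/-- `- log (1 - l)`. -/
noncomputable def Ph (l : ℝ) : ℝ := if l < 1 then - Real.log (1 - l) else M.bet

/-- Sum of `Ph` over the neighbours, for the set `Z` of vertices. -/
noncomputable def Fs (w : Bx × Fin (T + 1) → X) (Z : Finset X) (o : Ob) (ω : Jc × Bx → Y) : ℝ :=
  ∑ i, M.Ph (∑ x ∈ Z, M.ker w (M.sb o i) (M.vis 0 (M.sb o i)) ω x)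

/-- The same without the token `tk t o`. -/
noncomputable def Fm (w : Bx × Fin (T + 1) → X) (Z : Finset X) (t : Bool) (o : Ob)
    (ω : Jc × Bx → Y) : ℝ :=
  ∑ i, M.Ph (∑ x ∈ Z, M.ker w (M.sb o i) ((M.vis 0 (M.sb o i)).erase (M.tk t o)) ω x)

/-- Non-neighbours. -/
noncomputable def nn1 (y : Y) : Finset X := univ.filter (fun x => ¬ M.ok x y)

/-- Non-neighbours of one of two vertices. -/
noncomputable def nn2 (y y' : Y) : Finset X := univ.filter (fun x => ¬ (M.ok x y ∧ M.ok x y'))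

/-- The event of G3. -/
def evt (w : Bx × Fin (T + 1) → X) (t : Bool) (o : Ob) (ω : Jc × Bx → Y) : Prop :=
  M.fine o ω ∧ M.Fm w (M.nn1 (ω (M.tk t o))) t o ω ≤ M.bet / 2

/-- Uniform law of the witnesses. -/
noncomputable def U1 (_ : Bx × Fin (T + 1)) (_ : X) : ℝ := 1 / M.N

/-- Joint expectation. -/
noncomputable def E2 (f : (Bx × Fin (T + 1) → X) → (Jc × Bx → Y) → ℝ) : ℝ :=
  EE M.U1 (fun w => EE (M.PP w) (f w))

/-- Error bound for levels. -/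
noncomputable def err (l : ℕ) (h : St) : ℝ :=
  ∑ l' ∈ Finset.Icc l M.L, ∑ h' ∈ univ.filter (fun h' => M.D h h' ≤ 2 * (l' - l) + 1),
    2 * (ind (¬ M.gOK l' h') + Real.exp (-(50 * (M.μ l' : ℝ))))

end Mac

/-- Hypotheses of part I. -/
structure MacHyp (T : ℕ) (M : Mac X Y Ob St Bx Jc n) (b : ℝ) : Prop where
  cX : Fintype.card X = M.N
  cY : Fintype.card Y = M.N
  cO : Fintype.card Ob = M.N
  cS : 0 < Fintype.card St
  dX : ∀ x, ((univ.filter (fun y => ¬ M.ok x y)).card : ℝ) ≤ M.c * M.N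
  dY : ∀ y, ((univ.filter (fun x => ¬ M.ok x y)).card : ℝ) ≤ M.c * M.N
  -- geometry
  reg : ∀ i h, (univ.filter (fun o => M.sb o i = h)).card * Fintype.card St = M.N
  rego : ∀ h, (univ.filter (fun o => M.so o = h)).card * Fintype.card St = M.N
  Dself : ∀ h, M.D h h = 0
  Dcomm : ∀ h h', M.D h h' = M.D h' h
  Dtri : ∀ h h' h'', M.D h h'' ≤ M.D h h' + M.D h' h''
  sosb : ∀ o i, M.D (M.so o) (M.sb o i) ≤ 1
  dBself : ∀ σ, M.dB σ σ = 0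
  dBcomm : ∀ σ σ', M.dB σ σ' = M.dB σ' σ
  dBtri : ∀ σ σ' σ'', M.dB σ σ'' ≤ M.dB σ σ' + M.dB σ' σ''
  lip : ∀ h h', M.dB (M.box h) (M.box h') ≤ M.D h h'
  nbc : ∀ σ, (univ.filter (fun σ' => M.dB σ σ' ≤ 1)).card ≤ M.Dl
  bxm : ∀ σ, ((univ.filter (fun h => M.dB (M.box h) σ ≤ 2 * M.L + 10)).card : ℝ) *
    (n : ℝ) ^ 40 ≤ Fintype.card St
  bxc : ∀ σ, (univ.filter (fun σ' => M.dB σ σ' ≤ 2 * M.L + 10)).card ≤ n
  cmac : ∀ l h h', M.D h h' ≤ 1 → M.Cm l h ⊆ M.Ac l h'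
  mono : ∀ l l' h, l ≤ l' → M.Ac l h ⊆ M.Ac l' h
  ball : ∀ h k, (univ.filter (fun h' => M.D h h' ≤ k)).card ≤ (n + 1) ^ k
  gfr : ∀ l ≤ M.L, ∑ h, ind (¬ M.gOK l h) ≤ Fintype.card St * Real.exp (-((M.μ l : ℝ) / 8))
  gtop : ∀ h, M.gOK M.L h
  infc : ∀ j, (Fintype.card (Jc × Bx) : ℝ) * ((M.Infc j).card : ℝ) ^ 2 * b ^ 250 ≤
    (Fintype.card St : ℝ) ^ 2
  jne : ∀ o, M.jc true o ≠ M.jc false o
  jcm : ∀ t o, M.gOK 0 (M.so o) → M.jc t o ∈ M.Cm 0 (M.so o)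
  -- numbers
  hn : 1000 ≤ n
  hT : 3 ≤ T
  hTn : T + 1 ≤ n
  hLn : M.L ≤ n
  hΔ : 1 ≤ M.Dl
  c0 : 0 ≤ M.c
  hdl : ((T : ℝ) + 1) * M.Dl * M.c ≤ M.dl
  hdl1 : M.dl ≤ 1 / 1000
  ha : 1 < M.a
  ha22 : 1 ≤ M.a * (1 - M.dl) ^ (22 * M.Dl)
  haT : Real.exp 60 ≤ M.a ^ (T - 1)
  han : M.a ^ (1600 * n) ≤ b
  ha0 : M.a ^ (8 * M.μ 0) ≤ n
  hb : b = Real.exp M.bet
  hbet : 0 < M.bet
  hdb : 1 ≤ (1 - M.dl) ^ n * Real.exp (M.bet / 2)
  hcb : 400 * n * M.c ≤ M.bet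
  mu1 : ∀ l, M.μ (l + 1) = 2 * M.μ l
  mu0 : 10 ^ 10 ≤ M.μ 0
  muL : 8 * n ≤ M.μ M.L
  muL' : M.μ M.L ≤ 16 * n
  mun : ∀ l, ((n : ℝ) + 1) ^ (2 * l + 40) ≤ Real.exp ((M.μ l : ℝ) / 16)

end

/-! ## Rows -/

/-- Row M1: the law of the seeds. -/
def M1Statement : Prop :=
  ∀ (X Y Ob St Bx Jc : Type) [Fintype X] [Fintype Y] [Fintype Ob] [Fintype St] [Fintype Bx]
    [Fintype Jc] [DecidableEq X] [DecidableEq Y] [DecidableEq Ob] [DecidableEq St]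
    [DecidableEq Bx] [DecidableEq Jc] (n T : ℕ) (b : ℝ) (M : Mac X Y Ob St Bx Jc n),
    MacHyp T M b → ∀ w : Bx × Fin (T + 1) → X,
    (∀ σ, (1 - M.dl) * M.N ≤ ((M.Cs w σ).card : ℝ)) ∧ (∀ σ, ((M.Cs w σ).card : ℝ) ≤ M.N) ∧
    (∀ θ y, 0 ≤ M.PP w θ y) ∧ (∀ θ, ∑ y, M.PP w θ y = 1) ∧
    (∀ θ y, M.PP w θ y * ((1 - M.dl) * M.N) ≤ ind (y ∈ M.Cs w θ.2)) ∧
    (∀ θ y, M.PP w θ y * M.N ≤ 101 / 100) ∧ (∀ θ y, ind (y ∈ M.Cs w θ.2) ≤ M.PP w θ y * M.N) ∧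
    (∀ θ y, M.PP w θ y ≠ 0 → ∀ σ', M.dB θ.2 σ' ≤ 1 → ∀ t, M.ok (w (σ', t)) y)

/-- Row M2: bounds for the kernel. -/
def M2Statement : Prop :=
  ∀ (X Y Ob St Bx Jc : Type) [Fintype X] [Fintype Y] [Fintype Ob] [Fintype St] [Fintype Bx]
    [Fintype Jc] [DecidableEq X] [DecidableEq Y] [DecidableEq Ob] [DecidableEq St]
    [DecidableEq Bx] [DecidableEq Jc] (n T : ℕ) (b : ℝ) (M : Mac X Y Ob St Bx Jc n),
    MacHyp T M b → ∀ (w : Bx × Fin (T + 1) → X) (h : St) (I : Finset (Jc × Bx))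
    (ω : Jc × Bx → Y),
    (∀ x, 0 ≤ M.ker w h I ω x) ∧ ∑ x, M.ker w h I ω x ≤ 1 ∧
    ((M.Gam I ω).Nonempty → ∑ x, M.ker w h I ω x = 1) ∧
    (∀ x, M.ker w h I ω x ≠ 0 ↔ x ∈ M.Gam I ω) ∧
    (∀ x, M.ker w h I ω x * (((M.Gam I ω).card : ℝ) * (1 - M.dl) ^ I.card) ≤ 1) ∧
    (∀ x ∈ M.Gam I ω, (1 - M.dl) ^ I.card ≤ M.ker w h I ω x * (M.Gam I ω).card) ∧
    (∀ l, M.gOK l h → (M.vis l h).card ≤ 22 * M.Dl * M.μ l) ∧
    (∀ l, M.OKs l h ω → ∀ x, M.ker w h (M.vis l h) ω x * M.N ≤ M.a ^ (2 * M.μ l)) ∧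
    (∀ l, M.gOK l h → ∀ x ∈ M.Gam (M.vis l h) ω,
      1 ≤ M.ker w h (M.vis l h) ω x * M.N * M.a ^ M.μ l)

/-- Row M3: levels. -/
def M3Statement : Prop :=
  ∀ (X Y Ob St Bx Jc : Type) [Fintype X] [Fintype Y] [Fintype Ob] [Fintype St] [Fintype Bx]
    [Fintype Jc] [DecidableEq X] [DecidableEq Y] [DecidableEq Ob] [DecidableEq St]
    [DecidableEq Bx] [DecidableEq Jc] (n T : ℕ) (b : ℝ) (M : Mac X Y Ob St Bx Jc n),
    MacHyp T M b → ∀ ω : Jc × Bx → Y,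
    (∀ h, M.lev h ω ≤ M.L + 1) ∧ (∀ h l, M.lev h ω ≤ l ↔ M.LevLe l h ω) ∧
    (∀ h l, M.lev h ω ≤ l → l ≤ M.L → M.OKs l h ω) ∧
    (∀ h h', M.D h h' ≤ 2 → M.lev h' ω ≤ M.lev h ω + 1) ∧
    (∀ o i l, M.lev (M.sb o i) ω ≤ l → l ≤ M.L → M.OKs l (M.so o) ω) ∧
    (∀ (θ : Jc × Bx) (y : Y) (h : St), h ∉ M.Infc θ.1 →
      M.lev h (Function.update ω θ y) = M.lev h ω ∧
      ∀ l ≤ M.L, θ ∉ M.vis l h) ∧
    ∀ (h : St) (ω' : Jc × Bx → Y),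
      (∀ θ : Jc × Bx, M.dB (M.box h) θ.2 ≤ 2 * M.L + 2 → ω θ = ω' θ) → M.lev h ω = M.lev h ω'

/-- Row M4: the kernels form a seeds model (deterministic part). -/
def M4Statement : Prop :=
  ∀ (X Y Ob St Bx Jc : Type) [Fintype X] [Fintype Y] [Fintype Ob] [Fintype St] [Fintype Bx]
    [Fintype Jc] [DecidableEq X] [DecidableEq Y] [DecidableEq Ob] [DecidableEq St]
    [DecidableEq Bx] [DecidableEq Jc] (n T : ℕ) (b : ℝ) (M : Mac X Y Ob St Bx Jc n),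
    MacHyp T M b → ∀ w : Bx × Fin (T + 1) → X,
    (∀ h ω x, 0 ≤ M.kq w h ω x) ∧ (∀ h ω, ∑ x, M.kq w h ω x = 1) ∧
    (∀ h ω x, M.kq w h ω x * M.N ≤ b ^ 7) ∧
    (∀ h ω x, M.kq w h ω x ≠ 0 → 1 ≤ M.kq w h ω x * M.N * b ^ 3) ∧
    (∀ (θ : Jc × Bx) h ω y, h ∉ M.Infc θ.1 → M.kq w h (Function.update ω θ y) = M.kq w h ω) ∧
    (∀ o ω, M.fail o ω ∨ ∃ l ≤ M.L, M.μ l ≤ (M.Jt l o).card ∧
      (∀ i x, M.kq w (M.sb o i) ω x * M.N ≤ (M.a ^ 4) ^ M.μ l) ∧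
      ∀ i x, M.kq w (M.sb o i) ω x ≠ 0 → ∀ θ ∈ M.Jt l o, M.ok x (ω θ)) ∧
    ∀ h ω x, M.kq w h ω x * M.N ≤
      ind (M.lev h ω = 0) * (M.ker w h (M.vis 0 h) ω x * M.N) +
      ∑ l ∈ Finset.range (M.L + 1), ind (¬ M.LevLe l h ω) * M.a ^ (2 * M.μ (l + 1))

/-- Row M5: Bayes. -/
def M5Statement : Prop :=
  ∀ (X Y Ob St Bx Jc : Type) [Fintype X] [Fintype Y] [Fintype Ob] [Fintype St] [Fintype Bx]
    [Fintype Jc] [DecidableEq X] [DecidableEq Y] [DecidableEq Ob] [DecidableEq St]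
    [DecidableEq Bx] [DecidableEq Jc] (n T : ℕ) (b : ℝ) (M : Mac X Y Ob St Bx Jc n),
    MacHyp T M b → ∀ (h : St) (I : Finset (Jc × Bx)) (x : X)
    (Φ : (Bx × Fin (T + 1) → X) → (Jc × Bx → Y) → ℝ),
    (∀ θ ∈ I, M.dB (M.box h) θ.2 ≤ 1) →
    (∀ w x' ω, Φ (Function.update w (M.box h, 0) x') ω = Φ w ω) →
    (∀ w ω ω', (∀ θ ∈ I, ω θ = ω' θ) → Φ w ω = Φ w ω') →
    M.E2 (fun w ω => ind (w (M.box h, 0) = x) * Φ w ω) =
      M.E2 (fun w ω => M.ker w h I ω x * Φ w ω)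

/-- Row M6: few compatible vertices is rare. -/
def M6Statement : Prop :=
  ∀ (X Y Ob St Bx Jc : Type) [Fintype X] [Fintype Y] [Fintype Ob] [Fintype St] [Fintype Bx]
    [Fintype Jc] [DecidableEq X] [DecidableEq Y] [DecidableEq Ob] [DecidableEq St]
    [DecidableEq Bx] [DecidableEq Jc] (n T : ℕ) (b : ℝ) (M : Mac X Y Ob St Bx Jc n),
    MacHyp T M b → ∀ (l : ℕ) (h : St), M.gOK l h →
    (M.E2 (fun (_ : Bx × Fin (T + 1) → X) ω => ind (¬ M.OKs l h ω)) ≤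
      2 * Real.exp (-(50 * (M.μ l : ℝ)))) ∧
    (∀ σ x, M.E2 (fun (w : Bx × Fin (T + 1) → X) ω =>
      M.N * ind (w (σ, 0) = x) * ind (¬ M.OKs l h ω)) ≤ 2 * Real.exp (-(50 * (M.μ l : ℝ)))) ∧
    ∀ θ y, M.E2 (fun (_ : Bx × Fin (T + 1) → X) ω =>
      M.N * ind (ω θ = y) * ind (¬ M.OKs l h ω)) ≤ 2 * Real.exp (-(50 * (M.μ l : ℝ)))

/-- Row M7: levels are rare. -/
def M7Statement : Prop :=
  ∀ (X Y Ob St Bx Jc : Type) [Fintype X] [Fintype Y] [Fintype Ob] [Fintype St] [Fintype Bx]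
    [Fintype Jc] [DecidableEq X] [DecidableEq Y] [DecidableEq Ob] [DecidableEq St]
    [DecidableEq Bx] [DecidableEq Jc] (n T : ℕ) (b : ℝ) (M : Mac X Y Ob St Bx Jc n),
    MacHyp T M b →
    (∀ (Ψ : (Bx × Fin (T + 1) → X) → (Jc × Bx → Y) → ℝ), (∀ w ω, 0 ≤ Ψ w ω) → M.E2 Ψ ≤ 2 →
      (∀ l h, l ≤ M.L → M.gOK l h → M.E2 (fun w ω => Ψ w ω * ind (¬ M.OKs l h ω)) ≤
        2 * Real.exp (-(50 * (M.μ l : ℝ)))) →
      ∀ l h, M.E2 (fun w ω => Ψ w ω * ind (¬ M.LevLe l h ω)) ≤ M.err l h) ∧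
    ∀ l ≤ M.L, ∑ h, M.err l h ≤
      Fintype.card St * (Real.exp (-((M.μ l : ℝ) / 16)) / (n : ℝ) ^ 30)

/-- Row M8: the balance of the kernel, in expectation over the witnesses. -/
def M8Statement : Prop :=
  ∀ (X Y Ob St Bx Jc : Type) [Fintype X] [Fintype Y] [Fintype Ob] [Fintype St] [Fintype Bx]
    [Fintype Jc] [DecidableEq X] [DecidableEq Y] [DecidableEq Ob] [DecidableEq St]
    [DecidableEq Bx] [DecidableEq Jc] (n T : ℕ) (b : ℝ) (M : Mac X Y Ob St Bx Jc n),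
    MacHyp T M b → ∀ x : X,
    |M.E2 (fun (w : Bx × Fin (T + 1) → X) ω =>
      ∑ h, ind (M.lev h ω = 0) * (M.ker w h (M.vis 0 h) ω x * M.N)) - Fintype.card St| ≤
      Fintype.card St / (n : ℝ) ^ 10

/-- Row M9: G2, in expectation over the witnesses. -/
def M9Statement : Prop :=
  ∀ (X Y Ob St Bx Jc : Type) [Fintype X] [Fintype Y] [Fintype Ob] [Fintype St] [Fintype Bx]
    [Fintype Jc] [DecidableEq X] [DecidableEq Y] [DecidableEq Ob] [DecidableEq St]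
    [DecidableEq Bx] [DecidableEq Jc] (n T : ℕ) (b : ℝ) (M : Mac X Y Ob St Bx Jc n),
    MacHyp T M b → ∀ y y' : Y,
    97 / 100 * (M.N : ℝ) ≤ M.E2 (fun (w : Bx × Fin (T + 1) → X) ω =>
      ∑ o, ind (M.fine o ω ∧ M.Fs w (M.nn2 y y') o ω ≤ M.bet / 2))

/-- Row M10: G3, in expectation over the witnesses. -/
def M10Statement : Prop :=
  ∀ (X Y Ob St Bx Jc : Type) [Fintype X] [Fintype Y] [Fintype Ob] [Fintype St] [Fintype Bx]
    [Fintype Jc] [DecidableEq X] [DecidableEq Y] [DecidableEq Ob] [DecidableEq St]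
    [DecidableEq Bx] [DecidableEq Jc] (n T : ℕ) (b : ℝ) (M : Mac X Y Ob St Bx Jc n),
    MacHyp T M b → ∀ (t : Bool) (y : Y),
    24 / 25 ≤ M.E2 (fun (w : Bx × Fin (T + 1) → X) ω =>
      ∑ o, ind (ω (M.tk t o) = y ∧ M.evt w t o ω))

/-- Row M11: bounded differences for local statistics of the witnesses. -/
def M11Statement : Prop :=
  ∀ (X Y Ob St Bx Jc : Type) [Fintype X] [Fintype Y] [Fintype Ob] [Fintype St] [Fintype Bx]
    [Fintype Jc] [DecidableEq X] [DecidableEq Y] [DecidableEq Ob] [DecidableEq St]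
    [DecidableEq Bx] [DecidableEq Jc] (n T : ℕ) (b : ℝ) (M : Mac X Y Ob St Bx Jc n),
    MacHyp T M b → ∀ (A : Type) [Fintype A] (site : A → St) (m : ℕ),
    (∀ h, (univ.filter (fun a => site a = h)).card * Fintype.card St = m) →
    ∀ (f : A → (Bx × Fin (T + 1) → X) → ℝ) (C : ℝ), (∀ a w, 0 ≤ f a w) → (∀ a w, f a w ≤ C) →
    (∀ a w w', (∀ σ t, M.dB (M.box (site a)) σ ≤ 2 * M.L + 10 → w (σ, t) = w' (σ, t)) →
      f a w = f a w') →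
    ∃ cc : Bx × Fin (T + 1) → ℝ, (∀ i, 0 ≤ cc i) ∧
      (∀ i w x, |∑ a, f a (Function.update w i x) - ∑ a, f a w| ≤ cc i) ∧
      ∑ i, cc i ^ 2 ≤ C ^ 2 * (m : ℝ) ^ 2 / (n : ℝ) ^ 38

/-- Row M12: the statistics are local. -/
def M12Statement : Prop :=
  ∀ (X Y Ob St Bx Jc : Type) [Fintype X] [Fintype Y] [Fintype Ob] [Fintype St] [Fintype Bx]
    [Fintype Jc] [DecidableEq X] [DecidableEq Y] [DecidableEq Ob] [DecidableEq St]
    [DecidableEq Bx] [DecidableEq Jc] (n T : ℕ) (b : ℝ) (M : Mac X Y Ob St Bx Jc n),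
    MacHyp T M b →
    (∀ h x (w w' : Bx × Fin (T + 1) → X),
      (∀ σ t, M.dB (M.box h) σ ≤ 2 * M.L + 10 → w (σ, t) = w' (σ, t)) →
      EE (M.PP w) (fun ω => ind (M.lev h ω = 0) * (M.ker w h (M.vis 0 h) ω x * M.N)) =
        EE (M.PP w') (fun ω => ind (M.lev h ω = 0) * (M.ker w' h (M.vis 0 h) ω x * M.N))) ∧
    (∀ o Z (w w' : Bx × Fin (T + 1) → X),
      (∀ σ t, M.dB (M.box (M.so o)) σ ≤ 2 * M.L + 10 → w (σ, t) = w' (σ, t)) →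
      EE (M.PP w) (fun ω => ind (M.fine o ω ∧ M.Fs w Z o ω ≤ M.bet / 2)) =
        EE (M.PP w') (fun ω => ind (M.fine o ω ∧ M.Fs w' Z o ω ≤ M.bet / 2))) ∧
    ∀ t o y (w w' : Bx × Fin (T + 1) → X),
      (∀ σ s, M.dB (M.box (M.so o)) σ ≤ 2 * M.L + 10 → w (σ, s) = w' (σ, s)) →
      EE (M.PP w) (fun ω => ind (ω (M.tk t o) = y ∧ M.evt w t o ω)) =
        EE (M.PP w') (fun ω => ind (ω (M.tk t o) = y ∧ M.evt w' t o ω))

/-- Good witnesses. -/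
structure WitOK {X Y Ob St Bx Jc : Type} [Fintype X] [Fintype Y] [Fintype Ob] [Fintype St]
    [Fintype Bx] [Fintype Jc] [DecidableEq X] [DecidableEq Y] [DecidableEq Ob] [DecidableEq St]
    [DecidableEq Bx] [DecidableEq Jc] {n T : ℕ} (M : Mac X Y Ob St Bx Jc n) (b : ℝ)
    (w : Bx × Fin (T + 1) → X) : Prop where
  v1 : ∀ x, |EE (M.PP w) (fun ω => ∑ h, ind (M.lev h ω = 0) *
    (M.ker w h (M.vis 0 h) ω x * M.N)) - Fintype.card St| ≤ Fintype.card St / (2 * (n : ℝ) ^ 5)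
  v2 : ∀ y y', 19 / 20 * (M.N : ℝ) ≤ EE (M.PP w) (fun ω => ∑ o,
    ind (M.fine o ω ∧ M.Fs w (M.nn2 y y') o ω ≤ M.bet / 2))
  v3 : ∀ t y, 47 / 50 ≤ EE (M.PP w) (fun ω => ∑ o, ind (ω (M.tk t o) = y ∧ M.evt w t o ω))
  v4 : EE (M.PP w) (fun ω => ∑ h, ∑ l ∈ Finset.range (M.L + 1),
    ind (¬ M.LevLe l h ω) * M.a ^ (2 * M.μ (l + 1))) ≤ Fintype.card St / (n : ℝ) ^ 10
  v5 : EE (M.PP w) (fun ω => ∑ o, ind (M.fail o ω)) ≤ 1 / b ^ 100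

/-- Row M13: good witnesses exist. -/
def M13Statement : Prop :=
  ∀ (X Y Ob St Bx Jc : Type) [Fintype X] [Fintype Y] [Fintype Ob] [Fintype St] [Fintype Bx]
    [Fintype Jc] [DecidableEq X] [DecidableEq Y] [DecidableEq Ob] [DecidableEq St]
    [DecidableEq Bx] [DecidableEq Jc] (n N s T : ℕ) (b : ℝ) (M : Mac X Y Ob St Bx Jc n),
    Num n N s b → M.N = N → MacHyp T M b → ∃ w : Bx × Fin (T + 1) → X, WitOK M b w

/-- Row M14: from good witnesses to G1, G2, G5. -/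
def M14Statement : Prop :=
  ∀ (X Y Ob St Bx Jc : Type) [Fintype X] [Fintype Y] [Fintype Ob] [Fintype St] [Fintype Bx]
    [Fintype Jc] [DecidableEq X] [DecidableEq Y] [DecidableEq Ob] [DecidableEq St]
    [DecidableEq Bx] [DecidableEq Jc] (n T : ℕ) (b : ℝ) (M : Mac X Y Ob St Bx Jc n)
    (w : Bx × Fin (T + 1) → X), MacHyp T M b → WitOK M b w →
    (∀ x, |EE (M.PP w) (fun ω => ∑ h, M.kq w h ω x) * M.N - Fintype.card St| ≤
      Fintype.card St / (n : ℝ) ^ 5) ∧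
    (∀ y y', 9 / 10 * (M.N : ℝ) ≤
      EE (M.PP w) (fun ω => tot M.sb (fun h => M.kq w h ω) (two M.ok y y')) * b) ∧
    ∀ x x', (Fintype.card St : ℝ) / n ≤
      EE (M.PP w) (fun ω => ∑ h, ind (1 / (n : ℝ) ≤ M.kq w h ω x * M.N ∧
        1 / (n : ℝ) ≤ M.kq w h ω x' * M.N))

/-- Row M15: leaving out one token. -/
def M15Statement : Prop :=
  ∀ (X Y Ob St Bx Jc : Type) [Fintype X] [Fintype Y] [Fintype Ob] [Fintype St] [Fintype Bx]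
    [Fintype Jc] [DecidableEq X] [DecidableEq Y] [DecidableEq Ob] [DecidableEq St]
    [DecidableEq Bx] [DecidableEq Jc] (n T : ℕ) (b : ℝ) (M : Mac X Y Ob St Bx Jc n)
    (w : Bx × Fin (T + 1) → X), MacHyp T M b → ∀ t o (ω : Jc × Bx → Y), M.evt w t o ω →
    ¬ M.fail o ω ∧
    (∀ S : Fin n → X, ∏ i, M.kq w (M.sb o i) ω (S i) ≤
      b * ∏ i, M.ker w (M.sb o i) ((M.vis 0 (M.sb o i)).erase (M.tk t o)) ω (S i)) ∧
    ∀ i x, M.kq w (M.sb o i) ω x ≠ 0 → M.ok x (ω (M.tk t o))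

/-- Part I. -/
def MacroStatement : Prop :=
  ∀ (X Y Ob St Bx Jc : Type) [Fintype X] [Fintype Y] [Fintype Ob] [Fintype St] [Fintype Bx]
    [Fintype Jc] [DecidableEq X] [DecidableEq Y] [DecidableEq Ob] [DecidableEq St]
    [DecidableEq Bx] [DecidableEq Jc] (n N s T : ℕ) (b : ℝ) (M : Mac X Y Ob St Bx Jc n),
    Num n N s b → M.N = N → MacHyp T M b →
    ∃ S : Sd X Y Ob St (Jc × Bx) n, S.ok = M.ok ∧ S.sb = M.sb ∧
      SdHyp S N M.L M.μ (M.a ^ 4) b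

end Pool.Agent.FQ
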