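import Pool.Agent.FQ.MDefs

/-!
# Project FQ, row MF: part I from its rows
-/

set_option autoImplicit false

namespace Pool.Agent.FQ

open Finset Classical
open Pool.Agent.H73.Cube (EE Loc)

section

set_option linter.unusedSectionVars false

variable {X Y Ob St Bx Jc : Type} [Fintype X] [Fintype Y] [Fintype Ob] [Fintype St] [Fintype Bx]
  [Fintype Jc] [DecidableEq X] [DecidableEq Y] [DecidableEq Ob] [DecidableEq St]
  [DecidableEq Bx] [DecidableEq Jc] {n T : ℕ}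

/-- The unnormalised kernel only depends on the seeds of the tokens of `I`. -/
theorem MF_num_congr (M : Mac X Y Ob St Bx Jc n) (w : Bx × Fin (T + 1) → X) (h : St)
    (I : Finset (Jc × Bx)) (ω ω' : Jc × Bx → Y) (hI : ∀ θ ∈ I, ω θ = ω' θ) (x : X) :
    M.num w h I ω x = M.num w h I ω' x := by
  have e : (∀ θ ∈ I, M.ok x (ω θ)) ↔ (∀ θ ∈ I, M.ok x (ω' θ)) := by
    constructor
    · intro H θ hθ
      rw [← hI θ hθ]
      exact H θ hθ
    · intro H θ hθ
      rw [hI θ hθ]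
      exact H θ hθ
  unfold Mac.num
  rw [show ind (∀ θ ∈ I, M.ok x (ω θ)) = ind (∀ θ ∈ I, M.ok x (ω' θ)) from
    congrArg ind (propext e)]

theorem MF_ker_congr (M : Mac X Y Ob St Bx Jc n) (w : Bx × Fin (T + 1) → X) (h : St)
    (I : Finset (Jc × Bx)) (ω ω' : Jc × Bx → Y) (hI : ∀ θ ∈ I, ω θ = ω' θ) :
    M.ker w h I ω = M.ker w h I ω' := by
  funext x
  unfold Mac.ker
  rw [MF_num_congr M w h I ω ω' hI x,
    Finset.sum_congr rfl (fun x' _ => MF_num_congr M w h I ω ω' hI x')]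

theorem MF_mu_mono {M : Mac X Y Ob St Bx Jc n} {b : ℝ} (H : MacHyp T M b) (l : ℕ) :
    M.μ 0 ≤ M.μ l := by
  induction l with
  | zero => exact le_rfl
  | succ l ih =>
      rw [H.mu1 l]
      omega

theorem MF_muL {M : Mac X Y Ob St Bx Jc n} {b : ℝ} (H : MacHyp T M b) (l : ℕ) :
    ((M.L : ℝ) + 1) * 100 ≤ 2 ^ (M.μ l / 50) := by
  have hn1 : (1000 : ℝ) ≤ n := by exact_mod_cast H.hn
  have hL : (M.L : ℝ) ≤ n := by exact_mod_cast H.hLn
  have h0 : (M.μ 0 : ℝ) ≤ (M.μ l : ℝ) := by exact_mod_cast MF_mu_mono H l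
  have h10 : (10 : ℝ) ^ 10 ≤ (M.μ 0 : ℝ) := by exact_mod_cast H.mu0
  -- the lower bound for the exponential
  have h1 : ((n : ℝ) + 1) ^ 4 ≤ Real.exp ((M.μ 0 : ℝ) / 160) := by
    have h2 := H.mun 0
    have h3 : Real.exp ((M.μ 0 : ℝ) / 16) = Real.exp ((M.μ 0 : ℝ) / 160) ^ 10 := by
      rw [← Real.exp_nat_mul]
      congr 1
      push_cast
      ring
    have h4 : ((n : ℝ) + 1) ^ (2 * 0 + 40) = (((n : ℝ) + 1) ^ 4) ^ 10 := by
      rw [← pow_mul]
    rw [h3, h4] at h2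
    exact le_of_pow_le_pow_left₀ (by norm_num) (Real.exp_pos _).le h2
  have h5 : ((M.L : ℝ) + 1) * 100 ≤ ((n : ℝ) + 1) ^ 4 := by
    have h6 : (1000 : ℝ) ^ 3 ≤ ((n : ℝ) + 1) ^ 3 :=
      pow_le_pow_left₀ (by norm_num) (by linarith) 3
    have h7 : ((n : ℝ) + 1) ^ 4 = ((n : ℝ) + 1) * ((n : ℝ) + 1) ^ 3 := by ring
    rw [h7]
    have h8 : ((n : ℝ) + 1) * 1000 ^ 3 ≤ ((n : ℝ) + 1) * ((n : ℝ) + 1) ^ 3 :=
      mul_le_mul_of_nonneg_left h6 (by linarith)
    nlinarith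
  -- the lower bound for the power of two
  have h9 : (M.μ l : ℝ) / 50 - 1 ≤ ((M.μ l / 50 : ℕ) : ℝ) := by
    have h10 : M.μ l < 50 * (M.μ l / 50) + 50 := by omega
    have h11 : (M.μ l : ℝ) < 50 * ((M.μ l / 50 : ℕ) : ℝ) + 50 := by exact_mod_cast h10
    linarith
  have h12 : (0.69 : ℝ) ≤ Real.log 2 := by
    have := Real.log_two_gt_d9
    linarith
  have h13 : Real.exp ((M.μ 0 : ℝ) / 160) ≤ 2 ^ (M.μ l / 50) := by
    have h14 : (2 : ℝ) ^ (M.μ l / 50) = Real.exp (((M.μ l / 50 : ℕ) : ℝ) * Real.log 2) := by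
      rw [Real.exp_nat_mul, Real.exp_log (by norm_num)]
    rw [h14]
    apply Real.exp_le_exp.2
    have h15 : (0 : ℝ) ≤ ((M.μ l / 50 : ℕ) : ℝ) := Nat.cast_nonneg _
    have h16 : ((M.μ l / 50 : ℕ) : ℝ) * 0.69 ≤ ((M.μ l / 50 : ℕ) : ℝ) * Real.log 2 :=
      mul_le_mul_of_nonneg_left h12 h15
    nlinarith
  linarith

end

theorem macr (h1 : M1Statement) (h2 : M2Statement) (_h3 : M3Statement) (h4 : M4Statement)
    (h13 : M13Statement) (h14 : M14Statement) (h15 : M15Statement) : MacroStatement := by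
  intro X Y Ob St Bx Jc _ _ _ _ _ _ _ _ _ _ _ _ n N s T b M hnum hN H
  obtain ⟨w, hw⟩ := h13 X Y Ob St Bx Jc n N s T b M hnum hN H
  obtain ⟨-, -, p0, p1, -, p6, -, -⟩ := h1 X Y Ob St Bx Jc n T b M H w
  obtain ⟨q0, q1, qle, qge, loc, com, -⟩ := h4 X Y Ob St Bx Jc n T b M H w
  obtain ⟨g1, g2, g5⟩ := h14 X Y Ob St Bx Jc n T b M w H hw
  have k2 := h2 X Y Ob St Bx Jc n T b M H w
  have k15 := h15 X Y Ob St Bx Jc n T b M w H
  subst hN
  refine ⟨{
    ok := M.ok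
    P := M.PP w
    q := M.kq w
    sb := M.sb
    J := M.Jt
    fail := M.fail
    Inf := fun θ => M.Infc θ.1
    th := M.tk
    qm := fun t o i ω x => M.ker w (M.sb o i) ((M.vis 0 (M.sb o i)).erase (M.tk t o)) ω x
    ev := M.evt w }, rfl, rfl, ?_⟩
  exact {
    cX := H.cX
    cY := H.cY
    cO := H.cO
    cS := H.cS
    reg := H.reg
    P0 := p0
    P1 := p1
    Ple := p6
    q0 := q0
    q1 := q1
    qle := qle
    qge := qge
    loc := loc
    infl := fun θ => H.infc θ.1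
    failE := hw.v5
    com := com
    g1 := g1
    g2 := g2
    thne := fun o he => H.jne o (congrArg Prod.fst he)
    g3 := hw.v3
    evf := fun t o ω he => (k15 t o ω he).1
    evq := fun t o ω he => (k15 t o ω he).2.1
    evs := fun t o ω he => (k15 t o ω he).2.2
    qm0 := fun t o i ω x => (k2 (M.sb o i) _ ω).1 x
    qm1 := fun t o i ω => (k2 (M.sb o i) _ ω).2.1
    qmi := fun t o i ω y => MF_ker_congr M w (M.sb o i) _ _ _ (fun θ hθ =>
      Function.update_of_ne (Finset.ne_of_mem_erase hθ) _ _)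
    g5 := g5
    hmu := fun l _ => H.mu0.trans (MF_mu_mono H l)
    hmuL := fun l _ => MF_muL H l
    hlam := one_le_pow₀ H.ha.le
    hlamb := by
      rw [← pow_mul, show 4 * (400 * n) = 1600 * n by ring]
      exact H.han }

end Pool.Agent.FQ
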