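import Pool.Agent.FQ.PDefs

/-!
# Project FQ, row P1: the clipped statistics are Lipschitz
-/

set_option autoImplicit false

namespace Pool.Agent.FQ

open Finset Classical

theorem p1_prod_le {X : Type} [Fintype X] (n : ℕ) (q : Fin n → X → ℝ)
    (h0 : ∀ i x, 0 ≤ q i x) (h1 : ∀ i, ∑ x, q i x ≤ 1) :
    ∑ S : Fin n → X, ∏ i, q i (S i) ≤ 1 := by
  rw [← Fintype.prod_sum]
  exact Finset.prod_le_one (fun i _ => Finset.sum_nonneg fun x _ => h0 i x) fun i _ => h1 i

/-- Telescoping for subprobabilities. -/
theorem p1_tele {X : Type} [Fintype X] : ∀ (n : ℕ) (q q' : Fin n → X → ℝ),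
    (∀ i x, 0 ≤ q i x) → (∀ i x, 0 ≤ q' i x) → (∀ i, ∑ x, q i x ≤ 1) →
    (∀ i, ∑ x, q' i x ≤ 1) →
    ∑ S : Fin n → X, |∏ i, q' i (S i) - ∏ i, q i (S i)| ≤ ∑ i, ∑ x, |q' i x - q i x| := by
  intro n
  induction n with
  | zero =>
    intro q q' _ _ _ _
    simp
  | succ n ih =>
    intro q q' h0 h0' h1 h1'
    have hIH := ih (fun i => q i.succ) (fun i => q' i.succ) (fun i => h0 i.succ)
      (fun i => h0' i.succ) (fun i => h1 i.succ) (fun i => h1' i.succ)
    have hP := p1_prod_le n (fun i => q' i.succ) (fun i => h0' i.succ) (fun i => h1' i.succ)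
    rw [← (Fin.consEquiv fun _ : Fin (n + 1) => X).sum_comp, Fintype.sum_prod_type,
      Fin.sum_univ_succ (fun i => ∑ x, |q' i x - q i x|)]
    have hstep : ∀ (x : X) (S : Fin n → X),
        |∏ i, q' i ((Fin.consEquiv fun _ : Fin (n + 1) => X) (x, S) i) -
          ∏ i, q i ((Fin.consEquiv fun _ : Fin (n + 1) => X) (x, S) i)| ≤
        |q' 0 x - q 0 x| * ∏ i : Fin n, q' i.succ (S i) +
          q 0 x * |∏ i : Fin n, q' i.succ (S i) - ∏ i : Fin n, q i.succ (S i)| := by
      intro x S
      have e1 : ∏ i, q' i ((Fin.consEquiv fun _ : Fin (n + 1) => X) (x, S) i) =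
          q' 0 x * ∏ i : Fin n, q' i.succ (S i) := by
        rw [Fin.prod_univ_succ]
        rfl
      have e2 : ∏ i, q i ((Fin.consEquiv fun _ : Fin (n + 1) => X) (x, S) i) =
          q 0 x * ∏ i : Fin n, q i.succ (S i) := by
        rw [Fin.prod_univ_succ]
        rfl
      rw [e1, e2]
      have hp : 0 ≤ ∏ i : Fin n, q' i.succ (S i) :=
        Finset.prod_nonneg fun i _ => h0' i.succ (S i)
      have e3 : q' 0 x * ∏ i : Fin n, q' i.succ (S i) - q 0 x * ∏ i : Fin n, q i.succ (S i) =
          (q' 0 x - q 0 x) * ∏ i : Fin n, q' i.succ (S i) +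
          q 0 x * (∏ i : Fin n, q' i.succ (S i) - ∏ i : Fin n, q i.succ (S i)) := by ring
      rw [e3]
      refine (abs_add_le _ _).trans ?_
      rw [abs_mul, abs_mul, abs_of_nonneg hp, abs_of_nonneg (h0 0 x)]
    calc ∑ x, ∑ S, |∏ i, q' i ((Fin.consEquiv fun _ : Fin (n + 1) => X) (x, S) i) -
          ∏ i, q i ((Fin.consEquiv fun _ : Fin (n + 1) => X) (x, S) i)|
        ≤ ∑ x, ∑ S : Fin n → X, (|q' 0 x - q 0 x| * ∏ i : Fin n, q' i.succ (S i) +
          q 0 x * |∏ i : Fin n, q' i.succ (S i) - ∏ i : Fin n, q i.succ (S i)|) :=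
          Finset.sum_le_sum fun x _ => Finset.sum_le_sum fun S _ => hstep x S
      _ = (∑ x, |q' 0 x - q 0 x|) * ∑ S : Fin n → X, ∏ i : Fin n, q' i.succ (S i) +
          (∑ x, q 0 x) * ∑ S : Fin n → X,
            |∏ i : Fin n, q' i.succ (S i) - ∏ i : Fin n, q i.succ (S i)| := by
          simp_rw [Finset.sum_add_distrib, ← Finset.mul_sum, ← Finset.sum_mul]
      _ ≤ (∑ x, |q' 0 x - q 0 x|) * 1 + 1 * ∑ i : Fin n, ∑ x, |q' i.succ x - q i.succ x| := by
          refine add_le_add ?_ ?_
          · exact mul_le_mul_of_nonneg_left hP (Finset.sum_nonneg fun x _ => abs_nonneg _)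
          · exact mul_le_mul (h1 0) hIH (Finset.sum_nonneg fun S _ => abs_nonneg _) zero_le_one
      _ = _ := by rw [mul_one, one_mul]

/-- The clipped indicator of a finite set. -/
noncomputable def p1u {X : Type} (s : ℕ) (A : Finset X) (x : X) : ℝ :=
  ind (x ∈ A) / max (s : ℝ) A.card

theorem p1_nuc {X Dl : Type} [Fintype X] [Fintype Dl] [DecidableEq Dl] (s : ℕ)
    (φ : X → Option Dl) (d : Dl) (x : X) :
    nuc s φ d x = p1u s (univ.filter fun x => φ x = some d) x := by
  unfold nuc p1u cn
  congr 2
  simp

theorem p1_ind_nonneg (p : Prop) : 0 ≤ ind p := by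
  unfold ind
  split_ifs <;> norm_num

theorem p1_sum_ind {X : Type} [Fintype X] (A : Finset X) :
    ∑ x, ind (x ∈ A) = A.card := by
  have h : ∑ x ∈ A, ind (x ∈ A) = ∑ x, ind (x ∈ A) :=
    Finset.sum_subset (Finset.subset_univ _) fun x _ hx => by
      unfold ind
      rw [if_neg hx]
  have h1 : ∀ x ∈ A, ind (x ∈ A) = 1 := fun x hx => by
    unfold ind
    rw [if_pos hx]
  rw [← h, Finset.sum_congr rfl h1]
  simp

theorem p1u_nonneg {X : Type} (s : ℕ) (A : Finset X) (x : X) : 0 ≤ p1u s A x := by
  unfold p1u
  exact div_nonneg (p1_ind_nonneg _) (le_max_of_le_left (Nat.cast_nonneg s))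

theorem p1u_sum {X : Type} [Fintype X] (s : ℕ) (A : Finset X) : ∑ x, p1u s A x ≤ 1 := by
  unfold p1u
  rw [← Finset.sum_div, p1_sum_ind]
  exact div_le_one_of_le₀ (le_max_right _ _) (le_max_of_le_left (Nat.cast_nonneg s))

/-- Adding one vertex to a block. -/
theorem p1_blk {X : Type} [Fintype X] [DecidableEq X] (s : ℕ) (hs : 1 ≤ s) (A : Finset X) (x : X)
    (hx : x ∉ A) : ∑ z, |p1u s (insert x A) z - p1u s A z| ≤ 2 / s := by
  have hcard : ((insert x A).card : ℝ) = (A.card : ℝ) + 1 := by
    rw [Finset.card_insert_of_notMem hx]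
    push_cast
    ring
  set k : ℝ := (A.card : ℝ) with hk
  set m : ℝ := max (s : ℝ) k with hm
  set m' : ℝ := max (s : ℝ) (k + 1) with hm'
  have hs1 : (1 : ℝ) ≤ s := by exact_mod_cast hs
  have hsm : (s : ℝ) ≤ m := le_max_left _ _
  have hkm : k ≤ m := le_max_right _ _
  have hk0 : 0 ≤ k := Nat.cast_nonneg _
  have hmm' : m ≤ m' := max_le_max le_rfl (by linarith)
  have hm'm : m' ≤ m + 1 := max_le (by linarith) (by linarith)
  have hm0 : 0 < m := by linarith
  have hm'0 : 0 < m' := by linarith
  have hle : 1 / m' ≤ 1 / m := one_div_le_one_div_of_le hm0 hmm'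
  have hterm : ∀ z, |p1u s (insert x A) z - p1u s A z| =
      ind (z ∈ A) * (1 / m - 1 / m') + (if z = x then 1 / m' else 0) := by
    intro z
    unfold p1u
    rw [hcard]
    by_cases hz : z ∈ A
    · have hzx : z ≠ x := fun h => hx (h ▸ hz)
      have h1 : ind (z ∈ insert x A) = 1 := by
        unfold ind
        rw [if_pos (Finset.mem_insert_of_mem hz)]
      have h2 : ind (z ∈ A) = 1 := by
        unfold ind
        rw [if_pos hz]
      rw [h1, h2, if_neg hzx, one_mul, add_zero, abs_sub_comm, abs_of_nonneg]
      linarith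
    · have h2 : ind (z ∈ A) = 0 := by
        unfold ind
        rw [if_neg hz]
      rw [h2, zero_div, sub_zero, zero_mul, zero_add]
      by_cases hzx : z = x
      · have h1 : ind (z ∈ insert x A) = 1 := by
          unfold ind
          rw [if_pos (by rw [hzx]; exact Finset.mem_insert_self _ _)]
        rw [h1, if_pos hzx, abs_of_nonneg (by positivity)]
      · have h1 : ind (z ∈ insert x A) = 0 := by
          unfold ind
          rw [if_neg]
          rw [Finset.mem_insert]
          tauto
        rw [h1, if_neg hzx, zero_div, abs_zero]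
  rw [Finset.sum_congr rfl fun z _ => hterm z, Finset.sum_add_distrib, ← Finset.sum_mul,
    p1_sum_ind]
  rw [Finset.sum_ite_eq' univ x, if_pos (Finset.mem_univ x)]
  have h3 : k * (1 / m - 1 / m') ≤ 1 / m' := by
    have h4 : k * (1 / m - 1 / m') = k * (m' - m) / (m * m') := by
      field_simp
    rw [h4, div_le_div_iff₀ (by positivity) hm'0]
    have h5 : k * (m' - m) ≤ m := by nlinarith
    nlinarith
  have h6 : 1 / m' ≤ 1 / s := one_div_le_one_div_of_le (by linarith) (by linarith)
  have h7 : (2 : ℝ) / s = 1 / s + 1 / s := by ring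
  rw [h7]
  linarith

theorem p1_dist {X Dl : Type} [Fintype X] [Fintype Dl] [DecidableEq X] [DecidableEq Dl] (s : ℕ)
    (hs : 1 ≤ s) (φ : X → Option Dl) (x : X) (a : Option Dl) (d : Dl) :
    ∑ z, |nuc s (Function.update φ x a) d z - nuc s φ d z| ≤
      2 / s * (ind (φ x = some d) + ind (a = some d)) := by
  have hnn : 0 ≤ (2 : ℝ) / s := by positivity
  simp_rw [p1_nuc]
  by_cases h1 : φ x = some d
  · by_cases h2 : a = some d
    · have h3 : (univ.filter fun z => Function.update φ x a z = some d) =
          univ.filter fun z => φ z = some d := by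
        ext z
        simp only [Finset.mem_filter, Finset.mem_univ, true_and]
        by_cases hz : z = x
        · subst hz
          rw [Function.update_self]
          exact ⟨fun _ => h1, fun _ => h2⟩
        · rw [Function.update_of_ne hz]
      rw [h3]
      simp only [sub_self, abs_zero, Finset.sum_const_zero]
      exact mul_nonneg hnn (add_nonneg (p1_ind_nonneg _) (p1_ind_nonneg _))
    · -- x leaves the block
      have hx : x ∉ univ.filter fun z => Function.update φ x a z = some d := by
        simp only [Finset.mem_filter, Finset.mem_univ, true_and, Function.update_self]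
        exact h2
      have h3 : (univ.filter fun z => φ z = some d) =
          insert x (univ.filter fun z => Function.update φ x a z = some d) := by
        ext z
        simp only [Finset.mem_filter, Finset.mem_univ, true_and, Finset.mem_insert]
        by_cases hz : z = x
        · subst hz
          exact ⟨fun _ => Or.inl rfl, fun _ => h1⟩
        · rw [Function.update_of_ne hz]
          tauto
      rw [h3]
      have h4 := p1_blk s hs _ x hx
      have h5 : ind (φ x = some d) = 1 := by
        unfold ind
        rw [if_pos h1]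
      have h6 : ind (a = some d) = 0 := by
        unfold ind
        rw [if_neg h2]
      rw [h5, h6, add_zero, mul_one]
      refine le_trans (le_of_eq ?_) h4
      exact Finset.sum_congr rfl fun z _ => abs_sub_comm _ _
  · by_cases h2 : a = some d
    · -- x enters the block
      have hx : x ∉ univ.filter fun z => φ z = some d := by
        simp only [Finset.mem_filter, Finset.mem_univ, true_and]
        exact h1
      have h3 : (univ.filter fun z => Function.update φ x a z = some d) =
          insert x (univ.filter fun z => φ z = some d) := by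
        ext z
        simp only [Finset.mem_filter, Finset.mem_univ, true_and, Finset.mem_insert]
        by_cases hz : z = x
        · subst hz
          rw [Function.update_self]
          exact ⟨fun _ => Or.inl rfl, fun _ => h2⟩
        · rw [Function.update_of_ne hz]
          tauto
      rw [h3]
      have h4 := p1_blk s hs _ x hx
      have h5 : ind (φ x = some d) = 0 := by
        unfold ind
        rw [if_neg h1]
      have h6 : ind (a = some d) = 1 := by
        unfold ind
        rw [if_pos h2]
      rw [h5, h6, zero_add, mul_one]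
      exact h4
    · have h3 : (univ.filter fun z => Function.update φ x a z = some d) =
          univ.filter fun z => φ z = some d := by
        ext z
        simp only [Finset.mem_filter, Finset.mem_univ, true_and]
        by_cases hz : z = x
        · subst hz
          rw [Function.update_self]
          exact ⟨fun h => absurd h h2, fun h => absurd h h1⟩
        · rw [Function.update_of_ne hz]
      rw [h3]
      simp only [sub_self, abs_zero, Finset.sum_const_zero]
      exact mul_nonneg hnn (add_nonneg (p1_ind_nonneg _) (p1_ind_nonneg _))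

theorem p1_count {Ob Dl : Type} [Fintype Ob] [Fintype Dl] [DecidableEq Ob] [DecidableEq Dl]
    (n s : ℕ) (D : Ob → Fin n → Dl) (hinj : ∀ o, Function.Injective (D o))
    (hcnt : ∀ d, (univ.filter (fun o => ∃ i, D o i = d)).card ≤ n * s) (c : Option Dl) :
    ∑ o, ∑ i, ind (c = some (D o i)) ≤ (n : ℝ) * s := by
  rcases c with _ | d
  · have h : ∑ o, ∑ i, ind ((none : Option Dl) = some (D o i)) = 0 := by
      refine Finset.sum_eq_zero fun o _ => Finset.sum_eq_zero fun i _ => ?_
      unfold ind
      rw [if_neg]
      simp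
    rw [h]
    positivity
  · have h : ∀ o, ∑ i, ind (some d = some (D o i)) ≤ if ∃ i, D o i = d then 1 else 0 := by
      intro o
      split_ifs with hex
      · obtain ⟨i0, hi0⟩ := hex
        have : ∑ i, ind (some d = some (D o i)) = ∑ i, if i = i0 then (1 : ℝ) else 0 := by
          refine Finset.sum_congr rfl fun i _ => ?_
          unfold ind
          by_cases hi : i = i0
          · rw [if_pos hi, if_pos]
            rw [hi, hi0]
          · rw [if_neg hi, if_neg]
            intro hc
            apply hi
            apply hinj o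
            rw [hi0]
            exact (Option.some.inj hc).symm
        rw [this]
        simp
      · refine le_of_eq (Finset.sum_eq_zero fun i _ => ?_)
        unfold ind
        rw [if_neg]
        intro hc
        exact hex ⟨i, (Option.some.inj hc).symm⟩
    refine (Finset.sum_le_sum fun o _ => h o).trans ?_
    rw [← Finset.sum_filter, Finset.sum_const, nsmul_eq_mul, mul_one]
    exact_mod_cast hcnt d

theorem p1 : P1Statement := by
  intro X Ob Dl _ _ _ _ _ _ n s D Φ C hs hC hinj hcnt hΦ0 hΦC φ x a
  have hs0 : (0 : ℝ) < s := by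
    have : (1 : ℝ) ≤ s := by exact_mod_cast hs
    linarith
  set q : Dl → X → ℝ := nuc s φ with hq
  set q' : Dl → X → ℝ := nuc s (Function.update φ x a) with hq'
  have hq0 : ∀ d z, 0 ≤ q d z := fun d z => by
    rw [hq, p1_nuc]; exact p1u_nonneg _ _ _
  have hq0' : ∀ d z, 0 ≤ q' d z := fun d z => by
    rw [hq', p1_nuc]; exact p1u_nonneg _ _ _
  have hq1 : ∀ d, ∑ z, q d z ≤ 1 := fun d => by
    simp_rw [hq, p1_nuc]; exact p1u_sum _ _
  have hq1' : ∀ d, ∑ z, q' d z ≤ 1 := fun d => by
    simp_rw [hq', p1_nuc]; exact p1u_sum _ _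
  have hsub : tot D q' Φ - tot D q Φ = ∑ o, ∑ S, (pw D q' o S - pw D q o S) * Φ o S := by
    unfold tot
    rw [← Finset.sum_sub_distrib]
    refine Finset.sum_congr rfl fun o _ => ?_
    rw [← Finset.sum_sub_distrib]
    refine Finset.sum_congr rfl fun S _ => ?_
    ring
  rw [hsub]
  calc |∑ o, ∑ S, (pw D q' o S - pw D q o S) * Φ o S|
      ≤ ∑ o, ∑ S, |pw D q' o S - pw D q o S| * C := by
        refine (Finset.abs_sum_le_sum_abs _ _).trans (Finset.sum_le_sum fun o _ => ?_)
        refine (Finset.abs_sum_le_sum_abs _ _).trans (Finset.sum_le_sum fun S _ => ?_)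
        rw [abs_mul, abs_of_nonneg (hΦ0 o S)]
        exact mul_le_mul_of_nonneg_left (hΦC o S) (abs_nonneg _)
    _ = (∑ o, ∑ S, |pw D q' o S - pw D q o S|) * C := by
        simp_rw [Finset.sum_mul]
    _ ≤ (∑ o, ∑ i, ∑ z, |q' (D o i) z - q (D o i) z|) * C := by
        refine mul_le_mul_of_nonneg_right (Finset.sum_le_sum fun o _ => ?_) hC
        exact p1_tele n (fun i => q (D o i)) (fun i => q' (D o i)) (fun i => hq0 _)
          (fun i => hq0' _) (fun i => hq1 _) (fun i => hq1' _)
    _ ≤ (∑ o, ∑ i, 2 / s * (ind (φ x = some (D o i)) + ind (a = some (D o i)))) * C := by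
        refine mul_le_mul_of_nonneg_right ?_ hC
        exact Finset.sum_le_sum fun o _ => Finset.sum_le_sum fun i _ =>
          p1_dist s hs φ x a (D o i)
    _ = 2 / s * (∑ o, ∑ i, ind (φ x = some (D o i)) + ∑ o, ∑ i, ind (a = some (D o i))) * C := by
        simp_rw [← Finset.mul_sum, Finset.sum_add_distrib]
    _ ≤ 2 / s * ((n : ℝ) * s + (n : ℝ) * s) * C := by
        refine mul_le_mul_of_nonneg_right ?_ hC
        refine mul_le_mul_of_nonneg_left ?_ (by positivity)
        exact add_le_add (p1_count n s D hinj hcnt _) (p1_count n s D hinj hcnt _)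
    _ = 4 * n * C := by
        field_simp
        ring

end Pool.Agent.FQ
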