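import Pool.Agent.FQ.PDefs

/-!
# Project FQ, row P2: the law of the contents, overflow
-/

set_option autoImplicit false

namespace Pool.Agent.FQ

open Finset Classical
open Pool.Agent.H73.Cube (EE EE_mono EE_smul)

section

variable {X Dl : Type} [Fintype X] [Fintype Dl] [DecidableEq X] [DecidableEq Dl]

theorem p2_ind0 (p : Prop) : 0 ≤ ind p := by
  unfold ind
  split_ifs <;> norm_num

theorem p2_cn (φ : X → Option Dl) (d : Dl) : (cn φ d : ℝ) = ∑ x, ind (φ x = some d) := by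
  unfold cn ind
  rw [card_filter]
  push_cast
  refine sum_congr rfl fun x _ => ?_
  by_cases h : φ x = some d <;> simp [h]

theorem p2_mean (P : X → Option Dl → ℝ) (d : Dl) (x : X) :
    ∑ a, P x a * ind (a = some d) = P x (some d) := by
  rw [sum_eq_single (some d)]
  · unfold ind
    simp
  · intro a _ ha
    unfold ind
    rw [if_neg ha, mul_zero]
  · intro h
    exact absurd (mem_univ _) h

theorem p2_exp (hCh : ChernoffStatement) (P : X → Option Dl → ℝ) (hP0 : ∀ x a, 0 ≤ P x a)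
    (hP1 : ∀ x, ∑ a, P x a = 1) (d : Dl) (l : ℝ) (hl : |l| ≤ 1) :
    EE P (fun φ => Real.exp (l * ((cn φ d : ℝ) - ∑ x, P x (some d)))) ≤
      Real.exp (l ^ 2 * ∑ x, P x (some d)) := by
  have h := hCh X (Option Dl) P (fun _ a => a = some d) l hP0 hP1 hl
  simp only [p2_mean] at h
  simp only [p2_cn]
  convert h using 1

theorem p2_tail (hCh : ChernoffStatement) (P : X → Option Dl → ℝ) (hP0 : ∀ x a, 0 ≤ P x a)
    (hP1 : ∀ x, ∑ a, P x a = 1) (d : Dl) (s t : ℝ) (hs : 0 < s) (ht : 0 ≤ t) (hts : t ≤ 2 * s)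
    (hm : ∑ x, P x (some d) ≤ s) :
    EE P (fun φ => ind (∑ x, P x (some d) + t ≤ (cn φ d : ℝ))) ≤ Real.exp (-(t ^ 2 / (4 * s))) ∧
    EE P (fun φ => ind ((cn φ d : ℝ) ≤ ∑ x, P x (some d) - t)) ≤
      Real.exp (-(t ^ 2 / (4 * s))) := by
  have hl0 : 0 ≤ t / (2 * s) := by positivity
  have hl1 : t / (2 * s) ≤ 1 := by
    rw [div_le_one (by positivity)]
    exact hts
  have key : ∀ l : ℝ, l ^ 2 = (t / (2 * s)) ^ 2 → |l| ≤ 1 → ∀ p : (X → Option Dl) → Prop,
      (∀ φ, p φ → t / (2 * s) * t ≤ l * ((cn φ d : ℝ) - ∑ x, P x (some d))) →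
      EE P (fun φ => ind (p φ)) ≤ Real.exp (-(t ^ 2 / (4 * s))) := by
    intro l hl2 hl p hp
    have h1 : ∀ φ, ind (p φ) ≤ Real.exp (-(t / (2 * s) * t)) *
        Real.exp (l * ((cn φ d : ℝ) - ∑ x, P x (some d))) := by
      intro φ
      rw [← Real.exp_add]
      by_cases h : p φ
      · have h2 := hp φ h
        have h3 : ind (p φ) = 1 := by
          unfold ind
          rw [if_pos h]
        rw [h3]
        refine Real.one_le_exp ?_
        linarith
      · have h3 : ind (p φ) = 0 := by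
          unfold ind
          rw [if_neg h]
        rw [h3]
        exact (Real.exp_pos _).le
    refine (EE_mono hP0 fun φ _ => h1 φ).trans ?_
    rw [EE_smul]
    have h4 := p2_exp hCh P hP0 hP1 d l hl
    refine (mul_le_mul_of_nonneg_left h4 (Real.exp_pos _).le).trans ?_
    rw [← Real.exp_add]
    refine Real.exp_le_exp.2 ?_
    rw [hl2]
    have h5 : (t / (2 * s)) ^ 2 * ∑ x, P x (some d) ≤ (t / (2 * s)) ^ 2 * s :=
      mul_le_mul_of_nonneg_left hm (sq_nonneg _)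
    have h6 : (t / (2 * s)) ^ 2 * s = t ^ 2 / (4 * s) := by
      field_simp
      ring
    have h7 : t / (2 * s) * t = 2 * (t ^ 2 / (4 * s)) := by
      field_simp
      ring
    linarith
  constructor
  · refine key (t / (2 * s)) rfl ?_ _ fun φ hφ => ?_
    · rw [abs_of_nonneg hl0]
      exact hl1
    · exact mul_le_mul_of_nonneg_left (by linarith) hl0
  · refine key (-(t / (2 * s))) (by ring) ?_ _ fun φ hφ => ?_
    · rw [abs_neg, abs_of_nonneg hl0]
      exact hl1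
    · have h1 : -(t / (2 * s)) * ((cn φ d : ℝ) - ∑ x, P x (some d)) =
          t / (2 * s) * (∑ x, P x (some d) - (cn φ d : ℝ)) := by ring
      rw [h1]
      exact mul_le_mul_of_nonneg_left (by linarith) hl0

end

/-- Row P2. -/
theorem p2 (hCh : ChernoffStatement) : P2Statement := by
  intro X Dl _ _ _ _ n N s b Q hN hX hD Q0 Q1 hU
  have hn : (1000 : ℝ) ≤ n := by exact_mod_cast hN.hn
  have hnb : (n : ℝ) ≤ b := by
    refine le_trans ?_ hN.hnb
    exact le_self_pow₀ (by linarith) (by norm_num)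
  have hb : (1000 : ℝ) ≤ b := hn.trans hnb
  have hb0 : (0 : ℝ) < b := by linarith
  have hb1 : (1 : ℝ) ≤ b := by linarith
  have hp : ∀ k : ℕ, 1 ≤ b ^ k := fun k => one_le_pow₀ hb1
  have hq0 : 0 ≤ 1 / b ^ 30 := by positivity
  have hq1 : 1 / b ^ 30 ≤ 1 := by
    rw [div_le_one (by positivity)]
    exact hp 30
  have hu0 : 0 < 1 / b ^ 60 := by positivity
  have hu1 : 1 / b ^ 60 ≤ 1 / 2 := by
    refine one_div_le_one_div_of_le (by norm_num) ?_
    have : b ≤ b ^ 60 := le_self_pow₀ hb1 (by norm_num)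
    linarith
  have hs0 : (0 : ℝ) < s := lt_of_lt_of_le (by positivity) hN.hsb
  have hU1 : ∀ x, 1 / 2 ≤ ∑ d, (s : ℝ) * Q d x := fun x => by
    have h := (abs_le.1 (hU x)).1
    linarith
  have hPX : ∀ x d, PX Q s b x (some d) =
      (1 - 1 / b ^ 30) * ((s : ℝ) * Q d x) / ∑ d', (s : ℝ) * Q d' x := fun x d => rfl
  have hsQ : ∀ d x, 0 ≤ (s : ℝ) * Q d x := fun d x => mul_nonneg hs0.le (Q0 d x)
  have h0 : ∀ x a, 0 ≤ PX Q s b x a := by
    intro x a
    cases a with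
    | none => exact hq0
    | some d =>
      rw [hPX]
      exact div_nonneg (mul_nonneg (by linarith) (hsQ d x)) (by linarith [hU1 x])
  have h1 : ∀ x, ∑ a, PX Q s b x a = 1 := by
    intro x
    rw [Fintype.sum_option]
    simp only [hPX]
    rw [← sum_div, ← mul_sum, mul_div_assoc, div_self (by linarith [hU1 x])]
    show 1 / b ^ 30 + _ = (1 : ℝ)
    ring
  have h2 : ∀ x d, |PX Q s b x (some d) - (1 - 1 / b ^ 30) * ((s : ℝ) * Q d x)| ≤
      2 / b ^ 60 * ((s : ℝ) * Q d x) := by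
    intro x d
    rw [hPX]
    set U := ∑ d', (s : ℝ) * Q d' x with hUd
    have hUp : 0 < U := by linarith [hU1 x]
    have e1 : (1 - 1 / b ^ 30) * ((s : ℝ) * Q d x) / U - (1 - 1 / b ^ 30) * ((s : ℝ) * Q d x) =
        ((s : ℝ) * Q d x) * ((1 - 1 / b ^ 30) * ((1 - U) / U)) := by
      field_simp
    rw [e1, abs_mul, abs_of_nonneg (hsQ d x), mul_comm (2 / b ^ 60)]
    refine mul_le_mul_of_nonneg_left ?_ (hsQ d x)
    rw [abs_mul, abs_of_nonneg (by linarith : (0:ℝ) ≤ 1 - 1 / b ^ 30), abs_div,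
      abs_of_pos hUp, abs_sub_comm]
    have e2 : |U - 1| / U ≤ 2 / b ^ 60 := by
      rw [div_le_iff₀ hUp]
      have e3 : |U - 1| ≤ 1 / b ^ 60 := hU x
      have e4 : 2 / b ^ 60 * U = 1 / b ^ 60 * (2 * U) := by ring
      rw [e4]
      have e5 : 1 ≤ 2 * U := by linarith [hU1 x]
      calc |U - 1| ≤ 1 / b ^ 60 * 1 := by rw [mul_one]; exact e3
        _ ≤ 1 / b ^ 60 * (2 * U) := mul_le_mul_of_nonneg_left e5 hu0.le
    have e6 : 0 ≤ |U - 1| / U := div_nonneg (abs_nonneg _) hUp.le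
    calc (1 - 1 / b ^ 30) * (|U - 1| / U) ≤ 1 * (|U - 1| / U) :=
          mul_le_mul_of_nonneg_right (by linarith) e6
      _ ≤ 2 / b ^ 60 := by rw [one_mul]; exact e2
  refine ⟨h0, h1, h2, ?_⟩
  -- the mean
  have hm : ∀ d, |∑ x, PX Q s b x (some d) - (1 - 1 / b ^ 30) * s| ≤ 2 / b ^ 60 * s := by
    intro d
    have e1 : ∑ x, (s : ℝ) * Q d x = s := by rw [← mul_sum, Q1 d, mul_one]
    have e2 : ∑ x, PX Q s b x (some d) - (1 - 1 / b ^ 30) * s =
        ∑ x, (PX Q s b x (some d) - (1 - 1 / b ^ 30) * ((s : ℝ) * Q d x)) := by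
      rw [sum_sub_distrib, ← mul_sum, e1]
    have e3 : 2 / b ^ 60 * (s : ℝ) = ∑ x, 2 / b ^ 60 * ((s : ℝ) * Q d x) := by
      rw [← mul_sum, e1]
    rw [e2, e3]
    exact (abs_sum_le_sum_abs _ _).trans (sum_le_sum fun x _ => h2 x d)
  -- numerics
  have n1 : 2 / b ^ 60 ≤ 1 / (2 * b ^ 50) := by
    rw [div_le_div_iff₀ (by positivity) (by positivity)]
    have e1 : (1000 : ℝ) ≤ b ^ 10 := hb.trans (le_self_pow₀ hb1 (by norm_num))
    have e2 : b ^ 60 = b ^ 50 * b ^ 10 := by ring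
    have e3 : b ^ 50 * 1000 ≤ b ^ 50 * b ^ 10 := mul_le_mul_of_nonneg_left e1 (by positivity)
    rw [e2]
    linarith [hp 50]
  have n2 : 2 / b ^ 60 ≤ 1 / b ^ 30 := by
    rw [div_le_div_iff₀ (by positivity) (by positivity)]
    have e1 : (1000 : ℝ) ≤ b ^ 30 := hb.trans (le_self_pow₀ hb1 (by norm_num))
    have e2 : b ^ 60 = b ^ 30 * b ^ 30 := by ring
    have e3 : b ^ 30 * 1000 ≤ b ^ 30 * b ^ 30 := mul_le_mul_of_nonneg_left e1 (by positivity)
    rw [e2]
    linarith [hp 30]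
  have n3 : 1 / b ^ 50 = 2 * (1 / (2 * b ^ 50)) := by
    field_simp
  set t : ℝ := 1 / (2 * b ^ 50) * s with ht
  have ht0 : 0 ≤ t := by positivity
  have hts : t ≤ 2 * s := by
    have e1 : 1 / (2 * b ^ 50) ≤ 2 := by
      rw [div_le_iff₀ (by positivity)]
      linarith [hp 50]
    exact mul_le_mul_of_nonneg_right e1 hs0.le
  have hms : ∀ d, ∑ x, PX Q s b x (some d) ≤ s := by
    intro d
    have e1 := (abs_le.1 (hm d)).2
    have e2 : 2 / b ^ 60 * (s : ℝ) ≤ 1 / b ^ 30 * s := mul_le_mul_of_nonneg_right n2 hs0.le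
    have e3 : (1 - 1 / b ^ 30) * (s : ℝ) = s - 1 / b ^ 30 * s := by ring
    linarith
  have htail := fun d => p2_tail hCh (PX Q s b) h0 h1 d s t hs0 ht0 hts (hms d)
  have hexpo : b ^ 200 / 16 ≤ t ^ 2 / (4 * s) := by
    have e1 : t ^ 2 / (4 * s) = s / (16 * b ^ 100) := by
      rw [ht]
      field_simp
      ring
    rw [e1, div_le_div_iff₀ (by norm_num) (by positivity)]
    have e2 : b ^ 200 * (16 * b ^ 100) = b ^ 300 * 16 := by ring
    rw [e2]
    exact mul_le_mul_of_nonneg_right hN.hsb (by norm_num)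
  have hup : ∀ d, EE (PX Q s b) (fun φ => ind ((1 - 1 / b ^ 30 + 1 / b ^ 50) * s <
      (cn φ d : ℝ))) ≤ Real.exp (-(b ^ 200 / 16)) := by
    intro d
    refine (EE_mono h0 (g := fun φ => ind (∑ x, PX Q s b x (some d) + t ≤ (cn φ d : ℝ)))
      fun φ _ => ?_).trans ((htail d).1.trans (Real.exp_le_exp.2 (by linarith)))
    by_cases h : (1 - 1 / b ^ 30 + 1 / b ^ 50) * s < (cn φ d : ℝ)
    · have h3 : ∑ x, PX Q s b x (some d) + t ≤ (cn φ d : ℝ) := by
        have e1 := (abs_le.1 (hm d)).2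
        have e2 : 2 / b ^ 60 * (s : ℝ) ≤ t := mul_le_mul_of_nonneg_right n1 hs0.le
        have e3 : 1 / b ^ 50 * (s : ℝ) = 2 * t := by
          rw [n3, ht]
          ring
        have e4 : (1 - 1 / b ^ 30 + 1 / b ^ 50) * (s : ℝ) =
          (1 - 1 / b ^ 30) * s + 1 / b ^ 50 * s := by ring
        linarith
      unfold ind
      rw [if_pos h, if_pos h3]
    · have h3 : ind ((1 - 1 / b ^ 30 + 1 / b ^ 50) * s < (cn φ d : ℝ)) = 0 := by
        unfold ind
        rw [if_neg h]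
      rw [h3]
      exact p2_ind0 _
  have hlo : ∀ d, EE (PX Q s b) (fun φ => ind ((cn φ d : ℝ) <
      (1 - 1 / b ^ 30 - 1 / b ^ 50) * s)) ≤ Real.exp (-(b ^ 200 / 16)) := by
    intro d
    refine (EE_mono h0 (g := fun φ => ind ((cn φ d : ℝ) ≤ ∑ x, PX Q s b x (some d) - t))
      fun φ _ => ?_).trans ((htail d).2.trans (Real.exp_le_exp.2 (by linarith)))
    by_cases h : (cn φ d : ℝ) < (1 - 1 / b ^ 30 - 1 / b ^ 50) * s
    · have h3 : (cn φ d : ℝ) ≤ ∑ x, PX Q s b x (some d) - t := by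
        have e1 := (abs_le.1 (hm d)).1
        have e2 : 2 / b ^ 60 * (s : ℝ) ≤ t := mul_le_mul_of_nonneg_right n1 hs0.le
        have e3 : 1 / b ^ 50 * (s : ℝ) = 2 * t := by
          rw [n3, ht]
          ring
        have e4 : (1 - 1 / b ^ 30 - 1 / b ^ 50) * (s : ℝ) =
          (1 - 1 / b ^ 30) * s - 1 / b ^ 50 * s := by ring
        linarith
      unfold ind
      rw [if_pos h, if_pos h3]
    · have h3 : ind ((cn φ d : ℝ) < (1 - 1 / b ^ 30 - 1 / b ^ 50) * s) = 0 := by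
        unfold ind
        rw [if_neg h]
      rw [h3]
      exact p2_ind0 _
  have hDN : (Fintype.card Dl : ℝ) ≤ N := by
    have e1 : 1 ≤ s := by
      have : (0 : ℝ) < s := hs0
      exact_mod_cast this
    have e2 : Fintype.card Dl ≤ N := by
      rw [← hD]
      exact Nat.le_mul_of_pos_right _ e1
    exact_mod_cast e2
  have hD2 : (Fintype.card Dl : ℝ) ≤ Real.exp b :=
    hDN.trans (hN.hNn.trans (Real.exp_le_exp.2 hnb))
  have hsum : ∀ f : Dl → ℝ, (∀ d, f d ≤ Real.exp (-(b ^ 200 / 16))) →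
      ∑ d, f d ≤ Real.exp b * Real.exp (-(b ^ 200 / 16)) := by
    intro f hf
    calc ∑ d, f d ≤ ∑ _d : Dl, Real.exp (-(b ^ 200 / 16)) := sum_le_sum fun d _ => hf d
      _ = Fintype.card Dl * Real.exp (-(b ^ 200 / 16)) := by
        rw [sum_const, card_univ, nsmul_eq_mul]
      _ ≤ _ := mul_le_mul_of_nonneg_right hD2 (Real.exp_pos _).le
  have hfin : Real.exp b * Real.exp (-(b ^ 200 / 16)) * 2 ≤ Real.exp (-b ^ 100) := by
    have e0 : (2 : ℝ) ≤ Real.exp 1 := by
      have := Real.add_one_le_exp (1 : ℝ)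
      linarith
    have e1 : Real.exp b * Real.exp (-(b ^ 200 / 16)) * 2 ≤
        Real.exp b * Real.exp (-(b ^ 200 / 16)) * Real.exp 1 :=
      mul_le_mul_of_nonneg_left e0 (by positivity)
    refine e1.trans ?_
    rw [← Real.exp_add, ← Real.exp_add]
    refine Real.exp_le_exp.2 ?_
    have e2 : (1000 : ℝ) ≤ b ^ 100 := hb.trans (le_self_pow₀ hb1 (by norm_num))
    have e3 : b ≤ b ^ 100 := le_self_pow₀ hb1 (by norm_num)
    have e4 : b ^ 200 = b ^ 100 * b ^ 100 := by ring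
    have e5 : b ^ 100 * 1000 ≤ b ^ 100 * b ^ 100 := mul_le_mul_of_nonneg_left e2 (by positivity)
    rw [e4]
    linarith
  have f1 := hsum _ hup
  have f2 := hsum _ hlo
  linarith

end Pool.Agent.FQ
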