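import Pool.Agent.FQ.PDefs

/-!
# Project FQ, row P3: the means of the clipped statistics
-/

set_option autoImplicit false
set_option linter.unusedSectionVars false

namespace Pool.Agent.FQ

open Finset Classical
open Pool.Agent.H73.Cube (EE Loc EE_add EE_sub EE_smul EE_sum EE_mono EE_nonneg EE_const
  EE_total EE_marginal)

namespace P3

theorem a1 (u Φ E w : ℝ) (h : u * E ≤ w) (hΦ : 0 ≤ Φ) : (u * Φ) * E ≤ w * Φ := by
  have := mul_le_mul_of_nonneg_right h hΦ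
  linarith

theorem a2 (c u Φ E w C : ℝ) (h : c * w ≤ u * E) (hΦ : 0 ≤ Φ) :
    c * (w * Φ - C * (w * 0)) ≤ (u * Φ) * E := by
  have := mul_le_mul_of_nonneg_right h hΦ
  linarith

theorem a3 (c w Φ C z : ℝ) (hc : 0 ≤ c) (hz : 0 ≤ z) (hw : 0 ≤ w) (hΦ : Φ ≤ C) :
    c * (w * Φ - C * (w * 1)) ≤ z := by
  have h1 : 0 ≤ c * (w * (C - Φ)) := mul_nonneg hc (mul_nonneg hw (sub_nonneg.2 hΦ))
  linarith

theorem a4 (x y s : ℝ) (h : y ≤ x) (hs : 0 ≤ s) : (1 - x + y) * s ≤ s := by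
  have := mul_nonneg (sub_nonneg.2 h) hs
  linarith

theorem a5 (a M r S : ℝ) (ha : a ≤ M) (hM : 0 ≤ M) (hr : 0 ≤ r) (hS : 1 ≤ S) :
    a ≤ r + M * S := by
  have := mul_le_mul_of_nonneg_left hS hM
  linarith

theorem a6 (n b : ℝ) (hn : 1000 ≤ n) (hb : n ^ 3 ≤ b) : 1000000 * n ≤ b := by
  have h1 : 1000 * 1000 ≤ n * n := mul_le_mul hn hn (by norm_num) (by linarith)
  have h2 : 1000 * 1000 * n ≤ n * n * n := mul_le_mul_of_nonneg_right h1 (by linarith)
  linarith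

theorem a7 (n b i δ : ℝ) (hn : 1000 ≤ n) (hbn : 1000000 * n ≤ b) (hi : 0 < i)
    (hδ : δ ≤ 3 * i) : n * δ ≤ b ^ 2 * i := by
  have h1 : n * δ ≤ n * (3 * i) := mul_le_mul_of_nonneg_left hδ (by linarith)
  have h2 : 3 * n ≤ b ^ 2 := by nlinarith
  have h3 := mul_le_mul_of_nonneg_right h2 hi.le
  linarith

theorem a8 (b i j : ℝ) (hb : 2 ≤ b) (hi : 0 ≤ i) (h : b * i = j) : 2 * i ≤ j := by
  rw [← h]
  exact mul_le_mul_of_nonneg_right hb hi

theorem a9 (P c d z : ℝ) (h : P - (1 - c) * z ≤ d * z) (hz : 0 ≤ z) (hd : d ≤ c) : P ≤ z := by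
  have := mul_nonneg (sub_nonneg.2 hd) hz
  linarith

theorem a10 (n b : ℝ) (hn : 1000 ≤ n) (hb : n ^ 3 ≤ b) : n ^ 2 + 1 ≤ b := by
  have h2 : 1000 * (n * n) ≤ n * (n * n) := mul_le_mul_of_nonneg_right hn (by positivity)
  have h3 : 1 ≤ n * n := by nlinarith
  nlinarith

theorem a11 (T A B C x z e g h : ℝ) (hAC : B ≤ A + C) (hBge : (1 - e) * (T - C * x) ≤ B)
    (hz : C * (x + 1) ≤ C * g) (hT : e * T ≤ h) (hX : 0 ≤ C * x) (he : 0 ≤ e) (hz' : z = h + C * g) :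
    -z ≤ A - T := by
  have := mul_nonneg he hX
  rw [hz']
  linarith

theorem a12 (n b : ℝ) (hn : 1000 ≤ n) (hbn : 1000000 * n ≤ b) : (n + 1) * n ≤ b * b :=
  mul_le_mul (by linarith) (by linarith) (by linarith) (by linarith)

theorem ind_nonneg (p : Prop) : 0 ≤ ind p := by
  unfold ind
  split_ifs <;> norm_num

theorem ind_le_one (p : Prop) : ind p ≤ 1 := by
  unfold ind
  split_ifs <;> norm_num

section

variable {X Ob Dl : Type} [Fintype X] [Fintype Ob] [Fintype Dl] [DecidableEq X] [DecidableEq Ob]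
  [DecidableEq Dl] {n : ℕ}

theorem nu_nonneg (s : ℕ) (φ : X → Option Dl) (d : Dl) (x : X) : 0 ≤ nu s φ d x :=
  div_nonneg (ind_nonneg _) (Nat.cast_nonneg _)

theorem nuc_nonneg (s : ℕ) (φ : X → Option Dl) (d : Dl) (x : X) : 0 ≤ nuc s φ d x :=
  div_nonneg (ind_nonneg _) (le_trans (Nat.cast_nonneg s) (le_max_left _ _))

theorem nuc_le_nu {s : ℕ} (hs : 1 ≤ s) (φ : X → Option Dl) (d : Dl) (x : X) :
    nuc s φ d x ≤ nu s φ d x := by
  unfold nuc nu
  have h1 : (0 : ℝ) < s := by exact_mod_cast hs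
  exact div_le_div_of_nonneg_left (ind_nonneg _) h1 (le_max_left _ _)

theorem nuc_eq_nu {s : ℕ} {φ : X → Option Dl} (h : ∀ d, (cn φ d : ℝ) ≤ s) :
    nuc s φ = nu s φ := by
  funext d x
  unfold nuc nu
  rw [max_eq_left (h d)]

theorem pw_nonneg {D : Ob → Fin n → Dl} {q : Dl → X → ℝ} (hq : ∀ d x, 0 ≤ q d x) (o : Ob)
    (S : Fin n → X) : 0 ≤ pw D q o S :=
  prod_nonneg fun _ _ => hq _ _

theorem tot_mono {D : Ob → Fin n → Dl} {q q' : Dl → X → ℝ} (hq : ∀ d x, 0 ≤ q d x)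
    (h : ∀ d x, q d x ≤ q' d x) {Φ : Ob → (Fin n → X) → ℝ} (hΦ : ∀ o S, 0 ≤ Φ o S) :
    tot D q Φ ≤ tot D q' Φ := by
  unfold tot
  refine sum_le_sum fun o _ => sum_le_sum fun S _ => mul_le_mul_of_nonneg_right ?_ (hΦ o S)
  exact prod_le_prod (fun i _ => hq _ _) fun i _ => h _ _

theorem tot_nonneg {D : Ob → Fin n → Dl} {q : Dl → X → ℝ} (hq : ∀ d x, 0 ≤ q d x)
    {Φ : Ob → (Fin n → X) → ℝ} (hΦ : ∀ o S, 0 ≤ Φ o S) : 0 ≤ tot D q Φ :=
  sum_nonneg fun o _ => sum_nonneg fun S _ => mul_nonneg (pw_nonneg hq o S) (hΦ o S)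

theorem sum_pw (D : Ob → Fin n → Dl) (q : Dl → X → ℝ) (o : Ob) :
    ∑ S, pw D q o S = ∏ i, ∑ x, q (D o i) x := by
  unfold pw
  rw [← Fintype.prod_sum (fun i x => q (D o i) x)]

/-- The trivial bound for the total. -/
theorem tot_nu_le {D : Ob → Fin n → Dl} {s : ℕ} (hs : 1 ≤ s) (φ : X → Option Dl)
    {Φ : Ob → (Fin n → X) → ℝ} {C : ℝ} (hC : 0 ≤ C)
    (hΦC : ∀ o S, Φ o S ≤ C) :
    tot D (nu s φ) Φ ≤ Fintype.card Ob * C * (Fintype.card X : ℝ) ^ n := by
  have hs' : (1 : ℝ) ≤ s := by exact_mod_cast hs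
  have h1 : ∀ o, ∑ S, pw D (nu s φ) o S * Φ o S ≤ C * (Fintype.card X : ℝ) ^ n := by
    intro o
    calc ∑ S, pw D (nu s φ) o S * Φ o S ≤ ∑ S, pw D (nu s φ) o S * C :=
          sum_le_sum fun S _ =>
            mul_le_mul_of_nonneg_left (hΦC o S) (pw_nonneg (nu_nonneg s φ) o S)
      _ = C * ∏ i, ∑ x, nu s φ (D o i) x := by rw [← sum_mul, sum_pw, mul_comm]
      _ ≤ C * ∏ _i : Fin n, (Fintype.card X : ℝ) := by
          refine mul_le_mul_of_nonneg_left (prod_le_prod (fun i _ =>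
            sum_nonneg fun x _ => nu_nonneg s φ _ x) fun i _ => ?_) hC
          calc ∑ x, nu s φ (D o i) x ≤ ∑ _x : X, (1 : ℝ) := by
                refine sum_le_sum fun x _ => ?_
                unfold nu
                rw [div_le_one (by linarith)]
                exact le_trans (ind_le_one _) hs'
            _ = Fintype.card X := by simp
      _ = _ := by simp
  calc tot D (nu s φ) Φ ≤ ∑ _o : Ob, C * (Fintype.card X : ℝ) ^ n := sum_le_sum fun o _ => h1 o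
    _ = _ := by
      rw [sum_const, card_univ, nsmul_eq_mul]
      ring

/-- Expectation of the total. -/
theorem EE_tot (P : X → Option Dl → ℝ) (D : Ob → Fin n → Dl) (s : ℕ)
    (Φ : Ob → (Fin n → X) → ℝ) :
    EE P (fun φ => tot D (nu s φ) Φ) = ∑ o, ∑ S, ((1 / (s : ℝ)) ^ n * Φ o S) *
      EE P (fun φ => ∏ i, ind (φ (S i) = some (D o i))) := by
  unfold tot
  rw [EE_sum]
  refine sum_congr rfl fun o _ => ?_
  rw [EE_sum]
  refine sum_congr rfl fun S _ => ?_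
  rw [← EE_smul]
  congr 1
  funext φ
  unfold pw nu
  rw [prod_div_distrib, prod_const, card_univ, Fintype.card_fin]
  rw [one_div, inv_pow]
  ring

theorem pair_le (q : Fin n → X → ℝ) (hq : ∀ k x, 0 ≤ q k x) (hq1 : ∀ k, ∑ x, q k x = 1)
    (c : ℝ) (hc : ∀ k x, q k x ≤ c) (i j : Fin n) (hij : i ≠ j) :
    EE q (fun S => ind (S i = S j)) ≤ c := by
  have hinj : Function.Injective (![i, j] : Fin 2 → Fin n) := by
    intro a b hab
    fin_cases a <;> fin_cases b <;> simp_all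
  have h := EE_marginal hq1 (![i, j] : Fin 2 → Fin n) hinj (fun v => ind (v 0 = v 1))
  simp only [Matrix.cons_val_zero, Matrix.cons_val_one, Fin.prod_univ_two] at h
  rw [h]
  have h2 : ∑ v : Fin 2 → X, q i (v 0) * q j (v 1) * ind (v 0 = v 1) =
      ∑ p : X × X, q i p.1 * q j p.2 * ind (p.1 = p.2) :=
    Fintype.sum_equiv (finTwoArrowEquiv X) _ _ fun v => rfl
  rw [h2, Fintype.sum_prod_type]
  have h3 : ∀ x, ∑ y, q i x * q j y * ind (x = y) = q i x * q j x := by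
    intro x
    rw [sum_eq_single x]
    · simp [ind]
    · intro y _ hy
      rw [ind, if_neg (Ne.symm hy), mul_zero]
    · intro h
      exact absurd (mem_univ _) h
  calc ∑ x, ∑ y, q i x * q j y * ind (x = y) = ∑ x, q i x * q j x :=
        sum_congr rfl fun x _ => h3 x
    _ ≤ ∑ x, q i x * c := sum_le_sum fun x _ => mul_le_mul_of_nonneg_left (hc j x) (hq i x)
    _ = c := by rw [← sum_mul, hq1, one_mul]

/-- Tuples which are not injective have small weight. -/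
theorem ninj_le (q : Fin n → X → ℝ) (hq : ∀ k x, 0 ≤ q k x) (hq1 : ∀ k, ∑ x, q k x = 1)
    (c : ℝ) (hc0 : 0 ≤ c) (hc : ∀ k x, q k x ≤ c) :
    EE q (fun S => ind (¬ Function.Injective S)) ≤ (n : ℝ) ^ 2 * c := by
  have h1 : EE q (fun S => ind (¬ Function.Injective S)) ≤
      EE q (fun S => ∑ i, ∑ j, if i = j then 0 else ind (S i = S j)) := by
    refine EE_mono hq fun S _ => ?_
    have h0 : ∀ i j : Fin n, (0 : ℝ) ≤ if i = j then 0 else ind (S i = S j) := by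
      intro i j
      split_ifs
      · exact le_rfl
      · exact ind_nonneg _
    by_cases hS : Function.Injective S
    · rw [ind, if_neg (not_not.2 hS)]
      exact sum_nonneg fun i _ => sum_nonneg fun j _ => h0 i j
    · rw [ind, if_pos hS]
      rw [Function.Injective] at hS
      push Not at hS
      obtain ⟨i, j, hij, hne⟩ := hS
      calc (1 : ℝ) = if i = j then 0 else ind (S i = S j) := by
            rw [if_neg hne, ind, if_pos hij]
        _ ≤ ∑ j, if i = j then 0 else ind (S i = S j) :=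
            single_le_sum (f := fun j => if i = j then 0 else ind (S i = S j))
              (fun j _ => h0 i j) (mem_univ j)
        _ ≤ _ := single_le_sum (f := fun i => ∑ j, if i = j then 0 else ind (S i = S j))
              (fun i _ => sum_nonneg fun j _ => h0 i j) (mem_univ i)
  refine h1.trans ?_
  rw [EE_sum]
  have h2 : ∀ i j : Fin n, EE q (fun S => if i = j then 0 else ind (S i = S j)) ≤ c := by
    intro i j
    by_cases hij : i = j
    · simp only [if_pos hij]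
      rw [EE_const hq1]
      exact hc0
    · simp only [if_neg hij]
      exact pair_le q hq hq1 c hc i j hij
  calc ∑ i, EE q (fun S => ∑ j, if i = j then 0 else ind (S i = S j))
      = ∑ i : Fin n, ∑ j : Fin n, EE q (fun S => if i = j then 0 else ind (S i = S j)) :=
        sum_congr rfl fun i _ => by rw [EE_sum]
    _ ≤ ∑ _i : Fin n, ∑ _j : Fin n, c := sum_le_sum fun i _ => sum_le_sum fun j _ => h2 i j
    _ = _ := by
      simp only [sum_const, card_univ, Fintype.card_fin, nsmul_eq_mul]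
      ring

end

end P3

open P3 in
theorem p3 (hPI : ProdIndStatement) (h2 : P2Statement) : P3Statement := by
  intro X Ob Dl _ _ _ _ _ _ n N s b Q D Φ C hNum hX hOb hDl hQ0 hQ1 hU hQb hD hΦ0 hΦC
  obtain ⟨hP0, hP1, hPX, hov⟩ := h2 X Dl n N s b Q hNum hX hDl hQ0 hQ1 hU
  obtain ⟨hn, hnb, hNb, hbN, hNn, hexp, hsb, hbs, hsN⟩ := hNum
  -- numerics
  have hn1 : (1000 : ℝ) ≤ n := by exact_mod_cast hn
  have hb1 : (n : ℝ) ^ 3 ≤ b := le_trans (pow_le_pow_right₀ (by linarith) (by norm_num)) hnb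
  have hbn : 1000000 * (n : ℝ) ≤ b := a6 n b hn1 hb1
  have hb : (1 : ℝ) ≤ b := by linarith
  have hb0 : 0 < b := by linarith
  have hN1 : (1 : ℝ) ≤ N := le_trans (one_le_pow₀ hb) hNb
  have hs1' : (1 : ℝ) ≤ s := le_trans (one_le_pow₀ hb) hsb
  have hs1 : 1 ≤ s := by exact_mod_cast hs1'
  have hN0 : 0 < N := by
    have : (0 : ℝ) < N := by linarith
    exact_mod_cast this
  have : Nonempty Ob := Fintype.card_pos_iff.1 (by rw [hOb]; exact hN0)
  have : Nonempty X := Fintype.card_pos_iff.1 (by rw [hX]; exact hN0)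
  have hC : 0 ≤ C := by
    obtain ⟨o⟩ := ‹Nonempty Ob›
    obtain ⟨x⟩ := ‹Nonempty X›
    exact (hΦ0 o fun _ => x).trans (hΦC o fun _ => x)
  have hT0 : 0 ≤ tot D Q Φ := tot_nonneg hQ0 hΦ0
  -- the constants
  obtain ⟨δ, hδ⟩ : ∃ δ : ℝ, δ = 1 / b ^ 30 + 2 / b ^ 60 := ⟨_, rfl⟩
  have hp : ∀ k : ℕ, 0 < b ^ k := fun k => pow_pos hb0 k
  have h60 : 1 / b ^ 60 ≤ 1 / b ^ 31 :=
    one_div_le_one_div_of_le (hp 31) (pow_le_pow_right₀ hb (by norm_num))
  have h31 : b * (1 / b ^ 31) = 1 / b ^ 30 := by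
    field_simp
  have hi60 : 0 < 1 / b ^ 60 := one_div_pos.2 (hp 60)
  have hi31 : 0 < 1 / b ^ 31 := one_div_pos.2 (hp 31)
  have hi30 : 0 < 1 / b ^ 30 := one_div_pos.2 (hp 30)
  have h2' : 2 / b ^ 60 = 2 * (1 / b ^ 60) := by ring
  have hδ0 : 0 ≤ δ := by rw [hδ, h2']; linarith
  have hd60 : 2 / b ^ 60 ≤ 1 / b ^ 30 := by
    rw [h2']
    exact le_trans (by linarith) (a8 b _ _ (by linarith) hi31.le h31)
  have hnδ : n * δ ≤ 1 / b ^ 28 := by
    have e1 : 1 / b ^ 28 = b ^ 2 * (1 / b ^ 30) := by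
      field_simp
    have e2 : δ ≤ 3 * (1 / b ^ 30) := by
      rw [hδ]
      linarith
    rw [e1]
    exact a7 n b _ δ hn1 hbn hi30 e2
  have hnδ1 : n * δ ≤ 1 := le_trans hnδ (by
    rw [div_le_one (hp 28)]
    exact one_le_pow₀ hb)
  have hδ1 : δ ≤ 1 := le_trans (le_mul_of_one_le_left hδ0 (by linarith)) hnδ1
  -- the law
  have hsQ : ∀ x d, 0 ≤ (s : ℝ) * Q d x := fun x d => mul_nonneg (by linarith) (hQ0 d x)
  have hPle : ∀ x d, PX Q s b x (some d) ≤ (s : ℝ) * Q d x := by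
    intro x d
    exact a9 _ _ _ _ (abs_le.1 (hPX x d)).2 (hsQ x d) hd60
  have hPge : ∀ x d, (1 - δ) * ((s : ℝ) * Q d x) ≤ PX Q s b x (some d) := by
    intro x d
    have h := (abs_le.1 (hPX x d)).1
    rw [hδ]
    linarith
  obtain ⟨E, hE⟩ : ∃ E : Ob → (Fin n → X) → ℝ, E = fun o S =>
      EE (PX Q s b) (fun φ => ∏ i, ind (φ (S i) = some (D o i))) := ⟨_, rfl⟩
  have hE0 : ∀ o S, 0 ≤ E o S := by
    intro o S
    rw [hE]
    exact EE_nonneg hP0 fun φ => prod_nonneg fun i _ => ind_nonneg _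
  have hsn : (1 / (s : ℝ)) ^ n * (s : ℝ) ^ n = 1 := by
    rw [← mul_pow, one_div, inv_mul_cancel₀ (by linarith), one_pow]
  have hsn0 : 0 ≤ (1 / (s : ℝ)) ^ n := by positivity
  have hprod : ∀ o S, ∏ i, ((s : ℝ) * Q (D o i) (S i)) = (s : ℝ) ^ n * pw D Q o S := by
    intro o S
    rw [prod_mul_distrib, prod_const, card_univ, Fintype.card_fin]
    rfl
  have hEle : ∀ o S, (1 / (s : ℝ)) ^ n * E o S ≤ pw D Q o S := by
    intro o S
    have h := (hPI X Dl (PX Q s b) n (D o) S univ hP0 hP1 (hD o)).1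
    have h3 : ∏ i, PX Q s b (S i) (some (D o i)) ≤ ∏ i, ((s : ℝ) * Q (D o i) (S i)) :=
      prod_le_prod (fun i _ => hP0 _ _) fun i _ => hPle _ _
    rw [hprod] at h3
    have h4 : E o S ≤ (s : ℝ) ^ n * pw D Q o S := by
      rw [hE]
      exact h.trans h3
    calc (1 / (s : ℝ)) ^ n * E o S ≤ (1 / (s : ℝ)) ^ n * ((s : ℝ) ^ n * pw D Q o S) :=
          mul_le_mul_of_nonneg_left h4 hsn0
      _ = pw D Q o S := by rw [← mul_assoc, hsn, one_mul]
  have hEge : ∀ o S, Function.Injective S →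
      (1 - n * δ) * pw D Q o S ≤ (1 / (s : ℝ)) ^ n * E o S := by
    intro o S hS
    have h := (hPI X Dl (PX Q s b) n (D o) S univ hP0 hP1 (hD o)).2 hS
    have h3 : ∏ i, ((1 - δ) * ((s : ℝ) * Q (D o i) (S i))) ≤
        ∏ i, PX Q s b (S i) (some (D o i)) :=
      prod_le_prod (fun i _ => mul_nonneg (by linarith) (hsQ _ _)) fun i _ => hPge _ _
    rw [prod_mul_distrib, hprod, prod_const, card_univ, Fintype.card_fin, ← h] at h3
    have h4 : 1 - n * δ ≤ (1 - δ) ^ n := by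
      have := one_add_mul_le_pow (a := -δ) (by linarith) n
      rw [← sub_eq_add_neg] at this
      linarith
    calc (1 - n * δ) * pw D Q o S ≤ (1 - δ) ^ n * pw D Q o S :=
          mul_le_mul_of_nonneg_right h4 (pw_nonneg hQ0 o S)
      _ = (1 / (s : ℝ)) ^ n * ((1 - δ) ^ n * ((s : ℝ) ^ n * pw D Q o S)) := by
          linear_combination (-(1 - δ) ^ n * pw D Q o S) * hsn
      _ ≤ _ := by
          rw [hE]
          exact mul_le_mul_of_nonneg_left h3 hsn0
  -- the two means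
  obtain ⟨A, hA⟩ : ∃ A : ℝ, A = EE (PX Q s b) (fun φ => tot D (nuc s φ) Φ) := ⟨_, rfl⟩
  obtain ⟨B, hB⟩ : ∃ B : ℝ, B = EE (PX Q s b) (fun φ => tot D (nu s φ) Φ) := ⟨_, rfl⟩
  rw [← hA]
  have hAB : A ≤ B := by
    rw [hA, hB]
    exact EE_mono hP0 fun φ _ => tot_mono (nuc_nonneg s φ) (nuc_le_nu hs1 φ) hΦ0
  have hB' : B = ∑ o, ∑ S, ((1 / (s : ℝ)) ^ n * Φ o S) * E o S := by
    rw [hB, EE_tot, hE]
  have hBT : B ≤ tot D Q Φ := by
    rw [hB']
    unfold tot
    refine sum_le_sum fun o _ => sum_le_sum fun S _ => ?_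
    exact a1 _ _ _ _ (hEle o S) (hΦ0 o S)
  have hNC : ∑ o, EE (fun k => Q (D o k)) (fun S => ind (¬ Function.Injective S)) ≤
      (n : ℝ) ^ 2 * b ^ 8 := by
    have h3 : ∀ o, EE (fun k => Q (D o k)) (fun S => ind (¬ Function.Injective S)) ≤
        (n : ℝ) ^ 2 * (b ^ 8 / N) := by
      intro o
      refine ninj_le (fun k => Q (D o k)) (fun k x => hQ0 _ _) (fun k => hQ1 _) (b ^ 8 / N)
        (by positivity) fun k x => ?_
      rw [le_div_iff₀ (by linarith)]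
      exact hQb _ _
    calc ∑ o, EE (fun k => Q (D o k)) (fun S => ind (¬ Function.Injective S)) ≤
          ∑ _o : Ob, (n : ℝ) ^ 2 * (b ^ 8 / N) := sum_le_sum fun o _ => h3 o
      _ = (n : ℝ) ^ 2 * b ^ 8 := by
        rw [sum_const, card_univ, nsmul_eq_mul, hOb]
        field_simp
  have hBge : (1 - n * δ) * (tot D Q Φ - C * ((n : ℝ) ^ 2 * b ^ 8)) ≤ B := by
    have h3 : (1 - n * δ) * (tot D Q Φ - C * ∑ o, EE (fun k => Q (D o k))
        (fun S => ind (¬ Function.Injective S))) ≤ B := by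
      have h4 : (1 - n * δ) * (tot D Q Φ - C * ∑ o, EE (fun k => Q (D o k))
          (fun S => ind (¬ Function.Injective S))) = ∑ o, ∑ S, (1 - n * δ) *
          (pw D Q o S * Φ o S - C * (pw D Q o S * ind (¬ Function.Injective S))) := by
        unfold tot EE
        simp only [mul_sum, ← sum_sub_distrib, pw]
      rw [h4, hB']
      refine sum_le_sum fun o _ => sum_le_sum fun S _ => ?_
      by_cases hS : Function.Injective S
      · have h5 : ind (¬ Function.Injective S) = 0 := if_neg (not_not.2 hS)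
        rw [h5]
        exact a2 _ _ _ _ _ _ (hEge o S hS) (hΦ0 o S)
      · have h5 : ind (¬ Function.Injective S) = 1 := if_pos hS
        rw [h5]
        have h6 : 0 ≤ ((1 / (s : ℝ)) ^ n * Φ o S) * E o S :=
          mul_nonneg (mul_nonneg hsn0 (hΦ0 o S)) (hE0 o S)
        exact a3 _ _ _ _ _ (sub_nonneg.2 hnδ1) h6 (pw_nonneg hQ0 o S) (hΦC o S)
    refine le_trans (mul_le_mul_of_nonneg_left ?_ (by linarith)) h3
    have := mul_le_mul_of_nonneg_left hNC hC
    linarith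
  -- overflow
  have hpt : ∀ φ : X → Option Dl, tot D (nu s φ) Φ ≤ tot D (nuc s φ) Φ +
      (N * C * (N : ℝ) ^ n) * ∑ d, ind ((1 - 1 / b ^ 30 + 1 / b ^ 50) * s < (cn φ d : ℝ)) := by
    intro φ
    have hM : 0 ≤ (N * C * (N : ℝ) ^ n) := by positivity
    by_cases h : ∀ d, (cn φ d : ℝ) ≤ s
    · rw [nuc_eq_nu h]
      have : 0 ≤ ∑ d, ind ((1 - 1 / b ^ 30 + 1 / b ^ 50) * s < (cn φ d : ℝ)) :=
        sum_nonneg fun d _ => ind_nonneg _
      exact le_add_of_nonneg_right (mul_nonneg hM this)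
    · push Not at h
      obtain ⟨d, hd⟩ := h
      have h3 := tot_nu_le (D := D) hs1 φ hC hΦC
      rw [hX, hOb] at h3
      have h4 : 0 ≤ tot D (nuc s φ) Φ := tot_nonneg (nuc_nonneg s φ) hΦ0
      have h50 : 1 / b ^ 50 ≤ 1 / b ^ 30 :=
        one_div_le_one_div_of_le (hp 30) (pow_le_pow_right₀ hb (by norm_num))
      have h5 : (1 - 1 / b ^ 30 + 1 / b ^ 50) * s < (cn φ d : ℝ) := by
        exact lt_of_le_of_lt (a4 _ _ _ h50 (by linarith)) hd
      have h6 : 1 ≤ ∑ d, ind ((1 - 1 / b ^ 30 + 1 / b ^ 50) * s < (cn φ d : ℝ)) := by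
        refine le_trans (le_of_eq ?_) (single_le_sum
          (f := fun d => ind ((1 - 1 / b ^ 30 + 1 / b ^ 50) * s < (cn φ d : ℝ)))
          (fun d _ => ind_nonneg _) (mem_univ d))
        exact (if_pos h5).symm
      exact a5 _ _ _ _ h3 hM h4 h6
  have hBA : B ≤ A + C := by
    have h3 : B ≤ A + (N * C * (N : ℝ) ^ n) *
        ∑ d, EE (PX Q s b) (fun φ => ind ((1 - 1 / b ^ 30 + 1 / b ^ 50) * s < (cn φ d : ℝ))) := by
      rw [hA, hB, ← EE_sum, ← EE_smul, ← EE_add]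
      exact EE_mono hP0 fun φ _ => hpt φ
    have h4 : ∑ d, EE (PX Q s b)
        (fun φ => ind ((1 - 1 / b ^ 30 + 1 / b ^ 50) * s < (cn φ d : ℝ))) ≤
        Real.exp (-b ^ 100) := by
      refine le_trans ?_ hov
      have : 0 ≤ ∑ d, EE (PX Q s b)
          (fun φ => ind ((cn φ d : ℝ) < (1 - 1 / b ^ 30 - 1 / b ^ 50) * s)) :=
        sum_nonneg fun d _ => EE_nonneg hP0 fun φ => ind_nonneg _
      linarith
    have h5 : (N : ℝ) * (N : ℝ) ^ n ≤ Real.exp (b ^ 100) := by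
      rw [← pow_succ']
      calc (N : ℝ) ^ (n + 1) ≤ Real.exp n ^ (n + 1) :=
            pow_le_pow_left₀ (by linarith) hNn _
        _ = Real.exp ((n + 1 : ℕ) * n) := (Real.exp_nat_mul _ _).symm
        _ ≤ Real.exp (b ^ 100) := by
          refine Real.exp_le_exp.2 ?_
          push_cast
          calc ((n : ℝ) + 1) * n ≤ b * b := a12 n b hn1 hbn
            _ = b ^ 2 := by ring
            _ ≤ b ^ 100 := pow_le_pow_right₀ hb (by norm_num)
    have h6 : (N * C * (N : ℝ) ^ n) * Real.exp (-b ^ 100) ≤ C := by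
      have h7 : Real.exp (b ^ 100) * Real.exp (-b ^ 100) = 1 := by
        rw [← Real.exp_add, add_neg_cancel, Real.exp_zero]
      calc (N * C * (N : ℝ) ^ n) * Real.exp (-b ^ 100) =
            C * ((N : ℝ) * (N : ℝ) ^ n * Real.exp (-b ^ 100)) := by ring
        _ ≤ C * (Real.exp (b ^ 100) * Real.exp (-b ^ 100)) :=
            mul_le_mul_of_nonneg_left (mul_le_mul_of_nonneg_right h5 (Real.exp_pos _).le) hC
        _ = C := by rw [h7, mul_one]
    have h8 : 0 ≤ (N * C * (N : ℝ) ^ n) := by positivity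
    have h9 := mul_le_mul_of_nonneg_left h4 h8
    linarith
  have hfin : (n : ℝ) ^ 2 * b ^ 8 + 1 ≤ b ^ 20 := by
    have h1 : (n : ℝ) ^ 2 + 1 ≤ b := a10 n b hn1 hb1
    have h2 : 1 ≤ b ^ 8 := one_le_pow₀ hb
    calc (n : ℝ) ^ 2 * b ^ 8 + 1 ≤ (n : ℝ) ^ 2 * b ^ 8 + b ^ 8 := by linarith
      _ = ((n : ℝ) ^ 2 + 1) * b ^ 8 := by ring
      _ ≤ b * b ^ 8 := mul_le_mul_of_nonneg_right h1 (by linarith)
      _ = b ^ 9 := by ring
      _ ≤ b ^ 20 := pow_le_pow_right₀ hb (by norm_num)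
  have hfin2 := mul_le_mul_of_nonneg_left hfin hC
  have hT28 : n * δ * tot D Q Φ ≤ tot D Q Φ / b ^ 28 := by
    have := mul_le_mul_of_nonneg_right hnδ hT0
    calc n * δ * tot D Q Φ ≤ 1 / b ^ 28 * tot D Q Φ := this
      _ = _ := by ring
  have hX0 : 0 ≤ C * ((n : ℝ) ^ 2 * b ^ 8) := by positivity
  have hnδ0 : 0 ≤ n * δ := mul_nonneg (by linarith) hδ0
  rw [abs_le]
  constructor
  · exact a11 _ _ _ _ _ _ _ _ _ hBA hBge hfin2 hT28 hX0 hnδ0 rfl
  · have h1 : 0 ≤ tot D Q Φ / b ^ 28 := div_nonneg hT0 (hp 28).le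
    have h2 : 0 ≤ C * b ^ 20 := mul_nonneg hC (hp 20).le
    linarith

end Pool.Agent.FQ
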