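import Pool.Agent.FQ.PDefs

/-!
# Project FQ, row P4: the mean of the bad sum
-/

set_option autoImplicit false

namespace Pool.Agent.FQ

open Finset Classical
open Pool.Agent.H73.Cube (EE EE_sum EE_smul)

theorem p4_ind0 (p : Prop) : 0 ≤ ind p := by
  unfold ind
  split_ifs
  · exact zero_le_one
  · exact le_rfl

theorem p4_b {n N s : ℕ} {b : ℝ} (h : Num n N s b) : 1000 ≤ b := by
  have h1 : (1000 : ℝ) ≤ n := by exact_mod_cast h.hn
  have h2 : (n : ℝ) ≤ (n : ℝ) ^ 400 := le_self_pow₀ (by linarith) (by norm_num)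
  linarith [h.hnb]

theorem p4_s {n N s : ℕ} {b : ℝ} (h : Num n N s b) : (0 : ℝ) < s := by
  have h1 := p4_b h
  exact (pow_pos (by linarith) 300).trans_le h.hsb

theorem p4_term {X Dl : Type} [Fintype X] [Fintype Dl] [DecidableEq X] [DecidableEq Dl] {n : ℕ}
    (hPI : ProdIndStatement) (Q : Dl → X → ℝ) (s : ℕ) (b : ℝ) (hs : (0 : ℝ) < s)
    (h0 : ∀ x a, 0 ≤ PX Q s b x a) (h1 : ∀ x, ∑ a, PX Q s b x a = 1)
    (h3 : ∀ x d, PX Q s b x (some d) ≤ (s : ℝ) * Q d x) (D : Fin n → Dl)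
    (hD : Function.Injective D) (S : Fin n → X) (T : Finset (Fin n)) :
    EE (PX Q s b) (fun φ => ∏ i ∈ T, nu s φ (D i) (S i)) ≤ ∏ i ∈ T, Q (D i) (S i) := by
  have e : (fun φ : X → Option Dl => ∏ i ∈ T, nu s φ (D i) (S i)) =
      fun φ => (∏ _i ∈ T, (s : ℝ))⁻¹ * ∏ i ∈ T, ind (φ (S i) = some (D i)) := by
    funext φ
    unfold nu
    rw [Finset.prod_div_distrib, div_eq_inv_mul]
  rw [e, EE_smul]
  refine (mul_le_mul_of_nonneg_left (hPI X Dl (PX Q s b) n D S T h0 h1 hD).1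
    (inv_nonneg.2 (Finset.prod_nonneg fun _ _ => hs.le))).trans ?_
  rw [← div_eq_inv_mul, ← Finset.prod_div_distrib]
  refine Finset.prod_le_prod (fun i _ => div_nonneg (h0 _ _) hs.le) fun i _ => ?_
  rw [div_le_iff₀ hs, mul_comm]
  exact h3 _ _

theorem p4 (hPI : ProdIndStatement) (h2 : P2Statement) : P4Statement := by
  intro X Y Ob Dl R _ _ _ _ _ _ _ _ _ _ n N s b P hN hP
  obtain ⟨h0, h1, h3, -⟩ := h2 X Dl n N s b P.Q hN hP.cX hP.cD hP.Q0 hP.Q1 hP.U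
  have hb := p4_b hN
  have hs := p4_s hN
  have hb30 : 2 ≤ b ^ 30 := by
    have : b ≤ b ^ 30 := le_self_pow₀ (by linarith) (by norm_num)
    linarith
  have hb0 : 0 < b ^ 30 := by linarith
  have h4 : ∀ x d, PX P.Q s b x (some d) ≤ (s : ℝ) * P.Q d x := by
    intro x d
    have h5 := (abs_le.1 (h3 x d)).2
    have h6 : 0 ≤ (s : ℝ) * P.Q d x := mul_nonneg hs.le (hP.Q0 d x)
    have h7 : 2 / b ^ 60 ≤ 1 / b ^ 30 := by
      rw [div_le_div_iff₀ (pow_pos (by linarith) 60) hb0, one_mul,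
        show b ^ 60 = b ^ 30 * b ^ 30 by ring]
      exact mul_le_mul_of_nonneg_right hb30 hb0.le
    nlinarith [mul_le_mul_of_nonneg_right h7 h6]
  refine le_trans ?_ (hP.bad.trans (by norm_num))
  unfold badSum
  rw [EE_sum]
  refine Finset.sum_le_sum fun o _ => ?_
  rw [EE_sum]
  refine Finset.sum_le_sum fun A _ => ?_
  rw [EE_sum]
  refine Finset.sum_le_sum fun S _ => ?_
  rw [EE_smul]
  exact mul_le_mul_of_nonneg_left (p4_term hPI P.Q s b hs h0 h1 h4 (P.D o) (hP.inj o) S Aᶜ)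
    (p4_ind0 _)

end Pool.Agent.FQ
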