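import Pool.Agent.FQ.PDefs
import Pool.Agent.H73.Cube.Cells

/-!
# Project FQ, row P5: good contents exist
-/

set_option autoImplicit false

namespace Pool.Agent.FQ

open Finset Classical
open Pool.Agent.H73.Cube (EE Loc)

theorem p5_ind_nonneg (p : Prop) : 0 ≤ ind p := by
  unfold ind
  split_ifs <;> norm_num

theorem p5_ind_le (p : Prop) : ind p ≤ 1 := by
  unfold ind
  split_ifs <;> norm_num

/-- Numerical facts. -/
theorem p5_num {n N s : ℕ} {b : ℝ} (h : Num n N s b) :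
    1000 ≤ b ∧ (n : ℝ) ≤ b ∧ (n : ℝ) ^ 2 ≤ b ∧ 1 ≤ s := by
  have hn : (1000 : ℝ) ≤ n := by exact_mod_cast h.hn
  have h1 : (1 : ℝ) ≤ n := by linarith
  have h2 : (n : ℝ) ≤ (n : ℝ) ^ 400 := le_self_pow₀ h1 (by norm_num)
  have h3 : (n : ℝ) ^ 2 ≤ (n : ℝ) ^ 400 := pow_le_pow_right₀ h1 (by norm_num)
  have h4 : (1000 : ℝ) ≤ b := by linarith [h.hnb]
  refine ⟨h4, h2.trans h.hnb, h3.trans h.hnb, ?_⟩
  have h5 : (1 : ℝ) ≤ b ^ 300 := one_le_pow₀ (by linarith)
  have h6 : (1 : ℝ) ≤ s := h5.trans h.hsb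
  exact_mod_cast h6

theorem p5_exp {x : ℝ} (hx : 0 < x) : Real.exp (-x) ≤ 1 / x := by
  rw [Real.exp_neg, ← one_div]
  refine one_div_le_one_div_of_le hx ?_
  linarith [Real.add_one_le_exp x]

/-- The three tails. -/
theorem p5_tail1 {n N s : ℕ} {b : ℝ} (h : Num n N s b) :
    b ^ 1000 ≤ (1 / b ^ 50) ^ 2 / (2 * (b ^ 16 / N)) := by
  obtain ⟨h1, -, -, -⟩ := p5_num h
  have hb : 0 < b := by linarith
  have hN : (0 : ℝ) < N := lt_of_lt_of_le (by positivity) h.hNb
  have e : (1 / b ^ 50) ^ 2 / (2 * (b ^ 16 / N)) = N / (2 * b ^ 116) := by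
    field_simp
  rw [e, le_div_iff₀ (by positivity)]
  refine le_trans ?_ h.hNb
  calc b ^ 1000 * (2 * b ^ 116) ≤ b ^ 1000 * (b * b ^ 116) := by
        gcongr
        linarith
    _ = b ^ 1117 := by ring
    _ ≤ b ^ 5000 := pow_le_pow_right₀ (by linarith) (by norm_num)

theorem p5_tail2 {n N s : ℕ} {b : ℝ} (h : Num n N s b) :
    b ^ 1000 ≤ (1 / (2 * b ^ 12)) ^ 2 / (2 * (64 * (n : ℝ) ^ 2 * b ^ 24 / N)) := by
  obtain ⟨h1, -, h2, -⟩ := p5_num h
  have hb : 0 < b := by linarith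
  have hn : (0 : ℝ) < n := by
    have : (1000 : ℝ) ≤ n := by exact_mod_cast h.hn
    linarith
  have hN : (0 : ℝ) < N := lt_of_lt_of_le (by positivity) h.hNb
  have e : (1 / (2 * b ^ 12)) ^ 2 / (2 * (64 * (n : ℝ) ^ 2 * b ^ 24 / N)) =
      N / (512 * (n : ℝ) ^ 2 * b ^ 48) := by
    field_simp
    norm_num
  rw [e, le_div_iff₀ (by positivity)]
  refine le_trans ?_ h.hNb
  calc b ^ 1000 * (512 * (n : ℝ) ^ 2 * b ^ 48) ≤ b ^ 1000 * (b * b * b ^ 48) := by
        gcongr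
        linarith
    _ = b ^ 1050 := by ring
    _ ≤ b ^ 5000 := pow_le_pow_right₀ (by linarith) (by norm_num)

theorem p5_tail3 {n N s : ℕ} {b : ℝ} (h : Num n N s b) :
    b ^ 1000 ≤ ((N : ℝ) / (12 * b)) ^ 2 / (2 * (16 * (n : ℝ) ^ 2 * N)) := by
  obtain ⟨h1, -, h2, -⟩ := p5_num h
  have hb : 0 < b := by linarith
  have hn : (0 : ℝ) < n := by
    have : (1000 : ℝ) ≤ n := by exact_mod_cast h.hn
    linarith
  have hN : (0 : ℝ) < N := lt_of_lt_of_le (by positivity) h.hNb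
  have e : ((N : ℝ) / (12 * b)) ^ 2 / (2 * (16 * (n : ℝ) ^ 2 * N)) =
      N / (4608 * (n : ℝ) ^ 2 * b ^ 2) := by
    field_simp
    norm_num
  rw [e, le_div_iff₀ (by positivity)]
  refine le_trans ?_ h.hNb
  have h3 : (4608 : ℝ) ≤ b ^ 2 := by nlinarith
  calc b ^ 1000 * (4608 * (n : ℝ) ^ 2 * b ^ 2) ≤ b ^ 1000 * (b ^ 2 * b * b ^ 2) := by
        gcongr
    _ = b ^ 1005 := by ring
    _ ≤ b ^ 5000 := pow_le_pow_right₀ (by linarith) (by norm_num)

theorem p5_small {n N s : ℕ} {b : ℝ} (h : Num n N s b) :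
    6 * (N : ℝ) ^ 2 * Real.exp (-b ^ 1000) + Real.exp (-b ^ 100) < 1 / 2 := by
  obtain ⟨h1, h2, -, -⟩ := p5_num h
  have hb : 0 < b := by linarith
  have e1 : Real.exp (-b ^ 100) ≤ 1 / 1000 := by
    refine (p5_exp (by positivity)).trans ?_
    have : b ≤ b ^ 100 := le_self_pow₀ (by linarith) (by norm_num)
    exact one_div_le_one_div_of_le (by norm_num) (by linarith)
  have e2 : (N : ℝ) ^ 2 * Real.exp (-b ^ 1000) ≤ 1 / 1000 := by
    have h3 : (N : ℝ) ≤ Real.exp b := h.hNn.trans (Real.exp_le_exp.2 h2)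
    have h4 : (N : ℝ) ^ 2 ≤ Real.exp (2 * b) := by
      rw [two_mul, Real.exp_add, sq]
      exact mul_le_mul h3 h3 (Nat.cast_nonneg _) (Real.exp_pos _).le
    have h5 : 2 * b + -b ^ 1000 ≤ -b := by
      have h6 : (3 : ℝ) ≤ b ^ 999 := by
        have : b ≤ b ^ 999 := le_self_pow₀ (by linarith) (by norm_num)
        linarith
      have h7 : b ^ 1000 = b ^ 999 * b := by ring
      have h8 := mul_le_mul_of_nonneg_right h6 hb.le
      rw [h7]
      linarith
    calc (N : ℝ) ^ 2 * Real.exp (-b ^ 1000) ≤ Real.exp (2 * b) * Real.exp (-b ^ 1000) :=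
          mul_le_mul_of_nonneg_right h4 (Real.exp_pos _).le
      _ = Real.exp (2 * b + -b ^ 1000) := (Real.exp_add _ _).symm
      _ ≤ Real.exp (-b) := Real.exp_le_exp.2 h5
      _ ≤ 1 / b := p5_exp hb
      _ ≤ 1 / 1000 := one_div_le_one_div_of_le (by norm_num) h1
  linarith

section

variable {X Y Ob Dl R : Type} [Fintype X] [Fintype Y] [Fintype Ob] [Fintype Dl] [Fintype R]
  [DecidableEq X] [DecidableEq Y] [DecidableEq Ob] [DecidableEq Dl] [DecidableEq R] {n : ℕ}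

/-- The statistics. -/
noncomputable def p5F (P : Pl X Y Ob Dl R n) (s : ℕ) :
    Dl ⊕ (Y ⊕ (Y × Y)) → (X → Option Dl) → ℝ
  | Sum.inl d, φ => ∑ x, ind (φ x = none) * P.Q d x
  | Sum.inr (Sum.inl y), φ => tot P.D (nuc s φ) (fun o S => P.w o S y)
  | Sum.inr (Sum.inr q), φ => tot P.D (nuc s φ) (two P.ok q.1 q.2)

/-- The Lipschitz constants. -/
noncomputable def p5c (P : Pl X Y Ob Dl R n) (N : ℕ) (b : ℝ) :
    Dl ⊕ (Y ⊕ (Y × Y)) → X → ℝ
  | Sum.inl d, x => P.Q d x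
  | Sum.inr (Sum.inl _), _ => 4 * n * (2 * b ^ 12 / N)
  | Sum.inr (Sum.inr _), _ => 4 * n * 1

/-- The deviations. -/
noncomputable def p5t (N : ℕ) (b : ℝ) : Dl ⊕ (Y ⊕ (Y × Y)) → ℝ
  | Sum.inl _ => 1 / b ^ 50
  | Sum.inr (Sum.inl _) => 1 / (2 * b ^ 12)
  | Sum.inr (Sum.inr _) => N / (12 * b)

/-- The variances. -/
noncomputable def p5V (n N : ℕ) (b : ℝ) : Dl ⊕ (Y ⊕ (Y × Y)) → ℝ
  | Sum.inl _ => b ^ 16 / N
  | Sum.inr (Sum.inl _) => 64 * (n : ℝ) ^ 2 * b ^ 24 / N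
  | Sum.inr (Sum.inr _) => 16 * (n : ℝ) ^ 2 * N

/-- The nonnegative statistics. -/
noncomputable def p5G (P : Pl X Y Ob Dl R n) (s : ℕ) (b : ℝ) : Bool → (X → Option Dl) → ℝ
  | true, φ => ∑ d, ind ((1 - 1 / b ^ 30 + 1 / b ^ 50) * s < (cn φ d : ℝ)) +
      ∑ d, ind ((cn φ d : ℝ) < (1 - 1 / b ^ 30 - 1 / b ^ 50) * s)
  | false, φ => badSum P (nu s φ)

theorem p5_left (Q : Dl → X → ℝ) (hQ : ∀ d x, 0 ≤ Q d x) (d : Dl) (φ : X → Option Dl) (x : X)
    (a : Option Dl) :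
    |∑ x', ind (Function.update φ x a x' = none) * Q d x' - ∑ x', ind (φ x' = none) * Q d x'| ≤
      Q d x := by
  rw [← Finset.sum_sub_distrib, Finset.sum_eq_single x]
  · rw [Function.update_self, ← sub_mul, abs_mul, abs_of_nonneg (hQ d x)]
    refine mul_le_of_le_one_left (hQ d x) ?_
    rw [abs_le]
    have h1 := p5_ind_nonneg (a = none)
    have h2 := p5_ind_nonneg (φ x = none)
    have h3 := p5_ind_le (a = none)
    have h4 := p5_ind_le (φ x = none)
    constructor <;> linarith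
  · intro x' _ hx'
    rw [Function.update_of_ne hx', sub_self]
  · intro hx
    exact absurd (Finset.mem_univ x) hx

theorem p5_two_nonneg (ok : X → Y → Prop) (y y' : Y) (o : Ob) (S : Fin n → X) :
    0 ≤ two ok y y' o S := p5_ind_nonneg _

theorem p5_two_le (ok : X → Y → Prop) (y y' : Y) (o : Ob) (S : Fin n → X) :
    two ok y y' o S ≤ 1 := p5_ind_le _

theorem p5_nu_nonneg (s : ℕ) (φ : X → Option Dl) (d : Dl) (x : X) : 0 ≤ nu s φ d x := by
  unfold nu
  exact div_nonneg (p5_ind_nonneg _) (Nat.cast_nonneg _)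

theorem p5_bad_nonneg (P : Pl X Y Ob Dl R n) (s : ℕ) (φ : X → Option Dl) :
    0 ≤ badSum P (nu s φ) := by
  unfold badSum
  refine Finset.sum_nonneg fun o _ => Finset.sum_nonneg fun A _ => Finset.sum_nonneg fun S _ => ?_
  exact mul_nonneg (p5_ind_nonneg _) (Finset.prod_nonneg fun i _ => p5_nu_nonneg _ _ _ _)

end

theorem p5 (h1 : P1Statement) (h2 : P2Statement) (h3 : P3Statement) (h4 : P4Statement) :
    P5Statement := by
  intro X Y Ob Dl R _ _ _ _ _ _ _ _ _ _ n N s b P hNum H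
  obtain ⟨hb1000, hnb, hn2, hs1⟩ := p5_num hNum
  have hb : 0 < b := by linarith
  have hb1 : 1 ≤ b := by linarith
  have hnpos : (0 : ℝ) < n := by
    have : (1000 : ℝ) ≤ n := by exact_mod_cast hNum.hn
    linarith
  have hNpos : (0 : ℝ) < N := lt_of_lt_of_le (by positivity) hNum.hNb
  have hspos : (0 : ℝ) < s := by exact_mod_cast hs1
  obtain ⟨hP0, hP1, _, hOv⟩ := h2 X Dl n N s b P.Q hNum H.cX H.cD H.Q0 H.Q1 H.U
  have hbad := h4 X Y Ob Dl R n N s b P hNum H
  have hwle : ∀ y o S, P.w o S y ≤ 2 * b ^ 12 / N := fun y o S => by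
    rw [le_div_iff₀ hNpos]
    exact H.wle o S y
  -- Lipschitz
  have hF : ∀ m x φ a, |p5F P s m (Function.update φ x a) - p5F P s m φ| ≤ p5c P N b m x := by
    rintro (d | y | q) x φ a
    · exact p5_left P.Q H.Q0 d φ x a
    · exact h1 X Ob Dl n s P.D (fun o S => P.w o S y) (2 * b ^ 12 / N) hs1 (by positivity) H.inj
        H.cnt (fun o S => H.w0 o S y) (hwle y) φ x a
    · exact h1 X Ob Dl n s P.D (two P.ok q.1 q.2) 1 hs1 zero_le_one H.inj
        H.cnt (fun o S => p5_two_nonneg _ _ _ _ _) (fun o S => p5_two_le _ _ _ _ _) φ x a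
  have hc : ∀ m x, 0 ≤ p5c P N b m x := by
    rintro (d | y | q) x
    · exact H.Q0 d x
    · show (0 : ℝ) ≤ 4 * n * (2 * b ^ 12 / N)
      positivity
    · show (0 : ℝ) ≤ 4 * n * 1
      positivity
  have hcV : ∀ m, ∑ x, p5c P N b m x ^ 2 ≤ p5V (Dl := Dl) (Y := Y) n N b m := by
    rintro (d | y | q)
    · show ∑ x, P.Q d x ^ 2 ≤ b ^ 16 / N
      have e1 : ∀ x, P.Q d x ≤ b ^ 8 / N := fun x => by
        rw [le_div_iff₀ hNpos]
        exact H.Qle d x
      calc ∑ x, P.Q d x ^ 2 ≤ ∑ x, P.Q d x * (b ^ 8 / N) := by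
            refine Finset.sum_le_sum fun x _ => ?_
            rw [sq]
            exact mul_le_mul_of_nonneg_left (e1 x) (H.Q0 d x)
        _ = b ^ 8 / N := by rw [← Finset.sum_mul, H.Q1, one_mul]
        _ ≤ b ^ 16 / N :=
            div_le_div_of_nonneg_right (pow_le_pow_right₀ hb1 (by norm_num)) hNpos.le
    · show ∑ _x : X, (4 * (n : ℝ) * (2 * b ^ 12 / N)) ^ 2 ≤ 64 * (n : ℝ) ^ 2 * b ^ 24 / N
      rw [Finset.sum_const, Finset.card_univ, H.cX, nsmul_eq_mul]
      refine le_of_eq ?_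
      field_simp
      ring
    · show ∑ _x : X, (4 * (n : ℝ) * 1) ^ 2 ≤ 16 * (n : ℝ) ^ 2 * N
      rw [Finset.sum_const, Finset.card_univ, H.cX, nsmul_eq_mul]
      refine le_of_eq ?_
      ring
  have ht : ∀ m, 0 ≤ p5t (Dl := Dl) (Y := Y) N b m := by
    rintro (d | y | q)
    · show (0 : ℝ) ≤ 1 / b ^ 50
      positivity
    · show (0 : ℝ) ≤ 1 / (2 * b ^ 12)
      positivity
    · show (0 : ℝ) ≤ N / (12 * b)
      positivity
  have hV : ∀ m, 0 < p5V (Dl := Dl) (Y := Y) n N b m := by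
    rintro (d | y | q)
    · show (0 : ℝ) < b ^ 16 / N
      positivity
    · show (0 : ℝ) < 64 * (n : ℝ) ^ 2 * b ^ 24 / N
      positivity
    · show (0 : ℝ) < 16 * (n : ℝ) ^ 2 * N
      positivity
  have hG : ∀ j φ, 0 ≤ p5G P s b j φ := by
    rintro (_ | _) φ
    · exact p5_bad_nonneg P s φ
    · exact add_nonneg (Finset.sum_nonneg fun d _ => p5_ind_nonneg _)
        (Finset.sum_nonneg fun d _ => p5_ind_nonneg _)
  have hGE : EE (PX P.Q s b) (p5G P s b true) ≤ Real.exp (-b ^ 100) := by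
    refine le_trans (le_of_eq ?_) hOv
    have e : p5G P s b true = fun φ =>
        (∑ d, ind ((1 - 1 / b ^ 30 + 1 / b ^ 50) * s < (cn φ d : ℝ))) +
        ∑ d, ind ((cn φ d : ℝ) < (1 - 1 / b ^ 30 - 1 / b ^ 50) * s) := rfl
    rw [e, Pool.Agent.H73.Cube.EE_add, Pool.Agent.H73.Cube.EE_sum, Pool.Agent.H73.Cube.EE_sum]
  have hsum : ∑ m, 2 * Real.exp (-(p5t (Dl := Dl) (Y := Y) N b m ^ 2 / (2 * p5V n N b m))) +
      ∑ j, EE (PX P.Q s b) (p5G P s b j) / (if j = true then 1 else 1 / 8) < 1 := by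
    have e1 : ∀ m, Real.exp (-(p5t (Dl := Dl) (Y := Y) N b m ^ 2 / (2 * p5V n N b m))) ≤
        Real.exp (-b ^ 1000) := by
      intro m
      rw [Real.exp_le_exp]
      refine neg_le_neg ?_
      rcases m with d | y | q
      · exact p5_tail1 hNum
      · exact p5_tail2 hNum
      · exact p5_tail3 hNum
    have e2 : (Fintype.card (Dl ⊕ (Y ⊕ (Y × Y))) : ℝ) ≤ 3 * (N : ℝ) ^ 2 := by
      rw [Fintype.card_sum, Fintype.card_sum, Fintype.card_prod, H.cY]
      have h5 : Fintype.card Dl ≤ N := by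
        rw [← H.cD]
        exact Nat.le_mul_of_pos_right _ hs1
      have h6 : 1 ≤ N := by exact_mod_cast (by linarith [hNum.hNb, one_le_pow₀ hb1 (n := 5000)] :
        (1 : ℝ) ≤ N)
      have h7 : Fintype.card Dl + (N + N * N) ≤ 3 * N ^ 2 := by nlinarith
      exact_mod_cast h7
    have e3 : ∑ m, 2 * Real.exp (-(p5t (Dl := Dl) (Y := Y) N b m ^ 2 / (2 * p5V n N b m))) ≤
        6 * (N : ℝ) ^ 2 * Real.exp (-b ^ 1000) := by
      calc _ ≤ ∑ _m : Dl ⊕ (Y ⊕ (Y × Y)), 2 * Real.exp (-b ^ 1000) :=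
            Finset.sum_le_sum fun m _ => mul_le_mul_of_nonneg_left (e1 m) (by norm_num)
        _ = (Fintype.card (Dl ⊕ (Y ⊕ (Y × Y))) : ℝ) * (2 * Real.exp (-b ^ 1000)) := by
            rw [Finset.sum_const, Finset.card_univ, nsmul_eq_mul]
        _ ≤ 3 * (N : ℝ) ^ 2 * (2 * Real.exp (-b ^ 1000)) :=
            mul_le_mul_of_nonneg_right e2 (by positivity)
        _ = _ := by ring
    have e4 := p5_small hNum
    rw [Fintype.sum_bool, if_pos rfl, if_neg (by decide)]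
    have e5 : EE (PX P.Q s b) (p5G P s b false) / (1 / 8) ≤ 1 / 2 := by
      have : EE (PX P.Q s b) (p5G P s b false) ≤ 1 / 16 := hbad
      rw [div_le_iff₀ (by norm_num)]
      linarith
    rw [div_one]
    linarith
  obtain ⟨φ, hφ, hF', hG'⟩ := Pool.Agent.H73.Cube.exists_good hP0 hP1 (p5F P s) (p5c P N b) hc hF
    (p5t N b) (p5V n N b) ht hV hcV (p5G P s b) hG (fun j => if j = true then 1 else 1 / 8)
    (by rintro (_ | _) <;> norm_num) hsum
  -- overflow
  have hov := hG' true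
  simp only [if_pos] at hov
  have hov' : ∑ d, ind ((1 - 1 / b ^ 30 + 1 / b ^ 50) * s < (cn φ d : ℝ)) +
      ∑ d, ind ((cn φ d : ℝ) < (1 - 1 / b ^ 30 - 1 / b ^ 50) * s) < 1 := hov
  have n1 : 0 ≤ ∑ d, ind ((1 - 1 / b ^ 30 + 1 / b ^ 50) * s < (cn φ d : ℝ)) :=
    Finset.sum_nonneg fun d _ => p5_ind_nonneg _
  have n2 : 0 ≤ ∑ d, ind ((cn φ d : ℝ) < (1 - 1 / b ^ 30 - 1 / b ^ 50) * s) :=
    Finset.sum_nonneg fun d _ => p5_ind_nonneg _
  have hhi : ∀ d, (cn φ d : ℝ) ≤ (1 - 1 / b ^ 30 + 1 / b ^ 50) * s := by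
    intro d
    by_contra hc'
    have h5 := Finset.single_le_sum
      (f := fun d => ind ((1 - 1 / b ^ 30 + 1 / b ^ 50) * s < (cn φ d : ℝ)))
      (fun d _ => p5_ind_nonneg _) (Finset.mem_univ d)
    have h6 : ind ((1 - 1 / b ^ 30 + 1 / b ^ 50) * s < (cn φ d : ℝ)) = 1 := if_pos (not_le.1 hc')
    simp only [h6] at h5
    linarith
  have hlo : ∀ d, (1 - 1 / b ^ 30 - 1 / b ^ 50) * s ≤ (cn φ d : ℝ) := by
    intro d
    by_contra hc'
    have h5 := Finset.single_le_sum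
      (f := fun d => ind ((cn φ d : ℝ) < (1 - 1 / b ^ 30 - 1 / b ^ 50) * s))
      (fun d _ => p5_ind_nonneg _) (Finset.mem_univ d)
    have h6 : ind ((cn φ d : ℝ) < (1 - 1 / b ^ 30 - 1 / b ^ 50) * s) = 1 := if_pos (not_le.1 hc')
    simp only [h6] at h5
    linarith
  have hcs : ∀ d, (cn φ d : ℝ) ≤ s := by
    intro d
    refine (hhi d).trans (mul_le_of_le_one_left hspos.le ?_)
    have : 1 / b ^ 50 ≤ 1 / b ^ 30 :=
      one_div_le_one_div_of_le (by positivity) (pow_le_pow_right₀ hb1 (by norm_num))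
    linarith
  have hnu : nuc s φ = nu s φ := by
    funext d x
    unfold nuc nu
    rw [max_eq_left (hcs d)]
  -- numerical comparisons
  have k1 : 1 / b ^ 28 ≤ 1 / b ^ 12 / 16 := by
    rw [div_div, div_le_div_iff₀ (by positivity) (by positivity), one_mul, one_mul]
    calc b ^ 12 * 16 ≤ b ^ 12 * b ^ 16 := by
          refine mul_le_mul_of_nonneg_left ?_ (by positivity)
          have : b ≤ b ^ 16 := le_self_pow₀ hb1 (by norm_num)
          linarith
      _ = b ^ 28 := by ring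
  have k2 : 2 * b ^ 12 / N * b ^ 20 ≤ 1 / b ^ 12 / 8 := by
    have e : 2 * b ^ 12 / N * b ^ 20 = 2 * b ^ 32 / N := by ring
    rw [e, div_div, div_le_div_iff₀ hNpos (by positivity), one_mul]
    calc 2 * b ^ 32 * (b ^ 12 * 8) = 16 * b ^ 44 := by ring
      _ ≤ b * b ^ 44 := mul_le_mul_of_nonneg_right (by linarith) (by positivity)
      _ = b ^ 45 := by ring
      _ ≤ b ^ 5000 := pow_le_pow_right₀ hb1 (by norm_num)
      _ ≤ N := hNum.hNb
  have k3 : 1 / b ^ 12 ≤ 1 / 1000 := by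
    refine one_div_le_one_div_of_le (by norm_num) ?_
    have : b ≤ b ^ 12 := le_self_pow₀ hb1 (by norm_num)
    linarith
  have k0 : 0 < 1 / b ^ 12 := by positivity
  have k4 : 12 * b ^ 21 ≤ N := by
    calc 12 * b ^ 21 ≤ b * b ^ 21 := mul_le_mul_of_nonneg_right (by linarith) (by positivity)
      _ = b ^ 22 := by ring
      _ ≤ b ^ 5000 := pow_le_pow_right₀ hb1 (by norm_num)
      _ ≤ N := hNum.hNb
  refine ⟨φ, hlo, hhi, ?_, ?_, ?_, ?_, ?_⟩
  · intro x d hx hQ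
    have h5 := hφ x
    rw [hx] at h5
    have h6 : PX P.Q s b x (some d) = (1 - 1 / b ^ 30) * ((s : ℝ) * P.Q d x) /
        ∑ d', (s : ℝ) * P.Q d' x := rfl
    rw [h6, hQ, mul_zero, mul_zero, zero_div] at h5
    exact lt_irrefl _ h5
  · intro d
    have h5 := hF' (Sum.inl d)
    have h6 : EE (PX P.Q s b) (p5F P s (Sum.inl d)) = 1 / b ^ 30 := by
      have e : p5F P s (Sum.inl d) = fun φ => ∑ x, P.Q d x * ind (φ x = none) := by
        funext φ
        exact Finset.sum_congr rfl fun x _ => mul_comm _ _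
      rw [e, Pool.Agent.H73.Cube.EE_sum]
      have e2 : ∀ x, EE (PX P.Q s b) (fun φ => P.Q d x * ind (φ x = none)) =
          P.Q d x * (1 / b ^ 30) := by
        intro x
        rw [Pool.Agent.H73.Cube.EE_smul]
        congr 1
        rw [Pool.Agent.H73.Cube.EE_coord hP1 x (fun a => ind (a = none)),
          Fintype.sum_option]
        have e3 : ∀ d', PX P.Q s b x (some d') * ind (some d' = none) = 0 := fun d' => by
          unfold ind
          rw [if_neg (by simp), mul_zero]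
        simp only [e3, Finset.sum_const_zero, add_zero]
        have e4 : ind True = 1 := by
          unfold ind
          exact if_pos trivial
        rw [e4, mul_one]
        rfl
      simp only [e2]
      rw [← Finset.sum_mul, H.Q1, one_mul]
    rw [h6] at h5
    exact h5.le
  · intro y
    have h5 := hF' (Sum.inr (Sum.inl y))
    have h6 := h3 X Ob Dl n N s b P.Q P.D (fun o S => P.w o S y) (2 * b ^ 12 / N) hNum H.cX H.cO
      H.cD H.Q0 H.Q1 H.U H.Qle H.inj (fun o S => H.w0 o S y) (hwle y)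
    have h7 := H.col y
    have h8 : |tot P.D (nuc s φ) (fun o S => P.w o S y) -
        EE (PX P.Q s b) (fun φ => tot P.D (nuc s φ) (fun o S => P.w o S y))| <
        1 / (2 * b ^ 12) := h5
    rw [hnu] at h8
    set T := tot P.D P.Q (fun o S => P.w o S y) with hT
    set E := EE (PX P.Q s b) (fun φ => tot P.D (nuc s φ) (fun o S => P.w o S y)) with hE
    set v := tot P.D (nu s φ) (fun o S => P.w o S y) with hv
    have h9 : T / b ^ 28 ≤ 1 / b ^ 12 / 8 := by
      have hT2 : T ≤ 2 := by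
        have := (abs_le.1 h7).2
        linarith
      calc T / b ^ 28 = T * (1 / b ^ 28) := by ring
        _ ≤ 2 * (1 / b ^ 28) := mul_le_mul_of_nonneg_right hT2 (by positivity)
        _ ≤ 2 * (1 / b ^ 12 / 16) := mul_le_mul_of_nonneg_left k1 (by norm_num)
        _ = 1 / b ^ 12 / 8 := by ring
    have h10 : 1 / (2 * b ^ 12) = 1 / b ^ 12 / 2 := by ring
    have h11 : 2 / b ^ 12 = 2 * (1 / b ^ 12) := by ring
    rw [h10] at h8
    rw [h11]
    rw [abs_lt] at h8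
    rw [abs_le] at h6 h7 ⊢
    constructor <;> linarith [h6.1, h6.2, h7.1, h7.2, h8.1, h8.2]
  · intro y y'
    have h5 := hF' (Sum.inr (Sum.inr (y, y')))
    have h6 := h3 X Ob Dl n N s b P.Q P.D (two P.ok y y') 1 hNum H.cX H.cO
      H.cD H.Q0 H.Q1 H.U H.Qle H.inj (fun o S => p5_two_nonneg _ _ _ _ _)
      (fun o S => p5_two_le _ _ _ _ _)
    have h7 := H.pair y y'
    have h8 : |tot P.D (nuc s φ) (two P.ok y y') -
        EE (PX P.Q s b) (fun φ => tot P.D (nuc s φ) (two P.ok y y'))| < N / (12 * b) := h5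
    rw [hnu] at h8
    set T := tot P.D P.Q (two P.ok y y') with hT
    set E := EE (PX P.Q s b) (fun φ => tot P.D (nuc s φ) (two P.ok y y')) with hE
    set v := tot P.D (nu s φ) (two P.ok y y') with hv
    have hT0 : 0 ≤ T := by
      by_contra hneg
      have : T * (2 * b) < 0 := mul_neg_of_neg_of_pos (not_le.1 hneg) (by positivity)
      linarith
    have h9 : T / b ^ 28 ≤ T / 16 := by
      have h10 : (1 : ℝ) / b ^ 28 ≤ 1 / 16 := by linarith
      calc T / b ^ 28 = T * (1 / b ^ 28) := by ring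
        _ ≤ T * (1 / 16) := mul_le_mul_of_nonneg_left h10 hT0
        _ = T / 16 := by ring
    have h11 := (abs_le.1 h6).1
    have h12 := (abs_lt.1 h8).1
    have h13 : T * (15 / 16) - b ^ 20 - N / (12 * b) ≤ v := by linarith
    have h14 := mul_le_mul_of_nonneg_right h13 (show 0 ≤ 4 * b by positivity)
    have h15 : (T * (15 / 16) - b ^ 20 - N / (12 * b)) * (4 * b) =
        15 / 8 * (T * (2 * b)) - 4 * b ^ 21 - N / 3 := by
      field_simp
      ring
    rw [h15] at h14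
    linarith
  · have h5 := hG' false
    have h6 : badSum P (nu s φ) < 1 / 8 := by
      have : p5G P s b false φ < 1 / 8 := by simpa using h5
      exact this
    exact h6.le

end Pool.Agent.FQ
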