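import Pool.Agent.FQ.PDefs

/-!
# Project FQ (MP_a55b9e_co), row P6: completion of the contents (helper91)
-/

set_option autoImplicit false

namespace Pool.Agent.FQ

open Finset Classical

section

variable {X Dl : Type} [Fintype X] [Fintype Dl] [DecidableEq X] [DecidableEq Dl]

/-- number of vertices with and without a block -/
theorem p6_card (φ : X → Option Dl) :
    Fintype.card {x : X // φ x = none} + ∑ d, cn φ d = Fintype.card X := by
  have h1 : (univ : Finset X).card =
      ∑ a : Option Dl, ((univ : Finset X).filter (fun x => φ x = a)).card :=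
    card_eq_sum_card_fiberwise (fun x _ => by simp)
  rw [Fintype.sum_option, card_univ] at h1
  rw [h1, Fintype.card_subtype]
  rfl

/-- a sum over the slots -/
theorem p6_sum (f : Dl → ℕ) (g : Dl → ℝ) :
    ∑ r : (Σ d : Dl, Fin (f d)), g r.1 = ∑ d, (f d : ℝ) * g d := by
  rw [Fintype.sum_sigma]
  refine sum_congr rfl (fun d _ => ?_)
  change ∑ _y : Fin (f d), g d = _
  rw [sum_const, card_univ, Fintype.card_fin, nsmul_eq_mul]

/-- the number of slots with a property of the block -/
theorem p6_filter (f : Dl → ℕ) (p : Dl → Prop) (c : ℝ) (hf : ∀ d, c ≤ (f d : ℝ))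
    (inst : DecidablePred (fun r : (Σ d : Dl, Fin (f d)) => p r.1)) (inst2 : DecidablePred p) :
    ((@Finset.filter _ p inst2 univ).card : ℝ) * c ≤
      ((@Finset.filter _ (fun r : (Σ d : Dl, Fin (f d)) => p r.1) inst univ).card : ℝ) := by
  have h1 : ((@Finset.filter _ (fun r : (Σ d : Dl, Fin (f d)) => p r.1) inst univ).card : ℝ) =
      ∑ r : (Σ d : Dl, Fin (f d)), ind (p r.1) := by
    rw [card_filter]
    push_cast
    refine sum_congr rfl (fun r _ => ?_)
    unfold ind
    by_cases h : p r.1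
    · rw [if_pos h, if_pos h]
    · rw [if_neg h, if_neg h]
  have h2 : ((@Finset.filter _ p inst2 univ).card : ℝ) = ∑ d, ind (p d) := by
    rw [card_filter]
    push_cast
    refine sum_congr rfl (fun r _ => ?_)
    unfold ind
    by_cases h : p r
    · rw [if_pos h, if_pos h]
    · rw [if_neg h, if_neg h]
  rw [h1, h2, p6_sum f (fun d => ind (p d)), sum_mul]
  refine sum_le_sum (fun d _ => ?_)
  have h3 : 0 ≤ ind (p d) := by
    unfold ind
    split_ifs <;> norm_num
  rw [mul_comm]
  exact mul_le_mul_of_nonneg_right (hf d) h3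

/-- building the bijection from the blocks -/
theorem p6_build {R : Type} [Fintype R] (ψ : X → Dl)
    (h : ∀ d, Fintype.card {x : X // ψ x = d} = Fintype.card R) :
    ∃ F : Dl × R ≃ X, ∀ d r, ψ (F (d, r)) = d := by
  have hE : ∀ d, Nonempty (R ≃ {x : X // ψ x = d}) := fun d =>
    ⟨Fintype.equivOfCardEq (h d).symm⟩
  refine ⟨(Equiv.sigmaEquivProd Dl R).symm.trans
    ((Equiv.sigmaCongrRight (fun d => (hE d).some)).trans (Equiv.sigmaFiberEquiv ψ)), ?_⟩
  intro d r
  exact ((hE d).some r).2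

/-- from the matching to the bijection -/
theorem p6_match {R : Type} [Fintype R] (s : ℕ) (hR : Fintype.card R = s) (Q : Dl → X → ℝ)
    (φ : X → Option Dl) (hcn : ∀ d, cn φ d ≤ s)
    (e : (Σ d : Dl, Fin (s - cn φ d)) ≃ {x : X // φ x = none})
    (he : ∀ r, Q r.1 (e r).1 ≠ 0) :
    ∃ F : Dl × R ≃ X, ∀ d r, φ (F (d, r)) = some d ∨
      (φ (F (d, r)) = none ∧ Q d (F (d, r)) ≠ 0) := by
  have hex : ∀ x, ∃ d, φ x = some d ∨ ∃ h : φ x = none, (e.symm ⟨x, h⟩).1 = d := by
    intro x
    by_cases hx : φ x = none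
    · exact ⟨_, Or.inr ⟨hx, rfl⟩⟩
    · obtain ⟨d, hd⟩ := Option.ne_none_iff_exists'.1 hx
      exact ⟨d, Or.inl hd⟩
  choose ψ hψ using hex
  have hfib : ∀ d, Fintype.card {x : X // ψ x = d} = Fintype.card R := by
    intro d
    rw [hR, Fintype.card_subtype]
    have h1 : (univ : Finset X).filter (fun x => ψ x = d) =
        (univ.filter (fun x => φ x = some d)) ∪
          (univ : Finset (Fin (s - cn φ d))).image (fun k => (e ⟨d, k⟩).1) := by
      ext x
      simp only [mem_filter, mem_univ, true_and, mem_union, mem_image]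
      constructor
      · intro hx
        rcases hψ x with h2 | ⟨h2, h3⟩
        · left
          rw [h2, hx]
        · right
          rw [hx] at h3
          obtain ⟨⟨d', k⟩, hr⟩ : ∃ r, r = e.symm ⟨x, h2⟩ := ⟨_, rfl⟩
          rw [← hr] at h3
          simp only at h3
          subst h3
          refine ⟨k, ?_⟩
          rw [hr, Equiv.apply_symm_apply]
      · rintro (h2 | ⟨k, hk⟩)
        · rcases hψ x with h3 | ⟨h3, _⟩
          · rw [h2] at h3
            exact (Option.some_injective _ h3).symm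
          · rw [h2] at h3
            exact absurd h3 (by simp)
        · have h4 : φ x = none := by
            rw [← hk]
            exact (e ⟨d, k⟩).2
          rcases hψ x with h3 | ⟨h3, h5⟩
          · rw [h4] at h3
            exact absurd h3 (by simp)
          · have h6 : (⟨x, h3⟩ : {x : X // φ x = none}) = e ⟨d, k⟩ := Subtype.ext hk.symm
            rw [h6, Equiv.symm_apply_apply] at h5
            exact h5.symm
    have h2 : Disjoint (univ.filter (fun x => φ x = some d))
        ((univ : Finset (Fin (s - cn φ d))).image (fun k => (e ⟨d, k⟩).1)) := by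
      rw [disjoint_left]
      intro x hx hx'
      rw [mem_filter] at hx
      obtain ⟨k, _, hk⟩ := mem_image.1 hx'
      have h4 : φ x = none := by
        rw [← hk]
        exact (e ⟨d, k⟩).2
      rw [h4] at hx
      exact absurd hx.2 (by simp)
    rw [h1, card_union_of_disjoint h2, card_image_of_injective, card_univ, Fintype.card_fin]
    · have h3 := hcn d
      have h4 : (univ.filter (fun x => φ x = some d)).card = cn φ d := by
        unfold cn
        congr
      omega
    · intro k k' hkk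
      have h3 := e.injective (Subtype.ext hkk)
      simpa using h3
  obtain ⟨F, hF⟩ := p6_build ψ hfib
  refine ⟨F, fun d r => ?_⟩
  have h1 := hF d r
  rcases hψ (F (d, r)) with h2 | ⟨h2, h3⟩
  · left
    rw [h2, h1]
  · right
    refine ⟨h2, ?_⟩
    have h4 := he (e.symm ⟨F (d, r), h2⟩)
    rw [h3, h1, Equiv.apply_symm_apply] at h4
    exact h4

end

/-- the numerical core -/
theorem p6_num {b : ℝ} (hb : 1000 ≤ b) :
    ∃ t β : ℝ, 1 / b ^ 20 = t ∧ 1 / b ^ 30 = β ∧ 1 / b ^ 50 = β * t ∧ 1 / b ^ 60 = t ^ 3 ∧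
      0 < t ∧ t ≤ 1 / 1000 ∧ 0 < β ∧ β ≤ 1 / 1000 ∧ 4 * t ≤ 1 / (2 * b ^ 4) * (1 / (2 * b ^ 4)) := by
  have hb0 : 0 < b := by linarith
  have hb1 : 1 ≤ b := by linarith
  refine ⟨1 / b ^ 20, 1 / b ^ 30, rfl, rfl, ?_, ?_, by positivity, ?_, by positivity, ?_, ?_⟩
  · rw [div_mul_div_comm, one_mul, ← pow_add]
  · rw [div_pow, one_pow, ← pow_mul]
  · exact one_div_le_one_div_of_le (by norm_num) (hb.trans (le_self_pow₀ hb1 (by norm_num)))
  · exact one_div_le_one_div_of_le (by norm_num) (hb.trans (le_self_pow₀ hb1 (by norm_num)))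
  · rw [div_mul_div_comm, one_mul, mul_one_div, div_le_div_iff₀ (by positivity) (by positivity)]
    have h1 : (16 : ℝ) ≤ b ^ 12 :=
      (by linarith : (16 : ℝ) ≤ b).trans (le_self_pow₀ hb1 (by norm_num))
    have h2 : b ^ 20 = b ^ 12 * b ^ 8 := by rw [← pow_add]
    have h3 : 0 < b ^ 8 := by positivity
    calc 4 * (2 * b ^ 4 * (2 * b ^ 4)) = 16 * b ^ 8 := by ring
      _ ≤ b ^ 12 * b ^ 8 := mul_le_mul_of_nonneg_right h1 h3.le
      _ = 1 * b ^ 20 := by rw [h2, one_mul]

theorem p6 (hHL : HLStatement) : P6Statement := by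
  intro X Y Ob Dl R _ _ _ _ _ _ _ _ _ _ n N s b P φ hN hP hC
  have hb : (1000 : ℝ) ≤ b := by
    have h1 : (1000 : ℝ) ≤ (n : ℝ) := by exact_mod_cast hN.hn
    have h2 : (n : ℝ) ≤ (n : ℝ) ^ 400 := le_self_pow₀ (by linarith) (by norm_num)
    linarith [hN.hnb]
  have hb0 : 0 < b := by linarith
  obtain ⟨t, β, ht, hβ, hβt, ht3, ht0, ht1, hβ0, hβ1, hτ⟩ := p6_num hb
  have hs0 : (0 : ℝ) < s := lt_of_lt_of_le (by positivity) hN.hsb
  have hlo : ∀ d, (1 - β - β * t) * s ≤ cn φ d := by
    intro d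
    have := hC.lo d
    rwa [hβ, hβt] at this
  have hhi : ∀ d, (cn φ d : ℝ) ≤ (1 - β + β * t) * s := by
    intro d
    have := hC.hi d
    rwa [hβ, hβt] at this
  have hcn : ∀ d, cn φ d ≤ s := by
    intro d
    have h1 : (cn φ d : ℝ) ≤ (s : ℝ) := by
      refine (hhi d).trans ?_
      have : β * t ≤ β := by nlinarith
      nlinarith
    exact_mod_cast h1
  have hfr : ∀ d, ((s - cn φ d : ℕ) : ℝ) = s - cn φ d := fun d => Nat.cast_sub (hcn d)
  have hfl : ∀ d, β * (1 - t) * s ≤ ((s - cn φ d : ℕ) : ℝ) := by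
    intro d
    rw [hfr]
    have := hhi d
    nlinarith
  have hfu : ∀ d, ((s - cn φ d : ℕ) : ℝ) ≤ β * (1 + t) * s := by
    intro d
    rw [hfr]
    have := hlo d
    nlinarith
  -- the cardinalities
  have hcard : Fintype.card (Σ d : Dl, Fin (s - cn φ d)) = Fintype.card {x : X // φ x = none} := by
    have h1 := p6_card φ
    rw [Fintype.card_sigma]
    simp only [Fintype.card_fin]
    have h2 : ∑ d, (s - cn φ d) + ∑ d, cn φ d = Fintype.card Dl * s := by
      rw [← sum_add_distrib, sum_congr rfl (fun d _ => Nat.sub_add_cancel (hcn d)), sum_const,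
        card_univ, smul_eq_mul]
    have h3 := hP.cX
    have h4 := hP.cD
    omega
  have hDs : (Fintype.card Dl : ℝ) * s = N := by exact_mod_cast hP.cD
  have hN0 : (0 : ℝ) < N := lt_of_lt_of_le (by positivity) hN.hNb
  have hcardR : (Fintype.card (Σ d : Dl, Fin (s - cn φ d)) : ℝ) =
      ∑ d : Dl, ((s - cn φ d : ℕ) : ℝ) := by
    rw [Fintype.card_sigma]
    simp only [Fintype.card_fin]
    push_cast
    rfl
  have hRl : β * (1 - t) * N ≤ (Fintype.card (Σ d : Dl, Fin (s - cn φ d)) : ℝ) := by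
    rw [hcardR, ← hDs]
    calc β * (1 - t) * ((Fintype.card Dl : ℝ) * s) = ∑ _d : Dl, β * (1 - t) * s := by
          rw [sum_const, card_univ, nsmul_eq_mul]; ring
      _ ≤ _ := sum_le_sum (fun d _ => hfl d)
  have hRu : (Fintype.card (Σ d : Dl, Fin (s - cn φ d)) : ℝ) ≤ β * (1 + t) * N := by
    rw [hcardR, ← hDs]
    calc ∑ d : Dl, ((s - cn φ d : ℕ) : ℝ) ≤ ∑ _d : Dl, β * (1 + t) * s :=
          sum_le_sum (fun d _ => hfu d)
      _ = _ := by rw [sum_const, card_univ, nsmul_eq_mul]; ring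
  -- the denominators
  obtain ⟨L, hL⟩ : ∃ L : Dl → ℝ, ∀ d, L d = ∑ x : {x : X // φ x = none}, P.Q d x.1 :=
    ⟨_, fun d => rfl⟩
  have hLs : ∀ d, L d = ∑ x, ind (φ x = none) * P.Q d x := by
    intro d
    rw [hL]
    have h1 : ∑ x, ind (φ x = none) * P.Q d x =
        ∑ x ∈ univ.filter (fun x => φ x = none), P.Q d x := by
      rw [sum_filter]
      refine sum_congr rfl (fun x _ => ?_)
      unfold ind
      split_ifs <;> simp
    rw [h1]
    exact (sum_subtype _ (by simp) (fun x => P.Q d x)).symm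
  have hLl : ∀ d, β * (1 - t) ≤ L d := by
    intro d
    have h1 := hC.left d
    rw [← hLs, hβ, hβt, abs_le] at h1
    linarith [h1.1]
  have hLu : ∀ d, L d ≤ β * (1 + t) := by
    intro d
    have h1 := hC.left d
    rw [← hLs, hβ, hβt, abs_le] at h1
    linarith [h1.2]
  have hβ1t : 0 < β * (1 - t) := mul_pos hβ0 (by linarith)
  have hL0 : ∀ d, 0 < L d := fun d => lt_of_lt_of_le hβ1t (hLl d)
  obtain ⟨e, he⟩ := hHL (Σ d : Dl, Fin (s - cn φ d)) {x : X // φ x = none}
    (fun r x => P.Q r.1 x.1 ≠ 0) (fun r x => P.Q r.1 x.1 / L r.1) (4 * t) (1 / (2 * b ^ 4))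
    (1 / (2 * b ^ 4)) hcard (fun r x => div_nonneg (hP.Q0 _ _) (hL0 _).le)
    (fun r x h => by
      rw [not_not] at h
      simp only [h, zero_div])
    (fun r => by rw [← sum_div, ← hL, div_self (hL0 _).ne'])
    (fun x => by
      have h1 := p6_sum (fun d => s - cn φ d) (fun d => P.Q d x.1 / L d)
      rw [h1]
      have h2 : ∀ d, ((s - cn φ d : ℕ) : ℝ) * (P.Q d x.1 / L d) ≤
          (1 + t) / (1 - t) * ((s : ℝ) * P.Q d x.1) := by
        intro d
        have h3 := hP.Q0 d x.1
        rw [← mul_div_assoc, div_le_iff₀ (hL0 d)]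
        have h4 : ((s - cn φ d : ℕ) : ℝ) * P.Q d x.1 ≤ β * (1 + t) * s * P.Q d x.1 :=
          mul_le_mul_of_nonneg_right (hfu d) h3
        have h5 : (1 + t) / (1 - t) * ((s : ℝ) * P.Q d x.1) * (β * (1 - t)) ≤
            (1 + t) / (1 - t) * ((s : ℝ) * P.Q d x.1) * L d :=
          mul_le_mul_of_nonneg_left (hLl d)
            (mul_nonneg (div_nonneg (by linarith) (by linarith)) (mul_nonneg hs0.le h3))
        have h6 : (1 + t) / (1 - t) * ((s : ℝ) * P.Q d x.1) * (β * (1 - t)) =
            β * (1 + t) * s * P.Q d x.1 := by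
          have : (1 - t) ≠ 0 := by linarith
          field_simp
        linarith
      have h7 : ∑ d, (s : ℝ) * P.Q d x.1 ≤ 1 + t ^ 3 := by
        have h8 := hP.U x.1
        rw [ht3, abs_le] at h8
        linarith [h8.2]
      calc ∑ d, ((s - cn φ d : ℕ) : ℝ) * (P.Q d x.1 / L d)
          ≤ ∑ d, (1 + t) / (1 - t) * ((s : ℝ) * P.Q d x.1) := sum_le_sum (fun d _ => h2 d)
        _ = (1 + t) / (1 - t) * ∑ d, (s : ℝ) * P.Q d x.1 := by rw [mul_sum]
        _ ≤ (1 + 3 * t) * (1 + t ^ 3) := by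
            refine mul_le_mul ?_ h7 ?_ (by positivity)
            · rw [div_le_iff₀ (by linarith)]
              nlinarith
            · exact sum_nonneg (fun d _ => mul_nonneg hs0.le (hP.Q0 _ _))
        _ ≤ 1 + 4 * t := by
            have h9 : t ^ 2 ≤ 1 / 1000 * t := by nlinarith
            have h10 : t ^ 3 ≤ 1 / 1000 * t := by nlinarith
            nlinarith [mul_nonneg ht0.le (pow_nonneg ht0.le 3)])
    (fun r x h => by
      have h1 := hP.Qge r.1 x.1 h
      have h2 : 1 / (N * b ^ 4) ≤ P.Q r.1 x.1 := by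
        rw [div_le_iff₀ (by positivity)]
        linarith
      rw [← hcard, div_mul_eq_mul_div, le_div_iff₀ (hL0 _)]
      have h3 : 1 / (N * b ^ 4) * (β * (1 - t) * N) ≤
          P.Q r.1 x.1 * (Fintype.card (Σ d : Dl, Fin (s - cn φ d)) : ℝ) :=
        mul_le_mul h2 hRl (by positivity) (hP.Q0 _ _)
      refine le_trans ?_ h3
      have h4 : 1 / (2 * b ^ 4) * L r.1 ≤ 1 / (2 * b ^ 4) * (β * (1 + t)) :=
        mul_le_mul_of_nonneg_left (hLu _) (by positivity)
      refine h4.trans ?_
      have h5 : 1 / (N * b ^ 4) * (β * (1 - t) * N) = 1 / (2 * b ^ 4) * (2 * (β * (1 - t))) := by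
        field_simp
      rw [h5]
      exact mul_le_mul_of_nonneg_left (by nlinarith) (by positivity))
    (by positivity)
    (fun x x' hxx => by
      have h1 := hP.Qpair x.1 x'.1
      have h4 : (Fintype.card Dl : ℝ) / b ^ 4 ≤
          ((univ.filter (fun d => P.Q d x.1 ≠ 0 ∧ P.Q d x'.1 ≠ 0)).card : ℝ) := by
        rw [div_le_iff₀ (by positivity)]
        exact h1
      refine le_trans ?_ ((mul_le_mul_of_nonneg_right h4
        (by positivity : 0 ≤ β * (1 - t) * (s : ℝ))).trans
        (p6_filter (fun d => s - cn φ d) (fun d => P.Q d x.1 ≠ 0 ∧ P.Q d x'.1 ≠ 0)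
          (β * (1 - t) * s) hfl _ _))
      have h5 : (Fintype.card Dl : ℝ) / b ^ 4 * (β * (1 - t) * s) =
          1 / (2 * b ^ 4) * (2 * (β * (1 - t)) * N) := by
        rw [← hDs]
        field_simp
      rw [h5]
      refine mul_le_mul_of_nonneg_left ?_ (by positivity)
      refine hRu.trans (mul_le_mul_of_nonneg_right ?_ hN0.le)
      nlinarith)
    hτ
  exact p6_match s hP.cR P.Q φ hcn e he

end Pool.Agent.FQ
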