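import Pool.Agent.FQ.PDefs

/-!
# Project FQ, row P7: the mean over the permutations of the blocks
-/

set_option autoImplicit false

namespace Pool.Agent.FQ

open Finset Classical
open Pool.Agent.H73.Cube (EE Loc)

theorem p7_count {R : Type} [Fintype R] [DecidableEq R] (r t : R) :
    (univ.filter (fun π : Equiv.Perm R => π r = t)).card * Fintype.card R =
      Fintype.card (Equiv.Perm R) := by
  have h : ∀ t' : R, (univ.filter (fun π : Equiv.Perm R => π r = t')).card =
      (univ.filter (fun π : Equiv.Perm R => π r = t)).card := by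
    intro t'
    refine Finset.card_bij' (fun π _ => Equiv.swap t' t * π) (fun π _ => Equiv.swap t' t * π)
      ?_ ?_ ?_ ?_
    · intro π hπ
      rw [mem_filter] at hπ ⊢
      refine ⟨mem_univ _, ?_⟩
      rw [Equiv.Perm.mul_apply, hπ.2, Equiv.swap_apply_left]
    · intro π hπ
      rw [mem_filter] at hπ ⊢
      refine ⟨mem_univ _, ?_⟩
      rw [Equiv.Perm.mul_apply, hπ.2, Equiv.swap_apply_right]
    · intro π _
      rw [← mul_assoc, Equiv.swap_mul_self, one_mul]
    · intro π _
      rw [← mul_assoc, Equiv.swap_mul_self, one_mul]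
  have h1 : ∑ t', (univ.filter (fun π : Equiv.Perm R => π r = t')).card =
      Fintype.card (Equiv.Perm R) := by
    rw [← Finset.card_univ]
    exact (Finset.card_eq_sum_card_fiberwise (f := fun π : Equiv.Perm R => π r) (t := univ)
      (fun _ _ => by simp)).symm
  rw [← h1, Finset.sum_congr rfl (fun t' _ => h t'), Finset.sum_const, smul_eq_mul,
    Finset.card_univ, mul_comm]

/-- Row P7. -/
theorem p7 : P7Statement := by
  intro X Ob Dl R _ _ _ _ _ _ _ _ n s D pos F Φ hs h1 hinj
  let K : Loc Dl (Equiv.Perm R) Ob X n :=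
    { D := D
      D_inj := hinj
      val := fun o i π => F (D o i, π (pos o i)) }
  have hc : (0 : ℝ) < Fintype.card (Equiv.Perm R) := by
    have : 0 < Fintype.card (Equiv.Perm R) := Fintype.card_pos
    exact_mod_cast this
  have hs0 : (0 : ℝ) < s := by exact_mod_cast h1
  have hP1 : ∀ i : Dl, ∑ _a : Equiv.Perm R, (1 : ℝ) / Fintype.card (Equiv.Perm R) = 1 := by
    intro _
    rw [Finset.sum_const, Finset.card_univ, nsmul_eq_mul]
    field_simp
  have key := K.EE_sites (P := fun (_ : Dl) (_ : Equiv.Perm R) =>
    (1 : ℝ) / Fintype.card (Equiv.Perm R)) hP1 Φ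
  have hlaw : ∀ (o : Ob) (i : Fin n) (x : X), K.law (fun (_ : Dl) (_ : Equiv.Perm R) =>
      (1 : ℝ) / Fintype.card (Equiv.Perm R)) o i x = nuF s F (D o i) x := by
    intro o i x
    unfold Loc.law nuF ind
    by_cases hx : ∃ r, F (D o i, r) = x
    · rw [if_pos hx]
      obtain ⟨r0, hr0⟩ := hx
      have e1 : ∀ a : Equiv.Perm R, (K.val o i a = x) ↔ (a (pos o i) = r0) := by
        intro a
        constructor
        · intro h
          have h2 : F (D o i, a (pos o i)) = F (D o i, r0) := h.trans hr0.symm
          have h3 := F.injective h2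
          rw [Prod.mk.injEq] at h3
          exact h3.2
        · intro h
          change F (D o i, a (pos o i)) = x
          rw [h, hr0]
      rw [Finset.sum_congr rfl (fun a _ => if_congr (e1 a) rfl rfl), ← Finset.sum_filter,
        Finset.sum_const, nsmul_eq_mul]
      have h4 := p7_count (pos o i) r0
      rw [hs] at h4
      have h5 : (((univ.filter (fun π : Equiv.Perm R => π (pos o i) = r0)).card : ℕ) : ℝ) * s =
          Fintype.card (Equiv.Perm R) := by exact_mod_cast h4
      rw [mul_one_div, div_eq_div_iff hc.ne' hs0.ne', one_mul]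
      exact h5
    · rw [if_neg hx, zero_div]
      refine Finset.sum_eq_zero fun a _ => ?_
      rw [if_neg]
      intro h
      exact hx ⟨a (pos o i), h⟩
  have hl : (fun π : Dl → Equiv.Perm R => ∑ o, Φ o (fun i => F (D o i, π (D o i) (pos o i)))) =
      fun π => ∑ o, Φ o (K.S π o) := rfl
  rw [hl, key]
  unfold tot pw
  refine Finset.sum_congr rfl fun o _ => Finset.sum_congr rfl fun S _ => ?_
  congr 1
  exact Finset.prod_congr rfl fun i _ => hlaw o i (S i)

end Pool.Agent.FQ
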