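import Pool.Agent.FQ.PDefs

/-!
# Project FQ, row P8: full contents against contents
-/

set_option autoImplicit false
set_option linter.unusedSectionVars false

namespace Pool.Agent.FQ

open Finset Classical
open Pool.Agent.H73.Cube (EE Loc)

theorem p8_ind_nonneg (p : Prop) : 0 ≤ ind p := by unfold ind; split_ifs <;> norm_num

theorem p8_ind_le_one (p : Prop) : ind p ≤ 1 := by unfold ind; split_ifs <;> norm_num

theorem p8_card {X : Type} [Fintype X] (p : X → Prop) [DecidablePred p] :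
    ∑ x, ind (p x) = ((univ.filter p).card : ℝ) := by
  rw [Finset.card_filter]
  push_cast
  apply Finset.sum_congr rfl
  intro x _
  unfold ind
  by_cases h : p x
  · rw [if_pos h, if_pos h]
  · rw [if_neg h, if_neg h]

theorem p8_one_sub {ι : Type} (t : Finset ι) (a : ι → ℝ) (h0 : ∀ i, 0 ≤ a i)
    (h1 : ∀ i, a i ≤ 1) : 1 - ∑ i ∈ t, (1 - a i) ≤ ∏ i ∈ t, a i := by
  induction t using Finset.induction_on with
  | empty => simp
  | insert i t hi ih =>
    rw [Finset.sum_insert hi, Finset.prod_insert hi]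
    have hP : ∏ j ∈ t, a j ≤ 1 := Finset.prod_le_one (fun j _ => h0 j) (fun j _ => h1 j)
    nlinarith [mul_nonneg (sub_nonneg.2 (h1 i)) (sub_nonneg.2 hP)]

theorem p8_sum_prod {X : Type} [Fintype X] {n : ℕ} (q : Fin n → X → ℝ) :
    ∑ S : Fin n → X, ∏ i, q i (S i) = ∏ i, ∑ x, q i x := by
  rw [Finset.prod_univ_sum]
  simp [Fintype.piFinset_univ]

theorem p8_sum_prod2 {X : Type} [Fintype X] {n : ℕ} (q r : Fin n → X → ℝ)
    (A : Finset (Fin n)) :
    ∑ S : Fin n → X, (∏ i ∈ A, q i (S i)) * ∏ i ∈ Aᶜ, r i (S i) =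
      (∏ i ∈ A, ∑ x, q i x) * ∏ i ∈ Aᶜ, ∑ x, r i x := by
  have h1 : ∀ f g : Fin n → ℝ, (∏ i ∈ A, f i) * ∏ i ∈ Aᶜ, g i =
      ∏ i, (if i ∈ A then f i else g i) := by
    intro f g
    rw [← Finset.prod_mul_prod_compl A (fun i => if i ∈ A then f i else g i)]
    congr 1
    · apply Finset.prod_congr rfl
      intro i hi
      rw [if_pos hi]
    · apply Finset.prod_congr rfl
      intro i hi
      rw [if_neg (Finset.mem_compl.1 hi)]
  simp only [h1]
  have h2 := p8_sum_prod (fun i x => if i ∈ A then q i x else r i x)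
  rw [h2]
  apply Finset.prod_congr rfl
  intro i _
  split_ifs <;> rfl

/-- Large subsets. -/
theorem p8_big {n : ℕ} (e l : ℝ) (he : 0 ≤ e) (hl : 1 ≤ l) (k : ℕ) :
    ∑ A ∈ univ.filter (fun A : Finset (Fin n) => ¬ A.card ≤ k), e ^ A.card ≤
      (1 + e * l) ^ n / l ^ k := by
  have hl0 : (0 : ℝ) < l ^ k := by positivity
  have h1 : (1 + e * l) ^ n = ∑ A : Finset (Fin n), (e * l) ^ A.card := by
    have h2 := Finset.prod_add (fun _ : Fin n => e * l) (fun _ => (1 : ℝ)) univ
    simp only [Finset.prod_const, one_pow, mul_one, Finset.card_univ,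
      Fintype.card_fin, Finset.powerset_univ] at h2
    rw [← h2, add_comm]
  rw [h1, Finset.sum_div]
  calc ∑ A ∈ univ.filter (fun A : Finset (Fin n) => ¬ A.card ≤ k), e ^ A.card
      ≤ ∑ A ∈ univ.filter (fun A : Finset (Fin n) => ¬ A.card ≤ k), (e * l) ^ A.card / l ^ k := by
        apply Finset.sum_le_sum
        intro A hA
        have hA' : k ≤ A.card := by
          have := (Finset.mem_filter.1 hA).2
          omega
        rw [le_div_iff₀ hl0, mul_pow]
        exact mul_le_mul_of_nonneg_left (pow_le_pow_right₀ hl hA') (by positivity)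
    _ ≤ ∑ A : Finset (Fin n), (e * l) ^ A.card / l ^ k := by
        apply Finset.sum_le_univ_sum_of_nonneg
        intro A
        positivity

section

variable {X Y Ob Dl R : Type} [Fintype X] [Fintype Y] [Fintype Ob] [Fintype Dl] [Fintype R]
  [DecidableEq X] [DecidableEq Y] [DecidableEq Ob] [DecidableEq Dl] [DecidableEq R] {n : ℕ}

theorem p8_mono {P : Pl X Y Ob Dl R n} {φ : X → Option Dl} {F : Dl × R ≃ X}
    (hc : Compl P φ F) {d : Dl} {x : X} (h : φ x = some d) : ∃ r, F (d, r) = x := by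
  rcases hc (F.symm x).1 (F.symm x).2 with h1 | h1
  · simp only [Prod.mk.eta, Equiv.apply_symm_apply] at h1
    rw [h] at h1
    refine ⟨(F.symm x).2, ?_⟩
    rw [Option.some.inj h1]
    simp
  · exfalso
    have h2 := h1.1
    simp only [Prod.mk.eta, Equiv.apply_symm_apply] at h2
    rw [h] at h2
    simp at h2

theorem p8_rest {P : Pl X Y Ob Dl R n} {s : ℕ} {φ : X → Option Dl} {F : Dl × R ≃ X}
    (hc : Compl P φ F) (d : Dl) (x : X) :
    0 ≤ nuF s F d x - nu s φ d x ∧
      (nuF s F d x - nu s φ d x ≠ 0 → P.Q d x ≠ 0) := by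
  unfold nuF nu
  by_cases h : φ x = some d
  · have h2 := p8_mono hc h
    rw [ind, if_pos h2, ind, if_pos h]
    simp
  · rw [show ind (φ x = some d) = 0 from if_neg h, zero_div, sub_zero]
    refine ⟨div_nonneg (p8_ind_nonneg _) (Nat.cast_nonneg _), fun h3 => ?_⟩
    have h4 : ∃ r, F (d, r) = x := by
      by_contra h5
      apply h3
      rw [ind, if_neg h5, zero_div]
    obtain ⟨r, hr⟩ := h4
    rcases hc d r with h6 | h6
    · rw [hr] at h6
      exact absurd h6 h
    · rw [hr] at h6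
      exact h6.2

theorem p8_sumF {s : ℕ} (F : Dl × R ≃ X) (hs : 0 < s) (hR : Fintype.card R = s) (d : Dl) :
    ∑ x, nuF s F d x = 1 := by
  unfold nuF
  rw [← Finset.sum_div]
  have h1 : ∑ x, ind (∃ r, F (d, r) = x) = (s : ℝ) := by
    have h2 : ∑ x, ind (∃ r, F (d, r) = x) =
        ((univ.filter (fun x => ∃ r, F (d, r) = x)).card : ℝ) := p8_card _
    rw [h2, ← hR]
    have h3 : univ.filter (fun x => ∃ r, F (d, r) = x) =
        (univ : Finset R).map ⟨fun r => F (d, r), fun r r' h => by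
          have := F.injective h
          exact (Prod.mk.inj this).2⟩ := by
      ext x
      simp
    rw [h3, Finset.card_map, Finset.card_univ]
  rw [h1]
  exact div_self (by positivity)

theorem p8_sumnu {s : ℕ} (φ : X → Option Dl) (d : Dl) :
    ∑ x, nu s φ d x = (cn φ d : ℝ) / s := by
  unfold nu cn
  rw [← Finset.sum_div]
  congr 1
  exact p8_card _

end

theorem p8 : P8Statement := by
  intro X Y Ob Dl R _ _ _ _ _ _ _ _ _ _ n N s b P φ F hN hP hc hF
  have hb1 : (1 : ℝ) ≤ b := by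
    have h1 : (1 : ℝ) ≤ (n : ℝ) := by
      have := hN.hn
      exact_mod_cast (by omega : 1 ≤ n)
    exact le_trans (one_le_pow₀ h1) hN.hnb
  have hbn : (n : ℝ) ^ 2 ≤ b := by
    have h1 : (1 : ℝ) ≤ (n : ℝ) := by
      have := hN.hn
      exact_mod_cast (by omega : 1 ≤ n)
    exact le_trans (pow_le_pow_right₀ h1 (by norm_num)) hN.hnb
  have hn1000 : (1000 : ℝ) ≤ n := by exact_mod_cast hN.hn
  have hb6 : (1000 : ℝ) * n ≤ b := by nlinarith
  have hb7 : (1000000 : ℝ) ≤ b := by nlinarith
  have hb0 : (0 : ℝ) < b := by linarith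
  have hs1 : (1 : ℝ) ≤ s := le_trans (one_le_pow₀ hb1) hN.hsb
  have hs0 : 0 < s := by exact_mod_cast (by linarith : (0 : ℝ) < s)
  have hs0' : (0 : ℝ) < s := by linarith
  -- the numbers
  set q' : Dl → X → ℝ := fun d x => nuF s F d x - nu s φ d x with hq'
  have hq0 : ∀ d x, 0 ≤ q' d x := fun d x => (p8_rest hF d x).1
  have hnu0 : ∀ d x, 0 ≤ nu s φ d x := fun d x =>
    div_nonneg (p8_ind_nonneg _) (Nat.cast_nonneg _)
  have hle : ∀ d x, nu s φ d x ≤ nuF s F d x := fun d x => by
    have := hq0 d x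
    simp only [hq'] at this
    linarith
  have hnuF1 : ∀ d x, nuF s F d x ≤ 1 := by
    intro d x
    unfold nuF
    rw [div_le_one hs0']
    exact le_trans (p8_ind_le_one _) hs1
  have hq1 : ∀ d x, q' d x ≤ 1 := fun d x => by
    have h1 := hnuF1 d x
    have h2 := hnu0 d x
    simp only [hq']
    linarith
  have hsF : ∀ d, ∑ x, nuF s F d x = 1 := fun d => p8_sumF F hs0 hP.cR d
  have hsn : ∀ d, 1 - 2 / b ^ 30 ≤ ∑ x, nu s φ d x := by
    intro d
    rw [p8_sumnu, le_div_iff₀ hs0']
    refine le_trans ?_ (hc.lo d)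
    apply mul_le_mul_of_nonneg_right _ hs0'.le
    have h1 : 1 / b ^ 50 ≤ 1 / b ^ 30 :=
      one_div_le_one_div_of_le (by positivity) (pow_le_pow_right₀ hb1 (by norm_num))
    have h2 : 2 / b ^ 30 = 1 / b ^ 30 + 1 / b ^ 30 := by ring
    linarith
  have hsn1 : ∀ d, ∑ x, nu s φ d x ≤ 1 := fun d => by
    rw [← hsF d]
    exact Finset.sum_le_sum (fun x _ => hle d x)
  have hsn0 : ∀ d, 0 ≤ ∑ x, nu s φ d x := fun d => Finset.sum_nonneg (fun x _ => hnu0 d x)
  have hsq : ∀ d, ∑ x, q' d x ≤ 2 / b ^ 30 := by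
    intro d
    have h1 := hsn d
    simp only [hq', Finset.sum_sub_distrib, hsF d]
    linarith
  have hsq0 : ∀ d, 0 ≤ ∑ x, q' d x := fun d => Finset.sum_nonneg (fun x _ => hq0 d x)
  have hX : 0 < Fintype.card X := by
    rw [hP.cX]
    have h1 : (1 : ℝ) ≤ N := le_trans (one_le_pow₀ hb1) hN.hNb
    exact_mod_cast (by linarith : (0 : ℝ) < N)
  have hO : 0 < Fintype.card Ob := by
    rw [hP.cO, ← hP.cX]
    exact hX
  constructor
  · intro Φ C h0 hC
    obtain ⟨x0⟩ := Fintype.card_pos_iff.1 hX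
    obtain ⟨o0⟩ := Fintype.card_pos_iff.1 hO
    have hC0 : 0 ≤ C := le_trans (h0 o0 (fun _ => x0)) (hC _ _)
    have hpw : ∀ o S, pw P.D (nu s φ) o S ≤ pw P.D (nuF s F) o S := by
      intro o S
      unfold pw
      exact Finset.prod_le_prod (fun i _ => hnu0 _ _) (fun i _ => hle _ _)
    refine ⟨?_, ?_⟩
    · unfold tot
      exact Finset.sum_le_sum (fun o _ => Finset.sum_le_sum (fun S _ =>
        mul_le_mul_of_nonneg_right (hpw o S) (h0 o S)))
    · have h1 : ∀ o, ∑ S, pw P.D (nuF s F) o S * Φ o S ≤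
          ∑ S, pw P.D (nu s φ) o S * Φ o S + C / b ^ 28 := by
        intro o
        have h2 : ∑ S, pw P.D (nuF s F) o S * Φ o S - ∑ S, pw P.D (nu s φ) o S * Φ o S ≤
            (∑ S, pw P.D (nuF s F) o S - ∑ S, pw P.D (nu s φ) o S) * C := by
          rw [← Finset.sum_sub_distrib, ← Finset.sum_sub_distrib, Finset.sum_mul]
          apply Finset.sum_le_sum
          intro S _
          rw [← sub_mul]
          exact mul_le_mul_of_nonneg_left (hC o S) (sub_nonneg.2 (hpw o S))
        have h3 : ∑ S, pw P.D (nuF s F) o S = 1 := by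
          unfold pw
          rw [p8_sum_prod (fun i x => nuF s F (P.D o i) x)]
          simp only [hsF, Finset.prod_const_one]
        have h4 : 1 - n * (2 / b ^ 30) ≤ ∑ S, pw P.D (nu s φ) o S := by
          unfold pw
          rw [p8_sum_prod (fun i x => nu s φ (P.D o i) x)]
          refine le_trans ?_ (p8_one_sub univ (fun i => ∑ x, nu s φ (P.D o i) x)
            (fun i => hsn0 _) (fun i => hsn1 _))
          have h5 : ∑ i : Fin n, (1 - ∑ x, nu s φ (P.D o i) x) ≤ ∑ _i : Fin n, (2 / b ^ 30) :=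
            Finset.sum_le_sum (fun i _ => by linarith [hsn (P.D o i)])
          rw [Finset.sum_const, Finset.card_univ, Fintype.card_fin, nsmul_eq_mul] at h5
          linarith
        have h6 : (n : ℝ) * (2 / b ^ 30) ≤ 1 / b ^ 28 := by
          rw [← mul_div_assoc, div_le_div_iff₀ (by positivity) (by positivity)]
          have h7 : b ^ 30 = b ^ 28 * b ^ 2 := by ring
          rw [h7, one_mul, mul_comm (b ^ 28) (b ^ 2)]
          apply mul_le_mul_of_nonneg_right _ (by positivity)
          nlinarith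
        have h8 : (∑ S, pw P.D (nuF s F) o S - ∑ S, pw P.D (nu s φ) o S) * C ≤
            1 / b ^ 28 * C := by
          apply mul_le_mul_of_nonneg_right _ hC0
          linarith
        have h9 : C / b ^ 28 = 1 / b ^ 28 * C := by ring
        linarith
      unfold tot
      calc ∑ o, ∑ S, pw P.D (nuF s F) o S * Φ o S
          ≤ ∑ o, (∑ S, pw P.D (nu s φ) o S * Φ o S + C / b ^ 28) :=
            Finset.sum_le_sum (fun o _ => h1 o)
        _ = ∑ o, ∑ S, pw P.D (nu s φ) o S * Φ o S + N * C / b ^ 28 := by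
            rw [Finset.sum_add_distrib, Finset.sum_const, Finset.card_univ, hP.cO, nsmul_eq_mul,
              mul_div_assoc]
  · -- the bad tuples
    have hsplit : ∀ o (S : Fin n → X), pw P.D (nuF s F) o S = ∑ A : Finset (Fin n),
        (∏ i ∈ A, q' (P.D o i) (S i)) * ∏ i ∈ Aᶜ, nu s φ (P.D o i) (S i) := by
      intro o S
      unfold pw
      rw [← Fintype.prod_add]
      apply Finset.prod_congr rfl
      intro i _
      simp only [hq']
      ring
    have hsmall : ∀ o (S : Fin n → X) (A : Finset (Fin n)),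
        (∏ i ∈ A, q' (P.D o i) (S i)) * (∏ i ∈ Aᶜ, nu s φ (P.D o i) (S i)) *
          ind (¬ P.good o S) ≤
        ind (¬ P.good o S ∧ ∀ i ∈ A, P.Q (P.D o i) (S i) ≠ 0) *
          ∏ i ∈ Aᶜ, nu s φ (P.D o i) (S i) := by
      intro o S A
      have h1 : 0 ≤ ∏ i ∈ Aᶜ, nu s φ (P.D o i) (S i) := Finset.prod_nonneg (fun i _ => hnu0 _ _)
      have h2 : (∏ i ∈ A, q' (P.D o i) (S i)) * ind (¬ P.good o S) ≤
          ind (¬ P.good o S ∧ ∀ i ∈ A, P.Q (P.D o i) (S i) ≠ 0) := by
        by_cases hg : P.good o S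
        · rw [show ind (¬ P.good o S) = 0 from if_neg (not_not.2 hg), mul_zero]
          exact p8_ind_nonneg _
        · by_cases hQ : ∀ i ∈ A, P.Q (P.D o i) (S i) ≠ 0
          · rw [show ind (¬ P.good o S ∧ ∀ i ∈ A, P.Q (P.D o i) (S i) ≠ 0) = 1 from
              if_pos ⟨hg, hQ⟩]
            have h3 : ∏ i ∈ A, q' (P.D o i) (S i) ≤ 1 :=
              Finset.prod_le_one (fun i _ => hq0 _ _) (fun i _ => hq1 _ _)
            have h4 : 0 ≤ ∏ i ∈ A, q' (P.D o i) (S i) := Finset.prod_nonneg (fun i _ => hq0 _ _)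
            exact mul_le_one₀ h3 (p8_ind_nonneg _) (p8_ind_le_one _)
          · push Not at hQ
            obtain ⟨i, hi, hi2⟩ := hQ
            have h3 : ∏ i ∈ A, q' (P.D o i) (S i) = 0 := by
              apply Finset.prod_eq_zero hi
              by_contra h4
              exact (p8_rest hF (P.D o i) (S i)).2 h4 hi2
            rw [h3, zero_mul]
            exact p8_ind_nonneg _
      calc (∏ i ∈ A, q' (P.D o i) (S i)) * (∏ i ∈ Aᶜ, nu s φ (P.D o i) (S i)) *
          ind (¬ P.good o S) = ((∏ i ∈ A, q' (P.D o i) (S i)) * ind (¬ P.good o S)) *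
          (∏ i ∈ Aᶜ, nu s φ (P.D o i) (S i)) := by ring
        _ ≤ _ := mul_le_mul_of_nonneg_right h2 h1
    have hbig : ∀ o, ∑ A ∈ univ.filter (fun A : Finset (Fin n) => ¬ A.card ≤ 300),
        ∑ S : Fin n → X, (∏ i ∈ A, q' (P.D o i) (S i)) *
          (∏ i ∈ Aᶜ, nu s φ (P.D o i) (S i)) * ind (¬ P.good o S) ≤ 3 / b ^ 8700 := by
      intro o
      have h1 : ∀ A : Finset (Fin n), ∑ S : Fin n → X, (∏ i ∈ A, q' (P.D o i) (S i)) *
          (∏ i ∈ Aᶜ, nu s φ (P.D o i) (S i)) * ind (¬ P.good o S) ≤ (2 / b ^ 30) ^ A.card := by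
        intro A
        calc ∑ S : Fin n → X, (∏ i ∈ A, q' (P.D o i) (S i)) *
            (∏ i ∈ Aᶜ, nu s φ (P.D o i) (S i)) * ind (¬ P.good o S)
            ≤ ∑ S : Fin n → X, (∏ i ∈ A, q' (P.D o i) (S i)) *
              (∏ i ∈ Aᶜ, nu s φ (P.D o i) (S i)) := by
              apply Finset.sum_le_sum
              intro S _
              apply mul_le_of_le_one_right _ (p8_ind_le_one _)
              exact mul_nonneg (Finset.prod_nonneg (fun i _ => hq0 _ _))
                (Finset.prod_nonneg (fun i _ => hnu0 _ _))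
          _ = (∏ i ∈ A, ∑ x, q' (P.D o i) x) * ∏ i ∈ Aᶜ, ∑ x, nu s φ (P.D o i) x :=
              p8_sum_prod2 (fun i x => q' (P.D o i) x) (fun i x => nu s φ (P.D o i) x) A
          _ ≤ (∏ i ∈ A, (2 / b ^ 30)) * 1 := by
              apply mul_le_mul
              · exact Finset.prod_le_prod (fun i _ => hsq0 _) (fun i _ => hsq _)
              · exact Finset.prod_le_one (fun i _ => hsn0 _) (fun i _ => hsn1 _)
              · exact Finset.prod_nonneg (fun i _ => hsn0 _)
              · exact Finset.prod_nonneg (fun i _ => by positivity)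
          _ = (2 / b ^ 30) ^ A.card := by rw [mul_one, Finset.prod_const]
      refine le_trans (Finset.sum_le_sum (fun A _ => h1 A)) ?_
      refine le_trans (p8_big (2 / b ^ 30) (b ^ 29) (by positivity) (one_le_pow₀ hb1) 300) ?_
      have h2 : 2 / b ^ 30 * b ^ 29 = 2 / b := by
        field_simp
      have h3 : (b ^ 29) ^ 300 = b ^ 8700 := by
        rw [← pow_mul]
      rw [h2, h3]
      apply div_le_div_of_nonneg_right _ (by positivity)
      have h4 : (1 + 2 / b) ^ n ≤ Real.exp (2 / b) ^ n := by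
        apply pow_le_pow_left₀ (by positivity)
        have := Real.add_one_le_exp (2 / b)
        linarith
      rw [← Real.exp_nat_mul] at h4
      refine le_trans h4 ?_
      have h5 : (n : ℝ) * (2 / b) ≤ 1 := by
        rw [← mul_div_assoc, div_le_one hb0]
        linarith
      refine le_trans (Real.exp_le_exp.2 h5) ?_
      have := Real.exp_one_lt_d9
      linarith
    have hbad := hc.bad
    unfold badSum at hbad
    have hNb : (N : ℝ) * (3 / b ^ 8700) ≤ 1 / 8 := by
      have h1 : (N : ℝ) * (3 / b ^ 8700) ≤ b ^ 6000 * (3 / b ^ 8700) :=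
        mul_le_mul_of_nonneg_right hN.hbN (by positivity)
      have h2 : b ^ 6000 * (3 / b ^ 8700) = 3 / b ^ 2700 := by
        rw [show b ^ 8700 = b ^ 6000 * b ^ 2700 by rw [← pow_add], ← mul_div_assoc,
          mul_div_mul_left _ _ (by positivity)]
      have h3 : b ≤ b ^ 2700 := le_self_pow₀ hb1 (by norm_num)
      rw [h2] at h1
      refine le_trans h1 ?_
      rw [div_le_div_iff₀ (by positivity) (by norm_num)]
      linarith
    unfold tot
    calc ∑ o, ∑ S, pw P.D (nuF s F) o S * ind (¬ P.good o S)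
        = ∑ o, ∑ A : Finset (Fin n), ∑ S : Fin n → X, (∏ i ∈ A, q' (P.D o i) (S i)) *
            (∏ i ∈ Aᶜ, nu s φ (P.D o i) (S i)) * ind (¬ P.good o S) := by
          apply Finset.sum_congr rfl
          intro o _
          rw [Finset.sum_comm]
          apply Finset.sum_congr rfl
          intro S _
          rw [hsplit o S, Finset.sum_mul]
      _ = ∑ o, (∑ A ∈ univ.filter (fun A : Finset (Fin n) => A.card ≤ 300),
            ∑ S : Fin n → X, (∏ i ∈ A, q' (P.D o i) (S i)) *
            (∏ i ∈ Aᶜ, nu s φ (P.D o i) (S i)) * ind (¬ P.good o S) +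
          ∑ A ∈ univ.filter (fun A : Finset (Fin n) => ¬ A.card ≤ 300),
            ∑ S : Fin n → X, (∏ i ∈ A, q' (P.D o i) (S i)) *
            (∏ i ∈ Aᶜ, nu s φ (P.D o i) (S i)) * ind (¬ P.good o S)) := by
          apply Finset.sum_congr rfl
          intro o _
          rw [Finset.sum_filter_add_sum_filter_not]
      _ ≤ ∑ o, (∑ A ∈ univ.filter (fun A : Finset (Fin n) => A.card ≤ 300),
            ∑ S : Fin n → X, ind (¬ P.good o S ∧ ∀ i ∈ A, P.Q (P.D o i) (S i) ≠ 0) *
              ∏ i ∈ Aᶜ, nu s φ (P.D o i) (S i) + 3 / b ^ 8700) := by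
          apply Finset.sum_le_sum
          intro o _
          exact add_le_add (Finset.sum_le_sum (fun A _ => Finset.sum_le_sum (fun S _ =>
            hsmall o S A))) (hbig o)
      _ = (∑ o, ∑ A ∈ univ.filter (fun A : Finset (Fin n) => A.card ≤ 300),
            ∑ S : Fin n → X, ind (¬ P.good o S ∧ ∀ i ∈ A, P.Q (P.D o i) (S i) ≠ 0) *
              ∏ i ∈ Aᶜ, nu s φ (P.D o i) (S i)) + N * (3 / b ^ 8700) := by
          rw [Finset.sum_add_distrib, Finset.sum_const, Finset.card_univ, hP.cO, nsmul_eq_mul]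
      _ ≤ 1 / 8 + 1 / 8 := add_le_add hbad hNb
      _ = 1 / 4 := by norm_num

end Pool.Agent.FQ
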