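import Pool.Agent.FQ.PDefs

/-!
# Project FQ, row P9: the permutations
-/

set_option autoImplicit false

namespace Pool.Agent.FQ

open Finset Classical
open Pool.Agent.H73.Cube (EE Loc exists_good)

namespace P9

/-- The basic numerical facts. -/
theorem num1 {n N s : ℕ} {b : ℝ} (h : Num n N s b) :
    1000 ≤ b ∧ (n : ℝ) ≤ b ∧ 2 * (n : ℝ) + 3 ≤ b ∧ (1 : ℝ) ≤ s ∧ (1 : ℝ) ≤ N := by
  have hn : (1000 : ℝ) ≤ n := by exact_mod_cast h.hn
  have h1 : (n : ℝ) ^ 2 ≤ b :=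
    (pow_le_pow_right₀ (by linarith) (by norm_num : (2 : ℕ) ≤ 400)).trans h.hnb
  have h2 : 1000 * (n : ℝ) ≤ b := by nlinarith
  have h3 : (1000 : ℝ) ≤ b := by linarith
  have h4 : (1 : ℝ) ≤ b ^ 300 := one_le_pow₀ (by linarith)
  have h5 : (1 : ℝ) ≤ b ^ 5000 := one_le_pow₀ (by linarith)
  exact ⟨h3, by linarith, by linarith, h4.trans h.hsb, h5.trans h.hNb⟩

/-- `b ≤ N / (8 n² s b⁴⁸)`. -/
theorem num2 {n N s : ℕ} {b : ℝ} (h : Num n N s b) :
    b * (8 * (n : ℝ) ^ 2 * s * b ^ 48) ≤ N := by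
  obtain ⟨hb, hn, -, hs, hN⟩ := num1 h
  have hb0 : (0 : ℝ) < b := by linarith
  have h1 : (n : ℝ) ^ 2 ≤ b ^ 2 := pow_le_pow_left₀ (Nat.cast_nonneg n) hn 2
  calc b * (8 * (n : ℝ) ^ 2 * s * b ^ 48) ≤ b * (b * b ^ 2 * b ^ 400 * b ^ 48) := by
        have h2 : 8 * (n : ℝ) ^ 2 ≤ b * b ^ 2 :=
          mul_le_mul (by linarith) h1 (by positivity) hb0.le
        have h3 : 8 * (n : ℝ) ^ 2 * s ≤ b * b ^ 2 * b ^ 400 :=
          mul_le_mul h2 h.hbs (Nat.cast_nonneg s) (by positivity)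
        exact mul_le_mul_of_nonneg_left (mul_le_mul_of_nonneg_right h3 (by positivity)) hb0.le
    _ = b ^ 452 := by ring
    _ ≤ b ^ 5000 := pow_le_pow_right₀ (by linarith) (by norm_num)
    _ ≤ N := h.hNb

/-- The exponents. -/
theorem num3 {n N s : ℕ} {b : ℝ} (h : Num n N s b) (M : ℝ) (hM : M * s = N) :
    0 < M * ((n * s : ℕ) * (2 * b ^ 12 / N)) ^ 2 ∧
    b ≤ (1 / b ^ 12) ^ 2 / (2 * (M * ((n * s : ℕ) * (2 * b ^ 12 / N)) ^ 2)) ∧
    0 < M * ((n * s : ℕ) * (1 : ℝ)) ^ 2 ∧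
    b ≤ (N / (8 * b)) ^ 2 / (2 * (M * ((n * s : ℕ) * (1 : ℝ)) ^ 2)) := by
  obtain ⟨hb, hn, -, hs, hN⟩ := num1 h
  have hb0 : (0 : ℝ) < b := by linarith
  have hs0 : (0 : ℝ) < s := by linarith
  have hN0 : (0 : ℝ) < N := by linarith
  have hn0 : (0 : ℝ) < n := by
    have : (1000 : ℝ) ≤ n := by exact_mod_cast h.hn
    linarith
  have hM0 : 0 < M := by
    by_contra hc
    push Not at hc
    have : M * s ≤ 0 := mul_nonpos_of_nonpos_of_nonneg hc hs0.le
    linarith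
  have hMe : M = N / s := by
    rw [eq_div_iff hs0.ne']
    exact hM
  have h2 := num2 h
  push_cast
  refine ⟨by positivity, ?_, by positivity, ?_⟩
  · rw [le_div_iff₀ (by positivity)]
    have e : b * (2 * (M * ((n : ℝ) * s * (2 * b ^ 12 / N)) ^ 2)) =
        (b * (8 * (n : ℝ) ^ 2 * s * b ^ 48)) / N * (1 / b ^ 12) ^ 2 := by
      rw [hMe]
      field_simp
      try ring
    rw [e]
    have h3 : (b * (8 * (n : ℝ) ^ 2 * s * b ^ 48)) / N ≤ 1 := by
      rw [div_le_one hN0]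
      exact h2
    have h4 : (0 : ℝ) ≤ (1 / b ^ 12) ^ 2 := by positivity
    calc _ ≤ 1 * (1 / b ^ 12) ^ 2 := mul_le_mul_of_nonneg_right h3 h4
      _ = (1 / b ^ 12) ^ 2 := one_mul _
  · rw [le_div_iff₀ (by positivity)]
    have e : b * (2 * (M * ((n : ℝ) * s * 1) ^ 2)) =
        (b * (8 * (n : ℝ) ^ 2 * s * b ^ 48)) * N / (4 * b ^ 48) := by
      rw [hMe]
      field_simp
      try ring
    rw [e]
    have h3 : (b * (8 * (n : ℝ) ^ 2 * s * b ^ 48)) * N / (4 * b ^ 48) ≤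
        N * N / (4 * b ^ 48) := by
      refine div_le_div_of_nonneg_right ?_ (by positivity)
      exact mul_le_mul_of_nonneg_right h2 hN0.le
    refine h3.trans ?_
    have e2 : ((N : ℝ) / (8 * b)) ^ 2 = N * N / (64 * b ^ 2) := by
      field_simp
      try ring
    rw [e2]
    refine div_le_div_of_nonneg_left (by positivity) (by positivity) ?_
    have h5 : b ^ 2 * 1000 ≤ b ^ 2 * b ^ 46 := by
      refine mul_le_mul_of_nonneg_left ?_ (by positivity)
      calc (1000 : ℝ) ≤ b := hb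
        _ = b ^ 1 := (pow_one b).symm
        _ ≤ b ^ 46 := pow_le_pow_right₀ (by linarith) (by norm_num)
    have h6 : b ^ 48 = b ^ 2 * b ^ 46 := by ring
    have h7 : (0 : ℝ) < b ^ 2 := by positivity
    linarith

/-- The union bound. -/
theorem num4 {n N s : ℕ} {b : ℝ} (h : Num n N s b) :
    ((N : ℝ) + N * N) * (2 * Real.exp (-b)) ≤ 1 / 4 := by
  obtain ⟨hb, -, hn, hs, hN⟩ := num1 h
  have h1 : (N : ℝ) ≤ Real.exp n := h.hNn
  have h2 : (N : ℝ) * N ≤ Real.exp n * Real.exp n :=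
    mul_le_mul h1 h1 (by linarith) (Real.exp_pos _).le
  have h3 : (N : ℝ) ≤ N * N := by nlinarith
  have h4 : (N : ℝ) + N * N ≤ 2 * Real.exp (2 * n) := by
    have : Real.exp (2 * n) = Real.exp n * Real.exp n := by
      rw [← Real.exp_add]
      ring_nf
    rw [this]
    linarith
  have h5 : ((N : ℝ) + N * N) * (2 * Real.exp (-b)) ≤
      2 * Real.exp (2 * n) * (2 * Real.exp (-b)) :=
    mul_le_mul_of_nonneg_right h4 (by positivity)
  refine h5.trans ?_
  have h6 : 2 * Real.exp (2 * n) * (2 * Real.exp (-b)) = 4 * Real.exp (2 * n + -b) := by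
    rw [Real.exp_add]
    ring
  rw [h6]
  have h7 : Real.exp (2 * n + -b) ≤ Real.exp (-3) := Real.exp_le_exp.2 (by linarith)
  have h8 : Real.exp (-3) ≤ 1 / 16 := by
    rw [Real.exp_neg, inv_eq_one_div]
    refine one_div_le_one_div_of_le (by norm_num) ?_
    have h9 : (2.7 : ℝ) ≤ Real.exp 1 := by
      have := Real.exp_one_gt_d9
      linarith
    have h10 : Real.exp 3 = Real.exp 1 ^ 3 := by
      rw [← Real.exp_nat_mul]
      norm_num
    rw [h10]
    calc (16 : ℝ) ≤ 2.7 ^ 3 := by norm_num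
      _ ≤ Real.exp 1 ^ 3 := pow_le_pow_left₀ (by norm_num) h9 3
  linarith

theorem ind_nonneg (p : Prop) : 0 ≤ ind p := by
  unfold ind
  split_ifs <;> norm_num

theorem ind_le_one (p : Prop) : ind p ≤ 1 := by
  unfold ind
  split_ifs <;> norm_num

end P9

theorem p9 (h7 : P7Statement) (h8 : P8Statement) : P9Statement := by
  intro X Y Ob Dl R _ _ _ _ _ _ _ _ _ _ n N s b P φ F hnum hP hφ hF
  obtain ⟨hb, -, -, hs, hN⟩ := P9.num1 hnum
  have hb0 : (0 : ℝ) < b := by linarith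
  have hN0 : (0 : ℝ) < N := by linarith
  have hM : ((Fintype.card Dl : ℕ) : ℝ) * s = N := by exact_mod_cast hP.cD
  obtain ⟨v1, t1, v2, t2⟩ := P9.num3 hnum (Fintype.card Dl : ℝ) hM
  obtain ⟨h81, h82⟩ := h8 X Y Ob Dl R n N s b P φ F hnum hP hφ hF
  let K : Loc Dl (Equiv.Perm R) Ob X n :=
    { D := P.D
      D_inj := hP.inj
      val := fun o i π => F (P.D o i, π (P.pos o i)) }
  let Φ : Y ⊕ (Y × Y) → Ob → (Fin n → X) → ℝ :=
    Sum.elim (fun y o S => P.w o S y) (fun p => two P.ok p.1 p.2)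
  let C : Y ⊕ (Y × Y) → ℝ := Sum.elim (fun _ => 2 * b ^ 12 / N) (fun _ => 1)
  let t : Y ⊕ (Y × Y) → ℝ := Sum.elim (fun _ => 1 / b ^ 12) (fun _ => N / (8 * b))
  have hC : ∀ m, 0 ≤ C m := by
    rintro (y | p)
    · change 0 ≤ 2 * b ^ 12 / (N : ℝ)
      positivity
    · exact zero_le_one
  have hΦ0 : ∀ m o S, 0 ≤ Φ m o S := by
    rintro (y | p) o S
    · exact hP.w0 o S y
    · exact P9.ind_nonneg _
  have hΦ1 : ∀ m o S, Φ m o S ≤ C m := by
    rintro (y | p) o S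
    · change P.w o S y ≤ 2 * b ^ 12 / (N : ℝ)
      rw [le_div_iff₀ hN0]
      exact hP.wle o S y
    · exact P9.ind_le_one _
  have hmean : ∀ Ψ : Ob → (Fin n → X) → ℝ,
      EE (fun (_ : Dl) (_ : Equiv.Perm R) => (1 : ℝ) / Fintype.card (Equiv.Perm R))
        (fun π => ∑ o, Ψ o (K.S π o)) = tot P.D (nuF s F) Ψ := by
    intro Ψ
    have hs' : 1 ≤ s := by exact_mod_cast hs
    exact h7 X Ob Dl R n s P.D P.pos F Ψ hP.cR hs' hP.inj
  obtain ⟨π, -, hπ1, hπ2⟩ := exists_good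
    (P := fun (_ : Dl) (_ : Equiv.Perm R) => (1 : ℝ) / Fintype.card (Equiv.Perm R))
    (I := Y ⊕ (Y × Y)) (J := Unit)
    (fun _ _ => by positivity)
    (fun _ => by
      rw [Finset.sum_const, Finset.card_univ, nsmul_eq_mul, mul_one_div, div_self]
      exact_mod_cast Fintype.card_ne_zero)
    (fun m π => ∑ o, Φ m o (K.S π o)) (fun m _ => (n * s : ℕ) * C m)
    (fun m _ => mul_nonneg (Nat.cast_nonneg _) (hC m))
    (fun m d π a => K.lip (Φ m) (C m) (hC m) (hΦ0 m) (hΦ1 m) (n * s)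
      (fun d => by convert hP.cnt d) d π a)
    t (fun m => Fintype.card Dl * ((n * s : ℕ) * C m) ^ 2)
    (by
      rintro (y | p)
      · change 0 ≤ 1 / b ^ 12
        positivity
      · change 0 ≤ (N : ℝ) / (8 * b)
        positivity)
    (by
      rintro (y | p)
      · exact v1
      · exact v2)
    (fun m => by
      rw [Finset.sum_const, Finset.card_univ, nsmul_eq_mul])
    (fun _ π => ∑ o, ind (¬ P.good o (K.S π o)))
    (fun _ _ => Finset.sum_nonneg fun _ _ => P9.ind_nonneg _)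
    (fun _ => 1) (fun _ => one_pos)
    (by
      have e1 : ∀ m : Y ⊕ (Y × Y), 2 * Real.exp (-(t m ^ 2 /
          (2 * (Fintype.card Dl * ((n * s : ℕ) * C m) ^ 2)))) ≤ 2 * Real.exp (-b) := by
        intro m
        refine mul_le_mul_of_nonneg_left (Real.exp_le_exp.2 (neg_le_neg ?_)) (by norm_num)
        rcases m with y | p
        · exact t1
        · exact t2
      have e2 := Finset.sum_le_sum (s := (Finset.univ : Finset (Y ⊕ (Y × Y))))
        (fun m _ => e1 m)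
      rw [Finset.sum_const, Finset.card_univ, nsmul_eq_mul, Fintype.card_sum, Fintype.card_prod,
        hP.cY] at e2
      push_cast at e2
      have e3 := P9.num4 hnum
      have e4 : ∑ _j : Unit, EE (fun (_ : Dl) (_ : Equiv.Perm R) =>
          (1 : ℝ) / Fintype.card (Equiv.Perm R))
          (fun π => ∑ o, ind (¬ P.good o (K.S π o))) / 1 ≤ 1 / 4 := by
        rw [Finset.sum_const, Finset.card_univ, Fintype.card_unit, one_smul, div_one,
          hmean (fun o S => ind (¬ P.good o S))]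
        exact h82
      push_cast
      linarith)
  refine ⟨(Equiv.prodShear (Equiv.refl Dl) π).trans F, ?_, ?_, ?_⟩
  · intro o
    by_contra hc
    have h1 : (1 : ℝ) ≤ ∑ o, ind (¬ P.good o (K.S π o)) := by
      have h2 : ind (¬ P.good o (K.S π o)) = 1 := if_pos hc
      rw [← h2]
      exact Finset.single_le_sum (f := fun o => ind (¬ P.good o (K.S π o)))
        (fun _ _ => P9.ind_nonneg _) (Finset.mem_univ o)
    exact absurd (hπ2 ()) (not_lt.2 h1)
  · intro y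
    have h1 := hπ1 (Sum.inl y)
    rw [hmean] at h1
    have h2 := (h81 (Φ (Sum.inl y)) (C (Sum.inl y)) (hΦ0 _) (hΦ1 _)).2
    have h3 := (abs_le.1 (hφ.col y)).2
    have h4 := (abs_lt.1 h1).2
    have h5 : (N : ℝ) * (2 * b ^ 12 / N) / b ^ 28 = 2 / b ^ 16 := by
      field_simp
    have h6 : 2 / b ^ 16 ≤ 1 / b ^ 12 := by
      rw [div_le_div_iff₀ (by positivity) (by positivity)]
      have h7 : b ^ 12 * 2 ≤ b ^ 12 * b ^ 4 := by
        refine mul_le_mul_of_nonneg_left ?_ (by positivity)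
        calc (2 : ℝ) ≤ b := by linarith
          _ = b ^ 1 := (pow_one b).symm
          _ ≤ b ^ 4 := pow_le_pow_right₀ (by linarith) (by norm_num)
      calc 2 * b ^ 12 = b ^ 12 * 2 := by ring
        _ ≤ b ^ 12 * b ^ 4 := h7
        _ = 1 * b ^ 16 := by ring
    change (∑ o, P.w o (K.S π o) y) - _ < 1 / b ^ 12 at h4
    change tot P.D (nuF s F) _ ≤ tot P.D (nu s φ) _ + (N : ℝ) * (2 * b ^ 12 / N) / b ^ 28 at h2
    rw [h5] at h2
    change (∑ o, P.w o (K.S π o) y) ≤ 1 + 4 / b ^ 12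
    have h8 : 4 / b ^ 12 = 2 / b ^ 12 + 1 / b ^ 12 + 1 / b ^ 12 := by ring
    have h9 : tot P.D (nu s φ) (Φ (Sum.inl y)) - 1 ≤ 2 / b ^ 12 := h3
    linarith
  · intro y y'
    have h1 := hπ1 (Sum.inr (y, y'))
    rw [hmean] at h1
    have h2 := (h81 (Φ (Sum.inr (y, y'))) (C (Sum.inr (y, y'))) (hΦ0 _) (hΦ1 _)).1
    have h3 := hφ.pair y y'
    have h4 := (abs_lt.1 h1).1
    change -((N : ℝ) / (8 * b)) < (∑ o, two P.ok y y' o (K.S π o)) - _ at h4
    have h5 : ∑ o, two P.ok y y' o (K.S π o) =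
        ((univ.filter (fun o => y ∈ NbS P.ok (K.S π o) ∧ y' ∈ NbS P.ok (K.S π o))).card : ℝ) := by
      rw [Finset.card_filter, Nat.cast_sum]
      refine Finset.sum_congr rfl fun o _ => ?_
      unfold two ind
      split_ifs <;> simp
    have h6 : (N : ℝ) / (4 * b) ≤ tot P.D (nu s φ) (two P.ok y y') := by
      rw [div_le_iff₀ (by positivity)]
      exact h3
    have h7 : tot P.D (nu s φ) (two P.ok y y') ≤ tot P.D (nuF s F) (two P.ok y y') := h2
    have h8 : (N : ℝ) / (4 * b) = N / (8 * b) + N / (8 * b) := by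
      field_simp
      norm_num
    have h9 : (N : ℝ) / (8 * b) ≤ ∑ o, two P.ok y y' o (K.S π o) := by
      have h10 : -((N : ℝ) / (8 * b)) < (∑ o, two P.ok y y' o (K.S π o)) -
        tot P.D (nuF s F) (two P.ok y y') := h4
      linarith
    rw [h5, div_le_iff₀ (by positivity)] at h9
    have h10 : (0 : ℝ) ≤ ((univ.filter (fun o => y ∈ NbS P.ok (K.S π o) ∧
        y' ∈ NbS P.ok (K.S π o))).card : ℝ) * b := by positivity
    change (N : ℝ) ≤ ((univ.filter (fun o => y ∈ NbS P.ok (K.S π o) ∧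
        y' ∈ NbS P.ok (K.S π o))).card : ℝ) * (16 * b)
    linarith

end Pool.Agent.FQ
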