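import Pool.Agent.FQ.Defs

/-!
# Project FQ, row PI: products of indicators of distinct values
-/

set_option autoImplicit false

namespace Pool.Agent.FQ

open Finset Classical
open Pool.Agent.H73.Cube (EE Loc)

namespace PI

theorem ind_true {p : Prop} (h : p) : ind p = 1 := if_pos h

theorem ind_false {p : Prop} (h : ¬ p) : ind p = 0 := if_neg h

/-- One coordinate: the value of the sum if the set is small. -/
theorem one_eq {Dl : Type} [Fintype Dl] [DecidableEq Dl] {n : ℕ} (D : Fin n → Dl)
    (p : Option Dl → ℝ) (hp : ∑ a, p a = 1) (A : Finset (Fin n))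
    (hA : ∀ i ∈ A, ∀ j ∈ A, i = j) :
    ∑ a, p a * ∏ i ∈ A, ind (a = some (D i)) = ∏ i ∈ A, p (some (D i)) := by
  rcases A.eq_empty_or_nonempty with rfl | ⟨i, hi⟩
  · simp only [Finset.prod_empty, mul_one]
    exact hp
  · have h1 : A = {i} := by
      ext j
      rw [Finset.mem_singleton]
      exact ⟨fun hj => hA j hj i hi, fun hj => hj ▸ hi⟩
    rw [h1]
    simp only [Finset.prod_singleton]
    rw [Finset.sum_eq_single (some (D i))]
    · rw [ind_true rfl, mul_one]
    · intro a _ ha
      rw [ind_false ha, mul_zero]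
    · intro h
      exact absurd (Finset.mem_univ _) h

/-- One coordinate: the bound. -/
theorem one_le {Dl : Type} [Fintype Dl] [DecidableEq Dl] {n : ℕ} (D : Fin n → Dl)
    (hD : Function.Injective D) (p : Option Dl → ℝ) (hp0 : ∀ a, 0 ≤ p a) (hp : ∑ a, p a = 1)
    (A : Finset (Fin n)) :
    ∑ a, p a * ∏ i ∈ A, ind (a = some (D i)) ≤ ∏ i ∈ A, p (some (D i)) := by
  by_cases hA : ∀ i ∈ A, ∀ j ∈ A, i = j
  · exact (one_eq D p hp A hA).le
  · push Not at hA
    obtain ⟨i, hi, j, hj, hij⟩ := hA
    have h0 : ∑ a, p a * ∏ i ∈ A, ind (a = some (D i)) = 0 := by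
      refine Finset.sum_eq_zero fun a _ => ?_
      by_cases ha : a = some (D i)
      · rw [Finset.prod_eq_zero hj, mul_zero]
        refine ind_false fun h => hij (hD ?_)
        exact Option.some_injective _ (ha.symm.trans h)
      · rw [Finset.prod_eq_zero hi (ind_false ha), mul_zero]
    rw [h0]
    exact Finset.prod_nonneg fun i _ => hp0 _

/-- The expectation is a product over the coordinates. -/
theorem fact {ι Dl : Type} [Fintype ι] [DecidableEq ι] [Fintype Dl] [DecidableEq Dl]
    (P : ι → Option Dl → ℝ) {n : ℕ} (D : Fin n → Dl) (S : Fin n → ι) (T : Finset (Fin n)) :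
    EE P (fun ω => ∏ i ∈ T, ind (ω (S i) = some (D i))) =
      ∏ x, ∑ a, P x a * ∏ i ∈ T.filter (fun i => S i = x), ind (a = some (D i)) := by
  rw [Fintype.prod_sum]
  unfold EE
  refine Finset.sum_congr rfl fun ω _ => ?_
  rw [Finset.prod_mul_distrib]
  congr 1
  beta_reduce
  rw [← Finset.prod_fiberwise_of_maps_to (s := T) (t := Finset.univ) (g := S)
    (fun i _ => Finset.mem_univ (S i)) (fun i => ind (ω (S i) = some (D i)))]
  refine Finset.prod_congr rfl fun x _ => ?_
  refine Finset.prod_congr rfl fun i hi => ?_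
  rw [(Finset.mem_filter.1 hi).2]

theorem fact' {ι Dl : Type} [Fintype ι] [DecidableEq ι]
    (P : ι → Option Dl → ℝ) {n : ℕ} (D : Fin n → Dl) (S : Fin n → ι) (T : Finset (Fin n)) :
    ∏ i ∈ T, P (S i) (some (D i)) =
      ∏ x, ∏ i ∈ T.filter (fun i => S i = x), P x (some (D i)) := by
  rw [← Finset.prod_fiberwise_of_maps_to (s := T) (t := Finset.univ) (g := S)
    (fun i _ => Finset.mem_univ (S i)) (fun i => P (S i) (some (D i)))]
  refine Finset.prod_congr rfl fun x _ => ?_
  refine Finset.prod_congr rfl fun i hi => ?_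
  rw [(Finset.mem_filter.1 hi).2]

end PI

theorem prod_ind : ProdIndStatement := by
  intro ι Dl _ _ _ _ P n D S T hP0 hP1 hD
  constructor
  · rw [PI.fact, PI.fact']
    refine Finset.prod_le_prod (fun x _ => ?_) (fun x _ => ?_)
    · refine Finset.sum_nonneg fun a _ => mul_nonneg (hP0 x a) (Finset.prod_nonneg fun i _ => ?_)
      unfold ind
      split_ifs <;> norm_num
    · exact PI.one_le D hD (P x) (hP0 x) (hP1 x) _
  · intro hS
    rw [PI.fact, PI.fact']
    refine Finset.prod_congr rfl fun x _ => ?_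
    refine PI.one_eq D (P x) (hP1 x) _ fun i hi j hj => hS ?_
    rw [(Finset.mem_filter.1 hi).2, (Finset.mem_filter.1 hj).2]

end Pool.Agent.FQ
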