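import Pool.Agent.FQ.SDefs

/-!
# Project FQ, row S1: the potential (helper15)
-/

set_option autoImplicit false
set_option linter.unusedSectionVars false

namespace Pool.Agent.FQ

open Finset Classical
open Pool.Agent.H73.Cube (EE Loc EE_const EE_add EE_smul EE_sum EE_mono EE_nonneg)

theorem s1_split {X : Type} [Fintype X] (q ψ : X → ℝ) (h1 : ∑ x', q x' = 1) (x : X) :
    q x * (1 + ψ x - ∑ x', q x' * ψ x') = q x + ∑ x', (ψ x - ψ x') * (q x * q x') := by
  have h2 : ∑ x', (ψ x - ψ x') * (q x * q x') =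
      q x * ψ x * ∑ x', q x' - q x * ∑ x', q x' * ψ x' := by
    rw [Finset.mul_sum, Finset.mul_sum, ← Finset.sum_sub_distrib]
    refine Finset.sum_congr rfl fun x' _ => ?_
    ring
  rw [h2, h1]
  ring

theorem s1 (hLap : LapStatement) : S1Statement := by
  intro X Y Ob St Th _ _ _ _ _ _ _ _ _ _ n N s L μ lam b M hN hM
  have hn : (1000 : ℝ) ≤ n := by exact_mod_cast hN.hn
  have hn0 : (0 : ℝ) < n := by linarith
  have hb0 : 0 < b := lt_of_lt_of_le (pow_pos hn0 400) hN.hnb
  have hN0 : (0 : ℝ) < N := lt_of_lt_of_le (pow_pos hb0 5000) hN.hNb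
  have hNn : 0 < N := by exact_mod_cast hN0
  have hS0 : (0 : ℝ) < Fintype.card St := by exact_mod_cast hM.cS
  have hne : Nonempty X := Fintype.card_pos_iff.1 (by rw [hM.cX]; exact hNn)
  obtain ⟨Z, hZ⟩ : ∃ Z : X → X → ℝ, ∀ x x', Z x x' =
    EE M.P (fun ω => ∑ h, M.q h ω x * M.q h ω x') := ⟨_, fun _ _ => rfl⟩
  obtain ⟨g, hg⟩ : ∃ g : X → ℝ, ∀ x, g x = EE M.P (fun ω => ∑ h, M.q h ω x) := ⟨_, fun _ => rfl⟩
  obtain ⟨k, hk⟩ : ∃ k : ℝ, k = Fintype.card St / ((n : ℝ) ^ 3 * N) := ⟨_, rfl⟩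
  have hk0 : 0 < k := by rw [hk]; positivity
  have hsymm : ∀ x x', (N : ℝ) * Z x x' = N * Z x' x := by
    intro x x'
    rw [hZ, hZ]
    congr 2
    funext ω
    exact Finset.sum_congr rfl fun h _ => mul_comm _ _
  have hlow : ∀ x x', x ≠ x' → k ≤ N * Z x x' := by
    intro x x' _
    have h1 : 1 / ((n : ℝ) * N) ^ 2 * (Fintype.card St / n) ≤ Z x x' := by
      refine le_trans (mul_le_mul_of_nonneg_left (hM.g5 x x') (by positivity)) ?_
      rw [hZ, ← EE_smul]
      refine EE_mono hM.P0 fun ω _ => ?_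
      rw [Finset.mul_sum]
      refine Finset.sum_le_sum fun h _ => ?_
      have hq := hM.q0 h ω x
      have hq' := hM.q0 h ω x'
      unfold ind
      split_ifs with hc
      · have e1 : 1 / ((n : ℝ) * N) ≤ M.q h ω x := by
          rw [div_le_iff₀ (by positivity)]
          have := (div_le_iff₀ hn0).1 hc.1
          linarith
        have e2 : 1 / ((n : ℝ) * N) ≤ M.q h ω x' := by
          rw [div_le_iff₀ (by positivity)]
          have := (div_le_iff₀ hn0).1 hc.2
          linarith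
        have e3 : 1 / ((n : ℝ) * N) ^ 2 * 1 = 1 / ((n : ℝ) * N) * (1 / ((n : ℝ) * N)) := by
          field_simp
        rw [e3]
        exact mul_le_mul e1 e2 (by positivity) hq
      · rw [mul_zero]
        exact mul_nonneg hq hq'
    have h2 : k = N * (1 / ((n : ℝ) * N) ^ 2 * (Fintype.card St / n)) := by
      rw [hk]
      field_simp
    rw [h2]
    exact mul_le_mul_of_nonneg_left h1 hN0.le
  have hsum : ∑ x, ((Fintype.card St : ℝ) - N * g x) = 0 := by
    have h1 : ∑ x, g x = Fintype.card St := by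
      have h2 : ∑ x, g x = EE M.P (fun ω => ∑ x, ∑ h, M.q h ω x) := by
        rw [EE_sum]
        exact Finset.sum_congr rfl fun x _ => hg x
      rw [h2, show (fun ω : Th → Y => ∑ x, ∑ h, M.q h ω x) =
        fun _ => (Fintype.card St : ℝ) from ?_]
      · exact EE_const hM.P1 _
      · funext ω
        rw [Finset.sum_comm, Finset.sum_congr rfl fun h _ => hM.q1 h ω, Finset.sum_const,
          Finset.card_univ, nsmul_eq_mul, mul_one]
    rw [Finset.sum_sub_distrib, ← Finset.mul_sum, h1, Finset.sum_const, Finset.card_univ,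
      nsmul_eq_mul, hM.cX]
    ring
  have hf : ∀ x, |(Fintype.card St : ℝ) - N * g x| ≤ Fintype.card St / (n : ℝ) ^ 5 := by
    intro x
    rw [abs_sub_comm, mul_comm, hg]
    exact hM.g1 x
  obtain ⟨ψ, hψ1, hψ2⟩ := hLap X (fun x x' => N * Z x x') k (Fintype.card St / (n : ℝ) ^ 5)
    (fun x => (Fintype.card St : ℝ) - N * g x) hk0 hsymm hlow hsum hf
  refine ⟨ψ, fun x => ?_, fun x => ?_⟩
  · have h1 := hψ2 x
    rw [hM.cX, hk] at h1
    have h2 : |ψ x| * ((Fintype.card St : ℝ) / ((n : ℝ) ^ 3 * N) * N) =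
        |ψ x| * (n : ℝ) ^ 2 * (Fintype.card St / (n : ℝ) ^ 5) := by
      field_simp
    rw [h2] at h1
    have h3 : (0 : ℝ) < Fintype.card St / (n : ℝ) ^ 5 := by positivity
    have h4 : |ψ x| * (n : ℝ) ^ 2 ≤ 1 := by
      by_contra hc
      push Not at hc
      have := mul_lt_mul_of_pos_right hc h3
      linarith
    rw [le_div_iff₀ (by positivity)]
    exact h4
  · have h1 : EE M.P (fun ω => ∑ h, qc M.q ψ h ω x) = g x + ∑ x', (ψ x - ψ x') * Z x x' := by
      have h2 : (fun ω : Th → Y => ∑ h, qc M.q ψ h ω x) = fun ω => (∑ h, M.q h ω x) +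
          ∑ x', (ψ x - ψ x') * ∑ h, M.q h ω x * M.q h ω x' := by
        funext ω
        have h3 : ∀ h, qc M.q ψ h ω x = M.q h ω x +
            ∑ x', (ψ x - ψ x') * (M.q h ω x * M.q h ω x') :=
          fun h => s1_split (M.q h ω) ψ (hM.q1 h ω) x
        rw [Finset.sum_congr rfl fun h _ => h3 h, Finset.sum_add_distrib, Finset.sum_comm]
        congr 1
        refine Finset.sum_congr rfl fun x' _ => ?_
        rw [Finset.mul_sum]
      rw [h2, EE_add, hg]
      congr 1
      rw [EE_sum]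
      refine Finset.sum_congr rfl fun x' _ => ?_
      rw [EE_smul, hZ]
    have h2 := hψ1 x
    have h3 : ∑ x', N * Z x x' * (ψ x - ψ x') = N * ∑ x', (ψ x - ψ x') * Z x x' := by
      rw [Finset.mul_sum]
      refine Finset.sum_congr rfl fun x' _ => ?_
      ring
    rw [h3] at h2
    rw [h1]
    linarith

end Pool.Agent.FQ
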