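import Pool.Agent.FQ.SDefs

/-!
# Project FQ, row S10: the weights
-/

set_option autoImplicit false

namespace Pool.Agent.FQ

open Finset Classical
open Pool.Agent.H73.Cube (EE EE_sum EE_smul EE_const EE_nonneg)

theorem s10_b {n N s : ℕ} {b : ℝ} (h : Num n N s b) : 1000 ≤ b := by
  have h1 : (1000 : ℝ) ≤ n := by exact_mod_cast h.hn
  have h2 : (n : ℝ) ≤ (n : ℝ) ^ 400 := le_self_pow₀ (by linarith) (by norm_num)
  linarith [h.hnb]

theorem s10_N {n N s : ℕ} {b : ℝ} (h : Num n N s b) : (1 : ℝ) ≤ N := by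
  have h1 := s10_b h
  have h2 : (1 : ℝ) ≤ b ^ 5000 := one_le_pow₀ (by linarith)
  linarith [h.hNb]

section

variable {X Y Ob St Th : Type} [Fintype X] [Fintype Y] [Fintype Ob] [Fintype St] [Fintype Th]
  [DecidableEq X] [DecidableEq Y] [DecidableEq Ob] [DecidableEq St] [DecidableEq Th] {n : ℕ}

/-- The law of the nodes. -/
noncomputable def s10pi (M : Sd X Y Ob St Th n) (N : ℕ) (ψ : X → ℝ) (i : Ob × (Fin n → X)) : ℝ :=
  EE M.P (fun ω => ∏ j, qc M.q ψ (M.sb i.1 j) ω (i.2 j)) / N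

theorem s10_an (M : Sd X Y Ob St Th n) (N : ℕ) (ψ : X → ℝ) (hN : (N : ℝ) ≠ 0)
    (Φ : Ob → (Fin n → X) → ℝ) :
    an M ψ Φ = N * ∑ i, s10pi M N ψ i * Φ i.1 i.2 := by
  unfold an tot
  rw [EE_sum, Fintype.sum_prod_type, Finset.mul_sum]
  refine Finset.sum_congr rfl fun o _ => ?_
  rw [EE_sum, Finset.mul_sum]
  refine Finset.sum_congr rfl fun S _ => ?_
  have e : (fun ω => pw M.sb (fun h => qc M.q ψ h ω) o S * Φ o S) =
      fun ω => Φ o S * ∏ i, qc M.q ψ (M.sb o i) ω (S i) := by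
    funext ω
    unfold pw
    exact mul_comm _ _
  rw [e, EE_smul]
  unfold s10pi
  field_simp

theorem s10_sum (M : Sd X Y Ob St Th n) (N : ℕ) (ψ : X → ℝ) (hN : (N : ℝ) ≠ 0)
    (hO : Fintype.card Ob = N) (hP : ∀ θ, ∑ y, M.P θ y = 1)
    (h1 : ∀ h ω, ∑ x, qc M.q ψ h ω x = 1) : ∑ i, s10pi M N ψ i = 1 := by
  have h2 : ∀ o, ∑ S : Fin n → X, s10pi M N ψ (o, S) = 1 / N := by
    intro o
    unfold s10pi
    rw [← Finset.sum_div, ← EE_sum]
    congr 1
    have e : (fun ω => ∑ S : Fin n → X, ∏ j, qc M.q ψ (M.sb o j) ω (S j)) = fun _ => (1 : ℝ) := by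
      funext ω
      rw [← Fintype.prod_sum]
      exact Finset.prod_eq_one fun j _ => h1 _ _
    rw [e]
    exact EE_const hP 1
  rw [Fintype.sum_prod_type, Finset.sum_congr rfl fun o _ => h2 o, Finset.sum_const,
    Finset.card_univ, hO, nsmul_eq_mul]
  field_simp

end

theorem s10 (h2 : S2Statement) (h6 : S6Statement) (h7 : S7Statement) (h8 : S8Statement)
    (h9 : S9Statement) : S10Statement := by
  intro X Y Ob St Th _ _ _ _ _ _ _ _ _ _ n N s L μ lam b M ψ hN hM hψ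
  obtain ⟨a0, a1, -⟩ := h2 X Y Ob St Th n N s L μ lam b M ψ hN hM hψ
  have hb := s10_b hN
  have hN1 := s10_N hN
  have hN0 : (0 : ℝ) < N := by linarith
  have han := s10_an M N ψ hN0.ne'
  obtain ⟨w, b0, b1, b2, b3, b4, b5⟩ := h9 (Ob × (Fin n → X)) Y N b (s10pi M N ψ)
    (fun i => NbS M.ok i.2) hM.cY (by exact_mod_cast hN0) hb
    (fun i => div_nonneg (EE_nonneg hM.P0 fun ω => Finset.prod_nonneg fun j _ => a0 _ _ _) hN0.le)
    (s10_sum M N ψ hN0.ne' hM.cO hM.P1 a1)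
    (by
      intro W hW
      have h3 := h6 X Y Ob St Th n N s L μ lam b M ψ W hN hM hψ hW
      rw [han] at h3
      have h4 : 1 / b ^ 50 ≤ (N : ℝ) * (1 / b ^ 50) :=
        le_mul_of_one_le_left (by positivity) hN1
      have h5 : (N : ℝ) * (1 - (Wᶜ.card : ℝ) / (2 * N) - 1 / b ^ 50) =
          N - (Wᶜ.card : ℝ) / 2 - N * (1 / b ^ 50) := by
        field_simp
      refine le_of_mul_le_mul_left ?_ hN0
      refine le_trans ?_ h3
      rw [h5]
      linarith)
    (by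
      intro W hW hW'
      have h3 := h7 X Y Ob St Th n N s L μ lam b M ψ W hN hM hψ hW hW'
      rw [han] at h3
      refine le_of_mul_le_mul_left ?_ hN0
      refine le_trans (le_of_eq ?_) h3
      field_simp)
    (by
      intro y
      have h3 := (h8 X Y Ob St Th n N s L μ lam b M ψ hN hM hψ).1 y
      rw [han] at h3
      refine le_of_mul_le_mul_left ?_ hN0
      refine le_trans (le_of_eq (mul_comm _ _)) (h3.trans (le_of_eq ?_))
      exact mul_assoc _ _ _)
  refine ⟨fun o S y => w (o, S) y, ⟨fun o S y => b0 _ _, fun o S y => b1 _ _,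
    fun o S y hy => b2 (o, S) y hy, fun o S h => b3 (o, S) h,
    fun o S h y hy => b4 (o, S) h y hy⟩, fun y => ?_⟩
  rw [han]
  exact b5 y

end Pool.Agent.FQ
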