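import Pool.Agent.FQ.SDefs

/-!
# Project FQ, row S11: the statistics of the seeds are Lipschitz
-/

set_option autoImplicit false

namespace Pool.Agent.FQ

open Finset Classical
open Pool.Agent.H73.Cube (EE Loc)

/-- sums which differ only on a small set -/
private theorem s11_sum {ι : Type} [Fintype ι] (f g : ι → ℝ) (I : Finset ι) (c : ℝ)
    (h : ∀ i, i ∉ I → f i = g i) (hc : ∀ i, |f i - g i| ≤ c) :
    |∑ i, f i - ∑ i, g i| ≤ I.card * c := by
  rw [← sum_sub_distrib]
  have h1 : ∑ i, (f i - g i) = ∑ i ∈ I, (f i - g i) := by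
    symm
    refine sum_subset (subset_univ _) fun i _ hi => ?_
    rw [h i hi, sub_self]
  rw [h1]
  refine (abs_sum_le_sum_abs _ _).trans ?_
  calc ∑ i ∈ I, |f i - g i| ≤ ∑ _i ∈ I, c := sum_le_sum fun i _ => hc i
    _ = I.card * c := by rw [sum_const, nsmul_eq_mul]

private theorem s11_ind (p q : Prop) : |ind p - ind q| ≤ 1 := by
  unfold ind
  split_ifs <;> norm_num

/-- the total mass of a product of laws -/
private theorem s11_mass {X St : Type} [Fintype X] (n : ℕ) (k : Fin n → St)
    (q : St → X → ℝ) (hq : ∀ h, ∑ x, q h x = 1) : ∑ S : Fin n → X, ∏ i, q (k i) (S i) = 1 := by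
  have h1 := prod_univ_sum (fun _ : Fin n => (univ : Finset X)) (fun i x => q (k i) x)
  rw [Fintype.piFinset_univ] at h1
  rw [← h1]
  exact prod_eq_one fun i _ => hq (k i)

theorem s11 (h2 : S2Statement) : S11Statement := by
  intro X Y Ob St Th _ _ _ _ _ _ _ _ _ _ n N s L μ lam b M ψ hnum hM hψ ω θ y
  obtain ⟨a0, a1, a2, -, -, -, a7⟩ := h2 X Y Ob St Th n N s L μ lam b M ψ hnum hM hψ
  set ω' : Th → Y := Function.update ω θ y with hω'
  have hb0 : 0 < b := by
    have h3 : (0 : ℝ) < (n : ℝ) ^ 400 := by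
      have : (0 : ℝ) < n := by
        exact_mod_cast (lt_of_lt_of_le (by norm_num) hnum.hn)
      positivity
    exact lt_of_lt_of_le h3 hnum.hnb
  have hN : (0 : ℝ) < N := lt_of_lt_of_le (by positivity) hnum.hNb
  have hN' : 0 < N := by exact_mod_cast hN
  have heq : ∀ h, h ∉ M.Inf θ → qc M.q ψ h ω' = qc M.q ψ h ω := fun h hh => a7 θ h ω y hh
  have hle : ∀ h ω x, qc M.q ψ h ω x ≤ 2 * b ^ 7 / N := by
    intro h ω x
    rw [le_div_iff₀ hN]
    have h3 := a2 h ω x
    have h4 := hM.qle h ω x
    nlinarith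
  have hab : ∀ h x, |qc M.q ψ h ω' x - qc M.q ψ h ω x| ≤ 2 * b ^ 7 / N := by
    intro h x
    rw [abs_le]
    constructor
    · linarith [a0 h ω' x, hle h ω x]
    · linarith [a0 h ω x, hle h ω' x]
  refine ⟨fun x => ?_, fun x x' => ?_, fun Φ C hΦ0 hΦC => ?_⟩
  · exact s11_sum _ _ (M.Inf θ) _ (fun h hh => by rw [heq h hh]) fun h => hab h x
  · have h3 := s11_sum (fun h => ind (qc M.q ψ h ω' x ≠ 0 ∧ qc M.q ψ h ω' x' ≠ 0))
      (fun h => ind (qc M.q ψ h ω x ≠ 0 ∧ qc M.q ψ h ω x' ≠ 0)) (M.Inf θ) 1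
      (fun h hh => by simp only [heq h hh]) fun h => s11_ind _ _
    rw [mul_one] at h3
    exact h3
  · -- the sums over the tuples
    have hX : Nonempty X := by
      rw [← Fintype.card_pos_iff, hM.cX]
      exact hN'
    have hO : Nonempty Ob := by
      rw [← Fintype.card_pos_iff, hM.cO]
      exact hN'
    obtain ⟨x0⟩ := hX
    obtain ⟨o0⟩ := hO
    have hC : 0 ≤ C := (hΦ0 o0 fun _ => x0).trans (hΦC o0 fun _ => x0)
    have hT0 : ∀ ω o, 0 ≤ ∑ S, pw M.sb (fun h => qc M.q ψ h ω) o S * Φ o S := fun ω o =>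
      sum_nonneg fun S _ => mul_nonneg (prod_nonneg fun i _ => a0 _ _ _) (hΦ0 o S)
    have hTC : ∀ ω o, ∑ S, pw M.sb (fun h => qc M.q ψ h ω) o S * Φ o S ≤ C := by
      intro ω o
      calc ∑ S, pw M.sb (fun h => qc M.q ψ h ω) o S * Φ o S
          ≤ ∑ S, pw M.sb (fun h => qc M.q ψ h ω) o S * C :=
            sum_le_sum fun S _ => mul_le_mul_of_nonneg_left (hΦC o S)
              (prod_nonneg fun i _ => a0 _ _ _)
        _ = C := by
            rw [← sum_mul]
            have h3 : ∑ S, pw M.sb (fun h => qc M.q ψ h ω) o S = 1 :=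
              s11_mass n (M.sb o) (fun h => qc M.q ψ h ω) fun h => a1 h ω
            rw [h3, one_mul]
    set B : Finset Ob := univ.biUnion (fun i : Fin n => (M.Inf θ).biUnion
      (fun h => univ.filter (fun o => M.sb o i = h))) with hB
    have hBc : (B.card : ℝ) ≤ n * (M.Inf θ).card * (N / Fintype.card St) := by
      have hSt : (0 : ℝ) < Fintype.card St := by exact_mod_cast hM.cS
      have hreg : ∀ i h, (((univ.filter (fun o => M.sb o i = h)).card : ℕ) : ℝ) =
          N / Fintype.card St := by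
        intro i h
        rw [eq_div_iff hSt.ne']
        exact_mod_cast hM.reg i h
      have h3 : B.card ≤ ∑ i : Fin n, ∑ h ∈ M.Inf θ, (univ.filter (fun o => M.sb o i = h)).card :=
        card_biUnion_le.trans (sum_le_sum fun i _ => card_biUnion_le)
      calc (B.card : ℝ) ≤ ((∑ i : Fin n, ∑ h ∈ M.Inf θ,
              (univ.filter (fun o => M.sb o i = h)).card : ℕ) : ℝ) := by exact_mod_cast h3
        _ = ∑ _i : Fin n, ∑ _h ∈ M.Inf θ, (N : ℝ) / Fintype.card St := by
            push_cast
            exact sum_congr rfl fun i _ => sum_congr rfl fun h _ => hreg i h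
        _ = n * (M.Inf θ).card * (N / Fintype.card St) := by
            rw [sum_const, sum_const, card_univ, Fintype.card_fin, nsmul_eq_mul, nsmul_eq_mul]
            ring
    have h3 := s11_sum (fun o => ∑ S, pw M.sb (fun h => qc M.q ψ h ω') o S * Φ o S)
      (fun o => ∑ S, pw M.sb (fun h => qc M.q ψ h ω) o S * Φ o S) B C (by
        intro o ho
        refine sum_congr rfl fun S _ => ?_
        have h4 : pw M.sb (fun h => qc M.q ψ h ω') o S = pw M.sb (fun h => qc M.q ψ h ω) o S := by
          unfold pw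
          refine prod_congr rfl fun i _ => ?_
          have h5 : M.sb o i ∉ M.Inf θ := by
            intro h6
            refine ho ?_
            rw [hB, mem_biUnion]
            refine ⟨i, mem_univ _, ?_⟩
            rw [mem_biUnion]
            exact ⟨M.sb o i, h6, mem_filter.2 ⟨mem_univ _, rfl⟩⟩
          exact congrFun (heq _ h5) (S i)
        rw [h4]) (by
        intro o
        rw [abs_le]
        constructor
        · linarith [hT0 ω' o, hTC ω o]
        · linarith [hT0 ω o, hTC ω' o])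
    refine h3.trans (mul_le_mul_of_nonneg_right hBc hC)

end Pool.Agent.FQ
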