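import Pool.Agent.FQ.SDefs

/-!
# Project FQ, row S12: good seeds
-/

set_option autoImplicit false

namespace Pool.Agent.FQ

open Finset Classical
open Pool.Agent.H73.Cube (EE Loc exists_good EE_mono EE_nonneg)

theorem s12_sumsq {Th : Type} [Fintype Th] (c : Th → ℝ) (T B : ℝ) (hB : 0 < B)
    (h : ∀ θ, (Fintype.card Th : ℝ) * c θ ^ 2 * B ≤ T ^ 2) : ∑ θ, c θ ^ 2 ≤ T ^ 2 / B := by
  rw [le_div_iff₀ hB, sum_mul]
  rcases Nat.eq_zero_or_pos (Fintype.card Th) with h0 | h0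
  · have : IsEmpty Th := Fintype.card_eq_zero_iff.1 h0
    simp [sq_nonneg]
  · have h0' : (0 : ℝ) < Fintype.card Th := by exact_mod_cast h0
    have : ∀ θ ∈ (univ : Finset Th), c θ ^ 2 * B ≤ T ^ 2 / Fintype.card Th := by
      intro θ _
      rw [le_div_iff₀ h0']
      have := h θ
      nlinarith
    calc ∑ θ, c θ ^ 2 * B ≤ ∑ θ : Th, T ^ 2 / Fintype.card Th := sum_le_sum this
      _ = T ^ 2 := by
        rw [sum_const, nsmul_eq_mul, card_univ]
        field_simp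

theorem s12_sumsq' {Th : Type} [Fintype Th] (c : Th → ℝ) (T B k V : ℝ) (hB : 0 < B)
    (h : ∀ θ, (Fintype.card Th : ℝ) * c θ ^ 2 * B ≤ T ^ 2) (hV : k ^ 2 * (T ^ 2 / B) ≤ V) :
    ∑ θ, (k * c θ) ^ 2 ≤ V := by
  have := s12_sumsq c T B hB h
  calc ∑ θ, (k * c θ) ^ 2 = k ^ 2 * ∑ θ, c θ ^ 2 := by
        rw [mul_sum]
        exact sum_congr rfl fun θ _ => by ring
    _ ≤ k ^ 2 * (T ^ 2 / B) := mul_le_mul_of_nonneg_left this (sq_nonneg _)
    _ ≤ V := hV

theorem s12_exp (t V e : ℝ) (hV : 0 < V) (h : e * (2 * V) ≤ t ^ 2) :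
    2 * Real.exp (-(t ^ 2 / (2 * V))) ≤ 2 * Real.exp (-e) := by
  have : e ≤ t ^ 2 / (2 * V) := by
    rw [le_div_iff₀ (by positivity)]
    exact h
  have := Real.exp_le_exp.2 (neg_le_neg this)
  linarith

theorem s12 (h2 : S2Statement) (h3 : S3Statement) (h8 : S8Statement) (h11 : S11Statement) :
    S12Statement := by
  intro X Y Ob St Th _ _ _ _ _ _ _ _ _ _ n N s L μ lam b M ψ w hN hM hψ hU hw hcol
  have hn : (1000 : ℝ) ≤ n := by exact_mod_cast hN.hn
  have hn1 : (1 : ℝ) ≤ (n : ℝ) := by linarith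
  have hn0 : (0 : ℝ) < (n : ℝ) := by linarith
  have hnb3 : (n : ℝ) ^ 3 ≤ b := le_trans (pow_le_pow_right₀ hn1 (by norm_num)) hN.hnb
  have hnb : (n : ℝ) ≤ b := le_trans (le_self_pow₀ hn1 (by norm_num)) hN.hnb
  have hb : (1000 : ℝ) ≤ b := le_trans hn hnb
  have hb0 : (0 : ℝ) < b := by linarith
  have hb1 : (1 : ℝ) ≤ b := by linarith
  have hN0 : (0 : ℝ) < N := lt_of_lt_of_le (pow_pos hb0 5000) hN.hNb
  have hT0 : (0 : ℝ) < (Fintype.card St : ℝ) := by exact_mod_cast hM.cS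
  set T : ℝ := (Fintype.card St : ℝ) with hT
  obtain ⟨q0, q1, qle2, qge2, -, -, -⟩ := h2 X Y Ob St Th n N s L μ lam b M ψ hN hM hψ
  have hbs := h3 X Y Ob St Th n N s L μ lam b M ψ hN hM hψ
  obtain ⟨-, hpair⟩ := h8 X Y Ob St Th n N s L μ lam b M ψ hN hM hψ
  have hlip := h11 X Y Ob St Th n N s L μ lam b M ψ hN hM hψ
  have hinf : ∀ θ, (Fintype.card Th : ℝ) * ((M.Inf θ).card : ℝ) ^ 2 * b ^ 250 ≤ T ^ 2 := hM.infl
  have hB : (0 : ℝ) < b ^ 250 := pow_pos hb0 _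
  -- the families
  let F1 : X → (Th → Y) → ℝ := fun x ω => ∑ h, qc M.q ψ h ω x
  let F2 : Y → (Th → Y) → ℝ := fun y ω =>
    tot M.sb (fun h => qc M.q ψ h ω) (fun o S => w o S y)
  let F3 : Y × Y → (Th → Y) → ℝ := fun p ω =>
    tot M.sb (fun h => qc M.q ψ h ω) (two M.ok p.1 p.2)
  let F4 : X × X → (Th → Y) → ℝ := fun p ω =>
    ∑ h, ind (qc M.q ψ h ω p.1 ≠ 0 ∧ qc M.q ψ h ω p.2 ≠ 0)
  let k1 : ℝ := 2 * b ^ 7 / N
  let k2 : ℝ := n * (N / T) * (2 * b ^ 12 / N)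
  let k3 : ℝ := n * (N / T)
  let k4 : ℝ := 1
  let V1 : ℝ := 4 * b ^ 14 * T ^ 2 / (N ^ 2 * b ^ 250)
  let V2 : ℝ := 4 * n ^ 2 * b ^ 24 / b ^ 250
  let V3 : ℝ := n ^ 2 * N ^ 2 / b ^ 250
  let V4 : ℝ := T ^ 2 / b ^ 250
  let t1 : ℝ := T / (N * b ^ 60)
  let t2 : ℝ := 1 / b ^ 16
  let t3 : ℝ := N / (20 * b)
  let t4 : ℝ := T / (2 * n)
  let F : (X ⊕ Y) ⊕ ((Y × Y) ⊕ (X × X)) → (Th → Y) → ℝ :=
    Sum.elim (Sum.elim F1 F2) (Sum.elim F3 F4)
  let k : (X ⊕ Y) ⊕ ((Y × Y) ⊕ (X × X)) → ℝ :=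
    Sum.elim (Sum.elim (fun _ => k1) (fun _ => k2)) (Sum.elim (fun _ => k3) (fun _ => k4))
  let V : (X ⊕ Y) ⊕ ((Y × Y) ⊕ (X × X)) → ℝ :=
    Sum.elim (Sum.elim (fun _ => V1) (fun _ => V2)) (Sum.elim (fun _ => V3) (fun _ => V4))
  let t : (X ⊕ Y) ⊕ ((Y × Y) ⊕ (X × X)) → ℝ :=
    Sum.elim (Sum.elim (fun _ => t1) (fun _ => t2)) (Sum.elim (fun _ => t3) (fun _ => t4))
  let G : Bool → (Th → Y) → ℝ := fun j ω => if j then ∑ o, ind (M.fail o ω) else bsum M N b ψ ω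
  let τ : Bool → ℝ := fun j => if j then 1 else 1 / 32
  have hk0 : ∀ m, 0 ≤ k m := by
    rintro ((x | y) | (p | p))
    · show 0 ≤ k1
      positivity
    · show 0 ≤ k2
      positivity
    · show 0 ≤ k3
      positivity
    · show (0 : ℝ) ≤ 1
      norm_num
  have hV0 : ∀ m, 0 < V m := by
    rintro ((x | y) | (p | p))
    · show 0 < V1
      positivity
    · show 0 < V2
      positivity
    · show 0 < V3
      positivity
    · show 0 < V4
      positivity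
  have ht0 : ∀ m, 0 ≤ t m := by
    rintro ((x | y) | (p | p))
    · show 0 ≤ t1
      positivity
    · show 0 ≤ t2
      positivity
    · show 0 ≤ t3
      positivity
    · show 0 ≤ t4
      positivity
  have hF : ∀ m i ω a, |F m (Function.update ω i a) - F m ω| ≤ k m * ((M.Inf i).card : ℝ) := by
    rintro ((x | y) | (p | p)) i ω a
    · have := (hlip ω i a).1 x
      show |F1 x (Function.update ω i a) - F1 x ω| ≤ k1 * _
      rw [mul_comm]
      exact this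
    · have := (hlip ω i a).2.2 (fun o S => w o S y) (2 * b ^ 12 / N) (fun o S => hw.w0 o S y)
        (fun o S => by
          rw [le_div_iff₀ hN0]
          exact hw.wle o S y)
      show |F2 y (Function.update ω i a) - F2 y ω| ≤ k2 * _
      refine this.trans (le_of_eq ?_)
      show _ = n * (N / T) * (2 * b ^ 12 / N) * _
      ring
    · have := (hlip ω i a).2.2 (two M.ok p.1 p.2) 1
        (fun o S => by
          unfold two ind
          split_ifs <;> norm_num)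
        (fun o S => by
          unfold two ind
          split_ifs <;> norm_num)
      show |F3 p (Function.update ω i a) - F3 p ω| ≤ k3 * _
      refine this.trans (le_of_eq ?_)
      show _ = n * (N / T) * _
      ring
    · have := (hlip ω i a).2.1 p.1 p.2
      show |F4 p (Function.update ω i a) - F4 p ω| ≤ 1 * _
      rw [one_mul]
      exact this
  have hcV : ∀ m, ∑ i, (k m * ((M.Inf i).card : ℝ)) ^ 2 ≤ V m := by
    rintro ((x | y) | (p | p))
    · refine s12_sumsq' _ T (b ^ 250) k1 V1 hB hinf (le_of_eq ?_)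
      show (2 * b ^ 7 / N) ^ 2 * (T ^ 2 / b ^ 250) = 4 * b ^ 14 * T ^ 2 / (N ^ 2 * b ^ 250)
      field_simp
      ring
    · refine s12_sumsq' _ T (b ^ 250) k2 V2 hB hinf (le_of_eq ?_)
      show (n * (N / T) * (2 * b ^ 12 / N)) ^ 2 * (T ^ 2 / b ^ 250) =
        4 * n ^ 2 * b ^ 24 / b ^ 250
      field_simp
      ring
    · refine s12_sumsq' _ T (b ^ 250) k3 V3 hB hinf (le_of_eq ?_)
      show (n * (N / T)) ^ 2 * (T ^ 2 / b ^ 250) = n ^ 2 * N ^ 2 / b ^ 250
      field_simp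
    · refine s12_sumsq' _ T (b ^ 250) k4 V4 hB hinf (le_of_eq ?_)
      show (1 : ℝ) ^ 2 * (T ^ 2 / b ^ 250) = T ^ 2 / b ^ 250
      ring
  have hG : ∀ j ω, 0 ≤ G j ω := by
    intro j ω
    cases j
    · show 0 ≤ bsum M N b ψ ω
      unfold bsum
      refine sum_nonneg fun o _ => sum_nonneg fun A _ => sum_nonneg fun S _ => mul_nonneg ?_ ?_
      · unfold ind
        split_ifs <;> norm_num
      · exact prod_nonneg fun i _ => q0 _ _ _
    · show 0 ≤ ∑ o, ind (M.fail o ω)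
      refine sum_nonneg fun o _ => ?_
      unfold ind
      split_ifs <;> norm_num
  have hτ : ∀ j, 0 < τ j := by
    intro j
    cases j
    · show (0 : ℝ) < 1 / 32
      norm_num
    · show (0 : ℝ) < 1
      norm_num
  -- powers
  have hb16 : (1000 : ℝ) ≤ b ^ 16 := le_trans hb (le_self_pow₀ hb1 (by norm_num))
  have hn2b : (n : ℝ) ^ 2 ≤ b := le_trans (pow_le_pow_right₀ hn1 (by norm_num)) hnb3
  have e1 : b ^ 100 * (2 * V1) ≤ t1 ^ 2 := by
    show b ^ 100 * (2 * (4 * b ^ 14 * T ^ 2 / (N ^ 2 * b ^ 250))) ≤ (T / (N * b ^ 60)) ^ 2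
    have : (T / (N * b ^ 60)) ^ 2 - b ^ 100 * (2 * (4 * b ^ 14 * T ^ 2 / (N ^ 2 * b ^ 250))) =
        T ^ 2 / (N ^ 2 * b ^ 136) * (b ^ 16 - 8) := by
      field_simp
      ring
    have h' : 0 ≤ T ^ 2 / (N ^ 2 * b ^ 136) * (b ^ 16 - 8) :=
      mul_nonneg (by positivity) (by linarith)
    linarith
  have e2 : b ^ 100 * (2 * V2) ≤ t2 ^ 2 := by
    show b ^ 100 * (2 * (4 * n ^ 2 * b ^ 24 / b ^ 250)) ≤ (1 / b ^ 16) ^ 2
    have : (1 / b ^ 16) ^ 2 - b ^ 100 * (2 * (4 * n ^ 2 * b ^ 24 / b ^ 250)) =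
        1 / b ^ 126 * (b ^ 94 - 8 * n ^ 2) := by
      field_simp
      ring
    have h'' : 8 * (n : ℝ) ^ 2 ≤ b ^ 94 := by
      calc 8 * (n : ℝ) ^ 2 ≤ b * b := by nlinarith
        _ = b ^ 2 := by ring
        _ ≤ b ^ 94 := pow_le_pow_right₀ hb1 (by norm_num)
    have h' : 0 ≤ 1 / b ^ 126 * (b ^ 94 - 8 * n ^ 2) :=
      mul_nonneg (by positivity) (by linarith)
    linarith
  have e3 : b ^ 100 * (2 * V3) ≤ t3 ^ 2 := by
    show b ^ 100 * (2 * (n ^ 2 * N ^ 2 / b ^ 250)) ≤ (N / (20 * b)) ^ 2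
    have : (N / (20 * b)) ^ 2 - b ^ 100 * (2 * (n ^ 2 * N ^ 2 / b ^ 250)) =
        N ^ 2 / (400 * b ^ 150) * (b ^ 148 - 800 * n ^ 2) := by
      field_simp
      ring
    have h'' : 800 * (n : ℝ) ^ 2 ≤ b ^ 148 := by
      calc 800 * (n : ℝ) ^ 2 ≤ b * b := by nlinarith
        _ = b ^ 2 := by ring
        _ ≤ b ^ 148 := pow_le_pow_right₀ hb1 (by norm_num)
    have h' : 0 ≤ (N : ℝ) ^ 2 / (400 * b ^ 150) * (b ^ 148 - 800 * n ^ 2) :=
      mul_nonneg (by positivity) (by linarith)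
    linarith
  have e4 : b ^ 100 * (2 * V4) ≤ t4 ^ 2 := by
    show b ^ 100 * (2 * (T ^ 2 / b ^ 250)) ≤ (T / (2 * n)) ^ 2
    have : (T / (2 * n)) ^ 2 - b ^ 100 * (2 * (T ^ 2 / b ^ 250)) =
        T ^ 2 / (4 * n ^ 2 * b ^ 150) * (b ^ 150 - 8 * n ^ 2) := by
      field_simp
      ring
    have h'' : 8 * (n : ℝ) ^ 2 ≤ b ^ 150 := by
      calc 8 * (n : ℝ) ^ 2 ≤ b * b := by nlinarith
        _ = b ^ 2 := by ring
        _ ≤ b ^ 150 := pow_le_pow_right₀ hb1 (by norm_num)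
    have h' : 0 ≤ T ^ 2 / (4 * n ^ 2 * b ^ 150) * (b ^ 150 - 8 * n ^ 2) :=
      mul_nonneg (by positivity) (by linarith)
    linarith
  have hexp : ∀ m, 2 * Real.exp (-(t m ^ 2 / (2 * V m))) ≤ 2 * Real.exp (-b ^ 100) := by
    rintro ((x | y) | (p | p))
    · exact s12_exp t1 V1 (b ^ 100) (hV0 (Sum.inl (Sum.inl x))) e1
    · exact s12_exp t2 V2 (b ^ 100) (hV0 (Sum.inl (Sum.inr y))) e2
    · exact s12_exp t3 V3 (b ^ 100) (hV0 (Sum.inr (Sum.inl p))) e3
    · exact s12_exp t4 V4 (b ^ 100) (hV0 (Sum.inr (Sum.inr p))) e4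
  have hcard : (Fintype.card ((X ⊕ Y) ⊕ ((Y × Y) ⊕ (X × X))) : ℝ) = 2 * N + 2 * N ^ 2 := by
    simp only [Fintype.card_sum, Fintype.card_prod, hM.cX, hM.cY]
    push_cast
    ring
  have hN1 : (1 : ℝ) ≤ N := le_trans (one_le_pow₀ hb1) hN.hNb
  have hS1 : ∑ m, 2 * Real.exp (-(t m ^ 2 / (2 * V m))) ≤ 1 / 4 := by
    calc ∑ m, 2 * Real.exp (-(t m ^ 2 / (2 * V m)))
        ≤ ∑ _m : (X ⊕ Y) ⊕ ((Y × Y) ⊕ (X × X)), 2 * Real.exp (-b ^ 100) :=
          sum_le_sum fun m _ => hexp m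
      _ = (2 * N + 2 * N ^ 2) * (2 * Real.exp (-b ^ 100)) := by
          rw [sum_const, nsmul_eq_mul, card_univ, hcard]
      _ ≤ (4 * (Real.exp n) ^ 2) * (2 * Real.exp (-b ^ 100)) := by
          refine mul_le_mul_of_nonneg_right ?_ (by positivity)
          have h' := hN.hNn
          have : (N : ℝ) ^ 2 ≤ (Real.exp n) ^ 2 := pow_le_pow_left₀ hN0.le h' 2
          nlinarith
      _ = 8 * Real.exp (2 * n - b ^ 100) := by
          have g : Real.exp (2 * (n : ℝ)) = Real.exp n ^ 2 := by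
            rw [two_mul, Real.exp_add]
            ring
          rw [sub_eq_add_neg, Real.exp_add, g]
          ring
      _ ≤ 8 * Real.exp (-n) := by
          refine mul_le_mul_of_nonneg_left (Real.exp_le_exp.2 ?_) (by norm_num)
          have : b ^ 2 ≤ b ^ 100 := pow_le_pow_right₀ hb1 (by norm_num)
          nlinarith
      _ ≤ 1 / 4 := by
          rw [Real.exp_neg]
          have h' : (1001 : ℝ) ≤ Real.exp n := by
            have := Real.add_one_le_exp (n : ℝ)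
            linarith
          have : (Real.exp n)⁻¹ ≤ 1001⁻¹ := inv_anti₀ (by norm_num) h'
          norm_num at this ⊢
          linarith
  have hb100 : (1000 : ℝ) ≤ b ^ 100 := le_trans hb (le_self_pow₀ hb1 (by norm_num))
  have hi100 : 1 / b ^ 100 ≤ 1 / 1000 := one_div_le_one_div_of_le (by norm_num) hb100
  have hS2 : ∑ j, EE M.P (G j) / τ j ≤ 1 / 4 := by
    rw [Fintype.sum_bool]
    have a1 : EE M.P (G true) ≤ 1 / b ^ 100 := hM.failE
    have a2 : EE M.P (G false) ≤ 1 / b ^ 100 := hbs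
    show EE M.P (G true) / 1 + EE M.P (G false) / (1 / 32) ≤ 1 / 4
    have : EE M.P (G false) / (1 / 32) = 32 * EE M.P (G false) := by ring
    rw [this, div_one]
    linarith
  obtain ⟨ω, -, hω1, hω2⟩ := exists_good hM.P0 hM.P1 F (fun m i => k m * ((M.Inf i).card : ℝ))
    (fun m i => mul_nonneg (hk0 m) (Nat.cast_nonneg _)) hF t V ht0 hV0 hcV G hG τ hτ
    (by linarith)
  refine ⟨ω, ?_, ?_, ?_, ?_, ?_, ?_⟩
  · intro o ho
    have h' : ∑ o, ind (M.fail o ω) < 1 := hω2 true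
    have h'' : ind (M.fail o ω) ≤ ∑ o, ind (M.fail o ω) :=
      single_le_sum (f := fun o => ind (M.fail o ω)) (fun o _ => by
        show 0 ≤ ind (M.fail o ω)
        unfold ind
        split_ifs <;> norm_num) (mem_univ o)
    have h1 : ind (M.fail o ω) = 1 := by
      unfold ind
      rw [if_pos ho]
    linarith
  · intro x
    have h' : |F1 x ω - EE M.P (F1 x)| < t1 := hω1 (Sum.inl (Sum.inl x))
    have h'' : EE M.P (F1 x) * N = T := hU x
    have hE : EE M.P (F1 x) = T / N := by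
      rw [eq_div_iff hN0.ne']
      exact h''
    have : F1 x ω * (N / T) - 1 = (F1 x ω - EE M.P (F1 x)) * (N / T) := by
      rw [hE]
      field_simp
    show |F1 x ω * (N / T) - 1| ≤ 1 / b ^ 60
    rw [this, abs_mul, abs_of_pos (show 0 < (N : ℝ) / T by positivity)]
    calc |F1 x ω - EE M.P (F1 x)| * (N / T) ≤ t1 * (N / T) :=
          mul_le_mul_of_nonneg_right h'.le (by positivity)
      _ = 1 / b ^ 60 := by
          show T / (N * b ^ 60) * (N / T) = 1 / b ^ 60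
          field_simp
  · intro y
    have h' : |F2 y ω - EE M.P (F2 y)| < t2 := hω1 (Sum.inl (Sum.inr y))
    have h'' : |EE M.P (F2 y) - 1| ≤ 4 / b ^ 16 := hcol y
    show |F2 y ω - 1| ≤ 1 / b ^ 12
    calc |F2 y ω - 1| = |(F2 y ω - EE M.P (F2 y)) + (EE M.P (F2 y) - 1)| := by
          congr 1
          ring
      _ ≤ |F2 y ω - EE M.P (F2 y)| + |EE M.P (F2 y) - 1| := abs_add_le _ _
      _ ≤ 1 / b ^ 16 + 4 / b ^ 16 := add_le_add h'.le h''
      _ ≤ 1 / b ^ 12 := by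
          have : 1 / b ^ 12 - (1 / b ^ 16 + 4 / b ^ 16) = 1 / b ^ 16 * (b ^ 4 - 5) := by
            field_simp
            ring
          have hb4 : (1000 : ℝ) ≤ b ^ 4 := le_trans hb (le_self_pow₀ hb1 (by norm_num))
          have h3 : 0 ≤ 1 / b ^ 16 * (b ^ 4 - 5) := mul_nonneg (by positivity) (by linarith)
          linarith
  · intro y y'
    have h' : |F3 (y, y') ω - EE M.P (F3 (y, y'))| < t3 := hω1 (Sum.inr (Sum.inl (y, y')))
    have h'' : 3 / 5 * (N : ℝ) ≤ EE M.P (F3 (y, y')) * b := hpair y y'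
    show (N : ℝ) ≤ F3 (y, y') ω * (2 * b)
    have h3 := (abs_lt.1 h').1
    have h4 : t3 * b = N / 20 := by
      show N / (20 * b) * b = N / 20
      field_simp
    have h5 : (EE M.P (F3 (y, y')) - t3) * b < F3 (y, y') ω * b :=
      mul_lt_mul_of_pos_right (by linarith) hb0
    nlinarith
  · intro x x'
    have h' : |F4 (x, x') ω - EE M.P (F4 (x, x'))| < t4 := hω1 (Sum.inr (Sum.inr (x, x')))
    have h'' : T / n ≤ EE M.P (F4 (x, x')) := by
      refine (hM.g5 x x').trans ?_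
      refine EE_mono hM.P0 fun ω' _ => ?_
      show _ ≤ ∑ h, ind (qc M.q ψ h ω' x ≠ 0 ∧ qc M.q ψ h ω' x' ≠ 0)
      refine sum_le_sum fun h _ => ?_
      unfold ind
      split_ifs with c1 c2 c2
      · exact le_rfl
      · exfalso
        have key : ∀ z, 1 / (n : ℝ) ≤ M.q h ω' z * N → qc M.q ψ h ω' z ≠ 0 := by
          intro z hz hc
          have g1 := qge2 h ω' z
          rw [hc] at g1
          have g2 : 0 < M.q h ω' z * N := lt_of_lt_of_le (by positivity) hz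
          have g3 : 0 < M.q h ω' z := by
            by_contra hcon
            push Not at hcon
            nlinarith
          linarith
        exact c2 ⟨key x c1.1, key x' c1.2⟩
      · norm_num
      · norm_num
    have h3 := (abs_lt.1 h').1
    have h4 : T / n = 2 * t4 := by
      show T / n = 2 * (T / (2 * n))
      field_simp
    have h5 : t4 ≤ F4 (x, x') ω := by linarith
    show T ≤ F4 (x, x') ω * b ^ 4
    have hb4 : 2 * (n : ℝ) ≤ b ^ 4 := by
      calc 2 * (n : ℝ) ≤ b * b := by nlinarith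
        _ = b ^ 2 := by ring
        _ ≤ b ^ 4 := pow_le_pow_right₀ hb1 (by norm_num)
    calc T = t4 * (2 * n) := by
          show T = T / (2 * n) * (2 * n)
          field_simp
      _ ≤ F4 (x, x') ω * b ^ 4 := mul_le_mul h5 hb4 (by positivity)
          (le_trans (ht0 (Sum.inr (Sum.inr (x, x')))) h5)
  · have h' : bsum M N b ψ ω < 1 / 32 := hω2 false
    exact h'.le

end Pool.Agent.FQ
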