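import Pool.Agent.FQ.SDefs

/-!
# Project FQ, part II, row S3: bad tuples with adversarial coordinates
-/

set_option autoImplicit false

namespace Pool.Agent.FQ

open Finset Classical
open Pool.Agent.H73.Cube (EE Loc EE_sum EE_mono EE_smul)

/-- all seeds of `J` in a small set -/
theorem s3_prod {Th Y : Type} [Fintype Th] [DecidableEq Th] [Fintype Y] {P : Th → Y → ℝ}
    (P0 : ∀ θ y, 0 ≤ P θ y) (P1 : ∀ θ, ∑ y, P θ y = 1) (J : Finset Th) (B : Finset Y) (c : ℝ)
    (hc : ∀ θ, ∑ y ∈ B, P θ y ≤ c) :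
    EE P (fun ω => ind (∀ θ ∈ J, ω θ ∈ B)) ≤ c ^ J.card := by
  have h1 : EE P (fun ω => ind (∀ θ ∈ J, ω θ ∈ B)) =
      ∏ θ, ∑ y, P θ y * (if θ ∈ J then ind (y ∈ B) else 1) := by
    rw [Fintype.prod_sum]
    unfold EE
    refine Finset.sum_congr rfl fun ω _ => ?_
    rw [Finset.prod_mul_distrib]
    congr 1
    beta_reduce
    by_cases h : ∀ θ ∈ J, ω θ ∈ B
    · rw [ind, if_pos h]
      symm
      refine Finset.prod_eq_one fun θ _ => ?_
      split_ifs with hθ
      · rw [ind, if_pos (h θ hθ)]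
      · rfl
    · rw [ind, if_neg h]
      push Not at h
      obtain ⟨θ, hθ, hB⟩ := h
      symm
      refine Finset.prod_eq_zero (Finset.mem_univ θ) ?_
      rw [if_pos hθ, ind, if_neg hB]
  rw [h1]
  have h2 : ∀ θ ∈ (univ : Finset Th), ∑ y, P θ y * (if θ ∈ J then ind (y ∈ B) else 1) ≤
      if θ ∈ J then c else 1 := by
    intro θ _
    split_ifs with hθ
    · refine le_trans (le_of_eq ?_) (hc θ)
      rw [← Finset.sum_filter_add_sum_filter_not univ (fun y => y ∈ B)]
      rw [Finset.filter_mem_eq_inter, Finset.univ_inter]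
      rw [Finset.sum_eq_zero (s := univ.filter (fun y => ¬ y ∈ B)), add_zero]
      · refine Finset.sum_congr rfl fun y hy => ?_
        rw [ind, if_pos hy, mul_one]
      · intro y hy
        rw [ind, if_neg (Finset.mem_filter.1 hy).2, mul_zero]
    · simp only [mul_one]
      exact (P1 θ).le
  refine (Finset.prod_le_prod (fun θ _ => ?_) h2).trans (le_of_eq ?_)
  · refine Finset.sum_nonneg fun y _ => mul_nonneg (P0 θ y) ?_
    unfold ind
    split_ifs <;> norm_num
  · rw [Finset.prod_ite_mem, Finset.univ_inter, Finset.prod_const]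

theorem s3_ind_nonneg (p : Prop) : 0 ≤ ind p := by
  unfold ind
  split_ifs <;> norm_num

/-- the numerical bound -/
theorem s3_num {n N s L m : ℕ} {lam b : ℝ} (hN : Num n N s b) (hm : 10 ^ 10 ≤ m)
    (hL : ((L : ℝ) + 1) * 100 ≤ 2 ^ (m / 50)) (hl1 : 1 ≤ lam) (hlb : lam ^ (400 * n) ≤ b) :
    (N : ℝ) * 2 ^ n * (4 / 3 * (101 / 100 / b ^ 4) ^ m * lam ^ (m * n) * (N : ℝ) ^ 300) *
      ((L : ℝ) + 1) ≤ 1 / b ^ 100 := by
  have hn : (1000 : ℝ) ≤ n := by exact_mod_cast hN.hn
  have hb : (1000 : ℝ) ≤ b := by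
    refine hn.trans ?_
    refine le_trans ?_ hN.hnb
    calc (n : ℝ) = (n : ℝ) ^ 1 := (pow_one _).symm
      _ ≤ (n : ℝ) ^ 400 := pow_le_pow_right₀ (by linarith) (by norm_num)
  have hb1 : 1 ≤ b := by linarith
  have hb0 : 0 < b := by linarith
  have hN1 : (1 : ℝ) ≤ N := (one_le_pow₀ hb1).trans hN.hNb
  have h2n : (2 : ℝ) ^ n ≤ b ^ 9000 := by
    refine le_trans ?_ hN.hexp
    have h1 : (2 : ℝ) ≤ Real.exp 1 := by
      have := Real.exp_one_gt_d9
      linarith
    calc (2 : ℝ) ^ n ≤ Real.exp 1 ^ n := pow_le_pow_left₀ (by norm_num) h1 n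
      _ = Real.exp n := by rw [← Real.exp_nat_mul, mul_one]
  have hN300 : (N : ℝ) ^ 300 ≤ b ^ 1800000 := by
    calc (N : ℝ) ^ 300 ≤ (b ^ 6000) ^ 300 := pow_le_pow_left₀ (by linarith) hN.hbN _
      _ = b ^ 1800000 := by rw [← pow_mul]
  have hlam : lam ^ n ≤ b := (pow_le_pow_right₀ hl1 (by omega)).trans hlb
  have hc : 101 / 100 / b ^ 4 * lam ^ n ≤ 1 / b ^ 2 := by
    rw [div_mul_eq_mul_div, div_le_div_iff₀ (by positivity) (by positivity)]
    have h1 : 101 / 100 * lam ^ n * b ^ 2 ≤ 101 / 100 * b * b ^ 2 := by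
      have : 101 / 100 * lam ^ n ≤ 101 / 100 * b := by linarith
      exact mul_le_mul_of_nonneg_right this (by positivity)
    have h2 : 101 / 100 * b * b ^ 2 ≤ b * b * b ^ 2 := by
      have : 101 / 100 * b ≤ b * b := by nlinarith
      exact mul_le_mul_of_nonneg_right this (by positivity)
    calc 101 / 100 * lam ^ n * b ^ 2 ≤ b * b * b ^ 2 := h1.trans h2
      _ = 1 * b ^ 4 := by ring
  have hcm : (101 / 100 / b ^ 4) ^ m * lam ^ (m * n) ≤ (1 / b ^ 2) ^ m := by
    rw [mul_comm m n, pow_mul, ← mul_pow]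
    exact pow_le_pow_left₀ (by positivity) hc m
  have hL' : ((L : ℝ) + 1) ≤ b ^ m := by
    have h1 : (0 : ℝ) ≤ (L : ℝ) + 1 := by positivity
    calc ((L : ℝ) + 1) ≤ ((L : ℝ) + 1) * 100 := by linarith
      _ ≤ 2 ^ (m / 50) := hL
      _ ≤ b ^ (m / 50) := pow_le_pow_left₀ (by norm_num) (by linarith) _
      _ ≤ b ^ m := pow_le_pow_right₀ hb1 (Nat.div_le_self _ _)
  have hfin : b ^ 1815101 ≤ b ^ m := pow_le_pow_right₀ hb1 (by omega)
  have hbm : 0 < b ^ m := by positivity
  calc (N : ℝ) * 2 ^ n * (4 / 3 * (101 / 100 / b ^ 4) ^ m * lam ^ (m * n) * (N : ℝ) ^ 300) *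
      ((L : ℝ) + 1) = ((N : ℝ) * 2 ^ n * (4 / 3) * (N : ℝ) ^ 300) *
        (((101 / 100 / b ^ 4) ^ m * lam ^ (m * n)) * ((L : ℝ) + 1)) := by ring
    _ ≤ (b ^ 6000 * b ^ 9000 * b * b ^ 1800000) * ((1 / b ^ 2) ^ m * b ^ m) := by
        refine mul_le_mul ?_ ?_ (by positivity) (by positivity)
        · refine mul_le_mul ?_ hN300 (by positivity) (by positivity)
          refine mul_le_mul ?_ (by linarith) (by positivity) (by positivity)
          exact mul_le_mul hN.hbN h2n (by positivity) (by positivity)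
        · exact mul_le_mul hcm hL' (by positivity) (by positivity)
    _ = b ^ 1815001 / b ^ m := by
        have e1 : b ^ 6000 * b ^ 9000 * b * b ^ 1800000 = b ^ 1815001 := by
          rw [← pow_add, ← pow_succ, ← pow_add]
        have e2 : (1 / b ^ 2) ^ m * b ^ m = 1 / b ^ m := by
          rw [← mul_pow, show (1 : ℝ) / b ^ 2 * b = 1 / b by field_simp, div_pow, one_pow]
        rw [e1, e2, mul_one_div]
    _ ≤ 1 / b ^ 100 := by
        rw [div_le_div_iff₀ hbm (by positivity), one_mul, ← pow_add]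
        exact hfin

theorem s3 (h2 : S2Statement) : S3Statement := by
  intro X Y Ob St Th _ _ _ _ _ _ _ _ _ _ n N s L μ lam b M ψ hN hM hψ
  obtain ⟨qc0, -, qc2, -, qc43, -, -⟩ := h2 X Y Ob St Th n N s L μ lam b M ψ hN hM hψ
  have hn : (1000 : ℝ) ≤ n := by exact_mod_cast hN.hn
  have hb : (1000 : ℝ) ≤ b := by
    refine hn.trans ?_
    refine le_trans ?_ hN.hnb
    calc (n : ℝ) = (n : ℝ) ^ 1 := (pow_one _).symm
      _ ≤ (n : ℝ) ^ 400 := pow_le_pow_right₀ (by linarith) (by norm_num)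
  have hb1 : 1 ≤ b := by linarith
  have hb0 : 0 < b := by linarith
  have hN1 : (1 : ℝ) ≤ N := (one_le_pow₀ hb1).trans hN.hNb
  have hN0 : (0 : ℝ) < N := by linarith
  have hlam0 : 0 ≤ lam := by linarith [hM.hlam]
  have hc1 : 101 / 100 / b ^ 4 ≤ 1 := by
    rw [div_le_one (by positivity)]
    have : b ≤ b ^ 4 := by
      calc b = b ^ 1 := (pow_one _).symm
        _ ≤ b ^ 4 := pow_le_pow_right₀ hb1 (by norm_num)
    linarith
  have hc0 : 0 ≤ 101 / 100 / b ^ 4 := by positivity
  -- one term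
  have hterm : ∀ (o : Ob) (A : Finset (Fin n)) (S : Fin n → X), A.card ≤ 300 →
      EE M.P (fun ω => ind (¬ M.fail o ω ∧ ¬ gd M.ok N b S ∧
        ∀ i ∈ A, M.q (M.sb o i) ω (S i) ≠ 0) * ∏ i ∈ Aᶜ, qc M.q ψ (M.sb o i) ω (S i)) *
        (N : ℝ) ^ n ≤
      ∑ l ∈ range (L + 1), 4 / 3 * (101 / 100 / b ^ 4) ^ μ l * lam ^ (μ l * n) *
        (N : ℝ) ^ 300 := by
    intro o A S hA
    have hnn : 0 ≤ ∑ l ∈ range (L + 1), 4 / 3 * (101 / 100 / b ^ 4) ^ μ l * lam ^ (μ l * n) *
        (N : ℝ) ^ 300 := Finset.sum_nonneg fun l _ => by positivity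
    by_cases hg : gd M.ok N b S
    · have h0 : (fun ω => ind (¬ M.fail o ω ∧ ¬ gd M.ok N b S ∧
          ∀ i ∈ A, M.q (M.sb o i) ω (S i) ≠ 0) * ∏ i ∈ Aᶜ, qc M.q ψ (M.sb o i) ω (S i)) =
          fun _ => (0 : ℝ) * 1 := by
        funext ω
        rw [ind, if_neg (fun h => h.2.1 hg), zero_mul, zero_mul]
      rw [h0, EE_smul, zero_mul, zero_mul]
      exact hnn
    · -- pointwise bound
      have hpt : ∀ ω, ind (¬ M.fail o ω ∧ ¬ gd M.ok N b S ∧
          ∀ i ∈ A, M.q (M.sb o i) ω (S i) ≠ 0) * ∏ i ∈ Aᶜ, qc M.q ψ (M.sb o i) ω (S i) ≤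
          ∑ l ∈ (range (L + 1)).filter (fun l => μ l ≤ (M.J l o).card),
            (4 / 3 * (lam ^ μ l / N) ^ (Aᶜ).card) *
              ind (∀ θ ∈ M.J l o, ω θ ∈ NbS M.ok S) := by
        intro ω
        have hr : 0 ≤ ∑ l ∈ (range (L + 1)).filter (fun l => μ l ≤ (M.J l o).card),
            (4 / 3 * (lam ^ μ l / N) ^ (Aᶜ).card) *
              ind (∀ θ ∈ M.J l o, ω θ ∈ NbS M.ok S) :=
          Finset.sum_nonneg fun l _ => mul_nonneg (by positivity) (s3_ind_nonneg _)
        by_cases hE : ¬ M.fail o ω ∧ ¬ gd M.ok N b S ∧ ∀ i ∈ A, M.q (M.sb o i) ω (S i) ≠ 0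
        · rw [ind, if_pos hE, one_mul]
          by_cases hz : ∏ i ∈ Aᶜ, qc M.q ψ (M.sb o i) ω (S i) = 0
          · rw [hz]
            exact hr
          · have hz := Finset.prod_ne_zero_iff.1 hz
            rcases hM.com o ω with hf | ⟨l, hlL, hlJ, hlq, hlk⟩
            · exact absurd hf hE.1
            · have hq : ∀ i, M.q (M.sb o i) ω (S i) ≠ 0 := by
                intro i
                by_cases hi : i ∈ A
                · exact hE.2.2 i hi
                · intro h0
                  apply hz i (Finset.mem_compl.2 hi)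
                  unfold qc
                  rw [h0, zero_mul]
              have hmem : ∀ θ ∈ M.J l o, ω θ ∈ NbS M.ok S := by
                intro θ hθ
                unfold NbS
                rw [Finset.mem_filter]
                exact ⟨Finset.mem_univ _, fun i => hlk i (S i) (hq i) θ hθ⟩
              have hle : ∏ i ∈ Aᶜ, qc M.q ψ (M.sb o i) ω (S i) ≤
                  4 / 3 * (lam ^ μ l / N) ^ (Aᶜ).card := by
                refine (qc43 o ω Aᶜ S).trans ?_
                refine mul_le_mul_of_nonneg_left ?_ (by norm_num)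
                rw [← Finset.prod_const]
                refine Finset.prod_le_prod (fun i _ => hM.q0 _ _ _) fun i _ => ?_
                rw [le_div_iff₀ hN0]
                exact hlq i (S i)
              refine hle.trans ?_
              have hl : l ∈ (range (L + 1)).filter (fun l => μ l ≤ (M.J l o).card) :=
                Finset.mem_filter.2 ⟨Finset.mem_range.2 (by omega), hlJ⟩
              refine le_trans (le_of_eq ?_) (Finset.single_le_sum
                (f := fun l => (4 / 3 * (lam ^ μ l / N) ^ (Aᶜ).card) *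
                  ind (∀ θ ∈ M.J l o, ω θ ∈ NbS M.ok S))
                (fun l _ => mul_nonneg (by positivity) (s3_ind_nonneg _)) hl)
              rw [ind, if_pos hmem, mul_one]
        · rw [ind, if_neg hE, zero_mul]
          exact hr
      have hE1 := EE_mono hM.P0 (fun ω _ => hpt ω)
      rw [EE_sum] at hE1
      have hAc : (Aᶜ).card = n - A.card := by
        rw [Finset.card_compl, Fintype.card_fin]
      have hAn : A.card ≤ n := by
        have := Finset.card_le_univ A
        rwa [Fintype.card_fin] at this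
      refine (mul_le_mul_of_nonneg_right hE1 (by positivity)).trans ?_
      rw [Finset.sum_mul]
      refine le_trans (Finset.sum_le_sum fun l hl => ?_) (Finset.sum_le_sum_of_subset_of_nonneg
        (Finset.filter_subset _ _) fun l _ _ => by positivity)
      rw [EE_smul]
      rw [Finset.mem_filter] at hl
      have hB : EE M.P (fun ω => ind (∀ θ ∈ M.J l o, ω θ ∈ NbS M.ok S)) ≤
          (101 / 100 / b ^ 4) ^ μ l := by
        refine (s3_prod hM.P0 hM.P1 (M.J l o) (NbS M.ok S) (101 / 100 / b ^ 4) ?_).trans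
          (pow_le_pow_of_le_one hc0 hc1 hl.2)
        intro θ
        have hcard : ((NbS M.ok S).card : ℝ) * b ^ 4 ≤ N := (not_le.1 hg).le
        calc ∑ y ∈ NbS M.ok S, M.P θ y ≤ ∑ y ∈ NbS M.ok S, 101 / 100 / (N : ℝ) := by
              refine Finset.sum_le_sum fun y _ => ?_
              rw [le_div_iff₀ hN0]
              exact hM.Ple θ y
          _ = ((NbS M.ok S).card : ℝ) * (101 / 100 / N) := by
              rw [Finset.sum_const, nsmul_eq_mul]
          _ ≤ 101 / 100 / b ^ 4 := by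
              rw [mul_div_assoc', div_le_div_iff₀ hN0 (by positivity)]
              nlinarith
      have hpw : (lam ^ μ l / N) ^ (Aᶜ).card * (N : ℝ) ^ n ≤
          lam ^ (μ l * n) * (N : ℝ) ^ 300 := by
        rw [div_pow, div_mul_eq_mul_div, mul_div_assoc, ← pow_mul]
        have h3 : (N : ℝ) ^ n / (N : ℝ) ^ (Aᶜ).card = (N : ℝ) ^ A.card := by
          rw [div_eq_iff (by positivity), ← pow_add, hAc]
          congr 1
          omega
        rw [h3]
        refine mul_le_mul (pow_le_pow_right₀ hM.hlam ?_) (pow_le_pow_right₀ hN1 hA)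
          (by positivity) (by positivity)
        exact Nat.mul_le_mul_left _ (by omega)
      calc 4 / 3 * (lam ^ μ l / N) ^ (Aᶜ).card *
            EE M.P (fun ω => ind (∀ θ ∈ M.J l o, ω θ ∈ NbS M.ok S)) * (N : ℝ) ^ n
          = 4 / 3 * ((lam ^ μ l / N) ^ (Aᶜ).card * (N : ℝ) ^ n) *
            EE M.P (fun ω => ind (∀ θ ∈ M.J l o, ω θ ∈ NbS M.ok S)) := by ring
        _ ≤ 4 / 3 * (lam ^ (μ l * n) * (N : ℝ) ^ 300) * (101 / 100 / b ^ 4) ^ μ l := by
            refine mul_le_mul (mul_le_mul_of_nonneg_left hpw (by norm_num)) hB ?_ (by positivity)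
            exact Pool.Agent.H73.Cube.EE_nonneg hM.P0 fun ω => s3_ind_nonneg _
        _ = 4 / 3 * (101 / 100 / b ^ 4) ^ μ l * lam ^ (μ l * n) * (N : ℝ) ^ 300 := by ring
  -- the sum
  obtain ⟨Z, hZ⟩ : ∃ Z : ℝ, Z = ∑ l ∈ range (L + 1), 4 / 3 * (101 / 100 / b ^ 4) ^ μ l *
    lam ^ (μ l * n) * (N : ℝ) ^ 300 := ⟨_, rfl⟩
  have hZ0 : 0 ≤ Z := hZ ▸ Finset.sum_nonneg fun l _ => by positivity
  have hNn : (0 : ℝ) < (N : ℝ) ^ n := by positivity
  have hsum : EE M.P (fun ω => bsum M N b ψ ω) ≤ N * 2 ^ n * Z := by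
    unfold bsum
    rw [EE_sum]
    calc ∑ o, EE M.P (fun ω => ∑ A ∈ univ.filter (fun A : Finset (Fin n) => A.card ≤ 300),
          ∑ S : Fin n → X, ind (¬ M.fail o ω ∧ ¬ gd M.ok N b S ∧
            ∀ i ∈ A, M.q (M.sb o i) ω (S i) ≠ 0) * ∏ i ∈ Aᶜ, qc M.q ψ (M.sb o i) ω (S i))
        ≤ ∑ o : Ob, 2 ^ n * Z := by
          refine Finset.sum_le_sum fun o _ => ?_
          rw [EE_sum]
          calc ∑ A ∈ univ.filter (fun A : Finset (Fin n) => A.card ≤ 300),
                EE M.P (fun ω => ∑ S : Fin n → X, ind (¬ M.fail o ω ∧ ¬ gd M.ok N b S ∧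
                  ∀ i ∈ A, M.q (M.sb o i) ω (S i) ≠ 0) *
                  ∏ i ∈ Aᶜ, qc M.q ψ (M.sb o i) ω (S i))
              ≤ ∑ A ∈ univ.filter (fun A : Finset (Fin n) => A.card ≤ 300), Z := by
                refine Finset.sum_le_sum fun A hA => ?_
                rw [EE_sum]
                calc ∑ S : Fin n → X, EE M.P (fun ω => ind (¬ M.fail o ω ∧ ¬ gd M.ok N b S ∧
                      ∀ i ∈ A, M.q (M.sb o i) ω (S i) ≠ 0) *
                      ∏ i ∈ Aᶜ, qc M.q ψ (M.sb o i) ω (S i))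
                    ≤ ∑ S : Fin n → X, Z / (N : ℝ) ^ n := by
                      refine Finset.sum_le_sum fun S _ => ?_
                      rw [le_div_iff₀ hNn, hZ]
                      exact hterm o A S (Finset.mem_filter.1 hA).2
                  _ = Z := by
                      rw [Finset.sum_const, Finset.card_univ, Fintype.card_fun,
                        Fintype.card_fin, hM.cX, nsmul_eq_mul, Nat.cast_pow]
                      field_simp
            _ ≤ 2 ^ n * Z := by
                rw [Finset.sum_const, nsmul_eq_mul]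
                refine mul_le_mul_of_nonneg_right ?_ hZ0
                have h1 := Finset.card_filter_le (univ : Finset (Finset (Fin n)))
                  (fun A : Finset (Fin n) => A.card ≤ 300)
                rw [Finset.card_univ, Fintype.card_finset, Fintype.card_fin] at h1
                exact_mod_cast h1
      _ = N * 2 ^ n * Z := by
          rw [Finset.sum_const, Finset.card_univ, hM.cO, nsmul_eq_mul]
          ring
  refine hsum.trans ?_
  rw [hZ, Finset.mul_sum]
  have hL0 : (0 : ℝ) < (L : ℝ) + 1 := by positivity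
  calc ∑ l ∈ range (L + 1), (N : ℝ) * 2 ^ n * (4 / 3 * (101 / 100 / b ^ 4) ^ μ l *
        lam ^ (μ l * n) * (N : ℝ) ^ 300)
      ≤ ∑ l ∈ range (L + 1), 1 / b ^ 100 / ((L : ℝ) + 1) := by
        refine Finset.sum_le_sum fun l hl => ?_
        have hlL : l ≤ L := by
          rw [Finset.mem_range] at hl
          omega
        rw [le_div_iff₀ hL0]
        exact s3_num hN (hM.hmu l hlL) (hM.hmuL l hlL) hM.hlam hM.hlamb
    _ = 1 / b ^ 100 := by
        rw [Finset.sum_const, Finset.card_range, nsmul_eq_mul]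
        push_cast
        field_simp

end Pool.Agent.FQ
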