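import Pool.Agent.FQ.SDefs
import Pool.Agent.FQ.LibA

/-!
# Project FQ, row S4: few common neighbours in `W` although many seeds hit `W`
-/

set_option autoImplicit false

namespace Pool.Agent.FQ

open Finset Classical
open Pool.Agent.H73.Cube (EE Loc EE_mono EE_const EE_smul EE_sum)

/-- Many tokens in a small set. -/
theorem s4_hit {Th Y : Type} [Fintype Th] [DecidableEq Th] [Fintype Y] [DecidableEq Y]
    (P : Th → Y → ℝ) (P0 : ∀ θ y, 0 ≤ P θ y) (P1 : ∀ θ, ∑ y, P θ y = 1) (N : ℕ) (hN : 0 < N)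
    (Ple : ∀ θ y, P θ y * N ≤ 101 / 100) (J : Finset Th) (T : Finset Y) (b : ℝ)
    (hb : 101 / 100 * 2 ^ 100 ≤ b) (hT : (T.card : ℝ) * b ^ 12 < N) (e : ℕ)
    (he : ∀ k, J.card ≤ 100 * k → e ≤ k) :
    EE P (fun ω => ind (J.card ≤ 100 * (J.filter fun θ => ω θ ∈ T).card)) ≤ 1 / b ^ (11 * e) := by
  have hb1 : (1 : ℝ) ≤ b := le_trans (by norm_num) hb
  have hb0 : (0 : ℝ) < b := by linarith
  have hNr : (0 : ℝ) < N := by exact_mod_cast hN
  have h1 : ∀ ω : Th → Y, ind (J.card ≤ 100 * (J.filter fun θ => ω θ ∈ T).card) ≤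
      ∑ K ∈ J.powerset.filter (fun K => J.card ≤ 100 * K.card),
        ∏ θ ∈ K, (fun (_ : Th) y => ind (y ∈ T)) θ (ω θ) := by
    intro ω
    have h0 : ∀ K ∈ J.powerset.filter (fun K => J.card ≤ 100 * K.card),
        0 ≤ ∏ θ ∈ K, (fun (_ : Th) y => ind (y ∈ T)) θ (ω θ) :=
      fun K _ => prod_nonneg fun θ _ => ind_nonneg _
    by_cases h : J.card ≤ 100 * (J.filter fun θ => ω θ ∈ T).card
    · have h2 : (J.filter fun θ => ω θ ∈ T) ∈
          J.powerset.filter (fun K => J.card ≤ 100 * K.card) :=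
        mem_filter.2 ⟨mem_powerset.2 (filter_subset _ _), h⟩
      refine le_trans ?_ (single_le_sum h0 h2)
      have h4 : ∏ θ ∈ J.filter (fun θ => ω θ ∈ T),
          (fun (_ : Th) y => ind (y ∈ T)) θ (ω θ) = 1 :=
        prod_eq_one fun θ hθ => if_pos (mem_filter.1 hθ).2
      rw [h4]
      exact ind_le_one _
    · have h2 : ind (J.card ≤ 100 * (J.filter fun θ => ω θ ∈ T).card) = 0 := if_neg h
      rw [h2]
      exact sum_nonneg h0
  refine (EE_mono P0 fun ω _ => h1 ω).trans ?_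
  rw [EE_sum]
  have hρ : ∀ θ, ∑ y, P θ y * ind (y ∈ T) ≤ 1 / (2 ^ 100 * b ^ 11) := by
    intro θ
    have h2 : ∑ y, P θ y * ind (y ∈ T) ≤ ∑ y ∈ T, (101 / 100 : ℝ) / N := by
      rw [← sum_filter_add_sum_filter_not univ (fun y => y ∈ T)]
      have h3 : ∑ y ∈ univ.filter (fun y => ¬ y ∈ T), P θ y * ind (y ∈ T) = 0 := by
        refine sum_eq_zero fun y hy => ?_
        have : ind (y ∈ T) = 0 := if_neg (mem_filter.1 hy).2
        rw [this, mul_zero]
      rw [h3, add_zero]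
      have h4 : univ.filter (fun y => y ∈ T) = T := by
        ext y
        simp
      rw [h4]
      refine sum_le_sum fun y hy => ?_
      have h5 : ind (y ∈ T) = 1 := if_pos hy
      rw [h5, mul_one, le_div_iff₀ hNr]
      exact Ple θ y
    refine h2.trans ?_
    rw [sum_const, nsmul_eq_mul, ← mul_div_assoc, div_le_div_iff₀ hNr (by positivity), one_mul]
    have h6 : (T.card : ℝ) * (101 / 100) * (2 ^ 100 * b ^ 11) =
        (T.card : ℝ) * b ^ 11 * (101 / 100 * 2 ^ 100) := by ring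
    rw [h6]
    have h7 : (T.card : ℝ) * b ^ 11 * (101 / 100 * 2 ^ 100) ≤ (T.card : ℝ) * b ^ 11 * b :=
      mul_le_mul_of_nonneg_left hb (by positivity)
    have h8 : (T.card : ℝ) * b ^ 11 * b = (T.card : ℝ) * b ^ 12 := by ring
    linarith
  calc ∑ K ∈ J.powerset.filter (fun K => J.card ≤ 100 * K.card),
        EE P (fun ω => ∏ θ ∈ K, (fun (_ : Th) y => ind (y ∈ T)) θ (ω θ))
      ≤ ∑ K ∈ J.powerset.filter (fun K => J.card ≤ 100 * K.card),
        (1 / 2 ^ J.card * (1 / b ^ (11 * e))) := by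
        refine sum_le_sum fun K hK => ?_
        obtain ⟨hK1, hK2⟩ := mem_filter.1 hK
        refine (EE_prod_mem P P1 K (fun (_ : Th) y => ind (y ∈ T))).le.trans ?_
        have h2 : ∏ θ ∈ K, ∑ y, P θ y * ind (y ∈ T) ≤ ∏ θ ∈ K, (1 / (2 ^ 100 * b ^ 11) : ℝ) :=
          prod_le_prod (fun θ _ => sum_nonneg fun y _ => mul_nonneg (P0 θ y) (ind_nonneg _))
            fun θ _ => hρ θ
        refine h2.trans ?_
        rw [prod_const]
        have h3 : (1 / (2 ^ 100 * b ^ 11) : ℝ) ^ K.card =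
            1 / 2 ^ (100 * K.card) * (1 / b ^ (11 * K.card)) := by
          rw [pow_mul, pow_mul, div_pow, one_pow, mul_pow, one_div_mul_one_div]
        rw [h3]
        refine mul_le_mul ?_ ?_ (by positivity) (by positivity)
        · exact one_div_le_one_div_of_le (by positivity) (pow_le_pow_right₀ (by norm_num) hK2)
        · exact one_div_le_one_div_of_le (by positivity)
            (pow_le_pow_right₀ hb1 (Nat.mul_le_mul_left _ (he _ hK2)))
    _ ≤ ∑ K ∈ J.powerset, (1 / 2 ^ J.card * (1 / b ^ (11 * e))) :=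
        sum_le_sum_of_subset_of_nonneg (filter_subset _ _) fun K _ _ => by positivity
    _ = 1 / b ^ (11 * e) := by
        rw [sum_const, card_powerset, nsmul_eq_mul]
        push_cast
        rw [← mul_assoc, mul_one_div_cancel (by positivity), one_mul]

/-- Numerical facts. -/
theorem s4_num {n N s : ℕ} {b : ℝ} (hN : Num n N s b) : 101 / 100 * 2 ^ 100 ≤ b := by
  refine le_trans ?_ hN.hnb
  have h1 : (1000 : ℝ) ≤ n := by exact_mod_cast hN.hn
  have h2 : (1000 : ℝ) ^ 400 ≤ (n : ℝ) ^ 400 := pow_le_pow_left₀ (by norm_num) h1 _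
  refine le_trans ?_ h2
  have h3 : (1000 : ℝ) ^ 11 ≤ (1000 : ℝ) ^ 400 := pow_le_pow_right₀ (by norm_num) (by norm_num)
  refine le_trans ?_ h3
  norm_num

theorem s4_level {n L μ : ℕ} {lam b : ℝ} (hb : 2 ≤ b) (hμ : 10 ^ 10 ≤ μ)
    (hL : ((L : ℝ) + 1) * 100 ≤ 2 ^ (μ / 50)) (hlam : 1 ≤ lam) (hlamb : lam ^ (400 * n) ≤ b) :
    lam ^ (n * μ) * (1 / b ^ (11 * ((μ + 99) / 100))) ≤ 1 / (b ^ 6300 * (((L : ℝ) + 1) * 100)) := by
  have hb0 : (0 : ℝ) < b := by linarith
  have h1 : lam ^ (n * μ) ≤ b ^ (μ / 400 + 1) := by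
    calc lam ^ (n * μ) ≤ lam ^ (n * (400 * (μ / 400 + 1))) :=
          pow_le_pow_right₀ hlam (Nat.mul_le_mul_left _ (by omega))
      _ = (lam ^ (400 * n)) ^ (μ / 400 + 1) := by
          rw [← pow_mul]
          congr 1
          ring
      _ ≤ b ^ (μ / 400 + 1) := pow_le_pow_left₀ (by positivity) hlamb _
  have h2 : ((L : ℝ) + 1) * 100 ≤ b ^ (μ / 50) :=
    hL.trans (pow_le_pow_left₀ (by norm_num) hb _)
  rw [mul_one_div, div_le_div_iff₀ (by positivity) (by positivity), one_mul]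
  calc lam ^ (n * μ) * (b ^ 6300 * (((L : ℝ) + 1) * 100))
      ≤ b ^ (μ / 400 + 1) * (b ^ 6300 * b ^ (μ / 50)) := by
        refine mul_le_mul h1 ?_ (by positivity) (by positivity)
        exact mul_le_mul_of_nonneg_left h2 (by positivity)
    _ = b ^ (μ / 400 + 1 + (6300 + μ / 50)) := by rw [← pow_add, ← pow_add]
    _ ≤ b ^ (11 * ((μ + 99) / 100)) := pow_le_pow_right₀ (by linarith) (by omega)

theorem s4 (h2 : S2Statement) : S4Statement := by
  intro X Y Ob St Th _ _ _ _ _ _ _ _ _ _ n N s L μ lam b M ψ W hNum hS hψ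
  obtain ⟨a0, -, a2, -, a4, -, -⟩ := h2 X Y Ob St Th n N s L μ lam b M ψ hNum hS hψ
  have hb := s4_num hNum
  have hb1 : (2 : ℝ) ≤ b := le_trans (by norm_num) hb
  have hb0 : (0 : ℝ) < b := by linarith
  have hNr : (0 : ℝ) < N := lt_of_lt_of_le (by positivity) hNum.hNb
  have hN0 : 0 < N := by exact_mod_cast hNr
  have hlam0 : (0 : ℝ) < lam := by linarith [hS.hlam]
  -- the pointwise bound
  have key : ∀ (o : Ob) (S : Fin n → X) (ω : Th → Y),
      ind (¬ M.fail o ω ∧ Hit M L μ W o ω ∧ (((NbS M.ok S) ∩ W).card : ℝ) * b ^ 12 < N) *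
        ∏ i, qc M.q ψ (M.sb o i) ω (S i) ≤
      ∑ l ∈ range (L + 1), (ind (μ l ≤ (M.J l o).card ∧
        (((NbS M.ok S) ∩ W).card : ℝ) * b ^ 12 < N) * (4 / 3 * (lam ^ μ l / N) ^ n)) *
        ind ((M.J l o).card ≤
          100 * ((M.J l o).filter fun θ => ω θ ∈ (NbS M.ok S) ∩ W).card) := by
    intro o S ω
    have hR : ∀ l ∈ range (L + 1), 0 ≤ (ind (μ l ≤ (M.J l o).card ∧
        (((NbS M.ok S) ∩ W).card : ℝ) * b ^ 12 < N) * (4 / 3 * (lam ^ μ l / N) ^ n)) *
        ind ((M.J l o).card ≤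
          100 * ((M.J l o).filter fun θ => ω θ ∈ (NbS M.ok S) ∩ W).card) :=
      fun l _ => mul_nonneg (mul_nonneg (ind_nonneg _) (by positivity)) (ind_nonneg _)
    by_cases hC : ¬ M.fail o ω ∧ Hit M L μ W o ω ∧ (((NbS M.ok S) ∩ W).card : ℝ) * b ^ 12 < N
    · by_cases hp : ∏ i, qc M.q ψ (M.sb o i) ω (S i) = 0
      · rw [hp, mul_zero]
        exact sum_nonneg hR
      · obtain ⟨c1, c2, c3⟩ := hC
        obtain ⟨l, hl, d1, d2, d3⟩ := (hS.com o ω).resolve_left c1
        have hq : ∀ i, M.q (M.sb o i) ω (S i) ≠ 0 := by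
          intro i hi
          apply hp
          refine prod_eq_zero (mem_univ i) ?_
          unfold qc
          rw [hi, zero_mul]
        refine le_trans ?_ (single_le_sum hR (mem_range.2 (Nat.lt_succ_of_le hl)))
        have e1 : ind (μ l ≤ (M.J l o).card ∧
            (((NbS M.ok S) ∩ W).card : ℝ) * b ^ 12 < N) = 1 := if_pos ⟨d1, c3⟩
        have e2 : ind ((M.J l o).card ≤
            100 * ((M.J l o).filter fun θ => ω θ ∈ (NbS M.ok S) ∩ W).card) = 1 := by
          refine if_pos ?_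
          have e3 : (M.J l o).filter (fun θ => ω θ ∈ (NbS M.ok S) ∩ W) =
              (M.J l o).filter (fun θ => ω θ ∈ W) := by
            refine filter_congr fun θ hθ => ?_
            rw [mem_inter]
            refine ⟨fun h => h.2, fun h => ⟨?_, h⟩⟩
            unfold NbS
            rw [mem_filter]
            exact ⟨mem_univ _, fun i => d3 i (S i) (hq i) θ hθ⟩
          rw [e3]
          exact c2 l hl d1
        have e4 : ind (¬ M.fail o ω ∧ Hit M L μ W o ω ∧
            (((NbS M.ok S) ∩ W).card : ℝ) * b ^ 12 < N) = 1 := if_pos ⟨c1, c2, c3⟩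
        rw [e1, e2, e4, one_mul, one_mul, mul_one]
        have e5 := a4 o ω univ S
        refine e5.trans (mul_le_mul_of_nonneg_left ?_ (by norm_num))
        have e6 : ∏ i, M.q (M.sb o i) ω (S i) ≤ ∏ _i : Fin n, (lam ^ μ l / (N : ℝ)) := by
          refine prod_le_prod (fun i _ => hS.q0 _ _ _) fun i _ => ?_
          rw [le_div_iff₀ hNr]
          exact d2 i (S i)
        refine e6.trans (le_of_eq ?_)
        rw [prod_const, card_univ, Fintype.card_fin]
    · have e1 : ind (¬ M.fail o ω ∧ Hit M L μ W o ω ∧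
          (((NbS M.ok S) ∩ W).card : ℝ) * b ^ 12 < N) = 0 := if_neg hC
      rw [e1, zero_mul]
      exact sum_nonneg hR
  -- the mean
  have hmean : ∀ (o : Ob) (S : Fin n → X) (l : ℕ), l ∈ range (L + 1) →
      EE M.P (fun ω => (ind (μ l ≤ (M.J l o).card ∧
        (((NbS M.ok S) ∩ W).card : ℝ) * b ^ 12 < N) * (4 / 3 * (lam ^ μ l / N) ^ n)) *
        ind ((M.J l o).card ≤
          100 * ((M.J l o).filter fun θ => ω θ ∈ (NbS M.ok S) ∩ W).card)) ≤
      4 / 3 * (1 / (b ^ 6300 * (((L : ℝ) + 1) * 100))) / (N : ℝ) ^ n := by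
    intro o S l hl
    have hl' : l ≤ L := Nat.lt_succ_iff.1 (mem_range.1 hl)
    rw [EE_smul]
    by_cases hC : μ l ≤ (M.J l o).card ∧ (((NbS M.ok S) ∩ W).card : ℝ) * b ^ 12 < N
    · have e1 : ind (μ l ≤ (M.J l o).card ∧
          (((NbS M.ok S) ∩ W).card : ℝ) * b ^ 12 < N) = 1 := if_pos hC
      rw [e1, one_mul]
      have e2 := s4_hit M.P hS.P0 hS.P1 N hN0 hS.Ple (M.J l o) ((NbS M.ok S) ∩ W) b hb hC.2
        ((μ l + 99) / 100) (fun k hk => by have := hC.1; omega)
      have e3 := s4_level (n := n) (L := L) (μ := μ l) hb1 (hS.hmu l hl') (hS.hmuL l hl') hS.hlam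
        hS.hlamb
      calc 4 / 3 * (lam ^ μ l / (N : ℝ)) ^ n * EE M.P (fun ω => ind ((M.J l o).card ≤
              100 * ((M.J l o).filter fun θ => ω θ ∈ (NbS M.ok S) ∩ W).card))
          ≤ 4 / 3 * (lam ^ μ l / (N : ℝ)) ^ n * (1 / b ^ (11 * ((μ l + 99) / 100))) :=
            mul_le_mul_of_nonneg_left e2 (by positivity)
        _ = 4 / 3 * (lam ^ (n * μ l) * (1 / b ^ (11 * ((μ l + 99) / 100)))) / (N : ℝ) ^ n := by
            rw [div_pow, ← pow_mul, mul_comm (μ l) n]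
            ring
        _ ≤ 4 / 3 * (1 / (b ^ 6300 * (((L : ℝ) + 1) * 100))) / (N : ℝ) ^ n := by
            refine div_le_div_of_nonneg_right ?_ (by positivity)
            exact mul_le_mul_of_nonneg_left e3 (by norm_num)
    · have e1 : ind (μ l ≤ (M.J l o).card ∧
          (((NbS M.ok S) ∩ W).card : ℝ) * b ^ 12 < N) = 0 := if_neg hC
      rw [e1, zero_mul, zero_mul]
      positivity
  calc EE M.P (fun ω => ∑ o, ∑ S : Fin n → X, ind (¬ M.fail o ω ∧ Hit M L μ W o ω ∧
      (((NbS M.ok S) ∩ W).card : ℝ) * b ^ 12 < N) * ∏ i, qc M.q ψ (M.sb o i) ω (S i))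
      ≤ EE M.P (fun ω => ∑ o, ∑ S : Fin n → X, ∑ l ∈ range (L + 1),
        (ind (μ l ≤ (M.J l o).card ∧
        (((NbS M.ok S) ∩ W).card : ℝ) * b ^ 12 < N) * (4 / 3 * (lam ^ μ l / N) ^ n)) *
        ind ((M.J l o).card ≤
          100 * ((M.J l o).filter fun θ => ω θ ∈ (NbS M.ok S) ∩ W).card)) :=
        EE_mono hS.P0 fun ω _ => sum_le_sum fun o _ => sum_le_sum fun S _ => key o S ω
    _ = ∑ o, ∑ S : Fin n → X, ∑ l ∈ range (L + 1), EE M.P (fun ω =>
        (ind (μ l ≤ (M.J l o).card ∧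
        (((NbS M.ok S) ∩ W).card : ℝ) * b ^ 12 < N) * (4 / 3 * (lam ^ μ l / N) ^ n)) *
        ind ((M.J l o).card ≤
          100 * ((M.J l o).filter fun θ => ω θ ∈ (NbS M.ok S) ∩ W).card)) := by
        rw [EE_sum]
        refine sum_congr rfl fun o _ => ?_
        rw [EE_sum]
        refine sum_congr rfl fun S _ => ?_
        rw [EE_sum]
    _ ≤ ∑ o : Ob, ∑ S : Fin n → X, ∑ l ∈ range (L + 1),
        4 / 3 * (1 / (b ^ 6300 * (((L : ℝ) + 1) * 100))) / (N : ℝ) ^ n :=
        sum_le_sum fun o _ => sum_le_sum fun S _ => sum_le_sum fun l hl => hmean o S l hl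
    _ = (N : ℝ) * (4 / 300) * (1 / b ^ 6300) := by
        rw [sum_const, sum_const, sum_const, card_univ, card_univ, card_range, Fintype.card_fun,
          Fintype.card_fin, hS.cX, hS.cO, nsmul_eq_mul, nsmul_eq_mul, nsmul_eq_mul]
        push_cast
        have hL : ((L : ℝ) + 1) ≠ 0 := by positivity
        have hNn : ((N : ℝ)) ^ n ≠ 0 := by positivity
        have hb' : b ^ 6300 ≠ 0 := by positivity
        field_simp
        ring
    _ ≤ b ^ 6000 * (4 / 300) * (1 / b ^ 6300) := by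
        refine mul_le_mul_of_nonneg_right ?_ (by positivity)
        exact mul_le_mul_of_nonneg_right hNum.hbN (by norm_num)
    _ ≤ 1 / b ^ 100 := by
        rw [mul_one_div, div_le_div_iff₀ (by positivity) (by positivity), one_mul]
        have e1 : b ^ 6000 * (4 / 300) * b ^ 100 = b ^ 6100 * (4 / 300) := by
          rw [mul_right_comm, ← pow_add]
        rw [e1]
        have e2 : b ^ 6100 ≤ b ^ 6300 := pow_le_pow_right₀ (by linarith) (by norm_num)
        have e3 : 0 < b ^ 6100 := by positivity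
        linarith

end Pool.Agent.FQ
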