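import Pool.Agent.FQ.SDefs

/-!
# Project FQ, row S5: independent seeds hit a large set
-/

set_option autoImplicit false

namespace Pool.Agent.FQ

open Finset Classical
open Pool.Agent.H73.Cube (EE Loc)

theorem s5_EE_prod {ι α : Type} [Fintype ι] [DecidableEq ι] [Fintype α] (P : ι → α → ℝ)
    (f : ι → α → ℝ) : EE P (fun ω => ∏ i, f i (ω i)) = ∏ i, ∑ a, P i a * f i a := by
  rw [Fintype.prod_sum]
  unfold EE
  refine Finset.sum_congr rfl fun ω _ => ?_
  rw [Finset.prod_mul_distrib]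

theorem s5_pow {Th Y : Type} [Fintype Th] [DecidableEq Th] [DecidableEq Y] (J : Finset Th)
    (W : Finset Y) (x : ℝ) (ω : Th → Y) :
    ∏ θ, (if θ ∈ J then (if ω θ ∈ W then x else 1) else 1) =
      x ^ (J.filter (fun θ => ω θ ∈ W)).card := by
  rw [Finset.prod_ite_mem, Finset.univ_inter, ← Finset.prod_filter, Finset.prod_const]

theorem s5_gen {Th Y : Type} [Fintype Th] [Fintype Y] [DecidableEq Th] [DecidableEq Y]
    (P : Th → Y → ℝ) (J : Finset Th) (W : Finset Y) (hP0 : ∀ θ y, 0 ≤ P θ y)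
    (hP1 : ∀ θ, ∑ y, P θ y = 1) (v x : ℝ) (hx0 : 0 < x) (hx1 : x ≤ 1)
    (hv : ∀ θ, ∑ y ∈ Wᶜ, P θ y ≤ v) :
    EE P (fun ω => ind (100 * (J.filter (fun θ => ω θ ∈ W)).card < J.card)) ≤
      (x + (1 - x) * v) ^ J.card / x ^ ((J.card - 1) / 100) := by
  have h1 : EE P (fun ω => ind (100 * (J.filter (fun θ => ω θ ∈ W)).card < J.card)) ≤
      EE P (fun ω => (x ^ ((J.card - 1) / 100))⁻¹ *
        ∏ θ, (if θ ∈ J then (if ω θ ∈ W then x else 1) else 1)) := by
    refine Pool.Agent.H73.Cube.EE_mono hP0 fun ω _ => ?_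
    rw [s5_pow]
    have hp : 0 < x ^ ((J.card - 1) / 100) := pow_pos hx0 _
    unfold ind
    split_ifs with h
    · rw [← div_eq_inv_mul, one_le_div hp]
      exact pow_le_pow_of_le_one hx0.le hx1 (by omega)
    · exact mul_nonneg (inv_nonneg.2 hp.le) (pow_nonneg hx0.le _)
  refine h1.trans ?_
  rw [Pool.Agent.H73.Cube.EE_smul, s5_EE_prod P
    (fun θ y => if θ ∈ J then (if y ∈ W then x else 1) else 1), div_eq_inv_mul]
  refine mul_le_mul_of_nonneg_left ?_ (inv_nonneg.2 (pow_nonneg hx0.le _))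
  have h2 : ∀ θ, ∑ y, P θ y * (if θ ∈ J then (if y ∈ W then x else 1) else 1) =
      if θ ∈ J then x + (1 - x) * ∑ y ∈ Wᶜ, P θ y else 1 := by
    intro θ
    by_cases h : θ ∈ J
    · simp only [if_pos h]
      have h3 := Finset.sum_add_sum_compl W (fun y => P θ y)
      have h4 := Finset.sum_add_sum_compl W (fun y => P θ y * (if y ∈ W then x else 1))
      rw [hP1] at h3
      rw [← h4]
      have h5 : ∑ y ∈ W, P θ y * (if y ∈ W then x else 1) = (∑ y ∈ W, P θ y) * x := by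
        rw [Finset.sum_mul]
        exact Finset.sum_congr rfl fun y hy => by rw [if_pos hy]
      have h6 : ∑ y ∈ Wᶜ, P θ y * (if y ∈ W then x else 1) = ∑ y ∈ Wᶜ, P θ y :=
        Finset.sum_congr rfl fun y hy => by
          rw [if_neg (Finset.mem_compl.1 hy), mul_one]
      rw [h5, h6]
      linear_combination x * h3
    · simp only [if_neg h, mul_one]
      exact hP1 θ
  rw [Finset.prod_congr rfl fun θ _ => h2 θ, Finset.prod_ite_mem, Finset.univ_inter]
  calc ∏ θ ∈ J, (x + (1 - x) * ∑ y ∈ Wᶜ, P θ y) ≤ ∏ θ ∈ J, (x + (1 - x) * v) := by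
        refine Finset.prod_le_prod (fun θ _ => ?_) fun θ _ => ?_
        · have h3 : 0 ≤ ∑ y ∈ Wᶜ, P θ y := Finset.sum_nonneg fun y _ => hP0 θ y
          have h4 : 0 ≤ (1 - x) * ∑ y ∈ Wᶜ, P θ y := mul_nonneg (by linarith) h3
          linarith
        · have := mul_le_mul_of_nonneg_left (hv θ) (by linarith : (0 : ℝ) ≤ 1 - x)
          linarith
    _ = (x + (1 - x) * v) ^ J.card := by rw [Finset.prod_const]

/-- small complement -/
theorem s5_numA (v : ℝ) (hv0 : 0 < v) (hv : v ≤ 1 / 4) (m : ℕ) (hm : 1000 ≤ m) :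
    (v + (1 - v) * v) ^ m / v ^ ((m - 1) / 100) ≤ (v / (101 / 100)) / 2 ^ (m / 50) := by
  have h1 : (v + (1 - v) * v) ^ m ≤ (2 * v) ^ m := by
    refine pow_le_pow_left₀ ?_ ?_ m
    · have : 0 ≤ (1 - v) * v := mul_nonneg (by linarith) hv0.le
      linarith
    · nlinarith
  obtain ⟨r, hr⟩ : ∃ r, m = (m - 1) / 100 + (r + 1) := ⟨m - (m - 1) / 100 - 1, by omega⟩
  have h2 : (2 * v) ^ m = 2 ^ m * v ^ r * v * v ^ ((m - 1) / 100) := by
    rw [mul_pow]
    have h3 : v ^ m = v ^ ((m - 1) / 100 + (r + 1)) := by rw [← hr]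
    rw [h3, pow_add, pow_succ]
    ring
  have hp : 0 < v ^ ((m - 1) / 100) := pow_pos hv0 _
  have h2p : (0 : ℝ) < 2 ^ (m / 50) := by positivity
  rw [div_le_iff₀ hp]
  refine h1.trans ?_
  rw [h2]
  refine mul_le_mul_of_nonneg_right ?_ hp.le
  rw [le_div_iff₀ h2p, le_div_iff₀ (by norm_num)]
  have h4 : v ^ r ≤ (1 / 4) ^ r := pow_le_pow_left₀ hv0.le hv r
  have h5 : (2 : ℝ) ^ m * (1 / 4) ^ r * 2 ^ (m / 50) * (101 / 100) ≤ 1 := by
    have h6 : (1 / 4 : ℝ) ^ r = 1 / 2 ^ (2 * r) := by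
      rw [pow_mul, one_div, one_div, inv_pow]
      norm_num
    have h7 : (2 : ℝ) ^ (m + m / 50 + 1) ≤ 2 ^ (2 * r) :=
      pow_le_pow_right₀ (by norm_num) (by omega)
    rw [pow_add, pow_add, pow_one] at h7
    have h8 : (0 : ℝ) < 2 ^ (2 * r) := by positivity
    have h9 : (0 : ℝ) < 2 ^ m * 2 ^ (m / 50) := by positivity
    rw [h6, mul_one_div, div_mul_eq_mul_div, div_mul_eq_mul_div, div_le_one h8]
    nlinarith
  calc (2 : ℝ) ^ m * v ^ r * v * 2 ^ (m / 50) * (101 / 100)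
      = v * (2 ^ m * v ^ r * 2 ^ (m / 50) * (101 / 100)) := by ring
    _ ≤ v * (2 ^ m * (1 / 4) ^ r * 2 ^ (m / 50) * (101 / 100)) := by gcongr
    _ ≤ v * 1 := mul_le_mul_of_nonneg_left h5 hv0.le
    _ = v := mul_one v

/-- large complement -/
theorem s5_numB (v : ℝ) (hv0 : 1 / 4 ≤ v) (hv : v ≤ 909 / 1000) (m : ℕ) (hm : 1000 ≤ m) :
    (1 / 8 + (1 - 1 / 8) * v) ^ m / (1 / 8) ^ ((m - 1) / 100) ≤
      (v / (101 / 100)) / 2 ^ (m / 50) := by
  have h1 : (1 / 8 + (1 - 1 / 8) * v) ^ m ≤ (921 / 1000) ^ m :=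
    pow_le_pow_left₀ (by linarith) (by linarith) m
  have h2 : (921 / 1000 : ℝ) ^ m ≤ (1 / 5) ^ (m / 20) := by
    calc (921 / 1000 : ℝ) ^ m ≤ (921 / 1000) ^ (20 * (m / 20)) :=
          pow_le_pow_of_le_one (by norm_num) (by norm_num) (by omega)
      _ = ((921 / 1000) ^ 20) ^ (m / 20) := pow_mul _ _ _
      _ ≤ (1 / 5) ^ (m / 20) := pow_le_pow_left₀ (by positivity) (by norm_num) _
  have h3 : ((1 / 8 : ℝ)) ^ ((m - 1) / 100) = 1 / 2 ^ (3 * ((m - 1) / 100)) := by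
    rw [pow_mul, one_div, one_div, inv_pow]
    norm_num
  have h4 : (2 : ℝ) ^ (3 * ((m - 1) / 100)) * 2 ^ (m / 50) ≤ 2 ^ (m / 20) := by
    rw [← pow_add]
    exact pow_le_pow_right₀ (by norm_num) (by omega)
  have h5 : (1 / 5 : ℝ) ^ (m / 20) * 2 ^ (m / 20) ≤ 24 / 100 := by
    rw [← mul_pow]
    calc (1 / 5 * 2 : ℝ) ^ (m / 20) ≤ (1 / 5 * 2) ^ 2 :=
          pow_le_pow_of_le_one (by norm_num) (by norm_num) (by omega)
      _ ≤ 24 / 100 := by norm_num
  have h2p : (0 : ℝ) < 2 ^ (m / 50) := by positivity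
  have h3p : (0 : ℝ) < 2 ^ (3 * ((m - 1) / 100)) := by positivity
  rw [h3, one_div (2 ^ (3 * ((m - 1) / 100)) : ℝ), div_inv_eq_mul, le_div_iff₀ h2p]
  calc (1 / 8 + (1 - 1 / 8) * v) ^ m * 2 ^ (3 * ((m - 1) / 100)) * 2 ^ (m / 50)
      ≤ (1 / 5) ^ (m / 20) * 2 ^ (3 * ((m - 1) / 100)) * 2 ^ (m / 50) := by
        have := h1.trans h2
        gcongr
    _ = (1 / 5) ^ (m / 20) * (2 ^ (3 * ((m - 1) / 100)) * 2 ^ (m / 50)) := by ring
    _ ≤ (1 / 5) ^ (m / 20) * 2 ^ (m / 20) :=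
        mul_le_mul_of_nonneg_left h4 (by positivity)
    _ ≤ 24 / 100 := h5
    _ ≤ v / (101 / 100) := by
        rw [le_div_iff₀ (by norm_num)]
        linarith

/-- row S5 -/
theorem s5 : S5Statement := by
  intro Th Y _ _ _ _ N P J W hY hN hP0 hP1 hP hW hJ
  have hN' : (0 : ℝ) < N := by exact_mod_cast hN
  have hcard : W.card + Wᶜ.card = N := by
    rw [Finset.card_add_card_compl, hY]
  rcases Nat.eq_zero_or_pos Wᶜ.card with h0 | h0
  · -- all of `Y`
    have hu : W = univ := by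
      rw [Finset.card_eq_zero, Finset.compl_eq_empty_iff] at h0
      exact h0
    have h1 : EE P (fun ω => ind (100 * (J.filter (fun θ => ω θ ∈ W)).card < J.card)) = 0 := by
      have h2 : (fun ω : Th → Y => ind (100 * (J.filter (fun θ => ω θ ∈ W)).card < J.card)) =
          fun _ => 0 := by
        funext ω
        have h3 : J.filter (fun θ => ω θ ∈ W) = J := by
          refine Finset.filter_true_of_mem fun θ _ => ?_
          rw [hu]
          exact mem_univ _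
        rw [h3]
        unfold ind
        rw [if_neg (by omega)]
      rw [h2, Pool.Agent.H73.Cube.EE_const hP1]
    rw [h1, h0]
    simp
  · have hc : (0 : ℝ) < (Wᶜ.card : ℝ) := by exact_mod_cast h0
    set v : ℝ := 101 / 100 * ((Wᶜ.card : ℝ) / N) with hv
    have hv0 : 0 < v := by positivity
    have hv1 : v ≤ 909 / 1000 := by
      have h1 : 10 * Wᶜ.card ≤ 9 * N := by omega
      have h2 : 10 * (Wᶜ.card : ℝ) ≤ 9 * N := by exact_mod_cast h1
      have h3 : (Wᶜ.card : ℝ) / N ≤ 9 / 10 := by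
        rw [div_le_iff₀ hN']
        linarith
      rw [hv]
      linarith
    have hvv : v / (101 / 100) = (Wᶜ.card : ℝ) / N := by
      rw [hv]
      field_simp
    have hs : ∀ θ, ∑ y ∈ Wᶜ, P θ y ≤ v := by
      intro θ
      calc ∑ y ∈ Wᶜ, P θ y ≤ ∑ _y ∈ Wᶜ, (101 / 100 / (N : ℝ)) := by
            refine Finset.sum_le_sum fun y _ => ?_
            rw [le_div_iff₀ hN']
            exact hP θ y
        _ = v := by
            rw [Finset.sum_const, nsmul_eq_mul, hv]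
            ring
    rw [← hvv]
    rcases le_or_gt v (1 / 4) with h1 | h1
    · exact (s5_gen P J W hP0 hP1 v v hv0 (by linarith) hs).trans (s5_numA v hv0 h1 _ hJ)
    · exact (s5_gen P J W hP0 hP1 v (1 / 8) (by norm_num) (by norm_num) hs).trans
        (s5_numB v h1.le hv1 _ hJ)

end Pool.Agent.FQ
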