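import Pool.Agent.FQ.SDefs

/-!
# Project FQ (MP_a55b9e_co), row S6: large sets (helper91)
-/

set_option autoImplicit false

namespace Pool.Agent.FQ

open Finset Classical
open Pool.Agent.H73.Cube

section

variable {X Y Ob St Th : Type} [Fintype X] [Fintype Y] [Fintype Ob] [Fintype St] [Fintype Th]
  [DecidableEq X] [DecidableEq Y] [DecidableEq Ob] [DecidableEq St] [DecidableEq Th] {n : ℕ}

theorem s6_ind0 (p : Prop) : 0 ≤ ind p := by
  unfold ind
  split_ifs <;> norm_num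

theorem s6_ind1 {p : Prop} (h : p) : ind p = 1 := if_pos h

theorem s6_hit {M : Sd X Y Ob St Th n} {N L : ℕ} {μ : ℕ → ℕ} {lam b : ℝ}
    (h5 : S5Statement) (hM : SdHyp M N L μ lam b) (hN : 0 < N) (W : Finset Y)
    (hW : N ≤ 10 * W.card) (o : Ob) :
    EE M.P (fun ω => ind (¬ M.fail o ω ∧ ¬ Hit M L μ W o ω)) ≤ (Wᶜ.card : ℝ) / N / 100 := by
  have hpt : ∀ ω, ind (¬ M.fail o ω ∧ ¬ Hit M L μ W o ω) ≤
      ∑ l ∈ range (L + 1), (if μ l ≤ (M.J l o).card then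
        ind (100 * ((M.J l o).filter (fun θ => ω θ ∈ W)).card < (M.J l o).card) else 0) := by
    intro ω
    have h0 : ∀ l ∈ range (L + 1), 0 ≤ (if μ l ≤ (M.J l o).card then
        ind (100 * ((M.J l o).filter (fun θ => ω θ ∈ W)).card < (M.J l o).card) else 0) := by
      intro l _
      split_ifs
      · exact s6_ind0 _
      · exact le_rfl
    by_cases h : ¬ M.fail o ω ∧ ¬ Hit M L μ W o ω
    · have h1 := h.2
      unfold Hit at h1
      push Not at h1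
      obtain ⟨l, hl, h2, h3⟩ := h1
      have h4 : (if μ l ≤ (M.J l o).card then
          ind (100 * ((M.J l o).filter (fun θ => ω θ ∈ W)).card < (M.J l o).card) else 0) = 1 := by
        rw [if_pos h2, s6_ind1 h3]
      rw [s6_ind1 h, ← h4]
      exact single_le_sum h0 (mem_range.2 (by omega))
    · have h1 : ind (¬ M.fail o ω ∧ ¬ Hit M L μ W o ω) = 0 := if_neg h
      rw [h1]
      exact sum_nonneg h0
  have hL0 : (0 : ℝ) < (L : ℝ) + 1 := by positivity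
  have hN' : (0 : ℝ) < N := by exact_mod_cast hN
  refine (EE_mono hM.P0 (fun ω _ => hpt ω)).trans ?_
  rw [EE_sum]
  have hterm : ∀ l ∈ range (L + 1), EE M.P (fun ω => if μ l ≤ (M.J l o).card then
        ind (100 * ((M.J l o).filter (fun θ => ω θ ∈ W)).card < (M.J l o).card) else 0) ≤
      (Wᶜ.card : ℝ) / N / 100 / ((L : ℝ) + 1) := by
    intro l hl
    have hl' : l ≤ L := by
      have := mem_range.1 hl
      omega
    by_cases h : μ l ≤ (M.J l o).card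
    · simp only [if_pos h]
      have h1 := hM.hmu l hl'
      have h2 := h5 Th Y N M.P (M.J l o) W hM.cY hN hM.P0 hM.P1 hM.Ple hW
        (by
          have h3 : 1000 ≤ 10 ^ 10 := by norm_num
          omega)
      refine h2.trans ?_
      have h3 := hM.hmuL l hl'
      have h4 : (2 : ℝ) ^ (μ l / 50) ≤ 2 ^ ((M.J l o).card / 50) :=
        pow_le_pow_right₀ (by norm_num) (Nat.div_le_div_right h)
      have h5' : ((L : ℝ) + 1) * 100 ≤ 2 ^ ((M.J l o).card / 50) := h3.trans h4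
      rw [div_div ((Wᶜ.card : ℝ) / N) 100]
      refine div_le_div_of_nonneg_left (by positivity) (by positivity) ?_
      rw [mul_comm]
      exact h5'
    · simp only [if_neg h]
      rw [EE_const hM.P1]
      positivity
  refine (sum_le_sum hterm).trans (le_of_eq ?_)
  rw [sum_const, card_range, nsmul_eq_mul]
  push_cast
  field_simp

end

theorem s6 (h2 : S2Statement) (h3 : S3Statement) (h4 : S4Statement) (h5 : S5Statement) :
    S6Statement := by
  intro X Y Ob St Th _ _ _ _ _ _ _ _ _ _ n N s L μ lam b M ψ W hNum hM hψ hW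
  obtain ⟨q0, q1, _, _, _, _, _⟩ := h2 X Y Ob St Th n N s L μ lam b M ψ hNum hM hψ
  have e3 := h3 X Y Ob St Th n N s L μ lam b M ψ hNum hM hψ
  have e4 := h4 X Y Ob St Th n N s L μ lam b M ψ W hNum hM hψ
  have hb : (1000 : ℝ) ≤ b := by
    have h1 : (1000 : ℝ) ≤ (n : ℝ) := by exact_mod_cast hNum.hn
    have h2 : (n : ℝ) ≤ (n : ℝ) ^ 400 := le_self_pow₀ (by linarith) (by norm_num)
    linarith [hNum.hnb]
  have hb0 : 0 < b := by linarith
  have hN' : (0 : ℝ) < N := lt_of_lt_of_le (by positivity) hNum.hNb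
  have hN : 0 < N := by exact_mod_cast hN'
  -- the product weights
  obtain ⟨π, hπ⟩ : ∃ π : (Th → Y) → Ob → (Fin n → X) → ℝ,
      ∀ ω o S, π ω o S = ∏ i, qc M.q ψ (M.sb o i) ω (S i) := ⟨_, fun _ _ _ => rfl⟩
  have π0 : ∀ ω o S, 0 ≤ π ω o S := by
    intro ω o S
    rw [hπ]
    exact prod_nonneg (fun i _ => q0 _ _ _)
  have π1 : ∀ ω o, ∑ S, π ω o S = 1 := by
    intro ω o
    simp only [hπ]
    rw [← Fintype.prod_sum (fun i x => qc M.q ψ (M.sb o i) ω x)]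
    exact prod_eq_one (fun i _ => q1 _ _)
  -- the pointwise bound
  have hpt : ∀ ω o S, (1 : ℝ) ≤ ind (gdW M.ok N b W S) + ind (M.fail o ω) +
      ind (¬ M.fail o ω ∧ ¬ gd M.ok N b S ∧
        ∀ i ∈ (∅ : Finset (Fin n)), M.q (M.sb o i) ω (S i) ≠ 0) +
      ind (¬ M.fail o ω ∧ Hit M L μ W o ω ∧ (((NbS M.ok S) ∩ W).card : ℝ) * b ^ 12 < N) +
      ind (¬ M.fail o ω ∧ ¬ Hit M L μ W o ω) := by
    intro ω o S
    have i1 := s6_ind0 (gdW M.ok N b W S)
    have i2 := s6_ind0 (M.fail o ω)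
    have i3 := s6_ind0 (¬ M.fail o ω ∧ ¬ gd M.ok N b S ∧
        ∀ i ∈ (∅ : Finset (Fin n)), M.q (M.sb o i) ω (S i) ≠ 0)
    have i4 := s6_ind0 (¬ M.fail o ω ∧ Hit M L μ W o ω ∧
      (((NbS M.ok S) ∩ W).card : ℝ) * b ^ 12 < N)
    have i5 := s6_ind0 (¬ M.fail o ω ∧ ¬ Hit M L μ W o ω)
    by_cases a2 : M.fail o ω
    · have := s6_ind1 a2
      linarith
    by_cases a3 : gd M.ok N b S
    · by_cases a4 : (((NbS M.ok S) ∩ W).card : ℝ) * b ^ 12 < N
      · by_cases a5 : Hit M L μ W o ω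
        · have := s6_ind1 (p := ¬ M.fail o ω ∧ Hit M L μ W o ω ∧
            (((NbS M.ok S) ∩ W).card : ℝ) * b ^ 12 < N) ⟨a2, a5, a4⟩
          linarith
        · have := s6_ind1 (p := ¬ M.fail o ω ∧ ¬ Hit M L μ W o ω) ⟨a2, a5⟩
          linarith
      · have := s6_ind1 (p := gdW M.ok N b W S) ⟨a3, not_lt.1 a4⟩
        linarith
    · have := s6_ind1 (p := ¬ M.fail o ω ∧ ¬ gd M.ok N b S ∧
        ∀ i ∈ (∅ : Finset (Fin n)), M.q (M.sb o i) ω (S i) ≠ 0)
        ⟨a2, a3, fun i hi => absurd hi (notMem_empty i)⟩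
      linarith
  -- the sum over the tuples and the odd positions
  have hsum : ∀ ω, (N : ℝ) ≤ tot M.sb (fun h => qc M.q ψ h ω) (fun _ S => ind (gdW M.ok N b W S)) +
      ∑ o, ind (M.fail o ω) + bsum M N b ψ ω +
      ∑ o, ∑ S : Fin n → X, ind (¬ M.fail o ω ∧ Hit M L μ W o ω ∧
        (((NbS M.ok S) ∩ W).card : ℝ) * b ^ 12 < N) * ∏ i, qc M.q ψ (M.sb o i) ω (S i) +
      ∑ o, ind (¬ M.fail o ω ∧ ¬ Hit M L μ W o ω) := by
    intro ω
    have k1 : (N : ℝ) = ∑ o : Ob, ∑ S : Fin n → X, π ω o S * 1 := by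
      simp only [mul_one, π1]
      rw [sum_const, card_univ, hM.cO, nsmul_eq_mul, mul_one]
    have k2 : ∑ o : Ob, ∑ S : Fin n → X, π ω o S * ind (¬ M.fail o ω ∧ ¬ gd M.ok N b S ∧
        ∀ i ∈ (∅ : Finset (Fin n)), M.q (M.sb o i) ω (S i) ≠ 0) ≤ bsum M N b ψ ω := by
      unfold bsum
      refine sum_le_sum (fun o _ => ?_)
      have k3 : ∑ S : Fin n → X, π ω o S * ind (¬ M.fail o ω ∧ ¬ gd M.ok N b S ∧
          ∀ i ∈ (∅ : Finset (Fin n)), M.q (M.sb o i) ω (S i) ≠ 0) =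
          ∑ S : Fin n → X, ind (¬ M.fail o ω ∧ ¬ gd M.ok N b S ∧
            ∀ i ∈ (∅ : Finset (Fin n)), M.q (M.sb o i) ω (S i) ≠ 0) *
            ∏ i ∈ (∅ : Finset (Fin n))ᶜ, qc M.q ψ (M.sb o i) ω (S i) := by
        refine sum_congr rfl (fun S _ => ?_)
        rw [compl_empty, hπ, mul_comm]
      rw [k3]
      refine single_le_sum (f := fun A : Finset (Fin n) => ∑ S : Fin n → X,
          ind (¬ M.fail o ω ∧ ¬ gd M.ok N b S ∧ ∀ i ∈ A, M.q (M.sb o i) ω (S i) ≠ 0) *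
          ∏ i ∈ Aᶜ, qc M.q ψ (M.sb o i) ω (S i)) (fun A _ => ?_) (by simp)
      exact sum_nonneg (fun S _ => mul_nonneg (s6_ind0 _) (prod_nonneg (fun i _ => q0 _ _ _)))
    have k4 : ∀ (f : Ob → ℝ), ∑ o : Ob, ∑ S : Fin n → X, π ω o S * f o = ∑ o, f o := by
      intro f
      refine sum_congr rfl (fun o _ => ?_)
      rw [← sum_mul, π1, one_mul]
    have k5 : ∑ o : Ob, ∑ S : Fin n → X, π ω o S * ind (gdW M.ok N b W S) =
        tot M.sb (fun h => qc M.q ψ h ω) (fun _ S => ind (gdW M.ok N b W S)) := by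
      unfold tot pw
      simp only [hπ]
    have k6 : ∑ o : Ob, ∑ S : Fin n → X, π ω o S * ind (¬ M.fail o ω ∧ Hit M L μ W o ω ∧
        (((NbS M.ok S) ∩ W).card : ℝ) * b ^ 12 < N) =
        ∑ o, ∑ S : Fin n → X, ind (¬ M.fail o ω ∧ Hit M L μ W o ω ∧
          (((NbS M.ok S) ∩ W).card : ℝ) * b ^ 12 < N) *
          ∏ i, qc M.q ψ (M.sb o i) ω (S i) := by
      refine sum_congr rfl (fun o _ => sum_congr rfl (fun S _ => ?_))
      rw [hπ, mul_comm]
    have k7 : ∑ o : Ob, ∑ S : Fin n → X, π ω o S * 1 ≤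
        ∑ o : Ob, ∑ S : Fin n → X, π ω o S * (ind (gdW M.ok N b W S) + ind (M.fail o ω) +
      ind (¬ M.fail o ω ∧ ¬ gd M.ok N b S ∧
        ∀ i ∈ (∅ : Finset (Fin n)), M.q (M.sb o i) ω (S i) ≠ 0) +
      ind (¬ M.fail o ω ∧ Hit M L μ W o ω ∧ (((NbS M.ok S) ∩ W).card : ℝ) * b ^ 12 < N) +
      ind (¬ M.fail o ω ∧ ¬ Hit M L μ W o ω)) :=
      sum_le_sum (fun o _ => sum_le_sum (fun S _ =>
        mul_le_mul_of_nonneg_left (hpt ω o S) (π0 ω o S)))
    simp only [mul_add, sum_add_distrib] at k7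
    rw [k4 (fun o => ind (M.fail o ω)), k4 (fun o => ind (¬ M.fail o ω ∧ ¬ Hit M L μ W o ω)),
      k5, k6, ← k1] at k7
    linarith
  -- expectations
  have hE := EE_mono hM.P0 (fun ω _ => hsum ω)
  rw [EE_const hM.P1, EE_add, EE_add, EE_add, EE_add] at hE
  have e5 : EE M.P (fun ω => ∑ o, ind (¬ M.fail o ω ∧ ¬ Hit M L μ W o ω)) ≤
      (Wᶜ.card : ℝ) / 100 := by
    rw [EE_sum]
    refine (sum_le_sum (fun o _ => s6_hit h5 hM hN W hW o)).trans (le_of_eq ?_)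
    rw [sum_const, card_univ, hM.cO, nsmul_eq_mul]
    field_simp
  have e6 : 1 / b ^ 100 ≤ 1 / b ^ 50 / 3 := by
    rw [div_div]
    refine one_div_le_one_div_of_le (by positivity) ?_
    have h7 : (3 : ℝ) ≤ b ^ 50 := (by linarith : (3 : ℝ) ≤ b).trans
      (le_self_pow₀ (by linarith) (by norm_num))
    calc b ^ 50 * 3 ≤ b ^ 50 * b ^ 50 := mul_le_mul_of_nonneg_left h7 (by positivity)
      _ = b ^ 100 := by rw [← pow_add]
  have e7 := hM.failE
  have e8 : (0 : ℝ) ≤ (Wᶜ.card : ℝ) := by positivity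
  unfold an
  linarith

end Pool.Agent.FQ
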