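import Pool.Agent.FQ.SDefs
import Pool.Agent.H73.Cube.Cells

/-!
# Project FQ, row S7: sets of middle size (helper61)
-/

set_option autoImplicit false

namespace Pool.Agent.FQ

open Finset Classical
open Pool.Agent.H73.Cube (EE Loc EE_resample EE_smul EE_sum EE_add EE_sub EE_mono EE_const
  EE_nonneg)

namespace S7

theorem i0 (p : Prop) : 0 ≤ ind p := by unfold ind; split_ifs <;> norm_num

theorem iT {p : Prop} (h : p) : ind p = 1 := if_pos h

theorem iF {p : Prop} (h : ¬ p) : ind p = 0 := if_neg h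

theorem iTT {p q : Prop} (h : p) (h' : q) : ind (p ∧ q) = 1 := if_pos ⟨h, h'⟩

theorem iF2 {p q : Prop} (h' : ¬ q) : ind (p ∧ q) = 0 := if_neg fun h => h' h.2

/-- The pointwise comparison. -/
theorem br (E1 E2 I1 I2 G F SM GD : Prop) (h1 : E1 → I1) (h2 : E2 → I2) (h3 : E1 → ¬ F)
    (h4 : E2 → ¬ F) (hG : G ↔ GD ∧ ¬ SM) :
    ind E1 + ind E2 - ind I1 * ind I2 - 2 * ind (¬ F ∧ ¬ GD) - ind (E1 ∧ SM) - ind (E2 ∧ SM) ≤
      ind G := by
  by_cases hE1 : E1
  · have hI1 := h1 hE1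
    have hF := h3 hE1
    by_cases hE2 : E2
    · have hI2 := h2 hE2
      by_cases hS : SM
      · rw [iT hE1, iT hE2, iT hI1, iT hI2, iTT hE1 hS, iTT hE2 hS]
        have := i0 (¬ F ∧ ¬ GD)
        have := i0 G
        linarith
      · rw [iT hE1, iT hE2, iT hI1, iT hI2, iF2 hS, iF2 hS]
        by_cases hD : GD
        · rw [iT (hG.2 ⟨hD, hS⟩)]
          have := i0 (¬ F ∧ ¬ GD)
          linarith
        · rw [iTT hF hD]
          have := i0 G
          linarith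
    · rw [iT hE1, iF hE2]
      have := mul_nonneg (i0 I1) (i0 I2)
      have := i0 (E2 ∧ SM)
      by_cases hS : SM
      · rw [iTT hE1 hS]
        have := i0 (¬ F ∧ ¬ GD)
        have := i0 G
        linarith
      · have := i0 (E1 ∧ SM)
        by_cases hD : GD
        · rw [iT (hG.2 ⟨hD, hS⟩)]
          have := i0 (¬ F ∧ ¬ GD)
          linarith
        · rw [iTT hF hD]
          have := i0 G
          linarith
  · rw [iF hE1]
    have := mul_nonneg (i0 I1) (i0 I2)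
    have := i0 (E1 ∧ SM)
    by_cases hE2 : E2
    · have hF := h4 hE2
      rw [iT hE2]
      by_cases hS : SM
      · rw [iTT hE2 hS]
        have := i0 (¬ F ∧ ¬ GD)
        have := i0 G
        linarith
      · have := i0 (E2 ∧ SM)
        by_cases hD : GD
        · rw [iT (hG.2 ⟨hD, hS⟩)]
          have := i0 (¬ F ∧ ¬ GD)
          linarith
        · rw [iTT hF hD]
          have := i0 G
          linarith
    · rw [iF hE2]
      have := i0 (E2 ∧ SM)
      have := i0 (¬ F ∧ ¬ GD)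
      have := i0 G
      linarith

section

variable {Th Y : Type} [Fintype Th] [DecidableEq Th] [Fintype Y] [DecidableEq Y]
  {P : Th → Y → ℝ}

/-- Independence of one coordinate. -/
theorem res (hP1 : ∀ i, ∑ a, P i a = 1) (θ : Th) (y : Y) (F : (Th → Y) → ℝ)
    (hF : ∀ ω y', F (Function.update ω θ y') = F ω) :
    EE P (fun ω => ind (ω θ = y) * F ω) = P θ y * EE P F := by
  rw [← EE_resample hP1 θ, ← EE_smul]
  congr 1
  funext ω
  simp only [Function.update_self, hF]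
  rw [Finset.sum_eq_single y]
  · rw [iT rfl, one_mul]
  · intro a _ ha
    rw [iF ha, zero_mul, mul_zero]
  · intro h
    exact absurd (mem_univ _) h

omit [Fintype Y] in
theorem indW (W : Finset Y) (a : Y) : ind (a ∈ W) = ∑ y ∈ W, ind (a = y) := by
  by_cases h : a ∈ W
  · rw [iT h, Finset.sum_eq_single_of_mem a h, iT rfl]
    intro y _ hy
    exact iF (Ne.symm hy)
  · rw [iF h, Finset.sum_eq_zero]
    intro y hy
    exact iF (fun h' => h (h' ▸ hy))

omit [Fintype Y] in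
theorem indW2 (W : Finset Y) (a : Y) (q : Prop) :
    ind (a ∈ W ∧ q) = ∑ y ∈ W, ind (a = y ∧ q) := by
  by_cases hq : q
  · have h1 : ∀ p : Prop, ind (p ∧ q) = ind p := by
      intro p
      by_cases hp : p
      · rw [iT hp, iTT hp hq]
      · rw [iF hp]
        exact iF fun h => hp h.1
    rw [h1, indW]
    exact Finset.sum_congr rfl fun y _ => (h1 _).symm
  · rw [iF2 hq, Finset.sum_eq_zero fun y _ => iF2 hq]

theorem resW (hP1 : ∀ i, ∑ a, P i a = 1) (θ : Th) (W : Finset Y) (F : (Th → Y) → ℝ)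
    (hF : ∀ ω y', F (Function.update ω θ y') = F ω) :
    EE P (fun ω => ind (ω θ ∈ W) * F ω) = (∑ y ∈ W, P θ y) * EE P F := by
  have h1 : (fun ω : Th → Y => ind (ω θ ∈ W) * F ω) =
      fun ω => ∑ y ∈ W, ind (ω θ = y) * F ω := by
    funext ω
    rw [indW, Finset.sum_mul]
  rw [h1, EE_sum, Finset.sum_mul]
  exact Finset.sum_congr rfl fun y _ => res hP1 θ y F hF

theorem mass {N : ℕ} (hN : 0 < (N : ℝ)) (hle : ∀ θ y, P θ y * N ≤ 101 / 100) (θ : Th)
    (W : Finset Y) : ∑ y ∈ W, P θ y ≤ 101 / 100 * W.card / N := by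
  have h1 : ∀ y ∈ W, P θ y ≤ 101 / 100 / N := fun y _ => (le_div_iff₀ hN).2 (hle θ y)
  refine (Finset.sum_le_card_nsmul W _ _ h1).trans (le_of_eq ?_)
  rw [nsmul_eq_mul]
  ring

theorem pair (hP0 : ∀ θ y, 0 ≤ P θ y) (hP1 : ∀ i, ∑ a, P i a = 1) {N : ℕ} (hN : 0 < (N : ℝ))
    (hle : ∀ θ y, P θ y * N ≤ 101 / 100) (W : Finset Y) (θ θ' : Th) (hne : θ ≠ θ') :
    EE P (fun ω => ind (ω θ ∈ W) * ind (ω θ' ∈ W)) ≤ (101 / 100 * W.card / N) ^ 2 := by
  rw [resW hP1 θ W (fun ω => ind (ω θ' ∈ W)) (fun ω y' => by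
    rw [Function.update_of_ne (Ne.symm hne)])]
  have h2 : EE P (fun ω => ind (ω θ' ∈ W)) = ∑ y ∈ W, P θ' y := by
    have h3 := resW hP1 θ' W (fun _ => (1 : ℝ)) (fun _ _ => rfl)
    rw [EE_const hP1, mul_one] at h3
    rw [← h3]
    congr 1
    funext ω
    rw [mul_one]
  rw [h2, sq]
  exact mul_le_mul (mass hN hle θ W) (mass hN hle θ' W)
    (Finset.sum_nonneg fun y _ => hP0 θ' y) (by positivity)

end

theorem sumProd {X : Type} [Fintype X] {n : ℕ} (f : Fin n → X → ℝ) :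
    ∑ S : Fin n → X, ∏ i, f i (S i) = ∏ i, ∑ x, f i x := by
  rw [Fintype.prod_sum]

theorem sumProd1 {X : Type} [Fintype X] {n : ℕ} (f : Fin n → X → ℝ) (h0 : ∀ i x, 0 ≤ f i x)
    (h1 : ∀ i, ∑ x, f i x ≤ 1) : ∑ S : Fin n → X, ∏ i, f i (S i) ≤ 1 := by
  rw [sumProd]
  exact Finset.prod_le_one (fun i _ => Finset.sum_nonneg fun x _ => h0 i x) fun i _ => h1 i

theorem lin {ι : Type} [Fintype ι] (π a b1 b2 : ι → ℝ) (c : ℝ) (hπ : ∑ S, π S = 1) :
    c - 2 * ∑ S, a S * π S - ∑ S, b1 S * π S - ∑ S, b2 S * π S =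
      ∑ S, π S * (c - 2 * a S - b1 S - b2 S) := by
  have h1 : ∑ S, π S * (c - 2 * a S - b1 S - b2 S) =
      c * ∑ S, π S - 2 * ∑ S, a S * π S - ∑ S, b1 S * π S - ∑ S, b2 S * π S := by
    rw [mul_sum, mul_sum, ← sum_sub_distrib, ← sum_sub_distrib, ← sum_sub_distrib]
    exact sum_congr rfl fun S _ => by ring
  rw [h1, hπ, mul_one]

theorem bNum {n N s : ℕ} {b : ℝ} (h : Num n N s b) : 1000 ≤ b := by
  have hn : (1000 : ℝ) ≤ n := by exact_mod_cast h.hn
  have h1 : (1000 : ℝ) ^ 1 ≤ (n : ℝ) ^ 400 :=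
    (pow_le_pow_right₀ (by norm_num) (by norm_num)).trans
      (pow_le_pow_left₀ (by norm_num) hn 400)
  have h2 := h.hnb
  linarith

section

variable {X Y Ob St Th : Type} [Fintype X] [Fintype Y] [Fintype Ob] [Fintype St] [Fintype Th]
  [DecidableEq X] [DecidableEq Y] [DecidableEq Ob] [DecidableEq St] [DecidableEq Th]
  {n N s L : ℕ} {μ : ℕ → ℕ} {lam b : ℝ} {M : Sd X Y Ob St Th n}

/-- The failures with few common neighbours in `W`. -/
theorem failB (hS : SdHyp M N L μ lam b) (hb : 1000 ≤ b) (hN : 0 < (N : ℝ)) (ψ : X → ℝ)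
    (W : Finset Y) (hq0 : ∀ h ω x, 0 ≤ qc M.q ψ h ω x)
    (hq2 : ∀ h ω x, qc M.q ψ h ω x ≤ 2 * M.q h ω x)
    (hqp : ∀ (o : Ob) ω (S : Fin n → X),
      ∏ i, qc M.q ψ (M.sb o i) ω (S i) ≤ 4 / 3 * ∏ i, M.q (M.sb o i) ω (S i)) (t : Bool) (o : Ob) :
    EE M.P (fun ω => ∑ S : Fin n → X, ind ((ω (M.th t o) ∈ W ∧ M.ev t o ω) ∧
      (((NbS M.ok S) ∩ W).card : ℝ) * b ^ 12 < N) * ∏ i, qc M.q ψ (M.sb o i) ω (S i)) ≤
      2 / b ^ 11 := by
  have hb0 : 0 < b := by linarith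
  have h1 : EE M.P (fun ω => ∑ S : Fin n → X, ind ((ω (M.th t o) ∈ W ∧ M.ev t o ω) ∧
      (((NbS M.ok S) ∩ W).card : ℝ) * b ^ 12 < N) * ∏ i, qc M.q ψ (M.sb o i) ω (S i)) ≤
      EE M.P (fun ω => ∑ S : Fin n → X, ∑ y ∈ W, ind (ω (M.th t o) = y) *
        (ind (y ∈ NbS M.ok S ∧ (((NbS M.ok S) ∩ W).card : ℝ) * b ^ 12 < N) *
          (4 / 3 * b * ∏ i, M.qm t o i ω (S i)))) := by
    refine EE_mono hS.P0 fun ω _ => Finset.sum_le_sum fun S _ => ?_
    have hqm : 0 ≤ 4 / 3 * b * ∏ i, M.qm t o i ω (S i) := by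
      have := Finset.prod_nonneg (fun i (_ : i ∈ (univ : Finset (Fin n))) => hS.qm0 t o i ω (S i))
      positivity
    have h0 : ∀ y ∈ W, 0 ≤ ind (ω (M.th t o) = y) *
        (ind (y ∈ NbS M.ok S ∧ (((NbS M.ok S) ∩ W).card : ℝ) * b ^ 12 < N) *
          (4 / 3 * b * ∏ i, M.qm t o i ω (S i))) := fun y _ =>
      mul_nonneg (i0 _) (mul_nonneg (i0 _) hqm)
    by_cases hc : (ω (M.th t o) ∈ W ∧ M.ev t o ω) ∧
      (((NbS M.ok S) ∩ W).card : ℝ) * b ^ 12 < N
    swap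
    · rw [iF hc, zero_mul]
      exact Finset.sum_nonneg h0
    rw [iT hc, one_mul]
    obtain ⟨⟨hW, hev⟩, hsm⟩ := hc
    by_cases hz : ∏ i, qc M.q ψ (M.sb o i) ω (S i) = 0
    · rw [hz]
      exact Finset.sum_nonneg h0
    have hNb : ω (M.th t o) ∈ NbS M.ok S := by
      unfold NbS
      rw [Finset.mem_filter]
      refine ⟨mem_univ _, fun i => hS.evs t o ω hev i (S i) fun h => hz ?_⟩
      refine Finset.prod_eq_zero (mem_univ i) ?_
      have h3 := hq0 (M.sb o i) ω (S i)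
      have h4 := hq2 (M.sb o i) ω (S i)
      rw [h, mul_zero] at h4
      linarith
    refine le_trans ?_ (Finset.single_le_sum h0 hW)
    rw [iT rfl, iT ⟨hNb, hsm⟩, one_mul, one_mul]
    have h3 := hqp o ω S
    have h4 := hS.evq t o ω hev S
    linarith
  refine h1.trans ?_
  rw [EE_sum]
  have h2 : ∀ S : Fin n → X, EE M.P (fun ω => ∑ y ∈ W, ind (ω (M.th t o) = y) *
        (ind (y ∈ NbS M.ok S ∧ (((NbS M.ok S) ∩ W).card : ℝ) * b ^ 12 < N) *
          (4 / 3 * b * ∏ i, M.qm t o i ω (S i)))) ≤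
      101 / 75 / b ^ 11 * EE M.P (fun ω => ∏ i, M.qm t o i ω (S i)) := by
    intro S
    have hE0 : 0 ≤ EE M.P (fun ω => ∏ i, M.qm t o i ω (S i)) :=
      EE_nonneg hS.P0 fun ω => Finset.prod_nonneg fun i _ => hS.qm0 t o i ω (S i)
    rw [EE_sum]
    have h3 : ∀ y ∈ W, EE M.P (fun ω => ind (ω (M.th t o) = y) *
        (ind (y ∈ NbS M.ok S ∧ (((NbS M.ok S) ∩ W).card : ℝ) * b ^ 12 < N) *
          (4 / 3 * b * ∏ i, M.qm t o i ω (S i)))) ≤
        101 / 75 * b / N * EE M.P (fun ω => ∏ i, M.qm t o i ω (S i)) *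
          ind (y ∈ NbS M.ok S ∧ (((NbS M.ok S) ∩ W).card : ℝ) * b ^ 12 < N) := by
      intro y _
      rw [res hS.P1 (M.th t o) y _ (fun ω y' => by simp only [hS.qmi]), EE_smul, EE_smul]
      have h4 : M.P (M.th t o) y ≤ 101 / 100 / N := (le_div_iff₀ hN).2 (hS.Ple _ _)
      have h5 : 0 ≤ ind (y ∈ NbS M.ok S ∧ (((NbS M.ok S) ∩ W).card : ℝ) * b ^ 12 < N) *
          (4 / 3 * b * EE M.P (fun ω => ∏ i, M.qm t o i ω (S i))) :=
        mul_nonneg (i0 _) (by positivity)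
      refine (mul_le_mul_of_nonneg_right h4 h5).trans (le_of_eq ?_)
      ring
    refine (Finset.sum_le_sum h3).trans ?_
    rw [← Finset.mul_sum]
    have h6 : ∑ y ∈ W, ind (y ∈ NbS M.ok S ∧ (((NbS M.ok S) ∩ W).card : ℝ) * b ^ 12 < N) ≤
        N / b ^ 12 := by
      by_cases hsm : (((NbS M.ok S) ∩ W).card : ℝ) * b ^ 12 < N
      · have h7 : ∀ y ∈ W, ind (y ∈ NbS M.ok S ∧ (((NbS M.ok S) ∩ W).card : ℝ) * b ^ 12 < N) =
            if y ∈ NbS M.ok S then 1 else 0 := by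
          intro y _
          by_cases hy : y ∈ NbS M.ok S
          · rw [iT ⟨hy, hsm⟩, if_pos hy]
          · rw [iF (fun h => hy h.1), if_neg hy]
        rw [Finset.sum_congr rfl h7, Finset.sum_ite_mem, Finset.sum_const, nsmul_eq_mul, mul_one,
          Finset.inter_comm]
        exact (le_div_iff₀ (by positivity)).2 hsm.le
      · rw [Finset.sum_eq_zero fun y _ => iF (fun h => hsm h.2)]
        positivity
    refine (mul_le_mul_of_nonneg_left h6 (by positivity)).trans (le_of_eq ?_)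
    field_simp
  refine (Finset.sum_le_sum fun S _ => h2 S).trans ?_
  rw [← Finset.mul_sum, ← EE_sum]
  have h7 : EE M.P (fun ω => ∑ S : Fin n → X, ∏ i, M.qm t o i ω (S i)) ≤ 1 := by
    rw [← EE_const hS.P1 (1 : ℝ)]
    exact EE_mono hS.P0 fun ω _ => sumProd1 _ (fun i x => hS.qm0 t o i ω x) fun i =>
      hS.qm1 t o i ω
  have h8 : 0 ≤ 101 / 75 / b ^ 11 := by positivity
  calc 101 / 75 / b ^ 11 * EE M.P (fun ω => ∑ S : Fin n → X, ∏ i, M.qm t o i ω (S i))
      ≤ 101 / 75 / b ^ 11 * 1 := mul_le_mul_of_nonneg_left h7 h8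
    _ ≤ 2 / b ^ 11 := by
      rw [mul_one]
      exact div_le_div_of_nonneg_right (by norm_num) (by positivity)


end

end S7

open S7 in
theorem s7 (h2 : S2Statement) (h3 : S3Statement) : S7Statement := by
  intro X Y Ob St Th _ _ _ _ _ _ _ _ _ _ n N s L μ lam b M ψ W hNum hS hψ hW1 hW2
  obtain ⟨hq0, hq1, hq2, -, hqp, -, -⟩ := h2 X Y Ob St Th n N s L μ lam b M ψ hNum hS hψ
  have hbs := h3 X Y Ob St Th n N s L μ lam b M ψ hNum hS hψ
  have hb := bNum hNum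
  have hb0 : 0 < b := by linarith
  have hN : 0 < (N : ℝ) := lt_of_lt_of_le (by positivity) hNum.hNb
  -- the terms
  obtain ⟨e, he⟩ : ∃ e : Bool → Ob → (Th → Y) → ℝ,
    e = fun t o ω => ind (ω (M.th t o) ∈ W ∧ M.ev t o ω) := ⟨_, rfl⟩
  obtain ⟨A, hA⟩ : ∃ A : Ob → (Th → Y) → ℝ, A = fun o ω => ∑ S : Fin n → X,
    ind (¬ M.fail o ω ∧ ¬ gd M.ok N b S) * ∏ i, qc M.q ψ (M.sb o i) ω (S i) := ⟨_, rfl⟩
  obtain ⟨B, hB⟩ : ∃ B : Bool → Ob → (Th → Y) → ℝ, B = fun t o ω => ∑ S : Fin n → X,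
    ind ((ω (M.th t o) ∈ W ∧ M.ev t o ω) ∧ (((NbS M.ok S) ∩ W).card : ℝ) * b ^ 12 < N) *
      ∏ i, qc M.q ψ (M.sb o i) ω (S i) := ⟨_, rfl⟩
  obtain ⟨I, hI⟩ : ∃ I : Ob → (Th → Y) → ℝ, I = fun o ω =>
    ind (ω (M.th true o) ∈ W) * ind (ω (M.th false o) ∈ W) := ⟨_, rfl⟩
  -- pointwise bound
  have hpt : ∀ o ω, e true o ω + e false o ω - I o ω - 2 * A o ω - B true o ω - B false o ω ≤
      ∑ S : Fin n → X, pw M.sb (fun h => qc M.q ψ h ω) o S * ind (gdW M.ok N b W S) := by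
    intro o ω
    have hsum : ∑ S : Fin n → X, ∏ i, qc M.q ψ (M.sb o i) ω (S i) = 1 := by
      rw [sumProd]
      exact Finset.prod_eq_one fun i _ => hq1 _ _
    have hbr : ∀ S : Fin n → X, (∏ i, qc M.q ψ (M.sb o i) ω (S i)) *
        (e true o ω + e false o ω - I o ω - 2 * ind (¬ M.fail o ω ∧ ¬ gd M.ok N b S) -
          ind ((ω (M.th true o) ∈ W ∧ M.ev true o ω) ∧
            (((NbS M.ok S) ∩ W).card : ℝ) * b ^ 12 < N) -
          ind ((ω (M.th false o) ∈ W ∧ M.ev false o ω) ∧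
            (((NbS M.ok S) ∩ W).card : ℝ) * b ^ 12 < N)) ≤
        pw M.sb (fun h => qc M.q ψ h ω) o S * ind (gdW M.ok N b W S) := by
      intro S
      unfold pw
      refine mul_le_mul_of_nonneg_left ?_ (Finset.prod_nonneg fun i _ => hq0 _ _ _)
      rw [he, hI]
      refine br _ _ _ _ _ (M.fail o ω) _ (gd M.ok N b S) (fun h => h.1) (fun h => h.1)
        (fun h => hS.evf _ _ _ h.2) (fun h => hS.evf _ _ _ h.2) ?_
      unfold gdW
      rw [not_lt]
    refine le_trans (le_of_eq ?_) (Finset.sum_le_sum fun S _ => hbr S)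
    rw [hA, hB]
    exact lin _ _ _ _ _ hsum
  have han : EE M.P (fun ω => ∑ o, (e true o ω + e false o ω - I o ω - 2 * A o ω -
      B true o ω - B false o ω)) ≤ an M ψ (fun _ S => ind (gdW M.ok N b W S)) := by
    unfold an
    refine EE_mono hS.P0 fun ω _ => ?_
    unfold tot
    exact Finset.sum_le_sum fun o _ => hpt o ω
  have hlin : EE M.P (fun ω => ∑ o, (e true o ω + e false o ω - I o ω - 2 * A o ω -
      B true o ω - B false o ω)) = ∑ o, EE M.P (e true o) + ∑ o, EE M.P (e false o) -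
        ∑ o, EE M.P (I o) - 2 * ∑ o, EE M.P (A o) - ∑ o, EE M.P (B true o) -
        ∑ o, EE M.P (B false o) := by
    rw [EE_sum, mul_sum, ← sum_add_distrib, ← sum_sub_distrib, ← sum_sub_distrib,
      ← sum_sub_distrib, ← sum_sub_distrib]
    refine sum_congr rfl fun o _ => ?_
    rw [EE_sub, EE_sub, EE_sub, EE_sub, EE_add, EE_smul]
  have hcE : ∀ t, 47 / 50 * (W.card : ℝ) ≤ ∑ o, EE M.P (e t o) := by
    intro t
    have h1 : ∑ o, EE M.P (e t o) =
        ∑ y ∈ W, EE M.P (fun ω => ∑ o, ind (ω (M.th t o) = y ∧ M.ev t o ω)) := by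
      rw [← EE_sum, ← EE_sum]
      congr 1
      funext ω
      rw [Finset.sum_comm]
      refine sum_congr rfl fun o _ => ?_
      rw [he]
      exact indW2 W _ _
    rw [h1]
    refine le_trans (le_of_eq ?_) (Finset.card_nsmul_le_sum W _ (47 / 50)
      fun y _ => hS.g3 t y)
    rw [nsmul_eq_mul]
    ring
  have hW1' : 10 * (W.card : ℝ) ≤ N := by exact_mod_cast hW1
  have hw0 : 0 < (W.card : ℝ) := by
    by_contra hc
    have h1 : 4 * b * (W.card : ℝ) ≤ 0 := mul_nonpos_of_nonneg_of_nonpos (by positivity)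
      (not_lt.1 hc)
    linarith
  have hw1 : 1 ≤ (W.card : ℝ) := by
    have : 0 < W.card := by exact_mod_cast hw0
    exact_mod_cast this
  have hcI : ∑ o, EE M.P (I o) ≤ 10201 / 100000 * W.card := by
    have h1 : ∀ o ∈ (univ : Finset Ob), EE M.P (I o) ≤ (101 / 100 * W.card / N) ^ 2 := by
      intro o _
      rw [hI]
      exact pair hS.P0 hS.P1 hN hS.Ple W _ _ (hS.thne o)
    refine (Finset.sum_le_card_nsmul _ _ _ h1).trans ?_
    rw [nsmul_eq_mul, Finset.card_univ, hS.cO]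
    have h2 : (N : ℝ) * (101 / 100 * W.card / N) ^ 2 =
        10201 / 10000 * W.card * (W.card / N) := by
      field_simp
      norm_num
    rw [h2]
    have h3 : (W.card : ℝ) / N ≤ 1 / 10 := by
      rw [div_le_div_iff₀ hN (by norm_num)]
      linarith
    have h4 := mul_le_mul_of_nonneg_left h3 (by positivity : 0 ≤ 10201 / 10000 * (W.card : ℝ))
    linarith
  have hcA : ∑ o, EE M.P (A o) ≤ 1 / b ^ 100 := by
    rw [← EE_sum]
    refine le_trans (EE_mono hS.P0 fun ω _ => ?_) hbs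
    unfold bsum
    refine Finset.sum_le_sum fun o _ => ?_
    have h1 : ∀ A' ∈ univ.filter (fun A : Finset (Fin n) => A.card ≤ 300), 0 ≤
        ∑ S : Fin n → X, ind (¬ M.fail o ω ∧ ¬ gd M.ok N b S ∧
          ∀ i ∈ A', M.q (M.sb o i) ω (S i) ≠ 0) *
        ∏ i ∈ A'ᶜ, qc M.q ψ (M.sb o i) ω (S i) := fun A' _ =>
      Finset.sum_nonneg fun S _ => mul_nonneg (i0 _) (Finset.prod_nonneg fun i _ => hq0 _ _ _)
    refine le_trans (le_of_eq ?_) (Finset.single_le_sum h1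
      (Finset.mem_filter.2 ⟨mem_univ (∅ : Finset (Fin n)), by simp⟩))
    rw [hA]
    refine Finset.sum_congr rfl fun S _ => ?_
    rw [Finset.compl_empty]
    congr 1
    by_cases hf : ¬ M.fail o ω ∧ ¬ gd M.ok N b S
    · rw [iT hf, iTT hf.1 ⟨hf.2, fun i hi => absurd hi (Finset.notMem_empty i)⟩]
    · rw [iF hf]
      exact (iF fun h => hf ⟨h.1, h.2.1⟩).symm
  have hcB : ∀ t, ∑ o, EE M.P (B t o) ≤ 8 * W.card / b ^ 10 := by
    intro t
    have h1 : ∀ o ∈ (univ : Finset Ob), EE M.P (B t o) ≤ 2 / b ^ 11 := by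
      intro o _
      rw [hB]
      exact failB hS hb hN ψ W hq0 hq2 (fun o ω S => hqp o ω univ S) t o
    refine (Finset.sum_le_card_nsmul _ _ _ h1).trans ?_
    rw [nsmul_eq_mul, Finset.card_univ, hS.cO]
    refine (mul_le_mul_of_nonneg_right hW2 (by positivity)).trans (le_of_eq ?_)
    field_simp
    norm_num
  have hn1 : 1 / b ^ 100 ≤ 1 / 1000 := by
    refine one_div_le_one_div_of_le (by norm_num) (hb.trans ?_)
    exact le_self_pow₀ (by linarith) (by norm_num)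
  have hn2 : 8 * (W.card : ℝ) / b ^ 10 ≤ 8 / 1000 * W.card := by
    rw [div_le_iff₀ (by positivity)]
    have h1 : (1000 : ℝ) ≤ b ^ 10 := hb.trans (le_self_pow₀ (by linarith) (by norm_num))
    have h2 := mul_le_mul_of_nonneg_left h1 (by positivity : 0 ≤ 8 / 1000 * (W.card : ℝ))
    linarith
  have h1 := hcE true
  have h2 := hcE false
  have h3 := hcB true
  have h4 := hcB false
  rw [hlin] at han
  linarith

end Pool.Agent.FQ
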