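import Pool.Agent.FQ.SDefs

/-!
# Project FQ, row S8: single vertices and pairs
-/

set_option autoImplicit false

namespace Pool.Agent.FQ

open Finset Classical
open Pool.Agent.H73.Cube (EE Loc EE_mono EE_add EE_sub EE_smul EE_nonneg)

theorem s8_ind_nonneg (p : Prop) : 0 ≤ ind p := by
  unfold ind
  split_ifs <;> norm_num

theorem s8_ind_le_one (p : Prop) : ind p ≤ 1 := by
  unfold ind
  split_ifs <;> norm_num

theorem s8 (h2 : S2Statement) (h3 : S3Statement) : S8Statement := by
  intro X Y Ob St Th _ _ _ _ _ _ _ _ _ _ n N s L μ lam b M ψ hN hM hψ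
  obtain ⟨qc0, qc1, -, -, -, qlow, -⟩ := h2 X Y Ob St Th n N s L μ lam b M ψ hN hM hψ
  have hbad := h3 X Y Ob St Th n N s L μ lam b M ψ hN hM hψ
  have hn : (1000 : ℝ) ≤ n := by exact_mod_cast hN.hn
  have hb1 : (1000 : ℝ) ≤ b := by
    have h1 : (n : ℝ) ^ 1 ≤ (n : ℝ) ^ 400 := pow_le_pow_right₀ (by linarith) (by norm_num)
    have h4 := hN.hnb
    rw [pow_one] at h1
    linarith
  have hb0 : 0 < b := by linarith
  have hNb : b ≤ N := by
    have h1 : b ^ 1 ≤ b ^ 5000 := pow_le_pow_right₀ (by linarith) (by norm_num)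
    have h4 := hN.hNb
    rw [pow_one] at h1
    linarith
  have hpw0 : ∀ ω o S, 0 ≤ pw M.sb (fun h => qc M.q ψ h ω) o S := fun ω o S =>
    prod_nonneg fun i _ => qc0 _ _ _
  have hpair : ∀ y y', 27 / 40 * (N : ℝ) ≤ an M ψ (two M.ok y y') * b := by
    intro y y'
    have h1 := hM.g2 y y'
    have h4 : 3 / 4 * EE M.P (fun ω => tot M.sb (fun h => M.q h ω) (two M.ok y y')) ≤
        an M ψ (two M.ok y y') := by
      rw [← EE_smul]
      refine EE_mono hM.P0 fun ω _ => ?_
      unfold tot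
      rw [mul_sum]
      refine sum_le_sum fun o _ => ?_
      rw [mul_sum]
      refine sum_le_sum fun S _ => ?_
      rw [← mul_assoc]
      exact mul_le_mul_of_nonneg_right (qlow o ω univ S) (s8_ind_nonneg _)
    have h5 := mul_le_mul_of_nonneg_right h4 hb0.le
    linarith
  refine ⟨fun y => ?_, fun y y' => ?_⟩
  · have h1 := hpair y y
    have hbs : ∀ ω, ∑ o, ∑ S : Fin n → X, ind (¬ M.fail o ω ∧ ¬ gd M.ok N b S) *
        pw M.sb (fun h => qc M.q ψ h ω) o S ≤ bsum M N b ψ ω := by
      intro ω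
      unfold bsum
      refine sum_le_sum fun o _ => ?_
      have h4 : ∑ S : Fin n → X, ind (¬ M.fail o ω ∧ ¬ gd M.ok N b S) *
          pw M.sb (fun h => qc M.q ψ h ω) o S = ∑ S : Fin n → X,
          ind (¬ M.fail o ω ∧ ¬ gd M.ok N b S ∧
            ∀ i ∈ (∅ : Finset (Fin n)), M.q (M.sb o i) ω (S i) ≠ 0) *
          ∏ i ∈ (∅ : Finset (Fin n))ᶜ, qc M.q ψ (M.sb o i) ω (S i) := by
        refine sum_congr rfl fun S _ => ?_
        rw [compl_empty]
        simp only [notMem_empty, IsEmpty.forall_iff, implies_true, and_true]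
        rfl
      rw [h4]
      exact single_le_sum (f := fun A : Finset (Fin n) => ∑ S : Fin n → X,
          ind (¬ M.fail o ω ∧ ¬ gd M.ok N b S ∧ ∀ i ∈ A, M.q (M.sb o i) ω (S i) ≠ 0) *
          ∏ i ∈ Aᶜ, qc M.q ψ (M.sb o i) ω (S i))
        (fun A _ => sum_nonneg fun S _ => mul_nonneg (s8_ind_nonneg _)
          (prod_nonneg fun i _ => qc0 _ _ _))
        (mem_filter.2 ⟨mem_univ _, by simp⟩)
    have hpt : ∀ ω, tot M.sb (fun h => qc M.q ψ h ω) (two M.ok y y) ≤
        tot M.sb (fun h => qc M.q ψ h ω) (fun _ S => ind (gd M.ok N b S ∧ y ∈ NbS M.ok S)) +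
        (∑ o, ind (M.fail o ω) + bsum M N b ψ ω) := by
      intro ω
      have h4 : tot M.sb (fun h => qc M.q ψ h ω) (two M.ok y y) ≤
          tot M.sb (fun h => qc M.q ψ h ω) (fun _ S => ind (gd M.ok N b S ∧ y ∈ NbS M.ok S)) +
          (∑ o, ind (M.fail o ω) + ∑ o, ∑ S : Fin n → X, ind (¬ M.fail o ω ∧ ¬ gd M.ok N b S) *
            pw M.sb (fun h => qc M.q ψ h ω) o S) := by
        unfold tot
        rw [← sum_add_distrib, ← sum_add_distrib]
        refine sum_le_sum fun o _ => ?_
        have h5 : ∑ S : Fin n → X, pw M.sb (fun h => qc M.q ψ h ω) o S = 1 := by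
          unfold pw
          have h6 := Finset.prod_univ_sum (fun _ : Fin n => (univ : Finset X))
            (fun i x => qc M.q ψ (M.sb o i) ω x)
          rw [Fintype.piFinset_univ] at h6
          rw [← h6]
          exact prod_eq_one fun i _ => qc1 _ _
        have h7 : ind (M.fail o ω) = ∑ S : Fin n → X,
            pw M.sb (fun h => qc M.q ψ h ω) o S * ind (M.fail o ω) := by
          rw [← sum_mul, h5, one_mul]
        rw [h7, ← sum_add_distrib, ← sum_add_distrib]
        refine sum_le_sum fun S _ => ?_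
        have h8 := hpw0 ω o S
        have h9 : two M.ok y y o S ≤ ind (gd M.ok N b S ∧ y ∈ NbS M.ok S) +
            (ind (M.fail o ω) + ind (¬ M.fail o ω ∧ ¬ gd M.ok N b S)) := by
          unfold two ind
          by_cases a1 : y ∈ NbS M.ok S <;> by_cases a2 : gd M.ok N b S <;>
            by_cases a3 : M.fail o ω <;> simp [a1, a2, a3]
        have h10 := mul_le_mul_of_nonneg_left h9 h8
        linarith
      have := hbs ω
      linarith
    have h4 : an M ψ (two M.ok y y) ≤
        an M ψ (fun _ S => ind (gd M.ok N b S ∧ y ∈ NbS M.ok S)) + 2 / b ^ 100 := by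
      have h5 := EE_mono hM.P0 (f := fun ω => tot M.sb (fun h => qc M.q ψ h ω) (two M.ok y y))
        (g := fun ω => tot M.sb (fun h => qc M.q ψ h ω)
          (fun _ S => ind (gd M.ok N b S ∧ y ∈ NbS M.ok S)) +
          (∑ o, ind (M.fail o ω) + bsum M N b ψ ω)) (fun ω _ => hpt ω)
      rw [EE_add, EE_add] at h5
      have h6 := hM.failE
      unfold an
      have h7 : (2 : ℝ) / b ^ 100 = 1 / b ^ 100 + 1 / b ^ 100 := by ring
      rw [h7]
      linarith
    have h5 := mul_le_mul_of_nonneg_right h4 hb0.le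
    have h6 : 2 / b ^ 100 * b ≤ 1 := by
      have h7 : b * 2 ≤ b ^ 100 := by
        have h8 : b ^ 2 ≤ b ^ 100 := pow_le_pow_right₀ (by linarith) (by norm_num)
        nlinarith
      rw [div_mul_eq_mul_div, div_le_one (by positivity)]
      linarith
    linarith
  · have h1 := hpair y y'
    have h4 : (0 : ℝ) ≤ N := by positivity
    linarith

end Pool.Agent.FQ
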