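import Pool.Agent.FQ.SDefs

/-!
# Project FQ, row S9: from the three regimes to the weights (abstract)

See note 5216 on MP_a55b9e_co, part II.
-/

set_option autoImplicit false

namespace Pool.Agent.FQ

open Finset Classical
open Pool.Agent.H73.Cube (EE Loc)

theorem s9_ind_nonneg (p : Prop) : 0 ≤ ind p := by
  unfold ind
  split_ifs
  · exact zero_le_one
  · exact le_refl _

theorem s9_ind_le_one (p : Prop) : ind p ≤ 1 := by
  unfold ind
  split_ifs
  · exact le_refl _
  · exact zero_le_one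

theorem s9_ind_pos {p : Prop} (h : p) : ind p = 1 := by
  unfold ind
  rw [if_pos h]

theorem s9_ind_neg {p : Prop} (h : ¬ p) : ind p = 0 := by
  unfold ind
  rw [if_neg h]

theorem s9_ind_and (p q : Prop) : ind (p ∧ q) = ind p * ind q := by
  by_cases hp : p
  · by_cases hq : q
    · rw [s9_ind_pos hp, s9_ind_pos hq, s9_ind_pos (And.intro hp hq), mul_one]
    · rw [s9_ind_neg hq, s9_ind_neg (fun h => hq h.2), mul_zero]
  · rw [s9_ind_neg hp, s9_ind_neg (fun h => hp h.1), zero_mul]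

theorem s9_cnt {Y : Type} [DecidableEq Y] (A W : Finset Y) :
    ∑ y ∈ W, ind (y ∈ A) = ((A ∩ W).card : ℝ) := by
  have h : ((A ∩ W).card : ℝ) = ∑ y ∈ W, if y ∈ A then (1 : ℝ) else 0 := by
    rw [Finset.sum_boole, Finset.filter_mem_eq_inter, Finset.inter_comm]
  rw [h]
  refine Finset.sum_congr rfl fun y _ => ?_
  by_cases hy : y ∈ A
  · rw [s9_ind_pos hy, if_pos hy]
  · rw [s9_ind_neg hy, if_neg hy]

theorem s9_pow {b : ℝ} (hb : 1000 ≤ b) {m k : ℕ} (h : m < k) : 1000 * b ^ m ≤ b ^ k := by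
  have h1 : b ^ (m + 1) ≤ b ^ k := pow_le_pow_right₀ (by linarith) h
  have h2 : 0 ≤ b ^ m := pow_nonneg (by linarith) m
  calc 1000 * b ^ m ≤ b * b ^ m := mul_le_mul_of_nonneg_right hb h2
    _ = b ^ (m + 1) := by ring
    _ ≤ b ^ k := h1

/-- The transport plan. -/
theorem s9_plan (hLP : LPStatement) {I Y : Type} [Fintype I] [Fintype Y] [DecidableEq I]
    [DecidableEq Y] (N : ℕ) (b : ℝ) (π : I → ℝ) (A : I → Finset Y)
    (hcard : Fintype.card Y = N) (hN : 0 < N) (hb : 1000 ≤ b) (hπ0 : ∀ i, 0 ≤ π i)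
    (hπ1 : ∑ i, π i = 1)
    (H1 : ∀ W : Finset Y, N ≤ 10 * W.card → 1 - (Wᶜ.card : ℝ) / (2 * N) - 1 / b ^ 50 ≤
      ∑ i, π i * ind ((N : ℝ) ≤ ((A i).card : ℝ) * b ^ 4 ∧ (N : ℝ) ≤ ((A i ∩ W).card : ℝ) * b ^ 12))
    (H2 : ∀ W : Finset Y, 10 * W.card ≤ N → (N : ℝ) ≤ 4 * b * W.card →
      17 / 10 * ((W.card : ℝ) / N) ≤
      ∑ i, π i * ind ((N : ℝ) ≤ ((A i).card : ℝ) * b ^ 4 ∧ (N : ℝ) ≤ ((A i ∩ W).card : ℝ) * b ^ 12))
    (H3 : ∀ y, 13 / 20 ≤ (∑ i, π i * ind ((N : ℝ) ≤ ((A i).card : ℝ) * b ^ 4 ∧ y ∈ A i)) * b)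
    (a : Y → ℝ)
    (ha : ∀ y, a y = ∑ i, π i * ind ((N : ℝ) ≤ ((A i).card : ℝ) * b ^ 4 ∧ y ∈ A i)) :
    ∃ p : I → Y → ℝ, (∀ i v, 0 ≤ p i v) ∧
      (∀ i v, p i v ≤ ind ((N : ℝ) ≤ ((A i).card : ℝ) * b ^ 4 ∧ v ∈ A i) * (b ^ 12 / N)) ∧
      (∀ i, ∑ v, p i v ≤
        ind ((N : ℝ) ≤ ((A i).card : ℝ) * b ^ 4) * (1 - 1 / b ^ 8 * (A i).card / N)) ∧
      ∀ v, ∑ i, π i * p i v = (1 - 1 / b ^ 20) * (1 - 1 / b ^ 8 * a v) / N := by
  have hb0 : 0 < b := by linarith
  have hN0 : (0 : ℝ) < N := by exact_mod_cast hN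
  have hA : ∀ i, ((A i).card : ℝ) ≤ N := by
    intro i
    rw [← hcard]
    exact_mod_cast Finset.card_le_univ (A i)
  obtain ⟨e, he⟩ : ∃ e : ℝ, e = 1 / b ^ 8 := ⟨_, rfl⟩
  obtain ⟨z, hz⟩ : ∃ z : ℝ, z = 1 / b ^ 20 := ⟨_, rfl⟩
  have he0 : 0 < e := by rw [he]; positivity
  have hz0 : 0 < z := by rw [hz]; positivity
  have he1 : e ≤ 1 / 1000 := by
    rw [he]
    have := s9_pow hb (show 0 < 8 by norm_num)
    exact one_div_le_one_div_of_le (by norm_num) (by linarith)
  have hz1 : z ≤ 1 / 1000 := by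
    rw [hz]
    have := s9_pow hb (show 0 < 20 by norm_num)
    exact one_div_le_one_div_of_le (by norm_num) (by linarith)
  have h50 : 1 / b ^ 50 ≤ z / 20 := by
    rw [hz, div_div]
    have h1 := s9_pow hb (show 20 < 50 by norm_num)
    have h2 : 0 ≤ b ^ 20 := by positivity
    exact one_div_le_one_div_of_le (by positivity) (by linarith)
  have ha0 : ∀ y, 0 ≤ a y := by
    intro y
    rw [ha]
    exact Finset.sum_nonneg fun i _ => mul_nonneg (hπ0 i) (s9_ind_nonneg _)
  have ha1 : ∀ y, a y ≤ 1 := by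
    intro y
    rw [ha, ← hπ1]
    exact Finset.sum_le_sum fun i _ => mul_le_of_le_one_right (hπ0 i) (s9_ind_le_one _)
  have hfrac : ∀ i, 0 ≤ ((A i).card : ℝ) / N ∧ ((A i).card : ℝ) / N ≤ 1 := fun i =>
    ⟨by positivity, (div_le_one hN0).2 (hA i)⟩
  have hr0 : ∀ i, 1 / 2 ≤ 1 - e * (A i).card / N := by
    intro i
    have h1 := (hfrac i).1
    have h2 := (hfrac i).2
    rw [mul_div_assoc]
    nlinarith
  have hsumA : ∀ W : Finset Y, ∑ y ∈ W, a y =
      ∑ i, π i * (ind ((N : ℝ) ≤ ((A i).card : ℝ) * b ^ 4) * ((A i ∩ W).card : ℝ)) := by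
    intro W
    simp_rw [ha]
    rw [Finset.sum_comm]
    refine Finset.sum_congr rfl fun i _ => ?_
    rw [← Finset.mul_sum]
    congr 1
    simp_rw [s9_ind_and]
    rw [← Finset.mul_sum, s9_cnt]
  have hκ : ∀ (i : I) (W : Finset Y),
      ∑ y ∈ W, ind ((N : ℝ) ≤ ((A i).card : ℝ) * b ^ 4 ∧ y ∈ A i) * (b ^ 12 / N) =
      ind ((N : ℝ) ≤ ((A i).card : ℝ) * b ^ 4) * (((A i ∩ W).card : ℝ) * b ^ 12 / N) := by
    intro i W
    simp_rw [s9_ind_and]
    rw [← Finset.sum_mul, ← Finset.mul_sum, s9_cnt]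
    ring
  rw [← he, ← hz]
  refine hLP I Y π (fun i => ind ((N : ℝ) ≤ ((A i).card : ℝ) * b ^ 4) *
      (1 - e * (A i).card / N))
    (fun i v => ind ((N : ℝ) ≤ ((A i).card : ℝ) * b ^ 4 ∧ v ∈ A i) * (b ^ 12 / N))
    (fun v => (1 - z) * (1 - e * a v) / N) hπ0 ?_ ?_ ?_ ?_
  · intro i
    exact mul_nonneg (s9_ind_nonneg _) (by linarith [hr0 i])
  · intro i v
    exact mul_nonneg (s9_ind_nonneg _) (by positivity)
  · intro v
    have h1 := ha0 v
    have h2 := ha1 v
    refine div_nonneg (mul_nonneg (by linarith) ?_) hN0.le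
    nlinarith
  · intro W
    have ht : ∑ v ∈ W, (1 - z) * (1 - e * a v) / N =
        (1 - z) * ((W.card : ℝ) / N - e * ((∑ v ∈ W, a v) / N)) := by
      have h1 : ∀ v, (1 - z) * (1 - e * a v) / N = (1 - z) / N - (1 - z) * e / N * a v := by
        intro v
        ring
      simp_rw [h1]
      rw [Finset.sum_sub_distrib, ← Finset.mul_sum, Finset.sum_const, nsmul_eq_mul]
      ring
    rw [ht]
    have hAW0 : 0 ≤ ∑ v ∈ W, a v := Finset.sum_nonneg fun v _ => ha0 v
    have hAW1 : ∑ v ∈ W, a v ≤ W.card := by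
      calc ∑ v ∈ W, a v ≤ ∑ _v ∈ W, (1 : ℝ) := Finset.sum_le_sum fun v _ => ha1 v
        _ = W.card := by simp
    have hAW0' : 0 ≤ (∑ v ∈ W, a v) / N := div_nonneg hAW0 hN0.le
    have hAW1' : (∑ v ∈ W, a v) / N ≤ (W.card : ℝ) / N :=
      div_le_div_of_nonneg_right hAW1 hN0.le
    simp only [hκ]
    -- the terms are nonnegative
    have hmin0 : ∀ i, 0 ≤ min (ind ((N : ℝ) ≤ ((A i).card : ℝ) * b ^ 4) *
        (1 - e * (A i).card / N)) (ind ((N : ℝ) ≤ ((A i).card : ℝ) * b ^ 4) *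
          (((A i ∩ W).card : ℝ) * b ^ 12 / N)) := by
      intro i
      refine le_min (mul_nonneg (s9_ind_nonneg _) (by linarith [hr0 i]))
        (mul_nonneg (s9_ind_nonneg _) (by positivity))
    -- the terms of the good indices
    have hminV : ∀ i, ind ((N : ℝ) ≤ ((A i).card : ℝ) * b ^ 4 ∧
        (N : ℝ) ≤ ((A i ∩ W).card : ℝ) * b ^ 12) * (1 - e * (A i).card / N) ≤
        min (ind ((N : ℝ) ≤ ((A i).card : ℝ) * b ^ 4) *
        (1 - e * (A i).card / N)) (ind ((N : ℝ) ≤ ((A i).card : ℝ) * b ^ 4) *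
          (((A i ∩ W).card : ℝ) * b ^ 12 / N)) := by
      intro i
      by_cases hV : (N : ℝ) ≤ ((A i).card : ℝ) * b ^ 4 ∧
        (N : ℝ) ≤ ((A i ∩ W).card : ℝ) * b ^ 12
      · rw [s9_ind_pos hV, s9_ind_pos hV.1, one_mul, one_mul]
        refine le_min (le_refl _) ?_
        have h1 : 1 ≤ ((A i ∩ W).card : ℝ) * b ^ 12 / N := (one_le_div hN0).2 hV.2
        have h2 := (hfrac i).1
        have h3 : 1 - e * (A i).card / N ≤ 1 := by
          rw [mul_div_assoc]
          nlinarith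
        linarith
      · rw [s9_ind_neg hV, zero_mul]
        exact hmin0 i
    have hsumV : ∑ i, π i * (ind ((N : ℝ) ≤ ((A i).card : ℝ) * b ^ 4 ∧
        (N : ℝ) ≤ ((A i ∩ W).card : ℝ) * b ^ 12) * (1 - e * (A i).card / N)) ≤
        ∑ i, π i * min (ind ((N : ℝ) ≤ ((A i).card : ℝ) * b ^ 4) *
        (1 - e * (A i).card / N)) (ind ((N : ℝ) ≤ ((A i).card : ℝ) * b ^ 4) *
          (((A i ∩ W).card : ℝ) * b ^ 12 / N)) :=
      Finset.sum_le_sum fun i _ => mul_le_mul_of_nonneg_left (hminV i) (hπ0 i)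
    rcases Nat.lt_or_ge (10 * W.card) N with hW | hW
    · by_cases hW2 : (N : ℝ) ≤ 4 * b * W.card
      · -- middle size
        have h1 := H2 W hW.le hW2
        refine le_trans ?_ hsumV
        have h2 : (1 - e) * ∑ i, π i * ind ((N : ℝ) ≤ ((A i).card : ℝ) * b ^ 4 ∧
            (N : ℝ) ≤ ((A i ∩ W).card : ℝ) * b ^ 12) ≤
            ∑ i, π i * (ind ((N : ℝ) ≤ ((A i).card : ℝ) * b ^ 4 ∧
              (N : ℝ) ≤ ((A i ∩ W).card : ℝ) * b ^ 12) * (1 - e * (A i).card / N)) := by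
          rw [Finset.mul_sum]
          refine Finset.sum_le_sum fun i _ => ?_
          have h3 : 0 ≤ π i * ind ((N : ℝ) ≤ ((A i).card : ℝ) * b ^ 4 ∧
            (N : ℝ) ≤ ((A i ∩ W).card : ℝ) * b ^ 12) := mul_nonneg (hπ0 i) (s9_ind_nonneg _)
          have h4 : 1 - e ≤ 1 - e * (A i).card / N := by
            rw [mul_div_assoc]
            have := (hfrac i).2
            nlinarith
          calc (1 - e) * (π i * ind ((N : ℝ) ≤ ((A i).card : ℝ) * b ^ 4 ∧
            (N : ℝ) ≤ ((A i ∩ W).card : ℝ) * b ^ 12)) ≤ (1 - e * (A i).card / N) *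
              (π i * ind ((N : ℝ) ≤ ((A i).card : ℝ) * b ^ 4 ∧
            (N : ℝ) ≤ ((A i ∩ W).card : ℝ) * b ^ 12)) := mul_le_mul_of_nonneg_right h4 h3
            _ = _ := by ring
        refine le_trans ?_ h2
        have h5 : 0 ≤ (W.card : ℝ) / N := by positivity
        have h6 : (1 - e) * (17 / 10 * ((W.card : ℝ) / N)) ≤
            (1 - e) * ∑ i, π i * ind ((N : ℝ) ≤ ((A i).card : ℝ) * b ^ 4 ∧
            (N : ℝ) ≤ ((A i ∩ W).card : ℝ) * b ^ 12) :=
          mul_le_mul_of_nonneg_left h1 (by linarith)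
        refine le_trans ?_ h6
        have h7 : (1 - z) * ((W.card : ℝ) / N - e * ((∑ v ∈ W, a v) / N)) ≤
            (W.card : ℝ) / N := by
          have h8 : 0 ≤ e * ((∑ v ∈ W, a v) / N) := mul_nonneg he0.le hAW0'
          have h9 : (1 - z) * ((W.card : ℝ) / N - e * ((∑ v ∈ W, a v) / N)) ≤
              (1 - z) * ((W.card : ℝ) / N) :=
            mul_le_mul_of_nonneg_left (by linarith) (by linarith)
          nlinarith
        nlinarith
      · -- small
        push Not at hW2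
        have h7 : (1 - z) * ((W.card : ℝ) / N - e * ((∑ v ∈ W, a v) / N)) ≤
            (W.card : ℝ) / N := by
          have h5 : 0 ≤ (W.card : ℝ) / N := by positivity
          have h8 : 0 ≤ e * ((∑ v ∈ W, a v) / N) := mul_nonneg he0.le hAW0'
          have h9 : (1 - z) * ((W.card : ℝ) / N - e * ((∑ v ∈ W, a v) / N)) ≤
              (1 - z) * ((W.card : ℝ) / N) :=
            mul_le_mul_of_nonneg_left (by linarith) (by linarith)
          nlinarith
        refine le_trans h7 ?_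
        rcases W.eq_empty_or_nonempty with hWe | hWe
        · subst hWe
          rw [Finset.card_empty, Nat.cast_zero, zero_div]
          exact Finset.sum_nonneg fun i _ => mul_nonneg (hπ0 i) (hmin0 i)
        · have hWc : (0 : ℝ) < W.card := by exact_mod_cast hWe.card_pos
          obtain ⟨kp, hkp⟩ : ∃ kp : ℝ, kp = min (b ^ 12 / N) (1 / (2 * W.card)) := ⟨_, rfl⟩
          have hkp0 : 0 ≤ kp := by
            rw [hkp]
            exact le_min (by positivity) (by positivity)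
          have hk1 : kp ≤ b ^ 12 / N := hkp ▸ min_le_left _ _
          have hk2 : kp ≤ 1 / (2 * W.card) := hkp ▸ min_le_right _ _
          have hmk : ∀ i, ind ((N : ℝ) ≤ ((A i).card : ℝ) * b ^ 4) *
              ((A i ∩ W).card : ℝ) * kp ≤
              min (ind ((N : ℝ) ≤ ((A i).card : ℝ) * b ^ 4) *
              (1 - e * (A i).card / N)) (ind ((N : ℝ) ≤ ((A i).card : ℝ) * b ^ 4) *
              (((A i ∩ W).card : ℝ) * b ^ 12 / N)) := by
            intro i
            have hc0 : (0 : ℝ) ≤ ((A i ∩ W).card : ℝ) := Nat.cast_nonneg _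
            have hc1 : ((A i ∩ W).card : ℝ) ≤ W.card := by
              exact_mod_cast Finset.card_le_card Finset.inter_subset_right
            refine le_min ?_ ?_
            · rw [mul_assoc]
              refine mul_le_mul_of_nonneg_left ?_ (s9_ind_nonneg _)
              refine le_trans ?_ (hr0 i)
              calc ((A i ∩ W).card : ℝ) * kp ≤ W.card * (1 / (2 * W.card)) :=
                    mul_le_mul hc1 hk2 hkp0 hWc.le
                _ = 1 / 2 := by field_simp
            · rw [mul_assoc]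
              refine mul_le_mul_of_nonneg_left ?_ (s9_ind_nonneg _)
              calc ((A i ∩ W).card : ℝ) * kp ≤ ((A i ∩ W).card : ℝ) * (b ^ 12 / N) :=
                    mul_le_mul_of_nonneg_left hk1 hc0
                _ = ((A i ∩ W).card : ℝ) * b ^ 12 / N := by ring
          have h10 : (∑ v ∈ W, a v) * kp ≤ ∑ i, π i *
              min (ind ((N : ℝ) ≤ ((A i).card : ℝ) * b ^ 4) *
              (1 - e * (A i).card / N)) (ind ((N : ℝ) ≤ ((A i).card : ℝ) * b ^ 4) *
              (((A i ∩ W).card : ℝ) * b ^ 12 / N)) := by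
            rw [hsumA W, Finset.sum_mul]
            refine Finset.sum_le_sum fun i _ => ?_
            rw [mul_assoc]
            exact mul_le_mul_of_nonneg_left (hmk i) (hπ0 i)
          refine le_trans ?_ h10
          have h11 : (W.card : ℝ) * (13 / 20 / b) ≤ ∑ v ∈ W, a v := by
            have h12 : ∀ v ∈ W, 13 / 20 / b ≤ a v := by
              intro v _
              rw [div_le_iff₀ hb0, ha]
              exact H3 v
            have h13 := Finset.card_nsmul_le_sum W a (13 / 20 / b) h12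
            rwa [nsmul_eq_mul] at h13
          have h14 : 1 / (N : ℝ) ≤ 13 / 20 / b * kp := by
            rw [hkp, mul_min_of_nonneg _ _ (by positivity)]
            refine le_min ?_ ?_
            · have h15 : 13 / 20 / b * (b ^ 12 / N) = 13 / 20 * b ^ 11 / N := by
                field_simp
              rw [h15]
              refine div_le_div_of_nonneg_right ?_ hN0.le
              have h16 := s9_pow hb (show 0 < 11 by norm_num)
              rw [pow_zero, mul_one] at h16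
              linarith
            · have h17 : 13 / 20 / b * (1 / (2 * W.card)) = (13 / 10) / (4 * b * W.card) := by
                field_simp
                norm_num
              rw [h17, div_le_div_iff₀ hN0 (by positivity)]
              nlinarith
          calc (W.card : ℝ) / N = W.card * (1 / N) := by ring
            _ ≤ W.card * (13 / 20 / b * kp) := mul_le_mul_of_nonneg_left h14 hWc.le
            _ = W.card * (13 / 20 / b) * kp := by ring
            _ ≤ (∑ v ∈ W, a v) * kp := mul_le_mul_of_nonneg_right h11 hkp0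
    · -- large
      have h1 := H1 W hW
      refine le_trans ?_ hsumV
      have hAY : ∑ i, π i * (ind ((N : ℝ) ≤ ((A i).card : ℝ) * b ^ 4) *
          ((A i).card : ℝ)) = ∑ v ∈ W, a v + ∑ v ∈ Wᶜ, a v := by
        rw [Finset.sum_add_sum_compl, hsumA univ]
        simp only [Finset.inter_univ]
      have hWc1 : ∑ v ∈ Wᶜ, a v ≤ (Wᶜ.card : ℝ) := by
        calc ∑ v ∈ Wᶜ, a v ≤ ∑ _v ∈ Wᶜ, (1 : ℝ) := Finset.sum_le_sum fun v _ => ha1 v
          _ = Wᶜ.card := by simp
      have hWW : (W.card : ℝ) + (Wᶜ.card : ℝ) = N := by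
        rw [← hcard]
        exact_mod_cast Finset.card_add_card_compl W
      have h2 : ∑ i, π i * ind ((N : ℝ) ≤ ((A i).card : ℝ) * b ^ 4 ∧
          (N : ℝ) ≤ ((A i ∩ W).card : ℝ) * b ^ 12) -
          e / N * (∑ v ∈ W, a v + ∑ v ∈ Wᶜ, a v) ≤
          ∑ i, π i * (ind ((N : ℝ) ≤ ((A i).card : ℝ) * b ^ 4 ∧
              (N : ℝ) ≤ ((A i ∩ W).card : ℝ) * b ^ 12) * (1 - e * (A i).card / N)) := by
        rw [← hAY, Finset.mul_sum, ← Finset.sum_sub_distrib]
        refine Finset.sum_le_sum fun i _ => ?_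
        have h3 : π i * (ind ((N : ℝ) ≤ ((A i).card : ℝ) * b ^ 4 ∧
            (N : ℝ) ≤ ((A i ∩ W).card : ℝ) * b ^ 12)) ≤
            π i * (ind ((N : ℝ) ≤ ((A i).card : ℝ) * b ^ 4)) := by
          refine mul_le_mul_of_nonneg_left ?_ (hπ0 i)
          rw [s9_ind_and]
          exact mul_le_of_le_one_right (s9_ind_nonneg _) (s9_ind_le_one _)
        have h4 : 0 ≤ e / N * ((A i).card : ℝ) := by positivity
        have h5 := mul_le_mul_of_nonneg_right h3 h4
        have h6 : π i * (ind ((N : ℝ) ≤ ((A i).card : ℝ) * b ^ 4 ∧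
            (N : ℝ) ≤ ((A i ∩ W).card : ℝ) * b ^ 12) * (1 - e * (A i).card / N)) =
            π i * ind ((N : ℝ) ≤ ((A i).card : ℝ) * b ^ 4 ∧
            (N : ℝ) ≤ ((A i ∩ W).card : ℝ) * b ^ 12) - π i * (ind ((N : ℝ) ≤
            ((A i).card : ℝ) * b ^ 4 ∧ (N : ℝ) ≤ ((A i ∩ W).card : ℝ) * b ^ 12)) *
              (e / N * ((A i).card : ℝ)) := by ring
        rw [h6]
        have h7 : e / N * (π i * (ind ((N : ℝ) ≤ ((A i).card : ℝ) * b ^ 4) *
          ((A i).card : ℝ))) = π i * (ind ((N : ℝ) ≤ ((A i).card : ℝ) * b ^ 4)) *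
              (e / N * ((A i).card : ℝ)) := by ring
        rw [h7]
        linarith
      refine le_trans ?_ h2
      refine le_trans ?_ (sub_le_sub_right h1 _)
      -- numbers
      obtain ⟨x, hx⟩ : ∃ x : ℝ, x = (W.card : ℝ) / N := ⟨_, rfl⟩
      obtain ⟨v, hv⟩ : ∃ v : ℝ, v = (Wᶜ.card : ℝ) / N := ⟨_, rfl⟩
      obtain ⟨s, hs⟩ : ∃ s : ℝ, s = (∑ v ∈ W, a v) / N := ⟨_, rfl⟩
      obtain ⟨u, hu⟩ : ∃ u : ℝ, u = (∑ v ∈ Wᶜ, a v) / N := ⟨_, rfl⟩
      have hxv : x + v = 1 := by
        rw [hx, hv, ← add_div, hWW, div_self hN0.ne']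
      have huv : u ≤ v := by
        rw [hu, hv]
        exact div_le_div_of_nonneg_right hWc1 hN0.le
      have hu0 : 0 ≤ u := by
        rw [hu]
        exact div_nonneg (Finset.sum_nonneg fun v _ => ha0 v) hN0.le
      have hsx : s ≤ x := by rw [hs, hx]; exact hAW1'
      have hs0 : 0 ≤ s := by rw [hs]; exact hAW0'
      have hx1 : 1 / 10 ≤ x := by
        rw [hx, le_div_iff₀ hN0]
        have : (N : ℝ) ≤ 10 * W.card := by exact_mod_cast hW
        linarith
      have e1 : (Wᶜ.card : ℝ) / (2 * N) = v / 2 := by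
        rw [hv]
        field_simp
      have e2 : e / N * (∑ v ∈ W, a v + ∑ v ∈ Wᶜ, a v) = e * s + e * u := by
        rw [hs, hu]
        ring
      rw [e1, e2, ← hx, ← hs]
      have k1 : e * u ≤ v / 1000 := by
        calc e * u ≤ 1 / 1000 * v := mul_le_mul he1 huv hu0 (by norm_num)
          _ = v / 1000 := by ring
      have k2 : 1 / 20 ≤ x - e * s := by
        have : e * s ≤ 1 / 1000 * x := mul_le_mul he1 hsx hs0 (by norm_num)
        linarith
      have k3 : z / 20 ≤ z * (x - e * s) := by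
        calc z / 20 = z * (1 / 20) := by ring
          _ ≤ z * (x - e * s) := mul_le_mul_of_nonneg_left k2 hz0.le
      have hv0 : 0 ≤ v := le_trans hu0 huv
      have k4 : (1 - z) * (x - e * s) = x - e * s - z * (x - e * s) := by ring
      rw [k4]
      linarith

/-- Row S9. -/
theorem s9 (hLP : LPStatement) : S9Statement := by
  intro I Y _ _ _ _ N b π A hcard hN hb hπ0 hπ1 H1 H2 H3
  have hb0 : 0 < b := by linarith
  have hN0 : (0 : ℝ) < N := by exact_mod_cast hN
  obtain ⟨a, ha⟩ : ∃ a : Y → ℝ, ∀ y, a y =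
      ∑ i, π i * ind ((N : ℝ) ≤ ((A i).card : ℝ) * b ^ 4 ∧ y ∈ A i) := ⟨_, fun _ => rfl⟩
  obtain ⟨p, hp0, hpk, hpr, hpt⟩ := s9_plan hLP N b π A hcard hN hb hπ0 hπ1 H1 H2 H3 a ha
  have hA : ∀ i, ((A i).card : ℝ) ≤ N := by
    intro i
    rw [← hcard]
    exact_mod_cast Finset.card_le_univ (A i)
  obtain ⟨e, he⟩ : ∃ e : ℝ, e = 1 / b ^ 8 := ⟨_, rfl⟩
  obtain ⟨z, hz⟩ : ∃ z : ℝ, z = 1 / b ^ 20 := ⟨_, rfl⟩
  rw [← he, ← hz] at hpt
  rw [← he] at hpr
  have he0 : 0 < e := by rw [he]; positivity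
  have hz0 : 0 < z := by rw [hz]; positivity
  have he1 : e ≤ 1 / 1000 := by
    rw [he]
    have := s9_pow hb (show 0 < 8 by norm_num)
    exact one_div_le_one_div_of_le (by norm_num) (by linarith)
  have hz1 : z ≤ 1 / 1000 := by
    rw [hz]
    have := s9_pow hb (show 0 < 20 by norm_num)
    exact one_div_le_one_div_of_le (by norm_num) (by linarith)
  have ha0 : ∀ y, 0 ≤ a y := by
    intro y
    rw [ha]
    exact Finset.sum_nonneg fun i _ => mul_nonneg (hπ0 i) (s9_ind_nonneg _)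
  have ha1 : ∀ y, a y ≤ 1 := by
    intro y
    rw [ha, ← hπ1]
    exact Finset.sum_le_sum fun i _ => mul_le_of_le_one_right (hπ0 i) (s9_ind_le_one _)
  -- the defect
  obtain ⟨df, hdf⟩ : ∃ df : I → ℝ, ∀ i, df i =
      ind ((N : ℝ) ≤ ((A i).card : ℝ) * b ^ 4) * (1 - e * (A i).card / N) - ∑ v, p i v :=
    ⟨_, fun _ => rfl⟩
  have hdf0 : ∀ i, 0 ≤ df i := fun i => by rw [hdf]; linarith [hpr i]
  have hsp0 : ∀ i, 0 ≤ ∑ v, p i v := fun i => Finset.sum_nonneg fun v _ => hp0 i v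
  have hdf1 : ∀ i, df i ≤ 1 := by
    intro i
    rw [hdf]
    have h1 : 0 ≤ e * (A i).card / N := by positivity
    have h2 : ind ((N : ℝ) ≤ ((A i).card : ℝ) * b ^ 4) * (1 - e * (A i).card / N) ≤ 1 := by
      by_cases hi : (N : ℝ) ≤ ((A i).card : ℝ) * b ^ 4
      · rw [s9_ind_pos hi]; linarith
      · rw [s9_ind_neg hi]; linarith
    linarith [hsp0 i]
  have hpz : ∀ i v, v ∉ A i → p i v = 0 := by
    intro i v hv
    have h1 := hpk i v
    rw [s9_ind_neg (fun h => hv h.2), zero_mul] at h1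
    exact le_antisymm h1 (hp0 i v)
  have hpz2 : ∀ i, ¬ (N : ℝ) ≤ ((A i).card : ℝ) * b ^ 4 → ∀ v, p i v = 0 := by
    intro i hi v
    have h1 := hpk i v
    rw [s9_ind_neg (fun h => hi h.1), zero_mul] at h1
    exact le_antisymm h1 (hp0 i v)
  have hdfz : ∀ i, ¬ (N : ℝ) ≤ ((A i).card : ℝ) * b ^ 4 → df i = 0 := by
    intro i hi
    rw [hdf, s9_ind_neg hi, zero_mul, Finset.sum_eq_zero fun v _ => hpz2 i hi v, sub_zero]
  have hAp : ∀ i, (N : ℝ) ≤ ((A i).card : ℝ) * b ^ 4 → (0 : ℝ) < (A i).card := by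
    intro i hi
    by_contra h
    have h1 : ((A i).card : ℝ) = 0 := le_antisymm (not_lt.1 h) (Nat.cast_nonneg _)
    rw [h1, zero_mul] at hi
    linarith
  -- the sum of the defects
  have hsa : ∑ y, a y =
      ∑ i, π i * (ind ((N : ℝ) ≤ ((A i).card : ℝ) * b ^ 4) * ((A i).card : ℝ)) := by
    simp_rw [ha]
    rw [Finset.sum_comm]
    refine Finset.sum_congr rfl fun i _ => ?_
    rw [← Finset.mul_sum]
    congr 1
    simp_rw [s9_ind_and]
    rw [← Finset.mul_sum, s9_cnt, Finset.inter_univ]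
  have hsa0 : 0 ≤ ∑ y, a y := Finset.sum_nonneg fun y _ => ha0 y
  have hsa1 : ∑ y, a y ≤ N := by
    calc ∑ y, a y ≤ ∑ _y : Y, (1 : ℝ) := Finset.sum_le_sum fun v _ => ha1 v
      _ = N := by rw [Finset.sum_const, Finset.card_univ, hcard, nsmul_eq_mul, mul_one]
  have hsd : ∑ i, π i * df i ≤ z := by
    have h1 : ∑ i, π i * df i =
        ∑ i, π i * ind ((N : ℝ) ≤ ((A i).card : ℝ) * b ^ 4) - e / N * ∑ y, a y -
          ∑ i, π i * ∑ v, p i v := by
      rw [hsa, Finset.mul_sum, ← Finset.sum_sub_distrib, ← Finset.sum_sub_distrib]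
      refine Finset.sum_congr rfl fun i _ => ?_
      rw [hdf]
      ring
    have h2 : ∑ i, π i * ∑ v, p i v = ∑ v, (1 - z) * (1 - e * a v) / N := by
      simp_rw [Finset.mul_sum]
      rw [Finset.sum_comm]
      exact Finset.sum_congr rfl fun v _ => hpt v
    have h3 : ∑ v, (1 - z) * (1 - e * a v) / N = (1 - z) * (1 - e * ((∑ y, a y) / N)) := by
      have h4 : ∀ v, (1 - z) * (1 - e * a v) / N = (1 - z) / N - (1 - z) * e / N * a v := by
        intro v
        ring
      simp_rw [h4]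
      rw [Finset.sum_sub_distrib, ← Finset.mul_sum, Finset.sum_const, Finset.card_univ, hcard,
        nsmul_eq_mul]
      field_simp
    have h5 : ∑ i, π i * ind ((N : ℝ) ≤ ((A i).card : ℝ) * b ^ 4) ≤ 1 := by
      rw [← hπ1]
      exact Finset.sum_le_sum fun i _ => mul_le_of_le_one_right (hπ0 i) (s9_ind_le_one _)
    obtain ⟨s, hs⟩ : ∃ s : ℝ, s = (∑ y, a y) / N := ⟨_, rfl⟩
    have hs0 : 0 ≤ s := by rw [hs]; exact div_nonneg hsa0 hN0.le
    have h6 : e / N * ∑ y, a y = e * s := by rw [hs]; ring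
    rw [h1, h2, h3, h6, ← hs]
    have h7 : 0 ≤ z * (e * s) := by positivity
    have h8 : (1 - z) * (1 - e * s) = 1 - z - e * s + z * (e * s) := by ring
    rw [h8]
    linarith
  -- the weights
  refine ⟨fun i y => ind ((N : ℝ) ≤ ((A i).card : ℝ) * b ^ 4 ∧ y ∈ A i) *
    (e / N + p i y + df i / (A i).card), ?_, ?_, ?_, ?_, ?_, ?_⟩
  · intro i y
    refine mul_nonneg (s9_ind_nonneg _) ?_
    have h1 := hp0 i y
    have h2 := hdf0 i
    positivity
  · intro i y
    show ind ((N : ℝ) ≤ ((A i).card : ℝ) * b ^ 4 ∧ y ∈ A i) *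
      (e / N + p i y + df i / (A i).card) * N ≤ 2 * b ^ 12
    by_cases hi : (N : ℝ) ≤ ((A i).card : ℝ) * b ^ 4
    · have hAi := hAp i hi
      have h1 : p i y * N ≤ b ^ 12 := by
        have h2 := hpk i y
        have h3 : p i y ≤ b ^ 12 / N := by
          refine le_trans h2 (mul_le_of_le_one_left (by positivity) (s9_ind_le_one _))
        rwa [le_div_iff₀ hN0] at h3
      have h4 : df i / (A i).card * N ≤ b ^ 4 := by
        rw [div_mul_eq_mul_div, div_le_iff₀ hAi]
        calc df i * N ≤ 1 * N := mul_le_mul_of_nonneg_right (hdf1 i) hN0.le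
          _ = N := one_mul _
          _ ≤ b ^ 4 * (A i).card := by linarith
      have h5 : e / N * N = e := div_mul_cancel₀ e hN0.ne'
      have h6 : (e / N + p i y + df i / (A i).card) * N ≤ 2 * b ^ 12 := by
        rw [add_mul, add_mul, h5]
        have h7 := s9_pow hb (show 4 < 12 by norm_num)
        have h8 := s9_pow hb (show 0 < 4 by norm_num)
        linarith
      have h9 : 0 ≤ (e / N + p i y + df i / (A i).card) * N := by
        have h1 := hp0 i y
        have h2 := hdf0 i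
        positivity
      rw [mul_assoc]
      exact le_trans (mul_le_of_le_one_left h9 (s9_ind_le_one _)) h6
    · rw [s9_ind_neg (fun h => hi h.1), zero_mul, zero_mul]
      positivity
  · intro i y hy
    show ind ((N : ℝ) ≤ ((A i).card : ℝ) * b ^ 4 ∧ y ∈ A i) *
      (e / N + p i y + df i / (A i).card) = 0
    rw [s9_ind_neg (fun h => hy h.2), zero_mul]
  · intro i hi
    have hAi := hAp i hi
    have h1 : ∀ y, ind ((N : ℝ) ≤ ((A i).card : ℝ) * b ^ 4 ∧ y ∈ A i) *
        (e / N + p i y + df i / (A i).card) =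
        ind (y ∈ A i) * (e / N + df i / (A i).card) + p i y := by
      intro y
      rw [s9_ind_and, s9_ind_pos hi, one_mul]
      by_cases hy : y ∈ A i
      · rw [s9_ind_pos hy]
        ring
      · rw [s9_ind_neg hy, hpz i y hy]
        ring
    show ∑ y, ind ((N : ℝ) ≤ ((A i).card : ℝ) * b ^ 4 ∧ y ∈ A i) *
        (e / N + p i y + df i / (A i).card) = 1
    rw [Finset.sum_congr rfl fun y _ => h1 y]
    rw [Finset.sum_add_distrib, ← Finset.sum_mul, s9_cnt, Finset.inter_univ]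
    have h2 : ∑ y, p i y = 1 - e * (A i).card / N - df i := by
      rw [hdf, s9_ind_pos hi]
      ring
    rw [h2]
    obtain ⟨c, hc⟩ : ∃ c : ℝ, c = (A i).card := ⟨_, rfl⟩
    obtain ⟨d, hd⟩ : ∃ d : ℝ, d = df i := ⟨_, rfl⟩
    obtain ⟨m, hm⟩ : ∃ m : ℝ, m = N := ⟨_, rfl⟩
    rw [← hc] at hAi ⊢
    rw [← hd, ← hm]
    have hm0 : m ≠ 0 := by rw [hm]; exact hN0.ne'
    have k1 : c * (e / m + d / c) = e * c / m + d := by
      field_simp
    rw [k1]
    ring
  · intro i hi y hy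
    show 1 ≤ ind ((N : ℝ) ≤ ((A i).card : ℝ) * b ^ 4 ∧ y ∈ A i) *
      (e / N + p i y + df i / (A i).card) * N * b ^ 8
    rw [s9_ind_pos (And.intro hi hy), one_mul]
    have h1 := hp0 i y
    have h2 := hdf0 i
    have h3 : e / N * N * b ^ 8 = 1 := by
      rw [div_mul_cancel₀ e hN0.ne', he]
      field_simp
    have h4 : 0 ≤ (p i y + df i / (A i).card) * N * b ^ 8 := by positivity
    calc (1 : ℝ) = e / N * N * b ^ 8 := h3.symm
      _ ≤ e / N * N * b ^ 8 + (p i y + df i / (A i).card) * N * b ^ 8 := by linarith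
      _ = (e / N + p i y + df i / (A i).card) * N * b ^ 8 := by ring
  · intro y
    have h1 : ∀ i, π i * (ind ((N : ℝ) ≤ ((A i).card : ℝ) * b ^ 4 ∧ y ∈ A i) *
        (e / N + p i y + df i / (A i).card)) =
        e / N * (π i * ind ((N : ℝ) ≤ ((A i).card : ℝ) * b ^ 4 ∧ y ∈ A i)) + π i * p i y +
        π i * (ind ((N : ℝ) ≤ ((A i).card : ℝ) * b ^ 4 ∧ y ∈ A i) *
          (df i / (A i).card)) := by
      intro i
      by_cases hy : (N : ℝ) ≤ ((A i).card : ℝ) * b ^ 4 ∧ y ∈ A i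
      · rw [s9_ind_pos hy]
        ring
      · have h2 : p i y = 0 := by
          by_cases hi : (N : ℝ) ≤ ((A i).card : ℝ) * b ^ 4
          · exact hpz i y fun h => hy ⟨hi, h⟩
          · exact hpz2 i hi y
        rw [s9_ind_neg hy, h2]
        ring
    have h2 : (N : ℝ) * ∑ i, π i * (ind ((N : ℝ) ≤ ((A i).card : ℝ) * b ^ 4 ∧ y ∈ A i) *
        (e / N + p i y + df i / (A i).card)) = e * a y + (1 - z) * (1 - e * a y) +
        N * ∑ i, π i * (ind ((N : ℝ) ≤ ((A i).card : ℝ) * b ^ 4 ∧ y ∈ A i) *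
          (df i / (A i).card)) := by
      rw [Finset.sum_congr rfl fun i _ => h1 i, Finset.sum_add_distrib, Finset.sum_add_distrib,
        ← Finset.mul_sum, ← ha y, hpt y]
      have k1 : (N : ℝ) * (e / N * a y) = e * a y := by field_simp
      have k2 : (N : ℝ) * ((1 - z) * (1 - e * a y) / N) = (1 - z) * (1 - e * a y) := by
        field_simp
      rw [mul_add, mul_add, k1, k2]
    have h3 : 0 ≤ ∑ i, π i * (ind ((N : ℝ) ≤ ((A i).card : ℝ) * b ^ 4 ∧ y ∈ A i) *
          (df i / (A i).card)) := by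
      refine Finset.sum_nonneg fun i _ => mul_nonneg (hπ0 i) (mul_nonneg (s9_ind_nonneg _) ?_)
      have := hdf0 i
      positivity
    have h4 : N * ∑ i, π i * (ind ((N : ℝ) ≤ ((A i).card : ℝ) * b ^ 4 ∧ y ∈ A i) *
          (df i / (A i).card)) ≤ 1 / b ^ 16 := by
      have h5 : N * ∑ i, π i * (ind ((N : ℝ) ≤ ((A i).card : ℝ) * b ^ 4 ∧ y ∈ A i) *
          (df i / (A i).card)) ≤ b ^ 4 * ∑ i, π i * df i := by
        rw [Finset.mul_sum, Finset.mul_sum]
        refine Finset.sum_le_sum fun i _ => ?_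
        by_cases hi : (N : ℝ) ≤ ((A i).card : ℝ) * b ^ 4
        · have hAi := hAp i hi
          have h6 : N * (df i / (A i).card) ≤ b ^ 4 * df i := by
            rw [mul_div_assoc', div_le_iff₀ hAi]
            calc (N : ℝ) * df i ≤ ((A i).card * b ^ 4) * df i :=
                  mul_le_mul_of_nonneg_right hi (hdf0 i)
              _ = b ^ 4 * df i * (A i).card := by ring
          have h7 : 0 ≤ N * (df i / (A i).card) := by
            have := hdf0 i
            positivity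
          calc (N : ℝ) * (π i * (ind ((N : ℝ) ≤ ((A i).card : ℝ) * b ^ 4 ∧ y ∈ A i) *
              (df i / (A i).card))) = π i * (ind ((N : ℝ) ≤ ((A i).card : ℝ) * b ^ 4 ∧
                y ∈ A i) * (N * (df i / (A i).card))) := by ring
            _ ≤ π i * (b ^ 4 * df i) := by
                refine mul_le_mul_of_nonneg_left ?_ (hπ0 i)
                exact le_trans (mul_le_of_le_one_left h7 (s9_ind_le_one _)) h6
            _ = b ^ 4 * (π i * df i) := by ring
        · rw [s9_ind_neg (fun h => hi h.1), hdfz i hi]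
          simp
      refine le_trans h5 ?_
      calc b ^ 4 * ∑ i, π i * df i ≤ b ^ 4 * z :=
            mul_le_mul_of_nonneg_left hsd (by positivity)
        _ = 1 / b ^ 16 := by
            rw [hz]
            field_simp
    have h5 : (0 : ℝ) ≤ N * ∑ i, π i * (ind ((N : ℝ) ≤ ((A i).card : ℝ) * b ^ 4 ∧ y ∈ A i) *
          (df i / (A i).card)) := mul_nonneg hN0.le h3
    show |(N : ℝ) * ∑ i, π i * (ind ((N : ℝ) ≤ ((A i).card : ℝ) * b ^ 4 ∧ y ∈ A i) *
        (e / N + p i y + df i / (A i).card)) - 1| ≤ 4 / b ^ 16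
    rw [h2]
    have h6 : z ≤ 1 / b ^ 16 := by
      rw [hz]
      exact one_div_le_one_div_of_le (by positivity)
        (pow_le_pow_right₀ (by linarith) (by norm_num))
    have h7 : 0 ≤ e * a y := mul_nonneg he0.le (ha0 y)
    have h8 : 0 ≤ z * (e * a y) := mul_nonneg hz0.le h7
    have h9 : e * a y ≤ 1 := by
      have := ha1 y
      nlinarith
    have h9' : z * (e * a y) ≤ z := mul_le_of_le_one_right hz0.le h9
    have h10 : 4 / b ^ 16 = 4 * (1 / b ^ 16) := by ring
    have h11 : 0 < 1 / b ^ 16 := by positivity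
    rw [h10, abs_le]
    have h12 : (1 - z) * (1 - e * a y) = 1 - z - e * a y + z * (e * a y) := by ring
    rw [h12]
    constructor <;> linarith

end Pool.Agent.FQ
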