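import Pool.Agent.FQ.SDefs

/-!
# Project FQ, row SF: part II from the rows
-/

set_option autoImplicit false
set_option linter.unusedSectionVars false

namespace Pool.Agent.FQ

open Finset Classical
open Pool.Agent.H73.Cube (EE Loc)

theorem sf_b1000 {n N s : ℕ} {b : ℝ} (h : Num n N s b) : 1000 ≤ b := by
  have h1 : (1000 : ℝ) ≤ n := by exact_mod_cast h.hn
  have h2 : (n : ℝ) ^ 1 ≤ (n : ℝ) ^ 400 := pow_le_pow_right₀ (by linarith) (by norm_num)
  have h3 := h.hnb
  linarith

theorem sf_card {X : Type} [Fintype X] (p : X → Prop) [DecidablePred p] :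
    ∑ x, ind (p x) = ((univ.filter p).card : ℝ) := by
  rw [Finset.card_filter]
  push_cast
  apply Finset.sum_congr rfl
  intro x _
  unfold ind
  by_cases h : p x
  · rw [if_pos h, if_pos h]
  · rw [if_neg h, if_neg h]

theorem sf_ind_mono {p q : Prop} (h : p → q) : ind p ≤ ind q := by
  unfold ind
  by_cases hp : p
  · rw [if_pos hp, if_pos (h hp)]
  · rw [if_neg hp]
    split_ifs <;> norm_num

theorem sf_fib {Dl St : Type} [Fintype Dl] [Fintype St] [DecidableEq St] (site : Dl → St)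
    (hreg : ∀ h, (univ.filter (fun d => site d = h)).card * Fintype.card St = Fintype.card Dl)
    (f : St → ℝ) : (∑ d, f (site d)) * Fintype.card St = Fintype.card Dl * ∑ h, f h := by
  rw [← Finset.sum_fiberwise univ site (fun d => f (site d)), Finset.sum_mul, Finset.mul_sum]
  apply Finset.sum_congr rfl
  intro h _
  have h1 : ∑ d ∈ univ.filter (fun d => site d = h), f (site d) =
      ((univ.filter (fun d => site d = h)).card : ℝ) * f h := by
    rw [Finset.sum_congr rfl (g := fun _ => f h)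
      (fun d hd => by rw [(Finset.mem_filter.1 hd).2]), Finset.sum_const, nsmul_eq_mul]
  have h2 : ((univ.filter (fun d => site d = h)).card : ℝ) * Fintype.card St =
      Fintype.card Dl := by exact_mod_cast hreg h
  rw [h1, ← h2]
  ring

theorem seeds (h1 : S1Statement) (h2 : S2Statement) (h10 : S10Statement) (h12 : S12Statement) :
    SeedsStatement := by
  intro X Y Ob St Th Dl R _ _ _ _ _ _ _ _ _ _ _ _ _ _ n N s L μ lam b M D pos site hN hM hR hD
    hinj hcnt hsite hreg
  obtain ⟨ψ, hψ, hcol⟩ := h1 X Y Ob St Th n N s L μ lam b M hN hM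
  obtain ⟨a0, a1, a2, a3, -, -, -⟩ := h2 X Y Ob St Th n N s L μ lam b M ψ hN hM hψ
  obtain ⟨w, hw, hwc⟩ := h10 X Y Ob St Th n N s L μ lam b M ψ hN hM hψ
  obtain ⟨ω, hf, hU, hc, hp, hq, hb⟩ :=
    h12 X Y Ob St Th n N s L μ lam b M ψ w hN hM hψ hcol hw hwc
  have hb1 := sf_b1000 hN
  have hb0 : (0 : ℝ) < b := by linarith
  have hS0 : (0 : ℝ) < Fintype.card St := by exact_mod_cast hM.cS
  have htot : ∀ Φ : Ob → (Fin n → X) → ℝ,
      tot D (fun d => qc M.q ψ (site d) ω) Φ = tot M.sb (fun h => qc M.q ψ h ω) Φ := by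
    intro Φ
    unfold tot pw
    simp only [hsite]
  have hne : ∀ h x, qc M.q ψ h ω x ≠ 0 → M.q h ω x ≠ 0 := by
    intro h x h3 h4
    apply h3
    have h5 := a2 h ω x
    rw [h4, mul_zero] at h5
    exact le_antisymm h5 (a0 h ω x)
  have hDN : (Fintype.card Dl : ℝ) * s = N := by exact_mod_cast hD
  have hN0 : (0 : ℝ) ≤ N := Nat.cast_nonneg _
  refine ⟨⟨M.ok, D, pos, fun d => qc M.q ψ (site d) ω, w, fun _ S => gd M.ok N b S⟩, rfl, rfl,
    rfl, ?_⟩
  constructor
  case cX => exact hM.cX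
  case cY => exact hM.cY
  case cO => exact hM.cO
  case cR => exact hR
  case cD => exact hD
  case inj => exact hinj
  case cnt => exact hcnt
  case Q0 => exact fun d x => a0 _ _ _
  case Q1 => exact fun d => a1 _ _
  case U =>
    intro x
    show |∑ d, (s : ℝ) * qc M.q ψ (site d) ω x - 1| ≤ 1 / b ^ 60
    have h3 := sf_fib site hreg (fun h => qc M.q ψ h ω x)
    have h4 : ∑ d, (s : ℝ) * qc M.q ψ (site d) ω x =
        (∑ h, qc M.q ψ h ω x) * (N / Fintype.card St) := by
      rw [← Finset.mul_sum, ← mul_div_assoc, eq_div_iff hS0.ne', mul_assoc, h3, ← hDN]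
      ring
    rw [h4]
    exact hU x
  case Qle =>
    intro d x
    show qc M.q ψ (site d) ω x * N ≤ b ^ 8
    have h3 := mul_le_mul_of_nonneg_right (a2 (site d) ω x) hN0
    have h4 := hM.qle (site d) ω x
    have h5 : b ^ 8 = b * b ^ 7 := by ring
    have h6 : (0 : ℝ) < b ^ 7 := by positivity
    rw [h5]
    nlinarith
  case Qge =>
    intro d x h3
    show 1 ≤ qc M.q ψ (site d) ω x * N * b ^ 4
    have h4 := hM.qge (site d) ω x (hne _ _ h3)
    have h5 : M.q (site d) ω x * N * b ^ 3 ≤ 2 * qc M.q ψ (site d) ω x * N * b ^ 3 :=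
      mul_le_mul_of_nonneg_right (mul_le_mul_of_nonneg_right (a3 _ _ _) hN0) (by positivity)
    have h6 : 0 ≤ qc M.q ψ (site d) ω x * N * b ^ 3 :=
      mul_nonneg (mul_nonneg (a0 _ _ _) hN0) (by positivity)
    have h7 : qc M.q ψ (site d) ω x * N * b ^ 4 = b * (qc M.q ψ (site d) ω x * N * b ^ 3) := by
      ring
    rw [h7]
    nlinarith
  case Qpair =>
    intro x x'
    show (Fintype.card Dl : ℝ) ≤ ((univ.filter (fun d => qc M.q ψ (site d) ω x ≠ 0 ∧
      qc M.q ψ (site d) ω x' ≠ 0)).card : ℝ) * b ^ 4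
    rw [← sf_card]
    have h3 := sf_fib site hreg (fun h => ind (qc M.q ψ h ω x ≠ 0 ∧ qc M.q ψ h ω x' ≠ 0))
    have h4 := hq x x'
    have h5 : (Fintype.card Dl : ℝ) * Fintype.card St ≤
        ((∑ d, ind (qc M.q ψ (site d) ω x ≠ 0 ∧ qc M.q ψ (site d) ω x' ≠ 0)) * b ^ 4) *
          Fintype.card St := by
      calc (Fintype.card Dl : ℝ) * Fintype.card St
          ≤ Fintype.card Dl * ((∑ h, ind (qc M.q ψ h ω x ≠ 0 ∧ qc M.q ψ h ω x' ≠ 0)) * b ^ 4) :=
            mul_le_mul_of_nonneg_left h4 (Nat.cast_nonneg _)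
        _ = (Fintype.card Dl * ∑ h, ind (qc M.q ψ h ω x ≠ 0 ∧ qc M.q ψ h ω x' ≠ 0)) * b ^ 4 := by
            ring
        _ = _ := by rw [← h3]; ring
    exact le_of_mul_le_mul_right h5 hS0
  case w0 => exact hw.w0
  case wle => exact hw.wle
  case wz => exact hw.wz
  case w1 => exact hw.w1
  case wge => exact hw.wge
  case col =>
    intro y
    show |tot D (fun d => qc M.q ψ (site d) ω) (fun o S => w o S y) - 1| ≤ 1 / b ^ 12
    rw [htot]
    exact hc y
  case pair =>
    intro y y'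
    show (N : ℝ) ≤ tot D (fun d => qc M.q ψ (site d) ω) (two M.ok y y') * (2 * b)
    rw [htot]
    exact hp y y'
  case bad =>
    refine le_trans ?_ hb
    unfold badSum bsum
    apply Finset.sum_le_sum
    intro o _
    apply Finset.sum_le_sum
    intro A _
    apply Finset.sum_le_sum
    intro S _
    simp only [hsite]
    apply mul_le_mul_of_nonneg_right _ (Finset.prod_nonneg (fun i _ => a0 _ _ _))
    apply sf_ind_mono
    rintro ⟨h3, h4⟩
    exact ⟨hf o, h3, fun i hi => hne _ _ (h4 i hi)⟩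

end Pool.Agent.FQ
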