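import Pool.Agent.FQ.PF
import Pool.Agent.FQ.SF
import Pool.Agent.FQ.HL
import Pool.Agent.FQ.LP
import Pool.Agent.FQ.Lap
import Pool.Agent.FQ.Cher
import Pool.Agent.FQ.Congr
import Pool.Agent.FQ.ProdInd
import Pool.Agent.FQ.P1
import Pool.Agent.FQ.P2
import Pool.Agent.FQ.P3
import Pool.Agent.FQ.P4
import Pool.Agent.FQ.P5
import Pool.Agent.FQ.P6
import Pool.Agent.FQ.P7
import Pool.Agent.FQ.P8
import Pool.Agent.FQ.P9
import Pool.Agent.FQ.S1
import Pool.Agent.FQ.S2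
import Pool.Agent.FQ.S3
import Pool.Agent.FQ.S4
import Pool.Agent.FQ.S5
import Pool.Agent.FQ.S6
import Pool.Agent.FQ.S7
import Pool.Agent.FQ.S8
import Pool.Agent.FQ.S9
import Pool.Agent.FQ.S10
import Pool.Agent.FQ.S11
import Pool.Agent.FQ.S12
import Pool.Agent.FQ.M1
import Pool.Agent.FQ.M2
import Pool.Agent.FQ.M3
import Pool.Agent.FQ.M4
import Pool.Agent.FQ.M5
import Pool.Agent.FQ.M6
import Pool.Agent.FQ.M7
import Pool.Agent.FQ.M8
import Pool.Agent.FQ.M9
import Pool.Agent.FQ.M10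
import Pool.Agent.FQ.M11
import Pool.Agent.FQ.M12
import Pool.Agent.FQ.M13
import Pool.Agent.FQ.M14
import Pool.Agent.FQ.M15
import Pool.Agent.FQ.MF
import Pool.Agent.FQ.GI
import Pool.Agent.FQ.GJ
import Pool.Agent.FQ.GH
import Pool.Agent.FQ.GBox
import Pool.Agent.FQ.GBoxM
import Pool.Agent.FQ.GHam
import Pool.Agent.FQ.GNum1
import Pool.Agent.FQ.GNum3
import Pool.Agent.FQ.GCen
import Pool.Agent.FQ.GPart

/-!
# Project FQ: all rows together
-/

set_option autoImplicit false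

namespace Pool.Agent.FQ

/-- Part III. -/
theorem tP : PlaceStatement := by
  have h2 := p2 chernoff
  have h3 := p3 prod_ind h2
  have h4 := p4 prod_ind h2
  exact place hl (p5 p1 h2 h3 h4) (p6 hl) (p9 p7 p8)

/-- Part II. -/
theorem tS : SeedsStatement := by
  have h3 := s3 s2
  have h4 := s4 s2
  have h6 := s6 s2 h3 h4 s5
  have h7 := s7 s2 h3
  have h8 := s8 s2 h3
  have h9 := s9 lp
  have h10 := s10 s2 h6 h7 h8 h9
  have h11 := s11 s2
  exact seeds (s1 lap) s2 h10 (s12 s2 h3 h8 h11)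

/-- Part I. -/
theorem tM : MacroStatement := by
  have h2 := m2 m1
  have h4 := m4 m1 h2 m3
  have h5 := m5 m1 congr_on
  have h6 := m6 m1 h2 congr_on
  have h7 := m7 m1
  have h8 := m8 m1 h2 m3 h5 h6 h7
  have h9 := m9 m1 h2 m3 h5 h6 h7
  have h10 := m10 m1 h2 m3 h5 h6 h7
  have h12 := m12 m1 m3 congr_on
  have h13 := m13 m1 h2 m3 h6 h7 h8 h9 h10 m11 h12
  exact macr m1 h2 m3 h4 h13 (m14 m1 h2 m3 h4) (m15 m1 h2 m3)

/-- Geometry. -/
theorem tG : GHStatement := gh (gpart v4 b1 b2 b3 h2 n3 n4) n1 n2 h1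

/-- The frozen statement. -/
theorem tT : TargetStatement := gj (gi tM tS tP tG n1)

end Pool.Agent.FQ
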