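import Pool.Agent.FQ.Defs

/-!
# Project FQ, part III: the placement

See note 5216 on MP_a55b9e_co, part III.
-/

set_option autoImplicit false

namespace Pool.Agent.FQ

open Finset Classical
open Pool.Agent.H73.Cube (EE Loc)

/-- Data of the placement problem: `Ob` odd positions, `Dl` blocks of even positions, `R`
positions in a block, `Q` laws of the vertices at the blocks, `w` weights of the odd side. -/
structure Pl (X Y Ob Dl R : Type) (n : ℕ) where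
  ok : X → Y → Prop
  D : Ob → Fin n → Dl
  pos : Ob → Fin n → R
  Q : Dl → X → ℝ
  w : Ob → (Fin n → X) → Y → ℝ
  good : Ob → (Fin n → X) → Prop

section

variable {X Y Ob Dl R : Type} [Fintype X] [Fintype Y] [Fintype Ob] [Fintype Dl] [Fintype R]
  [DecidableEq X] [DecidableEq Y] [DecidableEq Ob] [DecidableEq Dl] [DecidableEq R] {n : ℕ}

/-- Product weight of a tuple. -/
noncomputable def pw (D : Ob → Fin n → Dl) (q : Dl → X → ℝ) (o : Ob) (S : Fin n → X) : ℝ :=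
  ∏ i, q (D o i) (S i)

/-- Sum over the odd positions of the mean of `Φ` for the product laws `q`. -/
noncomputable def tot (D : Ob → Fin n → Dl) (q : Dl → X → ℝ) (Φ : Ob → (Fin n → X) → ℝ) : ℝ :=
  ∑ o, ∑ S, pw D q o S * Φ o S

/-- The sum of all bad tuples with few adversarial coordinates in the support of `Q`. -/
noncomputable def badSum (P : Pl X Y Ob Dl R n) (q : Dl → X → ℝ) : ℝ :=
  ∑ o, ∑ A ∈ univ.filter (fun A : Finset (Fin n) => A.card ≤ 300), ∑ S : Fin n → X,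
    ind (¬ P.good o S ∧ ∀ i ∈ A, P.Q (P.D o i) (S i) ≠ 0) * ∏ i ∈ Aᶜ, q (P.D o i) (S i)

/-- Both vertices are common neighbours. -/
noncomputable def two (ok : X → Y → Prop) (y y' : Y) (_ : Ob) (S : Fin n → X) : ℝ :=
  ind (y ∈ NbS ok S ∧ y' ∈ NbS ok S)

/-- Hypotheses of the placement theorem. -/
structure PlHyp (P : Pl X Y Ob Dl R n) (N s : ℕ) (b : ℝ) : Prop where
  cX : Fintype.card X = N
  cY : Fintype.card Y = N
  cO : Fintype.card Ob = N
  cR : Fintype.card R = s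
  cD : Fintype.card Dl * s = N
  inj : ∀ o, Function.Injective (P.D o)
  cnt : ∀ d, (univ.filter (fun o => ∃ i, P.D o i = d)).card ≤ n * s
  Q0 : ∀ d x, 0 ≤ P.Q d x
  Q1 : ∀ d, ∑ x, P.Q d x = 1
  U : ∀ x, |∑ d, (s : ℝ) * P.Q d x - 1| ≤ 1 / b ^ 60
  Qle : ∀ d x, P.Q d x * N ≤ b ^ 8
  Qge : ∀ d x, P.Q d x ≠ 0 → 1 ≤ P.Q d x * N * b ^ 4
  Qpair : ∀ x x', (Fintype.card Dl : ℝ) ≤
    ((univ.filter (fun d => P.Q d x ≠ 0 ∧ P.Q d x' ≠ 0)).card : ℝ) * b ^ 4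
  w0 : ∀ o S y, 0 ≤ P.w o S y
  wle : ∀ o S y, P.w o S y * N ≤ 2 * b ^ 12
  wz : ∀ o S y, y ∉ NbS P.ok S → P.w o S y = 0
  w1 : ∀ o S, P.good o S → ∑ y, P.w o S y = 1
  wge : ∀ o S, P.good o S → ∀ y ∈ NbS P.ok S, 1 ≤ P.w o S y * N * b ^ 8
  col : ∀ y, |tot P.D P.Q (fun o S => P.w o S y) - 1| ≤ 1 / b ^ 12
  pair : ∀ y y', (N : ℝ) ≤ tot P.D P.Q (two P.ok y y') * (2 * b)
  bad : badSum P P.Q ≤ 1 / 32

/-! ## The contents of the blocks -/

/-- The law of the random block of the vertex `x`. -/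
noncomputable def PX (Q : Dl → X → ℝ) (s : ℕ) (b : ℝ) (x : X) : Option Dl → ℝ
  | none => 1 / b ^ 30
  | some d => (1 - 1 / b ^ 30) * ((s : ℝ) * Q d x) / ∑ d', (s : ℝ) * Q d' x

/-- Number of vertices in the block `d`. -/
noncomputable def cn (φ : X → Option Dl) (d : Dl) : ℕ := (univ.filter (fun x => φ x = some d)).card

/-- Contents. -/
noncomputable def nu (s : ℕ) (φ : X → Option Dl) (d : Dl) (x : X) : ℝ :=
  ind (φ x = some d) / s

/-- Clipped contents. -/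
noncomputable def nuc (s : ℕ) (φ : X → Option Dl) (d : Dl) (x : X) : ℝ :=
  ind (φ x = some d) / max (s : ℝ) (cn φ d)

/-- The contents are good. -/
structure ContOK (P : Pl X Y Ob Dl R n) (N s : ℕ) (b : ℝ) (φ : X → Option Dl) : Prop where
  lo : ∀ d, (1 - 1 / b ^ 30 - 1 / b ^ 50) * s ≤ cn φ d
  hi : ∀ d, (cn φ d : ℝ) ≤ (1 - 1 / b ^ 30 + 1 / b ^ 50) * s
  supp : ∀ x d, φ x = some d → P.Q d x ≠ 0
  left : ∀ d, |∑ x, ind (φ x = none) * P.Q d x - 1 / b ^ 30| ≤ 1 / b ^ 50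
  col : ∀ y, |tot P.D (nu s φ) (fun o S => P.w o S y) - 1| ≤ 2 / b ^ 12
  pair : ∀ y y', (N : ℝ) ≤ tot P.D (nu s φ) (two P.ok y y') * (4 * b)
  bad : badSum P (nu s φ) ≤ 1 / 8

/-- The full contents: the vertices in the block `d` for the bijection `F`. -/
noncomputable def nuF (s : ℕ) (F : Dl × R ≃ X) (d : Dl) (x : X) : ℝ :=
  ind (∃ r, F (d, r) = x) / s

/-- `F` completes the contents `φ`. -/
def Compl (P : Pl X Y Ob Dl R n) (φ : X → Option Dl) (F : Dl × R ≃ X) : Prop :=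
  ∀ d r, φ (F (d, r)) = some d ∨ (φ (F (d, r)) = none ∧ P.Q d (F (d, r)) ≠ 0)

end

/-! ## Rows -/

/-- Row P1: the clipped statistics are Lipschitz. -/
def P1Statement : Prop :=
  ∀ (X Ob Dl : Type) [Fintype X] [Fintype Ob] [Fintype Dl] [DecidableEq X] [DecidableEq Ob]
    [DecidableEq Dl] (n s : ℕ) (D : Ob → Fin n → Dl) (Φ : Ob → (Fin n → X) → ℝ) (C : ℝ),
    1 ≤ s → 0 ≤ C → (∀ o, Function.Injective (D o)) →
    (∀ d, (univ.filter (fun o => ∃ i, D o i = d)).card ≤ n * s) →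
    (∀ o S, 0 ≤ Φ o S) → (∀ o S, Φ o S ≤ C) →
    ∀ (φ : X → Option Dl) (x : X) (a : Option Dl),
      |tot D (nuc s (Function.update φ x a)) Φ - tot D (nuc s φ) Φ| ≤ 4 * n * C

/-- Row P2: the law of the contents and the probability of overflow. -/
def P2Statement : Prop :=
  ∀ (X Dl : Type) [Fintype X] [Fintype Dl] [DecidableEq X] [DecidableEq Dl] (n N s : ℕ) (b : ℝ)
    (Q : Dl → X → ℝ), Num n N s b → Fintype.card X = N → Fintype.card Dl * s = N →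
    (∀ d x, 0 ≤ Q d x) → (∀ d, ∑ x, Q d x = 1) →
    (∀ x, |∑ d, (s : ℝ) * Q d x - 1| ≤ 1 / b ^ 60) →
    (∀ x a, 0 ≤ PX Q s b x a) ∧ (∀ x, ∑ a, PX Q s b x a = 1) ∧
    (∀ x d, |PX Q s b x (some d) - (1 - 1 / b ^ 30) * ((s : ℝ) * Q d x)| ≤
      2 / b ^ 60 * ((s : ℝ) * Q d x)) ∧
    (∑ d, EE (PX Q s b) (fun φ => ind ((1 - 1 / b ^ 30 + 1 / b ^ 50) * s < (cn φ d : ℝ))) +
      ∑ d, EE (PX Q s b) (fun φ => ind ((cn φ d : ℝ) < (1 - 1 / b ^ 30 - 1 / b ^ 50) * s)) ≤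
      Real.exp (-b ^ 100))

/-- Row P3: the means of the clipped statistics. -/
def P3Statement : Prop :=
  ∀ (X Ob Dl : Type) [Fintype X] [Fintype Ob] [Fintype Dl] [DecidableEq X] [DecidableEq Ob]
    [DecidableEq Dl] (n N s : ℕ) (b : ℝ) (Q : Dl → X → ℝ) (D : Ob → Fin n → Dl)
    (Φ : Ob → (Fin n → X) → ℝ) (C : ℝ), Num n N s b → Fintype.card X = N →
    Fintype.card Ob = N → Fintype.card Dl * s = N → (∀ d x, 0 ≤ Q d x) →
    (∀ d, ∑ x, Q d x = 1) → (∀ x, |∑ d, (s : ℝ) * Q d x - 1| ≤ 1 / b ^ 60) →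
    (∀ d x, Q d x * N ≤ b ^ 8) → (∀ o, Function.Injective (D o)) →
    (∀ o S, 0 ≤ Φ o S) → (∀ o S, Φ o S ≤ C) →
    |EE (PX Q s b) (fun φ => tot D (nuc s φ) Φ) - tot D Q Φ| ≤ tot D Q Φ / b ^ 28 + C * b ^ 20

/-- Row P4: the mean of the bad sum. -/
def P4Statement : Prop :=
  ∀ (X Y Ob Dl R : Type) [Fintype X] [Fintype Y] [Fintype Ob] [Fintype Dl] [Fintype R]
    [DecidableEq X] [DecidableEq Y] [DecidableEq Ob] [DecidableEq Dl] [DecidableEq R]
    (n N s : ℕ) (b : ℝ) (P : Pl X Y Ob Dl R n), Num n N s b → PlHyp P N s b →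
    EE (PX P.Q s b) (fun φ => badSum P (nu s φ)) ≤ 1 / 16

/-- Row P5: good contents exist. -/
def P5Statement : Prop :=
  ∀ (X Y Ob Dl R : Type) [Fintype X] [Fintype Y] [Fintype Ob] [Fintype Dl] [Fintype R]
    [DecidableEq X] [DecidableEq Y] [DecidableEq Ob] [DecidableEq Dl] [DecidableEq R]
    (n N s : ℕ) (b : ℝ) (P : Pl X Y Ob Dl R n), Num n N s b → PlHyp P N s b →
    ∃ φ : X → Option Dl, ContOK P N s b φ

/-- Row P6: completion of the contents. -/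
def P6Statement : Prop :=
  ∀ (X Y Ob Dl R : Type) [Fintype X] [Fintype Y] [Fintype Ob] [Fintype Dl] [Fintype R]
    [DecidableEq X] [DecidableEq Y] [DecidableEq Ob] [DecidableEq Dl] [DecidableEq R]
    (n N s : ℕ) (b : ℝ) (P : Pl X Y Ob Dl R n) (φ : X → Option Dl), Num n N s b →
    PlHyp P N s b → ContOK P N s b φ → ∃ F : Dl × R ≃ X, Compl P φ F

/-- Row P7: the mean over the permutations of the blocks. -/
def P7Statement : Prop :=
  ∀ (X Ob Dl R : Type) [Fintype X] [Fintype Ob] [Fintype Dl] [Fintype R] [DecidableEq X]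
    [DecidableEq Ob] [DecidableEq Dl] [DecidableEq R] (n s : ℕ) (D : Ob → Fin n → Dl)
    (pos : Ob → Fin n → R) (F : Dl × R ≃ X) (Φ : Ob → (Fin n → X) → ℝ),
    Fintype.card R = s → 1 ≤ s → (∀ o, Function.Injective (D o)) →
    EE (fun (_ : Dl) (_ : Equiv.Perm R) => (1 : ℝ) / Fintype.card (Equiv.Perm R))
      (fun π => ∑ o, Φ o (fun i => F (D o i, π (D o i) (pos o i)))) = tot D (nuF s F) Φ

/-- Row P8: full contents against contents. -/
def P8Statement : Prop :=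
  ∀ (X Y Ob Dl R : Type) [Fintype X] [Fintype Y] [Fintype Ob] [Fintype Dl] [Fintype R]
    [DecidableEq X] [DecidableEq Y] [DecidableEq Ob] [DecidableEq Dl] [DecidableEq R]
    (n N s : ℕ) (b : ℝ) (P : Pl X Y Ob Dl R n) (φ : X → Option Dl) (F : Dl × R ≃ X),
    Num n N s b → PlHyp P N s b → ContOK P N s b φ → Compl P φ F →
    (∀ (Φ : Ob → (Fin n → X) → ℝ) (C : ℝ), (∀ o S, 0 ≤ Φ o S) → (∀ o S, Φ o S ≤ C) →
      tot P.D (nu s φ) Φ ≤ tot P.D (nuF s F) Φ ∧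
      tot P.D (nuF s F) Φ ≤ tot P.D (nu s φ) Φ + N * C / b ^ 28) ∧
    tot P.D (nuF s F) (fun o S => ind (¬ P.good o S)) ≤ 1 / 4

/-- Row P9: the permutations. -/
def P9Statement : Prop :=
  ∀ (X Y Ob Dl R : Type) [Fintype X] [Fintype Y] [Fintype Ob] [Fintype Dl] [Fintype R]
    [DecidableEq X] [DecidableEq Y] [DecidableEq Ob] [DecidableEq Dl] [DecidableEq R]
    (n N s : ℕ) (b : ℝ) (P : Pl X Y Ob Dl R n) (φ : X → Option Dl) (F : Dl × R ≃ X),
    Num n N s b → PlHyp P N s b → ContOK P N s b φ → Compl P φ F →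
    ∃ F' : Dl × R ≃ X, (∀ o, P.good o (fun i => F' (P.D o i, P.pos o i))) ∧
      (∀ y, ∑ o, P.w o (fun i => F' (P.D o i, P.pos o i)) y ≤ 1 + 4 / b ^ 12) ∧
      ∀ y y', (N : ℝ) ≤ ((univ.filter (fun o => y ∈ NbS P.ok (fun i => F' (P.D o i, P.pos o i)) ∧
        y' ∈ NbS P.ok (fun i => F' (P.D o i, P.pos o i)))).card : ℝ) * (16 * b)

/-- Part III. -/
def PlaceStatement : Prop :=
  ∀ (X Y Ob Dl R : Type) [Fintype X] [Fintype Y] [Fintype Ob] [Fintype Dl] [Fintype R]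
    [DecidableEq X] [DecidableEq Y] [DecidableEq Ob] [DecidableEq Dl] [DecidableEq R]
    (n N s : ℕ) (b : ℝ) (P : Pl X Y Ob Dl R n), Num n N s b → PlHyp P N s b →
    ∃ (F : Dl × R ≃ X) (G : Ob ≃ Y), ∀ o i, P.ok (F (P.D o i, P.pos o i)) (G o)

end Pool.Agent.FQ
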