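import Pool.Agent.FQ.PDefs

/-!
# Project FQ (MP_a55b9e_co), row PF: the placement theorem from the rows (helper74)
-/

set_option autoImplicit false

namespace Pool.Agent.FQ

open Finset Classical

theorem pf_b64 {n N s : ℕ} {b : ℝ} (h : Num n N s b) : 64 ≤ b := by
  have h1 : (1000 : ℝ) ≤ n := by exact_mod_cast h.hn
  have h2 : (n : ℝ) ^ 1 ≤ (n : ℝ) ^ 400 := pow_le_pow_right₀ (by linarith) (by norm_num)
  have h3 := h.hnb
  linarith

theorem place (hHL : HLStatement) (h5 : P5Statement) (h6 : P6Statement) (h9 : P9Statement) :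
    PlaceStatement := by
  intro X Y Ob Dl R _ _ _ _ _ _ _ _ _ _ n N s b P hn hP
  obtain ⟨φ, hφ⟩ := h5 X Y Ob Dl R n N s b P hn hP
  obtain ⟨F, hF⟩ := h6 X Y Ob Dl R n N s b P φ hn hP hφ
  obtain ⟨F', hg, hc, hp⟩ := h9 X Y Ob Dl R n N s b P φ F hn hP hφ hF
  have hb := pf_b64 hn
  have hb0 : 0 < b := by linarith
  obtain ⟨e, he⟩ := hHL Ob Y (fun o y => y ∈ NbS P.ok (fun i => F' (P.D o i, P.pos o i)))
    (fun o y => P.w o (fun i => F' (P.D o i, P.pos o i)) y) (4 / b ^ 12) (1 / b ^ 8)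
    (1 / (16 * b)) (hP.cO.trans hP.cY.symm) (fun o y => hP.w0 _ _ _)
    (fun o y h => hP.wz _ _ _ h) (fun o => hP.w1 _ _ (hg o)) hc
    (fun o y h => by
      rw [hP.cY, div_le_iff₀ (by positivity)]
      exact hP.wge _ _ (hg o) y h)
    (by positivity)
    (fun y y' _ => by
      rw [hP.cO, one_div, inv_mul_le_iff₀ (by positivity), mul_comm]
      refine (hp y y').trans (le_of_eq ?_)
      congr!)
    (by
      rw [one_div, one_div, ← mul_inv, div_le_iff₀ (by positivity), inv_mul_eq_div,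
        le_div_iff₀ (by positivity)]
      have h1 : b ^ 12 = b ^ 8 * b * (b ^ 3) := by ring
      have h2 : (64 : ℝ) ≤ b ^ 3 := by
        have h3 : b ^ 1 ≤ b ^ 3 := pow_le_pow_right₀ (by linarith) (by norm_num)
        linarith
      have h4 : 0 < b ^ 8 * b := by positivity
      rw [h1]
      nlinarith)
  refine ⟨F', e, fun o i => ?_⟩
  have h := he o
  simp only [NbS, mem_filter] at h
  exact h.2 i

end Pool.Agent.FQ
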