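import Pool.Agent.FQ.SDefs

/-!
# Project FQ, row S2: the corrected kernel (helper35)
-/

set_option autoImplicit false

namespace Pool.Agent.FQ

open Finset Classical
open Pool.Agent.H73.Cube (EE Loc)

theorem s2_sum_abs {X : Type} [Fintype X] {q ψ : X → ℝ} {e : ℝ} (h0 : ∀ x, 0 ≤ q x)
    (h1 : ∑ x, q x = 1) (hψ : ∀ x, |ψ x| ≤ e) : |∑ x, q x * ψ x| ≤ e := by
  calc |∑ x, q x * ψ x| ≤ ∑ x, |q x * ψ x| := Finset.abs_sum_le_sum_abs _ _
    _ ≤ ∑ x, q x * e := Finset.sum_le_sum fun x _ => by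
        rw [abs_mul, abs_of_nonneg (h0 x)]
        exact mul_le_mul_of_nonneg_left (hψ x) (h0 x)
    _ = e := by rw [← Finset.sum_mul, h1, one_mul]

theorem s2_prod_le {ι : Type} [DecidableEq ι] (A : Finset ι) {q f : ι → ℝ} {d : ℝ} {n : ℕ}
    (hq : ∀ i, 0 ≤ q i) (hf0 : ∀ i, 0 ≤ f i) (hf : ∀ i, f i ≤ 1 + d) (hd : 0 ≤ d)
    (hA : A.card ≤ n) (hnd : d * n ≤ 1 / 4) :
    ∏ i ∈ A, q i * f i ≤ 4 / 3 * ∏ i ∈ A, q i := by
  have h1 : ∏ i ∈ A, f i ≤ 4 / 3 := by
    calc ∏ i ∈ A, f i ≤ ∏ _i ∈ A, (1 + d) :=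
          Finset.prod_le_prod (fun i _ => hf0 i) fun i _ => hf i
      _ = (1 + d) ^ A.card := by rw [Finset.prod_const]
      _ ≤ Real.exp d ^ A.card := by
          refine pow_le_pow_left₀ (by linarith) ?_ _
          have := Real.add_one_le_exp d
          linarith
      _ = Real.exp (A.card * d) := by rw [← Real.exp_nat_mul]
      _ ≤ Real.exp (1 / 4) := by
          refine Real.exp_le_exp.2 ?_
          have h2 : (A.card : ℝ) ≤ n := by exact_mod_cast hA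
          have h3 : (A.card : ℝ) * d ≤ n * d := mul_le_mul_of_nonneg_right h2 hd
          linarith
      _ ≤ 4 / 3 := by
          have h2 := Real.add_one_le_exp (-(1 / 4) : ℝ)
          have h3 : Real.exp (1 / 4) * Real.exp (-(1 / 4)) = 1 := by
            rw [← Real.exp_add]
            norm_num
          have h4 := Real.exp_pos (1 / 4 : ℝ)
          nlinarith
  rw [Finset.prod_mul_distrib, mul_comm]
  exact mul_le_mul_of_nonneg_right h1 (Finset.prod_nonneg fun i _ => hq i)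

theorem s2_le_prod {ι : Type} [DecidableEq ι] (A : Finset ι) {q f : ι → ℝ} {d : ℝ} {n : ℕ}
    (hq : ∀ i, 0 ≤ q i) (hf : ∀ i, 1 - d ≤ f i) (hd : 0 ≤ d) (hd1 : d ≤ 1)
    (hA : A.card ≤ n) (hnd : d * n ≤ 1 / 4) :
    3 / 4 * ∏ i ∈ A, q i ≤ ∏ i ∈ A, q i * f i := by
  have h1 : 3 / 4 ≤ ∏ i ∈ A, f i := by
    calc (3 / 4 : ℝ) ≤ 1 + (A.card : ℝ) * (-d) := by
          have h2 : (A.card : ℝ) ≤ n := by exact_mod_cast hA
          have h3 : (A.card : ℝ) * d ≤ n * d := mul_le_mul_of_nonneg_right h2 hd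
          linarith
      _ ≤ (1 + -d) ^ A.card := one_add_mul_le_pow (by linarith) _
      _ = ∏ _i ∈ A, (1 - d) := by rw [Finset.prod_const, sub_eq_add_neg]
      _ ≤ ∏ i ∈ A, f i := Finset.prod_le_prod (fun i _ => by linarith) fun i _ => hf i
  rw [Finset.prod_mul_distrib, mul_comm (3 / 4 : ℝ)]
  exact mul_le_mul_of_nonneg_left h1 (Finset.prod_nonneg fun i _ => hq i)

theorem s2 : S2Statement := by
  intro X Y Ob St Th _ _ _ _ _ _ _ _ _ _ n N s L μ lam b M ψ hN hM hψ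
  have hn : (1000 : ℝ) ≤ n := by exact_mod_cast hN.hn
  obtain ⟨d, hd⟩ : ∃ d : ℝ, d = 2 / (n : ℝ) ^ 2 := ⟨_, rfl⟩
  have hn2 : (0 : ℝ) < (n : ℝ) ^ 2 := by positivity
  have hd0 : 0 ≤ d := by rw [hd]; positivity
  have hnd : d * n ≤ 1 / 4 := by
    have h1 : d * n = 2 / n := by
      rw [hd]
      field_simp
    rw [h1, div_le_iff₀ (by linarith)]
    linarith
  have hd1 : d ≤ 1 / 4 := by
    have h1 : d * 1 ≤ d * n := mul_le_mul_of_nonneg_left (by linarith) hd0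
    linarith
  have hsum : ∀ h ω, |∑ x', M.q h ω x' * ψ x'| ≤ 1 / (n : ℝ) ^ 2 := fun h ω =>
    s2_sum_abs (hM.q0 h ω) (hM.q1 h ω) hψ
  have hdd : d = 1 / (n : ℝ) ^ 2 + 1 / (n : ℝ) ^ 2 := by
    rw [hd]
    ring
  have hfu : ∀ h ω x, 1 + ψ x - ∑ x', M.q h ω x' * ψ x' ≤ 1 + d := by
    intro h ω x
    have h1 := (abs_le.1 (hsum h ω)).1
    have h2 := (abs_le.1 (hψ x)).2
    rw [hdd]
    linarith
  have hfl : ∀ h ω x, 1 - d ≤ 1 + ψ x - ∑ x', M.q h ω x' * ψ x' := by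
    intro h ω x
    have h1 := (abs_le.1 (hsum h ω)).2
    have h2 := (abs_le.1 (hψ x)).1
    rw [hdd]
    linarith
  refine ⟨fun h ω x => ?_, fun h ω => ?_, fun h ω x => ?_, fun h ω x => ?_,
    fun o ω A S => ?_, fun o ω A S => ?_, fun θ h ω y hh => ?_⟩
  · unfold qc
    exact mul_nonneg (hM.q0 h ω x) (by linarith [hfl h ω x])
  · unfold qc
    have h1 : ∀ x, M.q h ω x * (1 + ψ x - ∑ x', M.q h ω x' * ψ x') =
        M.q h ω x + M.q h ω x * ψ x - M.q h ω x * ∑ x', M.q h ω x' * ψ x' := fun x => by ring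
    rw [Finset.sum_congr rfl fun x _ => h1 x, Finset.sum_sub_distrib, Finset.sum_add_distrib,
      ← Finset.sum_mul, hM.q1 h ω]
    ring
  · unfold qc
    rw [mul_comm]
    exact mul_le_mul_of_nonneg_right (by linarith [hfu h ω x]) (hM.q0 h ω x)
  · unfold qc
    have h1 := hM.q0 h ω x
    have h2 := hfl h ω x
    nlinarith
  · unfold qc
    exact s2_prod_le (n := n) A (fun i => hM.q0 _ _ _) (fun i => by linarith [hfl (M.sb o i) ω (S i)])
      (fun i => hfu (M.sb o i) ω (S i)) hd0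
      ((Finset.card_le_univ A).trans (by rw [Fintype.card_fin])) hnd
  · unfold qc
    exact s2_le_prod (n := n) A (fun i => hM.q0 _ _ _) (fun i => hfl (M.sb o i) ω (S i)) hd0
      (by linarith) ((Finset.card_le_univ A).trans (by rw [Fintype.card_fin])) hnd
  · funext x
    unfold qc
    rw [hM.loc θ h ω y hh]

end Pool.Agent.FQ
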