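import Pool.Agent.FQ.PDefs

/-!
# Project FQ, part II: the seeds for fixed witnesses

See note 5216 on MP_a55b9e_co, part II.
-/

set_option autoImplicit false

namespace Pool.Agent.FQ

open Finset Classical
open Pool.Agent.H73.Cube (EE Loc)

/-- Data of the seeds model: tokens `Th` with laws `P` of their seeds, sites `St` with kernels
`q`, sites `sb` of the neighbours of the odd positions `Ob`, common tokens `J`, influence `Inf`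
of the tokens, two tokens `th` per odd position, kernels `qm` without these tokens, events `ev`. -/
structure Sd (X Y Ob St Th : Type) (n : ℕ) where
  ok : X → Y → Prop
  P : Th → Y → ℝ
  q : St → (Th → Y) → X → ℝ
  sb : Ob → Fin n → St
  J : ℕ → Ob → Finset Th
  fail : Ob → (Th → Y) → Prop
  Inf : Th → Finset St
  th : Bool → Ob → Th
  qm : Bool → Ob → Fin n → (Th → Y) → X → ℝ
  ev : Bool → Ob → (Th → Y) → Prop

section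

variable {X Y Ob St Th : Type} [Fintype X] [Fintype Y] [Fintype Ob] [Fintype St] [Fintype Th]
  [DecidableEq X] [DecidableEq Y] [DecidableEq Ob] [DecidableEq St] [DecidableEq Th] {n : ℕ}

/-- Hypotheses of the seeds theorem. -/
structure SdHyp (M : Sd X Y Ob St Th n) (N L : ℕ) (μ : ℕ → ℕ) (lam b : ℝ) : Prop where
  cX : Fintype.card X = N
  cY : Fintype.card Y = N
  cO : Fintype.card Ob = N
  cS : 0 < Fintype.card St
  reg : ∀ i h, (univ.filter (fun o => M.sb o i = h)).card * Fintype.card St = N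
  P0 : ∀ θ y, 0 ≤ M.P θ y
  P1 : ∀ θ, ∑ y, M.P θ y = 1
  Ple : ∀ θ y, M.P θ y * N ≤ 101 / 100
  q0 : ∀ h ω x, 0 ≤ M.q h ω x
  q1 : ∀ h ω, ∑ x, M.q h ω x = 1
  qle : ∀ h ω x, M.q h ω x * N ≤ b ^ 7
  qge : ∀ h ω x, M.q h ω x ≠ 0 → 1 ≤ M.q h ω x * N * b ^ 3
  loc : ∀ θ h ω y, h ∉ M.Inf θ → M.q h (Function.update ω θ y) = M.q h ω
  infl : ∀ θ, (Fintype.card Th : ℝ) * ((M.Inf θ).card : ℝ) ^ 2 * b ^ 250 ≤
    (Fintype.card St : ℝ) ^ 2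
  failE : EE M.P (fun ω => ∑ o, ind (M.fail o ω)) ≤ 1 / b ^ 100
  com : ∀ o ω, M.fail o ω ∨ ∃ l ≤ L, μ l ≤ (M.J l o).card ∧
    (∀ i x, M.q (M.sb o i) ω x * N ≤ lam ^ μ l) ∧
    ∀ i x, M.q (M.sb o i) ω x ≠ 0 → ∀ θ ∈ M.J l o, M.ok x (ω θ)
  g1 : ∀ x, |EE M.P (fun ω => ∑ h, M.q h ω x) * N - Fintype.card St| ≤
    Fintype.card St / (n : ℝ) ^ 5
  g2 : ∀ y y', 9 / 10 * (N : ℝ) ≤
    EE M.P (fun ω => tot M.sb (fun h => M.q h ω) (two M.ok y y')) * b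
  thne : ∀ o, M.th true o ≠ M.th false o
  g3 : ∀ t y, 47 / 50 ≤ EE M.P (fun ω => ∑ o, ind (ω (M.th t o) = y ∧ M.ev t o ω))
  evf : ∀ t o ω, M.ev t o ω → ¬ M.fail o ω
  evq : ∀ t o ω, M.ev t o ω → ∀ S : Fin n → X,
    ∏ i, M.q (M.sb o i) ω (S i) ≤ b * ∏ i, M.qm t o i ω (S i)
  evs : ∀ t o ω, M.ev t o ω → ∀ i x, M.q (M.sb o i) ω x ≠ 0 → M.ok x (ω (M.th t o))
  qm0 : ∀ t o i ω x, 0 ≤ M.qm t o i ω x
  qm1 : ∀ t o i ω, ∑ x, M.qm t o i ω x ≤ 1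
  qmi : ∀ t o i ω y, M.qm t o i (Function.update ω (M.th t o) y) = M.qm t o i ω
  g5 : ∀ x x', (Fintype.card St : ℝ) / n ≤
    EE M.P (fun ω => ∑ h, ind (1 / (n : ℝ) ≤ M.q h ω x * N ∧ 1 / (n : ℝ) ≤ M.q h ω x' * N))
  hmu : ∀ l ≤ L, 10 ^ 10 ≤ μ l
  hmuL : ∀ l ≤ L, ((L : ℝ) + 1) * 100 ≤ 2 ^ (μ l / 50)
  hlam : 1 ≤ lam
  hlamb : lam ^ (400 * n) ≤ b

/-- The corrected kernel. -/
noncomputable def qc (q : St → (Th → Y) → X → ℝ) (ψ : X → ℝ) (h : St) (ω : Th → Y) (x : X) : ℝ :=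
  q h ω x * (1 + ψ x - ∑ x', q h ω x' * ψ x')

/-- Annealed sum over the odd positions. -/
noncomputable def an (M : Sd X Y Ob St Th n) (ψ : X → ℝ) (Φ : Ob → (Fin n → X) → ℝ) : ℝ :=
  EE M.P (fun ω => tot M.sb (fun h => qc M.q ψ h ω) Φ)

/-- Many common neighbours. -/
def gd (ok : X → Y → Prop) (N : ℕ) (b : ℝ) (S : Fin n → X) : Prop :=
  (N : ℝ) ≤ ((NbS ok S).card : ℝ) * b ^ 4

/-- Many common neighbours, and enough of them in `W`. -/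
def gdW (ok : X → Y → Prop) (N : ℕ) (b : ℝ) (W : Finset Y) (S : Fin n → X) : Prop :=
  gd ok N b S ∧ (N : ℝ) ≤ (((NbS ok S) ∩ W).card : ℝ) * b ^ 12

/-- Enough seeds of the common tokens in `W`, at all levels. -/
def Hit (M : Sd X Y Ob St Th n) (L : ℕ) (μ : ℕ → ℕ) (W : Finset Y) (o : Ob) (ω : Th → Y) : Prop :=
  ∀ l ≤ L, μ l ≤ (M.J l o).card →
    (M.J l o).card ≤ 100 * ((M.J l o).filter (fun θ => ω θ ∈ W)).card

/-- The bad sum of the seeds model. -/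
noncomputable def bsum (M : Sd X Y Ob St Th n) (N : ℕ) (b : ℝ) (ψ : X → ℝ) (ω : Th → Y) : ℝ :=
  ∑ o, ∑ A ∈ univ.filter (fun A : Finset (Fin n) => A.card ≤ 300), ∑ S : Fin n → X,
    ind (¬ M.fail o ω ∧ ¬ gd M.ok N b S ∧ ∀ i ∈ A, M.q (M.sb o i) ω (S i) ≠ 0) *
      ∏ i ∈ Aᶜ, qc M.q ψ (M.sb o i) ω (S i)

/-- The weights of the odd side. -/
structure WOK (M : Sd X Y Ob St Th n) (N : ℕ) (b : ℝ) (w : Ob → (Fin n → X) → Y → ℝ) : Prop where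
  w0 : ∀ o S y, 0 ≤ w o S y
  wle : ∀ o S y, w o S y * N ≤ 2 * b ^ 12
  wz : ∀ o S y, y ∉ NbS M.ok S → w o S y = 0
  w1 : ∀ o S, gd M.ok N b S → ∑ y, w o S y = 1
  wge : ∀ o S, gd M.ok N b S → ∀ y ∈ NbS M.ok S, 1 ≤ w o S y * N * b ^ 8

end

/-! ## Rows -/

/-- Row S1: the potential. -/
def S1Statement : Prop :=
  ∀ (X Y Ob St Th : Type) [Fintype X] [Fintype Y] [Fintype Ob] [Fintype St] [Fintype Th]
    [DecidableEq X] [DecidableEq Y] [DecidableEq Ob] [DecidableEq St] [DecidableEq Th]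
    (n N s L : ℕ) (μ : ℕ → ℕ) (lam b : ℝ) (M : Sd X Y Ob St Th n), Num n N s b →
    SdHyp M N L μ lam b → ∃ ψ : X → ℝ, (∀ x, |ψ x| ≤ 1 / (n : ℝ) ^ 2) ∧
      ∀ x, EE M.P (fun ω => ∑ h, qc M.q ψ h ω x) * N = Fintype.card St

/-- Row S2: the corrected kernel. -/
def S2Statement : Prop :=
  ∀ (X Y Ob St Th : Type) [Fintype X] [Fintype Y] [Fintype Ob] [Fintype St] [Fintype Th]
    [DecidableEq X] [DecidableEq Y] [DecidableEq Ob] [DecidableEq St] [DecidableEq Th]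
    (n N s L : ℕ) (μ : ℕ → ℕ) (lam b : ℝ) (M : Sd X Y Ob St Th n) (ψ : X → ℝ), Num n N s b →
    SdHyp M N L μ lam b → (∀ x, |ψ x| ≤ 1 / (n : ℝ) ^ 2) →
    (∀ h ω x, 0 ≤ qc M.q ψ h ω x) ∧ (∀ h ω, ∑ x, qc M.q ψ h ω x = 1) ∧
    (∀ h ω x, qc M.q ψ h ω x ≤ 2 * M.q h ω x) ∧ (∀ h ω x, M.q h ω x ≤ 2 * qc M.q ψ h ω x) ∧
    (∀ (o : Ob) ω (A : Finset (Fin n)) (S : Fin n → X),
      ∏ i ∈ A, qc M.q ψ (M.sb o i) ω (S i) ≤ 4 / 3 * ∏ i ∈ A, M.q (M.sb o i) ω (S i)) ∧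
    (∀ (o : Ob) ω (A : Finset (Fin n)) (S : Fin n → X),
      3 / 4 * ∏ i ∈ A, M.q (M.sb o i) ω (S i) ≤ ∏ i ∈ A, qc M.q ψ (M.sb o i) ω (S i)) ∧
    ∀ θ h ω y, h ∉ M.Inf θ → qc M.q ψ h (Function.update ω θ y) = qc M.q ψ h ω

/-- Row S3: bad tuples, with adversarial coordinates. -/
def S3Statement : Prop :=
  ∀ (X Y Ob St Th : Type) [Fintype X] [Fintype Y] [Fintype Ob] [Fintype St] [Fintype Th]
    [DecidableEq X] [DecidableEq Y] [DecidableEq Ob] [DecidableEq St] [DecidableEq Th]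
    (n N s L : ℕ) (μ : ℕ → ℕ) (lam b : ℝ) (M : Sd X Y Ob St Th n) (ψ : X → ℝ), Num n N s b →
    SdHyp M N L μ lam b → (∀ x, |ψ x| ≤ 1 / (n : ℝ) ^ 2) →
    EE M.P (fun ω => bsum M N b ψ ω) ≤ 1 / b ^ 100

/-- Row S4: few common neighbours in `W` although many seeds hit `W`. -/
def S4Statement : Prop :=
  ∀ (X Y Ob St Th : Type) [Fintype X] [Fintype Y] [Fintype Ob] [Fintype St] [Fintype Th]
    [DecidableEq X] [DecidableEq Y] [DecidableEq Ob] [DecidableEq St] [DecidableEq Th]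
    (n N s L : ℕ) (μ : ℕ → ℕ) (lam b : ℝ) (M : Sd X Y Ob St Th n) (ψ : X → ℝ) (W : Finset Y),
    Num n N s b → SdHyp M N L μ lam b → (∀ x, |ψ x| ≤ 1 / (n : ℝ) ^ 2) →
    EE M.P (fun ω => ∑ o, ∑ S : Fin n → X, ind (¬ M.fail o ω ∧ Hit M L μ W o ω ∧
      (((NbS M.ok S) ∩ W).card : ℝ) * b ^ 12 < N) * ∏ i, qc M.q ψ (M.sb o i) ω (S i)) ≤
      1 / b ^ 100

/-- Row S5: independent seeds hit a large set. -/
def S5Statement : Prop :=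
  ∀ (Th Y : Type) [Fintype Th] [Fintype Y] [DecidableEq Th] [DecidableEq Y] (N : ℕ)
    (P : Th → Y → ℝ) (J : Finset Th) (W : Finset Y), Fintype.card Y = N → 0 < N →
    (∀ θ y, 0 ≤ P θ y) → (∀ θ, ∑ y, P θ y = 1) → (∀ θ y, P θ y * N ≤ 101 / 100) →
    N ≤ 10 * W.card → 1000 ≤ J.card →
    EE P (fun ω => ind (100 * (J.filter (fun θ => ω θ ∈ W)).card < J.card)) ≤
      ((Wᶜ.card : ℝ) / N) / 2 ^ (J.card / 50)

/-- Row S6: large sets `W`. -/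
def S6Statement : Prop :=
  ∀ (X Y Ob St Th : Type) [Fintype X] [Fintype Y] [Fintype Ob] [Fintype St] [Fintype Th]
    [DecidableEq X] [DecidableEq Y] [DecidableEq Ob] [DecidableEq St] [DecidableEq Th]
    (n N s L : ℕ) (μ : ℕ → ℕ) (lam b : ℝ) (M : Sd X Y Ob St Th n) (ψ : X → ℝ) (W : Finset Y),
    Num n N s b → SdHyp M N L μ lam b → (∀ x, |ψ x| ≤ 1 / (n : ℝ) ^ 2) → N ≤ 10 * W.card →
    (N : ℝ) - (Wᶜ.card : ℝ) / 2 - 1 / b ^ 50 ≤ an M ψ (fun _ S => ind (gdW M.ok N b W S))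

/-- Row S7: sets `W` of middle size. -/
def S7Statement : Prop :=
  ∀ (X Y Ob St Th : Type) [Fintype X] [Fintype Y] [Fintype Ob] [Fintype St] [Fintype Th]
    [DecidableEq X] [DecidableEq Y] [DecidableEq Ob] [DecidableEq St] [DecidableEq Th]
    (n N s L : ℕ) (μ : ℕ → ℕ) (lam b : ℝ) (M : Sd X Y Ob St Th n) (ψ : X → ℝ) (W : Finset Y),
    Num n N s b → SdHyp M N L μ lam b → (∀ x, |ψ x| ≤ 1 / (n : ℝ) ^ 2) → 10 * W.card ≤ N →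
    (N : ℝ) ≤ 4 * b * W.card →
    17 / 10 * (W.card : ℝ) ≤ an M ψ (fun _ S => ind (gdW M.ok N b W S))

/-- Row S8: single vertices. -/
def S8Statement : Prop :=
  ∀ (X Y Ob St Th : Type) [Fintype X] [Fintype Y] [Fintype Ob] [Fintype St] [Fintype Th]
    [DecidableEq X] [DecidableEq Y] [DecidableEq Ob] [DecidableEq St] [DecidableEq Th]
    (n N s L : ℕ) (μ : ℕ → ℕ) (lam b : ℝ) (M : Sd X Y Ob St Th n) (ψ : X → ℝ),
    Num n N s b → SdHyp M N L μ lam b → (∀ x, |ψ x| ≤ 1 / (n : ℝ) ^ 2) →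
    (∀ y, 13 / 20 * (N : ℝ) ≤ an M ψ (fun _ S => ind (gd M.ok N b S ∧ y ∈ NbS M.ok S)) * b) ∧
    ∀ y y', 3 / 5 * (N : ℝ) ≤ an M ψ (two M.ok y y') * b

/-- Row S9: from the three regimes to the weights (abstract). -/
def S9Statement : Prop :=
  ∀ (I Y : Type) [Fintype I] [Fintype Y] [DecidableEq I] [DecidableEq Y] (N : ℕ) (b : ℝ)
    (π : I → ℝ) (A : I → Finset Y), Fintype.card Y = N → 0 < N → 1000 ≤ b →
    (∀ i, 0 ≤ π i) → ∑ i, π i = 1 →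
    (∀ W : Finset Y, N ≤ 10 * W.card → 1 - (Wᶜ.card : ℝ) / (2 * N) - 1 / b ^ 50 ≤
      ∑ i, π i * ind ((N : ℝ) ≤ ((A i).card : ℝ) * b ^ 4 ∧ (N : ℝ) ≤ ((A i ∩ W).card : ℝ) * b ^ 12)) →
    (∀ W : Finset Y, 10 * W.card ≤ N → (N : ℝ) ≤ 4 * b * W.card →
      17 / 10 * ((W.card : ℝ) / N) ≤
      ∑ i, π i * ind ((N : ℝ) ≤ ((A i).card : ℝ) * b ^ 4 ∧ (N : ℝ) ≤ ((A i ∩ W).card : ℝ) * b ^ 12)) →
    (∀ y, 13 / 20 ≤ (∑ i, π i * ind ((N : ℝ) ≤ ((A i).card : ℝ) * b ^ 4 ∧ y ∈ A i)) * b) →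
    ∃ w : I → Y → ℝ, (∀ i y, 0 ≤ w i y) ∧ (∀ i y, w i y * N ≤ 2 * b ^ 12) ∧
      (∀ i y, y ∉ A i → w i y = 0) ∧
      (∀ i, (N : ℝ) ≤ ((A i).card : ℝ) * b ^ 4 → ∑ y, w i y = 1) ∧
      (∀ i, (N : ℝ) ≤ ((A i).card : ℝ) * b ^ 4 → ∀ y ∈ A i, 1 ≤ w i y * N * b ^ 8) ∧
      ∀ y, |N * ∑ i, π i * w i y - 1| ≤ 4 / b ^ 16

/-- Row S10: the weights. -/
def S10Statement : Prop :=
  ∀ (X Y Ob St Th : Type) [Fintype X] [Fintype Y] [Fintype Ob] [Fintype St] [Fintype Th]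
    [DecidableEq X] [DecidableEq Y] [DecidableEq Ob] [DecidableEq St] [DecidableEq Th]
    (n N s L : ℕ) (μ : ℕ → ℕ) (lam b : ℝ) (M : Sd X Y Ob St Th n) (ψ : X → ℝ),
    Num n N s b → SdHyp M N L μ lam b → (∀ x, |ψ x| ≤ 1 / (n : ℝ) ^ 2) →
    ∃ w : Ob → (Fin n → X) → Y → ℝ, WOK M N b w ∧
      ∀ y, |an M ψ (fun o S => w o S y) - 1| ≤ 4 / b ^ 16

/-- Row S11: the statistics of the seeds are Lipschitz. -/
def S11Statement : Prop :=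
  ∀ (X Y Ob St Th : Type) [Fintype X] [Fintype Y] [Fintype Ob] [Fintype St] [Fintype Th]
    [DecidableEq X] [DecidableEq Y] [DecidableEq Ob] [DecidableEq St] [DecidableEq Th]
    (n N s L : ℕ) (μ : ℕ → ℕ) (lam b : ℝ) (M : Sd X Y Ob St Th n) (ψ : X → ℝ),
    Num n N s b → SdHyp M N L μ lam b → (∀ x, |ψ x| ≤ 1 / (n : ℝ) ^ 2) →
    ∀ (ω : Th → Y) (θ : Th) (y : Y),
    (∀ x, |∑ h, qc M.q ψ h (Function.update ω θ y) x - ∑ h, qc M.q ψ h ω x| ≤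
      (M.Inf θ).card * (2 * b ^ 7 / N)) ∧
    (∀ x x', |∑ h, ind (qc M.q ψ h (Function.update ω θ y) x ≠ 0 ∧
        qc M.q ψ h (Function.update ω θ y) x' ≠ 0) -
        ∑ h, ind (qc M.q ψ h ω x ≠ 0 ∧ qc M.q ψ h ω x' ≠ 0)| ≤ (M.Inf θ).card) ∧
    ∀ (Φ : Ob → (Fin n → X) → ℝ) (C : ℝ), (∀ o S, 0 ≤ Φ o S) → (∀ o S, Φ o S ≤ C) →
      |tot M.sb (fun h => qc M.q ψ h (Function.update ω θ y)) Φ -
        tot M.sb (fun h => qc M.q ψ h ω) Φ| ≤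
        n * (M.Inf θ).card * (N / Fintype.card St) * C

/-- Row S12: good seeds. -/
def S12Statement : Prop :=
  ∀ (X Y Ob St Th : Type) [Fintype X] [Fintype Y] [Fintype Ob] [Fintype St] [Fintype Th]
    [DecidableEq X] [DecidableEq Y] [DecidableEq Ob] [DecidableEq St] [DecidableEq Th]
    (n N s L : ℕ) (μ : ℕ → ℕ) (lam b : ℝ) (M : Sd X Y Ob St Th n) (ψ : X → ℝ)
    (w : Ob → (Fin n → X) → Y → ℝ), Num n N s b → SdHyp M N L μ lam b →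
    (∀ x, |ψ x| ≤ 1 / (n : ℝ) ^ 2) →
    (∀ x, EE M.P (fun ω => ∑ h, qc M.q ψ h ω x) * N = Fintype.card St) → WOK M N b w →
    (∀ y, |an M ψ (fun o S => w o S y) - 1| ≤ 4 / b ^ 16) →
    ∃ ω : Th → Y, (∀ o, ¬ M.fail o ω) ∧
      (∀ x, |(∑ h, qc M.q ψ h ω x) * (N / Fintype.card St) - 1| ≤ 1 / b ^ 60) ∧
      (∀ y, |tot M.sb (fun h => qc M.q ψ h ω) (fun o S => w o S y) - 1| ≤ 1 / b ^ 12) ∧
      (∀ y y', (N : ℝ) ≤ tot M.sb (fun h => qc M.q ψ h ω) (two M.ok y y') * (2 * b)) ∧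
      (∀ x x', (Fintype.card St : ℝ) ≤
        (∑ h, ind (qc M.q ψ h ω x ≠ 0 ∧ qc M.q ψ h ω x' ≠ 0)) * b ^ 4) ∧
      bsum M N b ψ ω ≤ 1 / 32

/-- Part II. -/
def SeedsStatement : Prop :=
  ∀ (X Y Ob St Th Dl R : Type) [Fintype X] [Fintype Y] [Fintype Ob] [Fintype St] [Fintype Th]
    [Fintype Dl] [Fintype R] [DecidableEq X] [DecidableEq Y] [DecidableEq Ob] [DecidableEq St]
    [DecidableEq Th] [DecidableEq Dl] [DecidableEq R]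
    (n N s L : ℕ) (μ : ℕ → ℕ) (lam b : ℝ) (M : Sd X Y Ob St Th n) (D : Ob → Fin n → Dl)
    (pos : Ob → Fin n → R) (site : Dl → St), Num n N s b → SdHyp M N L μ lam b →
    Fintype.card R = s → Fintype.card Dl * s = N → (∀ o, Function.Injective (D o)) →
    (∀ d, (univ.filter (fun o => ∃ i, D o i = d)).card ≤ n * s) →
    (∀ o i, site (D o i) = M.sb o i) →
    (∀ h, (univ.filter (fun d => site d = h)).card * Fintype.card St = Fintype.card Dl) →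
    ∃ P : Pl X Y Ob Dl R n, P.ok = M.ok ∧ P.D = D ∧ P.pos = pos ∧ PlHyp P N s b

end Pool.Agent.FQ
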